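import Pool.Agent.Lib.MP_dccecd_al.ComGen

/-! Finitely generated projective modules with an action of a commutative ring, and the images of
idempotent matrices on them (for MP_dccecd_al, the commutative base theorem). -/

namespace SepReg

universe u v

/-- finitely generated projective `R`-modules with an action of the commutative ring `T` -/
structure Bim (T : Type v) [CommRing T] (R : Type u) [Ring R] where
  X : Type u
  [grp : AddCommGroup X]
  [mod : Module R X]
  [fin : Module.Finite R X]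
  [proj : Module.Projective R X]
  act : T →+* Module.End R X

attribute [instance] Bim.grp Bim.mod Bim.fin Bim.proj

section Bim
variable {T : Type v} [CommRing T] {R : Type u} [Ring R]

theorem Bim.act_comm (C : Bim T R) (s t : T) (x : C.X) :
    C.act s (C.act t x) = C.act t (C.act s x) := by
  rw [← Module.End.mul_apply, ← Module.End.mul_apply, ← map_mul, ← map_mul, mul_comm]

theorem Bim.act_mul (C : Bim T R) (s t : T) (x : C.X) :
    C.act (s * t) x = C.act s (C.act t x) := by
  rw [map_mul, Module.End.mul_apply]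

/-- a stable submodule which is finitely generated and projective -/
abbrev Bim.sub (C : Bim T R) (N : Submodule R C.X) [Module.Finite R N] [Module.Projective R N]
    (h : ∀ t, ∀ x ∈ N, C.act t x ∈ N) : Bim T R where
  X := N
  act :=
    { toFun := fun t => (C.act t).restrict (h t)
      map_one' := by
        ext x
        simp
      map_mul' := fun s t => by
        ext x
        simp
      map_zero' := by
        ext x
        simp
      map_add' := fun s t => by
        ext x
        simp }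

/-- a quotient by a stable submodule -/
abbrev Bim.quo (C : Bim T R) (N : Submodule R C.X) [Module.Projective R (C.X ⧸ N)]
    (h : ∀ t, ∀ x ∈ N, C.act t x ∈ N) : Bim T R where
  X := C.X ⧸ N
  act :=
    { toFun := fun t => N.mapQ N (C.act t) (h t)
      map_one' := by
        apply LinearMap.ext
        intro x
        obtain ⟨v, rfl⟩ := Submodule.mkQ_surjective _ x
        simp
      map_mul' := fun s t => by
        apply LinearMap.ext
        intro x
        obtain ⟨v, rfl⟩ := Submodule.mkQ_surjective _ x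
        simp
      map_zero' := by
        apply LinearMap.ext
        intro x
        obtain ⟨v, rfl⟩ := Submodule.mkQ_surjective _ x
        simp
      map_add' := fun s t => by
        apply LinearMap.ext
        intro x
        obtain ⟨v, rfl⟩ := Submodule.mkQ_surjective _ x
        simp }

/-- equivariance -/
def Eqv {C D : Bim T R} (f : C.X →ₗ[R] D.X) : Prop := ∀ t x, f (C.act t x) = D.act t (f x)

variable {n : ℕ}

/-- the action of a matrix -/
def mat (C : Bim T R) (M : Matrix (Fin n) (Fin n) T) : (Fin n → C.X) →ₗ[R] (Fin n → C.X) :=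
  LinearMap.pi fun i => ∑ j, (C.act (M i j)).comp (LinearMap.proj j)

theorem mat_apply (C : Bim T R) (M : Matrix (Fin n) (Fin n) T) (v : Fin n → C.X) (i : Fin n) :
    mat C M v i = ∑ j, C.act (M i j) (v j) := by
  simp [mat]

theorem mat_mul (C : Bim T R) (M N : Matrix (Fin n) (Fin n) T) :
    mat C (M * N) = (mat C M).comp (mat C N) := by
  apply LinearMap.ext
  intro v
  funext i
  rw [LinearMap.comp_apply, mat_apply, mat_apply]
  simp only [mat_apply, map_sum]
  rw [Finset.sum_comm]
  apply Finset.sum_congr rfl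
  intro j _
  rw [Matrix.mul_apply, map_sum, LinearMap.sum_apply]
  apply Finset.sum_congr rfl
  intro k _
  rw [C.act_mul]

theorem mat_mul_apply (C : Bim T R) (M N : Matrix (Fin n) (Fin n) T) (v : Fin n → C.X) :
    mat C (M * N) v = mat C M (mat C N v) := by
  rw [mat_mul, LinearMap.comp_apply]

theorem mat_add_apply (C : Bim T R) (M N : Matrix (Fin n) (Fin n) T) (v : Fin n → C.X) :
    mat C (M + N) v = mat C M v + mat C N v := by
  funext i
  rw [Pi.add_apply, mat_apply, mat_apply, mat_apply, ← Finset.sum_add_distrib]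
  apply Finset.sum_congr rfl
  intro j _
  rw [Matrix.add_apply, map_add, LinearMap.add_apply]

theorem mat_sub_apply (C : Bim T R) (M N : Matrix (Fin n) (Fin n) T) (v : Fin n → C.X) :
    mat C (M - N) v = mat C M v - mat C N v := by
  funext i
  rw [Pi.sub_apply, mat_apply, mat_apply, mat_apply, ← Finset.sum_sub_distrib]
  apply Finset.sum_congr rfl
  intro j _
  rw [Matrix.sub_apply, map_sub, LinearMap.sub_apply]

theorem mat_zero_apply (C : Bim T R) (v : Fin n → C.X) :
    mat C (0 : Matrix (Fin n) (Fin n) T) v = 0 := by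
  funext i
  rw [mat_apply]
  simp

theorem mat_smul_one_apply (C : Bim T R) (t : T) (v : Fin n → C.X) (i : Fin n) :
    mat C (t • (1 : Matrix (Fin n) (Fin n) T)) v i = C.act t (v i) := by
  rw [mat_apply, Finset.sum_eq_single i]
  · simp
  · intro j _ hj
    rw [Matrix.smul_apply, Matrix.one_apply_ne (Ne.symm hj)]
    simp
  · intro h
    exact absurd (Finset.mem_univ i) h

theorem mat_one_apply (C : Bim T R) (v : Fin n → C.X) :
    mat C (1 : Matrix (Fin n) (Fin n) T) v = v := by
  funext i
  have := mat_smul_one_apply C (1 : T) v i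
  rw [one_smul, map_one, Module.End.one_apply] at this
  exact this

theorem mat_eqv {C D : Bim T R} (f : C.X →ₗ[R] D.X) (hf : Eqv f) (M : Matrix (Fin n) (Fin n) T)
    (v : Fin n → C.X) : f.compLeft (Fin n) (mat C M v) = mat D M (f.compLeft (Fin n) v) := by
  funext i
  rw [mat_apply]
  change f (mat C M v i) = _
  rw [mat_apply, map_sum]
  apply Finset.sum_congr rfl
  intro j _
  exact hf _ _

/-- the class of the image of a matrix -/
def pp [VNR R] (e : Matrix (Fin n) (Fin n) T) (C : Bim T R) : VR R :=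
  cls R (LinearMap.range (mat C e))

/-- the map induced on the images -/
def rmap {C D : Bim T R} (f : C.X →ₗ[R] D.X) (hf : Eqv f) (e : Matrix (Fin n) (Fin n) T) :
    LinearMap.range (mat C e) →ₗ[R] LinearMap.range (mat D e) :=
  (f.compLeft (Fin n)).restrict (by
    rintro _ ⟨v, rfl⟩
    rw [mat_eqv f hf]
    exact ⟨_, rfl⟩)

theorem rmap_coe {C D : Bim T R} (f : C.X →ₗ[R] D.X) (hf : Eqv f) (e : Matrix (Fin n) (Fin n) T)
    (x : LinearMap.range (mat C e)) (i : Fin n) : (rmap f hf e x : Fin n → D.X) i = f (x.1 i) := rfl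

theorem mem_range_mat {C : Bim T R} {e : Matrix (Fin n) (Fin n) T} (he : e * e = e)
    {x : Fin n → C.X} : x ∈ LinearMap.range (mat C e) ↔ mat C e x = x := by
  constructor
  · rintro ⟨v, rfl⟩
    rw [← mat_mul_apply, he]
  · intro h
    exact ⟨x, h⟩

theorem rmap_inj {C D : Bim T R} (f : C.X →ₗ[R] D.X) (hf : Eqv f) (e : Matrix (Fin n) (Fin n) T)
    (hi : Function.Injective f) : Function.Injective (rmap f hf e) := by
  intro x y h
  apply Subtype.ext
  funext i
  apply hi
  rw [← rmap_coe f hf e, ← rmap_coe f hf e, h]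

theorem rmap_surj {C D : Bim T R} (f : C.X →ₗ[R] D.X) (hf : Eqv f) (e : Matrix (Fin n) (Fin n) T)
    (hs : Function.Surjective f) : Function.Surjective (rmap f hf e) := by
  rintro ⟨_, ⟨w, rfl⟩⟩
  choose g hg using hs
  refine ⟨⟨mat C e (fun i => g (w i)), ⟨_, rfl⟩⟩, ?_⟩
  apply Subtype.ext
  change f.compLeft (Fin n) (mat C e (fun i => g (w i))) = mat D e w
  rw [mat_eqv f hf]
  congr 1
  funext i
  exact hg _

theorem pp_inj [VNR R] {C D : Bim T R} (f : C.X →ₗ[R] D.X) (hf : Eqv f)
    (e : Matrix (Fin n) (Fin n) T) (hi : Function.Injective f) : Le (pp e C) (pp e D) :=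
  le_of_inj (rmap f hf e) (rmap_inj f hf e hi)

theorem pp_surj [VNR R] {C D : Bim T R} (f : C.X →ₗ[R] D.X) (hf : Eqv f)
    (e : Matrix (Fin n) (Fin n) T) (hi : Function.Surjective f) : Le (pp e D) (pp e C) :=
  le_of_surj (rmap f hf e) (rmap_surj f hf e hi)

theorem pp_bij [VNR R] {C D : Bim T R} (f : C.X →ₗ[R] D.X) (hf : Eqv f)
    (e : Matrix (Fin n) (Fin n) T) (hi : Function.Bijective f) : pp e C = pp e D :=
  cls_congr (LinearEquiv.ofBijective (rmap f hf e) ⟨rmap_inj f hf e hi.1, rmap_surj f hf e hi.2⟩)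

theorem pp_exact [VNR R] {K X Y : Bim T R} (i : K.X →ₗ[R] X.X) (q : X.X →ₗ[R] Y.X) (hi : Eqv i)
    (hq : Eqv q) (hinj : Function.Injective i) (hsurj : Function.Surjective q)
    (hex : ∀ x, q x = 0 ↔ ∃ k, i k = x) {e : Matrix (Fin n) (Fin n) T} (he : e * e = e) :
    pp e X = pp e K + pp e Y := by
  apply cls_exact (rmap i hi e) (rmap q hq e) (rmap_inj i hi e hinj) (rmap_surj q hq e hsurj)
  ext ⟨x, hx⟩
  constructor
  · rintro ⟨⟨k, hk⟩, h⟩
    rw [LinearMap.mem_ker]
    apply Subtype.ext
    funext j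
    rw [rmap_coe]
    change q (x j) = 0
    rw [hex]
    exact ⟨k j, congrFun (congrArg Subtype.val h) j⟩
  · intro h
    rw [LinearMap.mem_ker] at h
    have h1 : ∀ j, ∃ k, i k = x j := by
      intro j
      rw [← hex]
      exact congrFun (congrArg Subtype.val h) j
    choose k hk using h1
    refine ⟨⟨mat K e k, ⟨_, rfl⟩⟩, ?_⟩
    apply Subtype.ext
    change i.compLeft (Fin n) (mat K e k) = x
    rw [mat_eqv i hi]
    have h2 : i.compLeft (Fin n) k = x := funext hk
    rw [h2]
    exact (mem_range_mat he).mp hx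

/-- the kernel of the multiplication by `t` -/
abbrev kerB [VNR R] (C : Bim T R) (t : T) : Bim T R :=
  C.sub (LinearMap.ker (C.act t)) (fun s x hx => by
    rw [LinearMap.mem_ker] at hx ⊢
    rw [C.act_comm, hx, map_zero])

/-- the image of the multiplication by `t` -/
abbrev ranB [VNR R] (C : Bim T R) (t : T) : Bim T R :=
  C.sub (LinearMap.range (C.act t)) (fun s x hx => by
    obtain ⟨v, rfl⟩ := hx
    rw [C.act_comm]
    exact ⟨_, rfl⟩)

/-- the cokernel of the multiplication by `t` -/
abbrev cokB [VNR R] (C : Bim T R) (t : T) : Bim T R :=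
  C.quo (LinearMap.range (C.act t)) (fun s x hx => by
    obtain ⟨v, rfl⟩ := hx
    rw [C.act_comm]
    exact ⟨_, rfl⟩)

theorem pp_ker_ran [VNR R] (C : Bim T R) (t : T) {e : Matrix (Fin n) (Fin n) T} (he : e * e = e) :
    pp e C = pp e (kerB C t) + pp e (ranB C t) := by
  refine pp_exact (K := kerB C t) (X := C) (Y := ranB C t) (LinearMap.ker (C.act t)).subtype
    (C.act t).rangeRestrict ?_ ?_ (Submodule.injective_subtype _)
    (C.act t).surjective_rangeRestrict ?_ he
  · intro s x
    rfl
  · intro s x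
    apply Subtype.ext
    exact C.act_comm _ _ _
  · intro x
    constructor
    · intro h
      exact ⟨⟨x, congrArg Subtype.val h⟩, rfl⟩
    · rintro ⟨⟨k, hk⟩, rfl⟩
      apply Subtype.ext
      exact hk

theorem pp_ran_cok [VNR R] (C : Bim T R) (t : T) {e : Matrix (Fin n) (Fin n) T} (he : e * e = e) :
    pp e C = pp e (ranB C t) + pp e (cokB C t) := by
  refine pp_exact (K := ranB C t) (X := C) (Y := cokB C t) (LinearMap.range (C.act t)).subtype
    (LinearMap.range (C.act t)).mkQ ?_ ?_ (Submodule.injective_subtype _)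
    (Submodule.mkQ_surjective _) ?_ he
  · intro s x
    rfl
  · intro s x
    rfl
  · intro x
    rw [Submodule.mkQ_apply, Submodule.Quotient.mk_eq_zero]
    constructor
    · intro h
      exact ⟨⟨x, h⟩, rfl⟩
    · rintro ⟨⟨k, hk⟩, rfl⟩
      exact hk

theorem pp_ker_mul [VNR R] (C : Bim T R) (s t : T) {e : Matrix (Fin n) (Fin n) T}
    (he : e * e = e) : pp e (kerB C (s * t)) = pp e (kerB C t) + pp e (kerB (ranB C t) s) := by
  have hle : LinearMap.ker (C.act t) ≤ LinearMap.ker (C.act (s * t)) := by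
    intro x hx
    rw [LinearMap.mem_ker] at hx ⊢
    rw [C.act_mul, hx, map_zero]
  have h0 : ∀ x : LinearMap.ker (C.act (s * t)),
      (C.act t).rangeRestrict x.1 ∈ LinearMap.ker ((ranB C t).act s) := by
    rintro ⟨x, hx⟩
    rw [LinearMap.mem_ker] at hx ⊢
    apply Subtype.ext
    rw [C.act_mul] at hx
    exact hx
  refine pp_exact (K := kerB C t) (X := kerB C (s * t)) (Y := kerB (ranB C t) s)
    (Submodule.inclusion hle)
    (((C.act t).rangeRestrict.comp (LinearMap.ker (C.act (s * t))).subtype).codRestrict _ h0)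
    ?_ ?_ (Submodule.inclusion_injective hle) ?_ ?_ he
  · intro r x
    rfl
  · intro r x
    apply Subtype.ext
    apply Subtype.ext
    exact C.act_comm _ _ _
  · rintro ⟨⟨x, v, hv⟩, h⟩
    rw [LinearMap.mem_ker] at h
    have h1 : C.act s x = 0 := congrArg Subtype.val h
    refine ⟨⟨v, ?_⟩, ?_⟩
    · rw [LinearMap.mem_ker, C.act_mul, hv, h1]
    · apply Subtype.ext
      apply Subtype.ext
      exact hv
  · rintro ⟨x, hx⟩
    constructor
    · intro h
      have h1 := congrArg Subtype.val (congrArg Subtype.val h)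
      exact ⟨⟨x, h1⟩, rfl⟩
    · rintro ⟨⟨k, hk⟩, h⟩
      have h1 : k = x := congrArg Subtype.val h
      apply Subtype.ext
      apply Subtype.ext
      change C.act t x = 0
      rw [← h1]
      exact hk

theorem pp_cok_mul [VNR R] (C : Bim T R) (s t : T) {e : Matrix (Fin n) (Fin n) T}
    (he : e * e = e) : pp e (cokB C (s * t)) = pp e (cokB C t) + pp e (cokB (ranB C t) s) := by
  have hle : LinearMap.range (C.act (s * t)) ≤ (LinearMap.range (C.act t)).comap LinearMap.id := by
    rintro _ ⟨v, rfl⟩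
    rw [mul_comm, C.act_mul]
    exact ⟨_, rfl⟩
  have hle2 : LinearMap.range ((ranB C t).act s) ≤
      (LinearMap.range (C.act (s * t))).comap (LinearMap.range (C.act t)).subtype := by
    rintro _ ⟨⟨_, v, rfl⟩, rfl⟩
    exact ⟨v, C.act_mul _ _ _⟩
  rw [add_comm]
  refine pp_exact (K := cokB (ranB C t) s) (X := cokB C (s * t)) (Y := cokB C t)
    (Submodule.mapQ _ _ (LinearMap.range (C.act t)).subtype hle2)
    (Submodule.mapQ _ _ LinearMap.id hle) ?_ ?_ ?_ ?_ ?_ he
  · intro r x
    obtain ⟨v, rfl⟩ := Submodule.mkQ_surjective _ x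
    rfl
  · intro r x
    obtain ⟨v, rfl⟩ := Submodule.mkQ_surjective _ x
    rfl
  · rw [injective_iff_map_eq_zero]
    intro x h
    obtain ⟨⟨_, v, rfl⟩, rfl⟩ := Submodule.mkQ_surjective _ x
    rw [Submodule.mkQ_apply, Submodule.mapQ_apply, Submodule.Quotient.mk_eq_zero] at h
    obtain ⟨w, hw⟩ := h
    rw [Submodule.mkQ_apply, Submodule.Quotient.mk_eq_zero]
    refine ⟨⟨C.act t w, w, rfl⟩, ?_⟩
    apply Subtype.ext
    rw [C.act_mul] at hw
    exact hw
  · intro x
    obtain ⟨v, rfl⟩ := Submodule.mkQ_surjective _ x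
    exact ⟨Submodule.Quotient.mk v, rfl⟩
  · intro x
    obtain ⟨v, rfl⟩ := Submodule.mkQ_surjective _ x
    rw [Submodule.mkQ_apply, Submodule.mapQ_apply, Submodule.Quotient.mk_eq_zero]
    constructor
    · rintro ⟨w, hw⟩
      refine ⟨Submodule.Quotient.mk ⟨C.act t w, w, rfl⟩, ?_⟩
      rw [Submodule.mapQ_apply]
      congr 1
    · rintro ⟨k, hk⟩
      obtain ⟨⟨_, w, rfl⟩, rfl⟩ := Submodule.mkQ_surjective _ k
      rw [Submodule.mkQ_apply, Submodule.mapQ_apply, Submodule.Quotient.eq] at hk
      obtain ⟨z, hz⟩ := hk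
      refine ⟨w - C.act s z, ?_⟩
      rw [map_sub, ← C.act_mul, mul_comm, hz]
      change C.act t w - (C.act t w - v) = v
      abel

theorem ker_ran_le [VNR R] (C : Bim T R) (s t z : T) (e : Matrix (Fin n) (Fin n) T) :
    Le (pp e (kerB (ranB C (s * t)) z)) (pp e (kerB (ranB C t) z)) := by
  have hle : LinearMap.range (C.act (s * t)) ≤ LinearMap.range (C.act t) := by
    rintro _ ⟨v, rfl⟩
    rw [mul_comm, C.act_mul]
    exact ⟨_, rfl⟩
  refine pp_inj (C := kerB (ranB C (s * t)) z) (D := kerB (ranB C t) z)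
    (((Submodule.inclusion hle).comp (LinearMap.ker ((ranB C (s * t)).act z)).subtype).codRestrict
      _ ?_) ?_ e ?_
  · rintro ⟨⟨x, hx⟩, h⟩
    rw [LinearMap.mem_ker] at h ⊢
    have h1 : C.act z x = 0 := congrArg Subtype.val h
    apply Subtype.ext
    exact h1
  · intro r x
    rfl
  · intro x y h
    have h1 := congrArg Subtype.val (congrArg Subtype.val h)
    apply Subtype.ext
    apply Subtype.ext
    exact h1

theorem ker_ran_le' [VNR R] (C : Bim T R) (t z : T) (e : Matrix (Fin n) (Fin n) T) :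
    Le (pp e (kerB (ranB C t) z)) (pp e (kerB C z)) := by
  refine pp_inj (C := kerB (ranB C t) z) (D := kerB C z)
    (((LinearMap.range (C.act t)).subtype.comp (LinearMap.ker ((ranB C t).act z)).subtype).codRestrict
      _ ?_) ?_ e ?_
  · rintro ⟨⟨x, hx⟩, h⟩
    rw [LinearMap.mem_ker] at h ⊢
    exact congrArg Subtype.val h
  · intro r x
    rfl
  · intro x y h
    have h1 := congrArg Subtype.val h
    apply Subtype.ext
    apply Subtype.ext
    exact h1

theorem cok_ran_le [VNR R] (C : Bim T R) (s t z : T) (e : Matrix (Fin n) (Fin n) T) :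
    Le (pp e (cokB (ranB C (s * t)) z)) (pp e (cokB (ranB C t) z)) := by
  have h0 : ∀ x : LinearMap.range (C.act t), C.act s x.1 ∈ LinearMap.range (C.act (s * t)) := by
    rintro ⟨_, v, rfl⟩
    exact ⟨v, C.act_mul _ _ _⟩
  set g : LinearMap.range (C.act t) →ₗ[R] LinearMap.range (C.act (s * t)) :=
    ((C.act s).comp (LinearMap.range (C.act t)).subtype).codRestrict _ h0 with hg
  refine pp_surj (C := cokB (ranB C t) z) (D := cokB (ranB C (s * t)) z)
    (Submodule.mapQ _ _ g ?_) ?_ e ?_
  · rintro _ ⟨⟨_, v, rfl⟩, rfl⟩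
    refine ⟨⟨C.act (s * t) v, v, rfl⟩, ?_⟩
    apply Subtype.ext
    change C.act z (C.act (s * t) v) = C.act s (C.act z (C.act t v))
    rw [C.act_mul, C.act_comm z s]
  · intro r x
    obtain ⟨⟨_, v, rfl⟩, rfl⟩ := Submodule.mkQ_surjective _ x
    rw [Submodule.mkQ_apply]
    change Submodule.Quotient.mk _ = Submodule.Quotient.mk _
    congr 1
    apply Subtype.ext
    exact C.act_comm _ _ _
  · intro x
    obtain ⟨⟨_, v, rfl⟩, rfl⟩ := Submodule.mkQ_surjective _ x
    refine ⟨Submodule.Quotient.mk ⟨C.act t v, v, rfl⟩, ?_⟩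
    rw [Submodule.mapQ_apply]
    change Submodule.Quotient.mk _ = Submodule.Quotient.mk _
    congr 1
    apply Subtype.ext
    exact (C.act_mul _ _ _).symm

theorem fil_ker [VNR R] (D : Bim T R) (z : T) (N : ℕ) {e : Matrix (Fin n) (Fin n) T}
    (he : e * e = e) (j : ℕ) (hj : j ≤ N) :
    Le (j • pp e (kerB (ranB D (z ^ N)) z)) (pp e (kerB D (z ^ j))) := by
  induction j with
  | zero =>
    rw [zero_nsmul]
    exact ⟨_, zero_add _⟩
  | succ j ih =>
    have h1 : Le (pp e (kerB (ranB D (z ^ N)) z)) (pp e (kerB (ranB D (z ^ j)) z)) := by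
      obtain ⟨k, rfl⟩ := Nat.exists_eq_add_of_le (Nat.le_of_succ_le hj)
      rw [add_comm, pow_add]
      exact ker_ran_le D _ _ z e
    rw [pow_succ', pp_ker_mul D z (z ^ j) he, succ_nsmul]
    exact (ih (Nat.le_of_succ_le hj)).add h1

theorem fil_cok [VNR R] (D : Bim T R) (z : T) (N : ℕ) {e : Matrix (Fin n) (Fin n) T}
    (he : e * e = e) (j : ℕ) (hj : j ≤ N) :
    Le (j • pp e (cokB (ranB D (z ^ N)) z)) (pp e (cokB D (z ^ j))) := by
  induction j with
  | zero =>
    rw [zero_nsmul]
    exact ⟨_, zero_add _⟩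
  | succ j ih =>
    have h1 : Le (pp e (cokB (ranB D (z ^ N)) z)) (pp e (cokB (ranB D (z ^ j)) z)) := by
      obtain ⟨k, rfl⟩ := Nat.exists_eq_add_of_le (Nat.le_of_succ_le hj)
      rw [add_comm, pow_add]
      exact cok_ran_le D _ _ z e
    rw [pow_succ', pp_cok_mul D z (z ^ j) he, succ_nsmul]
    exact (ih (Nat.le_of_succ_le hj)).add h1

/-- the absorption argument -/
theorem absorb [VNR R] {e f : Matrix (Fin n) (Fin n) T} (he : e * e = e) (hf : f * f = f) (z : T)
    (k b : ℕ) (h1 : ∀ E : Bim T R, Le (cls R E.X) (k • pp e E))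
    (h2 : ∀ E : Bim T R, ∃ d : VR R, pp e E + d = pp f E + d ∧
      Le d (b • (cls R (cokB E z).X + cls R (kerB E z).X)))
    (h3 : ∀ (E : Bim T R) (j : ℕ), E.act (z ^ j) = 0 → pp e E = pp f E) (C : Bim T R) :
    pp e C = pp f C := by
  set N := b * k with hN
  set D := ranB C (z ^ N) with hD
  set E := ranB D (z ^ N) with hE
  obtain ⟨d, hd1, hd2⟩ := h2 E
  have k1 : pp e (kerB C (z ^ N)) = pp f (kerB C (z ^ N)) := by
    apply h3 _ N
    apply LinearMap.ext
    intro x
    apply Subtype.ext
    exact x.2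
  have k2 : pp e (cokB D (z ^ N)) = pp f (cokB D (z ^ N)) := by
    apply h3 _ N
    apply LinearMap.ext
    intro x
    obtain ⟨v, rfl⟩ := Submodule.mkQ_surjective _ x
    change Submodule.Quotient.mk _ = _
    rw [LinearMap.zero_apply, Submodule.Quotient.mk_eq_zero]
    exact ⟨v, rfl⟩
  have e1 : pp e C = pp e (kerB C (z ^ N)) + (pp e E + pp e (cokB D (z ^ N))) := by
    rw [pp_ker_ran C (z ^ N) he, pp_ran_cok D (z ^ N) he]
  have f1 : pp f C = pp f (kerB C (z ^ N)) + (pp f E + pp f (cokB D (z ^ N))) := by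
    rw [pp_ker_ran C (z ^ N) hf, pp_ran_cok D (z ^ N) hf]
  have l1 : Le (N • pp e (kerB E z)) (pp e (kerB C (z ^ N))) :=
    (fil_ker D z N he N le_rfl).trans (ker_ran_le' C (z ^ N) (z ^ N) e)
  have l2 : Le (N • pp e (cokB E z)) (pp e (cokB D (z ^ N))) := fil_cok D z N he N le_rfl
  have l3 : Le d (pp e (cokB D (z ^ N)) + pp e (kerB C (z ^ N))) := by
    refine hd2.trans ?_
    rw [nsmul_add]
    refine Le.add ?_ ?_
    · refine ((h1 _).nsmul b).trans ?_
      rw [← mul_nsmul', ← hN]
      exact l2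
    · refine ((h1 _).nsmul b).trans ?_
      rw [← mul_nsmul', ← hN]
      exact l1
  obtain ⟨w, hw⟩ := l3
  rw [e1, f1, ← k1, ← k2]
  calc pp e (kerB C (z ^ N)) + (pp e E + pp e (cokB D (z ^ N)))
      = pp e E + (pp e (cokB D (z ^ N)) + pp e (kerB C (z ^ N))) := by abel
    _ = (pp e E + d) + w := by rw [← hw]; abel
    _ = (pp f E + d) + w := by rw [hd1]
    _ = pp f E + (pp e (cokB D (z ^ N)) + pp e (kerB C (z ^ N))) := by rw [← hw]; abel
    _ = _ := by abel

end Bim
end SepReg
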