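import Pool.Agent.Lib.MP_dccecd_al.ComBim

/-! Small functions, and the difference of the cokernel and kernel classes of a matrix with nonzero
determinant over a domain (for MP_dccecd_al, the commutative base theorem). -/

namespace SepReg

universe u v

section Small
variable {T : Type v} [CommRing T] {R : Type u} [Ring R] [VNR R]

theorem ker_mono (C : Bim T R) (s t : T) :
    Le (cls R (kerB C t).X) (cls R (kerB C (s * t)).X) := by
  have hle : LinearMap.ker (C.act t) ≤ LinearMap.ker (C.act (s * t)) := by
    intro x hx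
    rw [LinearMap.mem_ker] at hx ⊢
    rw [C.act_mul, hx, map_zero]
  exact le_of_inj (Submodule.inclusion hle) (Submodule.inclusion_injective hle)

theorem cok_mono (C : Bim T R) (s t : T) :
    Le (cls R (cokB C t).X) (cls R (cokB C (s * t)).X) := by
  have hle : LinearMap.range (C.act (s * t)) ≤ (LinearMap.range (C.act t)).comap LinearMap.id := by
    rintro _ ⟨v, rfl⟩
    rw [mul_comm, C.act_mul]
    exact ⟨_, rfl⟩
  refine le_of_surj (Submodule.mapQ _ _ LinearMap.id hle) ?_
  intro x
  obtain ⟨v, rfl⟩ := Submodule.mkQ_surjective _ x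
  exact ⟨Submodule.Quotient.mk v, rfl⟩

variable {n : ℕ}

/-- the kernel class of a matrix -/
def kap (M : Matrix (Fin n) (Fin n) T) : Bim T R → VR R := fun C => cls R (LinearMap.ker (mat C M))

/-- the cokernel class of a matrix -/
def gam (M : Matrix (Fin n) (Fin n) T) : Bim T R → VR R :=
  fun C => cls R ((Fin n → C.X) ⧸ LinearMap.range (mat C M))

theorem kap_le (M : Matrix (Fin n) (Fin n) T) (C : Bim T R) :
    Le (kap M C) (n • cls R (kerB C M.det).X) := by
  rw [← cls_pi]
  have h0 : ∀ (x : LinearMap.ker (mat C M)) (i : Fin n), x.1 i ∈ LinearMap.ker (C.act M.det) := by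
    rintro ⟨x, hx⟩ i
    rw [LinearMap.mem_ker] at hx ⊢
    rw [← mat_smul_one_apply, ← Matrix.adjugate_mul, mat_mul_apply, hx, map_zero]
    rfl
  refine le_of_inj (LinearMap.pi fun i =>
    (((LinearMap.proj i).comp (LinearMap.ker (mat C M)).subtype).codRestrict _ (fun x => h0 x i))) ?_
  intro x y h
  apply Subtype.ext
  funext i
  have h1 := congrArg Subtype.val (congrFun h i)
  exact h1

theorem gam_le (M : Matrix (Fin n) (Fin n) T) (C : Bim T R) :
    Le (gam M C) (n • cls R (cokB C M.det).X) := by
  rw [← cls_pi]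
  set Z : Matrix (Fin n) (Fin n) T := M.det • 1 with hZ
  have h1 : Le (gam M C) (gam Z C) := by
    have hle : LinearMap.range (mat C Z) ≤ (LinearMap.range (mat C M)).comap LinearMap.id := by
      rintro _ ⟨v, rfl⟩
      rw [hZ, ← Matrix.mul_adjugate, mat_mul_apply]
      exact ⟨_, rfl⟩
    refine le_of_surj (Submodule.mapQ _ _ LinearMap.id hle) ?_
    intro x
    obtain ⟨v, rfl⟩ := Submodule.mkQ_surjective _ x
    exact ⟨Submodule.Quotient.mk v, rfl⟩
  refine h1.trans ?_
  have hk : LinearMap.range (mat C Z) ≤ LinearMap.ker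
      ((LinearMap.range (C.act M.det)).mkQ.compLeft (Fin n)) := by
    rintro _ ⟨v, rfl⟩
    rw [LinearMap.mem_ker]
    funext i
    change (LinearMap.range (C.act M.det)).mkQ (mat C Z v i) = 0
    rw [Submodule.mkQ_apply, Submodule.Quotient.mk_eq_zero, hZ, mat_smul_one_apply]
    exact ⟨_, rfl⟩
  refine le_of_inj ((LinearMap.range (mat C Z)).liftQ
    ((LinearMap.range (C.act M.det)).mkQ.compLeft (Fin n)) hk) ?_
  rw [injective_iff_map_eq_zero]
  intro x h
  obtain ⟨v, rfl⟩ := Submodule.mkQ_surjective _ x
  rw [Submodule.mkQ_apply, Submodule.liftQ_apply] at h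
  rw [Submodule.mkQ_apply, Submodule.Quotient.mk_eq_zero]
  have h2 : ∀ i, ∃ w, C.act M.det w = v i := by
    intro i
    have h3 : (LinearMap.range (C.act M.det)).mkQ (v i) = 0 := congrFun h i
    rw [Submodule.mkQ_apply, Submodule.Quotient.mk_eq_zero] at h3
    exact h3
  choose w hw using h2
  refine ⟨w, ?_⟩
  funext i
  rw [hZ, mat_smul_one_apply, hw]

theorem six' {X Y Z : Type u} [AddCommGroup X] [Module R X] [Module.Finite R X]
    [Module.Projective R X] [AddCommGroup Y] [Module R Y] [Module.Finite R Y]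
    [Module.Projective R Y] [AddCommGroup Z] [Module R Z] [Module.Finite R Z]
    [Module.Projective R Z] (f : X →ₗ[R] Y) (g : Y →ₗ[R] Z) (h : X →ₗ[R] Z) (hh : h = g.comp f) :
    cls R (LinearMap.ker f) + cls R (LinearMap.ker g) + cls R (Z ⧸ LinearMap.range h) =
      cls R (LinearMap.ker h) + cls R (Y ⧸ LinearMap.range f)
        + cls R (Z ⧸ LinearMap.range g) := by
  subst hh
  exact six f g

theorem six_fun (M N : Matrix (Fin n) (Fin n) T) :
    (kap N + kap M + gam (M * N) : Bim T R → VR R) = kap (M * N) + gam N + gam M := by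
  funext C
  exact six' (mat C N) (mat C M) (mat C (M * N)) (mat_mul C M N)

theorem kap_unit {M N : Matrix (Fin n) (Fin n) T} (h : N * M = 1) :
    (kap M : Bim T R → VR R) = 0 := by
  funext C
  have h1 : Subsingleton (LinearMap.ker (mat C M)) := by
    constructor
    intro x y
    have h2 : ∀ z : LinearMap.ker (mat C M), z.1 = 0 := by
      rintro ⟨z, hz⟩
      rw [LinearMap.mem_ker] at hz
      change z = 0
      rw [← mat_one_apply C z, ← h, mat_mul_apply, hz, map_zero]
    exact Subtype.ext ((h2 x).trans (h2 y).symm)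
  exact cls_subsingleton _

theorem gam_unit {M N : Matrix (Fin n) (Fin n) T} (h : M * N = 1) :
    (gam M : Bim T R → VR R) = 0 := by
  funext C
  have h1 : Subsingleton ((Fin n → C.X) ⧸ LinearMap.range (mat C M)) := by
    rw [Submodule.Quotient.subsingleton_iff, LinearMap.range_eq_top]
    intro z
    exact ⟨mat C N z, by rw [← mat_mul_apply, h, mat_one_apply]⟩
  exact cls_subsingleton _

end Small

section Dom
variable (A : Type v) [CommRing A] [IsDomain A] (R : Type u) [Ring R] [VNR R]

/-- the functions which are bounded by a multiple of the classes of the kernel and of the cokernel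
of some nonzero element -/
def smallS : AddSubmonoid (Bim A R → VR R) where
  carrier := {s | ∃ z : A, z ≠ 0 ∧ ∃ b : ℕ, ∀ C,
    Le (s C) (b • (cls R (cokB C z).X + cls R (kerB C z).X))}
  add_mem' := by
    rintro s t ⟨z, hz, b, h⟩ ⟨y, hy, c, h'⟩
    refine ⟨z * y, mul_ne_zero hz hy, b + c, fun C => ?_⟩
    rw [add_nsmul]
    refine Le.add ((h C).trans (Le.nsmul ?_ b)) ((h' C).trans (Le.nsmul ?_ c))
    · rw [mul_comm]
      exact (cok_mono C y z).add (ker_mono C y z)
    · exact (cok_mono C z y).add (ker_mono C z y)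
  zero_mem' := ⟨1, one_ne_zero, 0, fun C => ⟨_, zero_add _⟩⟩

variable {A R}
variable {n : ℕ}

theorem kap_mem {M : Matrix (Fin n) (Fin n) A} (hM : M.det ≠ 0) : kap M ∈ smallS A R :=
  ⟨M.det, hM, n, fun C => (kap_le M C).trans ((Le.right _ _).nsmul n)⟩

theorem gam_mem {M : Matrix (Fin n) (Fin n) A} (hM : M.det ≠ 0) : gam M ∈ smallS A R :=
  ⟨M.det, hM, n, fun C => (gam_le M C).trans ((Le.left _ _).nsmul n)⟩

variable (R)

open Classical in
/-- the difference of the cokernel and kernel classes -/
noncomputable def chi (M : Matrix (Fin n) (Fin n) A) : Algebra.GrothendieckAddGroup (smallS A R) :=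
  if h : M.det ≠ 0 then
    Algebra.GrothendieckAddGroup.of (⟨gam M, gam_mem h⟩ : smallS A R) -
      Algebra.GrothendieckAddGroup.of (⟨kap M, kap_mem h⟩ : smallS A R)
  else 0

variable {R}

theorem of_eq_iff {S : Type*} [AddCommMonoid S] (x y : S) :
    (Algebra.GrothendieckAddGroup.of x : Algebra.GrothendieckAddGroup S) =
      Algebra.GrothendieckAddGroup.of y ↔ ∃ c, c + x = c + y := by
  constructor
  · intro h
    obtain ⟨c, hc⟩ := ((AddLocalization.addMonoidOf (⊤ : AddSubmonoid S)).eq_iff_exists).mp h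
    exact ⟨c, hc⟩
  · rintro ⟨c, hc⟩
    exact ((AddLocalization.addMonoidOf (⊤ : AddSubmonoid S)).eq_iff_exists).mpr
      ⟨⟨c, AddSubmonoid.mem_top c⟩, hc⟩

theorem chi_mul {M N : Matrix (Fin n) (Fin n) A} (hM : M.det ≠ 0) (hN : N.det ≠ 0) :
    chi R (M * N) = chi R M + chi R N := by
  have hMN : (M * N).det ≠ 0 := by
    rw [Matrix.det_mul]
    exact mul_ne_zero hM hN
  have h1 : (⟨kap N, kap_mem hN⟩ + ⟨kap M, kap_mem hM⟩ + ⟨gam (M * N), gam_mem hMN⟩ : smallS A R) =
      ⟨kap (M * N), kap_mem hMN⟩ + ⟨gam N, gam_mem hN⟩ + ⟨gam M, gam_mem hM⟩ :=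
    Subtype.ext (six_fun M N)
  have h2 := congrArg (Algebra.GrothendieckAddGroup.of (M := smallS A R)) h1
  rw [map_add, map_add, map_add, map_add] at h2
  rw [chi, chi, chi, dif_pos hMN, dif_pos hM, dif_pos hN, sub_add_sub_comm, sub_eq_sub_iff_add_eq_add]
  rw [← sub_eq_zero] at h2 ⊢
  rw [← h2]
  abel

theorem det_ne_of_mul {M N : Matrix (Fin n) (Fin n) A} (h : M * N = 1) : M.det ≠ 0 := by
  intro h0
  have h1 := congrArg Matrix.det h
  rw [Matrix.det_mul, h0, zero_mul, Matrix.det_one] at h1
  exact zero_ne_one h1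

theorem chi_unit {M N : Matrix (Fin n) (Fin n) A} (h : M * N = 1) (h' : N * M = 1) :
    chi R M = 0 := by
  have hM := det_ne_of_mul h
  rw [chi, dif_pos hM, sub_eq_zero]
  congr 1
  apply Subtype.ext
  change gam M = kap M
  rw [kap_unit h', gam_unit h]

/-- the diagonal matrix with one entry `a` -/
def dg (i : Fin n) (a : A) : Matrix (Fin n) (Fin n) A :=
  Matrix.diagonal (Function.update (fun _ => 1) i a)

theorem dg_det (i : Fin n) (a : A) : (dg i a).det = a := by
  rw [dg, Matrix.det_diagonal, Finset.prod_update_of_mem (Finset.mem_univ i)]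
  simp

theorem dg_mul (i : Fin n) (a b : A) : dg i (a * b) = dg i a * dg i b := by
  rw [dg, dg, dg, Matrix.diagonal_mul_diagonal]
  congr 1
  funext j
  by_cases h : j = i
  · subst h
    simp
  · simp [Function.update_of_ne h]

theorem chi_dg_mul (i : Fin n) {a b : A} (ha : a ≠ 0) (hb : b ≠ 0) :
    chi R (dg i (a * b)) = chi R (dg i a) + chi R (dg i b) := by
  rw [dg_mul, chi_mul]
  · rwa [dg_det]
  · rwa [dg_det]

theorem chi_one : chi R (1 : Matrix (Fin n) (Fin n) A) = 0 :=
  chi_unit (one_mul 1) (one_mul 1)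

theorem dg_one (i : Fin n) : dg i (1 : A) = 1 := by
  rw [dg, ← Matrix.diagonal_one]
  congr 1
  funext j
  by_cases h : j = i
  · subst h
    simp
  · simp [Function.update_of_ne h]

theorem chi_dg_prod {ι : Type*} (i : Fin n) (s : Finset ι) (m : ι → A)
    (hm : ∀ k ∈ s, m k ≠ 0) : chi R (dg i (∏ k ∈ s, m k)) = ∑ k ∈ s, chi R (dg i (m k)) := by
  classical
  induction s using Finset.induction_on with
  | empty => rw [Finset.prod_empty, Finset.sum_empty, dg_one, chi_one]
  | insert k s hk ih =>
    rw [Finset.prod_insert hk, Finset.sum_insert hk, chi_dg_mul, ih]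
    · intro j hj
      exact hm j (Finset.mem_insert_of_mem hj)
    · exact hm k (Finset.mem_insert_self _ _)
    · exact Finset.prod_ne_zero_iff.mpr fun j hj => hm j (Finset.mem_insert_of_mem hj)

theorem chi_dg_swap (i j : Fin n) {a : A} (ha : a ≠ 0) : chi R (dg i a) = chi R (dg j a) := by
  set P : Matrix (Fin n) (Fin n) A := (Equiv.swap i j).toPEquiv.toMatrix with hP
  have h1 : P * P = 1 := by
    rw [hP, PEquiv.toMatrix_toPEquiv_mul]
    ext k l
    rw [Matrix.submatrix_apply, PEquiv.toMatrix_toPEquiv_apply, id, Equiv.swap_apply_self,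
      Matrix.one_apply, Pi.single_apply]
    simp only [eq_comm]
  have hPd := det_ne_of_mul h1
  have h2 : P * dg j a = dg i a * P := by
    rw [hP, PEquiv.toMatrix_toPEquiv_mul, PEquiv.mul_toMatrix_toPEquiv]
    ext k l
    rw [Matrix.submatrix_apply, Matrix.submatrix_apply, id, id, Equiv.symm_swap, dg, dg,
      Matrix.diagonal_apply, Matrix.diagonal_apply]
    by_cases h : Equiv.swap i j k = l
    · have h3 : k = Equiv.swap i j l := by rw [← h, Equiv.swap_apply_self]
      rw [if_pos h, if_pos h3]
      by_cases h4 : k = i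
      · have h5 : Equiv.swap i j k = j := by rw [h4, Equiv.swap_apply_left]
        rw [h5, h4, Function.update_self, Function.update_self]
      · have h5 : Equiv.swap i j k ≠ j := by
          intro h6
          apply h4
          have := congrArg (Equiv.swap i j) h6
          rwa [Equiv.swap_apply_self, Equiv.swap_apply_right] at this
        rw [Function.update_of_ne h5, Function.update_of_ne h4]
    · have h3 : ¬ k = Equiv.swap i j l := by
        intro h3
        apply h
        rw [h3, Equiv.swap_apply_self]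
      rw [if_neg h, if_neg h3]
  have h3 := congrArg (chi R) h2
  rw [chi_mul hPd (by rwa [dg_det]), chi_mul (by rwa [dg_det]) hPd, chi_unit h1 h1, zero_add,
    add_zero] at h3
  exact h3.symm

theorem chi_diag (i0 : Fin n) (m : Fin n → A) (hm : ∀ k, m k ≠ 0) :
    chi R (Matrix.diagonal m) = chi R (dg i0 (∏ k, m k)) := by
  have key : ∀ s : Finset (Fin n), chi R (Matrix.diagonal fun k => if k ∈ s then m k else 1) =
      ∑ k ∈ s, chi R (dg k (m k)) := by
    intro s
    induction s using Finset.induction_on with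
    | empty =>
      rw [Finset.sum_empty]
      have : (Matrix.diagonal fun k => if k ∈ (∅ : Finset (Fin n)) then m k else 1) =
          (1 : Matrix (Fin n) (Fin n) A) := by
        rw [← Matrix.diagonal_one]
        congr 1
      rw [this, chi_one]
    | insert k s hk ih =>
      have h1 : (Matrix.diagonal fun j => if j ∈ insert k s then m j else 1) =
          dg k (m k) * Matrix.diagonal fun j => if j ∈ s then m j else 1 := by
        rw [dg, Matrix.diagonal_mul_diagonal]
        congr 1
        funext j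
        by_cases h : j = k
        · subst h
          simp [hk]
        · simp [Function.update_of_ne h, Finset.mem_insert, h]
      rw [h1, chi_mul, Finset.sum_insert hk, ih]
      · rw [dg_det]
        exact hm k
      · rw [Matrix.det_diagonal]
        refine Finset.prod_ne_zero_iff.mpr fun j _ => ?_
        split_ifs
        · exact hm j
        · exact one_ne_zero
  have h1 := key Finset.univ
  simp only [Finset.mem_univ, if_true] at h1
  rw [h1, chi_dg_prod i0 _ _ (fun k _ => hm k)]
  exact Finset.sum_congr rfl fun k _ => chi_dg_swap k i0 (hm k)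

theorem smul_one_eq (s : A) : (s • (1 : Matrix (Fin n) (Fin n) A)) = Matrix.diagonal fun _ => s := by
  ext i j
  rw [Matrix.smul_apply, Matrix.one_apply, Matrix.diagonal_apply]
  split_ifs
  · rw [smul_eq_mul, mul_one]
  · rw [smul_zero]

theorem smul_one_det (s : A) : (s • (1 : Matrix (Fin n) (Fin n) A)).det = s ^ n := by
  rw [smul_one_eq, Matrix.det_diagonal, Finset.prod_const, Finset.card_univ, Fintype.card_fin]

theorem chi_smul_one (i0 : Fin n) {s : A} (hs : s ≠ 0) :
    chi R (s • (1 : Matrix (Fin n) (Fin n) A)) = chi R (dg i0 (s ^ n)) := by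
  rw [smul_one_eq, chi_diag i0 _ (fun _ => hs), Finset.prod_const, Finset.card_univ,
    Fintype.card_fin]

variable {F : Type*} [Field F] [Algebra A F] [IsFractionRing A F]

variable (A R) in
/-- the property propagated by the induction over products of transvections -/
def PG (i0 : Fin n) (g : Matrix (Fin n) (Fin n) F) : Prop :=
  ∀ (M : Matrix (Fin n) (Fin n) A) (s : A), s ≠ 0 → M.map (algebraMap A F) = algebraMap A F s • g →
    ∀ α β : A, α ≠ 0 → β ≠ 0 → algebraMap A F α = algebraMap A F β * g.det →
      chi R M + chi R (dg i0 β) = chi R (s • (1 : Matrix (Fin n) (Fin n) A)) + chi R (dg i0 α)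

theorem map_det' (M : Matrix (Fin n) (Fin n) A) :
    (M.map (algebraMap A F)).det = algebraMap A F M.det := by
  rw [RingHom.map_det]
  rfl

theorem det_ne_of_map {M : Matrix (Fin n) (Fin n) A} {s : A} {g : Matrix (Fin n) (Fin n) F}
    (hs : s ≠ 0) (h : M.map (algebraMap A F) = algebraMap A F s • g) (hg : g.det ≠ 0) :
    M.det ≠ 0 := by
  intro h0
  have h1 := congrArg Matrix.det h
  rw [map_det', h0, map_zero, Matrix.det_smul] at h1
  have h2 : algebraMap A F s ≠ 0 := by
    rw [Ne, FaithfulSMul.algebraMap_eq_zero_iff]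
    exact hs
  exact mul_ne_zero (pow_ne_zero _ h2) hg h1.symm

theorem PG_diag (i0 : Fin n) (D : Fin n → F) (hD : (Matrix.diagonal D).det ≠ 0) :
    PG A R i0 (Matrix.diagonal D) := by
  intro M s hs hM α β hα hβ hαβ
  have hinj := IsFractionRing.injective A F
  have h1 : M = Matrix.diagonal fun i => M i i := by
    ext i j
    by_cases h : i = j
    · subst h
      simp
    · rw [Matrix.diagonal_apply_ne _ h]
      apply hinj
      have h2 := congrFun (congrFun hM i) j
      rw [Matrix.map_apply, Matrix.smul_apply, Matrix.diagonal_apply_ne _ h, smul_zero] at h2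
      rw [h2, map_zero]
  have h2 : ∀ i, algebraMap A F (M i i) = algebraMap A F s * D i := by
    intro i
    have h2 := congrFun (congrFun hM i) i
    rw [Matrix.map_apply, Matrix.smul_apply, Matrix.diagonal_apply_eq] at h2
    exact h2
  have hMd := det_ne_of_map hs hM hD
  have h3 : ∀ i, M i i ≠ 0 := by
    intro i h
    apply hMd
    rw [h1, Matrix.det_diagonal]
    exact Finset.prod_eq_zero (Finset.mem_univ i) h
  rw [h1, chi_diag i0 _ h3, chi_smul_one i0 hs, ← chi_dg_mul, ← chi_dg_mul]
  · congr 2
    apply hinj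
    rw [map_mul, map_mul, map_prod, map_pow, hαβ, Matrix.det_diagonal]
    simp only [h2]
    rw [Finset.prod_mul_distrib, Finset.prod_const, Finset.card_univ, Fintype.card_fin]
    ring
  · exact pow_ne_zero _ hs
  · exact hα
  · exact Finset.prod_ne_zero_iff.mpr fun j _ => h3 j
  · exact hβ

theorem PG_trans (i0 : Fin n) (t : Matrix.TransvectionStruct (Fin n) F) :
    PG A R i0 t.toMatrix := by
  intro M s hs hM α β hα hβ hαβ
  have hinj := IsFractionRing.injective A F
  have hdet : t.toMatrix.det = 1 := t.det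
  have hMd := det_ne_of_map hs hM (by rw [hdet]; exact one_ne_zero)
  rw [hdet, mul_one] at hαβ
  have hαβ' : α = β := hinj hαβ
  subst hαβ'
  congr 1
  obtain ⟨i, j, hij, c⟩ := t
  set m : A := M i j with hm
  have h1 : M = s • (1 : Matrix (Fin n) (Fin n) A) + Matrix.single i j m := by
    ext k l
    apply hinj
    have h2 := congrFun (congrFun hM k) l
    rw [Matrix.map_apply, Matrix.smul_apply, Matrix.TransvectionStruct.toMatrix_mk,
      Matrix.transvection, Matrix.add_apply] at h2
    rw [h2, Matrix.add_apply, Matrix.smul_apply]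
    have h3 := congrFun (congrFun hM i) j
    rw [Matrix.map_apply, Matrix.smul_apply, Matrix.TransvectionStruct.toMatrix_mk,
      Matrix.transvection, Matrix.add_apply, Matrix.one_apply_ne hij, Matrix.single_apply_same,
      zero_add, ← hm] at h3
    rw [map_add, smul_add]
    congr 1
    · by_cases hkl : k = l
      · subst hkl
        simp
      · rw [Matrix.one_apply_ne hkl, Matrix.one_apply_ne hkl]
        simp
    · by_cases hkl : i = k ∧ j = l
      · obtain ⟨rfl, rfl⟩ := hkl
        rw [Matrix.single_apply_same, Matrix.single_apply_same, h3]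
      · rw [Matrix.single_apply_of_ne _ _ _ _ _ hkl, Matrix.single_apply_of_ne _ _ _ _ _ hkl]
        simp
  have h2 : dg i s * M = (1 + Matrix.single i j m) * ((s • (1 : Matrix (Fin n) (Fin n) A)) * dg i s) := by
    have hmul : Matrix.single i j m * dg i s = Matrix.single i j m := by
      ext k l
      rw [dg, Matrix.mul_diagonal]
      by_cases hkl : i = k ∧ j = l
      · obtain ⟨rfl, rfl⟩ := hkl
        rw [Matrix.single_apply_same, Function.update_of_ne (Ne.symm hij), mul_one]
      · rw [Matrix.single_apply_of_ne _ _ _ _ _ hkl, zero_mul]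
    have hmul2 : dg i s * Matrix.single i j m = s • Matrix.single i j m := by
      ext k l
      rw [dg, Matrix.diagonal_mul, Matrix.smul_apply]
      by_cases hkl : i = k ∧ j = l
      · obtain ⟨rfl, rfl⟩ := hkl
        rw [Matrix.single_apply_same, Function.update_self, smul_eq_mul]
      · rw [Matrix.single_apply_of_ne _ _ _ _ _ hkl, mul_zero, smul_zero]
    rw [h1, mul_add, add_mul, one_mul, hmul2, smul_mul_assoc, one_mul, mul_smul_comm, mul_one,
      mul_smul_comm, hmul]
  have h3 : chi R (1 + Matrix.single i j m) = 0 := by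
    have e1 : (1 + Matrix.single i j m) * (1 - Matrix.single i j m) = 1 := by
      have : Matrix.single i j m * Matrix.single i j m = 0 := by
        apply Matrix.single_mul_single_of_ne
        exact Ne.symm hij
      rw [mul_sub, mul_one, add_mul, one_mul, this, add_zero, add_sub_cancel_right]
    have e2 : (1 - Matrix.single i j m) * (1 + Matrix.single i j m) = 1 := by
      have : Matrix.single i j m * Matrix.single i j m = 0 := by
        apply Matrix.single_mul_single_of_ne
        exact Ne.symm hij
      rw [sub_mul, one_mul, mul_add, mul_one, this, add_zero, add_sub_cancel_right]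
    exact chi_unit e1 e2
  have e1 : (1 + Matrix.single i j m).det ≠ 0 := by
    have : (1 + Matrix.single i j m : Matrix (Fin n) (Fin n) A).det = 1 :=
      Matrix.det_transvection_of_ne i j hij m
    rw [this]
    exact one_ne_zero
  have e2 : (dg i s).det ≠ 0 := by rwa [dg_det]
  have e3 : (s • (1 : Matrix (Fin n) (Fin n) A)).det ≠ 0 := by
    rw [smul_one_det]
    exact pow_ne_zero _ hs
  have h4 := congrArg (chi R) h2
  rw [chi_mul e2 hMd, chi_mul e1 (by rw [Matrix.det_mul]; exact mul_ne_zero e3 e2),
    chi_mul e3 e2, h3, zero_add, add_comm] at h4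
  exact add_right_cancel h4

theorem exists_clear (g : Matrix (Fin n) (Fin n) F) :
    ∃ (M : Matrix (Fin n) (Fin n) A) (s : A), s ≠ 0 ∧
      M.map (algebraMap A F) = algebraMap A F s • g := by
  obtain ⟨b, hb⟩ := IsLocalization.exist_integer_multiples_of_finite (nonZeroDivisors A)
    (fun x : Fin n × Fin n => g x.1 x.2)
  choose M hM using fun i j => hb (i, j)
  refine ⟨M, b, nonZeroDivisors.ne_zero b.2, ?_⟩
  ext i j
  rw [Matrix.map_apply, hM, Matrix.smul_apply, Algebra.smul_def, smul_eq_mul]

theorem PG_mul (i0 : Fin n) (g h : Matrix (Fin n) (Fin n) F) (hg : g.det ≠ 0) (hh : h.det ≠ 0)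
    (Pg : PG A R i0 g) (Ph : PG A R i0 h) : PG A R i0 (g * h) := by
  intro M s hs hM α β hα hβ hαβ
  have hinj := IsFractionRing.injective A F
  obtain ⟨M1, s1, hs1, hM1⟩ := exists_clear (A := A) g
  obtain ⟨M2, s2, hs2, hM2⟩ := exists_clear (A := A) h
  obtain ⟨a1, b1, hb1, hab1⟩ := IsFractionRing.div_surjective A (K := F) g.det
  obtain ⟨a2, b2, hb2, hab2⟩ := IsFractionRing.div_surjective A (K := F) h.det
  have hb1' := nonZeroDivisors.ne_zero hb1
  have hb2' := nonZeroDivisors.ne_zero hb2
  have fb1 : algebraMap A F b1 ≠ 0 := by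
    rw [Ne, FaithfulSMul.algebraMap_eq_zero_iff]
    exact hb1'
  have fb2 : algebraMap A F b2 ≠ 0 := by
    rw [Ne, FaithfulSMul.algebraMap_eq_zero_iff]
    exact hb2'
  have ha1 : a1 ≠ 0 := by
    rintro rfl
    rw [map_zero, zero_div] at hab1
    exact hg hab1.symm
  have ha2 : a2 ≠ 0 := by
    rintro rfl
    rw [map_zero, zero_div] at hab2
    exact hh hab2.symm
  have hd1 : algebraMap A F a1 = algebraMap A F b1 * g.det := by
    rw [← hab1]
    field_simp
  have hd2 : algebraMap A F a2 = algebraMap A F b2 * h.det := by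
    rw [← hab2]
    field_simp
  have e1 := Pg M1 s1 hs1 hM1 a1 b1 ha1 hb1' hd1
  have e2 := Ph M2 s2 hs2 hM2 a2 b2 ha2 hb2' hd2
  have m1 := det_ne_of_map hs1 hM1 hg
  have m2 := det_ne_of_map hs2 hM2 hh
  have m0 := det_ne_of_map hs hM (by rw [Matrix.det_mul]; exact mul_ne_zero hg hh)
  have dn : ∀ {a : A}, a ≠ 0 → (a • (1 : Matrix (Fin n) (Fin n) A)).det ≠ 0 := by
    intro a ha
    rw [smul_one_det]
    exact pow_ne_zero _ ha
  have h3 : (s • (1 : Matrix (Fin n) (Fin n) A)) * (M1 * M2) =
      ((s1 • (1 : Matrix (Fin n) (Fin n) A)) * (s2 • 1)) * M := by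
    have h4 : s • (M1 * M2) = (s1 * s2) • M := by
      apply Matrix.map_injective hinj
      have q1 : (s • (M1 * M2)).map (algebraMap A F) =
          algebraMap A F s • (M1.map (algebraMap A F) * M2.map (algebraMap A F)) := by
        rw [← Matrix.map_mul]
        ext i j
        rw [Matrix.map_apply, Matrix.smul_apply, Matrix.smul_apply, Matrix.map_apply, smul_eq_mul,
          map_mul, smul_eq_mul]
      have q2 : ((s1 * s2) • M).map (algebraMap A F) =
          (algebraMap A F s1 * algebraMap A F s2) • M.map (algebraMap A F) := by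
        ext i j
        simp
      change (s • (M1 * M2)).map (algebraMap A F) = ((s1 * s2) • M).map (algebraMap A F)
      rw [q1, q2, hM1, hM2, hM, smul_mul_smul_comm, smul_smul, smul_smul]
      congr 1
      ring
    rw [smul_mul_assoc, one_mul, h4, smul_mul_smul_comm, one_mul, smul_mul_assoc, one_mul]
  have h4 := congrArg (chi R) h3
  rw [chi_mul (dn hs) (by rw [Matrix.det_mul]; exact mul_ne_zero m1 m2), chi_mul m1 m2,
    chi_mul (by rw [Matrix.det_mul]; exact mul_ne_zero (dn hs1) (dn hs2)) m0,
    chi_mul (dn hs1) (dn hs2)] at h4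
  have h5 : α * (b1 * b2) = β * (a1 * a2) := by
    apply hinj
    rw [map_mul, map_mul, map_mul, map_mul, hαβ, hd1, hd2, Matrix.det_mul]
    ring
  have h6 := congrArg (fun a => chi R (dg i0 a)) h5
  beta_reduce at h6
  rw [chi_dg_mul i0 hα (mul_ne_zero hb1' hb2'), chi_dg_mul i0 hb1' hb2',
    chi_dg_mul i0 hβ (mul_ne_zero ha1 ha2), chi_dg_mul i0 ha1 ha2] at h6
  have h7 : chi R M + chi R (dg i0 β) - (chi R (s • (1 : Matrix (Fin n) (Fin n) A)) +
      chi R (dg i0 α)) = 0 := by
    have r1 := sub_eq_zero.mpr e1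
    have r2 := sub_eq_zero.mpr e2
    have r3 := sub_eq_zero.mpr h4
    have r4 := sub_eq_zero.mpr h6
    calc chi R M + chi R (dg i0 β) - (chi R (s • (1 : Matrix (Fin n) (Fin n) A)) +
      chi R (dg i0 α)) = (chi R M1 + chi R (dg i0 b1) -
        (chi R (s1 • (1 : Matrix (Fin n) (Fin n) A)) + chi R (dg i0 a1))) +
        (chi R M2 + chi R (dg i0 b2) -
        (chi R (s2 • (1 : Matrix (Fin n) (Fin n) A)) + chi R (dg i0 a2))) -
        (chi R (s • (1 : Matrix (Fin n) (Fin n) A)) + (chi R M1 + chi R M2) -
        (chi R (s1 • (1 : Matrix (Fin n) (Fin n) A)) + chi R (s2 • (1 : Matrix (Fin n) (Fin n) A))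
          + chi R M)) - (chi R (dg i0 α) + (chi R (dg i0 b1) + chi R (dg i0 b2)) -
        (chi R (dg i0 β) + (chi R (dg i0 a1) + chi R (dg i0 a2)))) := by abel
      _ = 0 := by rw [r1, r2, r3, r4]; abel
  exact sub_eq_zero.mp h7

theorem PG_all (i0 : Fin n) (g : Matrix (Fin n) (Fin n) F) (hg : g.det ≠ 0) : PG A R i0 g :=
  Matrix.diagonal_transvection_induction_of_det_ne_zero (PG A R i0) g hg (PG_diag i0)
    (PG_trans i0) (PG_mul i0)

/-- the class difference depends only on the determinant -/
theorem chi_eq_of_det (i0 : Fin n) {N : Matrix (Fin n) (Fin n) A} {s : A} (hs : s ≠ 0)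
    (hN : N.det = s ^ n) : chi R N = chi R (s • (1 : Matrix (Fin n) (Fin n) A)) := by
  set F := FractionRing A
  have hsF : algebraMap A F s ≠ 0 := by
    rw [Ne, FaithfulSMul.algebraMap_eq_zero_iff]
    exact hs
  set g : Matrix (Fin n) (Fin n) F := (algebraMap A F s)⁻¹ • N.map (algebraMap A F) with hg
  have h1 : N.map (algebraMap A F) = algebraMap A F s • g := by
    rw [hg, smul_smul, mul_inv_cancel₀ hsF, one_smul]
  have h2 : g.det = 1 := by
    rw [hg, Matrix.det_smul, map_det', hN, Fintype.card_fin, map_pow, ← mul_pow,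
      inv_mul_cancel₀ hsF, one_pow]
  have h3 := PG_all (A := A) (R := R) i0 g (by rw [h2]; exact one_ne_zero) N s hs h1 1 1
    one_ne_zero one_ne_zero (by rw [h2, mul_one])
  exact add_right_cancel h3

end Dom
end SepReg
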