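import Pool.Agent.Lib.MP_dccecd_al.ComChi

/-! Idempotent matrices over a domain with isomorphic complements (for MP_dccecd_al, the
commutative base theorem). -/

namespace SepReg

universe u v

section L
variable {T : Type v} [CommRing T] {R : Type u} [Ring R] [VNR R] {n : ℕ}

theorem lemL {e f u x y : Matrix (Fin n) (Fin n) T} (he : e * e = e) (hf : f * f = f)
    (hu1 : f * u = u) (hu2 : u * e = u) (hy1 : f * y = 0) (hy2 : y * e = 0) (hx : e * x = 0)
    (hxy : x * y = 1 - e) (hyx : y * x = 1 - f) (C : Bim T R) :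
    pp e C + gam (u + y) C = pp f C + kap (u + y) C := by
  have hux : u * x = 0 := by rw [← hu2, mul_assoc, hx, mul_zero]
  have h0 : ∀ v ∈ LinearMap.range (mat C e), mat C u v ∈ LinearMap.range (mat C f) := by
    intro v _
    rw [← hu1, mat_mul_apply]
    exact ⟨_, rfl⟩
  set r : LinearMap.range (mat C e) →ₗ[R] LinearMap.range (mat C f) := (mat C u).restrict h0 with hr
  have e1 := cls_source r
  have e2 := cls_target r
  have hk : cls R (LinearMap.ker r) = kap (u + y) C := by
    have h1 : ∀ w : LinearMap.ker r, w.1.1 ∈ LinearMap.ker (mat C (u + y)) := by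
      rintro ⟨⟨w, hw⟩, h⟩
      have h2 : mat C u w = 0 := congrArg Subtype.val h
      rw [mem_range_mat he] at hw
      rw [LinearMap.mem_ker]
      change mat C (u + y) w = 0
      rw [mat_add_apply, h2, zero_add, ← hw, ← mat_mul_apply, hy2, mat_zero_apply]
    refine cls_congr (LinearEquiv.ofBijective
      (((LinearMap.range (mat C e)).subtype.comp (LinearMap.ker r).subtype).codRestrict
        (LinearMap.ker (mat C (u + y))) h1) ⟨?_, ?_⟩)
    · intro v w h
      have h2 := congrArg Subtype.val h
      apply Subtype.ext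
      apply Subtype.ext
      exact h2
    · rintro ⟨w, hw⟩
      rw [LinearMap.mem_ker] at hw
      have h2 : mat C u w + mat C y w = 0 := by rw [← mat_add_apply, hw]
      have h3 : mat C u w = 0 := by
        have h4 := congrArg (mat C f) h2
        rw [map_add, ← mat_mul_apply, ← mat_mul_apply, hu1, hy1, mat_zero_apply, add_zero,
          map_zero] at h4
        exact h4
      rw [h3, zero_add] at h2
      have h5 : mat C e w = w := by
        have h4 := congrArg (mat C x) h2
        rw [← mat_mul_apply, hxy, mat_sub_apply, mat_one_apply, map_zero, sub_eq_zero] at h4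
        exact h4.symm
      refine ⟨⟨⟨w, ⟨w, h5⟩⟩, ?_⟩, ?_⟩
      · apply Subtype.ext
        exact h3
      · rfl
  have hc : cls R (LinearMap.range (mat C f) ⧸ LinearMap.range r) = gam (u + y) C := by
    have hle : LinearMap.range r ≤
        (LinearMap.range (mat C (u + y))).comap (LinearMap.range (mat C f)).subtype := by
      rintro _ ⟨⟨w, hw⟩, rfl⟩
      rw [mem_range_mat he] at hw
      refine ⟨w, ?_⟩
      change mat C (u + y) w = mat C u w
      rw [mat_add_apply]
      have h2 : mat C y w = 0 := by rw [← hw, ← mat_mul_apply, hy2, mat_zero_apply]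
      rw [h2, add_zero]
    refine cls_congr (LinearEquiv.ofBijective (Submodule.mapQ _ _ _ hle) ⟨?_, ?_⟩)
    · rw [injective_iff_map_eq_zero]
      intro q h
      obtain ⟨⟨w, hw⟩, rfl⟩ := Submodule.mkQ_surjective _ q
      rw [Submodule.mkQ_apply, Submodule.mapQ_apply, Submodule.Quotient.mk_eq_zero] at h
      rw [Submodule.mkQ_apply, Submodule.Quotient.mk_eq_zero]
      obtain ⟨t, ht⟩ := h
      change mat C (u + y) t = w at ht
      rw [mem_range_mat hf] at hw
      refine ⟨⟨mat C e t, ⟨t, rfl⟩⟩, ?_⟩
      apply Subtype.ext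
      change mat C u (mat C e t) = w
      rw [← mat_mul_apply, hu2]
      have h4 := congrArg (mat C f) ht
      rw [mat_add_apply, map_add, ← mat_mul_apply, ← mat_mul_apply, hu1, hy1, mat_zero_apply,
        add_zero, hw] at h4
      exact h4
    · intro q
      obtain ⟨w, rfl⟩ := Submodule.mkQ_surjective _ q
      refine ⟨Submodule.Quotient.mk ⟨mat C f w, ⟨w, rfl⟩⟩, ?_⟩
      rw [Submodule.mapQ_apply, Submodule.mkQ_apply, Submodule.Quotient.eq]
      refine ⟨- mat C x w, ?_⟩
      change mat C (u + y) (- mat C x w) = mat C f w - w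
      rw [map_neg, ← mat_mul_apply, add_mul, hux, zero_add, hyx, mat_sub_apply, mat_one_apply]
      abel
  rw [pp, pp, ← e1, ← e2, hk, hc]
  abel

/-- the entries of `e` generate the unit ideal -/
def Full (e : Matrix (Fin n) (Fin n) T) : Prop :=
  Ideal.span (Set.range fun x : Fin n × Fin n => e x.1 x.2) = ⊤

theorem gen_bound {e : Matrix (Fin n) (Fin n) T} (hfull : Full e) (C : Bim T R) :
    Le (cls R C.X) (n • pp e C) := by
  rw [pp, ← cls_pi]
  refine le_of_inj (LinearMap.pi fun j =>
    (mat C e).rangeRestrict.comp (LinearMap.single R (fun _ : Fin n => C.X) j)) ?_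
  rw [injective_iff_map_eq_zero]
  intro v hv
  have h1 : ∀ i j, C.act (e i j) v = 0 := by
    intro i j
    have h2 := congrFun (congrArg Subtype.val (congrFun hv j)) i
    have h3 : mat C e (Pi.single j v) i = 0 := h2
    rw [mat_apply, Finset.sum_eq_single j] at h3
    · rwa [Pi.single_eq_same] at h3
    · intro k _ hk
      rw [Pi.single_eq_of_ne hk, map_zero]
    · intro h
      exact absurd (Finset.mem_univ j) h
  have h2 : ∀ t ∈ Ideal.span (Set.range fun x : Fin n × Fin n => e x.1 x.2), C.act t v = 0 := by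
    intro t ht
    induction ht using Submodule.span_induction with
    | mem t ht =>
      obtain ⟨⟨i, j⟩, rfl⟩ := ht
      exact h1 i j
    | zero => rw [map_zero, LinearMap.zero_apply]
    | add s t _ _ hs ht => rw [map_add, LinearMap.add_apply, hs, ht, add_zero]
    | smul s t _ ht => rw [smul_eq_mul, C.act_mul, ht, map_zero]
  have h3 := h2 1 (by rw [hfull]; exact Submodule.mem_top)
  rwa [map_one, Module.End.one_apply] at h3

end L

section Field
variable {F : Type*} [Field F] {n : ℕ}

theorem rank_idem {e : Matrix (Fin n) (Fin n) F} (he : e * e = e) :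
    e.rank + (1 - e).rank = n := by
  have h1 := LinearMap.finrank_range_add_finrank_ker (Matrix.mulVecLin e)
  have h2 : LinearMap.ker (Matrix.mulVecLin e) = LinearMap.range (Matrix.mulVecLin (1 - e)) := by
    ext v
    rw [LinearMap.mem_ker, Matrix.mulVecLin_apply]
    constructor
    · intro h
      refine ⟨v, ?_⟩
      rw [Matrix.mulVecLin_apply, Matrix.sub_mulVec, Matrix.one_mulVec, h, sub_zero]
    · rintro ⟨w, rfl⟩
      rw [Matrix.mulVecLin_apply, Matrix.mulVec_mulVec, mul_sub, mul_one, he, sub_self,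
        Matrix.zero_mulVec]
  rw [h2, Module.finrank_fin_fun] at h1
  exact h1

theorem rank_eq {e f x y : Matrix (Fin n) (Fin n) F} (he : e * e = e) (hf : f * f = f)
    (hxy : x * y = 1 - e) (hyx : y * x = 1 - f) : e.rank = f.rank := by
  have h1 : (1 - e).rank ≤ (1 - f).rank := by
    have : (1 - e) = x * ((1 - f) * y) := by
      rw [← hyx, mul_assoc, hxy, ← mul_assoc, hxy]
      rw [mul_sub, mul_one, sub_mul, one_mul, he, sub_self, sub_zero]
    rw [this]
    exact (Matrix.rank_mul_le_right _ _).trans (Matrix.rank_mul_le_left _ _)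
  have h2 : (1 - f).rank ≤ (1 - e).rank := by
    have : (1 - f) = y * ((1 - e) * x) := by
      rw [← hxy, mul_assoc, hyx, ← mul_assoc, hyx]
      rw [mul_sub, mul_one, sub_mul, one_mul, hf, sub_self, sub_zero]
    rw [this]
    exact (Matrix.rank_mul_le_right _ _).trans (Matrix.rank_mul_le_left _ _)
  have h3 := rank_idem he
  have h4 := rank_idem hf
  omega

theorem exists_equiv {e f : Matrix (Fin n) (Fin n) F} (he : e * e = e) (hf : f * f = f)
    (h : e.rank = f.rank) : ∃ a b : Matrix (Fin n) (Fin n) F, f * a = a ∧ a * e = a ∧ e * b = b ∧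
      b * f = b ∧ b * a = e := by
  have h1 : Module.finrank F (LinearMap.range (Matrix.mulVecLin e)) =
      Module.finrank F (LinearMap.range (Matrix.mulVecLin f)) := h
  set φ := LinearEquiv.ofFinrankEq _ _ h1 with hφ
  set a' : (Fin n → F) →ₗ[F] (Fin n → F) := (LinearMap.range (Matrix.mulVecLin f)).subtype.comp
    (φ.toLinearMap.comp (Matrix.mulVecLin e).rangeRestrict) with ha'
  set b' : (Fin n → F) →ₗ[F] (Fin n → F) := (LinearMap.range (Matrix.mulVecLin e)).subtype.comp
    (φ.symm.toLinearMap.comp (Matrix.mulVecLin f).rangeRestrict) with hb'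
  have fe : ∀ w ∈ LinearMap.range (Matrix.mulVecLin e), Matrix.mulVec e w = w := by
    rintro _ ⟨w, rfl⟩
    rw [Matrix.mulVecLin_apply, Matrix.mulVec_mulVec, he]
  have ff : ∀ w ∈ LinearMap.range (Matrix.mulVecLin f), Matrix.mulVec f w = w := by
    rintro _ ⟨w, rfl⟩
    rw [Matrix.mulVecLin_apply, Matrix.mulVec_mulVec, hf]
  have ea : ∀ w, Matrix.mulVec (LinearMap.toMatrix' a') w = a' w := by
    intro w
    rw [← Matrix.toLin'_apply, Matrix.toLin'_toMatrix']
  have eb : ∀ w, Matrix.mulVec (LinearMap.toMatrix' b') w = b' w := by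
    intro w
    rw [← Matrix.toLin'_apply, Matrix.toLin'_toMatrix']
  have ext : ∀ {P Q : Matrix (Fin n) (Fin n) F}, (∀ w, Matrix.mulVec P w = Matrix.mulVec Q w) →
      P = Q := by
    intro P Q hPQ
    apply Matrix.toLin'.injective
    apply LinearMap.ext
    intro w
    rw [Matrix.toLin'_apply, Matrix.toLin'_apply, hPQ]
  have re : ∀ w, (Matrix.mulVecLin e).rangeRestrict (Matrix.mulVec e w) =
      (Matrix.mulVecLin e).rangeRestrict w := by
    intro w
    apply Subtype.ext
    change Matrix.mulVec e (Matrix.mulVec e w) = Matrix.mulVec e w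
    rw [Matrix.mulVec_mulVec, he]
  have rf : ∀ w, (Matrix.mulVecLin f).rangeRestrict (Matrix.mulVec f w) =
      (Matrix.mulVecLin f).rangeRestrict w := by
    intro w
    apply Subtype.ext
    change Matrix.mulVec f (Matrix.mulVec f w) = Matrix.mulVec f w
    rw [Matrix.mulVec_mulVec, hf]
  refine ⟨LinearMap.toMatrix' a', LinearMap.toMatrix' b', ?_, ?_, ?_, ?_, ?_⟩
  · apply ext
    intro w
    rw [← Matrix.mulVec_mulVec, ea]
    exact ff _ (Subtype.mem _)
  · apply ext
    intro w
    rw [← Matrix.mulVec_mulVec, ea, ea]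
    change (φ ((Matrix.mulVecLin e).rangeRestrict (Matrix.mulVec e w))).1 =
      (φ ((Matrix.mulVecLin e).rangeRestrict w)).1
    rw [re]
  · apply ext
    intro w
    rw [← Matrix.mulVec_mulVec, eb]
    exact fe _ (Subtype.mem _)
  · apply ext
    intro w
    rw [← Matrix.mulVec_mulVec, eb, eb]
    change (φ.symm ((Matrix.mulVecLin f).rangeRestrict (Matrix.mulVec f w))).1 =
      (φ.symm ((Matrix.mulVecLin f).rangeRestrict w)).1
    rw [rf]
  · apply ext
    intro w
    rw [← Matrix.mulVec_mulVec, ea, eb]
    change (φ.symm ((Matrix.mulVecLin f).rangeRestrict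
      (φ ((Matrix.mulVecLin e).rangeRestrict w)).1)).1 = Matrix.mulVec e w
    have : (Matrix.mulVecLin f).rangeRestrict (φ ((Matrix.mulVecLin e).rangeRestrict w)).1 =
        φ ((Matrix.mulVecLin e).rangeRestrict w) := by
      apply Subtype.ext
      exact ff _ (Subtype.mem _)
    rw [this, LinearEquiv.symm_apply_apply]
    rfl

end Field

section Dom
variable {A : Type v} [CommRing A] [IsDomain A] {n : ℕ}

theorem exists_ab {e f x y : Matrix (Fin n) (Fin n) A} (he : e * e = e) (hf : f * f = f)
    (hxy : x * y = 1 - e) (hyx : y * x = 1 - f) :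
    ∃ (a b : Matrix (Fin n) (Fin n) A) (s : A), s ≠ 0 ∧ f * a = a ∧ a * e = a ∧ e * b = b ∧
      b * f = b ∧ b * a = s • e := by
  set F := FractionRing A
  have hinj := IsFractionRing.injective A F
  set φ : Matrix (Fin n) (Fin n) A →+* Matrix (Fin n) (Fin n) F := (algebraMap A F).mapMatrix with hφ
  have hφi : Function.Injective φ := Matrix.map_injective hinj
  have hsm : ∀ (t : A) (M : Matrix (Fin n) (Fin n) A), φ (t • M) = algebraMap A F t • φ M := by
    intro t M
    ext i j
    change algebraMap A F (t * M i j) = algebraMap A F t * algebraMap A F (M i j)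
    rw [map_mul]
  have he' : φ e * φ e = φ e := by rw [← map_mul, he]
  have hf' : φ f * φ f = φ f := by rw [← map_mul, hf]
  have hxy' : φ x * φ y = 1 - φ e := by rw [← map_mul, hxy, map_sub, map_one]
  have hyx' : φ y * φ x = 1 - φ f := by rw [← map_mul, hyx, map_sub, map_one]
  obtain ⟨a', b', h1, h2, h3, h4, h5⟩ := exists_equiv he' hf' (rank_eq he' hf' hxy' hyx')
  obtain ⟨a, s, hs, ha⟩ := exists_clear (A := A) a'
  obtain ⟨b, t, ht, hb⟩ := exists_clear (A := A) b'
  have ha' : φ a = algebraMap A F s • a' := ha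
  have hb' : φ b = algebraMap A F t • b' := hb
  refine ⟨a, b, t * s, mul_ne_zero ht hs, ?_, ?_, ?_, ?_, ?_⟩
  · apply hφi
    rw [map_mul, ha', mul_smul_comm, h1]
  · apply hφi
    rw [map_mul, ha', smul_mul_assoc, h2]
  · apply hφi
    rw [map_mul, hb', mul_smul_comm, h3]
  · apply hφi
    rw [map_mul, hb', smul_mul_assoc, h4]
  · apply hφi
    rw [map_mul, ha', hb', hsm, smul_mul_smul_comm, h5, map_mul]

theorem full_of_ne {e : Matrix (Fin n) (Fin n) A} (he : e * e = e) (h0 : e ≠ 0) : Full e := by
  set J := Ideal.span (Set.range fun x : Fin n × Fin n => e x.1 x.2) with hJ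
  have hfg : J.FG := by
    rw [hJ]
    exact Submodule.fg_span (Set.finite_range _)
  have hid : IsIdempotentElem J := by
    apply le_antisymm Ideal.mul_le_left
    rw [hJ, Ideal.span_le]
    rintro _ ⟨⟨i, j⟩, rfl⟩
    change e i j ∈ J * J
    rw [← he, Matrix.mul_apply]
    refine Ideal.sum_mem _ fun k _ => Ideal.mul_mem_mul ?_ ?_
    · exact Ideal.subset_span ⟨(i, k), rfl⟩
    · exact Ideal.subset_span ⟨(k, j), rfl⟩
  obtain ⟨c, hc, hcJ⟩ := (Ideal.isIdempotentElem_iff_of_fg J hfg).mp hid
  rcases (IsIdempotentElem.iff_eq_zero_or_one).mp hc with h | h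
  · exfalso
    apply h0
    ext i j
    have h1 : e i j ∈ J := Ideal.subset_span ⟨(i, j), rfl⟩
    rw [hcJ, h] at h1
    simpa using h1
  · change J = ⊤
    rw [hcJ, h]
    exact Ideal.span_singleton_one

variable {R : Type u} [Ring R] [VNR R]

theorem det_W (F : Type*) [Field F] [Algebra A F] [IsFractionRing A F]
    (e : Matrix (Fin n) (Fin n) A) (he : e * e = e) (i j : Fin n) (s t : A) (hs : s ≠ 0) :
    s * (s • (1 : Matrix (Fin n) (Fin n) A) - t • (e * Matrix.single j i 1 * e)).det =
      s ^ n * (s - t * e i j) := by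
  have hinj := IsFractionRing.injective A F
  have hsF : algebraMap A F s ≠ 0 := by
    rw [Ne, FaithfulSMul.algebraMap_eq_zero_iff]
    exact hs
  have h1 : (s • (1 : Matrix (Fin n) (Fin n) A) - t • (e * Matrix.single j i 1 * e)).map
      (algebraMap A F) = algebraMap A F s • (1 +
        Matrix.replicateCol Unit (fun k => - (algebraMap A F t / algebraMap A F s) *
          algebraMap A F (e k j)) *
        Matrix.replicateRow Unit (fun l => algebraMap A F (e i l))) := by
    ext k l
    have h2 : (e * Matrix.single j i (1 : A) * e : Matrix (Fin n) (Fin n) A) k l =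
        e k j * e i l := by
      rw [Matrix.mul_apply, Finset.sum_eq_single i]
      · rw [Matrix.mul_single_apply_same, mul_one]
      · intro m _ hm
        rw [Matrix.mul_single_apply_of_ne _ _ _ _ _ hm, zero_mul]
      · intro h
        exact absurd (Finset.mem_univ i) h
    rw [Matrix.map_apply, Matrix.sub_apply, Matrix.smul_apply, Matrix.smul_apply, h2,
      Matrix.smul_apply, Matrix.add_apply, Matrix.mul_apply]
    simp only [Finset.univ_unique, Finset.sum_singleton, Matrix.replicateCol_apply,
      Matrix.replicateRow_apply, smul_eq_mul, map_sub, map_mul]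
    have h3 : algebraMap A F ((1 : Matrix (Fin n) (Fin n) A) k l) =
        (1 : Matrix (Fin n) (Fin n) F) k l := by
      rw [Matrix.one_apply, Matrix.one_apply]
      split_ifs <;> simp
    rw [h3]
    field_simp
    ring
  apply hinj
  rw [map_mul, ← map_det', h1, Matrix.det_smul, Matrix.det_one_add_replicateCol_mul_replicateRow,
    Fintype.card_fin]
  have h4 : (fun l => algebraMap A F (e i l)) ⬝ᵥ (fun k => - (algebraMap A F t / algebraMap A F s) *
          algebraMap A F (e k j)) = - (algebraMap A F t / algebraMap A F s) *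
          algebraMap A F (e i j) := by
    have h5 : e i j = ∑ k, e i k * e k j := by
      conv_lhs => rw [← he, Matrix.mul_apply]
    rw [h5, map_sum, Finset.mul_sum, dotProduct]
    apply Finset.sum_congr rfl
    intro k _
    rw [map_mul]
    ring
  rw [h4, map_mul, map_pow, map_sub, map_mul]
  have h6 : algebraMap A F s * (1 + -(algebraMap A F t / algebraMap A F s) *
      algebraMap A F (e i j)) = algebraMap A F s - algebraMap A F t * algebraMap A F (e i j) := by
    field_simp
    ring
  rw [← h6]
  ring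

/-- the classes of the images agree up to a small term -/
theorem rel {e f x y : Matrix (Fin n) (Fin n) A} (he : e * e = e) (hf : f * f = f)
    (hxy : x * y = 1 - e) (hyx : y * x = 1 - f) (he0 : e ≠ 0) :
    ∃ z : A, z ≠ 0 ∧ ∃ b : ℕ, ∀ C : Bim A R, ∃ d : VR R, pp e C + d = pp f C + d ∧
      Le d (b • (cls R (cokB C z).X + cls R (kerB C z).X)) := by
  -- normalized maps
  set x' := (1 - e) * x * (1 - f) with hx'
  set y' := (1 - f) * y * (1 - e) with hy'
  have e1 : e * (1 - e) = 0 := by rw [mul_sub, mul_one, he, sub_self]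
  have e2 : (1 - e) * e = 0 := by rw [sub_mul, one_mul, he, sub_self]
  have f1 : f * (1 - f) = 0 := by rw [mul_sub, mul_one, hf, sub_self]
  have f2 : (1 - f) * f = 0 := by rw [sub_mul, one_mul, hf, sub_self]
  have e3 : (1 - e) * (1 - e) = 1 - e := by rw [mul_sub, mul_one, e2, sub_zero]
  have f3 : (1 - f) * (1 - f) = 1 - f := by rw [mul_sub, mul_one, f2, sub_zero]
  have hex : e * x' = 0 := by rw [hx', ← mul_assoc, ← mul_assoc, e1, zero_mul, zero_mul]
  have hxf : x' * f = 0 := by rw [hx', mul_assoc, f2, mul_zero]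
  have hfy : f * y' = 0 := by rw [hy', ← mul_assoc, ← mul_assoc, f1, zero_mul, zero_mul]
  have hye : y' * e = 0 := by rw [hy', mul_assoc, e2, mul_zero]
  have hxy' : x' * y' = 1 - e := by
    calc x' * y' = (1 - e) * x * ((1 - f) * (1 - f)) * y * (1 - e) := by
          rw [hx', hy']
          noncomm_ring
      _ = (1 - e) * (x * y) * (x * y) * (1 - e) := by
          rw [f3, ← hyx]
          noncomm_ring
      _ = _ := by rw [hxy, e3, e3, e3]
  have hyx' : y' * x' = 1 - f := by
    calc y' * x' = (1 - f) * y * ((1 - e) * (1 - e)) * x * (1 - f) := by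
          rw [hx', hy']
          noncomm_ring
      _ = (1 - f) * (y * x) * (y * x) * (1 - f) := by
          rw [e3, ← hxy]
          noncomm_ring
      _ = _ := by rw [hyx, f3, f3, f3]
  obtain ⟨a, b, s0, hs0, ha1, ha2, hb1, hb2, hba⟩ := exists_ab he hf hxy hyx
  -- the matrix `M0`
  set M0 := a + y' with hM0
  have hM0' : (b + s0 • x') * M0 = s0 • 1 := by
    have q1 : b * y' = 0 := by rw [← hb2, mul_assoc, hfy, mul_zero]
    have q2 : x' * a = 0 := by rw [← ha1, ← mul_assoc, hxf, zero_mul]
    rw [hM0, add_mul, mul_add, mul_add, hba, q1, smul_mul_assoc, smul_mul_assoc, q2, hxy', smul_zero,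
      zero_add, add_zero, ← smul_add, add_sub_cancel]
  set δ := M0.det with hδ
  have hδ0 : δ ≠ 0 := by
    intro h
    have h1 := congrArg Matrix.det hM0'
    rw [Matrix.det_mul, ← hδ, h, mul_zero, smul_one_det] at h1
    exact pow_ne_zero _ hs0 h1.symm
  obtain ⟨i, j, hij⟩ : ∃ i j, e i j ≠ 0 := by
    by_contra h
    push Not at h
    exact he0 (Matrix.ext h)
  set s := δ * e i j with hs
  have hsne : s ≠ 0 := mul_ne_zero hδ0 hij
  set E := e * Matrix.single j i 1 * e with hE
  set W := s • (1 : Matrix (Fin n) (Fin n) A) - (δ - 1) • E with hW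
  have hWd : δ * W.det = s ^ n := by
    have h1 := det_W (FractionRing A) e he i j s (δ - 1) hsne
    rw [← hE, ← hW] at h1
    have h2 : s - (δ - 1) * e i j = e i j := by rw [hs]; ring
    rw [h2] at h1
    have h3 : s * (δ * W.det) = s * s ^ n := by
      calc s * (δ * W.det) = δ * (s * W.det) := by ring
        _ = s * s ^ n := by rw [h1, hs]; ring
    exact mul_left_cancel₀ hsne h3
  have hEe : E * e = E := by rw [hE, mul_assoc, he]
  have heE : e * E = E := by rw [hE, ← mul_assoc, ← mul_assoc, he]
  have hWe : W * e = e * W := by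
    rw [hW, sub_mul, mul_sub, smul_mul_assoc, smul_mul_assoc, one_mul, mul_smul_comm, mul_smul_comm,
      mul_one, hEe, heE]
  set u := a * W with hu
  have hu1 : f * u = u := by rw [hu, ← mul_assoc, ha1]
  have hu2 : u * e = u := by rw [hu, mul_assoc, hWe, ← mul_assoc, ha2]
  have hyW : y' * W = s • y' := by
    have : y' * E = 0 := by rw [← heE, ← mul_assoc, hye, zero_mul]
    rw [hW, mul_sub, mul_smul_comm, mul_smul_comm, mul_one, this, smul_zero, sub_zero]
  have hMW : M0 * W = u + s • y' := by rw [hM0, add_mul, hyW]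
  set M2 := u + y' with hM2
  set S' := e + s • (1 - e) with hS'
  set S := s • e + (1 - e) with hS
  have p1 : M2 * S' = M0 * W := by
    have q1 : u * (1 - e) = 0 := by rw [mul_sub, mul_one, hu2, sub_self]
    have q2 : y' * (1 - e) = y' := by rw [mul_sub, mul_one, hye, sub_zero]
    rw [hMW, hM2, hS', add_mul, mul_add, mul_add, mul_smul_comm, mul_smul_comm, hu2, q1, hye, q2,
      smul_zero, add_zero, zero_add]
  have p2 : S * S' = s • 1 := by
    rw [hS, hS', add_mul, mul_add, mul_add, mul_smul_comm, mul_smul_comm, smul_mul_assoc,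
      smul_mul_assoc, he, e1, e2, e3, smul_zero, smul_zero, add_zero, zero_add, ← smul_add,
      add_sub_cancel]
  have d0 : (M0 * W).det = s ^ n := by rw [Matrix.det_mul, ← hδ, hWd]
  have dM2 : M2.det ≠ 0 := by
    intro h
    have h1 := congrArg Matrix.det p1
    rw [Matrix.det_mul, h, zero_mul, d0] at h1
    exact pow_ne_zero _ hsne h1.symm
  have dS' : S'.det ≠ 0 := by
    intro h
    have h1 := congrArg Matrix.det p1
    rw [Matrix.det_mul, h, mul_zero, d0] at h1
    exact pow_ne_zero _ hsne h1.symm
  have dS : S.det ≠ 0 := by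
    intro h
    have h1 := congrArg Matrix.det p2
    rw [Matrix.det_mul, h, zero_mul, smul_one_det] at h1
    exact pow_ne_zero _ hsne h1.symm
  have c1 : chi R M2 = chi R S := by
    have h1 := chi_eq_of_det (R := R) i hsne d0
    rw [← p1, ← p2, chi_mul dM2 dS', chi_mul dS dS'] at h1
    exact add_right_cancel h1
  rw [chi, chi, dif_pos dM2, dif_pos dS, sub_eq_sub_iff_add_eq_add, ← map_add, ← map_add,
    of_eq_iff] at c1
  obtain ⟨⟨D0, hD0⟩, hc⟩ := c1
  have hc' : ∀ C, D0 C + (gam M2 C + kap S C) = D0 C + (gam S C + kap M2 C) := by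
    intro C
    exact congrFun (congrArg Subtype.val hc) C
  have hmem : D0 + kap M2 + kap S ∈ smallS A R :=
    add_mem (add_mem hD0 (kap_mem dM2)) (kap_mem dS)
  obtain ⟨z, hz, b', hb'⟩ := hmem
  refine ⟨z, hz, b', fun C => ⟨D0 C + kap M2 C + kap S C, ?_, hb' C⟩⟩
  have l1 := lemL he hf hu1 hu2 hfy hye hex hxy' hyx' C
  have l2 : pp e C + gam S C = pp e C + kap S C := by
    have h1 := lemL (R := R) (e := e) (f := e) (u := s • e) (x := 1 - e) (y := 1 - e) he he
      (by rw [mul_smul_comm, he]) (by rw [smul_mul_assoc, he]) e1 e2 e1 e3 e3 C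
    exact h1
  rw [← hM2] at l1
  calc pp e C + (D0 C + kap M2 C + kap S C)
      = (pp e C + kap S C) + (D0 C + kap M2 C) := by abel
    _ = (pp e C + gam S C) + (D0 C + kap M2 C) := by rw [l2]
    _ = pp e C + (D0 C + (gam S C + kap M2 C)) := by abel
    _ = pp e C + (D0 C + (gam M2 C + kap S C)) := by rw [hc']
    _ = (pp e C + gam M2 C) + (D0 C + kap S C) := by abel
    _ = (pp f C + kap M2 C) + (D0 C + kap S C) := by rw [l1]
    _ = pp f C + (D0 C + kap M2 C + kap S C) := by abel

/-- the case of a domain, assuming the result for modules killed by a nonzero element -/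
theorem dom_main {e f x y : Matrix (Fin n) (Fin n) A} (he : e * e = e) (hf : f * f = f)
    (hxy : x * y = 1 - e) (hyx : y * x = 1 - f)
    (h3 : ∀ (E : Bim A R) (z : A), z ≠ 0 → E.act z = 0 → pp e E = pp f E) (C : Bim A R) :
    pp e C = pp f C := by
  by_cases he0 : e = 0
  · have hf0 : f = 0 := by
      rw [he0, sub_zero] at hxy
      have h1 := mul_eq_one_comm.mp hxy
      rw [hyx, sub_eq_self] at h1
      exact h1
    rw [he0, hf0]
  · obtain ⟨z, hz, b, hb⟩ := rel (R := R) he hf hxy hyx he0
    exact absorb he hf z n b (fun E => gen_bound (full_of_ne he he0) E) hb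
      (fun E j hE => h3 E (z ^ j) (pow_ne_zero _ hz) hE) C

end Dom
end SepReg
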