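import Pool.Agent.Lib.MP_dccecd_al.VRing

/-! Exact sequences of finitely generated projective modules over a von Neumann regular ring and
their classes (for MP_dccecd_al, the commutative base theorem). -/

namespace SepReg

universe u v

section Gen
variable {R : Type u} [Ring R]

theorem pi_proj {ι : Type*} [Finite ι] (P : Type*) [AddCommGroup P] [Module R P]
    [Module.Projective R P] : Module.Projective R (ι → P) := by
  classical
  have := Fintype.ofFinite ι
  exact Module.Projective.of_equiv (DFinsupp.linearEquivFunOnFintype (R := R) (M := fun _ : ι => P))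

instance inst_fin_pi_proj (n : ℕ) (P : Type*) [AddCommGroup P] [Module R P]
    [Module.Projective R P] : Module.Projective R (Fin n → P) := pi_proj P

variable {K X Y Z : Type u} [AddCommGroup K] [Module R K] [Module.Finite R K]
    [Module.Projective R K] [AddCommGroup X] [Module R X] [Module.Finite R X]
    [Module.Projective R X] [AddCommGroup Y] [Module R Y] [Module.Finite R Y]
    [Module.Projective R Y] [AddCommGroup Z] [Module R Z] [Module.Finite R Z]
    [Module.Projective R Z]

theorem cls_exact [VNR R] (i : K →ₗ[R] X) (p : X →ₗ[R] Y) (hi : Function.Injective i)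
    (hp : Function.Surjective p) (h : LinearMap.range i = LinearMap.ker p) :
    cls R X = cls R K + cls R Y := by
  have h1 := cls_source p
  have h2 : cls R (LinearMap.range p) = cls R Y :=
    cls_congr (LinearEquiv.ofTop _ (LinearMap.range_eq_top.mpr hp))
  have h3 : cls R K = cls R (LinearMap.ker p) :=
    cls_congr ((LinearEquiv.ofInjective i hi).trans (LinearEquiv.ofEq _ _ h))
  rw [← h1, h2, h3]

theorem cls_subsingleton (X : Type u) [AddCommGroup X] [Module R X] [Module.Finite R X]
    [Module.Projective R X] [Subsingleton X] : cls R X = 0 := by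
  rw [← cls_zero]
  exact cls_congr
    { toFun := fun _ => 0
      invFun := fun _ => 0
      map_add' := fun _ _ => Subsingleton.elim _ _
      map_smul' := fun _ _ => Subsingleton.elim _ _
      left_inv := fun _ => Subsingleton.elim _ _
      right_inv := fun _ => Subsingleton.elim _ _ }

theorem cls_pi (n : ℕ) (X : Type u) [AddCommGroup X] [Module R X] [Module.Finite R X]
    [Module.Projective R X] : cls R (Fin n → X) = n • cls R X := by
  induction n with
  | zero =>
    rw [zero_nsmul]
    exact cls_subsingleton _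
  | succ n ih =>
    rw [succ_nsmul', ← ih, ← cls_prod]
    exact cls_congr (Fin.consLinearEquiv R (fun _ : Fin (n + 1) => X)).symm

/-- the kernel-cokernel sequence of a composite -/
theorem six [VNR R] (f : X →ₗ[R] Y) (g : Y →ₗ[R] Z) :
    cls R (LinearMap.ker f) + cls R (LinearMap.ker g) + cls R (Z ⧸ LinearMap.range (g.comp f)) =
      cls R (LinearMap.ker (g.comp f)) + cls R (Y ⧸ LinearMap.range f)
        + cls R (Z ⧸ LinearMap.range g) := by
  set τ : LinearMap.ker g →ₗ[R] (Y ⧸ LinearMap.range f) :=
    (LinearMap.range f).mkQ.comp (LinearMap.ker g).subtype with hτ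
  have e1 := cls_source τ
  have hle : LinearMap.range f ≤ (LinearMap.range (g.comp f)).comap g := by
    rintro _ ⟨v, rfl⟩
    exact ⟨v, rfl⟩
  set pb : (Y ⧸ LinearMap.range f) →ₗ[R] (Z ⧸ LinearMap.range (g.comp f)) :=
    (LinearMap.range f).mapQ (LinearMap.range (g.comp f)) g hle with hpb
  have e2 := cls_source pb
  have e3 := cls_target pb
  have hker : LinearMap.ker pb = LinearMap.range τ := by
    ext y
    obtain ⟨v, rfl⟩ := Submodule.mkQ_surjective _ y
    constructor
    · intro h
      have h1 : (Submodule.Quotient.mk (g v) : Z ⧸ LinearMap.range (g.comp f)) = 0 := h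
      rw [Submodule.Quotient.mk_eq_zero] at h1
      obtain ⟨c, hc⟩ := h1
      rw [LinearMap.comp_apply] at hc
      refine ⟨⟨v - f c, ?_⟩, ?_⟩
      · rw [LinearMap.mem_ker, map_sub, hc, sub_self]
      · have h2 : (LinearMap.range f).mkQ (f c) = 0 := by
          rw [Submodule.mkQ_apply, Submodule.Quotient.mk_eq_zero]
          exact ⟨c, rfl⟩
        change (LinearMap.range f).mkQ (v - f c) = (LinearMap.range f).mkQ v
        rw [map_sub, h2, sub_zero]
    · rintro ⟨⟨w, hw⟩, h⟩
      rw [← h]
      change (Submodule.Quotient.mk (g w) : Z ⧸ LinearMap.range (g.comp f)) = 0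
      rw [LinearMap.mem_ker.mp hw]
      rfl
  have e4 : cls R (LinearMap.ker pb) = cls R (LinearMap.range τ) :=
    cls_congr (LinearEquiv.ofEq _ _ hker)
  -- the cokernel of `pb` is the cokernel of `g`
  have hle2 : LinearMap.range (g.comp f) ≤ LinearMap.range g := LinearMap.range_comp_le_range f g
  set q : (Z ⧸ LinearMap.range (g.comp f)) →ₗ[R] (Z ⧸ LinearMap.range g) :=
    (LinearMap.range (g.comp f)).mapQ (LinearMap.range g) LinearMap.id
      (by rwa [Submodule.comap_id]) with hq
  have hqs : Function.Surjective q := by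
    intro y
    obtain ⟨v, rfl⟩ := Submodule.mkQ_surjective _ y
    exact ⟨(LinearMap.range (g.comp f)).mkQ v, rfl⟩
  have hqk : LinearMap.ker q = LinearMap.range pb := by
    ext y
    obtain ⟨v, rfl⟩ := Submodule.mkQ_surjective _ y
    constructor
    · intro h
      have h1 : (Submodule.Quotient.mk v : Z ⧸ LinearMap.range g) = 0 := h
      rw [Submodule.Quotient.mk_eq_zero] at h1
      obtain ⟨c, rfl⟩ := h1
      exact ⟨(LinearMap.range f).mkQ c, rfl⟩
    · rintro ⟨w, h⟩
      obtain ⟨w, rfl⟩ := Submodule.mkQ_surjective _ w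
      rw [← h]
      change (Submodule.Quotient.mk (g w) : Z ⧸ LinearMap.range g) = 0
      rw [Submodule.Quotient.mk_eq_zero]
      exact ⟨w, rfl⟩
  have e5 : cls R (Z ⧸ LinearMap.range (g.comp f)) =
      cls R (LinearMap.range pb) + cls R (Z ⧸ LinearMap.range g) :=
    cls_exact (LinearMap.range pb).subtype q (Submodule.injective_subtype _) hqs
      (by rw [Submodule.range_subtype, hqk])
  -- kernels
  have hmem : ∀ c : LinearMap.ker (g.comp f), f c ∈ LinearMap.ker g := fun c => c.2
  set ρ : LinearMap.ker (g.comp f) →ₗ[R] LinearMap.ker g :=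
    (f.comp (LinearMap.ker (g.comp f)).subtype).codRestrict (LinearMap.ker g) hmem with hρ
  have h1 := cls_source ρ
  have h2 : LinearMap.range ρ = LinearMap.ker τ := by
    ext ⟨v, hv⟩
    constructor
    · rintro ⟨c, hc⟩
      have h3 : f c = v := congrArg Subtype.val hc
      change (LinearMap.range f).mkQ v = 0
      rw [← h3, Submodule.mkQ_apply, Submodule.Quotient.mk_eq_zero]
      exact ⟨c, rfl⟩
    · intro h
      have h3 : (LinearMap.range f).mkQ v = 0 := h
      rw [Submodule.mkQ_apply, Submodule.Quotient.mk_eq_zero] at h3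
      obtain ⟨c, hc⟩ := h3
      refine ⟨⟨c, ?_⟩, ?_⟩
      · rw [LinearMap.mem_ker, LinearMap.comp_apply, hc]
        exact hv
      · exact Subtype.ext hc
  have h3 : cls R (LinearMap.range ρ) = cls R (LinearMap.ker τ) :=
    cls_congr (LinearEquiv.ofEq _ _ h2)
  have hle3 : LinearMap.ker f ≤ LinearMap.ker (g.comp f) := LinearMap.ker_le_ker_comp f g
  have h4 : cls R (LinearMap.ker f) = cls R (LinearMap.ker ρ) := by
    apply cls_congr
    refine LinearEquiv.ofBijective
      ((Submodule.inclusion hle3).codRestrict (LinearMap.ker ρ) ?_) ⟨?_, ?_⟩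
    · rintro ⟨v, hv⟩
      apply Subtype.ext
      exact hv
    · intro v w h
      have h5 := congrArg Subtype.val h
      exact Submodule.inclusion_injective hle3 h5
    · rintro ⟨⟨v, hv⟩, h⟩
      have h5 : f v = 0 := congrArg Subtype.val h
      exact ⟨⟨v, h5⟩, rfl⟩
  rw [← h1, h3, ← h4, e5, ← e1, ← e2, e4]
  abel

end Gen
end SepReg
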