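import Pool.Agent.Lib.MP_dccecd_al.ComDom

/-! The commutative base theorem (for MP_dccecd_al): reduction to domains, and the form with
modules. -/

open TensorProduct

namespace SepReg

universe u v w

section Noeth
variable {T : Type v} [CommRing T] {R : Type u} [Ring R] [VNR R] {n : ℕ}

/-- restriction of the action -/
abbrev Bim.res {S : Type w} [CommRing S] (φ : S →+* T) (C : Bim T R) : Bim S R where
  X := C.X
  act := C.act.comp φ

theorem pp_res {S : Type w} [CommRing S] (φ : S →+* T) (C : Bim T R)
    (e : Matrix (Fin n) (Fin n) S) : pp e (C.res φ) = pp (φ.mapMatrix e) C := rfl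

/-- a module killed by an ideal -/
abbrev Bim.fac (I : Ideal T) (C : Bim T R) (h : ∀ t ∈ I, C.act t = 0) : Bim (T ⧸ I) R where
  X := C.X
  act := Ideal.Quotient.lift I C.act h

theorem pp_fac (I : Ideal T) (C : Bim T R) (h : ∀ t ∈ I, C.act t = 0)
    (e : Matrix (Fin n) (Fin n) T) :
    pp ((Ideal.Quotient.mk I).mapMatrix e) (C.fac I h) = pp e C := rfl

theorem kill_sup {I : Ideal T} {C : Bim T R} {a : T} (h : ∀ t ∈ I, C.act t = 0)
    (ha : C.act a = 0) : ∀ t ∈ I ⊔ Ideal.span {a}, C.act t = 0 := by
  have : I ⊔ Ideal.span {a} ≤ RingHom.ker C.act := by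
    refine sup_le (fun t ht => h t ht) ?_
    rw [Ideal.span_singleton_le_iff_mem]
    exact ha
  intro t ht
  exact this ht

theorem lt_sup {I : Ideal T} {a : T} (ha : a ∉ I) : I < I ⊔ Ideal.span {a} := by
  refine lt_of_le_of_ne le_sup_left fun h => ha ?_
  rw [h]
  exact (le_sup_right : Ideal.span {a} ≤ I ⊔ Ideal.span {a}) (Ideal.mem_span_singleton_self a)

theorem noeth_main [IsNoetherianRing T] {e f x y : Matrix (Fin n) (Fin n) T} (he : e * e = e)
    (hf : f * f = f) (hxy : x * y = 1 - e) (hyx : y * x = 1 - f) (C : Bim T R) :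
    pp e C = pp f C := by
  have key : ∀ I : Ideal T, ∀ C : Bim T R, (∀ t ∈ I, C.act t = 0) → pp e C = pp f C := by
    intro I
    induction I using IsNoetherian.induction with
    | hgt I ih =>
      intro C hC
      by_cases hI : I = ⊤
      · have h1 : C.act 1 = 0 := hC 1 (by rw [hI]; exact Submodule.mem_top)
        have h2 : Subsingleton C.X := by
          constructor
          intro a b
          have h3 : ∀ c : C.X, c = 0 := by
            intro c
            have h4 := LinearMap.congr_fun h1 c
            rwa [map_one, Module.End.one_apply] at h4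
          rw [h3 a, h3 b]
        rw [pp, pp, cls_subsingleton, cls_subsingleton]
      · by_cases hp : Ideal.IsPrime I
        · have hdom : IsDomain (T ⧸ I) := (Ideal.Quotient.isDomain_iff_prime I).mpr hp
          have hfac := dom_main (A := T ⧸ I) (R := R)
            (e := (Ideal.Quotient.mk I).mapMatrix e) (f := (Ideal.Quotient.mk I).mapMatrix f)
            (x := (Ideal.Quotient.mk I).mapMatrix x) (y := (Ideal.Quotient.mk I).mapMatrix y)
            (by rw [← map_mul, he]) (by rw [← map_mul, hf])
            (by rw [← map_mul, hxy, map_sub, map_one]) (by rw [← map_mul, hyx, map_sub, map_one])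
            (by
              intro E z hz hE
              obtain ⟨z, rfl⟩ := Ideal.Quotient.mk_surjective z
              have hzI : z ∉ I := fun h => hz (Ideal.Quotient.eq_zero_iff_mem.mpr h)
              have h1 := ih (I ⊔ Ideal.span {z}) (lt_sup hzI) (E.res (Ideal.Quotient.mk I))
                (kill_sup (by
                  intro t ht
                  change E.act (Ideal.Quotient.mk I t) = 0
                  rw [Ideal.Quotient.eq_zero_iff_mem.mpr ht, map_zero]) hE)
              exact h1)
            (C.fac I hC)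
          exact hfac
        · rw [Ideal.isPrime_iff, not_and] at hp
          have h1 := hp hI
          push Not at h1
          obtain ⟨a, b, hab, ha, hb⟩ := h1
          rw [pp_ran_cok C b he, pp_ran_cok C b hf]
          congr 1
          · refine ih _ (lt_sup ha) _ (kill_sup ?_ ?_)
            · intro t ht
              apply LinearMap.ext
              intro v
              apply Subtype.ext
              change C.act t v.1 = 0
              rw [hC t ht, LinearMap.zero_apply]
            · apply LinearMap.ext
              rintro ⟨_, w, rfl⟩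
              apply Subtype.ext
              change C.act a (C.act b w) = 0
              rw [← C.act_mul, hC _ hab, LinearMap.zero_apply]
          · refine ih _ (lt_sup hb) _ (kill_sup ?_ ?_)
            · intro t ht
              apply LinearMap.ext
              intro v
              obtain ⟨w, rfl⟩ := Submodule.mkQ_surjective _ v
              change Submodule.Quotient.mk (C.act t w) = 0
              rw [hC t ht, LinearMap.zero_apply]
              rfl
            · apply LinearMap.ext
              intro v
              obtain ⟨w, rfl⟩ := Submodule.mkQ_surjective _ v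
              change Submodule.Quotient.mk (C.act b w) = 0
              rw [Submodule.Quotient.mk_eq_zero]
              exact ⟨w, rfl⟩
  exact key ⊥ C (by
    intro t ht
    rw [Ideal.mem_bot] at ht
    rw [ht, map_zero])

/-- the theorem for idempotent matrices over a commutative ring -/
theorem mat_main {e f x y : Matrix (Fin n) (Fin n) T} (he : e * e = e) (hf : f * f = f)
    (hxy : x * y = 1 - e) (hyx : y * x = 1 - f) (C : Bim T R) : pp e C = pp f C := by
  classical
  set s : Finset T := Finset.univ.image (fun p : Fin n × Fin n => e p.1 p.2) ∪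
    Finset.univ.image (fun p : Fin n × Fin n => f p.1 p.2) ∪
    Finset.univ.image (fun p : Fin n × Fin n => x p.1 p.2) ∪
    Finset.univ.image (fun p : Fin n × Fin n => y p.1 p.2) with hs
  set T0 := Algebra.adjoin ℤ (s : Set T) with hT0
  have hft : Algebra.FiniteType ℤ T0 := (Subalgebra.fg_iff_finiteType _).mp ⟨s, rfl⟩
  have hN : IsNoetherianRing T0 := Algebra.FiniteType.isNoetherianRing ℤ T0
  have me : ∀ i j, e i j ∈ T0 := fun i j => Algebra.subset_adjoin (by
    rw [hs]
    simp only [Finset.coe_union, Finset.coe_image, Finset.coe_univ, Set.image_univ, Set.mem_union,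
      Set.mem_range]
    exact Or.inl (Or.inl (Or.inl ⟨(i, j), rfl⟩)))
  have mf : ∀ i j, f i j ∈ T0 := fun i j => Algebra.subset_adjoin (by
    rw [hs]
    simp only [Finset.coe_union, Finset.coe_image, Finset.coe_univ, Set.image_univ, Set.mem_union,
      Set.mem_range]
    exact Or.inl (Or.inl (Or.inr ⟨(i, j), rfl⟩)))
  have mx : ∀ i j, x i j ∈ T0 := fun i j => Algebra.subset_adjoin (by
    rw [hs]
    simp only [Finset.coe_union, Finset.coe_image, Finset.coe_univ, Set.image_univ, Set.mem_union,
      Set.mem_range]
    exact Or.inl (Or.inr ⟨(i, j), rfl⟩))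
  have my : ∀ i j, y i j ∈ T0 := fun i j => Algebra.subset_adjoin (by
    rw [hs]
    simp only [Finset.coe_union, Finset.coe_image, Finset.coe_univ, Set.image_univ, Set.mem_union,
      Set.mem_range]
    exact Or.inr ⟨(i, j), rfl⟩)
  set φ : T0 →+* T := T0.val.toRingHom with hφ
  have hφi : Function.Injective (φ.mapMatrix : Matrix (Fin n) (Fin n) T0 →+* _) :=
    Matrix.map_injective Subtype.val_injective
  set e0 : Matrix (Fin n) (Fin n) T0 := fun i j => ⟨e i j, me i j⟩ with he0
  set f0 : Matrix (Fin n) (Fin n) T0 := fun i j => ⟨f i j, mf i j⟩ with hf0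
  set x0 : Matrix (Fin n) (Fin n) T0 := fun i j => ⟨x i j, mx i j⟩ with hx0
  set y0 : Matrix (Fin n) (Fin n) T0 := fun i j => ⟨y i j, my i j⟩ with hy0
  have ee : φ.mapMatrix e0 = e := rfl
  have ef : φ.mapMatrix f0 = f := rfl
  have ex : φ.mapMatrix x0 = x := rfl
  have ey : φ.mapMatrix y0 = y := rfl
  have h1 := noeth_main (T := T0) (R := R) (e := e0) (f := f0) (x := x0) (y := y0)
    (hφi (by rw [map_mul, ee, he])) (hφi (by rw [map_mul, ef, hf]))
    (hφi (by rw [map_mul, map_sub, map_one, ex, ey, ee, hxy]))
    (hφi (by rw [map_mul, map_sub, map_one, ex, ey, ef, hyx])) (C.res φ)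
  exact h1

end Noeth

section Tensor
variable {T : Type v} [CommRing T] {R : Type u} [Ring R]
  {C : Type u} [AddCommGroup C] [Module R C] [Module T C] [SMulCommClass T R C]
  {P : Type w} [AddCommGroup P] [Module T P] {n : ℕ}

variable (R C) in
/-- contraction with a functional -/
noncomputable def contr (h : P →ₗ[T] T) : C ⊗[T] P →ₗ[R] C where
  toFun z := TensorProduct.rid T C (LinearMap.lTensor C h z)
  map_add' y z := by rw [map_add, map_add]
  map_smul' r z := by
    induction z using TensorProduct.induction_on with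
    | zero => simp
    | tmul c p =>
      rw [TensorProduct.smul_tmul', LinearMap.lTensor_tmul, LinearMap.lTensor_tmul,
        TensorProduct.rid_tmul, TensorProduct.rid_tmul, RingHom.id_apply, smul_comm]
    | add y z hy hz => rw [smul_add, map_add, map_add, hy, hz, map_add, map_add, smul_add]

theorem contr_tmul (h : P →ₗ[T] T) (c : C) (p : P) : contr R C h (c ⊗ₜ[T] p) = h p • c := by
  change TensorProduct.rid T C (LinearMap.lTensor C h (c ⊗ₜ[T] p)) = _
  rw [LinearMap.lTensor_tmul, TensorProduct.rid_tmul]

variable (R C) in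
/-- tensoring with an element -/
noncomputable def tens (p : P) : C →ₗ[R] C ⊗[T] P where
  toFun c := c ⊗ₜ[T] p
  map_add' c d := TensorProduct.add_tmul _ _ _
  map_smul' r c := (TensorProduct.smul_tmul' r c p).symm

variable (T R C) in
/-- the module `C` with the action of `T` -/
noncomputable abbrev bimOf [Module.Finite R C] [Module.Projective R C] : Bim T R where
  X := C
  act := Module.toModuleEnd R C

theorem tensor_equiv [Module.Finite R C] [Module.Projective R C]
    (i : P →ₗ[T] (Fin n → T)) (q : (Fin n → T) →ₗ[T] P) (h : q.comp i = LinearMap.id) :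
    Nonempty ((C ⊗[T] P) ≃ₗ[R]
      LinearMap.range (mat (bimOf T R C) (LinearMap.toMatrix' (i.comp q)))) := by
  set α : C ⊗[T] P →ₗ[R] (Fin n → C) :=
    LinearMap.pi fun k => contr R C ((LinearMap.proj k).comp i) with hα
  set β : (Fin n → C) →ₗ[R] C ⊗[T] P :=
    ∑ k, (tens R C (q (Pi.single k 1))).comp (LinearMap.proj k) with hβ
  have hβa : ∀ v : Fin n → C, β v = ∑ k, v k ⊗ₜ[T] q (Pi.single k 1) := by
    intro v
    rw [hβ, LinearMap.sum_apply]
    rfl
  have h1 : ∀ z, β (α z) = z := by
    intro z
    induction z using TensorProduct.induction_on with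
    | zero => simp
    | tmul c p =>
      rw [hβa]
      have h2 : ∀ k, α (c ⊗ₜ[T] p) k = i p k • c := fun k =>
        contr_tmul (R := R) ((LinearMap.proj k).comp i) c p
      simp only [h2, TensorProduct.smul_tmul]
      rw [← TensorProduct.tmul_sum]
      congr 1
      simp only [← map_smul]
      rw [← map_sum]
      have h3 : ∑ k, i p k • (Pi.single k (1 : T) : Fin n → T) = i p := by
        funext j
        rw [Finset.sum_apply, Finset.sum_eq_single j]
        · rw [Pi.smul_apply, Pi.single_eq_same, smul_eq_mul, mul_one]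
        · intro k _ hk
          rw [Pi.smul_apply, Pi.single_eq_of_ne (Ne.symm hk), smul_zero]
        · intro h
          exact absurd (Finset.mem_univ j) h
      rw [h3]
      exact LinearMap.congr_fun h p
    | add y z hy hz => rw [map_add, map_add, hy, hz]
  have h2 : ∀ v, α (β v) = mat (bimOf T R C) (LinearMap.toMatrix' (i.comp q)) v := by
    intro v
    funext j
    rw [hβa, map_sum, Finset.sum_apply, mat_apply]
    apply Finset.sum_congr rfl
    intro k _
    have h2 : α (v k ⊗ₜ[T] q (Pi.single k 1)) j = i (q (Pi.single k 1)) j • v k :=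
      contr_tmul (R := R) ((LinearMap.proj j).comp i) (v k) (q (Pi.single k 1))
    rw [h2, LinearMap.toMatrix'_apply]
    rfl
  refine ⟨LinearEquiv.ofBijective (α.codRestrict _ ?_) ⟨?_, ?_⟩⟩
  · intro z
    rw [← h1 z, h2]
    exact ⟨_, rfl⟩
  · intro y z h
    have h3 : α y = α z := congrArg Subtype.val h
    rw [← h1 y, ← h1 z, h3]
  · rintro ⟨_, v, rfl⟩
    refine ⟨β v, ?_⟩
    apply Subtype.ext
    exact h2 v

/-- stably isomorphic modules over a commutative ring become isomorphic over a von Neumann regular
ring -/
theorem module_main (hR : ∀ a : R, ∃ x : R, a * x * a = a) [Module.Finite R C]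
    [Module.Projective R C] (P Q G : Type w) [AddCommGroup P] [Module T P] [Module.Finite T P]
    [Module.Projective T P] [AddCommGroup Q] [Module T Q] [AddCommGroup G] [Module T G]
    [Module.Finite T G] [Module.Projective T G] (φ : (P × G) ≃ₗ[T] (Q × G)) :
    Nonempty ((C ⊗[T] P) ≃ₗ[R] (C ⊗[T] Q)) := by
  have hV : VNR R := ⟨hR⟩
  obtain ⟨n, π, hπ⟩ := Module.Finite.exists_fin' T (P × G)
  obtain ⟨s, hs⟩ := Module.projective_lifting_property π LinearMap.id hπ
  have hs' : ∀ z, π (s z) = z := fun z => LinearMap.congr_fun hs z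
  set iP : P →ₗ[T] (Fin n → T) := s.comp (LinearMap.inl T P G) with hiP
  set qP : (Fin n → T) →ₗ[T] P := (LinearMap.fst T P G).comp π with hqP
  set iQ : Q →ₗ[T] (Fin n → T) := s.comp (φ.symm.toLinearMap.comp (LinearMap.inl T Q G)) with hiQ
  set qQ : (Fin n → T) →ₗ[T] Q := (LinearMap.fst T Q G).comp (φ.toLinearMap.comp π) with hqQ
  have hP : qP.comp iP = LinearMap.id := by
    apply LinearMap.ext
    intro p
    change (π (s (p, 0))).1 = p
    rw [hs']
  have hQ : qQ.comp iQ = LinearMap.id := by
    apply LinearMap.ext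
    intro p
    change (φ (π (s (φ.symm (p, 0))))).1 = p
    rw [hs', LinearEquiv.apply_symm_apply]
  obtain ⟨α⟩ := tensor_equiv (R := R) (C := C) iP qP hP
  obtain ⟨β⟩ := tensor_equiv (R := R) (C := C) iQ qQ hQ
  set X : (Fin n → T) →ₗ[T] (Fin n → T) :=
    s.comp ((LinearMap.inr T P G).comp ((LinearMap.snd T Q G).comp (φ.toLinearMap.comp π))) +
      (LinearMap.id - s.comp π) with hX
  set Y : (Fin n → T) →ₗ[T] (Fin n → T) :=
    s.comp (φ.symm.toLinearMap.comp ((LinearMap.inr T Q G).comp ((LinearMap.snd T P G).comp π))) +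
      (LinearMap.id - s.comp π) with hY
  have hXa : ∀ v, X v = s (0, (φ (π v)).2) + (v - s (π v)) := fun v => rfl
  have hYa : ∀ v, Y v = s (φ.symm (0, (π v).2)) + (v - s (π v)) := fun v => rfl
  have hπX : ∀ v, π (X v) = (0, (φ (π v)).2) := by
    intro v
    rw [hXa, map_add, map_sub, hs', hs', sub_self, add_zero]
  have hπY : ∀ v, π (Y v) = φ.symm (0, (π v).2) := by
    intro v
    rw [hYa, map_add, map_sub, hs', hs', sub_self, add_zero]
  have hXY : X.comp Y = LinearMap.id - iP.comp qP := by
    apply LinearMap.ext
    intro v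
    rw [LinearMap.comp_apply, hXa, hπY, LinearEquiv.apply_symm_apply, hYa]
    change s (0, (π v).2) + (s (φ.symm (0, (π v).2)) + (v - s (π v)) - s (φ.symm (0, (π v).2))) =
      v - s ((π v).1, 0)
    have h1 : s (π v) = s ((π v).1, 0) + s (0, (π v).2) := by
      rw [← map_add]
      congr 1
      ext <;> simp
    rw [h1]
    abel
  have hYX : Y.comp X = LinearMap.id - iQ.comp qQ := by
    apply LinearMap.ext
    intro v
    rw [LinearMap.comp_apply, hYa, hπX, hXa]
    change s (φ.symm (0, (φ (π v)).2)) + (s (0, (φ (π v)).2) + (v - s (π v)) -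
      s (0, (φ (π v)).2)) = v - s (φ.symm ((φ (π v)).1, 0))
    have h1 : s (π v) = s (φ.symm ((φ (π v)).1, 0)) + s (φ.symm (0, (φ (π v)).2)) := by
      rw [← map_add, ← map_add]
      congr 1
      rw [LinearEquiv.eq_symm_apply]
      ext <;> simp
    rw [h1]
    abel
  have hid : ∀ {i : P →ₗ[T] (Fin n → T)} {q : (Fin n → T) →ₗ[T] P}, q.comp i = LinearMap.id →
      LinearMap.toMatrix' (i.comp q) * LinearMap.toMatrix' (i.comp q) =
        LinearMap.toMatrix' (i.comp q) := by
    intro i q h
    rw [← LinearMap.toMatrix'_comp]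
    congr 1
    apply LinearMap.ext
    intro v
    exact congrArg i (LinearMap.congr_fun h (q v))
  have hid' : ∀ {i : Q →ₗ[T] (Fin n → T)} {q : (Fin n → T) →ₗ[T] Q}, q.comp i = LinearMap.id →
      LinearMap.toMatrix' (i.comp q) * LinearMap.toMatrix' (i.comp q) =
        LinearMap.toMatrix' (i.comp q) := by
    intro i q h
    rw [← LinearMap.toMatrix'_comp]
    congr 1
    apply LinearMap.ext
    intro v
    exact congrArg i (LinearMap.congr_fun h (q v))
  have h1 := mat_main (R := R) (e := LinearMap.toMatrix' (iP.comp qP))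
    (f := LinearMap.toMatrix' (iQ.comp qQ)) (x := LinearMap.toMatrix' X)
    (y := LinearMap.toMatrix' Y) (hid hP) (hid' hQ)
    (by rw [← LinearMap.toMatrix'_comp, hXY, map_sub, LinearMap.toMatrix'_id])
    (by rw [← LinearMap.toMatrix'_comp, hYX, map_sub, LinearMap.toMatrix'_id])
    (bimOf T R C)
  obtain ⟨γ⟩ := cls_eq.mp h1
  exact ⟨α.trans (γ.trans β.symm)⟩

end Tensor

end SepReg
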