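import Pool.Agent.Lib.MP_dccecd_al.FinBim

/-! Small functions, and the difference of the cokernel and kernel classes of generically invertible
elements (for MP_dccecd_al, the finite base theorem). -/

open SepReg

namespace SepFin

universe u v w

section Small
variable {T : Type v} [Ring T] {R : Type u} [Ring R] [VNR R] {A : Type w} [CommRing A] [Algebra A T]

theorem ker_mono (C : Bim T R) (s t : A) :
    Le (cls R (kerB C t).X) (cls R (kerB C (s * t)).X) := by
  have hle : LinearMap.ker (C.za t) ≤ LinearMap.ker (C.za (s * t)) := by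
    intro x hx
    rw [LinearMap.mem_ker] at hx ⊢
    rw [C.za_mul, hx, map_zero]
  exact le_of_inj (Submodule.inclusion hle) (Submodule.inclusion_injective hle)

theorem cok_mono (C : Bim T R) (s t : A) :
    Le (cls R (cokB C t).X) (cls R (cokB C (s * t)).X) := by
  have hle : LinearMap.range (C.za (s * t)) ≤ (LinearMap.range (C.za t)).comap LinearMap.id := by
    rintro _ ⟨v, rfl⟩
    rw [mul_comm, C.za_mul]
    exact ⟨_, rfl⟩
  refine le_of_surj (Submodule.mapQ _ _ LinearMap.id hle) ?_
  intro x
  obtain ⟨v, rfl⟩ := Submodule.mkQ_surjective _ x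
  exact ⟨Submodule.Quotient.mk v, rfl⟩

/-- the kernel class of an element -/
def kap (t : T) : Bim T R → VR R := fun C => cls R (LinearMap.ker (C.act t))

/-- the cokernel class of an element -/
def gam (t : T) : Bim T R → VR R :=
  fun C => cls R (C.X ⧸ LinearMap.range (C.act t))

theorem kap_le {t n : T} {z : A} (h : n * t = algebraMap A T z) (C : Bim T R) :
    Le (kap t C) (cls R (kerB C z).X) := by
  have hle : LinearMap.ker (C.act t) ≤ LinearMap.ker (C.za z) := by
    intro x hx
    rw [LinearMap.mem_ker] at hx ⊢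
    change C.act (algebraMap A T z) x = 0
    rw [← h, C.act_mul, hx, map_zero]
  exact le_of_inj (Submodule.inclusion hle) (Submodule.inclusion_injective hle)

theorem gam_le {t n : T} {z : A} (h : t * n = algebraMap A T z) (C : Bim T R) :
    Le (gam t C) (cls R (cokB C z).X) := by
  have hle : LinearMap.range (C.za z) ≤ (LinearMap.range (C.act t)).comap LinearMap.id := by
    rintro _ ⟨v, rfl⟩
    change C.act (algebraMap A T z) v ∈ LinearMap.range (C.act t)
    rw [← h, C.act_mul]
    exact ⟨_, rfl⟩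
  refine le_of_surj (Submodule.mapQ _ _ LinearMap.id hle) ?_
  intro x
  obtain ⟨v, rfl⟩ := Submodule.mkQ_surjective _ x
  exact ⟨Submodule.Quotient.mk v, rfl⟩

theorem six' {X Y Z : Type u} [AddCommGroup X] [Module R X] [Module.Finite R X]
    [Module.Projective R X] [AddCommGroup Y] [Module R Y] [Module.Finite R Y]
    [Module.Projective R Y] [AddCommGroup Z] [Module R Z] [Module.Finite R Z]
    [Module.Projective R Z] (f : X →ₗ[R] Y) (g : Y →ₗ[R] Z) (h : X →ₗ[R] Z) (hh : h = g.comp f) :
    cls R (LinearMap.ker f) + cls R (LinearMap.ker g) + cls R (Z ⧸ LinearMap.range h) =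
      cls R (LinearMap.ker h) + cls R (Y ⧸ LinearMap.range f)
        + cls R (Z ⧸ LinearMap.range g) := by
  subst hh
  exact six f g

theorem six_fun (s t : T) :
    (kap t + kap s + gam (s * t) : Bim T R → VR R) = kap (s * t) + gam t + gam s := by
  funext C
  exact six' (C.act t) (C.act s) (C.act (s * t)) (by rw [map_mul]; rfl)

theorem kap_unit {s t : T} (h : t * s = 1) : (kap s : Bim T R → VR R) = 0 := by
  funext C
  have h1 : Subsingleton (LinearMap.ker (C.act s)) := by
    constructor
    intro x y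
    have h2 : ∀ z : LinearMap.ker (C.act s), z.1 = 0 := by
      rintro ⟨z, hz⟩
      rw [LinearMap.mem_ker] at hz
      change z = 0
      rw [← C.act_one z, ← h, C.act_mul, hz, map_zero]
    exact Subtype.ext ((h2 x).trans (h2 y).symm)
  exact cls_subsingleton _

theorem gam_unit {s t : T} (h : s * t = 1) : (gam s : Bim T R → VR R) = 0 := by
  funext C
  have h1 : Subsingleton (C.X ⧸ LinearMap.range (C.act s)) := by
    rw [Submodule.Quotient.subsingleton_iff, LinearMap.range_eq_top]
    intro z
    exact ⟨C.act t z, by rw [← C.act_mul, h, C.act_one]⟩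
  exact cls_subsingleton _

theorem lemL {e f u x y : T} (he : e * e = e) (hf : f * f = f)
    (hu1 : f * u = u) (hu2 : u * e = u) (hy1 : f * y = 0) (hy2 : y * e = 0) (hx : e * x = 0)
    (hxy : x * y = 1 - e) (hyx : y * x = 1 - f) (C : Bim T R) :
    pp e C + gam (u + y) C = pp f C + kap (u + y) C := by
  have hux : u * x = 0 := by rw [← hu2, mul_assoc, hx, mul_zero]
  have h0 : ∀ v ∈ LinearMap.range (C.act e), C.act u v ∈ LinearMap.range (C.act f) := by
    intro v _
    rw [← hu1, C.act_mul]
    exact ⟨_, rfl⟩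
  set r : LinearMap.range (C.act e) →ₗ[R] LinearMap.range (C.act f) := (C.act u).restrict h0 with hr
  have e1 := cls_source r
  have e2 := cls_target r
  have hk : cls R (LinearMap.ker r) = kap (u + y) C := by
    have h1 : ∀ w : LinearMap.ker r, w.1.1 ∈ LinearMap.ker (C.act (u + y)) := by
      rintro ⟨⟨w, hw⟩, h⟩
      have h2 : C.act u w = 0 := congrArg Subtype.val h
      rw [mem_range_act he] at hw
      rw [LinearMap.mem_ker]
      change C.act (u + y) w = 0
      rw [C.act_add, h2, zero_add, ← hw, ← C.act_mul, hy2, C.act_zero]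
    refine cls_congr (LinearEquiv.ofBijective
      (((LinearMap.range (C.act e)).subtype.comp (LinearMap.ker r).subtype).codRestrict
        (LinearMap.ker (C.act (u + y))) h1) ⟨?_, ?_⟩)
    · intro v w h
      have h2 := congrArg Subtype.val h
      apply Subtype.ext
      apply Subtype.ext
      exact h2
    · rintro ⟨w, hw⟩
      rw [LinearMap.mem_ker] at hw
      have h2 : C.act u w + C.act y w = 0 := by rw [← C.act_add, hw]
      have h3 : C.act u w = 0 := by
        have h4 := congrArg (C.act f) h2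
        rw [map_add (C.act f), ← C.act_mul, ← C.act_mul, hu1, hy1, C.act_zero, add_zero,
          map_zero (C.act f)] at h4
        exact h4
      rw [h3, zero_add] at h2
      have h5 : C.act e w = w := by
        have h4 := congrArg (C.act x) h2
        rw [← C.act_mul, hxy, C.act_sub, C.act_one, map_zero (C.act x), sub_eq_zero] at h4
        exact h4.symm
      refine ⟨⟨⟨w, ⟨w, h5⟩⟩, ?_⟩, ?_⟩
      · apply Subtype.ext
        exact h3
      · rfl
  have hc : cls R (LinearMap.range (C.act f) ⧸ LinearMap.range r) = gam (u + y) C := by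
    have hle : LinearMap.range r ≤
        (LinearMap.range (C.act (u + y))).comap (LinearMap.range (C.act f)).subtype := by
      rintro _ ⟨⟨w, hw⟩, rfl⟩
      rw [mem_range_act he] at hw
      refine ⟨w, ?_⟩
      change C.act (u + y) w = C.act u w
      rw [C.act_add]
      have h2 : C.act y w = 0 := by rw [← hw, ← C.act_mul, hy2, C.act_zero]
      rw [h2, add_zero]
    refine cls_congr (LinearEquiv.ofBijective (Submodule.mapQ _ _ _ hle) ⟨?_, ?_⟩)
    · rw [injective_iff_map_eq_zero]
      intro q h
      obtain ⟨⟨w, hw⟩, rfl⟩ := Submodule.mkQ_surjective _ q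
      rw [Submodule.mkQ_apply, Submodule.mapQ_apply, Submodule.Quotient.mk_eq_zero] at h
      rw [Submodule.mkQ_apply, Submodule.Quotient.mk_eq_zero]
      obtain ⟨t, ht⟩ := h
      change C.act (u + y) t = w at ht
      rw [mem_range_act hf] at hw
      refine ⟨⟨C.act e t, ⟨t, rfl⟩⟩, ?_⟩
      apply Subtype.ext
      change C.act u (C.act e t) = w
      rw [← C.act_mul, hu2]
      have h4 := congrArg (C.act f) ht
      rw [C.act_add, map_add (C.act f), ← C.act_mul, ← C.act_mul, hu1, hy1, C.act_zero,
        add_zero, hw] at h4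
      exact h4
    · intro q
      obtain ⟨w, rfl⟩ := Submodule.mkQ_surjective _ q
      refine ⟨Submodule.Quotient.mk ⟨C.act f w, ⟨w, rfl⟩⟩, ?_⟩
      rw [Submodule.mapQ_apply, Submodule.mkQ_apply, Submodule.Quotient.eq]
      refine ⟨- C.act x w, ?_⟩
      change C.act (u + y) (- C.act x w) = C.act f w - w
      rw [map_neg (C.act (u + y)), ← C.act_mul, add_mul, hux, zero_add, hyx, C.act_sub, C.act_one]
      abel
  rw [pp, pp, ← e1, ← e2, hk, hc]
  abel

/-- the multiples of an element of the ideal generated by `e` are bounded by copies of the image of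
`e` -/
theorem full_bound {m : ℕ} (e : T) (u v : Fin m → T) (z : A)
    (h : algebraMap A T z = ∑ k, u k * e * v k) (C : Bim T R) :
    Le (cls R (ranB C z).X) (m • pp e C) := by
  rw [pp, ← cls_pi]
  set Ψ : (Fin m → LinearMap.range (C.act e)) →ₗ[R] C.X :=
    ∑ k, (C.act (u k)).comp ((LinearMap.range (C.act e)).subtype.comp (LinearMap.proj k)) with hΨ
  have hle : LinearMap.range (C.za z) ≤ LinearMap.range Ψ := by
    rintro _ ⟨w, rfl⟩
    refine ⟨fun k => ⟨C.act e (C.act (v k) w), ⟨_, rfl⟩⟩, ?_⟩
    rw [hΨ, LinearMap.sum_apply, Bim.za, h, map_sum, LinearMap.sum_apply]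
    apply Finset.sum_congr rfl
    intro k _
    rw [C.act_mul, C.act_mul]
    rfl
  exact (le_of_inj (Submodule.inclusion hle) (Submodule.inclusion_injective hle)).trans
    (le_of_surj Ψ.rangeRestrict Ψ.surjective_rangeRestrict)

end Small

section Dom
variable (A : Type w) [CommRing A] [IsDomain A] (T : Type v) [Ring T] [Algebra A T]
  (R : Type u) [Ring R] [VNR R]

/-- the functions which are bounded by a multiple of the classes of the kernel and of the cokernel
of some nonzero scalar -/
def smallS : AddSubmonoid (Bim T R → VR R) where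
  carrier := {s | ∃ z : A, z ≠ 0 ∧ ∃ b : ℕ, ∀ C,
    Le (s C) (b • (cls R (cokB C z).X + cls R (kerB C z).X))}
  add_mem' := by
    rintro s t ⟨z, hz, b, h⟩ ⟨y, hy, c, h'⟩
    refine ⟨z * y, mul_ne_zero hz hy, b + c, fun C => ?_⟩
    rw [add_nsmul]
    refine Le.add ((h C).trans (Le.nsmul ?_ b)) ((h' C).trans (Le.nsmul ?_ c))
    · rw [mul_comm]
      exact (cok_mono C y z).add (ker_mono C y z)
    · exact (cok_mono C z y).add (ker_mono C z y)
  zero_mem' := ⟨1, one_ne_zero, 0, fun C => ⟨_, zero_add _⟩⟩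

variable {T}

/-- generically invertible elements -/
def GI (t : T) : Prop :=
  ∃ (n : T) (z : A), z ≠ 0 ∧ t * n = algebraMap A T z ∧ n * t = algebraMap A T z

variable {A R}

theorem kap_mem {t : T} (h : GI A t) : kap t ∈ smallS A T R := by
  obtain ⟨n, z, hz, -, h2⟩ := h
  refine ⟨z, hz, 1, fun C => ?_⟩
  rw [one_nsmul]
  exact (kap_le h2 C).trans (Le.right _ _)

theorem gam_mem {t : T} (h : GI A t) : gam t ∈ smallS A T R := by
  obtain ⟨n, z, hz, h1, -⟩ := h
  refine ⟨z, hz, 1, fun C => ?_⟩
  rw [one_nsmul]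
  exact (gam_le h1 C).trans (Le.left _ _)

theorem GI.mul {s t : T} (hs : GI A s) (ht : GI A t) : GI A (s * t) := by
  obtain ⟨n, z, hz, h1, h2⟩ := hs
  obtain ⟨m, y, hy, h3, h4⟩ := ht
  refine ⟨m * n, z * y, mul_ne_zero hz hy, ?_, ?_⟩
  · calc s * t * (m * n) = s * (t * m) * n := by noncomm_ring
      _ = algebraMap A T (z * y) := by
        rw [h3, ← Algebra.commutes, mul_assoc, h1, ← map_mul, mul_comm]
  · calc m * n * (s * t) = m * (n * s) * t := by noncomm_ring
      _ = algebraMap A T (z * y) := by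
        rw [h2, ← Algebra.commutes, mul_assoc, h4, ← map_mul]

theorem GI.scalar {z : A} (hz : z ≠ 0) : GI A (algebraMap A T z) :=
  ⟨1, z, hz, by rw [mul_one], by rw [one_mul]⟩

theorem GI.unit {s t : T} (h : s * t = 1) (h' : t * s = 1) : GI A s :=
  ⟨t, 1, one_ne_zero, by rw [h, map_one], by rw [h', map_one]⟩

variable (A R)

open Classical in
/-- the difference of the cokernel and kernel classes -/
noncomputable def chi (t : T) : Algebra.GrothendieckAddGroup (smallS A T R) :=
  if h : GI A t then
    Algebra.GrothendieckAddGroup.of (⟨gam t, gam_mem h⟩ : smallS A T R) -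
      Algebra.GrothendieckAddGroup.of (⟨kap t, kap_mem h⟩ : smallS A T R)
  else 0

variable {A R}

theorem of_eq_iff {S : Type*} [AddCommMonoid S] (x y : S) :
    (Algebra.GrothendieckAddGroup.of x : Algebra.GrothendieckAddGroup S) =
      Algebra.GrothendieckAddGroup.of y ↔ ∃ c, c + x = c + y := by
  constructor
  · intro h
    obtain ⟨c, hc⟩ := ((AddLocalization.addMonoidOf (⊤ : AddSubmonoid S)).eq_iff_exists).mp h
    exact ⟨c, hc⟩
  · rintro ⟨c, hc⟩
    exact ((AddLocalization.addMonoidOf (⊤ : AddSubmonoid S)).eq_iff_exists).mpr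
      ⟨⟨c, AddSubmonoid.mem_top c⟩, hc⟩

theorem chi_mul {s t : T} (hs : GI A s) (ht : GI A t) :
    chi A R (s * t) = chi A R s + chi A R t := by
  have hst := hs.mul ht
  have h1 : (⟨kap t, kap_mem ht⟩ + ⟨kap s, kap_mem hs⟩ + ⟨gam (s * t), gam_mem hst⟩ :
      smallS A T R) =
      ⟨kap (s * t), kap_mem hst⟩ + ⟨gam t, gam_mem ht⟩ + ⟨gam s, gam_mem hs⟩ :=
    Subtype.ext (six_fun s t)
  have h2 := congrArg (Algebra.GrothendieckAddGroup.of (M := smallS A T R)) h1
  rw [map_add, map_add, map_add, map_add] at h2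
  rw [chi, chi, chi, dif_pos hst, dif_pos hs, dif_pos ht, sub_add_sub_comm,
    sub_eq_sub_iff_add_eq_add]
  rw [← sub_eq_zero] at h2 ⊢
  rw [← h2]
  abel

theorem chi_unit {s t : T} (h : s * t = 1) (h' : t * s = 1) : chi A R s = 0 := by
  have hM : GI A s := GI.unit h h'
  rw [chi, dif_pos hM, sub_eq_zero]
  congr 1
  apply Subtype.ext
  change gam s = kap s
  rw [kap_unit h', gam_unit h]

theorem chi_one : chi A R (1 : T) = 0 := chi_unit (one_mul 1) (one_mul 1)

end Dom

section Loc
variable {A : Type w} [CommRing A] [IsDomain A] {T : Type v} [Ring T] [Algebra A T]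
  {R : Type u} [Ring R] [VNR R]

/-- `L` is the localization of the torsion-free algebra `T` at the nonzero scalars -/
structure IsLoc {L : Type*} [Ring L] [Algebra A L] (ι : T →ₐ[A] L) : Prop where
  inj : Function.Injective ι
  unit : ∀ z : A, z ≠ 0 → IsUnit (algebraMap A L z)
  surj : ∀ l : L, ∃ (z : A) (t : T), z ≠ 0 ∧ ι t = algebraMap A L z * l

variable {L : Type*} [Ring L] [Algebra A L] {ι : T →ₐ[A] L}

theorem IsLoc.gi (h : IsLoc ι) {t : T} (ht : IsUnit (ι t)) : GI A t := by
  obtain ⟨g, hg⟩ := ht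
  obtain ⟨z, n, hz, hn⟩ := h.surj (↑g⁻¹)
  refine ⟨n, z, hz, ?_, ?_⟩
  · apply h.inj
    rw [map_mul, hn, ← hg, ← mul_assoc, ← Algebra.commutes, mul_assoc, Units.mul_inv, mul_one,
      AlgHom.commutes]
  · apply h.inj
    rw [map_mul, hn, ← hg, mul_assoc, Units.inv_mul, mul_one, AlgHom.commutes]

theorem IsLoc.cancel (h : IsLoc ι) {z : A} (hz : z ≠ 0) {a b : L}
    (hab : algebraMap A L z * a = algebraMap A L z * b) : a = b :=
  (h.unit z hz).mul_left_cancel hab

variable (A R) in
/-- the invariant of a unit of the localization -/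
noncomputable def rho (h : IsLoc ι) (g : Lˣ) : Algebra.GrothendieckAddGroup (smallS A T R) :=
  chi A R (h.surj g).choose_spec.choose - chi A R (algebraMap A T (h.surj g).choose)

theorem unit_of_eq (h : IsLoc ι) {g : Lˣ} {z : A} {t : T} (hz : z ≠ 0)
    (ht : ι t = algebraMap A L z * g) : IsUnit (ι t) := by
  rw [ht]
  exact (h.unit z hz).mul g.isUnit

theorem rho_aux (h : IsLoc ι) {g : Lˣ} {z z' : A} {t t' : T} (hz : z ≠ 0)
    (ht : ι t = algebraMap A L z * g) (hz0 : z' ≠ 0) (ht0 : ι t' = algebraMap A L z' * g) :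
    chi A R t' - chi A R (algebraMap A T z') = chi A R t - chi A R (algebraMap A T z) := by
  have h1 : algebraMap A T z * t' = algebraMap A T z' * t := by
    apply h.inj
    rw [map_mul, map_mul, ht, ht0, AlgHom.commutes, AlgHom.commutes, ← mul_assoc, ← mul_assoc,
      ← map_mul, ← map_mul, mul_comm]
  have h2 := congrArg (chi A R) h1
  rw [chi_mul (GI.scalar hz) (h.gi (unit_of_eq h hz0 ht0)),
    chi_mul (GI.scalar hz0) (h.gi (unit_of_eq h hz ht))] at h2
  rw [sub_eq_sub_iff_add_eq_add, add_comm, h2, add_comm]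

theorem rho_spec (h : IsLoc ι) {g : Lˣ} {z : A} {t : T} (hz : z ≠ 0)
    (ht : ι t = algebraMap A L z * g) :
    rho A R h g = chi A R t - chi A R (algebraMap A T z) :=
  rho_aux h hz ht (h.surj g).choose_spec.choose_spec.1 (h.surj g).choose_spec.choose_spec.2

theorem rho_mul (h : IsLoc ι) (g g' : Lˣ) : rho A R h (g * g') = rho A R h g + rho A R h g' := by
  obtain ⟨z, t, hz, ht⟩ := h.surj g
  obtain ⟨z', t', hz', ht'⟩ := h.surj g'
  rw [rho_spec h hz ht, rho_spec h hz' ht', rho_spec h (mul_ne_zero hz hz') (t := t * t'),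
    chi_mul (h.gi (unit_of_eq h hz ht)) (h.gi (unit_of_eq h hz' ht')), map_mul,
    chi_mul (GI.scalar hz) (GI.scalar hz')]
  · abel
  · rw [map_mul, ht, ht', map_mul, Units.val_mul]
    calc algebraMap A L z * ↑g * (algebraMap A L z' * ↑g')
        = algebraMap A L z * (↑g * algebraMap A L z') * ↑g' := by noncomm_ring
      _ = algebraMap A L z * (algebraMap A L z' * ↑g) * ↑g' := by rw [Algebra.commutes z']
      _ = _ := by noncomm_ring

theorem rho_one (h : IsLoc ι) : rho A R h 1 = 0 := by
  have h1 := rho_mul (R := R) h 1 1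
  rw [mul_one] at h1
  exact left_eq_add.mp h1

theorem rho_inv (h : IsLoc ι) (g : Lˣ) : rho A R h g⁻¹ = - rho A R h g := by
  have h1 := rho_mul (R := R) h g g⁻¹
  rw [mul_inv_cancel, rho_one] at h1
  rw [eq_neg_iff_add_eq_zero, add_comm]
  exact h1.symm

/-- the unit `1 + N` for `N` of square zero -/
def tr {L : Type*} [Ring L] (N : L) (hN : N * N = 0) : Lˣ where
  val := 1 + N
  inv := 1 - N
  val_inv := by rw [mul_sub, mul_one, add_mul, one_mul, hN, add_zero, add_sub_cancel_right]
  inv_val := by rw [sub_mul, one_mul, mul_add, mul_one, hN, add_zero, add_sub_cancel_right]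

theorem tr_val {L : Type*} [Ring L] (N : L) (hN : N * N = 0) : (tr N hN : L) = 1 + N := rfl

theorem rho_tr (h : IsLoc ι) {ε N : L} (he : ε * ε = ε) (h1 : ε * N = N) (h2 : N * ε = 0)
    (hN : N * N = 0) : rho A R h (tr N hN) = 0 := by
  by_cases hA : ∃ s : A, s ≠ 0 ∧ s ≠ 1
  · obtain ⟨s, hs0, hs1⟩ := hA
    obtain ⟨d, hd⟩ := h.unit (s - 1) (sub_ne_zero.mpr hs1)
    obtain ⟨c, hc⟩ := h.unit s hs0
    have hcs : ∀ l : L, (c : L) * l = l * c := by
      intro l
      rw [hc]
      exact Algebra.commutes s l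
    have hcs' : ∀ l : L, (↑c⁻¹ : L) * l = l * ↑c⁻¹ := by
      intro l
      have := hcs (↑c⁻¹ * l * ↑c⁻¹)
      rw [← mul_assoc, ← mul_assoc, Units.mul_inv, one_mul, mul_assoc (↑c⁻¹ * l), Units.inv_mul,
        mul_one] at this
      exact this.symm
    have hds : ∀ l : L, (d : L) * l = l * d := by
      intro l
      rw [hd]
      exact Algebra.commutes (s - 1) l
    have hds' : ∀ l : L, (↑d⁻¹ : L) * l = l * ↑d⁻¹ := by
      intro l
      have := hds (↑d⁻¹ * l * ↑d⁻¹)
      rw [← mul_assoc, ← mul_assoc, Units.mul_inv, one_mul, mul_assoc (↑d⁻¹ * l), Units.inv_mul,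
        mul_one] at this
      exact this.symm
    set N' : L := ↑d⁻¹ * N with hN'
    have n1 : ε * N' = N' := by rw [hN', ← mul_assoc, ← hds', mul_assoc, h1]
    have n2 : N' * ε = 0 := by rw [hN', mul_assoc, h2, mul_zero]
    have n3 : N' * N' = 0 := by
      rw [← n1, mul_assoc, ← mul_assoc N', n2, zero_mul, mul_zero]
    have n4 : (c : L) * N' * (c * N') = 0 := by
      calc (c : L) * N' * (c * N') = c * (N' * c) * N' := by noncomm_ring
        _ = c * (c * N') * N' := by rw [← hcs N']
        _ = c * c * (N' * N') := by noncomm_ring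
        _ = 0 := by rw [n3, mul_zero]
    set D : Lˣ :=
      { val := c * ε + (1 - ε)
        inv := ↑c⁻¹ * ε + (1 - ε)
        val_inv := by
          have q1 : ε * (1 - ε) = 0 := by rw [mul_sub, mul_one, he, sub_self]
          have q2 : (1 - ε) * ε = 0 := by rw [sub_mul, one_mul, he, sub_self]
          have q3 : (1 - ε) * (1 - ε) = 1 - ε := by rw [mul_sub, mul_one, q2, sub_zero]
          rw [add_mul, mul_add, mul_add, hcs' ε, mul_assoc (c : L), ← mul_assoc ε, he, mul_assoc,
            q1, mul_zero, q3, ← mul_assoc (1 - ε), q2, zero_mul, ← hcs', ← mul_assoc,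
            Units.mul_inv, one_mul, add_zero, zero_add, add_sub_cancel]
        inv_val := by
          have q1 : ε * (1 - ε) = 0 := by rw [mul_sub, mul_one, he, sub_self]
          have q2 : (1 - ε) * ε = 0 := by rw [sub_mul, one_mul, he, sub_self]
          have q3 : (1 - ε) * (1 - ε) = 1 - ε := by rw [mul_sub, mul_one, q2, sub_zero]
          rw [add_mul, mul_add, mul_add, hcs ε, mul_assoc (↑c⁻¹ : L), ← mul_assoc ε, he, mul_assoc,
            q1, mul_zero, q3, ← mul_assoc (1 - ε), q2, zero_mul, ← hcs, ← mul_assoc,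
            Units.inv_mul, one_mul, add_zero, zero_add, add_sub_cancel] } with hD
    have hDv : (D : L) = c * ε + (1 - ε) := rfl
    have e1 : D * tr N' n3 = tr (c * N') n4 * D := by
      apply Units.ext
      rw [Units.val_mul, Units.val_mul, tr_val, tr_val, hDv]
      have q1 : (1 - ε) * N' = 0 := by rw [sub_mul, one_mul, n1, sub_self]
      have q2 : N' * (c * ε + (1 - ε)) = N' := by
        rw [mul_add, hcs ε, ← mul_assoc, n2, zero_mul, mul_sub, mul_one, n2, sub_zero, zero_add]
      rw [mul_add, mul_one, add_mul (c * ε), q1, mul_assoc, n1, add_zero, add_mul, one_mul,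
        mul_assoc, q2]
    have e2 : tr (c * N') n4 = tr N hN * tr N' n3 := by
      apply Units.ext
      rw [Units.val_mul, tr_val, tr_val, tr_val]
      have q1 : N * N' = 0 := by
        rw [← n1, ← mul_assoc, h2, zero_mul]
      have q2 : (c : L) * N' = N + N' := by
        have q3 : (c : L) = d + 1 := by
          rw [hc, hd, map_sub, map_one, sub_add_cancel]
        rw [q3, add_mul, one_mul, hN', ← mul_assoc, Units.mul_inv, one_mul]
      rw [mul_add, mul_one, add_mul, one_mul, q1, add_zero, q2, add_assoc]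
    have e3 := congrArg (rho A R h) e1
    rw [rho_mul, rho_mul, e2, rho_mul, add_comm] at e3
    have e4 := add_right_cancel e3
    exact right_eq_add.mp e4
  · push Not at hA
    obtain ⟨z, t, hz, ht⟩ := h.surj N
    rw [hA z hz, map_one, one_mul] at ht
    have h3 : t * t = 0 := by
      apply h.inj
      rw [map_mul, ht, hN, map_zero]
    have h4 := rho_spec (R := R) h (g := tr N hN) (z := 1) (t := 1 + t) one_ne_zero (by
      rw [map_add, map_one, ht, map_one, one_mul, tr_val])
    rw [h4, map_one, chi_one, sub_zero]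
    have h5 : (1 + t) * (1 - t) = 1 := (tr t h3).val_inv
    have h6 : (1 - t) * (1 + t) = 1 := (tr t h3).inv_val
    exact chi_unit h5 h6

end Loc
end SepFin
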