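import Pool.Agent.Lib.MP_dccecd_al.FinUnit

/-! Idempotents with isomorphic complements over prime algebras (for MP_dccecd_al, the finite base
theorem). -/

open SepReg

namespace SepFin

universe u v w

section Bound
variable {T : Type v} [Ring T] {R : Type u} [Ring R] [VNR R]

theorem cl_bound (e : T) {x : T} (hx : x ∈ Ideal.span (Set.range fun v : T => e * v)) :
    ∃ m : ℕ, ∀ C : Bim T R, Le (cls R (LinearMap.range (C.act x))) (m • pp e C) := by
  induction hx using Submodule.span_induction with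
  | mem x hx =>
    obtain ⟨v, rfl⟩ := hx
    refine ⟨1, fun C => ?_⟩
    rw [one_nsmul]
    have hle : LinearMap.range (C.act (e * v)) ≤ LinearMap.range (C.act e) := by
      rintro _ ⟨w, rfl⟩
      rw [C.act_mul]
      exact ⟨_, rfl⟩
    exact le_of_inj (Submodule.inclusion hle) (Submodule.inclusion_injective hle)
  | zero =>
    refine ⟨0, fun C => ?_⟩
    have h1 : Subsingleton (LinearMap.range (C.act (0 : T))) := by
      rw [map_zero, LinearMap.range_zero]
      infer_instance
    rw [cls_subsingleton, zero_nsmul]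
    exact Le.rfl'
  | add x y _ _ hx hy =>
    obtain ⟨m, hm⟩ := hx
    obtain ⟨k, hk⟩ := hy
    refine ⟨m + k, fun C => ?_⟩
    rw [add_nsmul]
    refine Le.trans ?_ ((hm C).add (hk C))
    rw [← cls_prod]
    set Ψ : (LinearMap.range (C.act x) × LinearMap.range (C.act y)) →ₗ[R] C.X :=
      (LinearMap.range (C.act x)).subtype.coprod (LinearMap.range (C.act y)).subtype with hΨ
    have hle : LinearMap.range (C.act (x + y)) ≤ LinearMap.range Ψ := by
      rintro _ ⟨w, rfl⟩
      refine ⟨(⟨C.act x w, w, rfl⟩, ⟨C.act y w, w, rfl⟩), ?_⟩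
      rw [C.act_add]
      rfl
    exact (le_of_inj (Submodule.inclusion hle) (Submodule.inclusion_injective hle)).trans
      (le_of_surj Ψ.rangeRestrict Ψ.surjective_rangeRestrict)
  | smul r x _ hx =>
    obtain ⟨m, hm⟩ := hx
    refine ⟨m, fun C => Le.trans ?_ (hm C)⟩
    have h0 : ∀ w : LinearMap.range (C.act x), C.act r w.1 ∈ LinearMap.range (C.act (r • x)) := by
      rintro ⟨_, w, rfl⟩
      exact ⟨w, C.act_mul _ _ _⟩
    refine le_of_surj (((C.act r).comp (LinearMap.range (C.act x)).subtype).codRestrict _ h0) ?_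
    rintro ⟨_, w, rfl⟩
    refine ⟨⟨C.act x w, w, rfl⟩, ?_⟩
    apply Subtype.ext
    exact (C.act_mul _ _ _).symm

end Bound

section Dom
variable {A : Type w} [CommRing A] [IsDomain A] {T : Type v} [Ring T] [Algebra A T]
  {R : Type u} [Ring R] [VNR R]
variable {L : Type*} [Ring L] [Algebra A L] {ι : T →ₐ[A] L}

theorem exists_scalar [IsArtinianRing L] (hp : Prm L) (h : IsLoc ι) {e : T} (he : e ≠ 0) :
    ∃ z : A, z ≠ 0 ∧ algebraMap A T z ∈ Ideal.span (Set.range fun v : T => e * v) := by
  have hιe : ι e ≠ 0 := by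
    intro h1
    apply he
    apply h.inj
    rw [h1, map_zero]
  have h1 := full hp hιe _ (1 : L) rfl (one_mul 1)
  have key : ∀ l ∈ Ideal.span (Set.range fun v : L => ι e * v),
      ∃ z : A, z ≠ 0 ∧ ∃ x ∈ Ideal.span (Set.range fun v : T => e * v),
        ι x = algebraMap A L z * l := by
    intro l hl
    induction hl using Submodule.span_induction with
    | mem l hl =>
      obtain ⟨v, rfl⟩ := hl
      obtain ⟨z, t, hz, ht⟩ := h.surj v
      refine ⟨z, hz, e * t, Ideal.subset_span ⟨t, rfl⟩, ?_⟩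
      rw [map_mul, ht, ← mul_assoc, ← mul_assoc, Algebra.commutes]
    | zero => exact ⟨1, one_ne_zero, 0, zero_mem _, by rw [map_zero, mul_zero]⟩
    | add l l' _ _ hl hl' =>
      obtain ⟨z, hz, x, hx, hzx⟩ := hl
      obtain ⟨z', hz', x', hx', hzx'⟩ := hl'
      refine ⟨z * z', mul_ne_zero hz hz', algebraMap A T z' * x + algebraMap A T z * x', ?_, ?_⟩
      · exact Ideal.add_mem _ (Ideal.mul_mem_left _ _ hx) (Ideal.mul_mem_left _ _ hx')
      · rw [map_add, map_mul, map_mul, hzx, hzx', AlgHom.commutes, AlgHom.commutes, mul_add,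
          ← mul_assoc, ← mul_assoc, ← map_mul, ← map_mul, mul_comm z' z]
    | smul r l _ hl =>
      obtain ⟨z, hz, x, hx, hzx⟩ := hl
      obtain ⟨z', t, hz', ht⟩ := h.surj r
      refine ⟨z' * z, mul_ne_zero hz' hz, t * x, Ideal.mul_mem_left _ _ hx, ?_⟩
      rw [map_mul, ht, hzx, smul_eq_mul, map_mul]
      calc algebraMap A L z' * r * (algebraMap A L z * l)
          = algebraMap A L z' * (r * algebraMap A L z) * l := by noncomm_ring
        _ = algebraMap A L z' * (algebraMap A L z * r) * l := by rw [Algebra.commutes z r]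
        _ = _ := by noncomm_ring
  obtain ⟨z, hz, x, hx, hzx⟩ := key 1 h1
  refine ⟨z, hz, ?_⟩
  have h2 : x = algebraMap A T z := by
    apply h.inj
    rw [hzx, mul_one, AlgHom.commutes]
  rwa [← h2]

/-- the classes of the images agree up to a small term -/
theorem rel [IsArtinianRing L] (hp : Prm L) (h : IsLoc ι) {e f x y : T} (he : e * e = e)
    (hf : f * f = f) (hxy : x * y = 1 - e) (hyx : y * x = 1 - f) (he0 : e ≠ 0) :
    ∃ z : A, z ≠ 0 ∧ ∃ b : ℕ, ∀ C : Bim T R, ∃ d : VR R, pp e C + d = pp f C + d ∧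
      Le d (b • (cls R (cokB C z).X + cls R (kerB C z).X)) := by
  -- normalized maps
  set x' := (1 - e) * x * (1 - f) with hx'
  set y' := (1 - f) * y * (1 - e) with hy'
  have e1 : e * (1 - e) = 0 := by rw [mul_sub, mul_one, he, sub_self]
  have e2 : (1 - e) * e = 0 := by rw [sub_mul, one_mul, he, sub_self]
  have f1 : f * (1 - f) = 0 := by rw [mul_sub, mul_one, hf, sub_self]
  have f2 : (1 - f) * f = 0 := by rw [sub_mul, one_mul, hf, sub_self]
  have e3 : (1 - e) * (1 - e) = 1 - e := by rw [mul_sub, mul_one, e2, sub_zero]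
  have f3 : (1 - f) * (1 - f) = 1 - f := by rw [mul_sub, mul_one, f2, sub_zero]
  have hex : e * x' = 0 := by rw [hx', ← mul_assoc, ← mul_assoc, e1, zero_mul, zero_mul]
  have hxf : x' * f = 0 := by rw [hx', mul_assoc, f2, mul_zero]
  have hfy : f * y' = 0 := by rw [hy', ← mul_assoc, ← mul_assoc, f1, zero_mul, zero_mul]
  have hye : y' * e = 0 := by rw [hy', mul_assoc, e2, mul_zero]
  have hxy' : x' * y' = 1 - e := by
    calc x' * y' = (1 - e) * x * ((1 - f) * (1 - f)) * y * (1 - e) := by
          rw [hx', hy']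
          noncomm_ring
      _ = (1 - e) * (x * y) * (x * y) * (1 - e) := by
          rw [f3, ← hyx]
          noncomm_ring
      _ = _ := by rw [hxy, e3, e3, e3]
  have hyx' : y' * x' = 1 - f := by
    calc y' * x' = (1 - f) * y * ((1 - e) * (1 - e)) * x * (1 - f) := by
          rw [hx', hy']
          noncomm_ring
      _ = (1 - f) * (y * x) * (y * x) * (1 - f) := by
          rw [e3, ← hxy]
          noncomm_ring
      _ = _ := by rw [hyx, f3, f3, f3]
  -- the localization
  have hιe : ι e * ι e = ι e := by rw [← map_mul, he]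
  have hιf : ι f * ι f = ι f := by rw [← map_mul, hf]
  have hιe0 : ι e ≠ 0 := by
    intro h1
    apply he0
    apply h.inj
    rw [h1, map_zero]
  have h1 : Iso (ι e) (ι f) := by
    apply cancel_one hp hιe hιf
    refine ⟨ι y', ι x', ?_, ?_, ?_, ?_, ?_, ?_⟩
    · rw [← map_one ι, ← map_sub, ← map_mul, sub_mul, one_mul, hfy, sub_zero]
    · rw [← map_one ι, ← map_sub, ← map_mul, mul_sub, mul_one, hye, sub_zero]
    · rw [← map_one ι, ← map_sub, ← map_mul, sub_mul, one_mul, hex, sub_zero]
    · rw [← map_one ι, ← map_sub, ← map_mul, mul_sub, mul_one, hxf, sub_zero]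
    · rw [← map_mul, hyx', map_sub, map_one]
    · rw [← map_mul, hxy', map_sub, map_one]
  obtain ⟨a, b, a1, a2, b1, b2, hab, hba⟩ := h1
  have k1 : a * ι x' = 0 := by rw [← a2, mul_assoc, ← map_mul, hex, map_zero, mul_zero]
  have k2 : ι y' * b = 0 := by rw [← b1, ← mul_assoc, ← map_mul, hye, map_zero, zero_mul]
  have k3 : b * ι y' = 0 := by rw [← b2, mul_assoc, ← map_mul, hfy, map_zero, mul_zero]
  have k4 : ι x' * a = 0 := by rw [← a1, ← mul_assoc, ← map_mul, hxf, map_zero, zero_mul]
  set M0 : Lˣ :=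
    { val := a + ι y'
      inv := b + ι x'
      val_inv := by
        rw [add_mul, mul_add, mul_add, hab, k1, k2, ← map_mul, hyx', add_zero, zero_add, map_sub,
          map_one, add_sub_cancel]
      inv_val := by
        rw [add_mul, mul_add, mul_add, hba, k3, k4, ← map_mul, hxy', add_zero, zero_add, map_sub,
          map_one, add_sub_cancel] } with hM0
  have hM0v : (M0 : L) = a + ι y' := rfl
  obtain ⟨s0, hs0, es0, s0e⟩ := exists_min hp hιe hιe0
  obtain ⟨w, w1, w2, w3⟩ := lamgen hp (rho A R h) (rho_mul h)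
    (fun ε N q1 q2 q3 q4 => rho_tr h q1 q2 q3 q4) hs0 _ (1 : L) rfl (one_mul 1) M0⁻¹
    (by rw [sub_self, mul_zero]) (by rw [sub_self, zero_mul])
  have hse : (1 - s0) * (1 - ι e) = 1 - ι e := by
    rw [sub_mul, one_mul, mul_sub, mul_one, s0e, sub_self, sub_zero]
  have hes : (1 - ι e) * (1 - s0) = 1 - ι e := by
    rw [mul_sub, mul_one, sub_mul (1 : L), one_mul, es0, sub_self, sub_zero]
  have we : (w : L) * (1 - ι e) = 1 - ι e := by rw [← hse, ← mul_assoc, w1]
  have ew : (1 - ι e) * (w : L) = 1 - ι e := by rw [← hes, mul_assoc, w2]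
  have hwe : (w : L) * ι e = ι e * w := by
    have q1 : (w : L) * ι e = w - w * (1 - ι e) := by rw [mul_sub, mul_one, sub_sub_cancel]
    have q2 : ι e * (w : L) = w - (1 - ι e) * w := by rw [sub_mul, one_mul, sub_sub_cancel]
    rw [q1, q2, we, ew]
  set a' := a * (w : L) with ha'
  have a1' : ι f * a' = a' := by rw [ha', ← mul_assoc, a1]
  have a2' : a' * ι e = a' := by rw [ha', mul_assoc, hwe, ← mul_assoc, a2]
  have hyw : ι y' * (w : L) = ι y' := by
    have q1 : ι y' = ι y' * (1 - ι e) := by rw [mul_sub, mul_one, ← map_mul, hye, map_zero, sub_zero]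
    rw [q1, mul_assoc, ew]
  have hMw : ((M0 * w : Lˣ) : L) = a' + ι y' := by rw [Units.val_mul, hM0v, add_mul, hyw]
  have hρ : rho A R h (M0 * w) = 0 := by rw [rho_mul, w3, rho_inv, add_neg_cancel]
  obtain ⟨z, u, hz, hu⟩ := h.surj a'
  have hu1 : f * u = u := by
    apply h.inj
    rw [map_mul, hu, ← mul_assoc, ← Algebra.commutes, mul_assoc, a1']
  have hu2 : u * e = u := by
    apply h.inj
    rw [map_mul, hu, mul_assoc, a2']
  set s := algebraMap A T z with hs
  have hsc : ∀ t : T, s * t = t * s := fun t => Algebra.commutes z t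
  have hchi : chi A R (u + s * y') = chi A R s := by
    have q1 := rho_spec (R := R) h (g := M0 * w) (z := z) (t := u + s * y') hz (by
      rw [map_add, map_mul, hu, hMw, mul_add, hs, AlgHom.commutes])
    rw [hρ] at q1
    exact (sub_eq_zero.mp q1.symm)
  set M2 := u + y' with hM2
  set S' := e + s * (1 - e) with hS'
  set S := s * e + (1 - e) with hS
  have p1 : M2 * S' = u + s * y' := by
    have q1 : u * (1 - e) = 0 := by rw [mul_sub, mul_one, hu2, sub_self]
    have q2 : y' * (1 - e) = y' := by rw [mul_sub, mul_one, hye, sub_zero]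
    calc M2 * S' = u * e + y' * e + (u * s) * (1 - e) + (y' * s) * (1 - e) := by
          rw [hM2, hS']
          noncomm_ring
      _ = u * e + y' * e + s * (u * (1 - e)) + s * (y' * (1 - e)) := by
          rw [← hsc u, ← hsc y', mul_assoc s u, mul_assoc s y']
      _ = u + s * y' := by rw [hu2, hye, q1, q2, mul_zero, add_zero, add_zero]
  have p2 : S * S' = s := by
    calc S * S' = s * (e * e) + e * s * (s * (1 - e)) - e * s * (s * (1 - e)) +
          s * (e * s) * (1 - e) + (1 - e) * e + ((1 - e) * s) * (1 - e) := by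
            rw [hS, hS']
            noncomm_ring
      _ = s * e + s * (s * (e * (1 - e))) + s * ((1 - e) * (1 - e)) := by
            rw [he, e2, ← hsc e, ← hsc (1 - e)]
            noncomm_ring
      _ = s := by rw [e1, e3]; noncomm_ring
  have p3 : S' * S = s := by
    calc S' * S = e * s * e + e * (1 - e) + s * ((1 - e) * s) * e + s * ((1 - e) * (1 - e)) := by
            rw [hS, hS']
            noncomm_ring
      _ = s * (e * e) + s * s * ((1 - e) * e) + s * (1 - e) := by
            rw [e1, e3, ← hsc e, ← hsc (1 - e)]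
            noncomm_ring
      _ = s := by rw [he, e2]; noncomm_ring
  have gS : GI A S := ⟨S', z, hz, p2, p3⟩
  have gS' : GI A S' := ⟨S, z, hz, p3, p2⟩
  have gM2 : GI A M2 := by
    apply h.gi
    have uS' : IsUnit (ι S') := by
      obtain ⟨c, hc⟩ := h.unit z hz
      refine ⟨⟨ι S', ι S * ↑c⁻¹, ?_, ?_⟩, rfl⟩
      · rw [← mul_assoc, ← map_mul, p3, hs, AlgHom.commutes, ← hc, Units.mul_inv]
      · have q1 : ∀ l : L, (↑c⁻¹ : L) * l = l * ↑c⁻¹ := by
          intro l
          have q2 : (c : L) * (↑c⁻¹ * l * ↑c⁻¹) = (↑c⁻¹ * l * ↑c⁻¹) * c := by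
            rw [hc]
            exact Algebra.commutes z _
          rw [← mul_assoc, ← mul_assoc, Units.mul_inv, one_mul, mul_assoc (↑c⁻¹ * l),
            Units.inv_mul, mul_one] at q2
          exact q2.symm
        rw [mul_assoc, q1, ← mul_assoc, ← map_mul, p2, hs, AlgHom.commutes, ← hc, Units.mul_inv]
    have uM : IsUnit (ι M2 * ι S') := by
      rw [← map_mul, p1]
      apply unit_of_eq h hz (g := M0 * w)
      rw [map_add, map_mul, hu, hMw, mul_add, hs, AlgHom.commutes]
    obtain ⟨c, hc⟩ := uS'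
    obtain ⟨d, hd⟩ := uM
    refine ⟨d * c⁻¹, ?_⟩
    rw [Units.val_mul, hd, ← hc, mul_assoc, Units.mul_inv, mul_one]
  have c1 : chi A R M2 = chi A R S := by
    have q1 := chi_mul (R := R) gM2 gS'
    have q2 := chi_mul (R := R) gS gS'
    rw [p1, hchi] at q1
    rw [p2, q1] at q2
    exact add_right_cancel q2
  rw [chi, chi, dif_pos gM2, dif_pos gS, sub_eq_sub_iff_add_eq_add, ← map_add, ← map_add,
    of_eq_iff] at c1
  obtain ⟨⟨D0, hD0⟩, hc⟩ := c1
  have hc' : ∀ C, D0 C + (gam M2 C + kap S C) = D0 C + (gam S C + kap M2 C) := by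
    intro C
    exact congrFun (congrArg Subtype.val hc) C
  have hmem : D0 + kap M2 + kap S ∈ smallS A T R :=
    add_mem (add_mem hD0 (kap_mem gM2)) (kap_mem gS)
  obtain ⟨z', hz', b', hb'⟩ := hmem
  refine ⟨z', hz', b', fun C => ⟨D0 C + kap M2 C + kap S C, ?_, hb' C⟩⟩
  have l1 := lemL he hf hu1 hu2 hfy hye hex hxy' hyx' C
  have l2 : pp e C + gam S C = pp e C + kap S C := by
    have h1 := lemL (R := R) (e := e) (f := e) (u := s * e) (x := 1 - e) (y := 1 - e) he he
      (by rw [← mul_assoc, ← hsc, mul_assoc, he]) (by rw [mul_assoc, he]) e1 e2 e1 e3 e3 C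
    exact h1
  rw [← hM2] at l1
  calc pp e C + (D0 C + kap M2 C + kap S C)
      = (pp e C + kap S C) + (D0 C + kap M2 C) := by abel
    _ = (pp e C + gam S C) + (D0 C + kap M2 C) := by rw [l2]
    _ = pp e C + (D0 C + (gam S C + kap M2 C)) := by abel
    _ = pp e C + (D0 C + (gam M2 C + kap S C)) := by rw [hc']
    _ = (pp e C + gam M2 C) + (D0 C + kap S C) := by abel
    _ = (pp f C + kap M2 C) + (D0 C + kap S C) := by rw [l1]
    _ = pp f C + (D0 C + kap M2 C + kap S C) := by abel

theorem cok_ran_bd (E : Bim T R) (z z0 : A) :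
    Le (cls R (cokB (ranB E z0) z).X) (cls R (ranB (cokB E (z * z0)) z0).X) := by
  have hle : LinearMap.range ((ranB E z0).za z) ≤
      (LinearMap.range (E.za (z * z0))).comap (LinearMap.range (E.za z0)).subtype := by
    rintro _ ⟨⟨_, v, rfl⟩, rfl⟩
    exact ⟨v, E.za_mul _ _ _⟩
  set g := Submodule.mapQ _ _ (LinearMap.range (E.za z0)).subtype hle with hg
  have h0 : ∀ q, g q ∈ LinearMap.range ((cokB E (z * z0)).za z0) := by
    intro q
    obtain ⟨⟨_, v, rfl⟩, rfl⟩ := Submodule.mkQ_surjective _ q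
    exact ⟨Submodule.Quotient.mk v, rfl⟩
  refine le_of_inj (g.codRestrict _ h0) ?_
  rw [injective_iff_map_eq_zero]
  intro q hq
  have h1 : g q = 0 := congrArg Subtype.val hq
  obtain ⟨⟨_, v, rfl⟩, rfl⟩ := Submodule.mkQ_surjective _ q
  rw [hg, Submodule.mkQ_apply, Submodule.mapQ_apply, Submodule.Quotient.mk_eq_zero] at h1
  obtain ⟨w, hw⟩ := h1
  rw [Submodule.mkQ_apply, Submodule.Quotient.mk_eq_zero]
  refine ⟨⟨E.za z0 w, w, rfl⟩, ?_⟩
  apply Subtype.ext
  rw [E.za_mul] at hw
  exact hw

theorem ker_ran_bd (E : Bim T R) (z z0 : A) :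
    Le (cls R (kerB (ranB E z0) z).X) (cls R (ranB (kerB E (z * z0)) z0).X) := by
  have h0 : ∀ q : (kerB (ranB E z0) z).X, ∃ w : (ranB (kerB E (z * z0)) z0).X, w.1.1 = q.1.1 := by
    rintro ⟨⟨_, v, rfl⟩, hq⟩
    have h1 : E.za z (E.za z0 v) = 0 := congrArg Subtype.val hq
    exact ⟨⟨⟨E.za z0 v, by
      rw [LinearMap.mem_ker, E.za_mul, E.za_comm, h1, map_zero]⟩, ⟨⟨v, by
        rw [LinearMap.mem_ker, E.za_mul, h1]⟩, rfl⟩⟩, rfl⟩
  choose φ hφ using h0
  refine le_of_inj
    { toFun := φ
      map_add' := fun x y => by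
        apply Subtype.ext
        apply Subtype.ext
        change (φ (x + y)).1.1 = (φ x).1.1 + (φ y).1.1
        rw [hφ, hφ, hφ]
        rfl
      map_smul' := fun r x => by
        apply Subtype.ext
        apply Subtype.ext
        change (φ (r • x)).1.1 = r • (φ x).1.1
        rw [hφ, hφ]
        rfl } ?_
  intro x y hxy
  have h1 : φ x = φ y := hxy
  apply Subtype.ext
  apply Subtype.ext
  rw [← hφ, ← hφ, h1]

/-- the case of a prime algebra, assuming the result for modules killed by a nonzero scalar -/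
theorem dom_main [IsArtinianRing L] (hp : Prm L) (h : IsLoc ι) {e f x y : T} (he : e * e = e)
    (hf : f * f = f) (hxy : x * y = 1 - e) (hyx : y * x = 1 - f)
    (h3 : ∀ (E : Bim T R) (z : A), z ≠ 0 → E.za z = 0 → pp e E = pp f E) (C : Bim T R) :
    pp e C = pp f C := by
  by_cases he0 : e = 0
  · have hf0 : f = 0 := by
      rw [he0, sub_zero] at hxy
      have h1 : ι x * ι y = 1 := by rw [← map_mul, hxy, map_one]
      have h2 := mul_eq_one_symm h1
      rw [← map_mul, hyx, map_sub, map_one, sub_eq_self] at h2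
      apply h.inj
      rw [h2, map_zero]
    rw [he0, hf0]
  · obtain ⟨z, hz, b, hb⟩ := rel (R := R) hp h he hf hxy hyx he0
    obtain ⟨z0, hz0, hz0e⟩ := exists_scalar hp h he0
    obtain ⟨m, hm⟩ := cl_bound (R := R) e hz0e
    refine absorb he hf (z * z0) (b * m) ?_
      (fun E j hE => h3 E ((z * z0) ^ j) (pow_ne_zero _ (mul_ne_zero hz hz0)) hE) C
    intro E
    obtain ⟨d, hd1, hd2⟩ := hb (ranB E z0)
    refine ⟨d, ?_, ?_⟩
    · rw [pp_ker_ran E z0 he, pp_ker_ran E z0 hf, add_assoc, add_assoc, hd1]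
      congr 1
      apply h3 _ z0 hz0
      apply LinearMap.ext
      intro v
      apply Subtype.ext
      exact v.2
    · refine hd2.trans ?_
      rw [mul_comm, mul_nsmul]
      apply Le.nsmul
      rw [nsmul_add]
      exact ((cok_ran_bd E z z0).trans (hm _)).add ((ker_ran_bd E z z0).trans (hm _))

end Dom
end SepFin
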