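import Pool.Agent.Lib.MP_dccecd_al.FinMain

/-! The finite base theorem (for MP_dccecd_al) for modules. -/

open SepReg

namespace SepFin

universe u v w x

section Form
variable {A : Type w} [CommRing A] {T : Type v} [Ring T] [Algebra A T] {R : Type u} [Ring R]
  {C : Type u} [AddCommGroup C] [Module R C] [Module T C] [SMulCommClass T R C]

variable (R T C) in
/-- homomorphisms from a free module -/
abbrev HomF (n : ℕ) : Type (max u v) := (Fin n → T) →ₗ[T] C

/-- the homomorphisms from a free module, as a module in the universe of `C` -/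
noncomputable def homEquiv (n : ℕ) : (Fin n → C) ≃ₗ[R] ((Fin n → T) →ₗ[T] C) :=
  (Pi.basisFun T (Fin n)).constr R

theorem homEquiv_symm_apply (n : ℕ) (φ : (Fin n → T) →ₗ[T] C) (i : Fin n) :
    (homEquiv (R := R) n).symm φ i = φ (Pi.single i 1) := by
  have h1 : homEquiv (R := R) n (fun i => φ (Pi.single i 1)) = φ := by
    apply (Pi.basisFun T (Fin n)).ext
    intro j
    rw [homEquiv, Module.Basis.constr_basis, Pi.basisFun_apply]
  rw [← h1, LinearEquiv.symm_apply_apply, h1]

variable (R T C) in
/-- endomorphisms of a free `T`-module act on powers of `C` -/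
noncomputable def actEnd (n : ℕ) :
    (Module.End T (Fin n → T))ᵐᵒᵖ →+* Module.End R (Fin n → C) where
  toFun θ :=
    { toFun := fun v => (homEquiv (R := R) n).symm ((homEquiv (R := R) n v).comp θ.unop)
      map_add' := fun v w => by
        rw [map_add, LinearMap.add_comp, map_add]
      map_smul' := fun r v => by
        have h1 : homEquiv (R := R) (T := T) (C := C) n (r • v) = r • homEquiv (R := R) n v :=
          (homEquiv (R := R) (T := T) (C := C) n).map_smul r v
        have h2 : (homEquiv (R := R) (T := T) (C := C) n (r • v)).comp θ.unop =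
            r • ((homEquiv (R := R) n v).comp θ.unop) := by
          rw [h1]
          rfl
        rw [h2, LinearEquiv.map_smul, RingHom.id_apply] }
  map_one' := by
    apply LinearMap.ext
    intro v
    change (homEquiv (R := R) n).symm ((homEquiv (R := R) n v).comp LinearMap.id) = v
    rw [LinearMap.comp_id, LinearEquiv.symm_apply_apply]
  map_mul' θ θ' := by
    apply LinearMap.ext
    intro v
    change (homEquiv (R := R) n).symm ((homEquiv (R := R) n v).comp (θ'.unop * θ.unop)) =
      (homEquiv (R := R) n).symm ((homEquiv (R := R) n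
        ((homEquiv (R := R) n).symm ((homEquiv (R := R) n v).comp θ'.unop))).comp θ.unop)
    rw [LinearEquiv.apply_symm_apply]
    rfl
  map_zero' := by
    apply LinearMap.ext
    intro v
    change (homEquiv (R := R) n).symm ((homEquiv (R := R) n v).comp 0) = 0
    rw [LinearMap.comp_zero, map_zero]
  map_add' θ θ' := by
    apply LinearMap.ext
    intro v
    change (homEquiv (R := R) n).symm ((homEquiv (R := R) n v).comp (θ.unop + θ'.unop)) =
      (homEquiv (R := R) n).symm ((homEquiv (R := R) n v).comp θ.unop) +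
      (homEquiv (R := R) n).symm ((homEquiv (R := R) n v).comp θ'.unop)
    rw [LinearMap.comp_add, map_add]

theorem actEnd_apply (n : ℕ) (θ : (Module.End T (Fin n → T))ᵐᵒᵖ) (v : Fin n → C) :
    homEquiv (R := R) n (actEnd T R C n θ v) = (homEquiv (R := R) n v).comp θ.unop := by
  change homEquiv (R := R) n ((homEquiv (R := R) n).symm ((homEquiv (R := R) n v).comp θ.unop)) = _
  rw [LinearEquiv.apply_symm_apply]

theorem end_finite [Module.Finite A T] (n : ℕ) :
    Module.Finite A (Module.End T (Fin n → T))ᵐᵒᵖ := by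
  have h1 : (Fin n → (Fin n → T)) ≃ₗ[A] ((Fin n → T) →ₗ[T] (Fin n → T)) :=
    (Pi.basisFun T (Fin n)).constr A
  have h2 : Module.Finite A ((Fin n → T) →ₗ[T] (Fin n → T)) := Module.Finite.equiv h1
  exact Module.Finite.equiv (MulOpposite.opLinearEquiv A)

variable (R T C) in
/-- the module `C ^ n` with the action of the endomorphisms of a free module -/
noncomputable abbrev bimEnd [Module.Finite R C] [Module.Projective R C] (n : ℕ) :
    Bim (Module.End T (Fin n → T))ᵐᵒᵖ R where
  X := Fin n → C
  act := actEnd T R C n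

theorem hom_equiv_range [Module.Finite R C] [Module.Projective R C] {n : ℕ} {P : Type x}
    [AddCommGroup P] [Module T P] (i : P →ₗ[T] (Fin n → T)) (q : (Fin n → T) →ₗ[T] P)
    (h : q.comp i = LinearMap.id) :
    Nonempty ((P →ₗ[T] C) ≃ₗ[R]
      LinearMap.range ((bimEnd T R C n).act (MulOpposite.op (i.comp q : Module.End T _)))) := by
  set e : (Module.End T (Fin n → T))ᵐᵒᵖ := MulOpposite.op (i.comp q : Module.End T _) with he
  set α : (P →ₗ[T] C) →ₗ[R] (Fin n → C) :=
    { toFun := fun ψ => (homEquiv (R := R) n).symm (ψ.comp q)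
      map_add' := fun ψ ψ' => by rw [LinearMap.add_comp, map_add]
      map_smul' := fun r ψ => by
        rw [RingHom.id_apply, ← map_smul]
        rfl } with hα
  have hαa : ∀ ψ, homEquiv (R := R) n (α ψ) = ψ.comp q := by
    intro ψ
    change homEquiv (R := R) n ((homEquiv (R := R) n).symm (ψ.comp q)) = _
    rw [LinearEquiv.apply_symm_apply]
  have h1 : ∀ ψ, α ψ ∈ LinearMap.range ((bimEnd T R C n).act e) := by
    intro ψ
    refine ⟨α ψ, ?_⟩
    apply (homEquiv (R := R) (T := T) (C := C) n).injective
    change homEquiv (R := R) n (actEnd T R C n e (α ψ)) = _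
    rw [actEnd_apply, hαa, he, MulOpposite.unop_op]
    apply LinearMap.ext
    intro v
    change ψ (q (i (q v))) = ψ (q v)
    have h2 : q (i (q v)) = q v := LinearMap.congr_fun h (q v)
    rw [h2]
  refine ⟨LinearEquiv.ofBijective (α.codRestrict _ h1) ⟨?_, ?_⟩⟩
  · intro ψ ψ' hψ
    have h2 : α ψ = α ψ' := congrArg Subtype.val hψ
    have h3 : ψ.comp q = ψ'.comp q := by rw [← hαa, ← hαa, h2]
    apply LinearMap.ext
    intro p
    have h4 := LinearMap.congr_fun h3 (i p)
    have h5 : q (i p) = p := LinearMap.congr_fun h p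
    rw [LinearMap.comp_apply, LinearMap.comp_apply, h5] at h4
    exact h4
  · rintro ⟨_, v, rfl⟩
    refine ⟨(homEquiv (R := R) n v).comp i, ?_⟩
    apply Subtype.ext
    apply (homEquiv (R := R) (T := T) (C := C) n).injective
    change homEquiv (R := R) n (α ((homEquiv (R := R) n v).comp i)) =
      homEquiv (R := R) n (actEnd T R C n e v)
    rw [hαa, actEnd_apply, he, MulOpposite.unop_op, LinearMap.comp_assoc]

/-- stably isomorphic projective modules over an algebra which is a finite module over a commutative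
ring become isomorphic over a von Neumann regular ring -/
theorem module_main (hR : ∀ a : R, ∃ x : R, a * x * a = a) [Module.Finite A T] [Module.Finite R C]
    [Module.Projective R C] (P Q G : Type x) [AddCommGroup P] [Module T P] [Module.Finite T P]
    [Module.Projective T P] [AddCommGroup Q] [Module T Q] [AddCommGroup G] [Module T G]
    [Module.Finite T G] [Module.Projective T G] (φ : (P × G) ≃ₗ[T] (Q × G)) :
    Nonempty ((P →ₗ[T] C) ≃ₗ[R] (Q →ₗ[T] C)) := by
  have hV : VNR R := ⟨hR⟩
  obtain ⟨n, π, hπ⟩ := Module.Finite.exists_fin' T (P × G)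
  obtain ⟨s, hs⟩ := Module.projective_lifting_property π LinearMap.id hπ
  have hs' : ∀ z, π (s z) = z := fun z => LinearMap.congr_fun hs z
  set iP : P →ₗ[T] (Fin n → T) := s.comp (LinearMap.inl T P G) with hiP
  set qP : (Fin n → T) →ₗ[T] P := (LinearMap.fst T P G).comp π with hqP
  set iQ : Q →ₗ[T] (Fin n → T) := s.comp (φ.symm.toLinearMap.comp (LinearMap.inl T Q G)) with hiQ
  set qQ : (Fin n → T) →ₗ[T] Q := (LinearMap.fst T Q G).comp (φ.toLinearMap.comp π) with hqQ
  have hP : qP.comp iP = LinearMap.id := by
    apply LinearMap.ext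
    intro p
    change (π (s (p, 0))).1 = p
    rw [hs']
  have hQ : qQ.comp iQ = LinearMap.id := by
    apply LinearMap.ext
    intro p
    change (φ (π (s (φ.symm (p, 0))))).1 = p
    rw [hs', LinearEquiv.apply_symm_apply]
  obtain ⟨α⟩ := hom_equiv_range (R := R) (C := C) iP qP hP
  obtain ⟨β⟩ := hom_equiv_range (R := R) (C := C) iQ qQ hQ
  set X : (Fin n → T) →ₗ[T] (Fin n → T) :=
    s.comp ((LinearMap.inr T P G).comp ((LinearMap.snd T Q G).comp (φ.toLinearMap.comp π))) +
      (LinearMap.id - s.comp π) with hX
  set Y : (Fin n → T) →ₗ[T] (Fin n → T) :=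
    s.comp (φ.symm.toLinearMap.comp ((LinearMap.inr T Q G).comp ((LinearMap.snd T P G).comp π))) +
      (LinearMap.id - s.comp π) with hY
  have hXa : ∀ v, X v = s (0, (φ (π v)).2) + (v - s (π v)) := fun v => rfl
  have hYa : ∀ v, Y v = s (φ.symm (0, (π v).2)) + (v - s (π v)) := fun v => rfl
  have hπX : ∀ v, π (X v) = (0, (φ (π v)).2) := by
    intro v
    rw [hXa, map_add, map_sub, hs', hs', sub_self, add_zero]
  have hπY : ∀ v, π (Y v) = φ.symm (0, (π v).2) := by
    intro v
    rw [hYa, map_add, map_sub, hs', hs', sub_self, add_zero]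
  have hXY : X.comp Y = LinearMap.id - iP.comp qP := by
    apply LinearMap.ext
    intro v
    rw [LinearMap.comp_apply, hXa, hπY, LinearEquiv.apply_symm_apply, hYa]
    change s (0, (π v).2) + (s (φ.symm (0, (π v).2)) + (v - s (π v)) - s (φ.symm (0, (π v).2))) =
      v - s ((π v).1, 0)
    have h1 : s (π v) = s ((π v).1, 0) + s (0, (π v).2) := by
      rw [← map_add]
      congr 1
      ext <;> simp
    rw [h1]
    abel
  have hYX : Y.comp X = LinearMap.id - iQ.comp qQ := by
    apply LinearMap.ext
    intro v
    rw [LinearMap.comp_apply, hYa, hπX, hXa]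
    change s (φ.symm (0, (φ (π v)).2)) + (s (0, (φ (π v)).2) + (v - s (π v)) -
      s (0, (φ (π v)).2)) = v - s (φ.symm ((φ (π v)).1, 0))
    have h1 : s (π v) = s (φ.symm ((φ (π v)).1, 0)) + s (φ.symm (0, (φ (π v)).2)) := by
      rw [← map_add, ← map_add]
      congr 1
      rw [LinearEquiv.eq_symm_apply]
      ext <;> simp
    rw [h1]
    abel
  have hid : ∀ {P' : Type x} [AddCommGroup P'] [Module T P'] {i : P' →ₗ[T] (Fin n → T)}
      {q : (Fin n → T) →ₗ[T] P'}, q.comp i = LinearMap.id →
      (i.comp q).comp (i.comp q) = i.comp q := by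
    intro P' _ _ i q h
    apply LinearMap.ext
    intro v
    exact congrArg i (LinearMap.congr_fun h (q v))
  have hfin := end_finite (A := A) (T := T) n
  have h1 := alg_main (A := A) (R := R)
    (e := MulOpposite.op (iP.comp qP : Module.End T _))
    (f := MulOpposite.op (iQ.comp qQ : Module.End T _))
    (x := MulOpposite.op (Y : Module.End T _)) (y := MulOpposite.op (X : Module.End T _))
    (congrArg MulOpposite.op (hid hP)) (congrArg MulOpposite.op (hid hQ))
    (congrArg MulOpposite.op hXY) (congrArg MulOpposite.op hYX) (bimEnd T R C n)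
  obtain ⟨γ⟩ := cls_eq.mp h1
  exact ⟨α.trans (γ.trans β.symm)⟩

end Form
end SepFin
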