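import Mathlib

/-! Idempotents and units of prime left Artinian rings (for MP_dccecd_al, the finite base
theorem). -/

namespace SepFin

section Lam
variable {L : Type*} [Ring L]

variable (L) in
/-- primeness -/
def Prm : Prop := ∀ a b : L, (∀ t, a * t * b = 0) → a = 0 ∨ b = 0

/-- minimal idempotents -/
structure Mn (s : L) : Prop where
  idem : s * s = s
  ne : s ≠ 0
  min : ∀ g, g * s = g → g ≠ 0 → ∃ t, t * g = s

theorem exists_min [IsArtinianRing L] (hp : Prm L) {ε : L} (he : ε * ε = ε) (h0 : ε ≠ 0) :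
    ∃ s : L, Mn s ∧ ε * s = s ∧ s * ε = s := by
  obtain h | ⟨I, hI, hle⟩ := eq_bot_or_exists_atom_le (Ideal.span {ε} : Ideal L)
  · exfalso
    apply h0
    have h1 : ε ∈ (Ideal.span {ε} : Ideal L) := Ideal.mem_span_singleton_self ε
    rw [h] at h1
    exact h1
  have hat : ∀ J : Ideal L, J ≤ I → (∃ x ∈ J, x ≠ 0) → J = I := by
    intro J hJ hx
    rcases hI.le_iff.mp hJ with h | h
    · exfalso
      obtain ⟨x, hx1, hx2⟩ := hx
      rw [h] at hx1
      exact hx2 hx1
    · exact h
  have hIε : ∀ x ∈ I, x * ε = x := by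
    intro x hx
    obtain ⟨t, rfl⟩ := Ideal.mem_span_singleton'.mp (hle hx)
    rw [mul_assoc, he]
  obtain ⟨a, haI, ha0⟩ := Submodule.exists_mem_ne_zero_of_ne_bot hI.1
  obtain ⟨t, ht⟩ : ∃ t, a * t * a ≠ 0 := by
    by_contra h
    push Not at h
    rcases hp a a h with h1 | h1 <;> exact ha0 h1
  set b := t * a with hb
  have hbI : b ∈ I := I.mul_mem_left t haI
  have hab : a * b ≠ 0 := by rwa [hb, ← mul_assoc]
  -- the left ideal `I b`
  have h1 : ∃ c ∈ I, c * b = b := by
    have h2 := hat (Submodule.map (LinearMap.toSpanSingleton L L b) I) (by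
      rintro _ ⟨x, _, rfl⟩
      exact I.mul_mem_left x hbI) ⟨a * b, ⟨a, haI, rfl⟩, hab⟩
    have h3 : b ∈ Submodule.map (LinearMap.toSpanSingleton L L b) I := by
      rw [h2]
      exact hbI
    obtain ⟨c, hc, hcb⟩ := h3
    exact ⟨c, hc, hcb⟩
  obtain ⟨c, hcI, hcb⟩ := h1
  have hcc : c * c = c := by
    by_contra h
    have h2 := hat (I ⊓ LinearMap.ker (LinearMap.toSpanSingleton L L b)) inf_le_left
      ⟨c * c - c, ⟨I.sub_mem (I.mul_mem_left c hcI) hcI, by
        change (c * c - c) * b = 0
        rw [sub_mul, mul_assoc, hcb, hcb, sub_self]⟩, sub_ne_zero.mpr h⟩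
    have h3 : a ∈ I ⊓ LinearMap.ker (LinearMap.toSpanSingleton L L b) := by
      rw [h2]
      exact haI
    exact hab h3.2
  have hc0 : c ≠ 0 := by
    rintro rfl
    rw [zero_mul] at hcb
    rw [← hcb, mul_zero] at hab
    exact hab rfl
  have hcε : c * ε = c := hIε c hcI
  have hsI : ε * c ∈ I := I.mul_mem_left ε hcI
  have hs0 : ε * c ≠ 0 := by
    intro h
    apply hc0
    rw [← hcc]
    nth_rewrite 1 [← hcε]
    rw [mul_assoc, h, mul_zero]
  refine ⟨ε * c, ⟨?_, hs0, ?_⟩, ?_, ?_⟩
  · calc ε * c * (ε * c) = ε * (c * ε) * c := by noncomm_ring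
      _ = ε * c := by rw [hcε, mul_assoc, hcc]
  · intro g hg hg0
    have hgI : g ∈ I := by
      rw [← hg]
      exact I.mul_mem_left g hsI
    have h2 := hat (Ideal.span {g}) (by
      rw [Ideal.span_le]
      rintro _ rfl
      exact hgI) ⟨g, Ideal.mem_span_singleton_self g, hg0⟩
    rw [← h2] at hsI
    exact Ideal.mem_span_singleton'.mp hsI
  · rw [← mul_assoc, he]
  · rw [mul_assoc, hcε]

theorem Mn.pair {s s' γ : L} (hs : Mn s) (hs' : Mn s') (h1 : s' * γ = γ) (h2 : γ * s = γ)
    (h0 : γ ≠ 0) : ∃ c, s * c = c ∧ c * s' = c ∧ c * γ = s ∧ γ * c = s' := by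
  obtain ⟨t, ht⟩ := hs.min γ h2 h0
  set c := s * t * s' with hc
  have c1 : s * c = c := by rw [hc, ← mul_assoc, ← mul_assoc, hs.idem]
  have c2 : c * s' = c := by rw [hc, mul_assoc, hs'.idem]
  have c3 : c * γ = s := by
    calc c * γ = s * (t * (s' * γ)) := by rw [hc]; noncomm_ring
      _ = s := by rw [h1, ht, hs.idem]
  have c4 : (γ * c) * (γ * c) = γ * c := by
    calc (γ * c) * (γ * c) = γ * (c * γ) * c := by noncomm_ring
      _ = γ * c := by rw [c3, mul_assoc, c1]
  have c5 : γ * c ≠ 0 := by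
    intro h
    apply hs.ne
    calc s = s * s := hs.idem.symm
      _ = c * γ * (c * γ) := by rw [c3]
      _ = c * (γ * c) * γ := by noncomm_ring
      _ = 0 := by rw [h, mul_zero, zero_mul]
  obtain ⟨r, hr⟩ := hs'.min (γ * c) (by rw [mul_assoc, c2]) c5
  refine ⟨c, c1, c2, c3, ?_⟩
  calc γ * c = (s' * γ) * c := by rw [h1]
    _ = s' * (γ * c) := mul_assoc _ _ _
    _ = r * (γ * c) * (γ * c) := by rw [hr]
    _ = r * ((γ * c) * (γ * c)) := by noncomm_ring
    _ = s' := by rw [c4, hr]

/-- isomorphic idempotents -/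
def Iso (e f : L) : Prop :=
  ∃ a b, f * a = a ∧ a * e = a ∧ e * b = b ∧ b * f = b ∧ a * b = f ∧ b * a = e

theorem Mn.iso (hp : Prm L) {s s' : L} (hs : Mn s) (hs' : Mn s') : Iso s s' := by
  obtain ⟨t, ht⟩ : ∃ t, s' * t * s ≠ 0 := by
    by_contra h
    push Not at h
    rcases hp s' s h with h1 | h1
    · exact hs'.ne h1
    · exact hs.ne h1
  have h1 : s' * (s' * t * s) = s' * t * s := by rw [← mul_assoc, ← mul_assoc, hs'.idem]
  have h2 : s' * t * s * s = s' * t * s := by rw [mul_assoc, hs.idem]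
  obtain ⟨c, c1, c2, c3, c4⟩ := hs.pair hs' h1 h2 ht
  exact ⟨_, c, h1, h2, c1, c2, c4, c3⟩

theorem elim_key {P s Q s' a b : L} (hs : Mn s) (hs' : Mn s') (hP : P * P = P) (hQ : Q * Q = Q)
    (hPs : P * s = 0) (hsP : s * P = 0) (hQs : Q * s' = 0) (hsQ : s' * Q = 0)
    (h1 : (Q + s') * a = a) (h2 : a * (P + s) = a) (h3 : (P + s) * b = b)
    (h4 : b * (Q + s') = b) (h5 : a * b = Q + s') (h6 : b * a = P + s) (h0 : s' * a * s ≠ 0) :
    Iso P Q := by
  obtain ⟨c, c1, c2, c3, c4⟩ := hs.pair hs' (γ := s' * a * s)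
    (by rw [← mul_assoc, ← mul_assoc, hs'.idem]) (by rw [mul_assoc, hs.idem]) h0
  have k1 : s' * a * c = s' := by
    calc s' * a * c = s' * a * (s * c) := by rw [c1]
      _ = (s' * a * s) * c := by noncomm_ring
      _ = s' := c4
  have k2 : c * a * s = s := by
    calc c * a * s = c * s' * a * s := by rw [c2]
      _ = c * (s' * a * s) := by noncomm_ring
      _ = s := c3
  have k3 : P * c = 0 := by rw [← c1, ← mul_assoc, hPs, zero_mul]
  have k4 : c * Q = 0 := by rw [← c2, mul_assoc, hsQ, mul_zero]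
  refine ⟨Q * (a - a * c * a) * P, P * b * Q, ?_, ?_, ?_, ?_, ?_, ?_⟩
  · rw [← mul_assoc, ← mul_assoc, hQ]
  · rw [mul_assoc, hP]
  · rw [← mul_assoc, ← mul_assoc, hP]
  · rw [mul_assoc, hQ]
  · have q1 : a * P * b = Q + s' - a * s * b := by
      calc a * P * b = a * (P + s) * b - a * s * b := by noncomm_ring
        _ = Q + s' - a * s * b := by rw [h2, h5]
    calc Q * (a - a * c * a) * P * (P * b * Q)
        = Q * (a * (P * P) * b - a * c * (a * (P * P) * b)) * Q := by noncomm_ring
      _ = Q * ((Q + s' - a * s * b) - a * c * (Q + s' - a * s * b)) * Q := by rw [hP, q1]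
      _ = Q * (Q + s' - a * s * b - a * (c * Q) - a * (c * s') + a * (c * a * s) * b) * Q := by
          noncomm_ring
      _ = Q * (Q + s' - a * s * b - a * 0 - a * c + a * s * b) * Q := by rw [k4, c2, k2]
      _ = Q * Q * Q + (Q * s') * Q - Q * a * (c * Q) := by noncomm_ring
      _ = Q := by rw [hQ, hQ, hQs, k4, zero_mul, mul_zero, add_zero, sub_zero]
  · have q1 : s' * (a - a * c * a) = 0 := by
      calc s' * (a - a * c * a) = s' * a - (s' * a * c) * a := by noncomm_ring
        _ = 0 := by rw [k1, sub_self]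
    calc P * b * Q * (Q * (a - a * c * a) * P)
        = P * (b * (Q * Q) * (a - a * c * a)) * P := by noncomm_ring
      _ = P * (b * (Q + s') * (a - a * c * a) - b * (s' * (a - a * c * a))) * P := by
          rw [hQ]
          noncomm_ring
      _ = P * (b * a - b * a * c * a) * P := by rw [h4, q1]; noncomm_ring
      _ = P * (P + s - (P + s) * c * a) * P := by rw [h6]
      _ = P * P * P + (P * s) * P - (P * P + P * s) * c * a * P := by noncomm_ring
      _ = P * P * P - (P * c) * a * P := by rw [hPs, hP]; noncomm_ring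
      _ = P := by rw [hP, hP, k3, zero_mul, zero_mul, sub_zero]

theorem elim (hp : Prm L) {P s Q s' : L} (hs : Mn s) (hs' : Mn s') (hP : P * P = P)
    (hQ : Q * Q = Q) (hPs : P * s = 0) (hsP : s * P = 0) (hQs : Q * s' = 0) (hsQ : s' * Q = 0)
    (h : Iso (P + s) (Q + s')) : Iso P Q := by
  obtain ⟨a, b, h1, h2, h3, h4, h5, h6⟩ := h
  by_cases h0 : s' * a * s = 0
  · have h7 : s' * a * P ≠ 0 := by
      intro h7
      apply hs'.ne
      have h8 : s' * a = 0 := by
        calc s' * a = s' * (a * (P + s)) := by rw [h2]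
          _ = s' * a * P + s' * a * s := by noncomm_ring
          _ = 0 := by rw [h7, h0, add_zero]
      calc s' = s' * (Q + s') := by rw [mul_add, hsQ, hs'.idem, zero_add]
        _ = s' * a * b := by rw [← h5, mul_assoc]
        _ = 0 := by rw [h8, zero_mul]
    obtain ⟨t, ht⟩ : ∃ t, s' * a * P * t * s ≠ 0 := by
      by_contra h
      push Not at h
      rcases hp (s' * a * P) s h with h1 | h1
      · exact h7 h1
      · exact hs.ne h1
    set X := P * t * s with hX
    have x1 : P * X = X := by rw [hX, ← mul_assoc, ← mul_assoc, hP]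
    have x2 : X * s = X := by rw [hX, mul_assoc, hs.idem]
    have x3 : s * X = 0 := by rw [← x1, ← mul_assoc, hsP, zero_mul]
    have x4 : X * P = 0 := by rw [← x2, mul_assoc, hsP, mul_zero]
    have x5 : X * X = 0 := by
      nth_rewrite 2 [← x1]
      rw [← mul_assoc, x4, zero_mul]
    refine elim_key (a := a * (1 + X)) (b := (1 - X) * b) hs hs' hP hQ hPs hsP hQs hsQ
      ?_ ?_ ?_ ?_ ?_ ?_ ?_
    · rw [← mul_assoc, h1]
    · calc a * (1 + X) * (P + s) = a * (P + s) + a * (X * P + X * s) := by noncomm_ring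
        _ = a * (1 + X) := by rw [h2, x4, x2, zero_add, mul_add, mul_one]
    · calc (P + s) * ((1 - X) * b) = (P + s) * b - (P * X + s * X) * b := by noncomm_ring
        _ = (1 - X) * b := by rw [h3, x1, x3, add_zero, sub_mul, one_mul]
    · rw [mul_assoc, h4]
    · calc a * (1 + X) * ((1 - X) * b) = a * (1 - X * X) * b := by noncomm_ring
        _ = Q + s' := by rw [x5, sub_zero, mul_one, h5]
    · calc (1 - X) * b * (a * (1 + X)) = (1 - X) * (b * a) * (1 + X) := by noncomm_ring
        _ = (1 - X) * (P + s) * (1 + X) := by rw [h6]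
        _ = (P + s - (X * P + X * s)) * (1 + X) := by noncomm_ring
        _ = (P + s - X) * (1 + X) := by rw [x4, x2, zero_add]
        _ = P + s - X + (P * X + s * X) - X * X := by noncomm_ring
        _ = P + s := by rw [x1, x3, x5]; abel
    · calc s' * (a * (1 + X)) * s = s' * a * s + s' * a * (X * s) := by noncomm_ring
        _ = s' * a * P * t * s := by rw [h0, x2, zero_add, hX]; noncomm_ring
        _ ≠ 0 := ht
  · exact elim_key hs hs' hP hQ hPs hsP hQs hsQ h1 h2 h3 h4 h5 h6 h0

theorem Mn.conj {g g' a b s : L} (hs : Mn s) (hgs : g * s = s) (hsg : s * g = s)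
    (h1 : b * a = g) : Mn (a * s * b) := by
  have e1 : b * (a * s * b) * a = s := by
    calc b * (a * s * b) * a = (b * a) * s * (b * a) := by noncomm_ring
      _ = s := by rw [h1, hgs, hsg]
  refine ⟨?_, ?_, ?_⟩
  · calc a * s * b * (a * s * b) = a * (s * (b * a)) * (s * b) := by noncomm_ring
      _ = a * s * (s * b) := by rw [h1, hsg]
      _ = a * (s * s) * b := by noncomm_ring
      _ = a * s * b := by rw [hs.idem]
  · intro h
    apply hs.ne
    rw [← e1, h, mul_zero, zero_mul]
  · intro k hk hk0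
    have h2 : k * a * s ≠ 0 := by
      intro h
      apply hk0
      rw [← hk]
      calc k * (a * s * b) = k * a * s * b := by noncomm_ring
        _ = 0 := by rw [h, zero_mul]
    obtain ⟨t, ht⟩ := hs.min (k * a * s) (by rw [mul_assoc, hs.idem]) h2
    refine ⟨a * t, ?_⟩
    calc a * t * k = a * t * (k * (a * s * b)) := by rw [hk]
      _ = a * (t * (k * a * s)) * b := by noncomm_ring
      _ = a * s * b := by rw [ht]

/-- cancellation of idempotents -/
theorem cancel [IsArtinianRing L] (hp : Prm L) : ∀ (I : Ideal L) (e g f g' : L),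
    I = Ideal.span {g} → e * e = e → g * g = g → f * f = f → g' * g' = g' → e * g = 0 →
    g * e = 0 → f * g' = 0 → g' * f = 0 → Iso g g' → Iso (e + g) (f + g') → Iso e f := by
  intro I
  induction I using WellFoundedLT.induction with
  | ind I ih =>
    intro e g f g' hI he hg hf hg' heg hge hfg hgf hgg hef
    obtain ⟨a, b, h1, h2, h3, h4, h5, h6⟩ := hgg
    by_cases h0 : g = 0
    · subst h0
      have h7 : g' = 0 := by rw [← h5, ← h2, mul_zero, zero_mul]
      rw [h7, add_zero, add_zero] at hef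
      exact hef
    obtain ⟨s, hs, hgs, hsg⟩ := exists_min hp hg h0
    set s' := a * s * b with hs'
    have hms' : Mn s' := hs.conj hgs hsg h6 (g' := g')
    have hgs' : g' * s' = s' := by rw [hs', ← mul_assoc, ← mul_assoc, h1]
    have hsg' : s' * g' = s' := by rw [hs', mul_assoc, h4]
    have l1 : (g - s) * (g - s) = g - s := by
      rw [mul_sub, sub_mul, sub_mul, hg, hsg, hgs, hs.idem]
      abel
    have l2 : (g' - s') * (g' - s') = g' - s' := by
      rw [mul_sub, sub_mul, sub_mul, hg', hsg', hgs', hms'.idem]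
      abel
    have hes : e * s = 0 := by rw [← hgs, ← mul_assoc, heg, zero_mul]
    have hse : s * e = 0 := by rw [← hsg, mul_assoc, hge, mul_zero]
    have hfs : f * s' = 0 := by rw [← hgs', ← mul_assoc, hfg, zero_mul]
    have hsf : s' * f = 0 := by rw [← hsg', mul_assoc, hgf, mul_zero]
    have m1 : e * (g - s) = 0 := by rw [mul_sub, heg, hes, sub_self]
    have m2 : (g - s) * e = 0 := by rw [sub_mul, hge, hse, sub_self]
    have m3 : f * (g' - s') = 0 := by rw [mul_sub, hfg, hfs, sub_self]
    have m4 : (g' - s') * f = 0 := by rw [sub_mul, hgf, hsf, sub_self]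
    have m5 : (g - s) * s = 0 := by rw [sub_mul, hgs, hs.idem, sub_self]
    have m6 : s * (g - s) = 0 := by rw [mul_sub, hsg, hs.idem, sub_self]
    have m7 : (g' - s') * s' = 0 := by rw [sub_mul, hgs', hms'.idem, sub_self]
    have m8 : s' * (g' - s') = 0 := by rw [mul_sub, hsg', hms'.idem, sub_self]
    refine ih (Ideal.span {g - s}) ?_ e (g - s) f (g' - s') rfl he l1 hf l2 m1 m2 m3 m4 ?_ ?_
    · rw [hI]
      refine lt_of_le_of_ne ?_ ?_
      · rw [Ideal.span_le]
        rintro _ rfl
        rw [SetLike.mem_coe, Ideal.mem_span_singleton']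
        exact ⟨g - s, by rw [sub_mul, hg, hsg]⟩
      · intro h
        have h7 : s ∈ (Ideal.span {g - s} : Ideal L) := by
          rw [h, Ideal.mem_span_singleton']
          exact ⟨s, hsg⟩
        obtain ⟨t, ht⟩ := Ideal.mem_span_singleton'.mp h7
        apply hs.ne
        rw [← hs.idem]
        nth_rewrite 1 [← ht]
        rw [mul_assoc, m5, mul_zero]
    · have r1 : s' * a = a * s := by
        calc s' * a = a * s * (b * a) := by rw [hs']; noncomm_ring
          _ = a * s := by rw [h6, mul_assoc, hsg]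
      have r2 : b * s' = s * b := by
        calc b * s' = (b * a) * s * b := by rw [hs']; noncomm_ring
          _ = s * b := by rw [h6, hgs]
      have r3 : a * s * s = a * s := by rw [mul_assoc, hs.idem]
      refine ⟨a - a * s, b - s * b, ?_, ?_, ?_, ?_, ?_, ?_⟩
      · calc (g' - s') * (a - a * s) = g' * a - s' * a - (g' * a) * s + (s' * a) * s := by
              noncomm_ring
          _ = a - a * s := by rw [h1, r1, r3]; abel
      · calc (a - a * s) * (g - s) = a * g - a * s - a * (s * g) + a * (s * s) := by noncomm_ring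
          _ = a - a * s := by rw [h2, hsg, hs.idem]; abel
      · calc (g - s) * (b - s * b) = g * b - s * b - (g * s) * b + (s * s) * b := by noncomm_ring
          _ = b - s * b := by rw [h3, hgs, hs.idem]; abel
      · calc (b - s * b) * (g' - s') = b * g' - b * s' - s * (b * g') + s * (b * s') := by
              noncomm_ring
          _ = b - s * b - s * b + (s * s) * b := by rw [h4, r2, mul_assoc]
          _ = b - s * b := by rw [hs.idem]; abel
      · calc (a - a * s) * (b - s * b) = a * b - a * s * b - a * s * b + a * (s * s) * b := by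
              noncomm_ring
          _ = g' - s' := by rw [h5, hs.idem, ← hs']; abel
      · calc (b - s * b) * (a - a * s) = b * a - s * (b * a) - (b * a) * s + s * (b * a) * s := by
              noncomm_ring
          _ = g - s := by rw [h6, hsg, hgs, hs.idem]; abel
    · apply elim hp hs hms'
      · rw [mul_add, add_mul, add_mul, he, m2, m1, l1, add_zero, zero_add]
      · rw [mul_add, add_mul, add_mul, hf, m4, m3, l2, add_zero, zero_add]
      · rw [add_mul, hes, m5, add_zero]
      · rw [mul_add, hse, m6, add_zero]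
      · rw [add_mul, hfs, m7, add_zero]
      · rw [mul_add, hsf, m8, add_zero]
      · have n1 : e + (g - s) + s = e + g := by abel
        have n2 : f + (g' - s') + s' = f + g' := by abel
        rw [n1, n2]
        exact hef

theorem cancel_one [IsArtinianRing L] (hp : Prm L) {e f : L} (he : e * e = e) (hf : f * f = f)
    (h : Iso (1 - e) (1 - f)) : Iso e f := by
  have e1 : e * (1 - e) = 0 := by rw [mul_sub, mul_one, he, sub_self]
  have e2 : (1 - e) * e = 0 := by rw [sub_mul, one_mul, he, sub_self]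
  have f1 : f * (1 - f) = 0 := by rw [mul_sub, mul_one, hf, sub_self]
  have f2 : (1 - f) * f = 0 := by rw [sub_mul, one_mul, hf, sub_self]
  refine cancel hp _ e (1 - e) f (1 - f) rfl he ?_ hf ?_ e1 e2 f1 f2 h ?_
  · rw [mul_sub, mul_one, e2, sub_zero]
  · rw [mul_sub, mul_one, f2, sub_zero]
  · rw [add_sub_cancel, add_sub_cancel]
    exact ⟨1, 1, one_mul 1, one_mul 1, one_mul 1, one_mul 1, one_mul 1, one_mul 1⟩

/-- minimal idempotents are conjugate -/
theorem Mn.conjugate [IsArtinianRing L] (hp : Prm L) {s s' : L} (hs : Mn s) (hs' : Mn s') :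
    ∃ c : Lˣ, (c : L) * s = s' * c := by
  have h1 := hs.iso hp hs'
  have e2 : (1 - s) * (1 - s) = 1 - s := by
    rw [mul_sub, mul_one, sub_mul, one_mul, hs.idem, sub_self, sub_zero]
  have f2 : (1 - s') * (1 - s') = 1 - s' := by
    rw [mul_sub, mul_one, sub_mul, one_mul, hs'.idem, sub_self, sub_zero]
  have h2 : Iso (1 - s) (1 - s') := by
    apply cancel_one hp e2 f2
    rw [sub_sub_cancel, sub_sub_cancel]
    exact h1
  obtain ⟨a, b, a1, a2, a3, a4, a5, a6⟩ := h1
  obtain ⟨c, d, c1, c2, c3, c4, c5, c6⟩ := h2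
  have k1 : s' * c = 0 := by rw [← c1, ← mul_assoc, mul_sub, mul_one, hs'.idem, sub_self, zero_mul]
  have k2 : c * s = 0 := by rw [← c2, mul_assoc, sub_mul, one_mul, hs.idem, sub_self, mul_zero]
  have k3 : s * d = 0 := by rw [← c3, ← mul_assoc, mul_sub, mul_one, hs.idem, sub_self, zero_mul]
  have k4 : d * s' = 0 := by rw [← c4, mul_assoc, sub_mul, one_mul, hs'.idem, sub_self, mul_zero]
  have l1 : a * d = 0 := by rw [← a2, mul_assoc, k3, mul_zero]
  have l2 : c * b = 0 := by rw [← a3, ← mul_assoc, k2, zero_mul]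
  have l3 : b * c = 0 := by rw [← a4, mul_assoc, k1, mul_zero]
  have l4 : d * a = 0 := by rw [← a1, ← mul_assoc, k4, zero_mul]
  refine ⟨⟨a + c, b + d, ?_, ?_⟩, ?_⟩
  · rw [add_mul, mul_add, mul_add, a5, l1, l2, c5, add_zero, zero_add, add_sub_cancel]
  · rw [add_mul, mul_add, mul_add, a6, l3, l4, c6, add_zero, zero_add, add_sub_cancel]
  · change (a + c) * s = s' * (a + c)
    rw [add_mul, mul_add, a2, k2, a1, k1]

/-- the two-sided ideal generated by a nonzero element -/
theorem full [IsArtinianRing L] (hp : Prm L) {e : L} (he : e ≠ 0) :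
    ∀ (I : Ideal L) (ε : L), I = Ideal.span {ε} → ε * ε = ε →
      ε ∈ Ideal.span (Set.range fun v : L => e * v) := by
  intro I
  induction I using WellFoundedLT.induction with
  | ind I ih =>
    intro ε hI hε
    by_cases h0 : ε = 0
    · rw [h0]
      exact zero_mem _
    obtain ⟨s, hs, hgs, hsg⟩ := exists_min hp hε h0
    have m5 : (ε - s) * s = 0 := by rw [sub_mul, hgs, hs.idem, sub_self]
    have l1 : (ε - s) * (ε - s) = ε - s := by
      rw [mul_sub, sub_mul, sub_mul, hε, hsg, hgs, hs.idem]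
      abel
    have h1 := ih (Ideal.span {ε - s}) (by
      rw [hI]
      refine lt_of_le_of_ne ?_ ?_
      · rw [Ideal.span_le]
        rintro _ rfl
        rw [SetLike.mem_coe, Ideal.mem_span_singleton']
        exact ⟨ε - s, by rw [sub_mul, hε, hsg]⟩
      · intro h
        have h7 : s ∈ (Ideal.span {ε - s} : Ideal L) := by
          rw [h, Ideal.mem_span_singleton']
          exact ⟨s, hsg⟩
        obtain ⟨t, ht⟩ := Ideal.mem_span_singleton'.mp h7
        apply hs.ne
        rw [← hs.idem]
        nth_rewrite 1 [← ht]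
        rw [mul_assoc, m5, mul_zero]) (ε - s) rfl l1
    have h2 : s ∈ Ideal.span (Set.range fun v : L => e * v) := by
      obtain ⟨t, ht⟩ : ∃ t, e * t * s ≠ 0 := by
        by_contra h
        push Not at h
        rcases hp e s h with h1 | h1
        · exact he h1
        · exact hs.ne h1
      obtain ⟨r, hr⟩ := hs.min (e * t * s) (by rw [mul_assoc, hs.idem]) ht
      rw [← hr]
      apply Ideal.mul_mem_left
      apply Ideal.subset_span
      exact ⟨t * s, by rw [mul_assoc]⟩
    have h3 := Ideal.add_mem _ h1 h2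
    rwa [sub_add_cancel] at h3

end Lam
end SepFin
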