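import Pool.Agent.Lib.MP_dccecd_al.FinDom

/-! The finite base theorem (for MP_dccecd_al): reduction to prime algebras. -/

open SepReg TensorProduct

namespace SepFin

universe u v w

section Prime
variable {A : Type w} [CommRing A] [IsDomain A] {T : Type v} [Ring T] [Algebra A T]
  {R : Type u} [Ring R] [VNR R]

theorem prime_main [Module.Finite A T] (hpT : Prm T)
    (htf : ∀ (z : A) (t : T), z ≠ 0 → algebraMap A T z * t = 0 → t = 0)
    {e f x y : T} (he : e * e = e)
    (hf : f * f = f) (hxy : x * y = 1 - e) (hyx : y * x = 1 - f)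
    (h3 : ∀ (E : Bim T R) (z : A), z ≠ 0 → E.za z = 0 → pp e E = pp f E) (C : Bim T R) :
    pp e C = pp f C := by
  set F := FractionRing A with hF
  set ι : T →ₐ[A] F ⊗[A] T := Algebra.TensorProduct.includeRight with hι
  have hloc : IsLocalizedModule (nonZeroDivisors A) (TensorProduct.mk A F T 1) := inferInstance
  have hιv : ∀ t, ι t = TensorProduct.mk A F T 1 t := fun t => rfl
  have h : IsLoc ι := by
    refine ⟨?_, ?_, ?_⟩
    · intro s t hst
      rw [hιv, hιv, IsLocalizedModule.eq_iff_exists (nonZeroDivisors A)] at hst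
      obtain ⟨c, hc⟩ := hst
      have h1 : algebraMap A T c * (s - t) = 0 := by
        rw [mul_sub, ← Algebra.smul_def, ← Algebra.smul_def, sub_eq_zero]
        exact hc
      exact sub_eq_zero.mp (htf c _ (nonZeroDivisors.ne_zero c.2) h1)
    · intro z hz
      have h1 : IsUnit (algebraMap A F z) := by
        rw [isUnit_iff_ne_zero, Ne, FaithfulSMul.algebraMap_eq_zero_iff]
        exact hz
      have h2 : algebraMap A (F ⊗[A] T) z = algebraMap F (F ⊗[A] T) (algebraMap A F z) :=
        IsScalarTower.algebraMap_apply A F (F ⊗[A] T) z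
      rw [h2]
      exact h1.map _
    · intro l
      obtain ⟨⟨t, c⟩, hc⟩ := IsLocalizedModule.surj (nonZeroDivisors A) (TensorProduct.mk A F T 1) l
      refine ⟨c, t, nonZeroDivisors.ne_zero c.2, ?_⟩
      rw [hιv, ← Algebra.smul_def]
      exact hc.symm
  have hart : IsArtinianRing (F ⊗[A] T) := isArtinian_of_tower F inferInstance
  have hpL : Prm (F ⊗[A] T) := by
    intro a b hab
    obtain ⟨z, s, hz, hs⟩ := h.surj a
    obtain ⟨z', t, hz', ht⟩ := h.surj b
    have h1 : ∀ r, s * r * t = 0 := by
      intro r
      apply h.inj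
      rw [map_mul, map_mul, hs, ht, map_zero]
      calc algebraMap A (F ⊗[A] T) z * a * ι r * (algebraMap A (F ⊗[A] T) z' * b)
          = algebraMap A (F ⊗[A] T) z * a * (ι r * algebraMap A (F ⊗[A] T) z') * b := by
            simp only [mul_assoc]
        _ = algebraMap A (F ⊗[A] T) z * a * (algebraMap A (F ⊗[A] T) z' * ι r) * b := by
            rw [Algebra.commutes z' (ι r)]
        _ = algebraMap A (F ⊗[A] T) z * (a * (algebraMap A (F ⊗[A] T) z' * ι r) * b) := by
            simp only [mul_assoc]
        _ = 0 := by rw [hab, mul_zero]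
    rcases hpT s t h1 with h2 | h2
    · left
      rw [h2, map_zero] at hs
      exact h.cancel hz (by rw [← hs, mul_zero])
    · right
      rw [h2, map_zero] at ht
      exact h.cancel hz' (by rw [← ht, mul_zero])
  exact dom_main hpL h he hf hxy hyx h3 C

end Prime

section Noeth
variable {A : Type w} [CommRing A] {T : Type v} [Ring T] [Algebra A T]
  {R : Type u} [Ring R] [VNR R]

/-- restriction of the action -/
abbrev Bim.res {S : Type*} [Ring S] (φ : S →+* T) (C : Bim T R) : Bim S R where
  X := C.X
  act := C.act.comp φ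

/-- a module killed by a two-sided ideal -/
abbrev Bim.fac (I : Ideal T) [I.IsTwoSided] (C : Bim T R) (h : ∀ t ∈ I, C.act t = 0) :
    Bim (T ⧸ I) R where
  X := C.X
  act := Ideal.Quotient.lift I C.act h

theorem kill_sup {I : Ideal T} {C : Bim T R} {a : T} (h : ∀ t ∈ I, C.act t = 0)
    (ha : C.act a = 0) : ∀ t ∈ I ⊔ Ideal.span {a}, C.act t = 0 := by
  have : I ⊔ Ideal.span {a} ≤ RingHom.ker C.act := by
    refine sup_le (fun t ht => h t ht) ?_
    rw [Ideal.span_singleton_le_iff_mem]
    exact ha
  intro t ht
  exact this ht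

theorem lt_sup {I : Ideal T} {a : T} (ha : a ∉ I) : I < I ⊔ Ideal.span {a} := by
  refine lt_of_le_of_ne le_sup_left fun h => ha ?_
  rw [h]
  exact (le_sup_right : Ideal.span {a} ≤ I ⊔ Ideal.span {a}) (Ideal.mem_span_singleton_self a)

theorem quo_proj {P : Type u} [AddCommGroup P] [Module R P] [Module.Finite R P]
    [Module.Projective R P] (N : Submodule R P) [Module.Finite R N] [Module.Projective R N] :
    Module.Projective R (P ⧸ N) := by
  have h := inst_coker_proj N.subtype
  rw [Submodule.range_subtype] at h
  exact h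

/-- the submodule `T b C` -/
theorem exists_tb [Module.Finite A T] (C : Bim T R) (b : T) :
    ∃ N : Submodule R C.X, Module.Finite R N ∧ (∀ t, ∀ x ∈ N, C.act t x ∈ N) ∧
      (∀ t x, C.act (t * b) x ∈ N) ∧
      (∀ a : T, (∀ t, C.act (a * t * b) = 0) → ∀ x ∈ N, C.act a x = 0) := by
  obtain ⟨m, τ, hτ⟩ := Module.Finite.exists_fin (R := A) (M := T)
  have hspan : ∀ t : T, ∃ c : Fin m → A, ∑ i, algebraMap A T (c i) * τ i = t := by
    intro t
    have h1 : t ∈ Submodule.span A (Set.range τ) := by rw [hτ]; exact Submodule.mem_top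
    obtain ⟨c, hc⟩ := (Submodule.mem_span_range_iff_exists_fun A).mp h1
    refine ⟨c, ?_⟩
    rw [← hc]
    exact Finset.sum_congr rfl fun i _ => (Algebra.smul_def _ _).symm
  set Ψ : (Fin m → C.X) →ₗ[R] C.X := ∑ i, (C.act (τ i * b)).comp (LinearMap.proj i) with hΨ
  have hΨa : ∀ v, Ψ v = ∑ i, C.act (τ i * b) (v i) := by
    intro v
    rw [hΨ, LinearMap.sum_apply]
    rfl
  have h1 : ∀ t x, C.act (t * b) x ∈ LinearMap.range Ψ := by
    intro t x
    obtain ⟨c, hc⟩ := hspan t
    refine ⟨fun i => C.act (algebraMap A T (c i)) x, ?_⟩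
    rw [hΨa, ← hc, Finset.sum_mul, map_sum, LinearMap.sum_apply]
    apply Finset.sum_congr rfl
    intro i _
    rw [← C.act_mul, ← Algebra.commutes, mul_assoc]
  refine ⟨LinearMap.range Ψ, inferInstance, ?_, h1, ?_⟩
  · rintro t _ ⟨v, rfl⟩
    rw [hΨa, map_sum]
    apply Submodule.sum_mem
    intro i _
    rw [← C.act_mul, ← mul_assoc]
    exact h1 _ _
  · rintro a ha _ ⟨v, rfl⟩
    rw [hΨa, map_sum]
    apply Finset.sum_eq_zero
    intro i _
    rw [← C.act_mul, ← mul_assoc, ha, LinearMap.zero_apply]

theorem noeth_main [IsNoetherianRing A] [Module.Finite A T] {e f x y : T} (he : e * e = e)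
    (hf : f * f = f) (hxy : x * y = 1 - e) (hyx : y * x = 1 - f) (C : Bim T R) :
    pp e C = pp f C := by
  classical
  have hnA : IsNoetherian A T := inferInstance
  have hnT : IsNoetherianRing T := isNoetherian_of_tower A hnA
  have key : ∀ I : Ideal T, ∀ C : Bim T R, (∀ t ∈ I, C.act t = 0) → pp e C = pp f C := by
    intro I
    induction I using IsNoetherian.induction with
    | hgt I ih =>
      intro C hC
      by_cases hker : ∃ a, a ∉ I ∧ C.act a = 0
      · obtain ⟨a, ha, haC⟩ := hker
        exact ih _ (lt_sup ha) C (kill_sup hC haC)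
      push Not at hker
      have hI2 : Ideal.IsTwoSided I := by
        constructor
        intro a b ha
        by_contra h
        apply hker _ h
        rw [map_mul, hC a ha, zero_mul]
      by_cases h1 : (1 : T) ∈ I
      · have h1 : C.act 1 = 0 := hC 1 h1
        have h2 : Subsingleton C.X := by
          constructor
          intro a b
          have h3 : ∀ c : C.X, c = 0 := by
            intro c
            have h4 := LinearMap.congr_fun h1 c
            rwa [map_one, Module.End.one_apply] at h4
          rw [h3 a, h3 b]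
        rw [pp, pp, cls_subsingleton, cls_subsingleton]
      by_cases hp : ∀ a b : T, (∀ t, a * t * b ∈ I) → a ∈ I ∨ b ∈ I
      · -- the prime case
        set 𝔭 : Ideal A := Ideal.comap (algebraMap A T) I with h𝔭
        have hprime : 𝔭.IsPrime := by
          rw [Ideal.isPrime_iff]
          refine ⟨?_, ?_⟩
          · rw [Ne, Ideal.eq_top_iff_one, h𝔭, Ideal.mem_comap, map_one]
            exact h1
          · intro a b hab
            rw [h𝔭, Ideal.mem_comap, map_mul] at hab
            apply hp
            intro t
            have q1 : algebraMap A T a * t * algebraMap A T b =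
                t * (algebraMap A T a * algebraMap A T b) := by
              rw [Algebra.commutes a t, mul_assoc]
            rw [q1]
            exact Ideal.mul_mem_left I t hab
        have hdom : IsDomain (A ⧸ 𝔭) := (Ideal.Quotient.isDomain_iff_prime 𝔭).mpr hprime
        have hmk : ∀ a : A, algebraMap (A ⧸ 𝔭) (T ⧸ I) (Ideal.Quotient.mk 𝔭 a) =
            Ideal.Quotient.mk I (algebraMap A T a) := fun a => rfl
        have hfin : Module.Finite (A ⧸ 𝔭) (T ⧸ I) := by
          obtain ⟨m, τ, hτ⟩ := Module.Finite.exists_fin (R := A) (M := T)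
          have hfg : (⊤ : Submodule (A ⧸ 𝔭) (T ⧸ I)).FG := by
            refine ⟨Finset.univ.image fun i => Ideal.Quotient.mk I (τ i), ?_⟩
            rw [eq_top_iff]
            intro q _
            obtain ⟨t, rfl⟩ := Ideal.Quotient.mk_surjective q
            have q1 : t ∈ Submodule.span A (Set.range τ) := by rw [hτ]; exact Submodule.mem_top
            obtain ⟨c, hc⟩ := (Submodule.mem_span_range_iff_exists_fun A).mp q1
            rw [← hc, map_sum]
            apply Submodule.sum_mem
            intro i _
            have q2 : Ideal.Quotient.mk I (c i • τ i) =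
                (Ideal.Quotient.mk 𝔭 (c i)) • Ideal.Quotient.mk I (τ i) := by
              rw [Algebra.smul_def, Algebra.smul_def, map_mul, hmk]
            rw [q2]
            apply Submodule.smul_mem
            apply Submodule.subset_span
            rw [Finset.coe_image]
            exact ⟨i, Finset.mem_coe.mpr (Finset.mem_univ i), rfl⟩
          exact ⟨hfg⟩
        have hpT : Prm (T ⧸ I) := by
          intro a b hab
          obtain ⟨a, rfl⟩ := Ideal.Quotient.mk_surjective a
          obtain ⟨b, rfl⟩ := Ideal.Quotient.mk_surjective b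
          rcases hp a b (fun t => Ideal.Quotient.eq_zero_iff_mem.mp (by
            rw [map_mul, map_mul]
            exact hab _)) with h | h
          · exact Or.inl (Ideal.Quotient.eq_zero_iff_mem.mpr h)
          · exact Or.inr (Ideal.Quotient.eq_zero_iff_mem.mpr h)
        have htf : ∀ (z : A ⧸ 𝔭) (t : T ⧸ I), z ≠ 0 → algebraMap (A ⧸ 𝔭) (T ⧸ I) z * t = 0 →
            t = 0 := by
          intro z t hz hzt
          obtain ⟨z, rfl⟩ := Ideal.Quotient.mk_surjective z
          obtain ⟨t, rfl⟩ := Ideal.Quotient.mk_surjective t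
          rw [hmk, ← map_mul, Ideal.Quotient.eq_zero_iff_mem] at hzt
          rw [Ideal.Quotient.eq_zero_iff_mem]
          rcases hp (algebraMap A T z) t (by
            intro r
            rw [Algebra.commutes z r, mul_assoc]
            exact Ideal.mul_mem_left I r hzt) with h | h
          · exfalso
            apply hz
            rw [Ideal.Quotient.eq_zero_iff_mem]
            exact h
          · exact h
        have hfac := prime_main (A := A ⧸ 𝔭) (T := T ⧸ I) (R := R) hpT htf
          (e := Ideal.Quotient.mk I e) (f := Ideal.Quotient.mk I f)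
          (x := Ideal.Quotient.mk I x) (y := Ideal.Quotient.mk I y)
          (by rw [← map_mul, he]) (by rw [← map_mul, hf])
          (by rw [← map_mul, hxy, map_sub, map_one]) (by rw [← map_mul, hyx, map_sub, map_one])
          (by
            intro E z hz hE
            obtain ⟨z, rfl⟩ := Ideal.Quotient.mk_surjective z
            have hzI : algebraMap A T z ∉ I := fun h => hz (Ideal.Quotient.eq_zero_iff_mem.mpr h)
            have h1 := ih (I ⊔ Ideal.span {algebraMap A T z}) (lt_sup hzI)
              (E.res (Ideal.Quotient.mk I)) (kill_sup (by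
                intro t ht
                change E.act (Ideal.Quotient.mk I t) = 0
                rw [Ideal.Quotient.eq_zero_iff_mem.mpr ht, map_zero]) hE)
            exact h1)
          (C.fac I hC)
        exact hfac
      · push Not at hp
        obtain ⟨a, b, hab, ha, hb⟩ := hp
        obtain ⟨N, hN1, hN2, hN3, hN4⟩ := exists_tb (A := A) C b
        have hN5 : Module.Projective R N := proj_of_fg N (Module.Finite.iff_fg.mp hN1)
        have hN6 : Module.Projective R (C.X ⧸ N) := quo_proj N
        have split : ∀ {e : T}, e * e = e → pp e C = pp e (C.sub N hN2) + pp e (C.quo N hN2) := by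
          intro e he
          refine pp_exact (K := C.sub N hN2) (X := C) (Y := C.quo N hN2) N.subtype N.mkQ
            (fun s x => rfl) (fun s x => rfl) (Submodule.injective_subtype _)
            (Submodule.mkQ_surjective _) ?_ he
          intro x
          rw [Submodule.mkQ_apply, Submodule.Quotient.mk_eq_zero]
          constructor
          · intro h
            exact ⟨⟨x, h⟩, rfl⟩
          · rintro ⟨⟨k, hk⟩, rfl⟩
            exact hk
        rw [split he, split hf]
        congr 1
        · refine ih _ (lt_sup ha) _ (kill_sup ?_ ?_)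
          · intro t ht
            apply LinearMap.ext
            intro v
            apply Subtype.ext
            change C.act t v.1 = 0
            rw [hC t ht, LinearMap.zero_apply]
          · apply LinearMap.ext
            intro v
            apply Subtype.ext
            exact hN4 a (fun t => hC _ (hab t)) v.1 v.2
        · refine ih _ (lt_sup hb) _ (kill_sup ?_ ?_)
          · intro t ht
            apply LinearMap.ext
            intro v
            obtain ⟨w, rfl⟩ := Submodule.mkQ_surjective _ v
            change Submodule.Quotient.mk (C.act t w) = 0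
            rw [hC t ht, LinearMap.zero_apply]
            rfl
          · apply LinearMap.ext
            intro v
            obtain ⟨w, rfl⟩ := Submodule.mkQ_surjective _ v
            change Submodule.Quotient.mk (C.act b w) = 0
            rw [Submodule.Quotient.mk_eq_zero]
            have := hN3 1 w
            rwa [one_mul] at this
  exact key ⊥ C (by
    intro t ht
    rw [Ideal.mem_bot] at ht
    rw [ht, map_zero])

/-- the theorem for idempotents of algebras which are finite modules over a commutative ring -/
theorem alg_main [Module.Finite A T] {e f x y : T} (he : e * e = e)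
    (hf : f * f = f) (hxy : x * y = 1 - e) (hyx : y * x = 1 - f) (C : Bim T R) :
    pp e C = pp f C := by
  classical
  obtain ⟨m, τ, hτ⟩ := Module.Finite.exists_fin (R := A) (M := T)
  have hspan : ∀ t : T, ∃ c : Fin m → A, ∑ i, c i • τ i = t := by
    intro t
    have h1 : t ∈ Submodule.span A (Set.range τ) := by rw [hτ]; exact Submodule.mem_top
    exact (Submodule.mem_span_range_iff_exists_fun A).mp h1
  choose co hco using hspan
  set s : Finset A := (Finset.univ.image fun p : Fin m × Fin m × Fin m =>
      co (τ p.1 * τ p.2.1) p.2.2) ∪ (Finset.univ.image (co 1)) ∪ (Finset.univ.image (co e)) ∪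
    (Finset.univ.image (co f)) ∪ (Finset.univ.image (co x)) ∪ (Finset.univ.image (co y)) with hs
  set A0 := Algebra.adjoin ℤ (s : Set A) with hA0
  have hft : Algebra.FiniteType ℤ A0 := (Subalgebra.fg_iff_finiteType _).mp ⟨s, rfl⟩
  have hN : IsNoetherianRing A0 := Algebra.FiniteType.isNoetherianRing ℤ A0
  have hsub : ∀ a ∈ s, a ∈ A0 := fun a ha => Algebra.subset_adjoin ha
  have m0 : ∀ i j k, co (τ i * τ j) k ∈ A0 := fun i j k => hsub _ (by
    rw [hs]
    simp only [Finset.mem_union, Finset.mem_image, Finset.mem_univ, true_and]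
    exact Or.inl (Or.inl (Or.inl (Or.inl (Or.inl ⟨(i, j, k), rfl⟩)))))
  have m1 : ∀ k, co 1 k ∈ A0 := fun k => hsub _ (by
    rw [hs]
    simp only [Finset.mem_union, Finset.mem_image, Finset.mem_univ, true_and]
    exact Or.inl (Or.inl (Or.inl (Or.inl (Or.inr ⟨k, rfl⟩)))))
  have me : ∀ k, co e k ∈ A0 := fun k => hsub _ (by
    rw [hs]
    simp only [Finset.mem_union, Finset.mem_image, Finset.mem_univ, true_and]
    exact Or.inl (Or.inl (Or.inl (Or.inr ⟨k, rfl⟩))))
  have mf : ∀ k, co f k ∈ A0 := fun k => hsub _ (by
    rw [hs]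
    simp only [Finset.mem_union, Finset.mem_image, Finset.mem_univ, true_and]
    exact Or.inl (Or.inl (Or.inr ⟨k, rfl⟩)))
  have mx : ∀ k, co x k ∈ A0 := fun k => hsub _ (by
    rw [hs]
    simp only [Finset.mem_union, Finset.mem_image, Finset.mem_univ, true_and]
    exact Or.inl (Or.inr ⟨k, rfl⟩))
  have my : ∀ k, co y k ∈ A0 := fun k => hsub _ (by
    rw [hs]
    simp only [Finset.mem_union, Finset.mem_image, Finset.mem_univ, true_and]
    exact Or.inr ⟨k, rfl⟩)
  have hmem : ∀ t : T, (∀ k, co t k ∈ A0) → t ∈ Submodule.span A0 (Set.range τ) := by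
    intro t ht
    rw [← hco t]
    apply Submodule.sum_mem
    intro k _
    have h1 : (⟨co t k, ht k⟩ : A0) • τ k ∈ Submodule.span A0 (Set.range τ) :=
      Submodule.smul_mem _ _ (Submodule.subset_span ⟨k, rfl⟩)
    exact h1
  set T0 : Subalgebra A0 T := (Submodule.span A0 (Set.range τ)).toSubalgebra (hmem 1 m1) (by
    intro a b ha hb
    have h1 : a * b ∈ Submodule.span A0 (Set.range τ) * Submodule.span A0 (Set.range τ) :=
      Submodule.mul_mem_mul ha hb
    rw [Submodule.span_mul_span] at h1
    refine (Submodule.span_le.mpr ?_) h1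
    rintro _ ⟨_, ⟨i, rfl⟩, _, ⟨j, rfl⟩, rfl⟩
    exact hmem _ (m0 i j)) with hT0
  have hfin : Module.Finite A0 T0 := by
    have h1 : (Submodule.span A0 (Set.range τ)).FG := Submodule.fg_span (Set.finite_range τ)
    exact Module.Finite.iff_fg.mpr h1
  have h1 := noeth_main (A := A0) (T := T0) (R := R) (e := ⟨e, hmem e me⟩) (f := ⟨f, hmem f mf⟩)
    (x := ⟨x, hmem x mx⟩) (y := ⟨y, hmem y my⟩) (Subtype.ext he) (Subtype.ext hf)
    (Subtype.ext hxy) (Subtype.ext hyx) (C.res T0.val.toRingHom)
  exact h1

end Noeth

end SepFin
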