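import Pool.Agent.Lib.MP_dccecd_al.GrForm

/-! Rings which satisfy the graded condition (for MP_dccecd_al, the graded base theorem). -/

open SepReg SepFin SepNoe Matrix

namespace SepGr

universe u v w x

section Sup
variable {T : Type v} [Ring T]

/-- the right chain condition for the powers of `F` modulo `P` -/
def RNP (F P : Ideal T) : Prop :=
  ∀ (n : ℕ → ℕ) (a : ℕ → T), StrictMono n → (∀ k, a k ∈ F ^ n k) →
    ∃ k, ∃ c : ℕ → T, (∀ j < k, c j ∈ F ^ (n k - n j)) ∧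
      a k - ∑ j ∈ Finset.range k, a j * c j ∈ F ^ (n k + 1) ⊔ P

/-- the left chain condition for the powers of `F` modulo `P` -/
def LNP (F P : Ideal T) : Prop :=
  ∀ (n : ℕ → ℕ) (a : ℕ → T), StrictMono n → (∀ k, a k ∈ F ^ n k) →
    ∃ k, ∃ c : ℕ → T, (∀ j < k, c j ∈ F ^ (n k - n j)) ∧
      a k - ∑ j ∈ Finset.range k, c j * a j ∈ F ^ (n k + 1) ⊔ P

theorem flt_sup {F P : Ideal T} (hF : F.IsTwoSided) (hP : P.IsTwoSided) :
    Flt fun n => F ^ n ⊔ P := by
  refine ⟨fun n => ?_, ?_, fun n => ?_, ?_⟩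
  · constructor
    intro a b ha
    obtain ⟨c, hc, p, hp, rfl⟩ := Submodule.mem_sup.mp ha
    rw [add_mul]
    exact Submodule.add_mem_sup ((pw_two hF n).mul_mem_of_left b hc) (hP.mul_mem_of_left b hp)
  · change F ^ 0 ⊔ P = ⊤
    rw [pw_zero, top_sup_eq]
  · exact sup_le_sup (pw_anti hF (Nat.le_succ n)) le_rfl
  · intro m n a ha b hb
    obtain ⟨c, hc, p, hp, rfl⟩ := Submodule.mem_sup.mp ha
    obtain ⟨d, hd, q, hq, rfl⟩ := Submodule.mem_sup.mp hb
    rw [show (c + p) * (d + q) = c * d + (c * q + p * (d + q)) by noncomm_ring]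
    exact Submodule.add_mem_sup (pw_mul hF hc hd)
      (P.add_mem (P.mul_mem_left c hq) (hP.mul_mem_of_left _ hp))

theorem RN_sup {F P : Ideal T} (hP : P.IsTwoSided) (h : RNP F P) : RN fun n => F ^ n ⊔ P := by
  intro n a hn ha
  choose b hb p hp hab using fun k => Submodule.mem_sup.mp (ha k)
  obtain ⟨k, c, hc, hk⟩ := h n b hn hb
  refine ⟨k, c, fun j hj => Ideal.mem_sup_left (hc j hj), ?_⟩
  have h1 : a k - ∑ j ∈ Finset.range k, a j * c j =
      (b k - ∑ j ∈ Finset.range k, b j * c j) + (p k - ∑ j ∈ Finset.range k, p j * c j) := by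
    rw [← hab k]
    have h2 : ∑ j ∈ Finset.range k, a j * c j =
        ∑ j ∈ Finset.range k, b j * c j + ∑ j ∈ Finset.range k, p j * c j := by
      rw [← Finset.sum_add_distrib]
      refine Finset.sum_congr rfl fun j _ => ?_
      rw [← hab j, add_mul]
    rw [h2]
    abel
  change a k - ∑ j ∈ Finset.range k, a j * c j ∈ F ^ (n k + 1) ⊔ P
  rw [h1]
  refine Ideal.add_mem _ hk (Ideal.mem_sup_right (P.sub_mem (hp k) (P.sum_mem fun j _ => ?_)))
  exact hP.mul_mem_of_left _ (hp j)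

theorem LN_sup {F P : Ideal T} (h : LNP F P) : LN fun n => F ^ n ⊔ P := by
  intro n a hn ha
  choose b hb p hp hab using fun k => Submodule.mem_sup.mp (ha k)
  obtain ⟨k, c, hc, hk⟩ := h n b hn hb
  refine ⟨k, c, fun j hj => Ideal.mem_sup_left (hc j hj), ?_⟩
  have h1 : a k - ∑ j ∈ Finset.range k, c j * a j =
      (b k - ∑ j ∈ Finset.range k, c j * b j) + (p k - ∑ j ∈ Finset.range k, c j * p j) := by
    rw [← hab k]
    have h2 : ∑ j ∈ Finset.range k, c j * a j =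
        ∑ j ∈ Finset.range k, c j * b j + ∑ j ∈ Finset.range k, c j * p j := by
      rw [← Finset.sum_add_distrib]
      refine Finset.sum_congr rfl fun j _ => ?_
      rw [← hab j, mul_add]
    rw [h2]
    abel
  change a k - ∑ j ∈ Finset.range k, c j * a j ∈ F ^ (n k + 1) ⊔ P
  rw [h1]
  refine Ideal.add_mem _ hk (Ideal.mem_sup_right (P.sub_mem (hp k) (P.sum_mem fun j _ => ?_)))
  exact P.mul_mem_left _ (hp j)

theorem mul_le_r {P : Ideal T} (hP : P.IsTwoSided) (A : Ideal T) : P * A ≤ P := by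
  rw [Ideal.mul_le]
  exact fun a ha b _ => hP.mul_mem_of_left b ha

theorem mul_le_l (P A : Ideal T) : A * P ≤ P := by
  rw [Ideal.mul_le]
  exact fun a _ b hb => P.mul_mem_left a hb

theorem pow_comm_l {F J P : Ideal T} (hP : P.IsTwoSided) (h : F * J ≤ J * F ⊔ P) (n : ℕ) :
    F ^ n * J ≤ J * F ^ n ⊔ P := by
  induction n with
  | zero =>
    rw [pw_zero]
    refine le_trans (mul_le_l J ⊤) (le_trans ?_ le_sup_left)
    intro j hj
    rw [← mul_one j]
    exact Ideal.mul_mem_mul hj Submodule.mem_top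
  | succ n ih =>
    calc F ^ (n + 1) * J = F ^ n * (F * J) := by rw [Submodule.pow_succ, mul_assoc]
      _ ≤ F ^ n * (J * F ⊔ P) := Ideal.mul_mono le_rfl h
      _ = (F ^ n * J) * F ⊔ F ^ n * P := by rw [Ideal.mul_sup, mul_assoc]
      _ ≤ (J * F ^ n ⊔ P) * F ⊔ P := sup_le_sup (Ideal.mul_mono ih le_rfl) (mul_le_l P _)
      _ = J * F ^ (n + 1) ⊔ P * F ⊔ P := by rw [Ideal.sup_mul, Submodule.pow_succ, mul_assoc]
      _ ≤ J * F ^ (n + 1) ⊔ P := sup_le (sup_le_sup le_rfl (mul_le_r hP F)) le_sup_right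

theorem pow_comm_r {F J P : Ideal T} (hP : P.IsTwoSided) (hF : F.IsTwoSided)
    (hJ : J.IsTwoSided) (h : J * F ≤ F * J ⊔ P) (n : ℕ) : J * F ^ n ≤ F ^ n * J ⊔ P := by
  induction n with
  | zero =>
    rw [pw_zero]
    refine le_trans (mul_le_r hJ ⊤) (le_trans ?_ le_sup_left)
    intro j hj
    rw [← one_mul j]
    exact Ideal.mul_mem_mul Submodule.mem_top hj
  | succ n ih =>
    calc J * F ^ (n + 1) = (J * F) * F ^ n := by rw [pw_succ' hF, mul_assoc]
      _ ≤ (F * J ⊔ P) * F ^ n := Ideal.mul_mono h le_rfl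
      _ = F * (J * F ^ n) ⊔ P * F ^ n := by rw [Ideal.sup_mul, mul_assoc]
      _ ≤ F * (F ^ n * J ⊔ P) ⊔ P := sup_le_sup (Ideal.mul_mono le_rfl ih) (mul_le_r hP _)
      _ = F ^ (n + 1) * J ⊔ F * P ⊔ P := by rw [Ideal.mul_sup, pw_succ' hF, mul_assoc]
      _ ≤ F ^ (n + 1) * J ⊔ P := sup_le (sup_le_sup le_rfl (mul_le_l P F)) le_sup_right

theorem jf_l {F J P : Ideal T} (hP : P.IsTwoSided) (h1 : F * J ≤ J * F ⊔ P)
    (h3 : F * J ≤ J * J ⊔ P) (n : ℕ) :
    (F ^ (n + 1) ⊔ P) * J ≤ J * (F ^ n ⊔ P) * J ⊔ P := by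
  rw [Ideal.sup_mul]
  refine sup_le ?_ (le_trans (mul_le_r hP J) le_sup_right)
  calc F ^ (n + 1) * J = F ^ n * (F * J) := by rw [Submodule.pow_succ, mul_assoc]
    _ ≤ F ^ n * (J * J ⊔ P) := Ideal.mul_mono le_rfl h3
    _ = (F ^ n * J) * J ⊔ F ^ n * P := by rw [Ideal.mul_sup, mul_assoc]
    _ ≤ (J * F ^ n ⊔ P) * J ⊔ P :=
      sup_le_sup (Ideal.mul_mono (pow_comm_l hP h1 n) le_rfl) (mul_le_l P _)
    _ ≤ J * (F ^ n ⊔ P) * J ⊔ P := by
      rw [Ideal.sup_mul]
      refine sup_le (sup_le ?_ ?_) le_sup_right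
      · exact le_trans (Ideal.mul_mono (Ideal.mul_mono le_rfl le_sup_left) le_rfl) le_sup_left
      · exact le_trans (mul_le_r hP J) le_sup_right

theorem jf_r {F J P : Ideal T} (hP : P.IsTwoSided) (hF : F.IsTwoSided) (hJ : J.IsTwoSided)
    (h2 : J * F ≤ F * J ⊔ P) (h3 : F * J ≤ J * J ⊔ P) (n : ℕ) :
    J * (F ^ (n + 1) ⊔ P) ≤ J * (F ^ n ⊔ P) * J ⊔ P := by
  rw [Ideal.mul_sup]
  refine sup_le ?_ (le_trans (mul_le_l P J) le_sup_right)
  calc J * F ^ (n + 1) = (J * F) * F ^ n := by rw [pw_succ' hF, mul_assoc]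
    _ ≤ (F * J ⊔ P) * F ^ n := Ideal.mul_mono h2 le_rfl
    _ ≤ ((J * J ⊔ P) ⊔ P) * F ^ n := Ideal.mul_mono (sup_le_sup h3 le_rfl) le_rfl
    _ = J * (J * F ^ n) ⊔ P * F ^ n ⊔ P * F ^ n := by
      rw [Ideal.sup_mul, Ideal.sup_mul, mul_assoc]
    _ ≤ J * (F ^ n * J ⊔ P) ⊔ P ⊔ P :=
      sup_le_sup (sup_le_sup (Ideal.mul_mono le_rfl (pow_comm_r hP hF hJ h2 n))
        (mul_le_r hP _)) (mul_le_r hP _)
    _ ≤ J * (F ^ n ⊔ P) * J ⊔ P := by
      rw [Ideal.mul_sup]
      refine sup_le (sup_le (sup_le ?_ ?_) le_sup_right) le_sup_right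
      · rw [← mul_assoc]
        exact le_trans (Ideal.mul_mono (Ideal.mul_mono le_rfl le_sup_left) le_rfl) le_sup_left
      · exact le_trans (mul_le_l P J) le_sup_right

/-- powers of ideals which are not contained in a prime ideal -/
theorem pow_not_le {F P : Ideal T} (hp : ∀ a b : T, (∀ t, a * t * b ∈ P) → a ∈ P ∨ b ∈ P)
    (hF : F.IsTwoSided) (hFP : ¬ F ≤ P) (n : ℕ) : ¬ F ^ n ≤ P := by
  obtain ⟨b, hb, hb0⟩ := SetLike.not_le_iff_exists.mp hFP
  induction n with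
  | zero =>
    rw [pw_zero]
    intro h
    exact hb0 (h Submodule.mem_top)
  | succ n ih =>
    intro h
    obtain ⟨a, ha, ha0⟩ := SetLike.not_le_iff_exists.mp ih
    rcases hp a b (fun t => h (by
      rw [Submodule.pow_succ]
      exact Ideal.mul_mem_mul ((pw_two hF n).mul_mem_of_left t ha) hb)) with h1 | h1
    · exact ha0 h1
    · exact hb0 h1

/-- the condition with the powers of an ideal -/
theorem grAt_of_jf {P : Ideal T} (hP : P.IsTwoSided)
    (hp : ∀ a b : T, (∀ t, a * t * b ∈ P) → a ∈ P ∨ b ∈ P)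
    (h : ∀ I : Ideal T, I.IsTwoSided → ¬ I ≤ P → ∃ J : Ideal T, J.IsTwoSided ∧ J ≤ I ∧ ¬ J ≤ P ∧
      ∃ F : Ideal T, F.IsTwoSided ∧ ¬ F ≤ P ∧ RNP F P ∧ LNP F P ∧ F * J ≤ J * F ⊔ P ∧
        J * F ≤ F * J ⊔ P ∧ F * J ≤ J * J ⊔ P) : GrAt P := by
  intro I hI hIP
  obtain ⟨J, hJ, hJI, hJP, F, hF, hFP, hRN, hLN, h1, h2, h3⟩ := h I hI hIP
  exact ⟨J, hJ, hJI, hJP, fun n => F ^ n ⊔ P, flt_sup hF hP, fun n => le_sup_right,
    fun n hle => pow_not_le hp hF hFP n (le_trans le_sup_left hle), RN_sup hP hRN, LN_sup hLN,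
    jf_l hP h1 h3, jf_r hP hF hJ h2 h3⟩

/-- the condition with an ideal whose associated graded ring is noetherian -/
theorem grAt_of_pow {P : Ideal T} (hP : P.IsTwoSided)
    (hp : ∀ a b : T, (∀ t, a * t * b ∈ P) → a ∈ P ∨ b ∈ P)
    (h : ∀ I : Ideal T, I.IsTwoSided → ¬ I ≤ P → ∃ J : Ideal T, J.IsTwoSided ∧ J ≤ I ∧ ¬ J ≤ P ∧
      RNP J P ∧ LNP J P) : GrAt P := by
  refine grAt_of_jf hP hp fun I hI hIP => ?_
  obtain ⟨J, hJ, hJI, hJP, h1, h2⟩ := h I hI hIP
  exact ⟨J, hJ, hJI, hJP, J, hJ, hJP, h1, h2, le_sup_left, le_sup_left, le_sup_left⟩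

/-- the condition with ideals which are idempotent modulo `P` -/
theorem grAt_of_idem {P : Ideal T} 
    (h : ∀ I : Ideal T, I.IsTwoSided → ¬ I ≤ P → ∃ J : Ideal T, J.IsTwoSided ∧ J ≤ I ∧ ¬ J ≤ P ∧
      J ≤ J * J ⊔ P) : GrAt P := by
  intro I hI hIP
  obtain ⟨J, hJ, hJI, hJP, h1⟩ := h I hI hIP
  have h2 : J ≤ J * ⊤ * J ⊔ P := by
    refine le_trans h1 (sup_le_sup (Ideal.mul_mono ?_ le_rfl) le_rfl)
    intro j hj
    rw [← mul_one j]
    exact Ideal.mul_mem_mul hj Submodule.mem_top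
  refine ⟨J, hJ, hJI, hJP, fun _ => ⊤, ⟨fun _ => inferInstance, rfl, fun _ => le_rfl,
    fun _ _ _ _ _ _ => Submodule.mem_top⟩, fun _ => le_top, fun _ hle => hJP (le_trans le_top hle),
    ?_, ?_, fun _ => le_trans (mul_le_l J ⊤) h2, fun _ => le_trans (mul_le_r hJ ⊤) h2⟩
  · intro n a _ _
    exact ⟨0, fun _ => 0, fun _ _ => Submodule.mem_top, Submodule.mem_top⟩
  · intro n a _ _
    exact ⟨0, fun _ => 0, fun _ _ => Submodule.mem_top, Submodule.mem_top⟩

end Sup

section Nor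
variable {T : Type v} [Ring T]

/-- powers modulo `P` of the ideal given by an element which is normal modulo `P` -/
theorem nor_pow {P : Ideal T} (hP : P.IsTwoSided) {z : T}
    (hzl : ∀ t, ∃ t', z * t - t' * z ∈ P) (hzr : ∀ t, ∃ t', t * z - z * t' ∈ P) (n : ℕ) :
    (∀ a ∈ (Ideal.span {z} ⊔ P) ^ n, ∃ b, a - b * z ^ n ∈ P) ∧
      (∀ a ∈ (Ideal.span {z} ⊔ P) ^ n, ∃ b, a - z ^ n * b ∈ P) ∧
        (∀ t, ∃ t', z ^ n * t - t' * z ^ n ∈ P) ∧ (∀ t, ∃ t', t * z ^ n - z ^ n * t' ∈ P) ∧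
          z ^ n ∈ (Ideal.span {z} ⊔ P) ^ n := by
  have hl : ∀ n : ℕ, ∀ t, ∃ t', z ^ n * t - t' * z ^ n ∈ P := by
    intro n
    induction n with
    | zero =>
      intro t
      refine ⟨t, ?_⟩
      rw [pow_zero, one_mul, mul_one, sub_self]
      exact P.zero_mem
    | succ n ih =>
      intro t
      obtain ⟨s, hs⟩ := hzl t
      obtain ⟨r, hr⟩ := ih s
      refine ⟨r, ?_⟩
      have h1 : z ^ (n + 1) * t - r * z ^ (n + 1) =
          z ^ n * (z * t - s * z) + (z ^ n * s - r * z ^ n) * z := by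
        rw [pow_succ]
        noncomm_ring
      rw [h1]
      exact P.add_mem (P.mul_mem_left _ hs) (hP.mul_mem_of_left _ hr)
  have hr : ∀ n : ℕ, ∀ t, ∃ t', t * z ^ n - z ^ n * t' ∈ P := by
    intro n
    induction n with
    | zero =>
      intro t
      refine ⟨t, ?_⟩
      rw [pow_zero, one_mul, mul_one, sub_self]
      exact P.zero_mem
    | succ n ih =>
      intro t
      obtain ⟨s, hs⟩ := ih t
      obtain ⟨r, hr⟩ := hzr s
      refine ⟨r, ?_⟩
      have h1 : t * z ^ (n + 1) - z ^ (n + 1) * r =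
          (t * z ^ n - z ^ n * s) * z + z ^ n * (s * z - z * r) := by
        rw [pow_succ]
        noncomm_ring
      rw [h1]
      exact P.add_mem (hP.mul_mem_of_left _ hs) (P.mul_mem_left _ hr)
  have hb : ∀ n : ℕ, ∀ a ∈ (Ideal.span {z} ⊔ P) ^ n, ∃ b, a - b * z ^ n ∈ P := by
    intro n
    induction n with
    | zero =>
      intro a _
      refine ⟨a, ?_⟩
      rw [pow_zero, mul_one, sub_self]
      exact P.zero_mem
    | succ n ih =>
      set W : Ideal T :=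
        { carrier := {a | ∃ b, a - b * z ^ (n + 1) ∈ P}
          add_mem' := by
            rintro a a' ⟨b, hb⟩ ⟨b', hb'⟩
            refine ⟨b + b', ?_⟩
            have h1 : a + a' - (b + b') * z ^ (n + 1) =
              (a - b * z ^ (n + 1)) + (a' - b' * z ^ (n + 1)) := by noncomm_ring
            rw [h1]
            exact P.add_mem hb hb'
          zero_mem' := ⟨0, by rw [zero_mul, sub_self]; exact P.zero_mem⟩
          smul_mem' := by
            rintro r a ⟨b, hb⟩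
            refine ⟨r * b, ?_⟩
            rw [smul_eq_mul, mul_assoc, ← mul_sub]
            exact P.mul_mem_left _ hb } with hW
      have h1 : (Ideal.span {z} ⊔ P) ^ (n + 1) ≤ W := by
        rw [Submodule.pow_succ, Ideal.mul_le]
        intro a ha c hc
        obtain ⟨b, hb⟩ := ih a ha
        obtain ⟨d, hd, p, hp, rfl⟩ := Submodule.mem_sup.mp hc
        obtain ⟨r, rfl⟩ := Ideal.mem_span_singleton'.mp hd
        obtain ⟨s, hs⟩ := hl n r
        refine ⟨b * s, ?_⟩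
        have h2 : a * (r * z + p) - b * s * z ^ (n + 1) =
            (a - b * z ^ n) * (r * z + p) + b * ((z ^ n * r - s * z ^ n) * z) +
              b * z ^ n * p := by
          rw [pow_succ]
          noncomm_ring
        rw [h2]
        exact P.add_mem (P.add_mem (hP.mul_mem_of_left _ hb)
          (P.mul_mem_left _ (hP.mul_mem_of_left _ hs))) (P.mul_mem_left _ hp)
      exact fun a ha => h1 ha
  refine ⟨hb n, ?_, hl n, hr n, ?_⟩
  · intro a ha
    obtain ⟨b, hb⟩ := hb n a ha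
    obtain ⟨t, ht⟩ := hr n b
    refine ⟨t, ?_⟩
    have h1 : a - z ^ n * t = (a - b * z ^ n) + (b * z ^ n - z ^ n * t) := by abel
    rw [h1]
    exact P.add_mem hb ht
  · have hz : z ∈ Ideal.span {z} ⊔ P := Ideal.mem_sup_left (Ideal.mem_span_singleton_self z)
    induction n with
    | zero =>
      rw [pw_zero]
      exact Submodule.mem_top
    | succ n ih =>
      rw [pow_succ, Submodule.pow_succ]
      exact Ideal.mul_mem_mul ih hz

theorem nor_two {P : Ideal T} (hP : P.IsTwoSided) {z : T}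
    (hzl : ∀ t, ∃ t', z * t - t' * z ∈ P) : (Ideal.span {z} ⊔ P).IsTwoSided := by
  constructor
  intro a b ha
  obtain ⟨c, hc, p, hp, rfl⟩ := Submodule.mem_sup.mp ha
  obtain ⟨r, rfl⟩ := Ideal.mem_span_singleton'.mp hc
  obtain ⟨s, hs⟩ := hzl b
  have h1 : (r * z + p) * b = r * s * z + (r * (z * b - s * z) + p * b) := by noncomm_ring
  rw [h1]
  refine Submodule.add_mem_sup (Ideal.mul_mem_left _ _ (Ideal.mem_span_singleton_self z)) ?_
  exact P.add_mem (P.mul_mem_left _ hs) (hP.mul_mem_of_left _ hp)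

theorem RNP_nor [IsNoetherianRing Tᵐᵒᵖ] {P : Ideal T} (hP : P.IsTwoSided) {z : T}
    (hzl : ∀ t, ∃ t', z * t - t' * z ∈ P) (hzr : ∀ t, ∃ t', t * z - z * t' ∈ P) :
    RNP (Ideal.span {z} ⊔ P) P := by
  intro n a hn ha
  have hF := nor_two hP hzl
  choose b hb using fun k => (nor_pow hP hzl hzr (n k)).1 (a k) (ha k)
  -- the right ideals generated by the first elements `b`
  set A : ℕ →o Ideal Tᵐᵒᵖ :=
    { toFun := fun k => Ideal.span ((fun j => MulOpposite.op (b j)) '' {j | j < k})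
      monotone' := by
        intro i j hij
        apply Ideal.span_mono
        rintro _ ⟨l, hl, rfl⟩
        exact ⟨l, lt_of_lt_of_le hl hij, rfl⟩ } with hA
  obtain ⟨k, hk⟩ := monotone_stabilizes_iff_noetherian.mpr
    (inferInstance : IsNoetherian Tᵐᵒᵖ Tᵐᵒᵖ) A
  have h1 : MulOpposite.op (b k) ∈ A k := by
    rw [hk (k + 1) (Nat.le_succ k)]
    exact Ideal.subset_span ⟨k, Nat.lt_succ_self k, rfl⟩
  have h2 : ∀ q ∈ A k, ∃ t : ℕ → T, q.unop = ∑ j ∈ Finset.range k, b j * t j := by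
    intro q hq
    change q ∈ Submodule.span Tᵐᵒᵖ _ at hq
    induction hq using Submodule.span_induction with
    | mem q hq =>
      obtain ⟨l, hl, rfl⟩ := hq
      refine ⟨fun j => if j = l then 1 else 0, ?_⟩
      have h3 : l ∈ Finset.range k := Finset.mem_range.mpr hl
      simp [Finset.sum_ite_eq', h3]
    | zero => exact ⟨fun _ => 0, by simp⟩
    | add p q _ _ hp hq =>
      obtain ⟨s, hs⟩ := hp
      obtain ⟨t, ht⟩ := hq
      refine ⟨fun j => s j + t j, ?_⟩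
      rw [MulOpposite.unop_add, hs, ht, ← Finset.sum_add_distrib]
      exact Finset.sum_congr rfl fun j _ => (mul_add _ _ _).symm
    | smul r p _ hp =>
      obtain ⟨s, hs⟩ := hp
      refine ⟨fun j => s j * r.unop, ?_⟩
      rw [smul_eq_mul, MulOpposite.unop_mul, hs, Finset.sum_mul]
      exact Finset.sum_congr rfl fun j _ => mul_assoc _ _ _
  obtain ⟨t, ht⟩ := h2 _ h1
  rw [MulOpposite.unop_op] at ht
  choose t' ht' using fun j => (nor_pow hP hzl hzr (n j)).2.2.2.1 (t j)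
  refine ⟨k, fun j => t' j * z ^ (n k - n j), fun j _ => ?_, Ideal.mem_sup_right ?_⟩
  · exact Ideal.mul_mem_left _ _ (nor_pow hP hzl hzr _).2.2.2.2
  · have h3 : a k - ∑ j ∈ Finset.range k, a j * (t' j * z ^ (n k - n j)) =
        (a k - b k * z ^ n k) + ∑ j ∈ Finset.range k,
          (b j * ((t j * z ^ n j - z ^ n j * t' j) * z ^ (n k - n j)) -
            (a j - b j * z ^ n j) * (t' j * z ^ (n k - n j))) := by
      have h4 : b k * z ^ n k = ∑ j ∈ Finset.range k, b j * (t j * z ^ n j * z ^ (n k - n j)) := by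
        rw [ht, Finset.sum_mul]
        refine Finset.sum_congr rfl fun j hj => ?_
        rw [Finset.mem_range] at hj
        have h5 := (hn hj).le
        rw [mul_assoc (t j), ← pow_add, Nat.add_sub_cancel' h5, mul_assoc]
      rw [h4, sub_add, sub_right_inj, ← Finset.sum_sub_distrib]
      refine Finset.sum_congr rfl fun j _ => ?_
      noncomm_ring
    rw [h3]
    refine P.add_mem (hb k) (P.sum_mem fun j _ => P.sub_mem ?_ ?_)
    · exact P.mul_mem_left _ (hP.mul_mem_of_left _ (ht' j))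
    · exact hP.mul_mem_of_left _ (hb j)

theorem LNP_nor [IsNoetherianRing T] {P : Ideal T} (hP : P.IsTwoSided) {z : T}
    (hzl : ∀ t, ∃ t', z * t - t' * z ∈ P) (hzr : ∀ t, ∃ t', t * z - z * t' ∈ P) :
    LNP (Ideal.span {z} ⊔ P) P := by
  intro n a hn ha
  have hF := nor_two hP hzl
  choose b hb using fun k => (nor_pow hP hzl hzr (n k)).2.1 (a k) (ha k)
  -- the left ideals generated by the first elements `b`
  set A : ℕ →o Ideal T :=
    { toFun := fun k => Ideal.span (b '' {j | j < k})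
      monotone' := by
        intro i j hij
        apply Ideal.span_mono
        rintro _ ⟨l, hl, rfl⟩
        exact ⟨l, lt_of_lt_of_le hl hij, rfl⟩ } with hA
  obtain ⟨k, hk⟩ := monotone_stabilizes_iff_noetherian.mpr
    (inferInstance : IsNoetherian T T) A
  have h1 : b k ∈ A k := by
    rw [hk (k + 1) (Nat.le_succ k)]
    exact Ideal.subset_span ⟨k, Nat.lt_succ_self k, rfl⟩
  have h2 : ∀ q ∈ A k, ∃ t : ℕ → T, q = ∑ j ∈ Finset.range k, t j * b j := by
    intro q hq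
    change q ∈ Submodule.span T _ at hq
    induction hq using Submodule.span_induction with
    | mem q hq =>
      obtain ⟨l, hl, rfl⟩ := hq
      refine ⟨fun j => if j = l then 1 else 0, ?_⟩
      have h3 : l ∈ Finset.range k := Finset.mem_range.mpr hl
      simp [Finset.sum_ite_eq', h3]
    | zero => exact ⟨fun _ => 0, by simp⟩
    | add p q _ _ hp hq =>
      obtain ⟨s, hs⟩ := hp
      obtain ⟨t, ht⟩ := hq
      refine ⟨fun j => s j + t j, ?_⟩
      rw [hs, ht, ← Finset.sum_add_distrib]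
      exact Finset.sum_congr rfl fun j _ => (add_mul _ _ _).symm
    | smul r p _ hp =>
      obtain ⟨s, hs⟩ := hp
      refine ⟨fun j => r * s j, ?_⟩
      rw [smul_eq_mul, hs, Finset.mul_sum]
      exact Finset.sum_congr rfl fun j _ => (mul_assoc _ _ _).symm
  obtain ⟨t, ht⟩ := h2 _ h1
  choose t' ht' using fun j => (nor_pow hP hzl hzr (n j)).2.2.1 (t j)
  refine ⟨k, fun j => z ^ (n k - n j) * t' j, fun j _ => ?_, Ideal.mem_sup_right ?_⟩
  · exact (pw_two hF _).mul_mem_of_left _ (nor_pow hP hzl hzr _).2.2.2.2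
  · have h3 : a k - ∑ j ∈ Finset.range k, z ^ (n k - n j) * t' j * a j =
        (a k - z ^ n k * b k) + ∑ j ∈ Finset.range k,
          (z ^ (n k - n j) * (z ^ n j * t j - t' j * z ^ n j) * b j -
            z ^ (n k - n j) * t' j * (a j - z ^ n j * b j)) := by
      have h4 : z ^ n k * b k = ∑ j ∈ Finset.range k, z ^ (n k - n j) * (z ^ n j * t j) * b j := by
        rw [ht, Finset.mul_sum]
        refine Finset.sum_congr rfl fun j hj => ?_
        rw [Finset.mem_range] at hj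
        have h5 := (hn hj).le
        rw [← mul_assoc (z ^ (n k - n j)), ← pow_add, Nat.sub_add_cancel h5, mul_assoc]
      rw [h4, sub_add, sub_right_inj, ← Finset.sum_sub_distrib]
      refine Finset.sum_congr rfl fun j _ => ?_
      noncomm_ring
    rw [h3]
    refine P.add_mem (hb k) (P.sum_mem fun j _ => P.sub_mem ?_ ?_)
    · exact hP.mul_mem_of_left _ (P.mul_mem_left _ (ht' j))
    · exact P.mul_mem_left _ (hb j)


theorem grAt_of_nor [IsNoetherianRing T] [IsNoetherianRing Tᵐᵒᵖ] {P : Ideal T}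
    (hP : P.IsTwoSided) (hp : ∀ a b : T, (∀ t, a * t * b ∈ P) → a ∈ P ∨ b ∈ P)
    (h : ∀ I : Ideal T, I.IsTwoSided → ¬ I ≤ P →
      ∃ J : Ideal T, J.IsTwoSided ∧ J ≤ I ∧ ¬ J ≤ P ∧
        ∃ z : T, z ∉ P ∧ (∀ t, ∃ t', z * t - t' * z ∈ P) ∧ (∀ t, ∃ t', t * z - z * t' ∈ P) ∧
          (∀ j ∈ J, ∃ j' ∈ J, z * j - j' * z ∈ P) ∧ (∀ j ∈ J, ∃ j' ∈ J, j * z - z * j' ∈ P) ∧
            ∀ j ∈ J, z * j ∈ J * J ⊔ P) : GrAt P := by
  refine grAt_of_jf hP hp fun I hI hIP => ?_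
  obtain ⟨J, hJ, hJI, hJP, z, hz, hzl, hzr, hjl, hjr, hzJ⟩ := h I hI hIP
  have hzF : z ∈ Ideal.span {z} ⊔ P := Ideal.mem_sup_left (Ideal.mem_span_singleton_self z)
  refine ⟨J, hJ, hJI, hJP, Ideal.span {z} ⊔ P, nor_two hP hzl, fun hle => hz (hle hzF),
    RNP_nor hP hzl hzr, LNP_nor hP hzl hzr, ?_, ?_, ?_⟩
  · rw [Ideal.mul_le]
    intro a ha j hj
    obtain ⟨c, hc, p, hp, rfl⟩ := Submodule.mem_sup.mp ha
    obtain ⟨r, rfl⟩ := Ideal.mem_span_singleton'.mp hc
    obtain ⟨j', hj', hjj⟩ := hjl j hj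
    have h1 : (r * z + p) * j = r * j' * z + (r * (z * j - j' * z) + p * j) := by noncomm_ring
    rw [h1]
    refine Submodule.add_mem_sup (Ideal.mul_mem_mul (J.mul_mem_left r hj') hzF) ?_
    exact P.add_mem (P.mul_mem_left _ hjj) (hP.mul_mem_of_left _ hp)
  · rw [Ideal.mul_le]
    intro j hj a ha
    obtain ⟨c, hc, p, hp, rfl⟩ := Submodule.mem_sup.mp ha
    obtain ⟨r, rfl⟩ := Ideal.mem_span_singleton'.mp hc
    obtain ⟨j', hj', hjj⟩ := hjr (j * r) (hJ.mul_mem_of_left r hj)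
    have h1 : j * (r * z + p) = z * j' + ((j * r * z - z * j') + j * p) := by noncomm_ring
    rw [h1]
    refine Submodule.add_mem_sup (Ideal.mul_mem_mul hzF hj') ?_
    exact P.add_mem hjj (P.mul_mem_left _ hp)
  · rw [Ideal.mul_le]
    intro a ha j hj
    obtain ⟨c, hc, p, hp, rfl⟩ := Submodule.mem_sup.mp ha
    obtain ⟨r, rfl⟩ := Ideal.mem_span_singleton'.mp hc
    rw [add_mul, mul_assoc]
    exact Ideal.add_mem _ (Ideal.mul_mem_left _ _ (hzJ j hj))
      (Ideal.mem_sup_right (hP.mul_mem_of_left _ hp))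

theorem grd_of_nor [IsNoetherianRing T] [IsNoetherianRing Tᵐᵒᵖ] (h : Nor T) : Grd T :=
  fun P hP hp => Or.inr (grAt_of_nor hP hp (h P hP hp))

theorem locGrd_of_locNor (h : LocNor T) : LocGrd T := by
  intro s
  obtain ⟨T0, hs, h1, h2, h3⟩ := h s
  exact ⟨T0, hs, h1, h2, grd_of_nor h3⟩

end Nor

end SepGr
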