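import Pool.Agent.Lib.MP_dccecd_al.GrRk

/-! Filtrations by ideals with noetherian associated graded ring: graded ideals and the chain
condition (for MP_dccecd_al, the graded base theorem). -/

open SepReg SepFin SepNoe

namespace SepGr

universe u v w

section Flt
variable {T : Type v} [Ring T]

/-- filtrations by ideals -/
structure Flt (F : ℕ → Ideal T) : Prop where
  two : ∀ n, (F n).IsTwoSided
  top : F 0 = ⊤
  anti : ∀ n, F (n + 1) ≤ F n
  mul : ∀ m n, ∀ a ∈ F m, ∀ b ∈ F n, a * b ∈ F (m + n)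

theorem Flt.z {F : ℕ → Ideal T} (hF : Flt F) (t : T) : t ∈ F 0 := by
  rw [hF.top]
  exact Submodule.mem_top

theorem Flt.le {F : ℕ → Ideal T} (hF : Flt F) {m n : ℕ} (h : m ≤ n) : F n ≤ F m := by
  obtain ⟨k, rfl⟩ := Nat.exists_eq_add_of_le h
  induction k with
  | zero => exact le_rfl
  | succ k ih => exact (hF.anti (m + k)).trans (ih (Nat.le_add_right m k))

theorem Flt.mul' {F : ℕ → Ideal T} (hF : Flt F) {m n : ℕ} {a b : T} (ha : a ∈ F m)
    (hb : b ∈ F n) : a * b ∈ F (m + n) := hF.mul m n a ha b hb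

theorem Flt.r {F : ℕ → Ideal T} (hF : Flt F) {n : ℕ} {a : T} (ha : a ∈ F n) (b : T) :
    a * b ∈ F n := (hF.two n).mul_mem_of_left b ha

end Flt

section Fam
variable {T : Type v} [Ring T]

/-- the associated graded ring is noetherian on the right -/
def RN (F : ℕ → Ideal T) : Prop :=
  ∀ (n : ℕ → ℕ) (a : ℕ → T), StrictMono n → (∀ k, a k ∈ F (n k)) →
    ∃ k, ∃ c : ℕ → T, (∀ j < k, c j ∈ F (n k - n j)) ∧
      a k - ∑ j ∈ Finset.range k, a j * c j ∈ F (n k + 1)

/-- the associated graded ring is noetherian on the left -/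
def LN (F : ℕ → Ideal T) : Prop :=
  ∀ (n : ℕ → ℕ) (a : ℕ → T), StrictMono n → (∀ k, a k ∈ F (n k)) →
    ∃ k, ∃ c : ℕ → T, (∀ j < k, c j ∈ F (n k - n j)) ∧
      a k - ∑ j ∈ Finset.range k, c j * a j ∈ F (n k + 1)

/-- graded right ideals -/
structure RFam (F : ℕ → Ideal T) (I : ℕ → AddSubgroup T) : Prop where
  le : ∀ n, ∀ a ∈ I n, a ∈ F n
  ge : ∀ n, ∀ a ∈ F (n + 1), a ∈ I n
  mul : ∀ n j, ∀ a ∈ I n, ∀ t ∈ F j, a * t ∈ I (n + j)

/-- graded left ideals -/
structure LFam (F : ℕ → Ideal T) (I : ℕ → AddSubgroup T) : Prop where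
  le : ∀ n, ∀ a ∈ I n, a ∈ F n
  ge : ∀ n, ∀ a ∈ F (n + 1), a ∈ I n
  mul : ∀ n j, ∀ a ∈ I n, ∀ t ∈ F j, t * a ∈ I (n + j)

theorem subseq_cases (n : ℕ → ℕ) : (∃ N, ∀ m, ∃ k, m ≤ k ∧ n k = N) ∨
    ∃ κ : ℕ → ℕ, StrictMono κ ∧ StrictMono (n ∘ κ) := by
  by_cases h : ∃ N, ∀ m, ∃ k, m ≤ k ∧ n k = N
  · exact Or.inl h
  · right
    push Not at h
    apply Filter.strictMono_subseq_of_tendsto_atTop
    rw [Filter.tendsto_atTop_atTop]
    intro b
    induction b with
    | zero => exact ⟨0, fun a _ => Nat.zero_le _⟩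
    | succ b ih =>
      obtain ⟨i, hi⟩ := ih
      obtain ⟨m, hm⟩ := h b
      refine ⟨max i m, fun a ha => ?_⟩
      have h1 := hi a ((le_max_left _ _).trans ha)
      have h2 := hm a ((le_max_right _ _).trans ha)
      omega

theorem no_chain_R [IsNoetherianRing Tᵐᵒᵖ] {F : ℕ → Ideal T} (hF : Flt F) (hRN : RN F)
    (G : ℕ → ℕ → AddSubgroup T) (hG : ∀ k, RFam F (G k)) (hlt : ∀ k, G k < G (k + 1)) : False := by
  have hmono : Monotone G := monotone_nat_of_le_succ fun k => (hlt k).le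
  have h1 : ∀ k, ∃ n b, b ∈ G (k + 1) n ∧ b ∉ G k n := by
    intro k
    obtain ⟨-, n, hn⟩ := Pi.lt_def.mp (hlt k)
    obtain ⟨b, hb, hb'⟩ := SetLike.exists_of_lt hn
    exact ⟨n, b, hb, hb'⟩
  choose n b hb hb' using h1
  rcases subseq_cases n with ⟨N, hN⟩ | ⟨κ, hκ, hnκ⟩
  · set A : ℕ →o Ideal Tᵐᵒᵖ :=
      { toFun := fun k =>
          { carrier := {t | t.unop ∈ G k N}
            add_mem' := fun {a b} ha hb => (G k N).add_mem ha hb
            zero_mem' := (G k N).zero_mem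
            smul_mem' := fun r t ht => by
              have h2 := (hG k).mul N 0 _ ht r.unop (hF.z _)
              exact h2 }
        monotone' := fun i j hij t ht => hmono hij N ht } with hA
    obtain ⟨m, hm⟩ := monotone_stabilizes_iff_noetherian.mpr
      (inferInstance : IsNoetherian Tᵐᵒᵖ Tᵐᵒᵖ) A
    obtain ⟨k, hk, hkN⟩ := hN m
    have h2 : MulOpposite.op (b k) ∈ A (k + 1) := by
      change b k ∈ G (k + 1) N
      rw [← hkN]
      exact hb k
    rw [← hm (k + 1) (hk.trans (Nat.le_succ k)), hm k hk] at h2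
    apply hb' k
    rw [hkN]
    exact h2
  · obtain ⟨k, c, hc, hk⟩ := hRN (n ∘ κ) (b ∘ κ) hnκ (fun k => (hG _).le _ _ (hb _))
    apply hb' (κ k)
    have h2 : b (κ k) = (b (κ k) - ∑ j ∈ Finset.range k, b (κ j) * c j) +
        ∑ j ∈ Finset.range k, b (κ j) * c j := by abel
    rw [h2]
    refine AddSubgroup.add_mem _ ((hG (κ k)).ge _ _ hk) (AddSubgroup.sum_mem _ fun j hj => ?_)
    rw [Finset.mem_range] at hj
    have h3 : b (κ j) ∈ G (κ k) (n (κ j)) := hmono (Nat.succ_le_of_lt (hκ hj)) _ (hb (κ j))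
    have h4 := (hG (κ k)).mul _ _ _ h3 (c j) (hc j hj)
    have h5 : n (κ j) + ((n ∘ κ) k - (n ∘ κ) j) = n (κ k) := by
      have h6 := hnκ.monotone hj.le
      change n (κ j) ≤ n (κ k) at h6
      change n (κ j) + (n (κ k) - n (κ j)) = n (κ k)
      omega
    rwa [h5] at h4

theorem no_chain_L [IsNoetherianRing T] {F : ℕ → Ideal T} (hF : Flt F) (hLN : LN F)
    (G : ℕ → ℕ → AddSubgroup T) (hG : ∀ k, LFam F (G k)) (hlt : ∀ k, G k < G (k + 1)) : False := by
  have hmono : Monotone G := monotone_nat_of_le_succ fun k => (hlt k).le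
  have h1 : ∀ k, ∃ n b, b ∈ G (k + 1) n ∧ b ∉ G k n := by
    intro k
    obtain ⟨-, n, hn⟩ := Pi.lt_def.mp (hlt k)
    obtain ⟨b, hb, hb'⟩ := SetLike.exists_of_lt hn
    exact ⟨n, b, hb, hb'⟩
  choose n b hb hb' using h1
  rcases subseq_cases n with ⟨N, hN⟩ | ⟨κ, hκ, hnκ⟩
  · set A : ℕ →o Ideal T :=
      { toFun := fun k =>
          { carrier := {t | t ∈ G k N}
            add_mem' := fun {a b} ha hb => (G k N).add_mem ha hb
            zero_mem' := (G k N).zero_mem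
            smul_mem' := fun r t ht => by
              have h2 := (hG k).mul N 0 _ ht r (hF.z _)
              exact h2 }
        monotone' := fun i j hij t ht => hmono hij N ht } with hA
    obtain ⟨m, hm⟩ := monotone_stabilizes_iff_noetherian.mpr
      (inferInstance : IsNoetherian T T) A
    obtain ⟨k, hk, hkN⟩ := hN m
    have h2 : b k ∈ A (k + 1) := by
      change b k ∈ G (k + 1) N
      rw [← hkN]
      exact hb k
    rw [← hm (k + 1) (hk.trans (Nat.le_succ k)), hm k hk] at h2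
    apply hb' k
    rw [hkN]
    exact h2
  · obtain ⟨k, c, hc, hk⟩ := hLN (n ∘ κ) (b ∘ κ) hnκ (fun k => (hG _).le _ _ (hb _))
    apply hb' (κ k)
    have h2 : b (κ k) = (b (κ k) - ∑ j ∈ Finset.range k, c j * b (κ j)) +
        ∑ j ∈ Finset.range k, c j * b (κ j) := by abel
    rw [h2]
    refine AddSubgroup.add_mem _ ((hG (κ k)).ge _ _ hk) (AddSubgroup.sum_mem _ fun j hj => ?_)
    rw [Finset.mem_range] at hj
    have h3 : b (κ j) ∈ G (κ k) (n (κ j)) := hmono (Nat.succ_le_of_lt (hκ hj)) _ (hb (κ j))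
    have h4 := (hG (κ k)).mul _ _ _ h3 (c j) (hc j hj)
    have h5 : n (κ j) + ((n ∘ κ) k - (n ∘ κ) j) = n (κ k) := by
      have h6 := hnκ.monotone hj.le
      change n (κ j) ≤ n (κ k) at h6
      change n (κ j) + (n (κ k) - n (κ j)) = n (κ k)
      omega
    rwa [h5] at h4

/-- induction over graded right ideals -/
theorem rfam_ind [IsNoetherianRing Tᵐᵒᵖ] {F : ℕ → Ideal T} (hF : Flt F) (hRN : RN F)
    {p : (ℕ → AddSubgroup T) → Prop}
    (h : ∀ I, RFam F I → (∀ I', RFam F I' → I < I' → p I') → p I) (I : ℕ → AddSubgroup T)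
    (hI : RFam F I) : p I := by
  by_contra hcon
  have step : ∀ I : {I : ℕ → AddSubgroup T // RFam F I ∧ ¬ p I},
      ∃ I' : {I : ℕ → AddSubgroup T // RFam F I ∧ ¬ p I}, I.1 < I'.1 := by
    rintro ⟨I, hI, hp⟩
    by_contra hno
    push Not at hno
    apply hp
    apply h I hI
    intro I' hI' hlt
    by_contra hp'
    exact hno ⟨I', hI', hp'⟩ hlt
  choose nx hnx using step
  set G : ℕ → {I : ℕ → AddSubgroup T // RFam F I ∧ ¬ p I} := fun k =>
    Nat.rec ⟨I, hI, hcon⟩ (fun _ J => nx J) k with hG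
  exact no_chain_R hF hRN (fun k => (G k).1) (fun k => (G k).2.1) (fun k => hnx _)

/-- induction over graded left ideals -/
theorem lfam_ind [IsNoetherianRing T] {F : ℕ → Ideal T} (hF : Flt F) (hLN : LN F)
    {p : (ℕ → AddSubgroup T) → Prop}
    (h : ∀ I, LFam F I → (∀ I', LFam F I' → I < I' → p I') → p I) (I : ℕ → AddSubgroup T)
    (hI : LFam F I) : p I := by
  by_contra hcon
  have step : ∀ I : {I : ℕ → AddSubgroup T // LFam F I ∧ ¬ p I},
      ∃ I' : {I : ℕ → AddSubgroup T // LFam F I ∧ ¬ p I}, I.1 < I'.1 := by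
    rintro ⟨I, hI, hp⟩
    by_contra hno
    push Not at hno
    apply hp
    apply h I hI
    intro I' hI' hlt
    by_contra hp'
    exact hno ⟨I', hI', hp'⟩ hlt
  choose nx hnx using step
  set G : ℕ → {I : ℕ → AddSubgroup T // LFam F I ∧ ¬ p I} := fun k =>
    Nat.rec ⟨I, hI, hcon⟩ (fun _ J => nx J) k with hG
  exact no_chain_L hF hLN (fun k => (G k).1) (fun k => (G k).2.1) (fun k => hnx _)

end Fam

end SepGr
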