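import Pool.Agent.Lib.MP_dccecd_al.GrFam

/-! Filtrations by ideals with noetherian associated graded ring: the last layer is dominated by the
images of `e` on the previous layers (for MP_dccecd_al, the graded base theorem). -/

open SepReg SepFin SepNoe

namespace SepGr

universe u v w

section Mul
variable {T : Type v} [Ring T] {R : Type u} [Ring R]

/-- the submodule generated by the images of the elements of `N` under the elements of `S` -/
def mulS (S : Set T) (C : Bim T R) (N : Submodule R C.X) : Submodule R C.X :=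
  ⨆ t ∈ S, N.map (C.act t)

theorem act_mem_mulS {S : Set T} {C : Bim T R} {N : Submodule R C.X} {t : T} (ht : t ∈ S)
    {x : C.X} (hx : x ∈ N) : C.act t x ∈ mulS S C N :=
  (le_iSup₂ (f := fun t (_ : t ∈ S) => N.map (C.act t)) t ht) ⟨x, hx, rfl⟩

theorem mulS_le {S : Set T} {C : Bim T R} {N N' : Submodule R C.X}
    (h : ∀ t ∈ S, ∀ x ∈ N, C.act t x ∈ N') : mulS S C N ≤ N' := by
  refine iSup₂_le fun t ht => ?_
  rintro _ ⟨x, hx, rfl⟩
  exact h t ht x hx

theorem mulS_fg [VNR R] [IsNoetherianRing Tᵐᵒᵖ] (S : Set T) (C : Bim T R) {N : Submodule R C.X}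
    (hN : N.FG) (hs : ∀ t, ∀ x ∈ N, C.act t x ∈ N) : (mulS S C N).FG := by
  have i1 := fin_of_fg hN
  have i2 := proj_of_fg N hN
  have h1 : mulS S C N = (mulC S (C.sub N hs)).map N.subtype := by
    apply le_antisymm
    · apply mulS_le
      intro t ht x hx
      exact ⟨(C.sub N hs).act t ⟨x, hx⟩, act_mem_mulC ht _, rfl⟩
    · rw [Submodule.map_le_iff_le_comap]
      apply mulC_le
      intro t ht x
      exact act_mem_mulS ht x.2
  rw [h1]
  exact (Module.Finite.iff_fg.mp (mulC_fin S (C.sub N hs))).map _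

/-- graded modules, given as subquotients of a module -/
structure GMod (F : ℕ → Ideal T) (C : Bim T R) (A B : ℕ → Submodule R C.X) : Prop where
  fa : ∀ n, (A n).FG
  fb : ∀ n, (B n).FG
  ma : ∀ n j, ∀ t ∈ F j, ∀ x ∈ A n, C.act t x ∈ A (n + j)
  mb : ∀ n j, ∀ t ∈ F j, ∀ x ∈ B n, C.act t x ∈ B (n + j)
  le : ∀ n, B n ≤ A n

/-- graded modules killed by a graded ideal -/
def Kil (K : ℕ → AddSubgroup T) (C : Bim T R) (A B : ℕ → Submodule R C.X) : Prop :=
  ∀ τ n, ∀ t ∈ K τ, ∀ x ∈ A n, C.act t x ∈ B (n + τ)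

/-- graded modules generated in degree zero -/
def Gen (F : ℕ → Ideal T) (C : Bim T R) (A B : ℕ → Submodule R C.X) : Prop :=
  ∀ n, A n ≤ mulS (F n : Set T) C (A 0) ⊔ B n

variable {F : ℕ → Ideal T} {C : Bim T R} {A B : ℕ → Submodule R C.X}

theorem GMod.sa (hF : Flt F) (h : GMod F C A B) (n : ℕ) (t : T) :
    ∀ x ∈ A n, C.act t x ∈ A n := fun x hx => h.ma n 0 t (hF.z t) x hx

theorem GMod.sb (hF : Flt F) (h : GMod F C A B) (n : ℕ) (t : T) :
    ∀ x ∈ B n, C.act t x ∈ B n := fun x hx => h.mb n 0 t (hF.z t) x hx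

/-- the product of a graded ideal with a graded module -/
def gm (I : ℕ → AddSubgroup T) (C : Bim T R) (A B : ℕ → Submodule R C.X) (n : ℕ) :
    Submodule R C.X :=
  B n ⊔ ⨆ τ ∈ Finset.range (n + 1), mulS (I τ : Set T) C (A (n - τ))

theorem gm_le {I : ℕ → AddSubgroup T} {n : ℕ} {N : Submodule R C.X} (hB : B n ≤ N)
    (h : ∀ τ, τ ≤ n → ∀ t ∈ I τ, ∀ x ∈ A (n - τ), C.act t x ∈ N) : gm I C A B n ≤ N := by
  refine sup_le hB (iSup₂_le fun τ hτ => mulS_le fun t ht x hx => ?_)
  rw [Finset.mem_range] at hτ
  exact h τ (Nat.lt_succ_iff.mp hτ) t ht x hx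

theorem le_gm (I : ℕ → AddSubgroup T) (n : ℕ) : B n ≤ gm I C A B n := le_sup_left

theorem mem_gm {I : ℕ → AddSubgroup T} {n τ : ℕ} (hτ : τ ≤ n) {t : T} (ht : t ∈ I τ) {x : C.X}
    (hx : x ∈ A (n - τ)) : C.act t x ∈ gm I C A B n := by
  have h1 : mulS (I τ : Set T) C (A (n - τ)) ≤ gm I C A B n :=
    (le_iSup₂ (f := fun τ (_ : τ ∈ Finset.range (n + 1)) => mulS (I τ : Set T) C (A (n - τ))) τ
      (Finset.mem_range.mpr (Nat.lt_succ_iff.mpr hτ))).trans le_sup_right
  exact h1 (act_mem_mulS ht hx)

theorem gm_fg [VNR R] [IsNoetherianRing Tᵐᵒᵖ] (hF : Flt F) (h : GMod F C A B) (I : ℕ → AddSubgroup T) (n : ℕ) :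
    (gm I C A B n).FG := by
  refine (h.fb n).sup (Submodule.fg_biSup _ _ fun τ _ => ?_)
  exact mulS_fg _ C (h.fa _) (h.sa hF _)

theorem gm_kil {K : ℕ → AddSubgroup T} (hk : Kil K C A B) (n : ℕ) : gm K C A B n = B n := by
  apply le_antisymm _ (le_gm K n)
  refine gm_le le_rfl fun τ hτ t ht x hx => ?_
  have h1 := hk τ (n - τ) t ht x hx
  rwa [Nat.sub_add_cancel hτ] at h1

/-- the quotient of a graded module by a graded ideal -/
theorem gmod_quo [VNR R] [IsNoetherianRing Tᵐᵒᵖ] (hF : Flt F) (h : GMod F C A B) {I : ℕ → AddSubgroup T}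
    (hI : LFam F I) : GMod F C A (gm I C A B) := by
  refine ⟨h.fa, gm_fg hF h I, h.ma, ?_, ?_⟩
  · intro n j t ht x hx
    have h1 : gm I C A B n ≤ (gm I C A B (n + j)).comap (C.act t) := by
      refine gm_le ?_ ?_
      · intro x hx
        exact le_gm I (n + j) (h.mb n j t ht x hx)
      · intro τ hτ s hs x hx
        rw [Submodule.mem_comap, ← C.act_mul]
        refine mem_gm (τ := τ + j) (by omega) (hI.mul τ j s hs t ht) ?_
        rwa [show n + j - (τ + j) = n - τ by omega]
    exact h1 hx
  · intro n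
    refine gm_le (h.le n) fun τ hτ t ht x hx => ?_
    have h1 := h.ma (n - τ) τ t (hI.le τ t ht) x hx
    rwa [Nat.sub_add_cancel hτ] at h1

theorem kil_quo (I : ℕ → AddSubgroup T) : Kil I C A (gm I C A B) := by
  intro τ n t ht x hx
  refine mem_gm (Nat.le_add_left τ n) ht ?_
  rwa [Nat.add_sub_cancel]

theorem gen_quo (h : Gen F C A B) (I : ℕ → AddSubgroup T) :
    Gen F C A (gm I C A B) := fun n => (h n).trans (sup_le_sup le_rfl (le_gm I n))

end Mul

section Ideals
variable {T : Type v} [Ring T] {F : ℕ → Ideal T}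

/-- the graded ideal generated by `K` and the elements `x e y` with `x` of degree larger than `M` -/
def fek (F : ℕ → Ideal T) (K : ℕ → AddSubgroup T) (e : T) (M n : ℕ) : AddSubgroup T :=
  K n ⊔ AddSubgroup.closure {t | ∃ i j x y, i + j = n ∧ M < i ∧ x ∈ F i ∧ y ∈ F j ∧
    x * e * y = t}

theorem le_fek (K : ℕ → AddSubgroup T) (e : T) (M n : ℕ) : K n ≤ fek F K e M n := le_sup_left

theorem mem_fek {K : ℕ → AddSubgroup T} {e : T} {M i j : ℕ} (hM : M < i) {x y : T}
    (hx : x ∈ F i) (hy : y ∈ F j) : x * e * y ∈ fek F K e M (i + j) :=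
  (le_sup_right : AddSubgroup.closure _ ≤ fek F K e M (i + j))
    (AddSubgroup.subset_closure ⟨i, j, x, y, rfl, hM, hx, hy, rfl⟩)

theorem fek_le {K : ℕ → AddSubgroup T} {e : T} {M n : ℕ} {W : AddSubgroup T} (hK : K n ≤ W)
    (h : ∀ i j x y, i + j = n → M < i → x ∈ F i → y ∈ F j → x * e * y ∈ W) :
    fek F K e M n ≤ W := by
  refine sup_le hK ?_
  rw [AddSubgroup.closure_le]
  rintro _ ⟨i, j, x, y, hij, hM, hx, hy, rfl⟩
  exact h i j x y hij hM hx hy

theorem rfam_fek (hF : Flt F) {K : ℕ → AddSubgroup T} (hK : RFam F K) (e : T) (M : ℕ) :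
    RFam F (fek F K e M) := by
  refine ⟨?_, fun n a ha => le_fek K e M n (hK.ge n a ha), ?_⟩
  · intro n a ha
    have h1 : fek F K e M n ≤ (F n).toAddSubgroup := by
      refine fek_le (fun a ha => hK.le n a ha) ?_
      rintro i j x y rfl hM hx hy
      change x * e * y ∈ F (i + j)
      exact hF.mul' (hF.r hx e) hy
    exact h1 ha
  · intro n j a ha t ht
    have h1 : fek F K e M n ≤ (fek F K e M (n + j)).comap (AddMonoidHom.mulRight t) := by
      refine fek_le ?_ ?_
      · intro a ha
        exact le_fek K e M (n + j) (hK.mul n j a ha t ht)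
      · rintro i j' x y rfl hM hx hy
        change x * e * y * t ∈ fek F K e M (i + j' + j)
        rw [mul_assoc, add_assoc]
        exact mem_fek hM hx (hF.mul' hy ht)
    exact h1 ha

theorem lfam_fek (hF : Flt F) {K : ℕ → AddSubgroup T} (hK : LFam F K) (e : T) (M : ℕ) :
    LFam F (fek F K e M) := by
  refine ⟨?_, fun n a ha => le_fek K e M n (hK.ge n a ha), ?_⟩
  · intro n a ha
    have h1 : fek F K e M n ≤ (F n).toAddSubgroup := by
      refine fek_le (fun a ha => hK.le n a ha) ?_
      rintro i j x y rfl hM hx hy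
      change x * e * y ∈ F (i + j)
      exact hF.mul' (hF.r hx e) hy
    exact h1 ha
  · intro n j a ha t ht
    have h1 : fek F K e M n ≤ (fek F K e M (n + j)).comap (AddMonoidHom.mulLeft t) := by
      refine fek_le ?_ ?_
      · intro a ha
        exact le_fek K e M (n + j) (hK.mul n j a ha t ht)
      · rintro i j' x y rfl hM hx hy
        change t * (x * e * y) ∈ fek F K e M (i + j' + j)
        rw [← mul_assoc, ← mul_assoc, show i + j' + j = (j + i) + j' by omega]
        exact mem_fek (by omega) (hF.mul' ht hx) hy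
    exact h1 ha

/-- the graded right ideal generated by `I` and an element of degree `τ` -/
def radd (F : ℕ → Ideal T) (I : ℕ → AddSubgroup T) (g : T) (τ n : ℕ) : AddSubgroup T :=
  I n ⊔ AddSubgroup.closure {t | ∃ y, τ ≤ n ∧ y ∈ F (n - τ) ∧ g * y = t}

theorem le_radd (I : ℕ → AddSubgroup T) (g : T) (τ n : ℕ) : I n ≤ radd F I g τ n := le_sup_left

theorem mem_radd (hF : Flt F) (I : ℕ → AddSubgroup T) (g : T) (τ : ℕ) : g ∈ radd F I g τ τ := by
  refine (le_sup_right : AddSubgroup.closure _ ≤ radd F I g τ τ) (AddSubgroup.subset_closure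
    ⟨1, le_rfl, ?_, mul_one g⟩)
  rw [Nat.sub_self]
  exact hF.z 1

theorem radd_le {I : ℕ → AddSubgroup T} {g : T} {τ n : ℕ} {W : AddSubgroup T} (hI : I n ≤ W)
    (h : ∀ y, τ ≤ n → y ∈ F (n - τ) → g * y ∈ W) : radd F I g τ n ≤ W := by
  refine sup_le hI ?_
  rw [AddSubgroup.closure_le]
  rintro _ ⟨y, hn, hy, rfl⟩
  exact h y hn hy

theorem rfam_radd (hF : Flt F) {I : ℕ → AddSubgroup T} (hI : RFam F I) {g : T} {τ : ℕ}
    (hg : g ∈ F τ) : RFam F (radd F I g τ) := by
  refine ⟨?_, fun n a ha => le_radd I g τ n (hI.ge n a ha), ?_⟩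
  · intro n a ha
    have h1 : radd F I g τ n ≤ (F n).toAddSubgroup := by
      refine radd_le (fun a ha => hI.le n a ha) ?_
      intro y hn hy
      change g * y ∈ F n
      have h2 := hF.mul' hg hy
      rwa [show τ + (n - τ) = n by omega] at h2
    exact h1 ha
  · intro n j a ha t ht
    have h1 : radd F I g τ n ≤ (radd F I g τ (n + j)).comap (AddMonoidHom.mulRight t) := by
      refine radd_le ?_ ?_
      · intro a ha
        exact le_radd I g τ (n + j) (hI.mul n j a ha t ht)
      · intro y hn hy
        change g * y * t ∈ radd F I g τ (n + j)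
        refine (le_sup_right : AddSubgroup.closure _ ≤ radd F I g τ (n + j))
          (AddSubgroup.subset_closure ⟨y * t, hn.trans (Nat.le_add_right n j), ?_,
            (mul_assoc _ _ _).symm⟩)
        have h2 := hF.mul' hy ht
        rwa [show n - τ + j = n + j - τ by omega] at h2
    exact h1 ha

end Ideals

section Flow
variable {T : Type v} [Ring T] {R : Type u} [Ring R] [VNR R] [IsNoetherianRing T]
  [IsNoetherianRing Tᵐᵒᵖ] {F : ℕ → Ideal T}

/-- the class of the image of `e` on a component of a graded module -/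
noncomputable abbrev ep (C : Bim T R) (e : T) (A B : Submodule R C.X) : VR R :=
  rk (A.map (C.act e)) B

omit [VNR R] [IsNoetherianRing T] [IsNoetherianRing Tᵐᵒᵖ] in
theorem map_le_of_stable {C : Bim T R} {A : Submodule R C.X} {e : T}
    (h : ∀ x ∈ A, C.act e x ∈ A) : A.map (C.act e) ≤ A := by
  rintro _ ⟨x, hx, rfl⟩
  exact h x hx

/-- the statement of the absorption lemma -/
def AuxP (R : Type u) [Ring R] [VNR R] (F : ℕ → Ideal T) (e : T) (K I : ℕ → AddSubgroup T) : Prop :=
  (∀ n, K n ≤ I n) → ∀ m, ∃ M, m ≤ M ∧ ∀ (C : Bim T R) (A B : ℕ → Submodule R C.X),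
    GMod F C A B → Kil K C A B → ∀ N, M ≤ N →
      Le (ep C e (A N) (gm I C A B N))
        ((∑ τ ∈ Finset.Ioc m M, ep C e (A (N - τ)) (B (N - τ))) +
          ep C e (A N) (gm (fek F K e M) C A B N))

/-- absorption of the elements `e x e` -/
theorem flow_aux (hF : Flt F) (hRN : RN F) {e : T} (he : e * e = e)
    {K : ℕ → AddSubgroup T} (I : ℕ → AddSubgroup T) (hI : RFam F I) : AuxP R F e K I := by
  refine rfam_ind hF hRN (p := AuxP R F e K) ?_ I hI
  clear hI I
  intro I hI ih hKI m
  by_cases hb : ∀ τ, m < τ → ∀ x ∈ F τ, e * x * e ∈ I τ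
  · refine ⟨m, le_rfl, fun C A B hM hk N _ => ?_⟩
    rw [Finset.Ioc_self, Finset.sum_empty, zero_add]
    refine rk_anti ((hM.fa N).map _) (gm_fg hF hM _ N) (gm_fg hF hM _ N) ?_
    rintro _ ⟨hy, a, ha, rfl⟩
    have h1 : gm (fek F K e m) C A B N ≤ (gm I C A B N).comap (C.act e) := by
      refine gm_le ?_ ?_
      · intro x hx
        exact le_gm I N (hM.sb hF N e x hx)
      · intro τ hτ t ht x hx
        have h2 : fek F K e m τ ≤ ({ carrier := {t | C.act e (C.act t x) ∈ gm I C A B N}
                                     add_mem' := fun {a b} ha hb => by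
                                      change C.act e (C.act (a + b) x) ∈ gm I C A B N
                                      rw [map_add, LinearMap.add_apply, map_add]
                                      exact Submodule.add_mem _ ha hb
                                     zero_mem' := by
                                      change C.act e (C.act 0 x) ∈ gm I C A B N
                                      rw [map_zero, LinearMap.zero_apply, map_zero]
                                      exact Submodule.zero_mem _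
                                     neg_mem' := fun {a} ha => by
                                      change C.act e (C.act (-a) x) ∈ gm I C A B N
                                      rw [map_neg, LinearMap.neg_apply, map_neg]
                                      exact Submodule.neg_mem _ ha } : AddSubgroup T) := by
          refine fek_le ?_ ?_
          · intro t ht
            have h3 := hk τ (N - τ) t ht x hx
            rw [Nat.sub_add_cancel hτ] at h3
            exact le_gm I N (hM.sb hF N e _ h3)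
          · rintro i j p q rfl hi hp hq
            change C.act e (C.act (p * e * q) x) ∈ gm I C A B N
            rw [← C.act_mul, ← mul_assoc, ← mul_assoc, C.act_mul]
            refine mem_gm (τ := i) (by omega) (hb i hi p hp) ?_
            have h3 := hM.ma (N - (i + j)) j q hq x hx
            rwa [show N - (i + j) + j = N - i by omega] at h3
        exact h2 ht
    have h2 := h1 hy
    rwa [Submodule.mem_comap, ← C.act_mul, he] at h2
  · push Not at hb
    obtain ⟨τ, hτ, x, hx, hxI⟩ := hb
    have hg : e * x * e ∈ F τ := hF.r ((F τ).mul_mem_left e hx) e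
    have hI' := rfam_radd hF hI hg
    have hlt : I < radd F I (e * x * e) τ := by
      rw [Pi.lt_def]
      refine ⟨fun n => le_radd I _ τ n, τ, lt_of_le_of_ne (le_radd I _ τ τ) fun h => hxI ?_⟩
      rw [h]
      exact mem_radd hF I _ τ
    obtain ⟨M, hM, h⟩ := ih _ hI' hlt (fun n => (hKI n).trans (le_radd I _ τ n)) τ
    refine ⟨M, hτ.le.trans hM, fun C A B hMod hk N hN => ?_⟩
    have h1 := h C A B hMod hk N hN
    have hle : gm I C A B N ≤ gm (radd F I (e * x * e) τ) C A B N := by
      refine gm_le (le_gm _ N) fun σ hσ t ht y hy => ?_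
      exact mem_gm hσ (le_radd I _ τ σ ht) hy
    refine (rk_tri ((hMod.fa N).map _) (gm_fg hF hMod _ N) (gm_fg hF hMod _ N) hle).trans ?_
    have hτN : τ ≤ N := hM.trans hN
    have h2 : Le (rk (gm (radd F I (e * x * e) τ) C A B N) (gm I C A B N))
        (ep C e (A (N - τ)) (B (N - τ))) := by
      refine rk_cmp' ((hMod.fa _).map _) (hMod.fb _) (gm_fg hF hMod _ N) (gm_fg hF hMod _ N)
        ((C.act (e * x * e)).comp ((A (N - τ)).map (C.act e)).subtype) ?_ ?_
      · rintro ⟨u, hu⟩ hu'
        have h3 := hMod.mb (N - τ) τ (e * x * e) hg u hu'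
        rw [Nat.sub_add_cancel hτN] at h3
        exact le_gm I N h3
      · intro y hy
        have h3 : gm (radd F I (e * x * e) τ) C A B N ≤ gm I C A B N ⊔
            ((A (N - τ)).map (C.act e)).map (C.act (e * x * e)) := by
          refine gm_le ((le_gm I N).trans le_sup_left) ?_
          intro σ hσ t ht y hy
          have h4 : radd F I (e * x * e) τ σ ≤
              ({ carrier := {t | C.act t y ∈ gm I C A B N ⊔
                  ((A (N - τ)).map (C.act e)).map (C.act (e * x * e))}
                 add_mem' := fun {a b} ha hb => by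
                  change C.act (a + b) y ∈ gm I C A B N ⊔
                    ((A (N - τ)).map (C.act e)).map (C.act (e * x * e))
                  rw [map_add, LinearMap.add_apply]
                  exact Submodule.add_mem _ ha hb
                 zero_mem' := by
                  change C.act 0 y ∈ gm I C A B N ⊔
                    ((A (N - τ)).map (C.act e)).map (C.act (e * x * e))
                  rw [map_zero, LinearMap.zero_apply]
                  exact Submodule.zero_mem _
                 neg_mem' := fun {a} ha => by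
                  change C.act (-a) y ∈ gm I C A B N ⊔
                    ((A (N - τ)).map (C.act e)).map (C.act (e * x * e))
                  rw [map_neg, LinearMap.neg_apply]
                  exact Submodule.neg_mem _ ha } : AddSubgroup T) := by
            refine radd_le ?_ ?_
            · intro t ht
              exact (le_sup_left : gm I C A B N ≤ _) (mem_gm hσ ht hy)
            · intro q hτσ hq
              refine (le_sup_right : ((A (N - τ)).map (C.act e)).map (C.act (e * x * e)) ≤ _) ?_
              refine ⟨C.act e (C.act q y), ⟨C.act q y, ?_, rfl⟩, ?_⟩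
              · have h5 := hMod.ma (N - σ) (σ - τ) q hq y hy
                rwa [show N - σ + (σ - τ) = N - τ by omega] at h5
              · rw [← C.act_mul, ← C.act_mul, mul_assoc (e * x), he]
          exact h4 ht
        obtain ⟨b, hb, c, hc, hbc⟩ := Submodule.mem_sup.mp (h3 hy)
        obtain ⟨u, hu, rfl⟩ := hc
        refine ⟨⟨u, hu⟩, ?_⟩
        have h4 : y - C.act (e * x * e) u = b := by rw [← hbc, add_sub_cancel_right]
        change y - C.act (e * x * e) u ∈ _
        rw [h4]
        exact hb
    refine (h1.add h2).trans ?_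
    have h3 : Le (∑ σ ∈ insert τ (Finset.Ioc τ M), ep C e (A (N - σ)) (B (N - σ)))
        (∑ σ ∈ Finset.Ioc m M, ep C e (A (N - σ)) (B (N - σ))) := by
      apply Le.sum_sub
      intro σ hσ
      rw [Finset.mem_insert, Finset.mem_Ioc] at hσ
      rw [Finset.mem_Ioc]
      omega
    rw [Finset.sum_insert (by simp)] at h3
    have h4 := Le.add h3 (Le.rfl' : Le (ep C e (A N) (gm (fek F K e M) C A B N)) _)
    refine Le.trans ?_ h4
    rw [add_right_comm, add_comm (∑ σ ∈ Finset.Ioc τ M, ep C e (A (N - σ)) (B (N - σ)))]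
    exact Le.rfl'

/-- elements `e y` of large degree -/
theorem exists_bound (hLN : LN F) {e : T} {K : ℕ → AddSubgroup T} (hK : LFam F K)
    {M : ℕ} (h : ∀ i j x y, M < i → x ∈ F i → y ∈ F j → x * e * y ∈ K (i + j)) :
    ∃ Q, ∀ n, Q ≤ n → ∀ y ∈ F n, e * y ∈ K n := by
  by_contra hcon
  push Not at hcon
  choose nx hnx y hy hyK using hcon
  set d : ℕ → ℕ := fun k => Nat.rec 0 (fun _ p => nx p + M + 1) k with hd
  have hd1 : ∀ k, d (k + 1) = nx (d k) + M + 1 := fun k => rfl
  set n : ℕ → ℕ := fun k => nx (d k) with hn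
  have hstep : ∀ k, n k + M + 1 ≤ n (k + 1) := by
    intro k
    have h1 := hnx (d (k + 1))
    rw [hd1] at h1
    exact h1
  have hmono : StrictMono n := strictMono_nat_of_lt_succ fun k => by
    have := hstep k
    omega
  have hgap : ∀ j k, j < k → n j + M + 1 ≤ n k := by
    intro j k hjk
    exact (hstep j).trans (hmono.monotone (Nat.succ_le_of_lt hjk))
  obtain ⟨k, c, hc, hk⟩ := hLN n (fun k => e * y (d k)) hmono
    (fun k => (F (n k)).mul_mem_left e (hy (d k)))
  apply hyK (d k)
  have h2 : e * y (d k) = (e * y (d k) - ∑ j ∈ Finset.range k, c j * (e * y (d j))) +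
      ∑ j ∈ Finset.range k, c j * (e * y (d j)) := by abel
  rw [h2]
  refine AddSubgroup.add_mem _ (hK.ge _ _ hk) (AddSubgroup.sum_mem _ fun j hj => ?_)
  rw [Finset.mem_range] at hj
  have h3 := hgap j k hj
  have h4 := h (n k - n j) (n j) (c j) (y (d j)) (by omega) (hc j hj) (hy (d j))
  rw [show n k - n j + n j = n k by omega, mul_assoc] at h4
  exact h4

/-- the statement of the theorem on layers -/
def FlowP (R : Type u) [Ring R] [VNR R] (F : ℕ → Ideal T) (e : T) (K : ℕ → AddSubgroup T) : Prop :=
  LFam F K → ∀ m, ∃ M, m ≤ M ∧ ∀ (C : Bim T R) (A B : ℕ → Submodule R C.X),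
    GMod F C A B → Kil K C A B → Gen F C A B → ∀ N, M ≤ N →
      Le (ep C e (A N) (B N)) (∑ τ ∈ Finset.Ioc m M, ep C e (A (N - τ)) (B (N - τ)))

/-- every layer is dominated by the images of `e` on finitely many of the previous layers -/
theorem flow (hF : Flt F) (hRN : RN F) (hLN : LN F) {e : T} (he : e * e = e)
    (K : ℕ → AddSubgroup T) (hK : RFam F K) : FlowP R F e K := by
  refine rfam_ind hF hRN (p := FlowP R F e) ?_ K hK
  clear hK K
  intro K hK ih hKL m
  obtain ⟨M1, hM1, h1⟩ := flow_aux (R := R) hF hRN he K hK (fun n => le_rfl) m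
  by_cases hle : fek F K e M1 ≤ K
  · obtain ⟨Q, hQ⟩ := exists_bound hLN (e := e) hKL (M := M1) (fun i j x y hi hx hy =>
      hle (i + j) (mem_fek hi hx hy))
    refine ⟨max M1 Q, hM1.trans (le_max_left _ _), fun C A B hMod hk hD N hN => ?_⟩
    have hNQ : Q ≤ N := (le_max_right M1 Q).trans hN
    have h2 : (A N).map (C.act e) ≤ B N := by
      rintro _ ⟨a, ha, rfl⟩
      have h4 : mulS (F N : Set T) C (A 0) ⊔ B N ≤ (B N).comap (C.act e) := by
        refine sup_le (mulS_le ?_) ?_
        · intro t ht y hy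
          rw [Submodule.mem_comap, ← C.act_mul]
          have h5 := hk N 0 (e * t) (hQ N hNQ t ht) y hy
          rwa [zero_add] at h5
        · intro y hy
          exact hMod.sb hF N e y hy
      exact h4 (hD N ha)
    change Le (rk _ _) _
    rw [rk_bot ((hMod.fa N).map _) (hMod.fb N) h2]
    exact ⟨_, zero_add _⟩
  · have hlt : K < fek F K e M1 := lt_of_le_not_ge (fun n => le_fek K e M1 n) hle
    obtain ⟨M2, hM2, h2⟩ := ih _ (rfam_fek hF hK e M1) hlt (lfam_fek hF hKL e M1) M1
    refine ⟨M2, hM1.trans hM2, fun C A B hMod hk hD N hN => ?_⟩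
    have h3 := h1 C A B hMod hk N (hM2.trans hN)
    rw [gm_kil hk] at h3
    have h4 := h2 C A _ (gmod_quo hF hMod (lfam_fek hF hKL e M1)) (kil_quo _) (gen_quo hD _) N hN
    refine h3.trans ?_
    have h5 : Le (∑ τ ∈ Finset.Ioc M1 M2, ep C e (A (N - τ)) (gm (fek F K e M1) C A B (N - τ)))
        (∑ τ ∈ Finset.Ioc M1 M2, ep C e (A (N - τ)) (B (N - τ))) := by
      apply Le.sum
      intro τ _
      exact rk_anti ((hMod.fa _).map _) (hMod.fb _) (gm_fg hF hMod _ _)
        (inf_le_left.trans (le_gm _ _))
    refine (Le.rfl'.add (h4.trans h5)).trans ?_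
    have h6 : ∑ τ ∈ Finset.Ioc m M2, ep C e (A (N - τ)) (B (N - τ)) =
        ∑ τ ∈ Finset.Ioc m M1, ep C e (A (N - τ)) (B (N - τ)) +
          ∑ τ ∈ Finset.Ioc M1 M2, ep C e (A (N - τ)) (B (N - τ)) := by
      rw [← Finset.Ioc_union_Ioc_eq_Ioc hM1 hM2, Finset.sum_union]
      rw [Finset.disjoint_left]
      intro τ h1 h2
      rw [Finset.mem_Ioc] at h1 h2
      omega
    rw [h6]
    exact Le.rfl'

end Flow

end SepGr
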