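import Pool.Agent.Lib.MP_dccecd_al.GrFlow

/-! Filtrations by the annihilators of the ideals of a filtration with noetherian associated graded
ring: the last layer is dominated by the images of `e` on the previous layers (for MP_dccecd_al, the
graded base theorem). -/

open SepReg SepFin SepNoe

namespace SepGr

universe u v w

section FG
variable {R : Type u} [Ring R] [VNR R]
  {P : Type u} [AddCommGroup P] [Module R P] [Module.Finite R P] [Module.Projective R P]
  {P' : Type u} [AddCommGroup P'] [Module R P'] [Module.Finite R P'] [Module.Projective R P']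

theorem fg_comap (f : P →ₗ[R] P') {V : Submodule R P'} (hV : V.FG) : (V.comap f).FG := by
  have h1 : V.comap f = LinearMap.ker (V.mkQ.comp f) := by
    rw [LinearMap.ker_comp, Submodule.ker_mkQ]
  have h2 := quo_of_fg hV
  rw [h1]
  exact Module.Finite.iff_fg.mp (inst_ker_fin _)

theorem fg_inf {U V : Submodule R P} (hU : U.FG) (hV : V.FG) : (U ⊓ V).FG := by
  have i1 := fin_of_fg hU
  have i2 := proj_of_fg U hU
  have h1 : U ⊓ V = (V.comap U.subtype).map U.subtype := by
    rw [Submodule.map_comap_subtype]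
  rw [h1]
  exact (fg_comap U.subtype hV).map _

theorem fg_biInf {U : Submodule R P} (hU : U.FG) (s : Finset ℕ) (W : ℕ → Submodule R P)
    (hW : ∀ i, (W i).FG) : (U ⊓ ⨅ i ∈ s, W i).FG := by
  classical
  induction s using Finset.induction_on with
  | empty =>
    have h1 : (⨅ i ∈ (∅ : Finset ℕ), W i) = ⊤ := by simp
    rw [h1, inf_top_eq]
    exact hU
  | insert a s ha ih =>
    rw [Finset.iInf_insert, inf_left_comm]
    exact fg_inf (hW a) ih

end FG

section An
variable {T : Type v} [Ring T] {R : Type u} [Ring R]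

/-- the elements of `A` which the elements of `S` map into `B` -/
def anS (S : Set T) (C : Bim T R) (A B : Submodule R C.X) : Submodule R C.X :=
  A ⊓ ⨅ t ∈ S, B.comap (C.act t)

theorem mem_anS {S : Set T} {C : Bim T R} {A B : Submodule R C.X} {x : C.X} :
    x ∈ anS S C A B ↔ x ∈ A ∧ ∀ t ∈ S, C.act t x ∈ B := by
  simp only [anS, Submodule.mem_inf, Submodule.mem_iInf, Submodule.mem_comap]

theorem anS_fg [VNR R] [IsNoetherianRing T] (S : Set T) (C : Bim T R) {A B : Submodule R C.X}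
    (hA : A.FG) (hB : B.FG) (hb : ∀ t, ∀ x ∈ B, C.act t x ∈ B) : (anS S C A B).FG := by
  have i := quo_of_fg hB
  have h1 : anS S C A B = A ⊓ (annC S (C.quo B hb)).comap B.mkQ := by
    ext x
    rw [mem_anS, Submodule.mem_inf, Submodule.mem_comap, mem_annC]
    have h2 : ∀ t, (C.quo B hb).act t (B.mkQ x) = 0 ↔ C.act t x ∈ B := by
      intro t
      exact Submodule.Quotient.mk_eq_zero B
    constructor
    · rintro ⟨h3, h4⟩
      exact ⟨h3, fun t ht => (h2 t).mpr (h4 t ht)⟩
    · rintro ⟨h3, h4⟩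
      exact ⟨h3, fun t ht => (h2 t).mp (h4 t ht)⟩
  rw [h1]
  exact fg_inf hA (fg_comap (P' := (C.quo B hb).X) _ (Module.Finite.iff_fg.mp (annC_fin S _)))

/-- cograded modules, given as subquotients of a module -/
structure CMod (F : ℕ → Ideal T) (C : Bim T R) (A B : ℕ → Submodule R C.X) : Prop where
  fa : ∀ n, (A n).FG
  fb : ∀ n, (B n).FG
  ma : ∀ n j, ∀ t ∈ F j, ∀ x ∈ A (n + j), C.act t x ∈ A n
  mb : ∀ n j, ∀ t ∈ F j, ∀ x ∈ B (n + j), C.act t x ∈ B n
  le : ∀ n, B n ≤ A n

/-- cograded modules killed by a graded ideal -/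
def CKil (K : ℕ → AddSubgroup T) (C : Bim T R) (A B : ℕ → Submodule R C.X) : Prop :=
  ∀ τ n, ∀ t ∈ K τ, ∀ x ∈ A (n + τ), C.act t x ∈ B n

/-- cograded modules cogenerated in degree zero -/
def Cog (F : ℕ → Ideal T) (C : Bim T R) (A B : ℕ → Submodule R C.X) : Prop :=
  ∀ n, ∀ x ∈ A n, (∀ t ∈ F n, C.act t x ∈ B 0) → x ∈ B n

variable {F : ℕ → Ideal T} {C : Bim T R} {A B : ℕ → Submodule R C.X}

theorem CMod.sa (hF : Flt F) (h : CMod F C A B) (n : ℕ) (t : T) :
    ∀ x ∈ A n, C.act t x ∈ A n := fun x hx => h.ma n 0 t (hF.z t) x hx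

theorem CMod.sb (hF : Flt F) (h : CMod F C A B) (n : ℕ) (t : T) :
    ∀ x ∈ B n, C.act t x ∈ B n := fun x hx => h.mb n 0 t (hF.z t) x hx

/-- the annihilator of a graded ideal in a cograded module -/
def an (I : ℕ → AddSubgroup T) (C : Bim T R) (A B : ℕ → Submodule R C.X) (n : ℕ) :
    Submodule R C.X :=
  A n ⊓ ⨅ τ ∈ Finset.range (n + 1), anS (I τ : Set T) C (A n) (B (n - τ))

theorem mem_an {I : ℕ → AddSubgroup T} {n : ℕ} {x : C.X} :
    x ∈ an I C A B n ↔ x ∈ A n ∧ ∀ τ, τ ≤ n → ∀ t ∈ I τ, C.act t x ∈ B (n - τ) := by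
  simp only [an, Submodule.mem_inf, Submodule.mem_iInf, mem_anS, Finset.mem_range,
    Nat.lt_succ_iff]
  constructor
  · rintro ⟨h1, h2⟩
    exact ⟨h1, fun τ hτ t ht => (h2 τ hτ).2 t ht⟩
  · rintro ⟨h1, h2⟩
    exact ⟨h1, fun τ hτ => ⟨h1, fun t ht => h2 τ hτ t ht⟩⟩

theorem an_le (I : ℕ → AddSubgroup T) (n : ℕ) : an I C A B n ≤ A n := inf_le_left

theorem an_fg [VNR R] [IsNoetherianRing T] (hF : Flt F) (h : CMod F C A B) (I : ℕ → AddSubgroup T) (n : ℕ) :
    (an I C A B n).FG :=
  fg_biInf (h.fa n) _ _ fun τ => anS_fg _ C (h.fa n) (h.fb _) (h.sb hF _)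

theorem le_an (h : CMod F C A B) {I : ℕ → AddSubgroup T} (hI : ∀ n, ∀ a ∈ I n, a ∈ F n) (n : ℕ) :
    B n ≤ an I C A B n := by
  intro x hx
  rw [mem_an]
  refine ⟨h.le n hx, fun τ hτ t ht => ?_⟩
  refine h.mb (n - τ) τ t (hI τ t ht) x ?_
  rwa [Nat.sub_add_cancel hτ]

theorem an_kil {K : ℕ → AddSubgroup T} (hk : CKil K C A B) (n : ℕ) : an K C A B n = A n := by
  apply le_antisymm (an_le K n)
  intro x hx
  rw [mem_an]
  refine ⟨hx, fun τ hτ t ht => hk τ (n - τ) t ht x ?_⟩
  rwa [Nat.sub_add_cancel hτ]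

/-- the annihilator of a graded ideal is a cograded module -/
theorem cmod_an [VNR R] [IsNoetherianRing T] (hF : Flt F) (h : CMod F C A B) {I : ℕ → AddSubgroup T}
    (hI : RFam F I) : CMod F C (an I C A B) B := by
  refine ⟨an_fg hF h I, h.fb, ?_, h.mb, le_an h hI.le⟩
  intro n j t ht x hx
  rw [mem_an] at hx ⊢
  refine ⟨h.ma n j t ht x hx.1, fun τ hτ s hs => ?_⟩
  rw [← C.act_mul]
  have h1 := hx.2 (τ + j) (by omega) (s * t) (hI.mul τ j s hs t ht)
  rwa [show n + j - (τ + j) = n - τ by omega] at h1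

theorem ckil_an (I : ℕ → AddSubgroup T) : CKil I C (an I C A B) B := by
  intro τ n t ht x hx
  rw [mem_an] at hx
  have h1 := hx.2 τ (Nat.le_add_left τ n) t ht
  rwa [Nat.add_sub_cancel] at h1

theorem cog_an (h : Cog F C A B) (I : ℕ → AddSubgroup T) :
    Cog F C (an I C A B) B := fun n x hx => h n x (an_le I _ hx)

end An

section Ideals
variable {T : Type v} [Ring T] {F : ℕ → Ideal T}

/-- the graded ideal generated by `K` and the elements `x e y` with `y` of degree larger than `M` -/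
def fekD (F : ℕ → Ideal T) (K : ℕ → AddSubgroup T) (e : T) (M n : ℕ) : AddSubgroup T :=
  K n ⊔ AddSubgroup.closure {t | ∃ i j x y, i + j = n ∧ M < j ∧ x ∈ F i ∧ y ∈ F j ∧
    x * e * y = t}

theorem le_fekD (K : ℕ → AddSubgroup T) (e : T) (M n : ℕ) : K n ≤ fekD F K e M n := le_sup_left

theorem mem_fekD {K : ℕ → AddSubgroup T} {e : T} {M i j : ℕ} (hM : M < j) {x y : T}
    (hx : x ∈ F i) (hy : y ∈ F j) : x * e * y ∈ fekD F K e M (i + j) :=
  (le_sup_right : AddSubgroup.closure _ ≤ fekD F K e M (i + j))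
    (AddSubgroup.subset_closure ⟨i, j, x, y, rfl, hM, hx, hy, rfl⟩)

theorem fekD_le {K : ℕ → AddSubgroup T} {e : T} {M n : ℕ} {W : AddSubgroup T} (hK : K n ≤ W)
    (h : ∀ i j x y, i + j = n → M < j → x ∈ F i → y ∈ F j → x * e * y ∈ W) :
    fekD F K e M n ≤ W := by
  refine sup_le hK ?_
  rw [AddSubgroup.closure_le]
  rintro _ ⟨i, j, x, y, hij, hM, hx, hy, rfl⟩
  exact h i j x y hij hM hx hy

theorem rfam_fekD (hF : Flt F) {K : ℕ → AddSubgroup T} (hK : RFam F K) (e : T) (M : ℕ) :
    RFam F (fekD F K e M) := by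
  refine ⟨?_, fun n a ha => le_fekD K e M n (hK.ge n a ha), ?_⟩
  · intro n a ha
    have h1 : fekD F K e M n ≤ (F n).toAddSubgroup := by
      refine fekD_le (fun a ha => hK.le n a ha) ?_
      rintro i j x y rfl hM hx hy
      change x * e * y ∈ F (i + j)
      exact hF.mul' (hF.r hx e) hy
    exact h1 ha
  · intro n j a ha t ht
    have h1 : fekD F K e M n ≤ (fekD F K e M (n + j)).comap (AddMonoidHom.mulRight t) := by
      refine fekD_le ?_ ?_
      · intro a ha
        exact le_fekD K e M (n + j) (hK.mul n j a ha t ht)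
      · rintro i j' x y rfl hM hx hy
        change x * e * y * t ∈ fekD F K e M (i + j' + j)
        rw [mul_assoc, add_assoc]
        exact mem_fekD (by omega) hx (hF.mul' hy ht)
    exact h1 ha

theorem lfam_fekD (hF : Flt F) {K : ℕ → AddSubgroup T} (hK : LFam F K) (e : T) (M : ℕ) :
    LFam F (fekD F K e M) := by
  refine ⟨?_, fun n a ha => le_fekD K e M n (hK.ge n a ha), ?_⟩
  · intro n a ha
    have h1 : fekD F K e M n ≤ (F n).toAddSubgroup := by
      refine fekD_le (fun a ha => hK.le n a ha) ?_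
      rintro i j x y rfl hM hx hy
      change x * e * y ∈ F (i + j)
      exact hF.mul' (hF.r hx e) hy
    exact h1 ha
  · intro n j a ha t ht
    have h1 : fekD F K e M n ≤ (fekD F K e M (n + j)).comap (AddMonoidHom.mulLeft t) := by
      refine fekD_le ?_ ?_
      · intro a ha
        exact le_fekD K e M (n + j) (hK.mul n j a ha t ht)
      · rintro i j' x y rfl hM hx hy
        change t * (x * e * y) ∈ fekD F K e M (i + j' + j)
        rw [← mul_assoc, ← mul_assoc, show i + j' + j = (j + i) + j' by omega]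
        exact mem_fekD hM (hF.mul' ht hx) hy
    exact h1 ha

/-- the graded left ideal generated by `I` and an element of degree `τ` -/
def ladd (F : ℕ → Ideal T) (I : ℕ → AddSubgroup T) (g : T) (τ n : ℕ) : AddSubgroup T :=
  I n ⊔ AddSubgroup.closure {t | ∃ y, τ ≤ n ∧ y ∈ F (n - τ) ∧ y * g = t}

theorem le_ladd (I : ℕ → AddSubgroup T) (g : T) (τ n : ℕ) : I n ≤ ladd F I g τ n := le_sup_left

theorem mem_ladd (hF : Flt F) (I : ℕ → AddSubgroup T) (g : T) (τ : ℕ) : g ∈ ladd F I g τ τ := by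
  refine (le_sup_right : AddSubgroup.closure _ ≤ ladd F I g τ τ) (AddSubgroup.subset_closure
    ⟨1, le_rfl, ?_, one_mul g⟩)
  rw [Nat.sub_self]
  exact hF.z 1

theorem ladd_le {I : ℕ → AddSubgroup T} {g : T} {τ n : ℕ} {W : AddSubgroup T} (hI : I n ≤ W)
    (h : ∀ y, τ ≤ n → y ∈ F (n - τ) → y * g ∈ W) : ladd F I g τ n ≤ W := by
  refine sup_le hI ?_
  rw [AddSubgroup.closure_le]
  rintro _ ⟨y, hn, hy, rfl⟩
  exact h y hn hy

theorem lfam_ladd (hF : Flt F) {I : ℕ → AddSubgroup T} (hI : LFam F I) {g : T} {τ : ℕ}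
    (hg : g ∈ F τ) : LFam F (ladd F I g τ) := by
  refine ⟨?_, fun n a ha => le_ladd I g τ n (hI.ge n a ha), ?_⟩
  · intro n a ha
    have h1 : ladd F I g τ n ≤ (F n).toAddSubgroup := by
      refine ladd_le (fun a ha => hI.le n a ha) ?_
      intro y hn hy
      change y * g ∈ F n
      have h2 := hF.mul' hy hg
      rwa [show n - τ + τ = n by omega] at h2
    exact h1 ha
  · intro n j a ha t ht
    have h1 : ladd F I g τ n ≤ (ladd F I g τ (n + j)).comap (AddMonoidHom.mulLeft t) := by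
      refine ladd_le ?_ ?_
      · intro a ha
        exact le_ladd I g τ (n + j) (hI.mul n j a ha t ht)
      · intro y hn hy
        change t * (y * g) ∈ ladd F I g τ (n + j)
        refine (le_sup_right : AddSubgroup.closure _ ≤ ladd F I g τ (n + j))
          (AddSubgroup.subset_closure ⟨t * y, hn.trans (Nat.le_add_right n j), ?_,
            mul_assoc _ _ _⟩)
        have h2 := hF.mul' ht hy
        rwa [show j + (n - τ) = n + j - τ by omega] at h2
    exact h1 ha

end Ideals

section Flow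
variable {T : Type v} [Ring T] {R : Type u} [Ring R] [VNR R] [IsNoetherianRing T] {F : ℕ → Ideal T}

/-- the elements of `T` which map `y` into `W` -/
def tr1 (C : Bim T R) (W : Submodule R C.X) (y : C.X) : AddSubgroup T where
  carrier := {t | C.act t y ∈ W}
  add_mem' := fun {a b} ha hb => by
    change C.act (a + b) y ∈ W
    rw [C.act_add]
    exact W.add_mem ha hb
  zero_mem' := by
    change C.act 0 y ∈ W
    rw [C.act_zero]
    exact W.zero_mem
  neg_mem' := fun {a} ha => by
    change C.act (-a) y ∈ W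
    rw [map_neg, LinearMap.neg_apply]
    exact W.neg_mem ha

/-- the statement of the dual absorption lemma -/
def AuxPD (R : Type u) [Ring R] [VNR R] (F : ℕ → Ideal T) (e : T) (K I : ℕ → AddSubgroup T) : Prop :=
  (∀ n, K n ≤ I n) → ∀ m, ∃ M, m ≤ M ∧ ∀ (C : Bim T R) (A B : ℕ → Submodule R C.X),
    CMod F C A B → CKil K C A B → ∀ N, M ≤ N →
      Le (rk ((A N).map (C.act e) ⊓ an I C A B N) (B N))
        ((∑ τ ∈ Finset.Ioc m M, ep C e (A (N - τ)) (B (N - τ))) +
          rk ((A N).map (C.act e) ⊓ an (fekD F K e M) C A B N) (B N))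

omit [VNR R] [IsNoetherianRing T] in
theorem idem_map {C : Bim T R} {e : T} (he : e * e = e) {A : Submodule R C.X} {y : C.X}
    (hy : y ∈ A.map (C.act e)) : C.act e y = y := by
  obtain ⟨a, -, rfl⟩ := hy
  rw [← C.act_mul, he]

/-- absorption of the elements `e x e` -/
theorem flowD_aux (hF : Flt F) (hLN : LN F) {e : T} (he : e * e = e)
    {K : ℕ → AddSubgroup T} (I : ℕ → AddSubgroup T) (hI : LFam F I) : AuxPD R F e K I := by
  refine lfam_ind hF hLN (p := AuxPD R F e K) ?_ I hI
  clear hI I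
  intro I hI ih hKI m
  by_cases hb : ∀ τ, m < τ → ∀ x ∈ F τ, e * x * e ∈ I τ
  · refine ⟨m, le_rfl, fun C A B hM hk N _ => ?_⟩
    rw [Finset.Ioc_self, Finset.sum_empty, zero_add]
    refine rk_mono (fg_inf ((hM.fa N).map _) (an_fg hF hM _ N))
      (fg_inf ((hM.fa N).map _) (an_fg hF hM _ N)) (hM.fb N) (le_trans ?_ le_sup_left)
    rintro y ⟨hy1, hy2⟩
    refine ⟨hy1, ?_⟩
    have hy0 := idem_map he hy1
    rw [SetLike.mem_coe, mem_an] at hy2 ⊢
    refine ⟨hy2.1, fun τ hτ t ht => ?_⟩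
    have h2 : fekD F K e m τ ≤ tr1 C (B (N - τ)) y := by
      refine fekD_le ?_ ?_
      · intro t ht
        refine hk τ (N - τ) t ht y ?_
        rw [Nat.sub_add_cancel hτ]
        exact hy2.1
      · rintro i j p q rfl hj hp hq
        change C.act (p * e * q) y ∈ B (N - (i + j))
        have h3 : C.act (p * e * q) y = C.act p (C.act (e * q * e) y) := by
          rw [← C.act_mul, ← mul_assoc, ← mul_assoc, C.act_mul (p * e * q), hy0]
        rw [h3]
        refine hM.mb (N - (i + j)) i p hp _ ?_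
        rw [show N - (i + j) + i = N - j by omega]
        exact hy2.2 j (by omega) _ (hb j hj q hq)
    exact h2 ht
  · push Not at hb
    obtain ⟨τ, hτ, x, hx, hxI⟩ := hb
    have hg : e * x * e ∈ F τ := hF.r ((F τ).mul_mem_left e hx) e
    have hI' := lfam_ladd hF hI hg
    have hlt : I < ladd F I (e * x * e) τ := by
      rw [Pi.lt_def]
      refine ⟨fun n => le_ladd I _ τ n, τ, lt_of_le_of_ne (le_ladd I _ τ τ) fun h => hxI ?_⟩
      rw [h]
      exact mem_ladd hF I _ τ
    obtain ⟨M, hM, h⟩ := ih _ hI' hlt (fun n => (hKI n).trans (le_ladd I _ τ n)) τ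
    refine ⟨M, hτ.le.trans hM, fun C A B hMod hk N hN => ?_⟩
    have h1 := h C A B hMod hk N hN
    have hτN : τ ≤ N := hM.trans hN
    have hN1 : N - τ + τ = N := Nat.sub_add_cancel hτN
    have h2 : Le (rk ((A N).map (C.act e) ⊓ an I C A B N) (B N))
        (rk ((A N).map (C.act e) ⊓ an (ladd F I (e * x * e) τ) C A B N) (B N) +
          ep C e (A (N - τ)) (B (N - τ))) := by
      refine rk_ker (fg_inf ((hMod.fa N).map _) (an_fg hF hMod _ N))
        (fg_inf ((hMod.fa N).map _) (an_fg hF hMod _ N)) (hMod.fb N) ((hMod.fa _).map _) (hMod.fb _)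
        ((C.act (e * x * e)).comp ((A N).map (C.act e) ⊓ an I C A B N).subtype) ?_ ?_
      · rintro ⟨y, hy1, hy2⟩ hgy
        refine ⟨hy1, ?_⟩
        rw [SetLike.mem_coe, mem_an] at hy2 ⊢
        refine ⟨hy2.1, fun σ hσ t ht => ?_⟩
        have h4 : ladd F I (e * x * e) τ σ ≤ tr1 C (B (N - σ)) y := by
          refine ladd_le ?_ ?_
          · intro t ht
            exact hy2.2 σ hσ t ht
          · intro z hτσ hz
            change C.act (z * (e * x * e)) y ∈ B (N - σ)
            rw [C.act_mul]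
            refine hMod.mb (N - σ) (σ - τ) z hz _ ?_
            rw [show N - σ + (σ - τ) = N - τ by omega]
            exact hgy
        exact h4 ht
      · rintro ⟨y, hy1, hy2⟩
        refine (le_sup_left : (A (N - τ)).map (C.act e) ≤ _) ?_
        rw [SetLike.mem_coe, mem_an] at hy2
        refine ⟨C.act (x * e) y, ?_, ?_⟩
        · refine hMod.ma (N - τ) τ (x * e) (hF.r hx e) y ?_
          rw [hN1]
          exact hy2.1
        · rw [← C.act_mul, ← mul_assoc]
          rfl
    refine (h2.trans (h1.add Le.rfl')).trans ?_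
    have h3 : Le (∑ σ ∈ insert τ (Finset.Ioc τ M), ep C e (A (N - σ)) (B (N - σ)))
        (∑ σ ∈ Finset.Ioc m M, ep C e (A (N - σ)) (B (N - σ))) := by
      apply Le.sum_sub
      intro σ hσ
      rw [Finset.mem_insert, Finset.mem_Ioc] at hσ
      rw [Finset.mem_Ioc]
      omega
    rw [Finset.sum_insert (by simp)] at h3
    have h4 := Le.add h3 (Le.rfl' : Le (rk ((A N).map (C.act e) ⊓
      an (fekD F K e M) C A B N) (B N)) _)
    refine Le.trans ?_ h4
    rw [add_right_comm, add_comm (∑ σ ∈ Finset.Ioc τ M, ep C e (A (N - σ)) (B (N - σ)))]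
    exact Le.rfl'

omit [IsNoetherianRing T] in
/-- elements `y e` of large degree -/
theorem exists_boundD (hRN : RN F) {e : T} {K : ℕ → AddSubgroup T} (hF : Flt F)
    (hK : RFam F K) {M : ℕ}
    (h : ∀ i j x y, M < j → x ∈ F i → y ∈ F j → x * e * y ∈ K (i + j)) :
    ∃ Q, ∀ n, Q ≤ n → ∀ y ∈ F n, y * e ∈ K n := by
  by_contra hcon
  push Not at hcon
  choose nx hnx y hy hyK using hcon
  set d : ℕ → ℕ := fun k => Nat.rec 0 (fun _ p => nx p + M + 1) k with hd
  have hd1 : ∀ k, d (k + 1) = nx (d k) + M + 1 := fun k => rfl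
  set n : ℕ → ℕ := fun k => nx (d k) with hn
  have hstep : ∀ k, n k + M + 1 ≤ n (k + 1) := by
    intro k
    have h1 := hnx (d (k + 1))
    rw [hd1] at h1
    exact h1
  have hmono : StrictMono n := strictMono_nat_of_lt_succ fun k => by
    have := hstep k
    omega
  have hgap : ∀ j k, j < k → n j + M + 1 ≤ n k := by
    intro j k hjk
    exact (hstep j).trans (hmono.monotone (Nat.succ_le_of_lt hjk))
  obtain ⟨k, c, hc, hk⟩ := hRN n (fun k => y (d k) * e) hmono
    (fun k => hF.r (hy (d k)) e)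
  apply hyK (d k)
  have h2 : y (d k) * e = (y (d k) * e - ∑ j ∈ Finset.range k, y (d j) * e * c j) +
      ∑ j ∈ Finset.range k, y (d j) * e * c j := by abel
  rw [h2]
  refine AddSubgroup.add_mem _ (hK.ge _ _ hk) (AddSubgroup.sum_mem _ fun j hj => ?_)
  rw [Finset.mem_range] at hj
  have h3 := hgap j k hj
  have h4 := h (n j) (n k - n j) (y (d j)) (c j) (by omega) (hy (d j)) (hc j hj)
  rw [show n j + (n k - n j) = n k by omega] at h4
  exact h4

/-- the statement of the dual theorem on layers -/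
def FlowPD (R : Type u) [Ring R] [VNR R] (F : ℕ → Ideal T) (e : T) (K : ℕ → AddSubgroup T) : Prop :=
  RFam F K → ∀ m, ∃ M, m ≤ M ∧ ∀ (C : Bim T R) (A B : ℕ → Submodule R C.X),
    CMod F C A B → CKil K C A B → Cog F C A B → ∀ N, M ≤ N →
      Le (ep C e (A N) (B N)) (∑ τ ∈ Finset.Ioc m M, ep C e (A (N - τ)) (B (N - τ)))

/-- every layer is dominated by the images of `e` on finitely many of the previous layers -/
theorem flowD (hF : Flt F) (hRN : RN F) (hLN : LN F) {e : T} (he : e * e = e)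
    (K : ℕ → AddSubgroup T) (hK : LFam F K) : FlowPD R F e K := by
  refine lfam_ind hF hLN (p := FlowPD R F e) ?_ K hK
  clear hK K
  intro K hK ih hKR m
  obtain ⟨M1, hM1, h1⟩ := flowD_aux (R := R) hF hLN he K hK (fun n => le_rfl) m
  have hstart : ∀ {C : Bim T R} {A B : ℕ → Submodule R C.X} {K : ℕ → AddSubgroup T},
      CMod F C A B → ∀ N, (A N).map (C.act e) ⊓ A N = (A N).map (C.act e) := by
    intro C A B K hMod N
    refine inf_eq_left.mpr ?_
    rintro _ ⟨a, ha, rfl⟩
    exact hMod.sa hF N e a ha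
  by_cases hle : fekD F K e M1 ≤ K
  · obtain ⟨Q, hQ⟩ := exists_boundD hRN (e := e) hF hKR (M := M1) (fun i j x y hi hx hy =>
      hle (i + j) (mem_fekD hi hx hy))
    refine ⟨max M1 Q, hM1.trans (le_max_left _ _), fun C A B hMod hk hD N hN => ?_⟩
    have hNQ : Q ≤ N := (le_max_right M1 Q).trans hN
    have h2 : (A N).map (C.act e) ≤ B N := by
      rintro _ ⟨a, ha, rfl⟩
      refine hD N (C.act e a) (hMod.sa hF N e a ha) fun t ht => ?_
      rw [← C.act_mul]
      refine hk N 0 _ (hQ N hNQ t ht) a ?_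
      rwa [zero_add]
    change Le (rk _ _) _
    rw [rk_bot ((hMod.fa N).map _) (hMod.fb N) h2]
    exact ⟨_, zero_add _⟩
  · have hlt : K < fekD F K e M1 := lt_of_le_not_ge (fun n => le_fekD K e M1 n) hle
    obtain ⟨M2, hM2, h2⟩ := ih _ (lfam_fekD hF hK e M1) hlt (rfam_fekD hF hKR e M1) M1
    refine ⟨M2, hM1.trans hM2, fun C A B hMod hk hD N hN => ?_⟩
    have h3 := h1 C A B hMod hk N (hM2.trans hN)
    rw [an_kil hk, hstart (K := K) hMod N] at h3
    have hMod' := cmod_an hF hMod (rfam_fekD hF hKR e M1)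
    have h4 := h2 C _ B hMod' (ckil_an _) (cog_an hD _) N hN
    have h5 : Le (rk ((A N).map (C.act e) ⊓ an (fekD F K e M1) C A B N) (B N))
        (ep C e (an (fekD F K e M1) C A B N) (B N)) := by
      refine rk_mono (fg_inf ((hMod.fa N).map _) (an_fg hF hMod _ N)) ((an_fg hF hMod _ N).map _)
        (hMod.fb N) (le_trans ?_ le_sup_left)
      rintro y ⟨hy1, hy2⟩
      exact ⟨y, hy2, idem_map he hy1⟩
    have h6 : Le (∑ τ ∈ Finset.Ioc M1 M2, ep C e (an (fekD F K e M1) C A B (N - τ)) (B (N - τ)))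
        (∑ τ ∈ Finset.Ioc M1 M2, ep C e (A (N - τ)) (B (N - τ))) := by
      apply Le.sum
      intro τ _
      exact rk_mono ((an_fg hF hMod _ _).map _) ((hMod.fa _).map _) (hMod.fb _)
        ((Submodule.map_mono (an_le _ _)).trans le_sup_left)
    refine h3.trans ((Le.rfl'.add (h5.trans (h4.trans h6))).trans ?_)
    have h7 : ∑ τ ∈ Finset.Ioc m M2, ep C e (A (N - τ)) (B (N - τ)) =
        ∑ τ ∈ Finset.Ioc m M1, ep C e (A (N - τ)) (B (N - τ)) +
          ∑ τ ∈ Finset.Ioc M1 M2, ep C e (A (N - τ)) (B (N - τ)) := by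
      rw [← Finset.Ioc_union_Ioc_eq_Ioc hM1 hM2, Finset.sum_union]
      rw [Finset.disjoint_left]
      intro τ h1 h2
      rw [Finset.mem_Ioc] at h1 h2
      omega
    rw [h7]
    exact Le.rfl'

end Flow

end SepGr
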