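import Pool.Agent.Lib.MP_dccecd_al.NoeLoc

/-! The condition of the noetherian base theorem is symmetric (for MP_dccecd_al). -/

open SepReg SepFin

namespace SepNoe

universe u v w x

section Equiv
variable {S : Type u} [Ring S] {T : Type v} [Ring T]

theorem nor_equiv (φ : S ≃+* T) (h : Nor S) : Nor T := by
  intro P hP hp I hI hIP
  have hs : ∀ q, ∃ t, φ t = q := fun q => φ.surjective q
  obtain ⟨J, hJ, hJI, hJP, z, hz, hzl, hzr, hjl, hjr, hzJ⟩ := h (Ideal.comap φ.toRingHom P)
    inferInstance (by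
      intro a b hab
      apply hp
      intro t
      obtain ⟨t, rfl⟩ := hs t
      have h1 := hab t
      rw [Ideal.mem_comap, map_mul, map_mul] at h1
      exact h1) (Ideal.comap φ.toRingHom I) inferInstance (by
      intro hle
      apply hIP
      intro q hq
      obtain ⟨t, rfl⟩ := hs q
      exact hle hq)
  have hmap : ∀ q, q ∈ Ideal.map φ.toRingHom J ↔ ∃ j ∈ J, φ j = q := fun q =>
    Ideal.mem_map_iff_of_surjective _ φ.surjective
  refine ⟨Ideal.map φ.toRingHom J, ?_, ?_, ?_, φ z, hz, ?_, ?_, ?_, ?_, ?_⟩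
  · constructor
    intro a b ha
    obtain ⟨j, hj, rfl⟩ := (hmap a).mp ha
    obtain ⟨t, rfl⟩ := hs b
    exact (hmap _).mpr ⟨j * t, hJ.mul_mem_of_left t hj, map_mul _ _ _⟩
  · rw [Ideal.map_le_iff_le_comap]
    exact hJI
  · intro hle
    apply hJP
    intro j hj
    exact hle ((hmap _).mpr ⟨j, hj, rfl⟩)
  · intro t
    obtain ⟨t, rfl⟩ := hs t
    obtain ⟨t', ht'⟩ := hzl t
    refine ⟨φ t', ?_⟩
    rw [← map_mul, ← map_mul, ← map_sub]
    exact ht'
  · intro t
    obtain ⟨t, rfl⟩ := hs t
    obtain ⟨t', ht'⟩ := hzr t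
    refine ⟨φ t', ?_⟩
    rw [← map_mul, ← map_mul, ← map_sub]
    exact ht'
  · intro q hq
    obtain ⟨j, hj, rfl⟩ := (hmap q).mp hq
    obtain ⟨t', hj', ht'⟩ := hjl j hj
    refine ⟨φ t', (hmap _).mpr ⟨t', hj', rfl⟩, ?_⟩
    rw [← map_mul, ← map_mul, ← map_sub]
    exact ht'
  · intro q hq
    obtain ⟨j, hj, rfl⟩ := (hmap q).mp hq
    obtain ⟨t', hj', ht'⟩ := hjr j hj
    refine ⟨φ t', (hmap _).mpr ⟨t', hj', rfl⟩, ?_⟩
    rw [← map_mul, ← map_mul, ← map_sub]
    exact ht'
  · intro q hq
    obtain ⟨j, hj, rfl⟩ := (hmap q).mp hq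
    rw [← map_mul]
    have h2 : J * J ⊔ Ideal.comap φ.toRingHom P ≤ Ideal.comap φ.toRingHom
        (Ideal.map φ.toRingHom J * Ideal.map φ.toRingHom J ⊔ P) := by
      refine sup_le ?_ ?_
      · rw [Ideal.mul_le]
        intro a ha b hb
        rw [Ideal.mem_comap, map_mul]
        exact Ideal.mem_sup_left (Ideal.mul_mem_mul ((hmap _).mpr ⟨a, ha, rfl⟩)
          ((hmap _).mpr ⟨b, hb, rfl⟩))
      · intro a ha
        exact Ideal.mem_sup_right ha
    exact h2 (hzJ j hj)

/-- a two-sided ideal of the opposite ring as an ideal of the ring -/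
def unopI (P : Ideal Tᵐᵒᵖ) [hP : P.IsTwoSided] : Ideal T where
  carrier := {t | MulOpposite.op t ∈ P}
  add_mem' := fun {a b} ha hb => by
    change MulOpposite.op (a + b) ∈ P
    rw [MulOpposite.op_add]
    exact P.add_mem ha hb
  zero_mem' := by
    change MulOpposite.op 0 ∈ P
    rw [MulOpposite.op_zero]
    exact P.zero_mem
  smul_mem' := fun r t ht => by
    change MulOpposite.op (r * t) ∈ P
    rw [MulOpposite.op_mul]
    exact hP.mul_mem_of_left _ ht

/-- a two-sided ideal of the ring as an ideal of the opposite ring -/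
def opI (P : Ideal T) [hP : P.IsTwoSided] : Ideal Tᵐᵒᵖ where
  carrier := {t | t.unop ∈ P}
  add_mem' := fun {a b} ha hb => by
    change (a + b).unop ∈ P
    rw [MulOpposite.unop_add]
    exact P.add_mem ha hb
  zero_mem' := by
    change (0 : Tᵐᵒᵖ).unop ∈ P
    rw [MulOpposite.unop_zero]
    exact P.zero_mem
  smul_mem' := fun r t ht => by
    change (r * t).unop ∈ P
    rw [MulOpposite.unop_mul]
    exact hP.mul_mem_of_left _ ht

theorem mem_unopI {P : Ideal Tᵐᵒᵖ} [P.IsTwoSided] {t : T} :
    t ∈ unopI P ↔ MulOpposite.op t ∈ P := Iff.rfl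

theorem mem_opI {P : Ideal T} [P.IsTwoSided] {t : Tᵐᵒᵖ} : t ∈ opI P ↔ t.unop ∈ P := Iff.rfl

theorem unopI_two (P : Ideal Tᵐᵒᵖ) [hP : P.IsTwoSided] : (unopI P).IsTwoSided := by
  constructor
  intro a b ha
  rw [mem_unopI] at ha ⊢
  rw [MulOpposite.op_mul]
  exact P.mul_mem_left _ ha

theorem opI_two (P : Ideal T) [hP : P.IsTwoSided] : (opI P).IsTwoSided := by
  constructor
  intro a b ha
  rw [mem_opI] at ha ⊢
  rw [MulOpposite.unop_mul]
  exact P.mul_mem_left _ ha

theorem nor_op (h : Nor T) : Nor Tᵐᵒᵖ := by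
  intro P hP hp I hI hIP
  have hP' := unopI_two P
  have hI' := unopI_two I
  obtain ⟨J, hJ, hJI, hJP, z, hz, hzl, hzr, hjl, hjr, hzJ⟩ := h (unopI P) hP' (by
      intro a b hab
      have h1 := hp (MulOpposite.op b) (MulOpposite.op a) (fun t => by
        have h2 := hab t.unop
        rw [mem_unopI, MulOpposite.op_mul, MulOpposite.op_mul, MulOpposite.op_unop,
          ← mul_assoc] at h2
        exact h2)
      exact h1.symm) (unopI I) hI' (by
      intro hle
      apply hIP
      intro q hq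
      have h2 : q.unop ∈ unopI I := by
        rw [mem_unopI, MulOpposite.op_unop]
        exact hq
      have h3 := hle h2
      rw [mem_unopI, MulOpposite.op_unop] at h3
      exact h3)
  refine ⟨opI J, opI_two J, ?_, ?_, MulOpposite.op z, ?_, ?_, ?_, ?_, ?_, ?_⟩
  · intro q hq
    have h2 := hJI (mem_opI.mp hq)
    rw [mem_unopI, MulOpposite.op_unop] at h2
    exact h2
  · intro hle
    apply hJP
    intro j hj
    rw [mem_unopI]
    exact hle (mem_opI.mpr hj)
  · exact hz
  · intro t
    obtain ⟨t', ht'⟩ := hzr t.unop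
    exact ⟨MulOpposite.op t', ht'⟩
  · intro t
    obtain ⟨t', ht'⟩ := hzl t.unop
    exact ⟨MulOpposite.op t', ht'⟩
  · intro j hj
    obtain ⟨t', hj', ht'⟩ := hjr j.unop hj
    exact ⟨MulOpposite.op t', hj', ht'⟩
  · intro j hj
    obtain ⟨t', hj', ht'⟩ := hjl j.unop hj
    exact ⟨MulOpposite.op t', hj', ht'⟩
  · intro j hj
    obtain ⟨j', hj', hjj⟩ := hjr j.unop hj
    -- `j z = z j'` modulo `P`, and `z j'` is in `J ^ 2 + P`
    set K : Ideal Tᵐᵒᵖ := opI J * opI J ⊔ P with hK
    have hKt : K.IsTwoSided := by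
      set W' : Ideal Tᵐᵒᵖ :=
        { carrier := {x | ∀ r : Tᵐᵒᵖ, x * r ∈ K}
          add_mem' := fun {a b} ha hb r => by
            rw [add_mul]
            exact K.add_mem (ha r) (hb r)
          zero_mem' := fun r => by
            rw [zero_mul]
            exact K.zero_mem
          smul_mem' := fun s t ht r => by
            rw [smul_eq_mul, mul_assoc]
            exact K.mul_mem_left _ (ht r) } with hW'
      have hK3 : K ≤ W' := by
        rw [hK]
        refine sup_le ?_ ?_
        · rw [Ideal.mul_le]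
          intro a ha b hb r
          rw [mul_assoc]
          exact (le_sup_left : opI J * opI J ≤ K)
            (Ideal.mul_mem_mul ha ((opI_two J).mul_mem_of_left r hb))
        · intro a ha r
          exact (le_sup_right : P ≤ K) (hP.mul_mem_of_left r ha)
      exact ⟨fun {a} b ha => hK3 ha b⟩
    set W : Ideal T :=
      { carrier := {t | ∀ r : T, MulOpposite.op (t * r) ∈ K}
        add_mem' := fun {a b} ha hb r => by
          rw [add_mul, MulOpposite.op_add]
          exact K.add_mem (ha r) (hb r)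
        zero_mem' := fun r => by
          rw [zero_mul, MulOpposite.op_zero]
          exact K.zero_mem
        smul_mem' := fun s t ht r => by
          rw [smul_eq_mul, mul_assoc, MulOpposite.op_mul]
          exact hKt.mul_mem_of_left _ (ht r) } with hW
    have hK2 : J * J ⊔ unopI P ≤ W := by
      refine sup_le ?_ ?_
      · rw [Ideal.mul_le]
        intro a ha b hb r
        rw [mul_assoc, MulOpposite.op_mul]
        refine (le_sup_left : opI J * opI J ≤ K) (Ideal.mul_mem_mul ?_ ?_)
        · exact mem_opI.mpr (hJ.mul_mem_of_left r hb)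
        · exact mem_opI.mpr ha
      · intro a ha r
        refine (le_sup_right : P ≤ K) ?_
        rw [MulOpposite.op_mul]
        exact P.mul_mem_left _ ha
    have h1 := hK2 (hzJ j' hj') 1
    rw [mul_one] at h1
    have h2 : MulOpposite.op z * j = MulOpposite.op (z * j') +
        MulOpposite.op (j.unop * z - z * j') := by
      rw [← MulOpposite.op_add, add_sub_cancel, MulOpposite.op_mul, MulOpposite.op_unop]
    rw [h2]
    exact K.add_mem h1 ((le_sup_right : P ≤ K) hjj)

theorem locNor_op (h : LocNor T) : LocNor Tᵐᵒᵖ := by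
  classical
  intro s
  obtain ⟨T0, hs, h1, h2, h3⟩ := h (s.image MulOpposite.unop)
  have φ : T0ᵐᵒᵖ ≃+* T0.op := {
    toFun := fun t => ⟨MulOpposite.op t.unop.1, t.unop.2⟩
    invFun := fun t => MulOpposite.op ⟨t.1.unop, t.2⟩
    left_inv := fun t => rfl
    right_inv := fun t => rfl
    map_mul' := fun a b => rfl
    map_add' := fun a b => rfl }
  refine ⟨T0.op, ?_, ?_, ?_, nor_equiv φ (nor_op h3)⟩
  · intro t ht
    have h4 : t.unop ∈ T0 := hs (by
      rw [Finset.coe_image]
      exact ⟨t, ht, rfl⟩)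
    exact h4
  · exact isNoetherianRing_of_ringEquiv T0ᵐᵒᵖ φ
  · exact isNoetherianRing_of_ringEquiv T0 ((RingEquiv.opOp T0).trans (RingEquiv.op φ))

end Equiv

end SepNoe
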