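import Pool.Agent.Lib.MP_dccecd_al.GrMat
import Pool.Agent.Lib.MP_dccecd_al.NoeOp

/-! The graded base theorem (for MP_dccecd_al): local form and modules. -/

open SepReg SepFin SepNoe Matrix

namespace SepGr

universe u v w x

section Loc
variable {T : Type v} [Ring T] {R : Type u} [Ring R] [VNR R]

/-- every finite subset is contained in a subring which is noetherian on both sides and satisfies
the condition `Grd` -/
def LocGrd (T : Type v) [Ring T] : Prop :=
  ∀ s : Finset T, ∃ T0 : Subring T, (s : Set T) ⊆ T0 ∧ IsNoetherianRing T0 ∧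
    IsNoetherianRing T0ᵐᵒᵖ ∧ Grd T0

theorem mat_grd (hT : LocGrd T) {n : ℕ} {e f x y : Matrix (Fin n) (Fin n) T} (he : e * e = e)
    (hf : f * f = f) (hxy : x * y = 1 - e) (hyx : y * x = 1 - f)
    (C : Bim (Matrix (Fin n) (Fin n) T) R) : pp e C = pp f C := by
  classical
  obtain ⟨T0, hs, hn1, hn2, hc⟩ := hT
    ((Finset.univ.image fun p : Fin n × Fin n => e p.1 p.2) ∪
      (Finset.univ.image fun p : Fin n × Fin n => f p.1 p.2) ∪
      (Finset.univ.image fun p : Fin n × Fin n => x p.1 p.2) ∪
      (Finset.univ.image fun p : Fin n × Fin n => y p.1 p.2))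
  have me : ∀ i j, e i j ∈ T0 := fun i j => hs (by
    simp only [Finset.coe_union, Set.mem_union, Finset.coe_image, Finset.coe_univ, Set.image_univ]
    exact Or.inl (Or.inl (Or.inl ⟨(i, j), rfl⟩)))
  have mf : ∀ i j, f i j ∈ T0 := fun i j => hs (by
    simp only [Finset.coe_union, Set.mem_union, Finset.coe_image, Finset.coe_univ, Set.image_univ]
    exact Or.inl (Or.inl (Or.inr ⟨(i, j), rfl⟩)))
  have mx : ∀ i j, x i j ∈ T0 := fun i j => hs (by
    simp only [Finset.coe_union, Set.mem_union, Finset.coe_image, Finset.coe_univ, Set.image_univ]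
    exact Or.inl (Or.inr ⟨(i, j), rfl⟩))
  have my : ∀ i j, y i j ∈ T0 := fun i j => hs (by
    simp only [Finset.coe_union, Set.mem_union, Finset.coe_image, Finset.coe_univ, Set.image_univ]
    exact Or.inr ⟨(i, j), rfl⟩)
  set φ : Matrix (Fin n) (Fin n) T0 →+* Matrix (Fin n) (Fin n) T := T0.subtype.mapMatrix with hφ
  have hφi : Function.Injective φ := by
    intro M N h
    ext i j
    have h1 := congrFun (congrFun h i) j
    exact h1
  set e0 : Matrix (Fin n) (Fin n) T0 := fun i j => ⟨e i j, me i j⟩ with he0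
  set f0 : Matrix (Fin n) (Fin n) T0 := fun i j => ⟨f i j, mf i j⟩ with hf0
  set x0 : Matrix (Fin n) (Fin n) T0 := fun i j => ⟨x i j, mx i j⟩ with hx0
  set y0 : Matrix (Fin n) (Fin n) T0 := fun i j => ⟨y i j, my i j⟩ with hy0
  have ke : φ e0 = e := rfl
  have kf : φ f0 = f := rfl
  have kx : φ x0 = x := rfl
  have ky : φ y0 = y := rfl
  have hop : IsNoetherianRing (Matrix (Fin n) (Fin n) T0)ᵐᵒᵖ :=
    isNoetherianRing_of_surjective (Matrix (Fin n) (Fin n) T0ᵐᵒᵖ) _
      (RingEquiv.mopMatrix (m := Fin n) (α := T0)).toRingHom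
      (RingEquiv.mopMatrix (m := Fin n) (α := T0)).surjective
  have h1 := grd_main (R := R) (grd_matrix (d := n) hc) (e := e0) (f := f0) (x := x0) (y := y0)
    (hφi (by rw [map_mul, ke, he])) (hφi (by rw [map_mul, kf, hf]))
    (hφi (by rw [map_mul, kx, ky, map_sub, map_one, ke, hxy]))
    (hφi (by rw [map_mul, kx, ky, map_sub, map_one, kf, hyx])) (C.res φ)
  exact h1


/-- the theorem for idempotents of the ring -/
theorem loc_grd (hT : LocGrd T) {e f x y : T} (he : e * e = e) (hf : f * f = f)
    (hxy : x * y = 1 - e) (hyx : y * x = 1 - f) (C : Bim T R) : pp e C = pp f C := by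
  classical
  obtain ⟨T0, hs, hn1, hn2, hc⟩ := hT {e, f, x, y}
  have me : e ∈ T0 := hs (by simp)
  have mf : f ∈ T0 := hs (by simp)
  have mx : x ∈ T0 := hs (by simp)
  have my : y ∈ T0 := hs (by simp)
  exact grd_main (R := R) hc (e := ⟨e, me⟩) (f := ⟨f, mf⟩) (x := ⟨x, mx⟩) (y := ⟨y, my⟩)
    (Subtype.ext he) (Subtype.ext hf) (Subtype.ext hxy) (Subtype.ext hyx) (C.res T0.subtype)

end Loc

section Form
variable {T : Type v} [Ring T] {R : Type u} [Ring R]
  {C : Type u} [AddCommGroup C] [Module R C] [Module T C] [SMulCommClass T R C]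

theorem end_grd [VNR R] [Module.Finite R C] [Module.Projective R C] (hT : LocGrd T) {n : ℕ}
    {e f x y : (Module.End T (Fin n → T))ᵐᵒᵖ} (he : e * e = e)
    (hf : f * f = f) (hxy : x * y = 1 - e) (hyx : y * x = 1 - f) :
    pp e (bimEnd T R C n) = pp f (bimEnd T R C n) := by
  have h1 := mat_grd (R := R) hT (e := (matEnd T n).symm e) (f := (matEnd T n).symm f)
    (x := (matEnd T n).symm x) (y := (matEnd T n).symm y)
    (by rw [← map_mul, he]) (by rw [← map_mul, hf])
    (by rw [← map_mul, hxy, map_sub, map_one]) (by rw [← map_mul, hyx, map_sub, map_one])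
    ((bimEnd T R C n).res (matEnd T n).toRingHom)
  have h2 : ∀ g : (Module.End T (Fin n → T))ᵐᵒᵖ,
      pp ((matEnd T n).symm g) ((bimEnd T R C n).res (matEnd T n).toRingHom) =
        pp g (bimEnd T R C n) := by
    intro g
    have h3 : ((bimEnd T R C n).res (matEnd T n).toRingHom).act ((matEnd T n).symm g) =
        (bimEnd T R C n).act g := by
      change (bimEnd T R C n).act (matEnd T n ((matEnd T n).symm g)) = _
      rw [RingEquiv.apply_symm_apply]
    rw [pp, pp]
    exact cls_congr (LinearEquiv.ofEq _ _ (congrArg LinearMap.range h3))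
  rw [h2, h2] at h1
  exact h1

/-- stably isomorphic projective modules become isomorphic over a von Neumann regular ring -/
theorem module_grd (hR : ∀ a : R, ∃ x : R, a * x * a = a) (hT : LocGrd T) [Module.Finite R C]
    [Module.Projective R C] (P Q G : Type x) [AddCommGroup P] [Module T P] [Module.Finite T P]
    [Module.Projective T P] [AddCommGroup Q] [Module T Q] [AddCommGroup G] [Module T G]
    [Module.Finite T G] [Module.Projective T G] (φ : (P × G) ≃ₗ[T] (Q × G)) :
    Nonempty ((P →ₗ[T] C) ≃ₗ[R] (Q →ₗ[T] C)) := by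
  have hV : VNR R := ⟨hR⟩
  obtain ⟨n, π, hπ⟩ := Module.Finite.exists_fin' T (P × G)
  obtain ⟨s, hs⟩ := Module.projective_lifting_property π LinearMap.id hπ
  have hs' : ∀ z, π (s z) = z := fun z => LinearMap.congr_fun hs z
  set iP : P →ₗ[T] (Fin n → T) := s.comp (LinearMap.inl T P G) with hiP
  set qP : (Fin n → T) →ₗ[T] P := (LinearMap.fst T P G).comp π with hqP
  set iQ : Q →ₗ[T] (Fin n → T) := s.comp (φ.symm.toLinearMap.comp (LinearMap.inl T Q G)) with hiQ
  set qQ : (Fin n → T) →ₗ[T] Q := (LinearMap.fst T Q G).comp (φ.toLinearMap.comp π) with hqQ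
  have hP : qP.comp iP = LinearMap.id := by
    apply LinearMap.ext
    intro p
    change (π (s (p, 0))).1 = p
    rw [hs']
  have hQ : qQ.comp iQ = LinearMap.id := by
    apply LinearMap.ext
    intro p
    change (φ (π (s (φ.symm (p, 0))))).1 = p
    rw [hs', LinearEquiv.apply_symm_apply]
  obtain ⟨α⟩ := hom_equiv_range (R := R) (C := C) iP qP hP
  obtain ⟨β⟩ := hom_equiv_range (R := R) (C := C) iQ qQ hQ
  set X : (Fin n → T) →ₗ[T] (Fin n → T) :=
    s.comp ((LinearMap.inr T P G).comp ((LinearMap.snd T Q G).comp (φ.toLinearMap.comp π))) +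
      (LinearMap.id - s.comp π) with hX
  set Y : (Fin n → T) →ₗ[T] (Fin n → T) :=
    s.comp (φ.symm.toLinearMap.comp ((LinearMap.inr T Q G).comp ((LinearMap.snd T P G).comp π))) +
      (LinearMap.id - s.comp π) with hY
  have hXa : ∀ v, X v = s (0, (φ (π v)).2) + (v - s (π v)) := fun v => rfl
  have hYa : ∀ v, Y v = s (φ.symm (0, (π v).2)) + (v - s (π v)) := fun v => rfl
  have hπX : ∀ v, π (X v) = (0, (φ (π v)).2) := by
    intro v
    rw [hXa, map_add, map_sub, hs', hs', sub_self, add_zero]
  have hπY : ∀ v, π (Y v) = φ.symm (0, (π v).2) := by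
    intro v
    rw [hYa, map_add, map_sub, hs', hs', sub_self, add_zero]
  have hXY : X.comp Y = LinearMap.id - iP.comp qP := by
    apply LinearMap.ext
    intro v
    rw [LinearMap.comp_apply, hXa, hπY, LinearEquiv.apply_symm_apply, hYa]
    change s (0, (π v).2) + (s (φ.symm (0, (π v).2)) + (v - s (π v)) - s (φ.symm (0, (π v).2))) =
      v - s ((π v).1, 0)
    have h1 : s (π v) = s ((π v).1, 0) + s (0, (π v).2) := by
      rw [← map_add]
      congr 1
      ext <;> simp
    rw [h1]
    abel
  have hYX : Y.comp X = LinearMap.id - iQ.comp qQ := by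
    apply LinearMap.ext
    intro v
    rw [LinearMap.comp_apply, hYa, hπX, hXa]
    change s (φ.symm (0, (φ (π v)).2)) + (s (0, (φ (π v)).2) + (v - s (π v)) -
      s (0, (φ (π v)).2)) = v - s (φ.symm ((φ (π v)).1, 0))
    have h1 : s (π v) = s (φ.symm ((φ (π v)).1, 0)) + s (φ.symm (0, (φ (π v)).2)) := by
      rw [← map_add, ← map_add]
      congr 1
      rw [LinearEquiv.eq_symm_apply]
      ext <;> simp
    rw [h1]
    abel
  have hid : ∀ {P' : Type x} [AddCommGroup P'] [Module T P'] {i : P' →ₗ[T] (Fin n → T)}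
      {q : (Fin n → T) →ₗ[T] P'}, q.comp i = LinearMap.id →
      (i.comp q).comp (i.comp q) = i.comp q := by
    intro P' _ _ i q h
    apply LinearMap.ext
    intro v
    exact congrArg i (LinearMap.congr_fun h (q v))
  have h1 := end_grd (C := C) (R := R) hT
    (e := MulOpposite.op (iP.comp qP : Module.End T _))
    (f := MulOpposite.op (iQ.comp qQ : Module.End T _))
    (x := MulOpposite.op (Y : Module.End T _)) (y := MulOpposite.op (X : Module.End T _))
    (congrArg MulOpposite.op (hid hP)) (congrArg MulOpposite.op (hid hQ))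
    (congrArg MulOpposite.op hXY) (congrArg MulOpposite.op hYX)
  obtain ⟨γ⟩ := cls_eq.mp h1
  exact ⟨α.trans (γ.trans β.symm)⟩

end Form

end SepGr
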