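import Pool.Agent.Lib.MP_dccecd_al.GrFam

/-! Powers of ideals of noncommutative rings (for MP_dccecd_al, the graded base theorem). -/

namespace SepGr

universe u v w

section Pow
variable {T : Type v} [Ring T]

theorem one_top : (1 : Ideal T) = ⊤ := by
  rw [Ideal.eq_top_iff_one]
  exact Submodule.one_le.mp le_rfl

theorem pw_zero (F : Ideal T) : F ^ 0 = ⊤ := by rw [Submodule.pow_zero, one_top]

theorem pw_one (F : Ideal T) : F ^ 1 = F := Submodule.pow_one F

theorem mul_two {F G : Ideal T} (hG : G.IsTwoSided) : (F * G).IsTwoSided := by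
  constructor
  intro a b ha
  set W : Ideal T :=
    { carrier := {x | ∀ r : T, x * r ∈ F * G}
      add_mem' := fun {a b} ha hb r => by
        rw [add_mul]
        exact (F * G).add_mem (ha r) (hb r)
      zero_mem' := fun r => by
        rw [zero_mul]
        exact (F * G).zero_mem
      smul_mem' := fun s t ht r => by
        rw [smul_eq_mul, mul_assoc]
        exact (F * G).mul_mem_left _ (ht r) } with hW
  have h1 : F * G ≤ W := by
    rw [Ideal.mul_le]
    intro a ha b hb r
    rw [mul_assoc]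
    exact Ideal.mul_mem_mul ha (hG.mul_mem_of_left r hb)
  exact h1 ha b

theorem pw_two {F : Ideal T} (hF : F.IsTwoSided) (n : ℕ) : (F ^ n).IsTwoSided := by
  cases n with
  | zero =>
    rw [pw_zero]
    infer_instance
  | succ n =>
    rw [Submodule.pow_succ]
    exact mul_two hF

theorem pw_succ' {F : Ideal T} (hF : F.IsTwoSided) (n : ℕ) : F ^ (n + 1) = F * F ^ n := by
  by_cases hn : n = 0
  · subst hn
    rw [zero_add, pw_one, pw_zero]
    apply le_antisymm
    · intro x hx
      rw [← mul_one x]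
      exact Ideal.mul_mem_mul hx Submodule.mem_top
    · rw [Ideal.mul_le]
      intro a ha b _
      exact hF.mul_mem_of_left b ha
  · exact Submodule.pow_succ' F hn

theorem pw_mul {F : Ideal T} (hF : F.IsTwoSided) {m n : ℕ} {a b : T} (ha : a ∈ F ^ m)
    (hb : b ∈ F ^ n) : a * b ∈ F ^ (m + n) := by
  by_cases hn : n = 0
  · subst hn
    exact (pw_two hF m).mul_mem_of_left b ha
  · rw [Submodule.pow_add F hn]
    exact Ideal.mul_mem_mul ha hb

theorem pw_anti {F : Ideal T} (hF : F.IsTwoSided) {m n : ℕ} (h : m ≤ n) : F ^ n ≤ F ^ m := by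
  obtain ⟨k, rfl⟩ := Nat.exists_eq_add_of_le h
  by_cases hk : k = 0
  · subst hk
    exact le_rfl
  · rw [Submodule.pow_add F hk, Ideal.mul_le]
    intro a ha b _
    exact (pw_two hF m).mul_mem_of_left b ha

theorem pw_ne_bot (hpT : SepFin.Prm T) {F : Ideal T} (hF0 : F ≠ ⊥) (hF : F.IsTwoSided) (k : ℕ) :
    F ^ k ≠ ⊥ := by
  obtain ⟨b, hb, hb0⟩ := Submodule.exists_mem_ne_zero_of_ne_bot hF0
  induction k with
  | zero =>
    rw [pw_zero]
    intro h1
    have h2 : b ∈ (⊤ : Ideal T) := Submodule.mem_top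
    rw [h1, Ideal.mem_bot] at h2
    exact hb0 h2
  | succ k ih =>
    obtain ⟨a, ha, ha0⟩ := Submodule.exists_mem_ne_zero_of_ne_bot ih
    intro h1
    obtain ⟨t, ht⟩ : ∃ t, a * t * b ≠ 0 := by
      by_contra h
      push Not at h
      rcases hpT a b h with h2 | h2
      · exact ha0 h2
      · exact hb0 h2
    apply ht
    rw [← Ideal.mem_bot, ← h1, Submodule.pow_succ]
    exact Ideal.mul_mem_mul ((pw_two hF k).mul_mem_of_left t ha) hb

/-- the filtration by the powers of an ideal -/
theorem flt_pow {F : Ideal T} (hF : F.IsTwoSided) : Flt fun n => F ^ n :=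
  ⟨pw_two hF, pw_zero F, fun n => pw_anti hF (Nat.le_succ n), fun _ _ _ ha _ hb => pw_mul hF ha hb⟩

end Pow

end SepGr
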