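import Pool.Agent.Lib.MP_dccecd_al.GrPrm
import Pool.Agent.Lib.MP_dccecd_al.GrPow
import Pool.Agent.Lib.MP_dccecd_al.NoeOp

/-! The theorem for prime rings of Krull dimension at most one (for MP_dccecd_al, the graded base
theorem). -/

open SepReg SepFin SepNoe

namespace SepGr

universe u v w

section Len
variable {S : Type v} [Ring S]

/-- the length of the factor module -/
noncomputable def len (I : Ideal S) : ℕ∞ := Module.length S (S ⧸ I)

theorem len_anti {I I' : Ideal S} (h : I' ≤ I) : len I ≤ len I' := by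
  rw [len, len, Module.length_quotient, Module.length_quotient]
  exact Order.coheight_anti h

theorem len_lt {I I' : Ideal S} (h : I' < I) (hfin : len I ≠ ⊤) : len I < len I' := by
  rw [len, Module.length_quotient] at hfin
  rw [len, len, Module.length_quotient, Module.length_quotient]
  exact Order.coheight_strictAnti h (lt_top_iff_ne_top.mpr hfin)

theorem len_top : len (⊤ : Ideal S) = 0 := by
  rw [len]
  have h : Subsingleton (S ⧸ (⊤ : Ideal S)) := Submodule.Quotient.subsingleton_iff.mpr rfl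
  exact Module.length_eq_zero

theorem len_step (s : S) {I I' : Ideal S} (h : ∀ x ∈ I, x * s ∈ I') :
    len I' ≤ len I + len (Ideal.span {s}) := by
  have hle : I ≤ Submodule.comap (LinearMap.toSpanSingleton S S s) I' := by
    intro x hx
    rw [Submodule.mem_comap, LinearMap.toSpanSingleton_apply, smul_eq_mul]
    exact h x hx
  set f : (S ⧸ I) →ₗ[S] (S ⧸ I') := Submodule.mapQ I I' (LinearMap.toSpanSingleton S S s) hle
    with hf
  have h1 : Module.length S (S ⧸ I') = Module.length S (LinearMap.range f) +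
      Module.length S ((S ⧸ I') ⧸ LinearMap.range f) :=
    Module.length_eq_add_of_exact (LinearMap.range f).subtype (LinearMap.range f).mkQ
      (Submodule.injective_subtype _) (Submodule.mkQ_surjective _)
      (LinearMap.exact_subtype_mkQ _)
  have h2 : Module.length S (LinearMap.range f) ≤ Module.length S (S ⧸ I) :=
    Module.length_le_of_surjective f.rangeRestrict f.surjective_rangeRestrict
  have h3 : Ideal.span {s} ≤ LinearMap.ker ((LinearMap.range f).mkQ.comp I'.mkQ) := by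
    rw [Ideal.span_singleton_le_iff_mem, LinearMap.mem_ker, LinearMap.comp_apply,
      Submodule.mkQ_apply, Submodule.Quotient.mk_eq_zero]
    refine ⟨Submodule.Quotient.mk 1, ?_⟩
    rw [hf, Submodule.mapQ_apply, LinearMap.toSpanSingleton_apply, one_smul]
    rfl
  have h4 : Module.length S ((S ⧸ I') ⧸ LinearMap.range f) ≤
      Module.length S (S ⧸ Ideal.span {s}) := by
    refine Module.length_le_of_surjective
      ((Ideal.span {s}).liftQ ((LinearMap.range f).mkQ.comp I'.mkQ) h3) ?_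
    intro q
    obtain ⟨p, rfl⟩ := Submodule.mkQ_surjective _ q
    obtain ⟨x, rfl⟩ := Submodule.mkQ_surjective _ p
    exact ⟨Submodule.Quotient.mk x, rfl⟩
  change Module.length S (S ⧸ I') ≤ Module.length S (S ⧸ I) + Module.length S (S ⧸ Ideal.span {s})
  rw [h1]
  exact add_le_add h2 h4

theorem enat_fin {b L : ℕ∞} {k : ℕ} (hL : L ≠ ⊤) (h1 : b ≤ L + k) : b ≠ ⊤ := by
  obtain ⟨l, rfl⟩ := ENat.ne_top_iff_exists.mp hL
  rintro rfl
  exact absurd (top_le_iff.mp h1) (ENat.coe_ne_top (l + k))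

theorem enat_lt {a b L : ℕ∞} {k : ℕ} (hL : L ≠ ⊤) (h1 : b ≤ L + (k + 1 : ℕ)) (h2 : a < b) :
    a ≤ L + k := by
  obtain ⟨b', rfl⟩ := ENat.ne_top_iff_exists.mp (enat_fin hL h1)
  obtain ⟨a', rfl⟩ := ENat.ne_top_iff_exists.mp (ne_top_of_lt h2)
  obtain ⟨l, rfl⟩ := ENat.ne_top_iff_exists.mp hL
  have h3 : b' ≤ l + (k + 1) := by exact_mod_cast h1
  have h4 : a' < b' := by exact_mod_cast h2
  have h5 : a' ≤ l + k := by omega
  exact_mod_cast h5

end Len

section Greedy
variable {T : Type v} [Ring T] {R : Type u} [Ring R] [VNR R] [IsNoetherianRing T]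
  [IsNoetherianRing Tᵐᵒᵖ] {F : ℕ → Ideal T}

/-- the set of the elements of a right ideal -/
def rs (V : Ideal Tᵐᵒᵖ) : Set T := {t | MulOpposite.op t ∈ V}

/-- the greedy choice of maps to the last layer -/
theorem greedy (hF : Flt F) {e : T} (he : e * e = e) {N : ℕ}
    (hs : ∀ i < N, ∀ V : Ideal Tᵐᵒᵖ, (∀ a ∈ F (N - i), ∀ b ∈ F i, MulOpposite.op (a * e * b) ∈ V) →
      ∀ t ∈ F N, MulOpposite.op t ∈ V) (L : ℕ∞) (hL : L ≠ ⊤)
    (hL1 : ∀ V : Ideal Tᵐᵒᵖ, (∀ t, MulOpposite.op t ∈ V → t ∈ F N) →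
      (∃ t ∈ F N, MulOpposite.op t ∉ V) → L < len V) (k : ℕ) :
    ∀ V : Ideal Tᵐᵒᵖ, (∀ t ∈ F (N + 1), MulOpposite.op t ∈ V) →
      (∀ t, MulOpposite.op t ∈ V → t ∈ F N) → len V ≤ L + k → ∀ S : Finset ℕ,
      S ⊆ Finset.range N → S.card = k → ∀ C : Bim T R,
        Le (rk ((fA F C N).map (C.act e)) (mulC (rs V) C))
          (∑ i ∈ S, ep C e (fA F C i) (fA F C (i + 1))) := by
  classical
  induction k with
  | zero =>
    intro V hV1 hV2 hlen S hS hcard C
    by_cases hall : ∀ t ∈ F N, MulOpposite.op t ∈ V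
    · have hM := gmod_pow hF C
      have h1 : (fA F C N).map (C.act e) ≤ mulC (rs V) C := by
        rintro _ ⟨x, hx, rfl⟩
        exact mulC_mono (fun t ht => hall t ht) C (hM.sa hF N e x hx)
      rw [rk_bot ((hM.fa N).map _) (Module.Finite.iff_fg.mp (mulC_fin _ C)) h1]
      exact ⟨_, zero_add _⟩
    · push Not at hall
      have h1 := hL1 V hV2 hall
      rw [Nat.cast_zero, add_zero] at hlen
      exact absurd h1 (not_lt.mpr hlen)
  | succ k ih =>
    intro V hV1 hV2 hlen S hS hcard C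
    have hM := gmod_pow hF C
    by_cases hall : ∀ t ∈ F N, MulOpposite.op t ∈ V
    · have h1 : (fA F C N).map (C.act e) ≤ mulC (rs V) C := by
        rintro _ ⟨x, hx, rfl⟩
        exact mulC_mono (fun t ht => hall t ht) C (hM.sa hF N e x hx)
      rw [rk_bot ((hM.fa N).map _) (Module.Finite.iff_fg.mp (mulC_fin _ C)) h1]
      exact ⟨_, zero_add _⟩
    obtain ⟨i, hi⟩ : S.Nonempty := by
      rw [← Finset.card_pos, hcard]
      exact Nat.succ_pos k
    have hiN : i < N := Finset.mem_range.mp (hS hi)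
    obtain ⟨a, ha, b, hb, hab⟩ : ∃ a ∈ F (N - i), ∃ b ∈ F i, MulOpposite.op (a * e * b) ∉ V := by
      by_contra hcon
      push Not at hcon
      exact hall (hs i hiN V hcon)
    have hxF : a * e ∈ F (N - i) := hF.r ha e
    have hxe : a * e * e = a * e := by rw [mul_assoc, he]
    set V2 : Ideal Tᵐᵒᵖ :=
      { carrier := {w | ∃ v ∈ V, ∃ b' ∈ F i, w = v + MulOpposite.op (a * e * b')}
        add_mem' := by
          rintro _ _ ⟨v, hv, c, hc, rfl⟩ ⟨w, hw, d, hd, rfl⟩
          refine ⟨v + w, V.add_mem hv hw, c + d, (F i).add_mem hc hd, ?_⟩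
          rw [mul_add, MulOpposite.op_add]
          abel
        zero_mem' := ⟨0, V.zero_mem, 0, (F i).zero_mem, by simp⟩
        smul_mem' := by
          rintro r _ ⟨v, hv, c, hc, rfl⟩
          refine ⟨r * v, V.mul_mem_left r hv, c * r.unop, hF.r hc _, ?_⟩
          rw [smul_eq_mul, mul_add, ← mul_assoc (a * e), MulOpposite.op_mul (a * e * c),
            MulOpposite.op_unop] } with hV2d
    have hle : V ≤ V2 := fun v hv => ⟨v, hv, 0, (F i).zero_mem, by simp⟩
    have hmem : MulOpposite.op (a * e * b) ∈ V2 := ⟨0, V.zero_mem, b, hb, by simp⟩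
    have hlt : V < V2 := lt_of_le_of_ne hle fun h => hab (by rw [h]; exact hmem)
    have hV22 : ∀ t, MulOpposite.op t ∈ V2 → t ∈ F N := by
      rintro t ⟨v, hv, c, hc, h⟩
      have h1 : t = v.unop + a * e * c := by
        have h2 := congrArg MulOpposite.unop h
        rwa [MulOpposite.unop_op, MulOpposite.unop_add, MulOpposite.unop_op] at h2
      rw [h1]
      refine (F N).add_mem (hV2 _ (by rwa [MulOpposite.op_unop])) ?_
      have h2 := hF.mul' hxF hc
      rwa [Nat.sub_add_cancel hiN.le] at h2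
    have hlen2 : len V2 ≤ L + k := enat_lt hL hlen (len_lt hlt (fun h =>
      enat_fin hL hlen (top_le_iff.mp (by
        rw [← h]
        exact len_anti hle))))
    have h1 := ih V2 (fun t ht => hle (hV1 t ht)) hV22 hlen2 (S.erase i)
      ((Finset.erase_subset i S).trans hS) (by rw [Finset.card_erase_of_mem hi, hcard]; rfl) C
    have hfg : ∀ V : Ideal Tᵐᵒᵖ, (mulC (rs V) C).FG := fun V =>
      Module.Finite.iff_fg.mp (mulC_fin _ C)
    refine (rk_tri ((hM.fa N).map _) (hfg V) (hfg V2)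
      (mulC_mono (S := rs V) (S' := rs V2) (fun t ht => hle ht) C)).trans ?_
    rw [← Finset.sum_erase_add S _ hi]
    refine h1.add ?_
    refine rk_cmp' ((hM.fa i).map _) (hM.fb i) (hfg V2) (hfg V)
      ((C.act (a * e)).comp ((fA F C i).map (C.act e)).subtype) ?_ ?_
    · rintro ⟨u, hu⟩ hu'
      have h3 := hM.ma (i + 1) (N - i) (a * e) hxF u hu'
      rw [show i + 1 + (N - i) = N + 1 by omega] at h3
      exact mulC_mono (fun t ht => hV1 t ht) C h3
    · have h3 : mulC (rs V2) C ≤ mulC (rs V) C ⊔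
          ((fA F C i).map (C.act e)).map (C.act (a * e)) := by
        apply mulC_le
        rintro t ⟨v, hv, c, hc, h⟩ z
        have h4 : t = v.unop + a * e * c := by
          have h2 := congrArg MulOpposite.unop h
          rwa [MulOpposite.unop_op, MulOpposite.unop_add, MulOpposite.unop_op] at h2
        rw [h4, C.act_add]
        refine Submodule.add_mem_sup (act_mem_mulC ?_ z) ?_
        · change MulOpposite.op v.unop ∈ V
          rwa [MulOpposite.op_unop]
        · refine ⟨C.act e (C.act c z), ⟨C.act c z, act_mem_mulC hc z, rfl⟩, ?_⟩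
          rw [← C.act_mul, ← C.act_mul, hxe]
      intro y hy
      obtain ⟨p, hp, q, hq, hpq⟩ := Submodule.mem_sup.mp (h3 hy)
      obtain ⟨u, hu, rfl⟩ := hq
      refine ⟨⟨u, hu⟩, ?_⟩
      have h4 : y - C.act (a * e) u = p := by rw [← hpq, add_sub_cancel_right]
      change y - C.act (a * e) u ∈ mulC (rs V) C
      rw [h4]
      exact hp

/-- the greedy choice of maps from the last layer -/
theorem greedyD (hF : Flt F) {e : T} (he : e * e = e) {N : ℕ}
    (hs : ∀ i < N, ∀ V : Ideal T, (∀ a ∈ F i, ∀ b ∈ F (N - i), a * e * b ∈ V) → F N ≤ V)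
    (L : ℕ∞) (hL : L ≠ ⊤) (hL1 : ∀ V : Ideal T, V ≤ F N → ¬ F N ≤ V → L < len V) (k : ℕ) :
    ∀ V : Ideal T, F (N + 1) ≤ V → V ≤ F N → len V ≤ L + k → ∀ S : Finset ℕ,
      S ⊆ Finset.range N → S.card = k → ∀ C : Bim T R,
        Le (rk ((fB F C (N + 1)).map (C.act e) ⊓ annC (V : Set T) C) (fB F C N))
          (∑ i ∈ S, ep C e (fB F C (i + 1)) (fB F C i)) := by
  classical
  have hzero : ∀ (V : Ideal T) (C : Bim T R), F N ≤ V → ∀ w : VR R,
      Le (rk ((fB F C (N + 1)).map (C.act e) ⊓ annC (V : Set T) C) (fB F C N)) w := by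
    intro V C hall w
    have hM := cmod_pow hF C
    have h1 : (fB F C (N + 1)).map (C.act e) ⊓ annC (V : Set T) C ≤ fB F C N :=
      inf_le_right.trans (annC_anti (fun t ht => hall ht) C)
    rw [rk_bot (fg_inf ((hM.fa N).map _) (Module.Finite.iff_fg.mp (annC_fin _ C))) (hM.fb N) h1]
    exact ⟨_, zero_add _⟩
  induction k with
  | zero =>
    intro V hV1 hV2 hlen S hS hcard C
    by_cases hall : F N ≤ V
    · exact hzero V C hall _
    · have h1 := hL1 V hV2 hall
      rw [Nat.cast_zero, add_zero] at hlen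
      exact absurd h1 (not_lt.mpr hlen)
  | succ k ih =>
    intro V hV1 hV2 hlen S hS hcard C
    have hM := cmod_pow hF C
    by_cases hall : F N ≤ V
    · exact hzero V C hall _
    obtain ⟨i, hi⟩ : S.Nonempty := by
      rw [← Finset.card_pos, hcard]
      exact Nat.succ_pos k
    have hiN : i < N := Finset.mem_range.mp (hS hi)
    obtain ⟨a, ha, b, hb, hab⟩ : ∃ a ∈ F i, ∃ b ∈ F (N - i), a * e * b ∉ V := by
      by_contra hcon
      push Not at hcon
      exact hall (hs i hiN V hcon)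
    have hxF : e * b ∈ F (N - i) := (F (N - i)).mul_mem_left e hb
    set V2 : Ideal T :=
      { carrier := {w | ∃ v ∈ V, ∃ a' ∈ F i, w = v + a' * (e * b)}
        add_mem' := by
          rintro _ _ ⟨v, hv, c, hc, rfl⟩ ⟨w, hw, d, hd, rfl⟩
          refine ⟨v + w, V.add_mem hv hw, c + d, (F i).add_mem hc hd, ?_⟩
          rw [add_mul]
          abel
        zero_mem' := ⟨0, V.zero_mem, 0, (F i).zero_mem, by simp⟩
        smul_mem' := by
          rintro r _ ⟨v, hv, c, hc, rfl⟩
          refine ⟨r * v, V.mul_mem_left r hv, r * c, (F i).mul_mem_left r hc, ?_⟩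
          rw [smul_eq_mul, mul_add, ← mul_assoc r c] } with hV2d
    have hle : V ≤ V2 := fun v hv => ⟨v, hv, 0, (F i).zero_mem, by simp⟩
    have hmem : a * e * b ∈ V2 := ⟨0, V.zero_mem, a, ha, by rw [zero_add, mul_assoc]⟩
    have hlt : V < V2 := lt_of_le_of_ne hle fun h => hab (by rw [h]; exact hmem)
    have hV22 : V2 ≤ F N := by
      rintro t ⟨v, hv, c, hc, rfl⟩
      refine (F N).add_mem (hV2 hv) ?_
      have h2 := hF.mul' hc hxF
      rwa [show i + (N - i) = N by omega] at h2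
    have hlen2 : len V2 ≤ L + k := enat_lt hL hlen (len_lt hlt (fun h =>
      enat_fin hL hlen (top_le_iff.mp (by
        rw [← h]
        exact len_anti hle))))
    have h1 := ih V2 (hV1.trans hle) hV22 hlen2 (S.erase i)
      ((Finset.erase_subset i S).trans hS) (by rw [Finset.card_erase_of_mem hi, hcard]; rfl) C
    have hfg : ∀ V : Ideal T, ((fB F C (N + 1)).map (C.act e) ⊓ annC (V : Set T) C).FG := fun V =>
      fg_inf ((hM.fa N).map _) (Module.Finite.iff_fg.mp (annC_fin _ C))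
    rw [← Finset.sum_erase_add S _ hi]
    refine (rk_ker (hfg V) (hfg V2) (hM.fb N) ((hM.fa i).map (C.act e)) (hM.fb i)
      ((C.act (e * b)).comp ((fB F C (N + 1)).map (C.act e) ⊓ annC (V : Set T) C).subtype)
      ?_ ?_).trans (h1.add Le.rfl')
    · rintro ⟨y, hy1, hy2⟩ hy
      refine ⟨hy1, ?_⟩
      rw [SetLike.mem_coe, mem_annC] at hy2 ⊢
      rintro _ ⟨v, hv, c, hc, rfl⟩
      have h3 : C.act (e * b) y ∈ fB F C i := hy
      rw [mem_annC] at h3
      rw [C.act_add, hy2 v hv, C.act_mul, h3 c hc, add_zero]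
    · rintro ⟨y, hy1, hy2⟩
      refine (le_sup_left : (fB F C (i + 1)).map (C.act e) ≤ _) ⟨C.act b y, ?_, ?_⟩
      · obtain ⟨z, hz, rfl⟩ := hy1
        have h3 : C.act e z ∈ fB F C (N + 1) := hM.sb hF (N + 1) e z hz
        refine hM.mb (i + 1) (N - i) b hb _ ?_
        rwa [show i + 1 + (N - i) = N + 1 by omega]
      · rw [← C.act_mul]
        rfl

end Greedy

section Kd
variable {T : Type v} [Ring T] {R : Type u} [Ring R] [VNR R] [IsNoetherianRing T]
  [IsNoetherianRing Tᵐᵒᵖ] {G : Ideal T}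

omit [IsNoetherianRing T] [IsNoetherianRing Tᵐᵒᵖ] in
theorem tsp_mem {e : T} {V : T → Prop} {A B : Ideal T} (hA : A.IsTwoSided)
    (h0 : V 0) (hadd : ∀ x y, V x → V y → V (x + y))
    (h : ∀ a ∈ A, ∀ b ∈ B, V (a * e * b)) :
    ∀ q ∈ tsp e, ∀ a ∈ A, ∀ b ∈ B, V (a * q * b) := by
  intro q hq
  induction hq using Submodule.span_induction with
  | mem q hq =>
    obtain ⟨v, rfl⟩ := hq
    intro a ha b hb
    change V (a * (e * v) * b)
    rw [← mul_assoc a, mul_assoc (a * e)]
    exact h a ha _ (B.mul_mem_left v hb)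
  | zero =>
    intro a _ b _
    rw [mul_zero, zero_mul]
    exact h0
  | add p q _ _ hp hq =>
    intro a ha b hb
    rw [mul_add, add_mul]
    exact hadd _ _ (hp a ha b hb) (hq a ha b hb)
  | smul r p _ hp =>
    intro a ha b hb
    rw [smul_eq_mul, ← mul_assoc a r]
    exact hp _ (hA.mul_mem_of_left r ha) b hb

omit [IsNoetherianRing T] [IsNoetherianRing Tᵐᵒᵖ] in
theorem split_r (hG : G.IsTwoSided) {e : T} (hGe : G ≤ G * tsp e) {N i : ℕ} (hi : i < N)
    (V : Ideal Tᵐᵒᵖ) (h : ∀ a ∈ G ^ (N - i), ∀ b ∈ G ^ i, MulOpposite.op (a * e * b) ∈ V) :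
    ∀ t ∈ G ^ N, MulOpposite.op t ∈ V := by
  have h0 : MulOpposite.op (0 : T) ∈ V := by
    rw [MulOpposite.op_zero]
    exact V.zero_mem
  have hadd : ∀ x y : T, MulOpposite.op x ∈ V → MulOpposite.op y ∈ V →
      MulOpposite.op (x + y) ∈ V := fun x y hx hy => by
    rw [MulOpposite.op_add]
    exact V.add_mem hx hy
  have h1 := tsp_mem (V := fun t => MulOpposite.op t ∈ V) (pw_two hG (N - i)) h0 hadd h
  have h2 : ∀ p ∈ G ^ (N - i), ∀ b ∈ G ^ i, MulOpposite.op (p * b) ∈ V := by
    intro p hp b hb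
    have h3 : p ∈ G ^ (N - i) * tsp e := by
      obtain ⟨m, hm⟩ := Nat.exists_eq_add_of_lt hi
      rw [show N - i = m + 1 by omega, Submodule.pow_succ] at hp ⊢
      rw [mul_assoc]
      exact Ideal.mul_mono_right hGe hp
    refine Submodule.smul_induction_on (p := fun p => MulOpposite.op (p * b) ∈ V) h3 ?_ ?_
    · intro a ha q hq
      exact h1 q hq a ha b hb
    · intro x y hx hy
      rw [add_mul]
      exact hadd _ _ hx hy
  intro t ht
  by_cases hi0 : i = 0
  · subst hi0
    have h3 := h2 t (by rwa [Nat.sub_zero]) 1 (by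
      rw [pw_zero]
      exact Submodule.mem_top)
    rwa [mul_one] at h3
  · have h3 : t ∈ G ^ (N - i) * G ^ i := by
      rw [← Submodule.pow_add G hi0, Nat.sub_add_cancel hi.le]
      exact ht
    refine Submodule.smul_induction_on (p := fun t => MulOpposite.op t ∈ V) h3 ?_ ?_
    · intro a ha b hb
      exact h2 a ha b hb
    · intro x y hx hy
      exact hadd _ _ hx hy

omit [IsNoetherianRing T] [IsNoetherianRing Tᵐᵒᵖ] in
theorem split_l (hG : G.IsTwoSided) {e : T} (hGe : G ≤ tsp e * G) {N i : ℕ} (hi : i < N)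
    (V : Ideal T) (h : ∀ a ∈ G ^ i, ∀ b ∈ G ^ (N - i), a * e * b ∈ V) : G ^ N ≤ V := by
  have h1 := tsp_mem (V := fun t => t ∈ V) (pw_two hG i) V.zero_mem
    (fun x y hx hy => V.add_mem hx hy) h
  have hle : G ^ (N - i) ≤ tsp e * G ^ (N - i) := by
    obtain ⟨m, hm⟩ := Nat.exists_eq_add_of_lt hi
    rw [show N - i = m + 1 by omega, pw_succ' hG, ← mul_assoc]
    exact Ideal.mul_mono_left hGe
  have h2 : ∀ a ∈ G ^ i, ∀ p ∈ G ^ (N - i), a * p ∈ V := by
    intro a ha p hp
    refine Submodule.smul_induction_on (p := fun p => a * p ∈ V) (hle hp) ?_ ?_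
    · intro q hq b hb
      change a * (q * b) ∈ V
      rw [← mul_assoc]
      exact h1 q hq a ha b hb
    · intro x y hx hy
      rw [mul_add]
      exact V.add_mem hx hy
  intro t ht
  by_cases hi0 : i = 0
  · subst hi0
    have h3 := h2 1 (by
      rw [pw_zero]
      exact Submodule.mem_top) t (by rwa [Nat.sub_zero])
    rwa [one_mul] at h3
  · have h3 : t ∈ G ^ i * G ^ (N - i) := by
      rw [← Submodule.pow_add G (by omega), Nat.add_sub_cancel' hi.le]
      exact ht
    exact (Ideal.mul_le.mpr h2) h3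

omit [IsNoetherianRing T] [IsNoetherianRing Tᵐᵒᵖ] in
theorem blocks {a : VR R} {b : ℕ → VR R} {l N : ℕ}
    (h : ∀ S : Finset ℕ, S ⊆ Finset.range N → S.card = l → Le a (∑ i ∈ S, b i)) (c : ℕ)
    (hc : c * l ≤ N) : Le (c • a) (∑ i ∈ Finset.range N, b i) := by
  have key : ∀ c, c * l ≤ N → Le (c • a) (∑ i ∈ Finset.range (c * l), b i) := by
    intro c
    induction c with
    | zero =>
      intro _
      rw [zero_nsmul]
      exact ⟨_, zero_add _⟩
    | succ c ih =>
      intro hc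
      have hcl : (c + 1) * l = c * l + l := by ring
      rw [succ_nsmul, hcl, Finset.range_eq_Ico,
        ← Finset.sum_Ico_consecutive _ (Nat.zero_le (c * l)) (Nat.le_add_right (c * l) l)]
      rw [← Finset.range_eq_Ico]
      refine (ih (by omega)).add (h _ ?_ ?_)
      · intro i hi
        rw [Finset.mem_Ico] at hi
        rw [Finset.mem_range]
        omega
      · rw [Nat.card_Ico]
        omega
  exact (key c hc).trans (Le.sum_sub (Finset.range_mono hc) _)

theorem dom_kd (hG : G.IsTwoSided) {e : T} (he : e * e = e) (hGe : G ≤ G * tsp e) {s : T}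
    (hs : s ∈ G) (hlen : len (Ideal.span {MulOpposite.op s} : Ideal Tᵐᵒᵖ) ≠ ⊤) (c : ℕ) :
    Dom R (fun n => G ^ n) e c := by
  obtain ⟨l, hl⟩ := ENat.ne_top_iff_exists.mp hlen
  have htw : ∀ n, (G ^ n).IsTwoSided := pw_two hG
  have hF := flt_pow hG
  have hstep : ∀ n, len (opI (G ^ (n + 1))) ≤ len (opI (G ^ n)) + l := by
    intro n
    rw [hl]
    refine len_step (MulOpposite.op s) fun x hx => ?_
    rw [mem_opI] at hx ⊢
    rw [MulOpposite.unop_mul, MulOpposite.unop_op, pw_succ' hG]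
    exact Ideal.mul_mem_mul hs hx
  have hfin : ∀ n, len (opI (G ^ n)) ≠ ⊤ := by
    intro n
    induction n with
    | zero =>
      have h1 : opI (G ^ 0) = ⊤ := by
        rw [eq_top_iff]
        intro x _
        rw [mem_opI, pw_zero]
        exact Submodule.mem_top
      rw [h1, len_top]
      exact ENat.zero_ne_top
    | succ n ih => exact enat_fin ih (hstep n)
  refine ⟨c * l, fun N hN C => ?_⟩
  have hM := gmod_pow hF C
  refine blocks (fun S hS hcard => ?_) c hN
  set V : Ideal Tᵐᵒᵖ :=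
    { carrier := {w | ∃ u ∈ G ^ (N + 1), ∃ t ∈ G ^ N, w.unop = u + (1 - e) * t}
      add_mem' := by
        rintro a b ⟨u, hu, t, ht, h1⟩ ⟨u', hu', t', ht', h1'⟩
        refine ⟨u + u', Ideal.add_mem _ hu hu', t + t', Ideal.add_mem _ ht ht', ?_⟩
        rw [MulOpposite.unop_add, h1, h1', mul_add]
        abel
      zero_mem' := ⟨0, Ideal.zero_mem _, 0, Ideal.zero_mem _, by simp⟩
      smul_mem' := by
        rintro r a ⟨u, hu, t, ht, h1⟩
        refine ⟨u * r.unop, (htw _).mul_mem_of_left _ hu, t * r.unop,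
          (htw _).mul_mem_of_left _ ht, ?_⟩
        rw [smul_eq_mul, MulOpposite.unop_mul, h1, add_mul, mul_assoc] } with hV
  have hV1 : ∀ t ∈ G ^ (N + 1), MulOpposite.op t ∈ V := fun t ht =>
    ⟨t, ht, 0, Ideal.zero_mem _, by simp⟩
  have hV2 : ∀ t, MulOpposite.op t ∈ V → t ∈ G ^ N := by
    rintro t ⟨u, hu, t', ht', h1⟩
    rw [MulOpposite.unop_op] at h1
    rw [h1]
    exact Ideal.add_mem _ (hF.anti N hu) (Ideal.mul_mem_left _ _ ht')
  have hlenV : len V ≤ len (opI (G ^ N)) + l := by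
    refine (len_anti ?_).trans (hstep N)
    intro x hx
    have h1 := hV1 x.unop (mem_opI.mp hx)
    rwa [MulOpposite.op_unop] at h1
  have h1 := greedy (R := R) hF he (N := N) (fun i hi V h => split_r hG hGe hi V h)
    (len (opI (G ^ N))) (hfin N) (fun V h2 h3 => by
      obtain ⟨t, ht, htV⟩ := h3
      refine len_lt (lt_of_le_of_ne ?_ ?_) (hfin N)
      · intro x hx
        rw [mem_opI]
        apply h2
        rwa [MulOpposite.op_unop]
      · intro h4
        apply htV
        rw [h4]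
        exact mem_opI.mpr ht) l V hV1 hV2 hlenV S hS hcard C
  refine Le.trans ?_ h1
  refine rk_anti ((hM.fa N).map _) (Module.Finite.iff_fg.mp (mulC_fin _ C)) (hM.fb N) ?_
  have h2 : mulC (rs V) C ≤ (fA (fun n => G ^ n) C (N + 1)).comap (C.act e) := by
    apply mulC_le
    rintro t ⟨u, hu, t', ht', h3⟩ z
    rw [MulOpposite.unop_op] at h3
    rw [Submodule.mem_comap, ← C.act_mul, h3, mul_add, ← mul_assoc, mul_sub, mul_one, he, sub_self,
      zero_mul, add_zero]
    exact act_mem_mulC (Ideal.mul_mem_left _ _ hu) z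
  rintro y ⟨hy1, hy2⟩
  have h3 := h2 hy1
  rwa [Submodule.mem_comap, idem_map he hy2] at h3

theorem domD_kd (hG : G.IsTwoSided) {e : T} (he : e * e = e) (hGe : G ≤ tsp e * G) {s : T}
    (hs : s ∈ G) (hlen : len (Ideal.span {s} : Ideal T) ≠ ⊤) (c : ℕ) :
    DomD R (fun n => G ^ n) e c := by
  obtain ⟨l, hl⟩ := ENat.ne_top_iff_exists.mp hlen
  have htw : ∀ n, (G ^ n).IsTwoSided := pw_two hG
  have hF := flt_pow hG
  have hstep : ∀ n, len (G ^ (n + 1)) ≤ len (G ^ n) + l := by
    intro n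
    rw [hl]
    refine len_step s fun x hx => ?_
    rw [Submodule.pow_succ]
    exact Ideal.mul_mem_mul hx hs
  have hfin : ∀ n, len (G ^ n) ≠ ⊤ := by
    intro n
    induction n with
    | zero =>
      rw [pw_zero, len_top]
      exact ENat.zero_ne_top
    | succ n ih => exact enat_fin ih (hstep n)
  refine ⟨c * l, fun N hN C => ?_⟩
  have hM := cmod_pow hF C
  refine blocks (fun S hS hcard => ?_) c hN
  set V : Ideal T :=
    { carrier := {w | ∃ u ∈ G ^ (N + 1), ∃ t ∈ G ^ N, w = u + t * (1 - e)}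
      add_mem' := by
        rintro _ _ ⟨u, hu, t, ht, rfl⟩ ⟨u', hu', t', ht', rfl⟩
        refine ⟨u + u', Ideal.add_mem _ hu hu', t + t', Ideal.add_mem _ ht ht', ?_⟩
        rw [add_mul]
        abel
      zero_mem' := ⟨0, Ideal.zero_mem _, 0, Ideal.zero_mem _, by simp⟩
      smul_mem' := by
        rintro r _ ⟨u, hu, t, ht, rfl⟩
        refine ⟨r * u, Ideal.mul_mem_left _ _ hu, r * t, Ideal.mul_mem_left _ _ ht, ?_⟩
        rw [smul_eq_mul, mul_add, mul_assoc] } with hV
  have hV1 : G ^ (N + 1) ≤ V := fun t ht => ⟨t, ht, 0, Ideal.zero_mem _, by simp⟩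
  have hV2 : V ≤ G ^ N := by
    rintro _ ⟨u, hu, t', ht', rfl⟩
    exact Ideal.add_mem _ (hF.anti N hu) ((htw N).mul_mem_of_left _ ht')
  have h1 := greedyD (R := R) hF he (N := N) (fun i hi V h => split_l hG hGe hi V h)
    (len (G ^ N)) (hfin N) (fun V h2 h3 => by
      refine len_lt (lt_of_le_of_ne h2 ?_) (hfin N)
      rintro rfl
      exact h3 le_rfl) l V hV1 hV2 ((len_anti hV1).trans (hstep N)) S hS hcard C
  refine Le.trans ?_ h1
  refine rk_mono ((hM.fa N).map _) (fg_inf ((hM.fa N).map _)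
    (Module.Finite.iff_fg.mp (annC_fin _ C))) (hM.fb N) (le_trans ?_ le_sup_left)
  intro y hy
  refine ⟨hy, ?_⟩
  have hy2 : y ∈ fB (fun n => G ^ n) C (N + 1) := by
    obtain ⟨z, hz, rfl⟩ := hy
    exact hM.sa hF N e z hz
  rw [mem_annC] at hy2
  rw [SetLike.mem_coe, mem_annC]
  rintro _ ⟨u, hu, t', ht', rfl⟩
  rw [C.act_add, hy2 u hu, C.act_mul, C.act_sub, C.act_one, idem_map he hy, sub_self, map_zero,
    add_zero]

/-- prime rings of Krull dimension at most one on both sides -/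
theorem prime_kd (hpT : Prm T)
    (hK : ∀ s ∈ nonZeroDivisors T, IsArtinian T (T ⧸ Ideal.span {s}) ∧
      IsArtinian Tᵐᵒᵖ (Tᵐᵒᵖ ⧸ Ideal.span {MulOpposite.op s}))
    {e f x y : T} (he : e * e = e) (hf : f * f = f) (hxy : x * y = 1 - e) (hyx : y * x = 1 - f)
    (h3 : ∀ (E : Bim T R) (J : Ideal T), J.IsTwoSided → J ≠ ⊥ → (∀ t ∈ J, E.act t = 0) →
      pp e E = pp f E) (C : Bim T R) : pp e C = pp f C := by
  by_cases he0 : e = 0
  · rw [e_zero hpT he0 hxy hyx, he0]
  refine prime_abs hpT he hf hxy hyx (fun J hJ hJ0 c => ?_) h3 he0 C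
  have hmul0 : ∀ {A B : Ideal T}, A.IsTwoSided → A ≠ ⊥ → B ≠ ⊥ → A * B ≠ ⊥ := by
    intro A B hA hA0 hB0 h0
    obtain ⟨a, ha, ha0⟩ := Submodule.exists_mem_ne_zero_of_ne_bot hA0
    obtain ⟨b, hb, hb0⟩ := Submodule.exists_mem_ne_zero_of_ne_bot hB0
    rcases hpT a b (fun t => by
      rw [← Ideal.mem_bot, ← h0]
      exact Ideal.mul_mem_mul (hA.mul_mem_of_left t ha) hb) with h1 | h1
    · exact ha0 h1
    · exact hb0 h1
  have hE : tsp e ≤ tsp e * tsp e := by
    rw [tsp, Ideal.span_le]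
    rintro _ ⟨v, rfl⟩
    have h1 : e * v = e * (e * v) := by rw [← mul_assoc, he]
    change e * v ∈ _
    rw [h1]
    exact Ideal.mul_mem_mul (mem_tsp e) ((tsp_two e).mul_mem_of_left v (mem_tsp e))
  have hE0 : tsp e ≠ ⊥ := by
    intro h1
    apply he0
    have h2 := mem_tsp e
    rwa [h1, Ideal.mem_bot] at h2
  set G : Ideal T := tsp e * J * tsp e with hGd
  have h1 : (tsp e * J).IsTwoSided := mul_two hJ
  have hG : G.IsTwoSided := mul_two (tsp_two e)
  have hG0 : G ≠ ⊥ := hmul0 h1 (hmul0 (tsp_two e) hE0 hJ0) hE0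
  have hGJ : G ≤ J := by
    rw [hGd, Ideal.mul_le]
    intro a ha b _
    refine hJ.mul_mem_of_left b ?_
    have h2 : tsp e * J ≤ J := Ideal.mul_le.mpr fun a _ b hb => J.mul_mem_left a hb
    exact h2 ha
  have hGr : G ≤ G * tsp e := by
    rw [hGd, mul_assoc (tsp e * J)]
    exact Ideal.mul_mono_right hE
  have hGl : G ≤ tsp e * G := by
    rw [hGd, mul_assoc (tsp e) J, ← mul_assoc (tsp e) (tsp e)]
    exact Ideal.mul_mono_left hE
  obtain ⟨s, hs, hreg⟩ := ess_exists hpT (L := G) (by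
    intro w hw
    obtain ⟨g, hg, hg0⟩ := Submodule.exists_mem_ne_zero_of_ne_bot hG0
    obtain ⟨t, ht⟩ : ∃ t, g * t * w ≠ 0 := by
      by_contra h
      push Not at h
      rcases hpT g w h with h2 | h2
      · exact hg0 h2
      · exact hw h2
    refine ⟨g * t, ht, ?_⟩
    exact hG.mul_mem_of_left _ (hG.mul_mem_of_left _ hg))
  obtain ⟨k1, k2⟩ := hK s hreg
  refine ⟨J, hJ, le_rfl, hJ0, fun n => G ^ n, flt_pow hG, pw_ne_bot hpT hG0 hG,
    dom_kd hG he hGr hs Module.length_ne_top c, domD_kd hG he hGl hs Module.length_ne_top c,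
    fun n => ?_, fun n => ?_⟩
  · change G ^ (n + 1) * J ≤ J * G ^ n * J
    rw [pw_succ' hG]
    exact Ideal.mul_mono_left (Ideal.mul_mono_left hGJ)
  · change J * G ^ (n + 1) ≤ J * G ^ n * J
    rw [Submodule.pow_succ, ← mul_assoc]
    exact Ideal.mul_mono_right hGJ

end Kd

end SepGr
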