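import Pool.Agent.Lib.MP_dccecd_al.NoeMain

/-! The condition of the noetherian base theorem (for MP_dccecd_al) passes to matrix rings. -/

open SepReg SepFin Matrix

namespace SepNoe

universe u v w

section Mat
variable {T : Type v} [Ring T] {n : ℕ}

/-- the entries of the matrices in a two-sided ideal -/
def ent (P : Ideal (Matrix (Fin n) (Fin n) T)) : Ideal T where
  carrier := {t | ∀ i j, single i j t ∈ P}
  add_mem' := fun {a b} ha hb i j => by
    rw [single_add]
    exact P.add_mem (ha i j) (hb i j)
  zero_mem' := fun i j => by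
    rw [single_zero]
    exact P.zero_mem
  smul_mem' := fun r t ht i j => by
    rw [smul_eq_mul, ← single_mul_single_same r i i j t]
    exact P.mul_mem_left _ (ht i j)

theorem mem_ent {P : Ideal (Matrix (Fin n) (Fin n) T)} {t : T} :
    t ∈ ent P ↔ ∀ i j, single i j t ∈ P := Iff.rfl

theorem ent_two {P : Ideal (Matrix (Fin n) (Fin n) T)} (hP : P.IsTwoSided) :
    (ent P).IsTwoSided := by
  constructor
  intro a b ha
  rw [mem_ent] at ha ⊢
  intro i j
  rw [← single_mul_single_same a i j j b]
  exact hP.mul_mem_of_left _ (ha i j)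

theorem mem_iff_ent {P : Ideal (Matrix (Fin n) (Fin n) T)} (hP : P.IsTwoSided)
    {M : Matrix (Fin n) (Fin n) T} : M ∈ P ↔ ∀ i j, M i j ∈ ent P := by
  constructor
  · intro hM i j
    rw [mem_ent]
    intro k l
    have h1 : single k l (M i j) = single k i (1 : T) * M * single j l (1 : T) := by
      rw [single_mul_mul_single, one_mul, mul_one]
    rw [h1]
    exact hP.mul_mem_of_left _ (P.mul_mem_left _ hM)
  · intro h
    rw [matrix_eq_sum_single M]
    exact P.sum_mem fun i _ => P.sum_mem fun j _ => h i j i j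

theorem ent_prime {P : Ideal (Matrix (Fin n) (Fin n) T)}
    (hp : ∀ a b : Matrix (Fin n) (Fin n) T, (∀ t, a * t * b ∈ P) → a ∈ P ∨ b ∈ P) :
    ∀ a b : T, (∀ t, a * t * b ∈ ent P) → a ∈ ent P ∨ b ∈ ent P := by
  intro a b hab
  by_cases ha : a ∈ ent P
  · exact Or.inl ha
  right
  rw [mem_ent] at ha
  push Not at ha
  obtain ⟨i, j, hij⟩ := ha
  have h1 : ∀ k l, single k l b ∈ P := by
    intro k l
    rcases hp (single i j a) (single k l b) (fun M => by
      rw [single_mul_mul_single]
      exact hab _ i l) with h | h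
    · exact absurd h hij
    · exact h
  exact h1

/-- the matrices with entries in an ideal -/
theorem matrix_two {J : Ideal T} (hJ : J.IsTwoSided) : (J.matrix (Fin n)).IsTwoSided := by
  constructor
  intro a b ha i j
  rw [mul_apply]
  exact J.sum_mem fun k _ => hJ.mul_mem_of_left _ (ha i k)

theorem cen_matrix (hT : Cen T) : Cen (Matrix (Fin n) (Fin n) T) := by
  intro P hP hp I hI hIP
  obtain ⟨M, hMI, hMP⟩ := SetLike.not_le_iff_exists.mp hIP
  have h1 : ¬ ent I ≤ ent P := by
    intro hle
    apply hMP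
    rw [mem_iff_ent hP]
    exact fun i j => hle ((mem_iff_ent hI).mp hMI i j)
  have hn : Nonempty (Fin n) := by
    by_contra hcon
    rw [not_nonempty_iff] at hcon
    apply hMP
    rw [mem_iff_ent hP]
    exact fun i => (hcon.false i).elim
  obtain ⟨i0⟩ := hn
  obtain ⟨J, hJ, hJI, hJP, z, hz, hzc, hzJ⟩ := hT (ent P) (ent_two hP) (ent_prime hp) (ent I)
    (ent_two hI) h1
  have hmem : ∀ t ∈ J * J ⊔ ent P, ∀ i j : Fin n,
      single i j t ∈ J.matrix (Fin n) * J.matrix (Fin n) ⊔ P := by
    set K : Ideal T := ent (J.matrix (Fin n) * J.matrix (Fin n) ⊔ P) with hK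
    have h2 : J * J ⊔ ent P ≤ K := by
      refine sup_le ?_ ?_
      · rw [Ideal.mul_le]
        intro a ha b hb i j
        rw [← single_mul_single_same a i i j b]
        refine (le_sup_left : J.matrix (Fin n) * J.matrix (Fin n) ≤ _) (Ideal.mul_mem_mul ?_ ?_)
        · intro k l
          rw [single_apply]
          split_ifs
          · exact ha
          · exact J.zero_mem
        · intro k l
          rw [single_apply]
          split_ifs
          · exact hb
          · exact J.zero_mem
      · intro t ht i j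
        exact (le_sup_right : P ≤ _) (ht i j)
    exact fun t ht => h2 ht
  refine ⟨J.matrix (Fin n), matrix_two hJ, ?_, ?_, diagonal fun _ => z, ?_, ?_, ?_⟩
  · intro M hM
    rw [mem_iff_ent hI]
    exact fun i j => hJI (hM i j)
  · intro hle
    apply hJP
    intro t ht
    rw [mem_ent]
    intro i j
    apply hle
    intro k l
    rw [single_apply]
    split_ifs
    · exact ht
    · exact J.zero_mem
  · intro h2
    apply hz
    have h3 := (mem_iff_ent hP).mp h2 i0 i0
    rwa [diagonal_apply_eq] at h3
  · intro N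
    rw [mem_iff_ent hP]
    intro i j
    rw [Matrix.sub_apply, diagonal_mul, mul_diagonal]
    exact hzc _
  · intro N hN
    rw [matrix_eq_sum_single (diagonal (fun _ => z) * N)]
    refine Ideal.sum_mem _ fun i _ => Ideal.sum_mem _ fun j _ => ?_
    apply hmem
    rw [diagonal_mul]
    exact hzJ _ (hN i j)

end Mat

section Loc
variable {T : Type v} [Ring T] {R : Type u} [Ring R] [VNR R]

/-- every finite subset is contained in a subring which is noetherian on both sides and satisfies
the condition `Cen` -/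
def LocCen (T : Type v) [Ring T] : Prop :=
  ∀ s : Finset T, ∃ T0 : Subring T, (s : Set T) ⊆ T0 ∧ IsNoetherianRing T0 ∧
    IsNoetherianRing T0ᵐᵒᵖ ∧ Cen T0

theorem mat_main (hT : LocCen T) {n : ℕ} {e f x y : Matrix (Fin n) (Fin n) T} (he : e * e = e)
    (hf : f * f = f) (hxy : x * y = 1 - e) (hyx : y * x = 1 - f)
    (C : Bim (Matrix (Fin n) (Fin n) T) R) : pp e C = pp f C := by
  classical
  obtain ⟨T0, hs, hn1, hn2, hc⟩ := hT
    ((Finset.univ.image fun p : Fin n × Fin n => e p.1 p.2) ∪
      (Finset.univ.image fun p : Fin n × Fin n => f p.1 p.2) ∪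
      (Finset.univ.image fun p : Fin n × Fin n => x p.1 p.2) ∪
      (Finset.univ.image fun p : Fin n × Fin n => y p.1 p.2))
  have me : ∀ i j, e i j ∈ T0 := fun i j => hs (by
    simp only [Finset.coe_union, Set.mem_union, Finset.coe_image, Finset.coe_univ, Set.image_univ]
    exact Or.inl (Or.inl (Or.inl ⟨(i, j), rfl⟩)))
  have mf : ∀ i j, f i j ∈ T0 := fun i j => hs (by
    simp only [Finset.coe_union, Set.mem_union, Finset.coe_image, Finset.coe_univ, Set.image_univ]
    exact Or.inl (Or.inl (Or.inr ⟨(i, j), rfl⟩)))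
  have mx : ∀ i j, x i j ∈ T0 := fun i j => hs (by
    simp only [Finset.coe_union, Set.mem_union, Finset.coe_image, Finset.coe_univ, Set.image_univ]
    exact Or.inl (Or.inr ⟨(i, j), rfl⟩))
  have my : ∀ i j, y i j ∈ T0 := fun i j => hs (by
    simp only [Finset.coe_union, Set.mem_union, Finset.coe_image, Finset.coe_univ, Set.image_univ]
    exact Or.inr ⟨(i, j), rfl⟩)
  set φ : Matrix (Fin n) (Fin n) T0 →+* Matrix (Fin n) (Fin n) T := T0.subtype.mapMatrix with hφ
  have hφi : Function.Injective φ := by
    intro M N h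
    ext i j
    have h1 := congrFun (congrFun h i) j
    exact h1
  set e0 : Matrix (Fin n) (Fin n) T0 := fun i j => ⟨e i j, me i j⟩ with he0
  set f0 : Matrix (Fin n) (Fin n) T0 := fun i j => ⟨f i j, mf i j⟩ with hf0
  set x0 : Matrix (Fin n) (Fin n) T0 := fun i j => ⟨x i j, mx i j⟩ with hx0
  set y0 : Matrix (Fin n) (Fin n) T0 := fun i j => ⟨y i j, my i j⟩ with hy0
  have ke : φ e0 = e := rfl
  have kf : φ f0 = f := rfl
  have kx : φ x0 = x := rfl
  have ky : φ y0 = y := rfl
  have hop : IsNoetherianRing (Matrix (Fin n) (Fin n) T0)ᵐᵒᵖ :=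
    isNoetherianRing_of_surjective (Matrix (Fin n) (Fin n) T0ᵐᵒᵖ) _
      (RingEquiv.mopMatrix (m := Fin n) (α := T0)).toRingHom
      (RingEquiv.mopMatrix (m := Fin n) (α := T0)).surjective
  have h1 := noe_main (R := R) (cen_matrix (n := n) hc) (e := e0) (f := f0) (x := x0) (y := y0)
    (hφi (by rw [map_mul, ke, he])) (hφi (by rw [map_mul, kf, hf]))
    (hφi (by rw [map_mul, kx, ky, map_sub, map_one, ke, hxy]))
    (hφi (by rw [map_mul, kx, ky, map_sub, map_one, kf, hyx])) (C.res φ)
  exact h1

end Loc

end SepNoe
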