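import Pool.Agent.Lib.MP_dccecd_al.GrKd
import Pool.Agent.Lib.MP_dccecd_al.NoeMat

/-! Krull dimension at most one passes to matrix rings (for MP_dccecd_al, the graded base
theorem). -/

open SepReg SepFin SepNoe Matrix

namespace SepGr

universe u v w

/-- the factor modules by regular elements are artinian -/
def KdL (S : Type v) [Ring S] : Prop := ∀ s ∈ nonZeroDivisors S, IsArtinian S (S ⧸ Ideal.span {s})

/-- matrix units -/
structure MU {B : Type v} {S : Type w} [Ring B] [Ring S] (n : ℕ) (ι : B →+* S)
    (u : Fin n → Fin n → S) : Prop where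
  mul : ∀ i j k l, u i j * u k l = if j = k then u i l else 0
  one : ∑ i, u i i = 1
  comm : ∀ b i j, ι b * u i j = u i j * ι b
  ent : ∀ s i k, ∃ b, u i k * s * u i i = ι b * u i i
  inj : ∀ b i, ι b * u i i = 0 → b = 0

section MU
variable {B : Type v} {S : Type w} [Ring B] [Ring S] {n : ℕ} {ι : B →+* S} {u : Fin n → Fin n → S}

theorem MU.same (h : MU n ι u) (i j l : Fin n) : u i j * u j l = u i l := by
  rw [h.mul, if_pos rfl]

theorem MU.op (h : MU n ι u) : MU n (RingHom.op ι) (fun i j => MulOpposite.op (u j i)) := by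
  refine ⟨?_, ?_, ?_, ?_, ?_⟩
  · intro i j k l
    rw [← MulOpposite.op_mul, h.mul]
    by_cases hjk : j = k
    · rw [if_pos hjk, if_pos hjk.symm]
    · rw [if_neg hjk, if_neg (fun h => hjk h.symm), MulOpposite.op_zero]
  · rw [← MulOpposite.op_one, ← h.one]
    exact (map_sum (MulOpposite.opAddEquiv : S ≃+ Sᵐᵒᵖ) _ _).symm
  · intro b i j
    have h1 := congrArg MulOpposite.op (h.comm b.unop j i)
    rw [MulOpposite.op_mul, MulOpposite.op_mul] at h1
    exact h1.symm
  · intro s i k
    obtain ⟨b, hb⟩ := h.ent (s.unop * u k i) i i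
    refine ⟨MulOpposite.op b, ?_⟩
    rw [mul_assoc, mul_assoc, h.same] at hb
    have h1 := congrArg MulOpposite.op hb
    rw [h.comm b i i, MulOpposite.op_mul, MulOpposite.op_mul, MulOpposite.op_mul,
      MulOpposite.op_unop] at h1
    exact h1
  · intro b i hb
    have h1 := congrArg MulOpposite.unop hb
    have h2 : u i i * ι b.unop = 0 := h1
    rw [← h.comm] at h2
    exact MulOpposite.unop_injective (h.inj _ i h2)

theorem MU.expand (h : MU n ι u) (z : S) : z = ∑ i, ∑ j, u i i * z * u j j := by
  calc z = (∑ i, u i i) * z * (∑ j, u j j) := by rw [h.one, one_mul, mul_one]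
    _ = ∑ i, ∑ j, u i i * z * u j j := by
      rw [Finset.sum_mul, Finset.sum_mul]
      exact Finset.sum_congr rfl fun i _ => Finset.mul_sum _ _ _

theorem kd_mu (h : MU n ι u) [IsNoetherianRing B] [IsNoetherianRing S] (hB : Prm B)
    (hK : KdL B) : KdL S := by
  intro s hs
  let m1 : Module B S := Module.compHom S ι
  let m2 : Module B (S ⧸ Ideal.span {s}) := Module.compHom _ ι
  have tw : IsScalarTower B S (S ⧸ Ideal.span {s}) := ⟨fun b z q => by
    change (ι b * z) • q = ι b • (z • q)
    rw [mul_smul]⟩
  have hsm : ∀ (b : B) (z : S), b • (Submodule.Quotient.mk z : S ⧸ Ideal.span {s}) =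
      Submodule.Quotient.mk (ι b * z) := fun b z => rfl
  refine isArtinian_of_tower B ?_
  -- the maps given by the matrix units
  set φ : Fin n × Fin n → B →ₗ[B] (S ⧸ Ideal.span {s}) := fun p =>
    { toFun := fun b => Submodule.Quotient.mk (ι b * u p.1 p.2)
      map_add' := fun a b => by
        rw [map_add, add_mul, Submodule.Quotient.mk_add]
      map_smul' := fun a b => by
        rw [smul_eq_mul, map_mul, RingHom.id_apply, hsm, mul_assoc] } with hφ
  have hφv : ∀ p b, φ p b = Submodule.Quotient.mk (ι b * u p.1 p.2) := fun p b => rfl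
  have hker : ∀ p, ∃ c ∈ LinearMap.ker (φ p), c ∈ nonZeroDivisors B := by
    rintro ⟨i, j⟩
    refine ess_exists hB (L := LinearMap.ker (φ (i, j))) ?_
    intro x hx
    have hX : ι x * u i j ≠ 0 := by
      intro h0
      apply hx
      apply h.inj x i
      rw [← h.same i j i, ← mul_assoc, h0, zero_mul]
    obtain ⟨t, ht, y, hy⟩ := ess_of_lreg (c := s) hs.2 hX
    obtain ⟨k, hk⟩ : ∃ k, u k k * (t * (ι x * u i j)) ≠ 0 := by
      by_contra hcon
      push Not at hcon
      apply ht
      calc t * (ι x * u i j) = (∑ k, u k k) * (t * (ι x * u i j)) := by rw [h.one, one_mul]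
        _ = 0 := by
          rw [Finset.sum_mul]
          exact Finset.sum_eq_zero fun k _ => hcon k
    have hk' : u i k * (t * (ι x * u i j)) ≠ 0 := by
      intro h0
      apply hk
      rw [← h.same k i k, mul_assoc, h0, mul_zero]
    obtain ⟨b, hb⟩ := h.ent t i k
    have h1 : u i k * (t * (ι x * u i j)) = ι (b * x) * u i j := by
      calc u i k * (t * (ι x * u i j)) = u i k * (t * (ι x * (u i i * u i j))) := by rw [h.same]
        _ = u i k * (t * ((ι x * u i i) * u i j)) := by rw [mul_assoc (ι x)]
        _ = (u i k * t * u i i) * (ι x * u i j) := by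
          rw [h.comm x i i]
          simp only [mul_assoc]
        _ = ι b * (u i i * ι x) * u i j := by
          rw [hb]
          simp only [mul_assoc]
        _ = ι (b * x) * u i j := by
          rw [← h.comm x i i, map_mul]
          simp only [mul_assoc, h.same]
    refine ⟨b, ?_, ?_⟩
    · intro h0
      apply hk'
      rw [h1, h0, map_zero, zero_mul]
    · rw [LinearMap.mem_ker, hφv]
      rw [Submodule.Quotient.mk_eq_zero]
      change ι (b * x) * u i j ∈ Ideal.span {s}
      rw [← h1, hy, ← mul_assoc]
      exact Ideal.mul_mem_left _ _ (Ideal.mem_span_singleton_self s)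
  have hart : ∀ p, IsArtinian B (LinearMap.range (φ p)) := by
    intro p
    obtain ⟨c, hc, hreg⟩ := hker p
    have h1 : Ideal.span {c} ≤ LinearMap.ker (φ p) := by
      rwa [Ideal.span_singleton_le_iff_mem]
    have h2 := hK c hreg
    have h3 : IsArtinian B (LinearMap.range ((Ideal.span {c}).liftQ (φ p) h1)) :=
      isArtinian_range _
    rwa [Submodule.range_liftQ] at h3
  have htop : (⨆ p, LinearMap.range (φ p)) = ⊤ := by
    rw [eq_top_iff]
    intro q _
    obtain ⟨z, rfl⟩ := Submodule.Quotient.mk_surjective _ q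
    rw [h.expand z]
    rw [← Submodule.mkQ_apply, map_sum]
    refine Submodule.sum_mem _ fun i _ => ?_
    rw [map_sum]
    refine Submodule.sum_mem _ fun j _ => ?_
    obtain ⟨b, hb⟩ := h.ent (z * u j i) i i
    refine (le_iSup (fun p => LinearMap.range (φ p)) (i, j)) ⟨b, ?_⟩
    rw [hφv, Submodule.mkQ_apply]
    congr 1
    change ι b * u i j = u i i * z * u j j
    calc ι b * u i j = ι b * u i i * u i j := by rw [mul_assoc, h.same]
      _ = u i i * (z * u j i) * u i i * u i j := by rw [hb]
      _ = u i i * z * (u j i * u i i * u i j) := by simp only [mul_assoc]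
      _ = u i i * z * u j j := by rw [h.same, h.same]
  have h1 : IsArtinian B (⨆ p, LinearMap.range (φ p) : Submodule B (S ⧸ Ideal.span {s})) :=
    isArtinian_iSup
  rw [htop] at h1
  exact isArtinian_of_linearEquiv Submodule.topEquiv

end MU

section Mat
variable {T : Type v} [Ring T] {n : ℕ} {P : Ideal (Matrix (Fin n) (Fin n) T)}

theorem scalar_mem (hP : P.IsTwoSided) {t : T} (ht : t ∈ ent P) : scalar (Fin n) t ∈ P := by
  rw [mem_iff_ent hP]
  intro i j
  rw [scalar_apply, diagonal_apply]
  split_ifs
  · exact ht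
  · exact Ideal.zero_mem _

theorem mu_matrix [hP : P.IsTwoSided] [hQ : (ent P).IsTwoSided] :
    MU n (Ideal.Quotient.lift (ent P) ((Ideal.Quotient.mk P).comp (scalar (Fin n)))
      (fun t ht => Ideal.Quotient.eq_zero_iff_mem.mpr (scalar_mem hP ht)))
      (fun i j => Ideal.Quotient.mk P (single i j 1)) := by
  have hscal : ∀ (t : T) (i j : Fin n), scalar (Fin n) t * single i j 1 = single i j t := by
    intro t i j
    ext k l
    rw [scalar_apply, diagonal_mul, single_apply, single_apply]
    split_ifs
    · rw [mul_one]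
    · rw [mul_zero]
  refine ⟨?_, ?_, ?_, ?_, ?_⟩
  · intro i j k l
    rw [← map_mul]
    by_cases hjk : j = k
    · subst hjk
      rw [if_pos rfl, single_mul_single_same, mul_one]
    · rw [if_neg hjk, single_mul_single_of_ne _ _ _ _ hjk, map_zero]
  · rw [← map_sum]
    have h1 : ∑ i : Fin n, single i i (1 : T) = 1 := by
      ext k l
      rw [Matrix.sum_apply, one_apply]
      by_cases hkl : k = l
      · subst hkl
        rw [if_pos rfl, Finset.sum_eq_single k]
        · rw [single_apply_same]
        · intro b _ hb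
          rw [single_apply_of_ne]
          exact fun h => hb h.1
        · intro h
          exact absurd (Finset.mem_univ k) h
      · rw [if_neg hkl]
        refine Finset.sum_eq_zero fun i _ => ?_
        rw [single_apply_of_ne]
        rintro ⟨h1, h2⟩
        exact hkl (h1.symm.trans h2)
    rw [h1, map_one]
  · intro b i j
    obtain ⟨t, rfl⟩ := Ideal.Quotient.mk_surjective b
    rw [Ideal.Quotient.lift_mk, RingHom.comp_apply, ← map_mul, ← map_mul]
    congr 1
    rw [hscal]
    ext k l
    rw [scalar_apply, mul_diagonal, single_apply, single_apply]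
    split_ifs
    · rw [one_mul]
    · rw [zero_mul]
  · intro s i k
    obtain ⟨M, rfl⟩ := Ideal.Quotient.mk_surjective s
    refine ⟨Ideal.Quotient.mk _ (M k i), ?_⟩
    rw [Ideal.Quotient.lift_mk, RingHom.comp_apply, ← map_mul, ← map_mul, ← map_mul, hscal,
      single_mul_mul_single, one_mul, mul_one]
  · intro b i hb
    obtain ⟨t, rfl⟩ := Ideal.Quotient.mk_surjective b
    rw [Ideal.Quotient.lift_mk, RingHom.comp_apply, ← map_mul, hscal,
      Ideal.Quotient.eq_zero_iff_mem, mem_iff_ent hP] at hb
    have h1 := hb i i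
    rw [single_apply_same] at h1
    exact Ideal.Quotient.eq_zero_iff_mem.mpr h1

end Mat

end SepGr
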