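import Pool.Agent.Lib.MP_dccecd_al.GrFlowD
import Pool.Agent.Lib.MP_dccecd_al.NoeTop

/-! Layers of the filtrations by ideals with noetherian associated graded ring (for MP_dccecd_al,
the graded base theorem). -/

open SepReg SepFin SepNoe

namespace SepGr

universe u v w

section Mul
variable {T : Type v} [Ring T] {R : Type u} [Ring R]

theorem mulC_eq (S : Set T) (C : Bim T R) : mulC S C = mulS S C ⊤ := by
  apply le_antisymm
  · exact mulC_le fun t ht x => act_mem_mulS ht Submodule.mem_top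
  · exact mulS_le fun t ht x _ => act_mem_mulC ht x

theorem mulS_mono {S : Set T} {C : Bim T R} {N N' : Submodule R C.X} (h : N ≤ N') :
    mulS S C N ≤ mulS S C N' := mulS_le fun _ ht _ hx => act_mem_mulS ht (h hx)

theorem mulS_mono' {S S' : Set T} (hS : S ⊆ S') {C : Bim T R} {N : Submodule R C.X} :
    mulS S C N ≤ mulS S' C N := mulS_le fun _ ht _ hx => act_mem_mulS (hS ht) hx

theorem mulS_stable (J : Ideal T) (C : Bim T R) (N : Submodule R C.X) (t : T) :
    ∀ x ∈ mulS (J : Set T) C N, C.act t x ∈ mulS (J : Set T) C N := by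
  have h : mulS (J : Set T) C N ≤ (mulS (J : Set T) C N).comap (C.act t) := by
    apply mulS_le
    intro s hs x hx
    rw [Submodule.mem_comap, ← C.act_mul]
    exact act_mem_mulS (J.mul_mem_left t hs) hx
  exact fun x hx => h hx

/-- the left ideal of the elements which map `N` into `W` -/
def trI (C : Bim T R) (N W : Submodule R C.X) (hW : ∀ t, ∀ x ∈ W, C.act t x ∈ W) : Ideal T where
  carrier := {t | ∀ x ∈ N, C.act t x ∈ W}
  add_mem' := fun {a b} ha hb x hx => by
    rw [C.act_add]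
    exact W.add_mem (ha x hx) (hb x hx)
  zero_mem' := fun x hx => by
    rw [C.act_zero]
    exact W.zero_mem
  smul_mem' := fun r t ht x hx => by
    rw [smul_eq_mul, C.act_mul]
    exact hW r _ (ht x hx)

theorem mulS_mul (I J : Ideal T) (C : Bim T R) (N : Submodule R C.X) :
    mulS ((I * J : Ideal T) : Set T) C N = mulS (I : Set T) C (mulS (J : Set T) C N) := by
  apply le_antisymm
  · apply mulS_le
    intro t ht x hx
    have h1 : I * J ≤ trI C N (mulS (I : Set T) C (mulS (J : Set T) C N))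
        (mulS_stable I C _) := by
      rw [Ideal.mul_le]
      intro a ha b hb x hx
      rw [C.act_mul]
      exact act_mem_mulS ha (act_mem_mulS hb hx)
    exact h1 ht x hx
  · apply mulS_le
    intro a ha x hx
    have h1 : mulS (J : Set T) C N ≤ (mulS ((I * J : Ideal T) : Set T) C N).comap (C.act a) := by
      apply mulS_le
      intro b hb y hy
      rw [Submodule.mem_comap, ← C.act_mul]
      exact act_mem_mulS (Ideal.mul_mem_mul ha hb) hy
    exact h1 hx

theorem mulS_sub (S : Set T) (C : Bim T R) (N : Submodule R C.X) [Module.Finite R N]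
    [Module.Projective R N] (hs : ∀ t, ∀ x ∈ N, C.act t x ∈ N) :
    mulS S C N = (mulC S (C.sub N hs)).map N.subtype := by
  apply le_antisymm
  · apply mulS_le
    intro t ht x hx
    exact ⟨(C.sub N hs).act t ⟨x, hx⟩, act_mem_mulC ht _, rfl⟩
  · rw [Submodule.map_le_iff_le_comap]
    apply mulC_le
    intro t ht x
    exact act_mem_mulS ht x.2

theorem mulC_quo_eq (S : Set T) (C : Bim T R) (N : Submodule R C.X) [Module.Projective R (C.X ⧸ N)]
    (hs : ∀ t, ∀ x ∈ N, C.act t x ∈ N) :
    mulC S (C.quo N hs) = (mulC S C).map N.mkQ := by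
  apply le_antisymm
  · apply mulC_le
    intro t ht q
    obtain ⟨x, rfl⟩ := Submodule.mkQ_surjective _ q
    exact ⟨C.act t x, act_mem_mulC ht x, rfl⟩
  · rw [Submodule.map_le_iff_le_comap]
    apply mulC_le
    intro t ht x
    exact act_mem_mulC (C := C.quo N hs) ht (N.mkQ x)

end Mul

section Good
variable {T : Type v} [Ring T] {R : Type u} [Ring R]
variable [VNR R] [IsNoetherianRing T] [IsNoetherianRing Tᵐᵒᵖ]

theorem good_mul {J F G : Ideal T} [G.IsTwoSided] {B : Bim T R}
    (h : mulS (F : Set T) B (mulC (G : Set T) B) ≤ mulS (J : Set T) B (mulC (G : Set T) B)) :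
    mulC (F : Set T) (kapB G B) ≤ mulC (J : Set T) (kapB G B) := by
  have i1 : Module.Projective R ((mulB G B).X ⧸ annC (G : Set T) (mulB G B)) := annC_quo _ _
  rw [mulC_quo_eq (F : Set T) (mulB G B) (annC (G : Set T) (mulB G B)) (annC_stable G (mulB G B)),
    mulC_quo_eq (J : Set T) (mulB G B) (annC (G : Set T) (mulB G B)) (annC_stable G (mulB G B))]
  apply Submodule.map_mono
  rw [mulS_sub (F : Set T) B _ (mulC_stable G B), mulS_sub (J : Set T) B _ (mulC_stable G B)] at h
  exact (Submodule.map_le_map_iff_of_injective (Submodule.injective_subtype _) _ _).mp h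

theorem mem_annB_iff {G H : Ideal T} [G.IsTwoSided] {D : Bim T R} {v : D.X}
    [Module.Projective R (D.X ⧸ annC (G : Set T) D)] :
    (annC (G : Set T) D).mkQ v ∈ annC (H : Set T)
      (D.quo (annC (G : Set T) D) (annC_stable G D)) ↔ ∀ p ∈ G * H, D.act p v = 0 := by
  rw [mem_annC]
  have h1 : ∀ t, (D.quo (annC (G : Set T) D) (annC_stable G D)).act t
      ((annC (G : Set T) D).mkQ v) = 0 ↔ ∀ g ∈ G, D.act (g * t) v = 0 := by
    intro t
    have h2 : (D.quo (annC (G : Set T) D) (annC_stable G D)).act t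
      ((annC (G : Set T) D).mkQ v) = 0 ↔ D.act t v ∈ annC (G : Set T) D :=
        Submodule.Quotient.mk_eq_zero _
    rw [h2, mem_annC]
    constructor
    · intro h g hg
      rw [D.act_mul]
      exact h g hg
    · intro h g hg
      rw [← D.act_mul]
      exact h g hg
  constructor
  · intro h p hp
    have h3 : G * H ≤ trI D (R ∙ v) ⊥ (by
        intro t x hx
        rw [Submodule.mem_bot] at hx ⊢
        rw [hx, map_zero]) := by
      rw [Ideal.mul_le]
      intro g hg t ht x hx
      obtain ⟨r, rfl⟩ := Submodule.mem_span_singleton.mp hx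
      rw [map_smul, (h1 t).mp (h t ht) g hg, smul_zero]
      exact Submodule.zero_mem _
    have h4 := h3 hp v (Submodule.mem_span_singleton_self v)
    rwa [Submodule.mem_bot] at h4
  · intro h t ht
    rw [h1]
    exact fun g hg => h _ (Ideal.mul_mem_mul hg ht)

theorem good_ann {J F G : Ideal T} [G.IsTwoSided] {B : Bim T R} (h : G * F ≤ G * J) :
    annC (J : Set T) (kapB G B) ≤ annC (F : Set T) (kapB G B) := by
  have i1 : Module.Projective R ((mulB G B).X ⧸ annC (G : Set T) (mulB G B)) := annC_quo _ _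
  intro q hq
  obtain ⟨v, rfl⟩ := Submodule.mkQ_surjective _ q
  have h1 := (mem_annB_iff (G := G) (H := J) (D := mulB G B)).mp hq
  exact (mem_annB_iff (G := G) (H := F) (D := mulB G B)).mpr fun p hp => h1 p (h hp)

/-- the condition on `J C / ann J` -/
theorem kap_mul {J F G : Ideal T} [J.IsTwoSided] (h : G * J ≤ J * F * J) (C : Bim T R) :
    mulC (G : Set T) (kapB J C) ≤ mulS (J : Set T) (kapB J C) (mulC (F : Set T) (kapB J C)) := by
  rw [mulC_eq (F : Set T) (kapB J C), ← mulS_mul, ← mulC_eq]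
  apply good_mul
  rw [mulC_eq (J : Set T) C, ← mulS_mul, ← mulS_mul]
  exact mulS_mono' h

end Good

section Lay
variable {T : Type v} [Ring T] {R : Type u} [Ring R] [VNR R] [IsNoetherianRing T]
  [IsNoetherianRing Tᵐᵒᵖ] {F : ℕ → Ideal T}

/-- a filtration, shifted by one -/
def pk (F : ℕ → Ideal T) (n : ℕ) : AddSubgroup T := (F (n + 1)).toAddSubgroup

omit [IsNoetherianRing T] [IsNoetherianRing Tᵐᵒᵖ] in
theorem rfam_pk (hF : Flt F) : RFam F (pk F) := by
  refine ⟨fun n a ha => hF.anti n ha, fun n a ha => ha, ?_⟩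
  intro n j a ha t ht
  change a * t ∈ F (n + j + 1)
  rw [show n + j + 1 = (n + 1) + j by omega]
  exact hF.mul' ha ht

omit [IsNoetherianRing T] [IsNoetherianRing Tᵐᵒᵖ] in
theorem lfam_pk (hF : Flt F) : LFam F (pk F) := by
  refine ⟨fun n a ha => hF.anti n ha, fun n a ha => ha, ?_⟩
  intro n j a ha t ht
  change t * a ∈ F (n + j + 1)
  rw [show n + j + 1 = j + (n + 1) by omega]
  exact hF.mul' ht ha

/-- the filtration of a module -/
abbrev fA (F : ℕ → Ideal T) (C : Bim T R) (n : ℕ) : Submodule R C.X :=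
  mulC (F n : Set T) C

/-- the filtration of a module by the annihilators -/
abbrev fB (F : ℕ → Ideal T) (C : Bim T R) (n : ℕ) : Submodule R C.X :=
  annC (F n : Set T) C

theorem gmod_pow (hF : Flt F) (C : Bim T R) :
    GMod F C (fA F C) (fun n => fA F C (n + 1)) := by
  have h1 : ∀ n j, ∀ t ∈ F j, ∀ x ∈ fA F C n, C.act t x ∈ fA F C (n + j) := by
    intro n j t ht x hx
    have h2 : fA F C n ≤ (fA F C (n + j)).comap (C.act t) := by
      apply mulC_le
      intro s hs y
      rw [Submodule.mem_comap, ← C.act_mul]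
      refine act_mem_mulC ?_ y
      rw [SetLike.mem_coe, add_comm n j]
      exact hF.mul' ht hs
    exact h2 hx
  refine ⟨fun n => Module.Finite.iff_fg.mp (mulC_fin _ C),
    fun n => Module.Finite.iff_fg.mp (mulC_fin _ C), h1, ?_, ?_⟩
  · intro n j t ht x hx
    have h2 := h1 (n + 1) j t ht x hx
    rwa [show n + 1 + j = n + j + 1 by omega] at h2
  · intro n
    exact mulC_mono (fun x hx => hF.anti n hx) C

omit [VNR R] [IsNoetherianRing T] [IsNoetherianRing Tᵐᵒᵖ] in
theorem kil_pow (hF : Flt F) (C : Bim T R) :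
    Kil (pk F) C (fA F C) (fun n => fA F C (n + 1)) := by
  intro τ n t ht x hx
  have h2 : fA F C n ≤ (fA F C (n + τ + 1)).comap (C.act t) := by
    apply mulC_le
    intro s hs y
    rw [Submodule.mem_comap, ← C.act_mul]
    refine act_mem_mulC ?_ y
    rw [SetLike.mem_coe, show n + τ + 1 = (τ + 1) + n by omega]
    exact hF.mul' ht hs
  exact h2 hx

omit [VNR R] [IsNoetherianRing T] [IsNoetherianRing Tᵐᵒᵖ] in
theorem gen_pow0 (hF : Flt F) (C : Bim T R) :
    Gen F C (fA F C) (fun n => fA F C (n + 1)) := by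
  intro n
  refine le_trans ?_ le_sup_left
  apply mulC_le
  intro t ht x
  refine act_mem_mulS ht ?_
  have h1 := act_mem_mulC (S := (F 0 : Set T)) (C := C) (hF.z 1) x
  rwa [C.act_one] at h1

theorem cmod_pow (hF : Flt F) (C : Bim T R) :
    CMod F C (fun n => fB F C (n + 1)) (fB F C) := by
  have h1 : ∀ n j, ∀ t ∈ F j, ∀ x ∈ fB F C (n + j), C.act t x ∈ fB F C n := by
    intro n j t ht x hx
    rw [mem_annC] at hx ⊢
    intro s hs
    rw [← C.act_mul]
    exact hx _ (hF.mul' hs ht)
  refine ⟨fun n => Module.Finite.iff_fg.mp (annC_fin _ C),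
    fun n => Module.Finite.iff_fg.mp (annC_fin _ C), ?_, h1, ?_⟩
  · intro n j t ht x hx
    change x ∈ fB F C (n + j + 1) at hx
    rw [show n + j + 1 = n + 1 + j by omega] at hx
    exact h1 (n + 1) j t ht x hx
  · intro n
    exact annC_anti (fun x hx => hF.anti n hx) C

omit [VNR R] [IsNoetherianRing T] [IsNoetherianRing Tᵐᵒᵖ] in
theorem ckil_pow (hF : Flt F) (C : Bim T R) :
    CKil (pk F) C (fun n => fB F C (n + 1)) (fB F C) := by
  intro τ n t ht x hx
  change x ∈ fB F C (n + τ + 1) at hx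
  rw [mem_annC] at hx ⊢
  intro s hs
  rw [← C.act_mul]
  apply hx
  rw [SetLike.mem_coe, show n + τ + 1 = n + (τ + 1) by omega]
  exact hF.mul' hs ht

omit [VNR R] [IsNoetherianRing T] [IsNoetherianRing Tᵐᵒᵖ] in
theorem cog_pow0 (hF : Flt F) (C : Bim T R) : Cog F C (fun n => fB F C (n + 1)) (fB F C) := by
  intro n x _ h
  rw [mem_annC]
  intro p hp
  have h4 := h p hp
  rw [mem_annC] at h4
  have h5 := h4 1 (hF.z 1)
  rwa [C.act_one] at h5

omit [IsNoetherianRing T] [IsNoetherianRing Tᵐᵒᵖ] in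
theorem sum_Ioc_le (f : ℕ → VR R) {M N : ℕ} (h : M ≤ N) :
    Le (∑ τ ∈ Finset.Ioc 0 M, f (N - τ)) (∑ i ∈ Finset.range N, f i) := by
  have h1 : ∑ τ ∈ Finset.Ioc 0 N, f (N - τ) = ∑ i ∈ Finset.range N, f i := by
    refine Finset.sum_nbij' (fun τ => N - τ) (fun i => N - i) ?_ ?_ ?_ ?_ ?_
    · intro τ hτ
      rw [Finset.mem_Ioc] at hτ
      rw [Finset.mem_range]
      omega
    · intro i hi
      rw [Finset.mem_range] at hi
      rw [Finset.mem_Ioc]
      omega
    · intro τ hτ
      rw [Finset.mem_Ioc] at hτ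
      omega
    · intro i hi
      rw [Finset.mem_range] at hi
      omega
    · intro τ _
      rfl
  rw [← h1]
  exact Le.sum_sub (Finset.Ioc_subset_Ioc_right h) _

theorem lay_mul (hF : Flt F) (hRN : RN F) (hLN : LN F) {e : T} (he : e * e = e) (c : ℕ) :
    ∃ M, ∀ N, M ≤ N → ∀ C : Bim T R, Le (c • ep C e (fA F C N) (fA F C (N + 1)))
      (∑ i ∈ Finset.range N, ep C e (fA F C i) (fA F C (i + 1))) := by
  have key : ∀ c : ℕ, ∃ M, ∀ N, M ≤ N → ∀ C : Bim T R, Le (c • ep C e (fA F C N) (fA F C (N + 1)))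
      (∑ τ ∈ Finset.Ioc 0 M, ep C e (fA F C (N - τ)) (fA F C (N - τ + 1))) := by
    intro c
    induction c with
    | zero =>
      refine ⟨0, fun N _ C => ?_⟩
      rw [zero_nsmul]
      exact ⟨_, zero_add _⟩
    | succ c ih =>
      obtain ⟨M, hM⟩ := ih
      obtain ⟨M', hM', h'⟩ := flow (R := R) hF hRN hLN he (pk F) (rfam_pk hF) (lfam_pk hF) M
      refine ⟨M', fun N hN C => ?_⟩
      rw [succ_nsmul]
      have h1 := h' C _ _ (gmod_pow hF C) (kil_pow hF C) (gen_pow0 hF C) N hN
      refine ((hM N (hM'.trans hN) C).add h1).trans ?_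
      rw [← Finset.sum_union, Finset.Ioc_union_Ioc_eq_Ioc (Nat.zero_le M) hM']
      · exact Le.rfl'
      · rw [Finset.disjoint_left]
        intro τ h1 h2
        rw [Finset.mem_Ioc] at h1 h2
        omega
  obtain ⟨M, hM⟩ := key c
  exact ⟨M, fun N hN C => (hM N hN C).trans
    (sum_Ioc_le (fun i => ep C e (fA F C i) (fA F C (i + 1))) hN)⟩

theorem lay_mulD (hF : Flt F) (hRN : RN F) (hLN : LN F) {e : T} (he : e * e = e) (c : ℕ) :
    ∃ M, ∀ N, M ≤ N → ∀ C : Bim T R, Le (c • ep C e (fB F C (N + 1)) (fB F C N))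
      (∑ i ∈ Finset.range N, ep C e (fB F C (i + 1)) (fB F C i)) := by
  have key : ∀ c : ℕ, ∃ M, ∀ N, M ≤ N → ∀ C : Bim T R, Le (c • ep C e (fB F C (N + 1)) (fB F C N))
      (∑ τ ∈ Finset.Ioc 0 M, ep C e (fB F C (N - τ + 1)) (fB F C (N - τ))) := by
    intro c
    induction c with
    | zero =>
      refine ⟨0, fun N _ C => ?_⟩
      rw [zero_nsmul]
      exact ⟨_, zero_add _⟩
    | succ c ih =>
      obtain ⟨M, hM⟩ := ih
      obtain ⟨M', hM', h'⟩ := flowD (R := R) hF hRN hLN he (pk F) (lfam_pk hF) (rfam_pk hF) M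
      refine ⟨M', fun N hN C => ?_⟩
      rw [succ_nsmul]
      have h1 := h' C _ _ (cmod_pow hF C) (ckil_pow hF C) (cog_pow0 hF C) N hN
      refine ((hM N (hM'.trans hN) C).add h1).trans ?_
      rw [← Finset.sum_union, Finset.Ioc_union_Ioc_eq_Ioc (Nat.zero_le M) hM']
      · exact Le.rfl'
      · rw [Finset.disjoint_left]
        intro τ h1 h2
        rw [Finset.mem_Ioc] at h1 h2
        omega
  obtain ⟨M, hM⟩ := key c
  exact ⟨M, fun N hN C => (hM N hN C).trans
    (sum_Ioc_le (fun i => ep C e (fB F C (i + 1)) (fB F C i)) hN)⟩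

omit [IsNoetherianRing T] [IsNoetherianRing Tᵐᵒᵖ] in
theorem pp_le_inj (D : Bim T R) (e : T) {W : Type u} [AddCommGroup W] [Module R W]
    [Module.Finite R W] [Module.Projective R W] (f : LinearMap.range (D.act e) →ₗ[R] W)
    (hf : Function.Injective f) : Le (pp e D) (cls R W) := le_of_inj f hf

omit [IsNoetherianRing T] [IsNoetherianRing Tᵐᵒᵖ] in
theorem pp_ge_surj (D : Bim T R) (e : T) {W : Type u} [AddCommGroup W] [Module R W]
    [Module.Finite R W] [Module.Projective R W] (f : LinearMap.range (D.act e) →ₗ[R] W)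
    (hf : Function.Surjective f) : Le (cls R W) (pp e D) := le_of_surj f hf

omit [IsNoetherianRing T] [IsNoetherianRing Tᵐᵒᵖ] in
theorem le_pp_ker (D : Bim T R) (e : T) {X Y : Type u} [AddCommGroup X] [Module R X]
    [Module.Finite R X] [AddCommGroup Y] [Module R Y] [Module.Finite R Y] [Module.Projective R Y]
    (α : X →ₗ[R] Y) (β : X →ₗ[R] D.X) (hβ : Function.Surjective β)
    (h : ∀ v, α v = 0 → D.act e (β v) = 0) : Le (pp e D) (cls R (LinearMap.range α)) := by
  refine le_of_ker α ((D.act e).rangeRestrict.comp β) ?_ ?_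
  · rintro ⟨_, x, rfl⟩
    obtain ⟨v, rfl⟩ := hβ x
    exact ⟨v, rfl⟩
  · intro v hv
    rw [LinearMap.mem_ker] at hv ⊢
    exact Subtype.ext (h v hv)

/-- the layers are dominated by the quotient by the power -/
theorem lay_sum (hF : Flt F) (C : Bim T R) (e : T) (N : ℕ) :
    Le (∑ i ∈ Finset.range N, ep C e (fA F C i) (fA F C (i + 1))) (pp e (mulQ (F N) C)) := by
  have hM := gmod_pow hF C
  have hfg : ∀ n, (fA F C n).FG := hM.fa
  have hU : ((⊤ : Submodule R C.X).map (C.act e)).FG :=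
    (Module.Finite.iff_fg.mp (Module.Finite.equiv (Submodule.topEquiv).symm)).map _
  have key : ∀ n, Le (∑ i ∈ Finset.range n, ep C e (fA F C i) (fA F C (i + 1)))
      (rk ((⊤ : Submodule R C.X).map (C.act e)) (fA F C n)) := by
    intro n
    induction n with
    | zero =>
      rw [Finset.sum_range_zero]
      exact ⟨_, zero_add _⟩
    | succ n ih =>
      rw [Finset.sum_range_succ, add_comm]
      have hW : ((fA F C n).map (C.act e) ⊔ fA F C (n + 1)).FG := ((hfg n).map _).sup (hfg _)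
      rw [rk_fg_iff hU (hfg (n + 1)) hW le_sup_right
        (sup_le_sup (Submodule.map_mono le_top) le_rfl)]
      refine Le.add ?_ (ih.trans ?_)
      · exact rk_mono ((hfg n).map _) hW (hfg _) (le_sup_left.trans le_sup_left)
      · refine rk_anti hU hW (hfg n) ?_
        refine inf_le_left.trans (sup_le ?_ (hM.le n))
        rintro _ ⟨x, hx, rfl⟩
        exact hM.sa hF n e x hx
  refine (key N).trans ?_
  have i2 : Module.Finite R (((⊤ : Submodule R C.X).map (C.act e)).map (fA F C N).mkQ) :=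
    fin_of_fg (hU.map _)
  have i3 := map_of_fg hU (hfg N)
  rw [rk_def hU (hfg N)]
  refine cls_le_of_le _ _ ?_
  rintro _ ⟨_, ⟨x, -, rfl⟩, rfl⟩
  exact ⟨(fA F C N).mkQ x, rfl⟩

theorem lay_sumD (hF : Flt F) [hN : ∀ n, (F n).IsTwoSided] (C : Bim T R) (e : T)
    (N : ℕ) : Le (∑ i ∈ Finset.range N, ep C e (fB F C (i + 1)) (fB F C i))
      (pp e (annB (F N) C)) := by
  have hM := cmod_pow hF C
  have hfg : ∀ n, (fB F C n).FG := hM.fb
  have hb : (⊥ : Submodule R C.X).FG := Submodule.fg_bot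
  have key : ∀ n, Le (∑ i ∈ Finset.range n, ep C e (fB F C (i + 1)) (fB F C i))
      (rk ((fB F C n).map (C.act e)) ⊥) := by
    intro n
    induction n with
    | zero =>
      rw [Finset.sum_range_zero]
      exact ⟨_, zero_add _⟩
    | succ n ih =>
      rw [Finset.sum_range_succ]
      have hU := (hfg (n + 1)).map (C.act e)
      have hW := (hfg n).map (C.act e)
      rw [rk_fg_iff hU hb hW bot_le ((Submodule.map_mono (hM.le n)).trans le_sup_left)]
      refine Le.add ih ?_
      refine rk_anti hU hW (hfg n) (inf_le_left.trans ?_)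
      rintro _ ⟨x, hx, rfl⟩
      exact hM.sb hF n e x hx
  refine (key N).trans ?_
  have hU := (hfg N).map (C.act e)
  have i2 : Module.Finite R (((fB F C N).map (C.act e)).map (⊥ : Submodule R C.X).mkQ) :=
    fin_of_fg (hU.map _)
  have i3 := map_of_fg hU hb
  rw [rk_def hU hb]
  have h1 : ∀ x : LinearMap.range ((annB (F N) C).act e),
      (⊥ : Submodule R C.X).mkQ x.1.1 ∈ ((fB F C N).map (C.act e)).map (⊥ : Submodule R C.X).mkQ := by
    rintro ⟨_, y, rfl⟩
    exact ⟨C.act e y.1, ⟨y.1, y.2, rfl⟩, rfl⟩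
  refine pp_ge_surj (annB (F N) C) e ((((⊥ : Submodule R C.X).mkQ.comp (annC (F N : Set T) C).subtype).comp
    (LinearMap.range ((annB (F N) C).act e)).subtype).codRestrict _ h1) ?_
  rintro ⟨_, _, ⟨y, hy, rfl⟩, rfl⟩
  exact ⟨⟨_, ⟨⟨y, hy⟩, rfl⟩⟩, rfl⟩

/-- the last layer dominates -/
theorem lay_top (hF : Flt F) (B : Bim T R) (e : T) (N : ℕ) [hN : (F N).IsTwoSided] {J : Ideal T}
    (hJ : mulC (F (N + 1) : Set T) B ≤ mulS (J : Set T) B (mulC (F N : Set T) B)) :
    Le (pp e (mulQ J (kapB (F N) B))) (ep B e (fA F B N) (fA F B (N + 1))) := by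
  have hM := gmod_pow hF B
  have hU : ((fA F B N).map (B.act e)).FG := (hM.fa N).map _
  have hV : (fA F B (N + 1)).FG := hM.fa (N + 1)
  have i2 : Module.Finite R (((fA F B N).map (B.act e)).map (fA F B (N + 1)).mkQ) :=
    fin_of_fg (hU.map _)
  have i3 := map_of_fg hU hV
  have i4 := quo_of_fg hV
  have i5 : Module.Projective R ((mulB (F N) B).X ⧸ annC (F N : Set T)
    (mulB (F N) B)) := annC_quo _ _
  change Le _ (rk _ _)
  rw [rk_def hU hV]
  have s1 : Le (pp e (mulQ J (kapB (F N) B))) (pp e (mulQ J (mulB (F N) B))) := by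
    have hle : mulC (J : Set T) (mulB (F N) B) ≤ (mulC (J : Set T) (kapB (F N) B)).comap
        (annC (F N : Set T) (mulB (F N) B)).mkQ := by
      apply mulC_le
      intro t ht x
      exact act_mem_mulC (C := kapB (F N) B) ht ((annC (F N : Set T)
        (mulB (F N) B)).mkQ x)
    refine pp_surj (C := mulQ J (mulB (F N) B)) (D := mulQ J (kapB (F N) B))
      (Submodule.mapQ _ _ (annC (F N : Set T) (mulB (F N) B)).mkQ hle) ?_ e ?_
    · intro s x
      obtain ⟨v, rfl⟩ := Submodule.mkQ_surjective _ x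
      rfl
    · intro x
      obtain ⟨v, rfl⟩ := Submodule.mkQ_surjective _ x
      obtain ⟨w, rfl⟩ := Submodule.mkQ_surjective _ v
      exact ⟨Submodule.Quotient.mk w, rfl⟩
  refine s1.trans ?_
  rw [mulS_sub (J : Set T) B _ (mulC_stable (F N) B)] at hJ
  have hmem : ∀ x : (mulB (F N) B).X, x.1 ∈ fA F B (N + 1) →
      x ∈ mulC (J : Set T) (mulB (F N) B) := by
    intro x hx
    obtain ⟨y, hy, hyx⟩ := hJ hx
    have h1 : y = x := Subtype.ext hyx
    rwa [← h1]
  refine (le_pp_ker (mulQ J (mulB (F N) B)) e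
    (((fA F B (N + 1)).mkQ.comp (B.act e)).comp (mulC (F N : Set T) B).subtype)
    (mulC (J : Set T) (mulB (F N) B)).mkQ (Submodule.mkQ_surjective _) ?_).trans ?_
  · intro v hv
    rw [LinearMap.comp_apply, LinearMap.comp_apply, Submodule.mkQ_apply,
      Submodule.Quotient.mk_eq_zero] at hv
    have h1 : (mulB (F N) B).act e v ∈ mulC (J : Set T) (mulB (F N) B) := hmem _ hv
    exact (Submodule.Quotient.mk_eq_zero _).mpr h1
  · apply cls_le_of_le
    rintro _ ⟨v, rfl⟩
    exact ⟨B.act e v.1, ⟨v.1, v.2, rfl⟩, rfl⟩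

theorem lay_topD (hF : Flt F) (D : Bim T R) (e : T) (N : ℕ) [hN : (F N).IsTwoSided]
    [Module.Projective R (D.X ⧸ annC (F N : Set T) D)] {J : Ideal T} [J.IsTwoSided]
    (hJ : ∀ v : D.X, (∀ p ∈ F N * J, D.act p v = 0) → v ∈ fB F D (N + 1)) :
    Le (pp e (annB J (D.quo (annC (F N : Set T) D) (annC_stable (F N) D))))
      (ep D e (fB F D (N + 1)) (fB F D N)) := by
  have hM := cmod_pow hF D
  have hU : ((fB F D (N + 1)).map (D.act e)).FG := (hM.fa N).map _
  have hV : (fB F D N).FG := hM.fb N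
  have i2 : Module.Finite R (((fB F D (N + 1)).map (D.act e)).map (fB F D N).mkQ) :=
    fin_of_fg (hU.map _)
  have i3 := map_of_fg hU hV
  change Le _ (rk _ _)
  rw [rk_def hU hV]
  have hrange : ∀ q : LinearMap.range ((annB J (D.quo (annC (F N : Set T) D)
      (annC_stable (F N) D))).act e), q.1.1 ∈
        ((fB F D (N + 1)).map (D.act e)).map (fB F D N).mkQ := by
    rintro ⟨_, ⟨q, hq⟩, rfl⟩
    obtain ⟨v, rfl⟩ := Submodule.mkQ_surjective _ q
    rw [mem_annB_iff (G := F N) (H := J) (D := D)] at hq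
    exact ⟨D.act e v, ⟨v, hJ v hq, rfl⟩, rfl⟩
  refine pp_le_inj (annB J (D.quo (annC (F N : Set T) D)
    (annC_stable (F N) D))) e (((annC (J : Set T) (D.quo (annC (F N : Set T) D)
    (annC_stable (F N) D))).subtype.comp
    (LinearMap.range ((annB J (D.quo (annC (F N : Set T) D)
      (annC_stable (F N) D))).act e)).subtype).codRestrict _ hrange) ?_
  intro p q hpq
  have h0 := congrArg Subtype.val hpq
  have h1 : p.1.1 = q.1.1 := h0
  exact Subtype.ext (Subtype.ext h1)

end Lay

end SepGr
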