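import Pool.Agent.Lib.MP_dccecd_al.NoeMat
import Pool.Agent.Lib.MP_dccecd_al.FinForm

/-! Algebras which are finitely generated modules over a commutative ring satisfy the condition of
the noetherian base theorem (for MP_dccecd_al). -/

open SepReg SepFin TensorProduct

namespace SepNoe

universe u v w x

section Prime
variable {A : Type w} [CommRing A] [IsDomain A] {T : Type v} [Ring T] [Algebra A T]

/-- a nonzero ideal of a prime algebra which is a finite module contains a nonzero scalar -/
theorem prime_scalar [Module.Finite A T] (hpT : Prm T)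
    (htf : ∀ (z : A) (t : T), z ≠ 0 → algebraMap A T z * t = 0 → t = 0) {e : T} (he : e ≠ 0) :
    ∃ z : A, z ≠ 0 ∧ algebraMap A T z ∈ Ideal.span (Set.range fun v : T => e * v) := by
  set F := FractionRing A with hF
  set ι : T →ₐ[A] F ⊗[A] T := Algebra.TensorProduct.includeRight with hι
  have hloc : IsLocalizedModule (nonZeroDivisors A) (TensorProduct.mk A F T 1) := inferInstance
  have hιv : ∀ t, ι t = TensorProduct.mk A F T 1 t := fun t => rfl
  have h : IsLoc ι := by
    refine ⟨?_, ?_, ?_⟩
    · intro s t hst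
      rw [hιv, hιv, IsLocalizedModule.eq_iff_exists (nonZeroDivisors A)] at hst
      obtain ⟨c, hc⟩ := hst
      have h1 : algebraMap A T c * (s - t) = 0 := by
        rw [mul_sub, ← Algebra.smul_def, ← Algebra.smul_def, sub_eq_zero]
        exact hc
      exact sub_eq_zero.mp (htf c _ (nonZeroDivisors.ne_zero c.2) h1)
    · intro z hz
      have h1 : IsUnit (algebraMap A F z) := by
        rw [isUnit_iff_ne_zero, Ne, FaithfulSMul.algebraMap_eq_zero_iff]
        exact hz
      have h2 : algebraMap A (F ⊗[A] T) z = algebraMap F (F ⊗[A] T) (algebraMap A F z) :=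
        IsScalarTower.algebraMap_apply A F (F ⊗[A] T) z
      rw [h2]
      exact h1.map _
    · intro l
      obtain ⟨⟨t, c⟩, hc⟩ := IsLocalizedModule.surj (nonZeroDivisors A) (TensorProduct.mk A F T 1) l
      refine ⟨c, t, nonZeroDivisors.ne_zero c.2, ?_⟩
      rw [hιv, ← Algebra.smul_def]
      exact hc.symm
  have hart : IsArtinianRing (F ⊗[A] T) := isArtinian_of_tower F inferInstance
  have hpL : Prm (F ⊗[A] T) := by
    intro a b hab
    obtain ⟨z, s, hz, hs⟩ := h.surj a
    obtain ⟨z', t, hz', ht⟩ := h.surj b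
    have h1 : ∀ r, s * r * t = 0 := by
      intro r
      apply h.inj
      rw [map_mul, map_mul, hs, ht, map_zero]
      calc algebraMap A (F ⊗[A] T) z * a * ι r * (algebraMap A (F ⊗[A] T) z' * b)
          = algebraMap A (F ⊗[A] T) z * a * (ι r * algebraMap A (F ⊗[A] T) z') * b := by
            simp only [mul_assoc]
        _ = algebraMap A (F ⊗[A] T) z * a * (algebraMap A (F ⊗[A] T) z' * ι r) * b := by
            rw [Algebra.commutes z' (ι r)]
        _ = algebraMap A (F ⊗[A] T) z * (a * (algebraMap A (F ⊗[A] T) z' * ι r) * b) := by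
            simp only [mul_assoc]
        _ = 0 := by rw [hab, mul_zero]
    rcases hpT s t h1 with h2 | h2
    · left
      rw [h2, map_zero] at hs
      exact h.cancel hz (by rw [← hs, mul_zero])
    · right
      rw [h2, map_zero] at ht
      exact h.cancel hz' (by rw [← ht, mul_zero])
  exact exists_scalar hpL h he

end Prime

section Noeth
variable {A : Type w} [CommRing A] {T : Type v} [Ring T] [Algebra A T]

theorem cen_finite [Module.Finite A T] : Cen T := by
  classical
  intro P hP2 hp I hI hIP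
  refine ⟨I, hI, le_rfl, hIP, ?_⟩
  by_cases h1 : (1 : T) ∈ P
  · exfalso
    exact hIP fun t _ => by
      rw [← mul_one t]
      exact P.mul_mem_left _ h1
  set 𝔭 : Ideal A := Ideal.comap (algebraMap A T) P with h𝔭
  have hprime : 𝔭.IsPrime := by
    rw [Ideal.isPrime_iff]
    refine ⟨?_, ?_⟩
    · rw [Ne, Ideal.eq_top_iff_one, h𝔭, Ideal.mem_comap, map_one]
      exact h1
    · intro a b hab
      rw [h𝔭, Ideal.mem_comap, map_mul] at hab
      apply hp
      intro t
      have q1 : algebraMap A T a * t * algebraMap A T b =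
          t * (algebraMap A T a * algebraMap A T b) := by
        rw [Algebra.commutes a t, mul_assoc]
      rw [q1]
      exact Ideal.mul_mem_left P t hab
  have hdom : IsDomain (A ⧸ 𝔭) := (Ideal.Quotient.isDomain_iff_prime 𝔭).mpr hprime
  have hmk : ∀ a : A, algebraMap (A ⧸ 𝔭) (T ⧸ P) (Ideal.Quotient.mk 𝔭 a) =
      Ideal.Quotient.mk P (algebraMap A T a) := fun a => rfl
  have hfin : Module.Finite (A ⧸ 𝔭) (T ⧸ P) := by
    obtain ⟨m, τ, hτ⟩ := Module.Finite.exists_fin (R := A) (M := T)
    have hfg : (⊤ : Submodule (A ⧸ 𝔭) (T ⧸ P)).FG := by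
      refine ⟨Finset.univ.image fun i => Ideal.Quotient.mk P (τ i), ?_⟩
      rw [eq_top_iff]
      intro q _
      obtain ⟨t, rfl⟩ := Ideal.Quotient.mk_surjective q
      have q1 : t ∈ Submodule.span A (Set.range τ) := by rw [hτ]; exact Submodule.mem_top
      obtain ⟨c, hc⟩ := (Submodule.mem_span_range_iff_exists_fun A).mp q1
      rw [← hc, map_sum]
      apply Submodule.sum_mem
      intro i _
      have q2 : Ideal.Quotient.mk P (c i • τ i) =
          (Ideal.Quotient.mk 𝔭 (c i)) • Ideal.Quotient.mk P (τ i) := by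
        rw [Algebra.smul_def, Algebra.smul_def, map_mul, hmk]
      rw [q2]
      apply Submodule.smul_mem
      apply Submodule.subset_span
      rw [Finset.coe_image]
      exact ⟨i, Finset.mem_coe.mpr (Finset.mem_univ i), rfl⟩
    exact ⟨hfg⟩
  have hpT : Prm (T ⧸ P) := by
    intro a b hab
    obtain ⟨a, rfl⟩ := Ideal.Quotient.mk_surjective a
    obtain ⟨b, rfl⟩ := Ideal.Quotient.mk_surjective b
    rcases hp a b (fun t => Ideal.Quotient.eq_zero_iff_mem.mp (by
      rw [map_mul, map_mul]
      exact hab _)) with h | h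
    · exact Or.inl (Ideal.Quotient.eq_zero_iff_mem.mpr h)
    · exact Or.inr (Ideal.Quotient.eq_zero_iff_mem.mpr h)
  have htf : ∀ (z : A ⧸ 𝔭) (t : T ⧸ P), z ≠ 0 → algebraMap (A ⧸ 𝔭) (T ⧸ P) z * t = 0 →
      t = 0 := by
    intro z t hz hzt
    obtain ⟨z, rfl⟩ := Ideal.Quotient.mk_surjective z
    obtain ⟨t, rfl⟩ := Ideal.Quotient.mk_surjective t
    rw [hmk, ← map_mul, Ideal.Quotient.eq_zero_iff_mem] at hzt
    rw [Ideal.Quotient.eq_zero_iff_mem]
    rcases hp (algebraMap A T z) t (by
      intro r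
      rw [Algebra.commutes z r, mul_assoc]
      exact Ideal.mul_mem_left P r hzt) with h | h
    · exfalso
      apply hz
      rw [Ideal.Quotient.eq_zero_iff_mem]
      exact h
    · exact h
  obtain ⟨a, ha, haP⟩ := SetLike.not_le_iff_exists.mp hIP
  obtain ⟨z, hz, hzm⟩ := prime_scalar (A := A ⧸ 𝔭) (T := T ⧸ P) hpT htf
    (e := Ideal.Quotient.mk P a) (fun h => haP (Ideal.Quotient.eq_zero_iff_mem.mp h))
  obtain ⟨z, rfl⟩ := Ideal.Quotient.mk_surjective z
  have h2 : ∀ q ∈ Ideal.span (Set.range fun v : T ⧸ P => Ideal.Quotient.mk P a * v),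
      ∃ i ∈ I, Ideal.Quotient.mk P i = q := by
    intro q hq
    induction hq using Submodule.span_induction with
    | mem q hq =>
      obtain ⟨v, rfl⟩ := hq
      obtain ⟨v, rfl⟩ := Ideal.Quotient.mk_surjective v
      exact ⟨a * v, hI.mul_mem_of_left v ha, map_mul _ _ _⟩
    | zero => exact ⟨0, I.zero_mem, map_zero _⟩
    | add p q _ _ hp hq =>
      obtain ⟨i, hi, rfl⟩ := hp
      obtain ⟨j, hj, rfl⟩ := hq
      exact ⟨i + j, I.add_mem hi hj, map_add _ _ _⟩
    | smul r p _ hp =>
      obtain ⟨i, hi, rfl⟩ := hp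
      obtain ⟨r, rfl⟩ := Ideal.Quotient.mk_surjective r
      exact ⟨r * i, I.mul_mem_left _ hi, map_mul _ _ _⟩
  obtain ⟨i, hi, hiz⟩ := h2 _ hzm
  rw [hmk, Ideal.Quotient.mk_eq_mk_iff_sub_mem] at hiz
  refine ⟨algebraMap A T z, ?_, ?_, ?_⟩
  · intro h
    apply hz
    rw [Ideal.Quotient.eq_zero_iff_mem]
    exact h
  · intro t
    rw [Algebra.commutes, sub_self]
    exact P.zero_mem
  · intro j hj
    have h3 : algebraMap A T z * j = i * j + -((i - algebraMap A T z) * j) := by noncomm_ring
    rw [h3]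
    exact Submodule.add_mem_sup (Ideal.mul_mem_mul hi hj)
      (P.neg_mem (hP2.mul_mem_of_left j hiz))

/-- algebras which are finite modules over a commutative ring satisfy the condition -/
theorem locCen_finite [Module.Finite A T] : LocCen T := by
  classical
  intro S
  obtain ⟨m, τ, hτ⟩ := Module.Finite.exists_fin (R := A) (M := T)
  have hspan : ∀ t : T, ∃ c : Fin m → A, ∑ i, c i • τ i = t := by
    intro t
    have h1 : t ∈ Submodule.span A (Set.range τ) := by rw [hτ]; exact Submodule.mem_top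
    exact (Submodule.mem_span_range_iff_exists_fun A).mp h1
  choose co hco using hspan
  set s : Finset A := (Finset.univ.image fun p : Fin m × Fin m × Fin m =>
      co (τ p.1 * τ p.2.1) p.2.2) ∪ (Finset.univ.image (co 1)) ∪
    (S.biUnion fun t => Finset.univ.image (co t)) with hs
  set A0 := Algebra.adjoin ℤ (s : Set A) with hA0
  have hft : Algebra.FiniteType ℤ A0 := (Subalgebra.fg_iff_finiteType _).mp ⟨s, rfl⟩
  have hN : IsNoetherianRing A0 := Algebra.FiniteType.isNoetherianRing ℤ A0
  have hsub : ∀ a ∈ s, a ∈ A0 := fun a ha => Algebra.subset_adjoin ha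
  have m0 : ∀ i j k, co (τ i * τ j) k ∈ A0 := fun i j k => hsub _ (by
    rw [hs]
    simp only [Finset.mem_union, Finset.mem_image, Finset.mem_univ, true_and]
    exact Or.inl (Or.inl ⟨(i, j, k), rfl⟩))
  have m1 : ∀ k, co 1 k ∈ A0 := fun k => hsub _ (by
    rw [hs]
    simp only [Finset.mem_union, Finset.mem_image, Finset.mem_univ, true_and]
    exact Or.inl (Or.inr ⟨k, rfl⟩))
  have mS : ∀ t ∈ S, ∀ k, co t k ∈ A0 := fun t ht k => hsub _ (by
    rw [hs]
    simp only [Finset.mem_union, Finset.mem_biUnion, Finset.mem_image, Finset.mem_univ, true_and]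
    exact Or.inr ⟨t, ht, k, rfl⟩)
  have hmem : ∀ t : T, (∀ k, co t k ∈ A0) → t ∈ Submodule.span A0 (Set.range τ) := by
    intro t ht
    rw [← hco t]
    apply Submodule.sum_mem
    intro k _
    have h1 : (⟨co t k, ht k⟩ : A0) • τ k ∈ Submodule.span A0 (Set.range τ) :=
      Submodule.smul_mem _ _ (Submodule.subset_span ⟨k, rfl⟩)
    exact h1
  set T0 : Subalgebra A0 T := (Submodule.span A0 (Set.range τ)).toSubalgebra (hmem 1 m1) (by
    intro a b ha hb
    have h1 : a * b ∈ Submodule.span A0 (Set.range τ) * Submodule.span A0 (Set.range τ) :=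
      Submodule.mul_mem_mul ha hb
    rw [Submodule.span_mul_span] at h1
    refine (Submodule.span_le.mpr ?_) h1
    rintro _ ⟨_, ⟨i, rfl⟩, _, ⟨j, rfl⟩, rfl⟩
    exact hmem _ (m0 i j)) with hT0
  have hfin : Module.Finite A0 T0 := by
    have h1 : (Submodule.span A0 (Set.range τ)).FG := Submodule.fg_span (Set.finite_range τ)
    exact Module.Finite.iff_fg.mpr h1
  have hn1 : IsNoetherianRing T0 := isNoetherian_of_tower A0 inferInstance
  have hn2 : IsNoetherianRing T0ᵐᵒᵖ := by
    have h1 : Module.Finite A0 T0ᵐᵒᵖ := Module.Finite.equiv (MulOpposite.opLinearEquiv A0)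
    exact isNoetherian_of_tower A0 inferInstance
  have hc : Cen T0 := cen_finite (A := A0) (T := T0)
  exact ⟨T0.toSubring, fun t ht => hmem t (mS t ht), hn1, hn2, hc⟩

end Noeth

end SepNoe
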