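import Pool.Agent.Lib.MP_dccecd_al.NoeTop
import Pool.Agent.Lib.MP_dccecd_al.NoeFin
import Pool.Agent.Lib.MP_dccecd_al.NoeForm

/-! The noetherian base theorem (for MP_dccecd_al), for rings with enough normal elements: matrix
rings and modules. -/

open SepReg SepFin Matrix

namespace SepNoe

universe u v w x

section Mat
variable {T : Type v} [Ring T] {n : ℕ}

theorem nor_matrix (hT : Nor T) : Nor (Matrix (Fin n) (Fin n) T) := by
  intro P hP hp I hI hIP
  obtain ⟨M, hMI, hMP⟩ := SetLike.not_le_iff_exists.mp hIP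
  have h1 : ¬ ent I ≤ ent P := by
    intro hle
    apply hMP
    rw [mem_iff_ent hP]
    exact fun i j => hle ((mem_iff_ent hI).mp hMI i j)
  have hn : Nonempty (Fin n) := by
    by_contra hcon
    rw [not_nonempty_iff] at hcon
    apply hMP
    rw [mem_iff_ent hP]
    exact fun i => (hcon.false i).elim
  obtain ⟨i0⟩ := hn
  obtain ⟨J, hJ, hJI, hJP, z, hz, hzl, hzr, hjl, hjr, hzJ⟩ := hT (ent P) (ent_two hP) (ent_prime hp) (ent I)
    (ent_two hI) h1
  have hmem : ∀ t ∈ J * J ⊔ ent P, ∀ i j : Fin n,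
      single i j t ∈ J.matrix (Fin n) * J.matrix (Fin n) ⊔ P := by
    set K : Ideal T := ent (J.matrix (Fin n) * J.matrix (Fin n) ⊔ P) with hK
    have h2 : J * J ⊔ ent P ≤ K := by
      refine sup_le ?_ ?_
      · rw [Ideal.mul_le]
        intro a ha b hb i j
        rw [← single_mul_single_same a i i j b]
        refine (le_sup_left : J.matrix (Fin n) * J.matrix (Fin n) ≤ _) (Ideal.mul_mem_mul ?_ ?_)
        · intro k l
          rw [single_apply]
          split_ifs
          · exact ha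
          · exact J.zero_mem
        · intro k l
          rw [single_apply]
          split_ifs
          · exact hb
          · exact J.zero_mem
      · intro t ht i j
        exact (le_sup_right : P ≤ _) (ht i j)
    exact fun t ht => h2 ht
  refine ⟨J.matrix (Fin n), matrix_two hJ, ?_, ?_, diagonal fun _ => z, ?_, ?_, ?_, ?_, ?_, ?_⟩
  · intro M hM
    rw [mem_iff_ent hI]
    exact fun i j => hJI (hM i j)
  · intro hle
    apply hJP
    intro t ht
    rw [mem_ent]
    intro i j
    apply hle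
    intro k l
    rw [single_apply]
    split_ifs
    · exact ht
    · exact J.zero_mem
  · intro h2
    apply hz
    have h3 := (mem_iff_ent hP).mp h2 i0 i0
    rwa [diagonal_apply_eq] at h3
  · intro N
    choose s hs using hzl
    refine ⟨fun i j => s (N i j), ?_⟩
    rw [mem_iff_ent hP]
    intro i j
    rw [Matrix.sub_apply, diagonal_mul, mul_diagonal]
    exact hs _
  · intro N
    choose s hs using hzr
    refine ⟨fun i j => s (N i j), ?_⟩
    rw [mem_iff_ent hP]
    intro i j
    rw [Matrix.sub_apply, diagonal_mul, mul_diagonal]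
    exact hs _
  · intro N hN
    choose s hsJ hs using hjl
    refine ⟨fun i j => s (N i j) (hN i j), fun i j => hsJ _ _, ?_⟩
    rw [mem_iff_ent hP]
    intro i j
    rw [Matrix.sub_apply, diagonal_mul, mul_diagonal]
    exact hs _ _
  · intro N hN
    choose s hsJ hs using hjr
    refine ⟨fun i j => s (N i j) (hN i j), fun i j => hsJ _ _, ?_⟩
    rw [mem_iff_ent hP]
    intro i j
    rw [Matrix.sub_apply, diagonal_mul, mul_diagonal]
    exact hs _ _
  · intro N hN
    rw [matrix_eq_sum_single (diagonal (fun _ => z) * N)]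
    refine Ideal.sum_mem _ fun i _ => Ideal.sum_mem _ fun j _ => ?_
    apply hmem
    rw [diagonal_mul]
    exact hzJ _ (hN i j)

end Mat

section Loc
variable {T : Type v} [Ring T] {R : Type u} [Ring R] [VNR R]

/-- every finite subset is contained in a subring which is noetherian on both sides and satisfies
the condition `Nor` -/
def LocNor (T : Type v) [Ring T] : Prop :=
  ∀ s : Finset T, ∃ T0 : Subring T, (s : Set T) ⊆ T0 ∧ IsNoetherianRing T0 ∧
    IsNoetherianRing T0ᵐᵒᵖ ∧ Nor T0

theorem mat_nor (hT : LocNor T) {n : ℕ} {e f x y : Matrix (Fin n) (Fin n) T} (he : e * e = e)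
    (hf : f * f = f) (hxy : x * y = 1 - e) (hyx : y * x = 1 - f)
    (C : Bim (Matrix (Fin n) (Fin n) T) R) : pp e C = pp f C := by
  classical
  obtain ⟨T0, hs, hn1, hn2, hc⟩ := hT
    ((Finset.univ.image fun p : Fin n × Fin n => e p.1 p.2) ∪
      (Finset.univ.image fun p : Fin n × Fin n => f p.1 p.2) ∪
      (Finset.univ.image fun p : Fin n × Fin n => x p.1 p.2) ∪
      (Finset.univ.image fun p : Fin n × Fin n => y p.1 p.2))
  have me : ∀ i j, e i j ∈ T0 := fun i j => hs (by
    simp only [Finset.coe_union, Set.mem_union, Finset.coe_image, Finset.coe_univ, Set.image_univ]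
    exact Or.inl (Or.inl (Or.inl ⟨(i, j), rfl⟩)))
  have mf : ∀ i j, f i j ∈ T0 := fun i j => hs (by
    simp only [Finset.coe_union, Set.mem_union, Finset.coe_image, Finset.coe_univ, Set.image_univ]
    exact Or.inl (Or.inl (Or.inr ⟨(i, j), rfl⟩)))
  have mx : ∀ i j, x i j ∈ T0 := fun i j => hs (by
    simp only [Finset.coe_union, Set.mem_union, Finset.coe_image, Finset.coe_univ, Set.image_univ]
    exact Or.inl (Or.inr ⟨(i, j), rfl⟩))
  have my : ∀ i j, y i j ∈ T0 := fun i j => hs (by
    simp only [Finset.coe_union, Set.mem_union, Finset.coe_image, Finset.coe_univ, Set.image_univ]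
    exact Or.inr ⟨(i, j), rfl⟩)
  set φ : Matrix (Fin n) (Fin n) T0 →+* Matrix (Fin n) (Fin n) T := T0.subtype.mapMatrix with hφ
  have hφi : Function.Injective φ := by
    intro M N h
    ext i j
    have h1 := congrFun (congrFun h i) j
    exact h1
  set e0 : Matrix (Fin n) (Fin n) T0 := fun i j => ⟨e i j, me i j⟩ with he0
  set f0 : Matrix (Fin n) (Fin n) T0 := fun i j => ⟨f i j, mf i j⟩ with hf0
  set x0 : Matrix (Fin n) (Fin n) T0 := fun i j => ⟨x i j, mx i j⟩ with hx0
  set y0 : Matrix (Fin n) (Fin n) T0 := fun i j => ⟨y i j, my i j⟩ with hy0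
  have ke : φ e0 = e := rfl
  have kf : φ f0 = f := rfl
  have kx : φ x0 = x := rfl
  have ky : φ y0 = y := rfl
  have hop : IsNoetherianRing (Matrix (Fin n) (Fin n) T0)ᵐᵒᵖ :=
    isNoetherianRing_of_surjective (Matrix (Fin n) (Fin n) T0ᵐᵒᵖ) _
      (RingEquiv.mopMatrix (m := Fin n) (α := T0)).toRingHom
      (RingEquiv.mopMatrix (m := Fin n) (α := T0)).surjective
  have h1 := nor_main (R := R) (nor_matrix (n := n) hc) (e := e0) (f := f0) (x := x0) (y := y0)
    (hφi (by rw [map_mul, ke, he])) (hφi (by rw [map_mul, kf, hf]))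
    (hφi (by rw [map_mul, kx, ky, map_sub, map_one, ke, hxy]))
    (hφi (by rw [map_mul, kx, ky, map_sub, map_one, kf, hyx])) (C.res φ)
  exact h1


/-- the theorem for idempotents of the ring -/
theorem loc_nor (hT : LocNor T) {e f x y : T} (he : e * e = e) (hf : f * f = f)
    (hxy : x * y = 1 - e) (hyx : y * x = 1 - f) (C : Bim T R) : pp e C = pp f C := by
  classical
  obtain ⟨T0, hs, hn1, hn2, hc⟩ := hT {e, f, x, y}
  have me : e ∈ T0 := hs (by simp)
  have mf : f ∈ T0 := hs (by simp)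
  have mx : x ∈ T0 := hs (by simp)
  have my : y ∈ T0 := hs (by simp)
  exact nor_main (R := R) hc (e := ⟨e, me⟩) (f := ⟨f, mf⟩) (x := ⟨x, mx⟩) (y := ⟨y, my⟩)
    (Subtype.ext he) (Subtype.ext hf) (Subtype.ext hxy) (Subtype.ext hyx) (C.res T0.subtype)

end Loc

section Form
variable {T : Type v} [Ring T] {R : Type u} [Ring R]
  {C : Type u} [AddCommGroup C] [Module R C] [Module T C] [SMulCommClass T R C]

theorem end_nor [VNR R] [Module.Finite R C] [Module.Projective R C] (hT : LocNor T) {n : ℕ}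
    {e f x y : (Module.End T (Fin n → T))ᵐᵒᵖ} (he : e * e = e)
    (hf : f * f = f) (hxy : x * y = 1 - e) (hyx : y * x = 1 - f) :
    pp e (bimEnd T R C n) = pp f (bimEnd T R C n) := by
  have h1 := mat_nor (R := R) hT (e := (matEnd T n).symm e) (f := (matEnd T n).symm f)
    (x := (matEnd T n).symm x) (y := (matEnd T n).symm y)
    (by rw [← map_mul, he]) (by rw [← map_mul, hf])
    (by rw [← map_mul, hxy, map_sub, map_one]) (by rw [← map_mul, hyx, map_sub, map_one])
    ((bimEnd T R C n).res (matEnd T n).toRingHom)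
  have h2 : ∀ g : (Module.End T (Fin n → T))ᵐᵒᵖ,
      pp ((matEnd T n).symm g) ((bimEnd T R C n).res (matEnd T n).toRingHom) =
        pp g (bimEnd T R C n) := by
    intro g
    have h3 : ((bimEnd T R C n).res (matEnd T n).toRingHom).act ((matEnd T n).symm g) =
        (bimEnd T R C n).act g := by
      change (bimEnd T R C n).act (matEnd T n ((matEnd T n).symm g)) = _
      rw [RingEquiv.apply_symm_apply]
    rw [pp, pp]
    exact cls_congr (LinearEquiv.ofEq _ _ (congrArg LinearMap.range h3))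
  rw [h2, h2] at h1
  exact h1

/-- stably isomorphic projective modules become isomorphic over a von Neumann regular ring -/
theorem module_nor (hR : ∀ a : R, ∃ x : R, a * x * a = a) (hT : LocNor T) [Module.Finite R C]
    [Module.Projective R C] (P Q G : Type x) [AddCommGroup P] [Module T P] [Module.Finite T P]
    [Module.Projective T P] [AddCommGroup Q] [Module T Q] [AddCommGroup G] [Module T G]
    [Module.Finite T G] [Module.Projective T G] (φ : (P × G) ≃ₗ[T] (Q × G)) :
    Nonempty ((P →ₗ[T] C) ≃ₗ[R] (Q →ₗ[T] C)) := by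
  have hV : VNR R := ⟨hR⟩
  obtain ⟨n, π, hπ⟩ := Module.Finite.exists_fin' T (P × G)
  obtain ⟨s, hs⟩ := Module.projective_lifting_property π LinearMap.id hπ
  have hs' : ∀ z, π (s z) = z := fun z => LinearMap.congr_fun hs z
  set iP : P →ₗ[T] (Fin n → T) := s.comp (LinearMap.inl T P G) with hiP
  set qP : (Fin n → T) →ₗ[T] P := (LinearMap.fst T P G).comp π with hqP
  set iQ : Q →ₗ[T] (Fin n → T) := s.comp (φ.symm.toLinearMap.comp (LinearMap.inl T Q G)) with hiQ
  set qQ : (Fin n → T) →ₗ[T] Q := (LinearMap.fst T Q G).comp (φ.toLinearMap.comp π) with hqQ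
  have hP : qP.comp iP = LinearMap.id := by
    apply LinearMap.ext
    intro p
    change (π (s (p, 0))).1 = p
    rw [hs']
  have hQ : qQ.comp iQ = LinearMap.id := by
    apply LinearMap.ext
    intro p
    change (φ (π (s (φ.symm (p, 0))))).1 = p
    rw [hs', LinearEquiv.apply_symm_apply]
  obtain ⟨α⟩ := hom_equiv_range (R := R) (C := C) iP qP hP
  obtain ⟨β⟩ := hom_equiv_range (R := R) (C := C) iQ qQ hQ
  set X : (Fin n → T) →ₗ[T] (Fin n → T) :=
    s.comp ((LinearMap.inr T P G).comp ((LinearMap.snd T Q G).comp (φ.toLinearMap.comp π))) +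
      (LinearMap.id - s.comp π) with hX
  set Y : (Fin n → T) →ₗ[T] (Fin n → T) :=
    s.comp (φ.symm.toLinearMap.comp ((LinearMap.inr T Q G).comp ((LinearMap.snd T P G).comp π))) +
      (LinearMap.id - s.comp π) with hY
  have hXa : ∀ v, X v = s (0, (φ (π v)).2) + (v - s (π v)) := fun v => rfl
  have hYa : ∀ v, Y v = s (φ.symm (0, (π v).2)) + (v - s (π v)) := fun v => rfl
  have hπX : ∀ v, π (X v) = (0, (φ (π v)).2) := by
    intro v
    rw [hXa, map_add, map_sub, hs', hs', sub_self, add_zero]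
  have hπY : ∀ v, π (Y v) = φ.symm (0, (π v).2) := by
    intro v
    rw [hYa, map_add, map_sub, hs', hs', sub_self, add_zero]
  have hXY : X.comp Y = LinearMap.id - iP.comp qP := by
    apply LinearMap.ext
    intro v
    rw [LinearMap.comp_apply, hXa, hπY, LinearEquiv.apply_symm_apply, hYa]
    change s (0, (π v).2) + (s (φ.symm (0, (π v).2)) + (v - s (π v)) - s (φ.symm (0, (π v).2))) =
      v - s ((π v).1, 0)
    have h1 : s (π v) = s ((π v).1, 0) + s (0, (π v).2) := by
      rw [← map_add]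
      congr 1
      ext <;> simp
    rw [h1]
    abel
  have hYX : Y.comp X = LinearMap.id - iQ.comp qQ := by
    apply LinearMap.ext
    intro v
    rw [LinearMap.comp_apply, hYa, hπX, hXa]
    change s (φ.symm (0, (φ (π v)).2)) + (s (0, (φ (π v)).2) + (v - s (π v)) -
      s (0, (φ (π v)).2)) = v - s (φ.symm ((φ (π v)).1, 0))
    have h1 : s (π v) = s (φ.symm ((φ (π v)).1, 0)) + s (φ.symm (0, (φ (π v)).2)) := by
      rw [← map_add, ← map_add]
      congr 1
      rw [LinearEquiv.eq_symm_apply]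
      ext <;> simp
    rw [h1]
    abel
  have hid : ∀ {P' : Type x} [AddCommGroup P'] [Module T P'] {i : P' →ₗ[T] (Fin n → T)}
      {q : (Fin n → T) →ₗ[T] P'}, q.comp i = LinearMap.id →
      (i.comp q).comp (i.comp q) = i.comp q := by
    intro P' _ _ i q h
    apply LinearMap.ext
    intro v
    exact congrArg i (LinearMap.congr_fun h (q v))
  have h1 := end_nor (C := C) (R := R) hT
    (e := MulOpposite.op (iP.comp qP : Module.End T _))
    (f := MulOpposite.op (iQ.comp qQ : Module.End T _))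
    (x := MulOpposite.op (Y : Module.End T _)) (y := MulOpposite.op (X : Module.End T _))
    (congrArg MulOpposite.op (hid hP)) (congrArg MulOpposite.op (hid hQ))
    (congrArg MulOpposite.op hXY) (congrArg MulOpposite.op hYX)
  obtain ⟨γ⟩ := cls_eq.mp h1
  exact ⟨α.trans (γ.trans β.symm)⟩

end Form

section Examples
variable {T : Type v} [Ring T]

theorem nor_of_cen (h : Cen T) : Nor T := by
  intro P hP hp I hI hIP
  obtain ⟨J, hJ, hJI, hJP, z, hz, hzc, hzJ⟩ := h P hP hp I hI hIP
  refine ⟨J, hJ, hJI, hJP, z, hz, fun t => ⟨t, hzc t⟩, fun t => ⟨t, ?_⟩, fun j hj => ⟨j, hj, hzc j⟩,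
    fun j hj => ⟨j, hj, ?_⟩, hzJ⟩
  · rw [← neg_sub]
    exact P.neg_mem (hzc t)
  · rw [← neg_sub]
    exact P.neg_mem (hzc j)

theorem locNor_of_locCen (h : LocCen T) : LocNor T := by
  intro s
  obtain ⟨T0, hs, h1, h2, h3⟩ := h s
  exact ⟨T0, hs, h1, h2, nor_of_cen h3⟩

/-- rings in which the prime factor rings have enough normal elements -/
theorem nor_of_normal (h : ∀ P : Ideal T, P.IsTwoSided →
    (∀ a b : T, (∀ t, a * t * b ∈ P) → a ∈ P ∨ b ∈ P) → ∀ I : Ideal T, I.IsTwoSided → ¬ I ≤ P →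
      ∃ z ∈ I, z ∉ P ∧ (∀ t, ∃ t', z * t - t' * z ∈ P) ∧ (∀ t, ∃ t', t * z - z * t' ∈ P)) :
    Nor T := by
  intro P hP hp I hI hIP
  obtain ⟨z, hzI, hzP, hzl, hzr⟩ := h P hP hp I hI hIP
  have hl : ∀ t, z * t ∈ Ideal.span {z} ⊔ (P ⊓ I) := by
    intro t
    obtain ⟨t', ht'⟩ := hzl t
    have h1 : z * t = t' * z + (z * t - t' * z) := by abel
    rw [h1]
    refine Submodule.add_mem_sup (Ideal.mul_mem_left _ _ (Ideal.mem_span_singleton_self z)) ⟨ht', ?_⟩
    exact I.sub_mem (hI.mul_mem_of_left _ hzI) (I.mul_mem_left _ hzI)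
  have hJ2 : (Ideal.span {z} ⊔ (P ⊓ I)).IsTwoSided := by
    constructor
    intro a b ha
    obtain ⟨c, hc, d, hd, rfl⟩ := Submodule.mem_sup.mp ha
    obtain ⟨r, rfl⟩ := Ideal.mem_span_singleton'.mp hc
    rw [add_mul, mul_assoc]
    refine Ideal.add_mem _ (Ideal.mul_mem_left _ _ (hl b)) ?_
    exact (le_sup_right : P ⊓ I ≤ _) ⟨hP.mul_mem_of_left b hd.1, hI.mul_mem_of_left b hd.2⟩
  have hz : z ∈ Ideal.span {z} ⊔ (P ⊓ I) :=
    (le_sup_left : Ideal.span {z} ≤ _) (Ideal.mem_span_singleton_self z)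
  have hform : ∀ j ∈ Ideal.span {z} ⊔ (P ⊓ I), ∃ r, j - r * z ∈ P := by
    intro j hj
    obtain ⟨c, hc, d, hd, rfl⟩ := Submodule.mem_sup.mp hj
    obtain ⟨r, rfl⟩ := Ideal.mem_span_singleton'.mp hc
    exact ⟨r, by rw [add_sub_cancel_left]; exact hd.1⟩
  refine ⟨Ideal.span {z} ⊔ (P ⊓ I), hJ2, ?_, fun hle => hzP (hle hz), z, hzP, hzl, hzr, ?_, ?_, ?_⟩
  · refine sup_le ?_ inf_le_right
    rw [Ideal.span_singleton_le_iff_mem]
    exact hzI
  · intro j hj
    obtain ⟨r, hr⟩ := hform j hj
    obtain ⟨s, hs⟩ := hzl r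
    refine ⟨s * z, Ideal.mul_mem_left _ _ hz, ?_⟩
    have h1 : z * j - s * z * z = z * (j - r * z) + (z * r - s * z) * z := by noncomm_ring
    rw [h1]
    exact P.add_mem (P.mul_mem_left _ hr) (hP.mul_mem_of_left _ hs)
  · intro j hj
    obtain ⟨r, hr⟩ := hform j hj
    obtain ⟨s, hs⟩ := hzr r
    refine ⟨s * z, Ideal.mul_mem_left _ _ hz, ?_⟩
    have h1 : j * z - z * (s * z) = (j - r * z) * z + (r * z - z * s) * z := by noncomm_ring
    rw [h1]
    exact P.add_mem (hP.mul_mem_of_left _ hr) (hP.mul_mem_of_left _ hs)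
  · intro j hj
    exact Ideal.mem_sup_left (Ideal.mul_mem_mul hz hj)

/-- simple rings -/
theorem nor_of_simple (h : ∀ I : Ideal T, I.IsTwoSided → I = ⊥ ∨ I = ⊤) : Nor T := by
  apply nor_of_normal
  intro P hP hp I hI hIP
  have hI' : I = ⊤ := by
    rcases h I hI with h1 | h1
    · exfalso
      apply hIP
      rw [h1]
      exact bot_le
    · exact h1
  rw [hI'] at hIP ⊢
  refine ⟨1, Submodule.mem_top, fun h1 => hIP ?_, fun t => ⟨t, ?_⟩, fun t => ⟨t, ?_⟩⟩
  · rw [(Ideal.eq_top_iff_one P).mpr h1]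
  · rw [one_mul, mul_one, sub_self]
    exact P.zero_mem
  · rw [one_mul, mul_one, sub_self]
    exact P.zero_mem

/-- noetherian rings with the condition -/
theorem locNor_of_nor [IsNoetherianRing T] [IsNoetherianRing Tᵐᵒᵖ] (h : Nor T) : LocNor T := by
  intro s
  refine ⟨⊤, fun t _ => Subring.mem_top t, ?_, ?_, ?_⟩
  · exact isNoetherianRing_of_ringEquiv T (Subring.topEquiv (R := T)).symm
  · exact isNoetherianRing_of_ringEquiv Tᵐᵒᵖ (RingEquiv.op (Subring.topEquiv (R := T)).symm)
  · set φ : T ≃+* (⊤ : Subring T) := (Subring.topEquiv (R := T)).symm with hφ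
    intro P hP hp I hI hIP
    have hs : ∀ q, ∃ t, φ t = q := fun q => φ.surjective q
    obtain ⟨J, hJ, hJI, hJP, z, hz, hzl, hzr, hjl, hjr, hzJ⟩ := h (Ideal.comap φ.toRingHom P)
      inferInstance (by
        intro a b hab
        apply hp
        intro t
        obtain ⟨t, rfl⟩ := hs t
        have h1 := hab t
        rw [Ideal.mem_comap, map_mul, map_mul] at h1
        exact h1) (Ideal.comap φ.toRingHom I) inferInstance (by
        intro hle
        apply hIP
        intro q hq
        obtain ⟨t, rfl⟩ := hs q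
        exact hle hq)
    have hmap : ∀ q, q ∈ Ideal.map φ.toRingHom J ↔ ∃ j ∈ J, φ j = q := fun q =>
      Ideal.mem_map_iff_of_surjective _ φ.surjective
    refine ⟨Ideal.map φ.toRingHom J, ?_, ?_, ?_, φ z, hz, ?_, ?_, ?_, ?_, ?_⟩
    · constructor
      intro a b ha
      obtain ⟨j, hj, rfl⟩ := (hmap a).mp ha
      obtain ⟨t, rfl⟩ := hs b
      exact (hmap _).mpr ⟨j * t, hJ.mul_mem_of_left t hj, map_mul _ _ _⟩
    · rw [Ideal.map_le_iff_le_comap]
      exact hJI
    · intro hle
      apply hJP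
      intro j hj
      exact hle ((hmap _).mpr ⟨j, hj, rfl⟩)
    · intro t
      obtain ⟨t, rfl⟩ := hs t
      obtain ⟨t', ht'⟩ := hzl t
      refine ⟨φ t', ?_⟩
      rw [← map_mul, ← map_mul, ← map_sub]
      exact ht'
    · intro t
      obtain ⟨t, rfl⟩ := hs t
      obtain ⟨t', ht'⟩ := hzr t
      refine ⟨φ t', ?_⟩
      rw [← map_mul, ← map_mul, ← map_sub]
      exact ht'
    · intro q hq
      obtain ⟨j, hj, rfl⟩ := (hmap q).mp hq
      obtain ⟨t', hj', ht'⟩ := hjl j hj
      refine ⟨φ t', (hmap _).mpr ⟨t', hj', rfl⟩, ?_⟩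
      rw [← map_mul, ← map_mul, ← map_sub]
      exact ht'
    · intro q hq
      obtain ⟨j, hj, rfl⟩ := (hmap q).mp hq
      obtain ⟨t', hj', ht'⟩ := hjr j hj
      refine ⟨φ t', (hmap _).mpr ⟨t', hj', rfl⟩, ?_⟩
      rw [← map_mul, ← map_mul, ← map_sub]
      exact ht'
    · intro q hq
      obtain ⟨j, hj, rfl⟩ := (hmap q).mp hq
      rw [← map_mul]
      have h2 : J * J ⊔ Ideal.comap φ.toRingHom P ≤ Ideal.comap φ.toRingHom
          (Ideal.map φ.toRingHom J * Ideal.map φ.toRingHom J ⊔ P) := by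
        refine sup_le ?_ ?_
        · rw [Ideal.mul_le]
          intro a ha b hb
          rw [Ideal.mem_comap, map_mul]
          exact Ideal.mem_sup_left (Ideal.mul_mem_mul ((hmap _).mpr ⟨a, ha, rfl⟩)
            ((hmap _).mpr ⟨b, hb, rfl⟩))
        · intro a ha
          exact Ideal.mem_sup_right ha
      exact h2 (hzJ j hj)

end Examples

end SepNoe
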