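import Pool.Agent.Lib.MP_dccecd_al.GrTop
import Pool.Agent.Lib.MP_dccecd_al.NoeLoc

/-! The graded condition (for MP_dccecd_al, the graded base theorem) passes to matrix rings. -/

open SepReg SepFin SepNoe Matrix

namespace SepGr

universe u v w

section Acc
variable {T : Type v} [Ring T]

/-- increasing sequences without infinite strictly increasing subsequences are constant from some
point on -/
theorem stab {L : Type*} [PartialOrder L] {p : L → Prop}
    (h : ∀ G : ℕ → L, (∀ k, p (G k)) → (∀ k, G k < G (k + 1)) → False)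
    (G : ℕ → L) (hG : ∀ k, p (G k)) (hmono : Monotone G) : ∃ K, ∀ m, K ≤ m → G m = G K := by
  by_contra hcon
  push Not at hcon
  choose nx hnx hne using hcon
  set κ : ℕ → ℕ := fun k => Nat.rec 0 (fun _ p => nx p) k with hκ
  have hκ1 : ∀ k, κ (k + 1) = nx (κ k) := fun k => rfl
  refine h (G ∘ κ) (fun k => hG _) fun k => ?_
  rw [Function.comp_apply, Function.comp_apply, hκ1]
  exact lt_of_le_of_ne (hmono (hnx _)) (hne _).symm

/-- the leading coefficients -/
def lc {d : ℕ} (i : Fin d) (G : ℕ → AddSubgroup (Fin d → T)) (n : ℕ) : AddSubgroup T where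
  carrier := {a | ∃ v ∈ G n, (∀ j, i < j → v j = 0) ∧ v i = a}
  add_mem' := by
    rintro a b ⟨v, hv, hv0, rfl⟩ ⟨w, hw, hw0, rfl⟩
    refine ⟨v + w, (G n).add_mem hv hw, fun j hj => ?_, rfl⟩
    rw [Pi.add_apply, hv0 j hj, hw0 j hj, add_zero]
  zero_mem' := ⟨0, (G n).zero_mem, fun j _ => rfl, rfl⟩
  neg_mem' := by
    rintro a ⟨v, hv, hv0, rfl⟩
    refine ⟨-v, (G n).neg_mem hv, fun j hj => ?_, rfl⟩
    rw [Pi.neg_apply, hv0 j hj, neg_zero]

theorem mem_lc {d : ℕ} {i : Fin d} {G : ℕ → AddSubgroup (Fin d → T)} {n : ℕ} {a : T} :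
    a ∈ lc i G n ↔ ∃ v ∈ G n, (∀ j, i < j → v j = 0) ∧ v i = a := Iff.rfl

theorem lc_mono {d : ℕ} (i : Fin d) {G G' : ℕ → AddSubgroup (Fin d → T)} (h : G ≤ G') :
    lc i G ≤ lc i G' := by
  intro n a ha
  obtain ⟨v, hv, h1⟩ := mem_lc.mp ha
  exact mem_lc.mpr ⟨v, h n hv, h1⟩

theorem vfam_eq {d : ℕ} {G G' : ℕ → AddSubgroup (Fin d → T)} (h : G ≤ G')
    (h1 : ∀ i, lc i G = lc i G') : G = G' := by
  apply le_antisymm h
  intro n
  have key : ∀ m, ∀ v ∈ G' n, (∀ j : Fin d, m ≤ j.val → v j = 0) → v ∈ G n := by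
    intro m
    induction m with
    | zero =>
      intro v _ hv0
      have h2 : v = 0 := funext fun j => hv0 j (Nat.zero_le _)
      rw [h2]
      exact (G n).zero_mem
    | succ m ih =>
      intro v hv hv0
      by_cases hm : m < d
      · have h2 : v ⟨m, hm⟩ ∈ lc ⟨m, hm⟩ G' n := by
          refine mem_lc.mpr ⟨v, hv, fun j hj => hv0 j ?_, rfl⟩
          exact hj
        rw [← h1] at h2
        obtain ⟨w, hw, hw0, hwm⟩ := mem_lc.mp h2
        have h3 := ih (v - w) ((G' n).sub_mem hv (h n hw)) (fun j hj => by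
          rcases Nat.eq_or_lt_of_le hj with h4 | h4
          · have h5 : j = ⟨m, hm⟩ := Fin.ext h4.symm
            rw [h5, Pi.sub_apply, hwm, sub_self]
          · rw [Pi.sub_apply, hv0 j h4, hw0 j h4, sub_zero])
        have h4 := (G n).add_mem h3 hw
        rwa [sub_add_cancel] at h4
      · apply ih v hv
        intro j hj
        exact absurd j.2 (by omega)
  intro v hv
  exact key d v hv (fun j hj => absurd j.2 (by omega))

theorem vfam_stab {d : ℕ} {q : (ℕ → AddSubgroup T) → Prop}
    (h : ∀ G : ℕ → ℕ → AddSubgroup T, (∀ k, q (G k)) → (∀ k, G k < G (k + 1)) → False)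
    (G : ℕ → ℕ → AddSubgroup (Fin d → T)) (hmono : Monotone G)
    (hq : ∀ k i, q (lc i (G k))) : ∃ K, ∀ m, K ≤ m → G m = G K := by
  have h1 : ∀ i : Fin d, ∃ K, ∀ m, K ≤ m → lc i (G m) = lc i (G K) := fun i =>
    stab h (fun k => lc i (G k)) (fun k => hq k i) (fun a b hab => lc_mono i (hmono hab))
  choose K hK using h1
  refine ⟨Finset.univ.sup K, fun m hm => ?_⟩
  refine (vfam_eq (hmono hm) fun i => ?_).symm
  have h2 : K i ≤ Finset.univ.sup K := Finset.le_sup (Finset.mem_univ i)
  rw [hK i _ h2, hK i m (h2.trans hm)]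

end Acc

section Mat
variable {T : Type v} [Ring T] {d : ℕ}

theorem mem_matrix {J : Ideal T} {M : Matrix (Fin d) (Fin d) T} :
    M ∈ J.matrix (Fin d) ↔ ∀ i j, M i j ∈ J := Iff.rfl

theorem single_mem_matrix {J : Ideal T} {a : T} (ha : a ∈ J) (i j : Fin d) :
    single i j a ∈ J.matrix (Fin d) := by
  intro k l
  rw [single_apply]
  split_ifs
  · exact ha
  · exact J.zero_mem

theorem matrix_mul' (I J : Ideal T) :
    (I * J).matrix (Fin d) = I.matrix (Fin d) * J.matrix (Fin d) := by
  apply le_antisymm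
  · intro M hM
    rw [matrix_eq_sum_single M]
    refine Ideal.sum_mem _ fun i _ => Ideal.sum_mem _ fun j _ => ?_
    have h2 : I * J ≤ ent (I.matrix (Fin d) * J.matrix (Fin d)) := by
      rw [Ideal.mul_le]
      intro a ha b hb k l
      rw [← single_mul_single_same a k k l b]
      exact Ideal.mul_mem_mul (single_mem_matrix ha _ _) (single_mem_matrix hb _ _)
    exact h2 (hM i j) i j
  · rw [Ideal.mul_le]
    intro A hA B hB i j
    rw [mul_apply]
    exact Ideal.sum_mem _ fun k _ => Ideal.mul_mem_mul (hA i k) (hB k j)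

theorem mem_matrix_sup {J : Ideal T} {P : Ideal (Matrix (Fin d) (Fin d) T)}
    {M : Matrix (Fin d) (Fin d) T} (h : ∀ i j, M i j ∈ J ⊔ ent P) :
    M ∈ J.matrix (Fin d) ⊔ P := by
  rw [matrix_eq_sum_single M]
  refine Ideal.sum_mem _ fun i _ => Ideal.sum_mem _ fun j _ => ?_
  obtain ⟨a, ha, p, hp, hap⟩ := Submodule.mem_sup.mp (h i j)
  rw [← hap, single_add]
  exact Submodule.add_mem_sup (single_mem_matrix ha _ _) (hp i j)

theorem matrix_sup_le {J K : Ideal T} {P : Ideal (Matrix (Fin d) (Fin d) T)}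
    (h : J ≤ K ⊔ ent P) : J.matrix (Fin d) ≤ K.matrix (Fin d) ⊔ P :=
  fun _ hM => mem_matrix_sup fun i j => h (hM i j)

theorem RN_matrix [IsNoetherianRing Tᵐᵒᵖ] {F : ℕ → Ideal T} (hF : Flt F) (h : RN F) :
    RN fun n => (F n).matrix (Fin d) := by
  intro n a hn ha
  have ha' : ∀ k i j, a k i j ∈ F (n k) := fun k => ha k
  -- the families generated by the columns of the first matrices
  set G : ℕ → ℕ → AddSubgroup (Fin d → T) := fun k m =>
    { carrier := {v | ∃ c : ℕ → Fin d → T, (∀ j p, n j ≤ m → c j p ∈ F (m - n j)) ∧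
        (∀ j p, m < n j → c j p = 0) ∧
        ∀ i, v i - ∑ j ∈ Finset.range k, ∑ p, a j i p * c j p ∈ F (m + 1)}
      add_mem' := by
        rintro v w ⟨c, hc1, hc2, hc3⟩ ⟨c', hc1', hc2', hc3'⟩
        refine ⟨fun j p => c j p + c' j p, fun j p hj => ?_, fun j p hj => ?_, fun i => ?_⟩
        · exact Ideal.add_mem _ (hc1 j p hj) (hc1' j p hj)
        · dsimp only
          rw [hc2 j p hj, hc2' j p hj, add_zero]
        · have h2 := Ideal.add_mem _ (hc3 i) (hc3' i)
          have h3 : v i - ∑ j ∈ Finset.range k, ∑ p, a j i p * c j p +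
              (w i - ∑ j ∈ Finset.range k, ∑ p, a j i p * c' j p) =
              (v + w) i - ∑ j ∈ Finset.range k, ∑ p, a j i p * (c j p + c' j p) := by
            simp only [mul_add, Finset.sum_add_distrib, Pi.add_apply]
            abel
          rwa [h3] at h2
      zero_mem' := by
        refine ⟨fun j p => 0, fun j p hj => Ideal.zero_mem _, fun j p hj => rfl, fun i => ?_⟩
        simp
      neg_mem' := by
        rintro v ⟨c, hc1, hc2, hc3⟩
        refine ⟨fun j p => -c j p, fun j p hj => ?_, fun j p hj => ?_, fun i => ?_⟩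
        · exact Ideal.neg_mem_iff _ |>.mpr (hc1 j p hj)
        · dsimp only
          rw [hc2 j p hj, neg_zero]
        · have h2 := (Ideal.neg_mem_iff _).mpr (hc3 i)
          have h3 : -(v i - ∑ j ∈ Finset.range k, ∑ p, a j i p * c j p) =
              (-v) i - ∑ j ∈ Finset.range k, ∑ p, a j i p * -c j p := by
            simp only [mul_neg, Finset.sum_neg_distrib, Pi.neg_apply]
            abel
          rwa [h3] at h2 } with hG
  have hmem : ∀ k m v, v ∈ G k m ↔ ∃ c : ℕ → Fin d → T,
      (∀ j p, n j ≤ m → c j p ∈ F (m - n j)) ∧ (∀ j p, m < n j → c j p = 0) ∧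
        ∀ i, v i - ∑ j ∈ Finset.range k, ∑ p, a j i p * c j p ∈ F (m + 1) :=
    fun k m v => Iff.rfl
  have hprod : ∀ m j p i (c : ℕ → Fin d → T), (∀ j p, n j ≤ m → c j p ∈ F (m - n j)) →
      (∀ j p, m < n j → c j p = 0) → a j i p * c j p ∈ F m := by
    intro m j p i c hc1 hc2
    by_cases hj : n j ≤ m
    · have h1 := hF.mul' (ha' j i p) (hc1 j p hj)
      rwa [show n j + (m - n j) = m by omega] at h1
    · rw [hc2 j p (by omega), mul_zero]
      exact Ideal.zero_mem _
  have hmono : Monotone G := by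
    apply monotone_nat_of_le_succ
    intro k m v hv
    obtain ⟨c, hc1, hc2, hc3⟩ := (hmem k m v).mp hv
    refine (hmem (k + 1) m v).mpr ⟨fun j p => if j = k then 0 else c j p, fun j p hj => ?_,
      fun j p hj => ?_, fun i => ?_⟩
    · dsimp only
      split_ifs
      · exact Ideal.zero_mem _
      · exact hc1 j p hj
    · dsimp only
      split_ifs
      · rfl
      · exact hc2 j p hj
    · rw [Finset.sum_range_succ]
      have h2 : ∑ j ∈ Finset.range k, ∑ p, a j i p * (if j = k then 0 else c j p) =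
          ∑ j ∈ Finset.range k, ∑ p, a j i p * c j p := by
        refine Finset.sum_congr rfl fun j hj => Finset.sum_congr rfl fun p _ => ?_
        rw [Finset.mem_range] at hj
        rw [if_neg (ne_of_lt hj)]
      simp only [if_true, mul_zero, Finset.sum_const_zero, add_zero, h2]
      exact hc3 i
  have hq : ∀ k i, RFam F (lc i (G k)) := by
    intro k i
    refine ⟨?_, ?_, ?_⟩
    · intro m b hb
      obtain ⟨v, hv, -, rfl⟩ := mem_lc.mp hb
      obtain ⟨c, hc1, hc2, hc3⟩ := (hmem k m v).mp hv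
      have h2 : v i = (v i - ∑ j ∈ Finset.range k, ∑ p, a j i p * c j p) +
        ∑ j ∈ Finset.range k, ∑ p, a j i p * c j p := by abel
      rw [h2]
      refine Ideal.add_mem _ (hF.anti m (hc3 i))
        (Ideal.sum_mem _ fun j _ => Ideal.sum_mem _ fun p _ => ?_)
      exact hprod m j p i c hc1 hc2
    · intro m b hb
      refine mem_lc.mpr ⟨Pi.single i b, (hmem k m _).mpr ⟨fun _ _ => 0,
        fun _ _ _ => Ideal.zero_mem _, fun _ _ _ => rfl, fun l => ?_⟩, fun j hj => ?_, ?_⟩
      · simp only [mul_zero, Finset.sum_const_zero, sub_zero]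
        by_cases hl : l = i
        · subst hl
          rw [Pi.single_eq_same]
          exact hb
        · rw [Pi.single_eq_of_ne hl]
          exact Ideal.zero_mem _
      · exact Pi.single_eq_of_ne (ne_of_gt hj) _
      · exact Pi.single_eq_same _ _
    · intro m j b hb t ht
      obtain ⟨v, hv, hv0, rfl⟩ := mem_lc.mp hb
      obtain ⟨c, hc1, hc2, hc3⟩ := (hmem k m v).mp hv
      refine mem_lc.mpr ⟨fun l => v l * t, (hmem k (m + j) _).mpr ⟨fun l p => c l p * t,
        fun l p hl => ?_, fun l p hl => ?_, fun l => ?_⟩, fun l hl => ?_, rfl⟩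
      · by_cases hl2 : n l ≤ m
        · have h2 := hF.mul' (hc1 l p hl2) ht
          rwa [show m - n l + j = m + j - n l by omega] at h2
        · dsimp only
          rw [hc2 l p (by omega), zero_mul]
          exact Ideal.zero_mem _
      · dsimp only
        rw [hc2 l p (by omega), zero_mul]
      · have h2 : v l * t - ∑ s ∈ Finset.range k, ∑ p, a s l p * (c s p * t) =
            (v l - ∑ s ∈ Finset.range k, ∑ p, a s l p * c s p) * t := by
          rw [sub_mul, Finset.sum_mul]
          congr 1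
          refine Finset.sum_congr rfl fun s _ => ?_
          rw [Finset.sum_mul]
          exact Finset.sum_congr rfl fun p _ => (mul_assoc _ _ _).symm
        rw [h2]
        have h3 := hF.mul' (hc3 l) ht
        rwa [show m + 1 + j = m + j + 1 by omega] at h3
      · change v l * t = 0
        rw [hv0 l hl, zero_mul]
  obtain ⟨K, hK⟩ := vfam_stab (fun G => no_chain_R hF h G) G hmono hq
  have hcol : ∀ q, (fun i => a K i q) ∈ G K (n K) := by
    intro q
    rw [← hK (K + 1) (Nat.le_succ K)]
    refine (hmem (K + 1) (n K) _).mpr ⟨fun j p => if j = K ∧ p = q then 1 else 0, fun j p hj => ?_,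
      fun j p hj => ?_, fun i => ?_⟩
    · dsimp only
      split_ifs with h1
      · rw [h1.1, Nat.sub_self]
        exact hF.z 1
      · exact Ideal.zero_mem _
    · dsimp only
      rw [if_neg]
      rintro ⟨rfl, -⟩
      exact lt_irrefl _ hj
    · have h2 : ∑ j ∈ Finset.range (K + 1), ∑ p, a j i p * (if j = K ∧ p = q then 1 else 0) =
          a K i q := by
        rw [Finset.sum_range_succ]
        have h3 : ∑ j ∈ Finset.range K, ∑ p, a j i p * (if j = K ∧ p = q then (1 : T) else 0) =
            0 := by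
          refine Finset.sum_eq_zero fun j hj => Finset.sum_eq_zero fun p _ => ?_
          rw [Finset.mem_range] at hj
          rw [if_neg (by omega), mul_zero]
        rw [h3, zero_add]
        simp
      rw [h2, sub_self]
      exact Ideal.zero_mem _
  choose c hc1 hc2 hc3 using fun q => (hmem K (n K) _).mp (hcol q)
  refine ⟨K, fun j p q => c q j p, fun j hj => ?_, ?_⟩
  · intro p q
    exact hc1 q j p (hn hj).le
  · intro i q
    have h2 := hc3 q i
    rw [Matrix.sub_apply, Matrix.sum_apply]
    simp only [mul_apply]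
    exact h2

theorem LN_matrix [IsNoetherianRing T] {F : ℕ → Ideal T} (hF : Flt F) (h : LN F) :
    LN fun n => (F n).matrix (Fin d) := by
  intro n a hn ha
  have ha' : ∀ k i j, a k i j ∈ F (n k) := fun k => ha k
  -- the families generated by the rows of the first matrices
  set G : ℕ → ℕ → AddSubgroup (Fin d → T) := fun k m =>
    { carrier := {v | ∃ c : ℕ → Fin d → T, (∀ j p, n j ≤ m → c j p ∈ F (m - n j)) ∧
        (∀ j p, m < n j → c j p = 0) ∧
        ∀ i, v i - ∑ j ∈ Finset.range k, ∑ p, c j p * a j p i ∈ F (m + 1)}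
      add_mem' := by
        rintro v w ⟨c, hc1, hc2, hc3⟩ ⟨c', hc1', hc2', hc3'⟩
        refine ⟨fun j p => c j p + c' j p, fun j p hj => ?_, fun j p hj => ?_, fun i => ?_⟩
        · exact Ideal.add_mem _ (hc1 j p hj) (hc1' j p hj)
        · dsimp only
          rw [hc2 j p hj, hc2' j p hj, add_zero]
        · have h2 := Ideal.add_mem _ (hc3 i) (hc3' i)
          have h3 : v i - ∑ j ∈ Finset.range k, ∑ p, c j p * a j p i +
              (w i - ∑ j ∈ Finset.range k, ∑ p, c' j p * a j p i) =
              (v + w) i - ∑ j ∈ Finset.range k, ∑ p, (c j p + c' j p) * a j p i := by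
            simp only [add_mul, Finset.sum_add_distrib, Pi.add_apply]
            abel
          rwa [h3] at h2
      zero_mem' := by
        refine ⟨fun j p => 0, fun j p hj => Ideal.zero_mem _, fun j p hj => rfl, fun i => ?_⟩
        simp
      neg_mem' := by
        rintro v ⟨c, hc1, hc2, hc3⟩
        refine ⟨fun j p => -c j p, fun j p hj => ?_, fun j p hj => ?_, fun i => ?_⟩
        · exact Ideal.neg_mem_iff _ |>.mpr (hc1 j p hj)
        · dsimp only
          rw [hc2 j p hj, neg_zero]
        · have h2 := (Ideal.neg_mem_iff _).mpr (hc3 i)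
          have h3 : -(v i - ∑ j ∈ Finset.range k, ∑ p, c j p * a j p i) =
              (-v) i - ∑ j ∈ Finset.range k, ∑ p, -c j p * a j p i := by
            simp only [neg_mul, Finset.sum_neg_distrib, Pi.neg_apply]
            abel
          rwa [h3] at h2 } with hG
  have hmem : ∀ k m v, v ∈ G k m ↔ ∃ c : ℕ → Fin d → T,
      (∀ j p, n j ≤ m → c j p ∈ F (m - n j)) ∧ (∀ j p, m < n j → c j p = 0) ∧
        ∀ i, v i - ∑ j ∈ Finset.range k, ∑ p, c j p * a j p i ∈ F (m + 1) :=
    fun k m v => Iff.rfl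
  have hprod : ∀ m j p i (c : ℕ → Fin d → T), (∀ j p, n j ≤ m → c j p ∈ F (m - n j)) →
      (∀ j p, m < n j → c j p = 0) → c j p * a j p i ∈ F m := by
    intro m j p i c hc1 hc2
    by_cases hj : n j ≤ m
    · have h1 := hF.mul' (hc1 j p hj) (ha' j p i)
      rwa [show m - n j + n j = m by omega] at h1
    · rw [hc2 j p (by omega), zero_mul]
      exact Ideal.zero_mem _
  have hmono : Monotone G := by
    apply monotone_nat_of_le_succ
    intro k m v hv
    obtain ⟨c, hc1, hc2, hc3⟩ := (hmem k m v).mp hv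
    refine (hmem (k + 1) m v).mpr ⟨fun j p => if j = k then 0 else c j p, fun j p hj => ?_,
      fun j p hj => ?_, fun i => ?_⟩
    · dsimp only
      split_ifs
      · exact Ideal.zero_mem _
      · exact hc1 j p hj
    · dsimp only
      split_ifs
      · rfl
      · exact hc2 j p hj
    · rw [Finset.sum_range_succ]
      have h2 : ∑ j ∈ Finset.range k, ∑ p, (if j = k then 0 else c j p) * a j p i =
          ∑ j ∈ Finset.range k, ∑ p, c j p * a j p i := by
        refine Finset.sum_congr rfl fun j hj => Finset.sum_congr rfl fun p _ => ?_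
        rw [Finset.mem_range] at hj
        rw [if_neg (ne_of_lt hj)]
      simp only [if_true, zero_mul, Finset.sum_const_zero, add_zero, h2]
      exact hc3 i
  have hq : ∀ k i, LFam F (lc i (G k)) := by
    intro k i
    refine ⟨?_, ?_, ?_⟩
    · intro m b hb
      obtain ⟨v, hv, -, rfl⟩ := mem_lc.mp hb
      obtain ⟨c, hc1, hc2, hc3⟩ := (hmem k m v).mp hv
      have h2 : v i = (v i - ∑ j ∈ Finset.range k, ∑ p, c j p * a j p i) +
        ∑ j ∈ Finset.range k, ∑ p, c j p * a j p i := by abel
      rw [h2]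
      refine Ideal.add_mem _ (hF.anti m (hc3 i))
        (Ideal.sum_mem _ fun j _ => Ideal.sum_mem _ fun p _ => ?_)
      exact hprod m j p i c hc1 hc2
    · intro m b hb
      refine mem_lc.mpr ⟨Pi.single i b, (hmem k m _).mpr ⟨fun _ _ => 0,
        fun _ _ _ => Ideal.zero_mem _, fun _ _ _ => rfl, fun l => ?_⟩, fun j hj => ?_, ?_⟩
      · simp only [zero_mul, Finset.sum_const_zero, sub_zero]
        by_cases hl : l = i
        · subst hl
          rw [Pi.single_eq_same]
          exact hb
        · rw [Pi.single_eq_of_ne hl]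
          exact Ideal.zero_mem _
      · exact Pi.single_eq_of_ne (ne_of_gt hj) _
      · exact Pi.single_eq_same _ _
    · intro m j b hb t ht
      obtain ⟨v, hv, hv0, rfl⟩ := mem_lc.mp hb
      obtain ⟨c, hc1, hc2, hc3⟩ := (hmem k m v).mp hv
      refine mem_lc.mpr ⟨fun l => t * v l, (hmem k (m + j) _).mpr ⟨fun l p => t * c l p,
        fun l p hl => ?_, fun l p hl => ?_, fun l => ?_⟩, fun l hl => ?_, rfl⟩
      · by_cases hl2 : n l ≤ m
        · have h2 := hF.mul' ht (hc1 l p hl2)
          rwa [show j + (m - n l) = m + j - n l by omega] at h2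
        · dsimp only
          rw [hc2 l p (by omega), mul_zero]
          exact Ideal.zero_mem _
      · dsimp only
        rw [hc2 l p (by omega), mul_zero]
      · have h2 : t * v l - ∑ s ∈ Finset.range k, ∑ p, t * c s p * a s p l =
            t * (v l - ∑ s ∈ Finset.range k, ∑ p, c s p * a s p l) := by
          rw [mul_sub, Finset.mul_sum]
          congr 1
          refine Finset.sum_congr rfl fun s _ => ?_
          rw [Finset.mul_sum]
          exact Finset.sum_congr rfl fun p _ => mul_assoc _ _ _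
        rw [h2]
        have h3 := hF.mul' ht (hc3 l)
        rwa [show j + (m + 1) = m + j + 1 by omega] at h3
      · change t * v l = 0
        rw [hv0 l hl, mul_zero]
  obtain ⟨K, hK⟩ := vfam_stab (fun G => no_chain_L hF h G) G hmono hq
  have hcol : ∀ q, (fun i => a K q i) ∈ G K (n K) := by
    intro q
    rw [← hK (K + 1) (Nat.le_succ K)]
    refine (hmem (K + 1) (n K) _).mpr ⟨fun j p => if j = K ∧ p = q then 1 else 0, fun j p hj => ?_,
      fun j p hj => ?_, fun i => ?_⟩
    · dsimp only
      split_ifs with h1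
      · rw [h1.1, Nat.sub_self]
        exact hF.z 1
      · exact Ideal.zero_mem _
    · dsimp only
      rw [if_neg]
      rintro ⟨rfl, -⟩
      exact lt_irrefl _ hj
    · have h2 : ∑ j ∈ Finset.range (K + 1), ∑ p, (if j = K ∧ p = q then 1 else 0) * a j p i =
          a K q i := by
        rw [Finset.sum_range_succ]
        have h3 : ∑ j ∈ Finset.range K, ∑ p, (if j = K ∧ p = q then (1 : T) else 0) * a j p i =
            0 := by
          refine Finset.sum_eq_zero fun j hj => Finset.sum_eq_zero fun p _ => ?_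
          rw [Finset.mem_range] at hj
          rw [if_neg (by omega), zero_mul]
        rw [h3, zero_add]
        simp
      rw [h2, sub_self]
      exact Ideal.zero_mem _
  choose c hc1 hc2 hc3 using fun q => (hmem K (n K) _).mp (hcol q)
  refine ⟨K, fun j q p => c q j p, fun j hj => ?_, ?_⟩
  · intro q p
    exact hc1 q j p (hn hj).le
  · intro q i
    have h2 := hc3 q i
    rw [Matrix.sub_apply, Matrix.sum_apply]
    simp only [mul_apply]
    exact h2

theorem flt_matrix {F : ℕ → Ideal T} (hF : Flt F) : Flt fun n => (F n).matrix (Fin d) := by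
  refine ⟨fun n => matrix_two (hF.two n), ?_, fun n M hM i j => hF.anti n (hM i j), ?_⟩
  · change (F 0).matrix (Fin d) = ⊤
    rw [eq_top_iff]
    intro M _ i j
    exact hF.z _
  · intro m n a ha b hb i j
    rw [mul_apply]
    exact Ideal.sum_mem _ fun k _ => hF.mul' (ha i k) (hb k j)

theorem grAt_matrix [IsNoetherianRing T] [IsNoetherianRing Tᵐᵒᵖ]
    {P : Ideal (Matrix (Fin d) (Fin d) T)} (hP : P.IsTwoSided) (hT : GrAt (ent P)) : GrAt P := by
  intro I hI hIP
  obtain ⟨M, hMI, hMP⟩ := SetLike.not_le_iff_exists.mp hIP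
  have h1 : ¬ ent I ≤ ent P := by
    intro hle
    apply hMP
    rw [mem_iff_ent hP]
    exact fun i j => hle ((mem_iff_ent hI).mp hMI i j)
  have hnot : ∀ J : Ideal T, ¬ J ≤ ent P → ¬ J.matrix (Fin d) ≤ P := by
    intro J hJP hle
    apply hJP
    intro t ht
    rw [mem_ent]
    intro i j
    exact hle (single_mem_matrix ht i j)
  obtain ⟨J, hJ, hJI, hJP, F, hF, hPF, hFP, hRN, hLN, hr, hl⟩ := hT (ent I) (ent_two hI) h1
  refine ⟨J.matrix (Fin d), matrix_two hJ, ?_, hnot J hJP, fun n => (F n).matrix (Fin d),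
    flt_matrix hF, ?_, fun n => hnot _ (hFP n), RN_matrix hF hRN, LN_matrix hF hLN, ?_, ?_⟩
  · intro M hM
    rw [mem_iff_ent hI]
    exact fun i j => hJI (hM i j)
  · intro n M hM i j
    exact hPF n ((mem_iff_ent hP).mp hM i j)
  · intro n
    rw [← matrix_mul', ← matrix_mul', ← matrix_mul']
    exact matrix_sup_le (hr n)
  · intro n
    rw [← matrix_mul', ← matrix_mul', ← matrix_mul']
    exact matrix_sup_le (hl n)

theorem kdAt_matrix [IsNoetherianRing T] [IsNoetherianRing Tᵐᵒᵖ]
    {P : Ideal (Matrix (Fin d) (Fin d) T)} [hP : P.IsTwoSided] [hQ : (ent P).IsTwoSided]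
    (hp : ∀ a b : T, (∀ t, a * t * b ∈ ent P) → a ∈ ent P ∨ b ∈ ent P)
    (h : KdAt (ent P)) : KdAt P := by
  have n1 : IsNoetherianRing (T ⧸ ent P) := noe_quot _
  have n2 : IsNoetherianRing (T ⧸ ent P)ᵐᵒᵖ := noe_quot_op _
  have n3 : IsNoetherianRing (Matrix (Fin d) (Fin d) T ⧸ P) := noe_quot _
  have hop : IsNoetherianRing (Matrix (Fin d) (Fin d) T)ᵐᵒᵖ :=
    isNoetherianRing_of_surjective (Matrix (Fin d) (Fin d) Tᵐᵒᵖ) _
      (RingEquiv.mopMatrix (m := Fin d) (α := T)).toRingHom
      (RingEquiv.mopMatrix (m := Fin d) (α := T)).surjective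
  have n4 : IsNoetherianRing (Matrix (Fin d) (Fin d) T ⧸ P)ᵐᵒᵖ := noe_quot_op _
  have hB : Prm (T ⧸ ent P) := prm_quot _ hp
  exact ⟨kd_mu mu_matrix hB h.1, kd_mu mu_matrix.op (prm_op hB) h.2⟩

theorem grd_matrix [IsNoetherianRing T] [IsNoetherianRing Tᵐᵒᵖ] (hT : Grd T) :
    Grd (Matrix (Fin d) (Fin d) T) := by
  intro P hP hp
  have hQ := ent_two hP
  rcases hT (ent P) (ent_prime hp) with h | h
  · exact Or.inl (kdAt_matrix (ent_prime hp) h)
  · exact Or.inr (grAt_matrix hP h)

end Mat

end SepGr
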