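import Pool.Agent.Lib.MP_dccecd_al.GrLay

/-! The theorem for prime rings which are noetherian on both sides and have enough filtrations with
noetherian associated graded rings (for MP_dccecd_al, the graded base theorem). -/

open SepReg SepFin SepNoe

namespace SepGr

universe u v w

section Prime
variable {T : Type v} [Ring T] {R : Type u} [Ring R] [VNR R] [IsNoetherianRing T]
  [IsNoetherianRing Tᵐᵒᵖ]

theorem e_zero (hpT : Prm T) {e f x y : T} (he0 : e = 0) (hxy : x * y = 1 - e)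
    (hyx : y * x = 1 - f) : f = 0 := by
  obtain ⟨Q, hQ, ι, h, hart, hp⟩ := exists_ord hpT
  rw [he0, sub_zero] at hxy
  have h1 : ι x * ι y = 1 := by rw [← map_mul, hxy, map_one]
  have h2 := mul_eq_one_symm h1
  rw [← map_mul, hyx, map_sub, map_one, sub_eq_self] at h2
  apply h.inj
  rw [h2, map_zero]

/-- the last layer of the filtration is dominated by the previous layers -/
def Dom (R : Type u) [Ring R] [VNR R] (F : ℕ → Ideal T) (e : T) (c : ℕ) : Prop :=
  ∃ M, ∀ N, M ≤ N → ∀ C : Bim T R, Le (c • ep C e (fA F C N) (fA F C (N + 1)))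
    (∑ i ∈ Finset.range N, ep C e (fA F C i) (fA F C (i + 1)))

/-- the last layer of the filtration by annihilators is dominated by the previous layers -/
def DomD (R : Type u) [Ring R] [VNR R] (F : ℕ → Ideal T) (e : T) (c : ℕ) : Prop :=
  ∃ M, ∀ N, M ≤ N → ∀ C : Bim T R, Le (c • ep C e (fB F C (N + 1)) (fB F C N))
    (∑ i ∈ Finset.range N, ep C e (fB F C (i + 1)) (fB F C i))

theorem prime_abs (hpT : Prm T)
    {e f x y : T} (he : e * e = e) (hf : f * f = f) (hxy : x * y = 1 - e) (hyx : y * x = 1 - f)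
    (hH : ∀ I : Ideal T, I.IsTwoSided → I ≠ ⊥ → ∀ c : ℕ, ∃ J : Ideal T, J.IsTwoSided ∧ J ≤ I ∧
      J ≠ ⊥ ∧ ∃ F : ℕ → Ideal T, Flt F ∧ (∀ n, F n ≠ ⊥) ∧ Dom R F e c ∧ DomD R F e c ∧
        (∀ n, F (n + 1) * J ≤ J * F n * J) ∧ ∀ n, J * F (n + 1) ≤ J * F n * J)
    (h3 : ∀ (E : Bim T R) (J : Ideal T), J.IsTwoSided → J ≠ ⊥ → (∀ t ∈ J, E.act t = 0) →
      pp e E = pp f E) (he0 : e ≠ 0) (C : Bim T R) : pp e C = pp f C := by
  obtain ⟨J1, hJ1, hJ10, c, hrel⟩ := rel_e (R := R) hpT he hf hxy hyx he0 h3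
  obtain ⟨J, hJ, hJJ, hJ0, F, hF, hF0, ⟨N1, hN1⟩, ⟨N2, hN2⟩, hr, hl⟩ := hH J1 hJ1 hJ10 c
  have htw : ∀ n, (F n).IsTwoSided := hF.two
  set N := max N1 N2 with hN
  have hgood : pp e (kapB J C) = pp f (kapB J C) := by
    set B := kapB J C with hB
    obtain ⟨d, hd1, hd2⟩ := hrel (kapB (F N) B)
    have k1 : pp e (mulQ (F N) B) = pp f (mulQ (F N) B) :=
      h3 _ (F N) (htw N) (hF0 N) (mulQ_kill (F N) B)
    have k2 : pp e (annB (F N) (mulB (F N) B)) = pp f (annB (F N) (mulB (F N) B)) :=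
      h3 _ (F N) (htw N) (hF0 N) (annB_kill (F N) (mulB (F N) B))
    have l1 : Le (c • pp e (mulQ J1 (kapB (F N) B))) (pp e (mulQ (F N) B)) := by
      have q1 : Le (pp e (mulQ J1 (kapB (F N) B))) (ep B e (fA F B N) (fA F B (N + 1))) :=
        (mulQ_anti hJJ (kapB (F N) B) e).trans (lay_top hF B e N (kap_mul (hr N) C))
      exact (Le.nsmul q1 c).trans ((hN1 N (le_max_left _ _) B).trans (lay_sum hF B e N))
    have l2 : Le (c • pp e (annB J1 (kapB (F N) B)))
        (pp e (annB (F N) (mulB (F N) B))) := by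
      have i5 : Module.Projective R ((mulB (F N) B).X ⧸ annC (F N : Set T)
        (mulB (F N) B)) := annC_quo _ _
      have hann : annC ((F N * J : Ideal T) : Set T) B ≤ annC (F (N + 1) : Set T) B :=
        good_ann (G := J) (J := F N * J) (F := F (N + 1)) (B := C) (by
          rw [← mul_assoc]
          exact hl N)
      have q1 : Le (pp e (annB J1 (kapB (F N) B))) (ep (mulB (F N) B) e
          (fB F (mulB (F N) B) (N + 1)) (fB F (mulB (F N) B) N)) := by
        refine (annB_anti hJJ (kapB (F N) B) e).trans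
          (lay_topD hF (mulB (F N) B) e N (J := J) ?_)
        intro v hv
        have h4 : v.1 ∈ annC ((F N * J : Ideal T) : Set T) B := by
          rw [mem_annC]
          exact fun p hp => congrArg Subtype.val (hv p hp)
        have h5 := hann h4
        rw [mem_annC] at h5
        rw [mem_annC]
        exact fun p hp => Subtype.ext (h5 p hp)
      exact (Le.nsmul q1 c).trans ((hN2 N (le_max_right _ _) (mulB (F N) B)).trans
        (lay_sumD hF (mulB (F N) B) e N))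
    have l3 : Le d (pp e (mulQ (F N) B) + pp e (annB (F N) (mulB (F N) B))) := by
      refine hd2.trans ?_
      rw [nsmul_add]
      exact Le.add l1 l2
    obtain ⟨w, hw⟩ := l3
    rw [pp_kap (F N) B he, pp_kap (F N) B hf, ← k1, ← k2, ← hw, ← add_assoc, ← add_assoc, hd1]
  rw [pp_kap J C he, pp_kap J C hf, h3 _ J hJ hJ0 (mulQ_kill J C),
    h3 _ J hJ hJ0 (annB_kill J (mulB J C)), hgood]

theorem prime_grd (hpT : Prm T)
    (hH : ∀ I : Ideal T, I.IsTwoSided → I ≠ ⊥ → ∃ J : Ideal T, J.IsTwoSided ∧ J ≤ I ∧ J ≠ ⊥ ∧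
      ∃ F : ℕ → Ideal T, Flt F ∧ (∀ n, F n ≠ ⊥) ∧ RN F ∧ LN F ∧
        (∀ n, F (n + 1) * J ≤ J * F n * J) ∧ ∀ n, J * F (n + 1) ≤ J * F n * J)
    {e f x y : T} (he : e * e = e) (hf : f * f = f) (hxy : x * y = 1 - e) (hyx : y * x = 1 - f)
    (h3 : ∀ (E : Bim T R) (J : Ideal T), J.IsTwoSided → J ≠ ⊥ → (∀ t ∈ J, E.act t = 0) →
      pp e E = pp f E) (C : Bim T R) : pp e C = pp f C := by
  by_cases he0 : e = 0
  · rw [e_zero hpT he0 hxy hyx, he0]
  refine prime_abs hpT he hf hxy hyx (fun I hI hI0 c => ?_) h3 he0 C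
  obtain ⟨J, hJ, hJI, hJ0, F, hF, hF0, hRN, hLN, hr, hl⟩ := hH I hI hI0
  exact ⟨J, hJ, hJI, hJ0, F, hF, hF0, lay_mul hF hRN hLN he c, lay_mulD hF hRN hLN he c, hr, hl⟩

end Prime

end SepGr
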