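import Pool.Agent.Lib.MP_dccecd_al.NoeGen

/-! Classes of subquotients of projective modules over a von Neumann regular ring (for MP_dccecd_al,
the graded base theorem). -/

open SepReg SepFin SepNoe

namespace SepGr

universe u v w

section Rk
variable {R : Type u} [Ring R] [VNR R]
  {P : Type u} [AddCommGroup P] [Module R P] [Module.Finite R P] [Module.Projective R P]
  {P' : Type u} [AddCommGroup P'] [Module R P'] [Module.Finite R P'] [Module.Projective R P']

omit [VNR R] [Module.Finite R P] [Module.Projective R P] in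
theorem fin_of_fg {V : Submodule R P} (hV : V.FG) : Module.Finite R V :=
  Module.Finite.iff_fg.mpr hV

theorem quo_of_fg {V : Submodule R P} (hV : V.FG) : Module.Projective R (P ⧸ V) := by
  have h1 := fin_of_fg hV
  have h2 := proj_of_fg V hV
  exact quo_proj' V

theorem map_of_fg {U V : Submodule R P} (hU : U.FG) (hV : V.FG) :
    Module.Projective R (U.map V.mkQ) := by
  have h1 := quo_of_fg hV
  exact proj_of_fg _ (hU.map _)

open Classical in
/-- the class of `(U + V) / V` -/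
noncomputable def rk (U V : Submodule R P) : VR R :=
  if h : U.FG ∧ V.FG then
    haveI : Module.Finite R (U.map V.mkQ) := fin_of_fg (h.1.map _)
    haveI : Module.Projective R (U.map V.mkQ) := map_of_fg h.1 h.2
    cls R (U.map V.mkQ)
  else 0

theorem rk_def {U V : Submodule R P} (hU : U.FG) (hV : V.FG)
    [Module.Finite R (U.map V.mkQ)] [Module.Projective R (U.map V.mkQ)] :
    rk U V = cls R (U.map V.mkQ) := by
  rw [rk, dif_pos ⟨hU, hV⟩]

/-- comparison by a map which is injective modulo `V` -/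
theorem rk_cmp {U V : Submodule R P} {U' V' : Submodule R P'} (hU : U.FG) (hV : V.FG)
    (hU' : U'.FG) (hV' : V'.FG) (f : U →ₗ[R] P') (h1 : ∀ x : U, f x ∈ V' → (x : P) ∈ V)
    (h2 : ∀ x, f x ∈ U' ⊔ V') : Le (rk U V) (rk U' V') := by
  have i1 := fin_of_fg hU
  have i2 : Module.Finite R (U.map V.mkQ) := fin_of_fg (hU.map _)
  have i3 := map_of_fg hU hV
  have i4 : Module.Finite R (U'.map V'.mkQ) := fin_of_fg (hU'.map _)
  have i5 := map_of_fg hU' hV'
  have i6 := quo_of_fg hV'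
  have i7 := quo_of_fg hV
  rw [rk_def hU hV, rk_def hU' hV']
  have hβm : ∀ x : U, V.mkQ x.1 ∈ U.map V.mkQ := fun x => ⟨x.1, x.2, rfl⟩
  set β : U →ₗ[R] U.map V.mkQ := (V.mkQ.comp U.subtype).codRestrict _ hβm with hβ
  refine (le_of_ker (V'.mkQ.comp f) β ?_ ?_).trans (cls_le_of_le _ _ ?_)
  · rintro ⟨_, x, hx, rfl⟩
    exact ⟨⟨x, hx⟩, rfl⟩
  · intro x hx
    rw [LinearMap.mem_ker, LinearMap.comp_apply, Submodule.mkQ_apply,
      Submodule.Quotient.mk_eq_zero] at hx
    rw [LinearMap.mem_ker]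
    apply Subtype.ext
    change (Submodule.Quotient.mk x.1 : P ⧸ V) = 0
    rw [Submodule.Quotient.mk_eq_zero]
    exact h1 x hx
  · rintro _ ⟨x, rfl⟩
    obtain ⟨u, hu, v, hv, huv⟩ := Submodule.mem_sup.mp (h2 x)
    refine ⟨u, hu, ?_⟩
    rw [LinearMap.comp_apply, Submodule.mkQ_apply, Submodule.mkQ_apply, eq_comm,
      Submodule.Quotient.eq, ← huv, add_sub_cancel_left]
    exact hv

/-- comparison by a map which is surjective modulo `V'` -/
theorem rk_cmp' {U V : Submodule R P} {U' V' : Submodule R P'} (hU : U.FG) (hV : V.FG)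
    (hU' : U'.FG) (hV' : V'.FG) (f : U →ₗ[R] P') (h1 : ∀ x : U, (x : P) ∈ V → f x ∈ V')
    (h2 : ∀ y ∈ U', ∃ x : U, y - f x ∈ V') : Le (rk U' V') (rk U V) := by
  have i1 := fin_of_fg hU
  have i2 : Module.Finite R (U.map V.mkQ) := fin_of_fg (hU.map _)
  have i3 := map_of_fg hU hV
  have i4 : Module.Finite R (U'.map V'.mkQ) := fin_of_fg (hU'.map _)
  have i5 := map_of_fg hU' hV'
  have i6 := quo_of_fg hV'
  have i7 := quo_of_fg hV
  rw [rk_def hU hV, rk_def hU' hV']
  have h3 : U'.map V'.mkQ ≤ LinearMap.range (V'.mkQ.comp f) := by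
    rintro _ ⟨y, hy, rfl⟩
    obtain ⟨x, hx⟩ := h2 y hy
    refine ⟨x, ?_⟩
    rw [LinearMap.comp_apply, Submodule.mkQ_apply, Submodule.mkQ_apply, eq_comm,
      Submodule.Quotient.eq]
    exact hx
  have h4 : LinearMap.range (V.mkQ.comp U.subtype) ≤ U.map V.mkQ := by
    rintro _ ⟨x, rfl⟩
    exact ⟨x.1, x.2, rfl⟩
  refine (cls_le_of_le _ _ h3).trans (Le.trans ?_ (cls_le_of_le _ _ h4))
  refine le_of_ker (V.mkQ.comp U.subtype) (V'.mkQ.comp f).rangeRestrict
    (LinearMap.surjective_rangeRestrict _) ?_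
  intro x hx
  rw [LinearMap.mem_ker, LinearMap.comp_apply, Submodule.mkQ_apply,
    Submodule.Quotient.mk_eq_zero] at hx
  rw [LinearMap.mem_ker]
  apply Subtype.ext
  change (Submodule.Quotient.mk (f x) : P' ⧸ V') = 0
  rw [Submodule.Quotient.mk_eq_zero]
  exact h1 x hx

theorem rk_mono {U U' V : Submodule R P} (hU : U.FG) (hU' : U'.FG) (hV : V.FG)
    (h : U ≤ U' ⊔ V) : Le (rk U V) (rk U' V) :=
  rk_cmp hU hV hU' hV U.subtype (fun _ hx => hx) (fun x => h x.2)

/-- larger denominators -/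
theorem rk_anti {U V V' : Submodule R P} (hU : U.FG) (hV : V.FG) (hV' : V'.FG)
    (h : V ⊓ U ≤ V') : Le (rk U V') (rk U V) :=
  rk_cmp' hU hV hU hV' U.subtype (fun x hx => h ⟨hx, x.2⟩)
    (fun y hy => ⟨⟨y, hy⟩, by
      rw [Submodule.subtype_apply, sub_self]
      exact V'.zero_mem⟩)

theorem rk_bot {U V : Submodule R P} (hU : U.FG) (hV : V.FG) (h : U ≤ V) : rk U V = 0 := by
  have i2 : Module.Finite R (U.map V.mkQ) := fin_of_fg (hU.map _)
  have i3 := map_of_fg hU hV
  rw [rk_def hU hV]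
  have h2 : Subsingleton (U.map V.mkQ) := by
    constructor
    rintro ⟨_, x, hx, rfl⟩ ⟨_, y, hy, rfl⟩
    apply Subtype.ext
    change (Submodule.Quotient.mk x : P ⧸ V) = Submodule.Quotient.mk y
    rw [Submodule.Quotient.eq]
    exact V.sub_mem (h hx) (h hy)
  exact cls_subsingleton _

theorem rk_fg_iff {U V W : Submodule R P} (hU : U.FG) (hV : V.FG) (hW : W.FG) (hVW : V ≤ W)
    (hWU : W ≤ U ⊔ V) : rk U V = rk W V + rk U W := by
  have i1 : Module.Finite R (U.map V.mkQ) := fin_of_fg (hU.map _)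
  have i2 := map_of_fg hU hV
  have i3 : Module.Finite R (W.map V.mkQ) := fin_of_fg (hW.map _)
  have i4 := map_of_fg hW hV
  have i5 : Module.Finite R (U.map W.mkQ) := fin_of_fg (hU.map _)
  have i6 := map_of_fg hU hW
  rw [rk_def hU hV, rk_def hW hV, rk_def hU hW]
  have h1 : W.map V.mkQ ≤ U.map V.mkQ := by
    rintro _ ⟨x, hx, rfl⟩
    obtain ⟨u, hu, v, hv, huv⟩ := Submodule.mem_sup.mp (hWU hx)
    refine ⟨u, hu, ?_⟩
    rw [Submodule.mkQ_apply, Submodule.mkQ_apply, eq_comm, Submodule.Quotient.eq, ← huv,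
      add_sub_cancel_left]
    exact hv
  have hle : V ≤ W.comap LinearMap.id := hVW
  have h2 : ∀ x : U.map V.mkQ, Submodule.mapQ V W LinearMap.id hle x.1 ∈ U.map W.mkQ := by
    rintro ⟨_, x, hx, rfl⟩
    exact ⟨x, hx, rfl⟩
  refine cls_exact (Submodule.inclusion h1)
    (((Submodule.mapQ V W LinearMap.id hle).comp (U.map V.mkQ).subtype).codRestrict _ h2)
    (Submodule.inclusion_injective h1) ?_ ?_
  · rintro ⟨_, x, hx, rfl⟩
    exact ⟨⟨V.mkQ x, x, hx, rfl⟩, rfl⟩
  · apply le_antisymm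
    · rintro _ ⟨⟨_, x, hx, rfl⟩, rfl⟩
      rw [LinearMap.mem_ker]
      apply Subtype.ext
      change (Submodule.Quotient.mk x : P ⧸ W) = 0
      rw [Submodule.Quotient.mk_eq_zero]
      exact hx
    · rintro ⟨_, x, hx, rfl⟩ hk
      rw [LinearMap.mem_ker] at hk
      have h3 : (Submodule.Quotient.mk x : P ⧸ W) = 0 := congrArg Subtype.val hk
      rw [Submodule.Quotient.mk_eq_zero] at h3
      exact ⟨⟨V.mkQ x, x, h3, rfl⟩, rfl⟩

/-- the triangle inequality -/
theorem rk_tri {U V W : Submodule R P} (hU : U.FG) (hV : V.FG) (hW : W.FG) (hVW : V ≤ W) :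
    Le (rk U V) (rk U W + rk W V) := by
  have hUW : (U ⊔ W).FG := hU.sup hW
  have h1 : Le (rk U V) (rk (U ⊔ W) V) := rk_mono hU hUW hV (le_sup_left.trans le_sup_left)
  refine h1.trans ?_
  rw [rk_fg_iff hUW hV hW hVW (le_sup_right.trans le_sup_left), add_comm]
  refine Le.add ?_ Le.rfl'
  exact rk_mono hUW hU hW le_rfl

/-- the kernel of a map and its image -/
theorem rk_ker {U U1 V : Submodule R P} {U' V' : Submodule R P'} (hU : U.FG) (hU1 : U1.FG)
    (hV : V.FG) (hU' : U'.FG) (hV' : V'.FG) (f : U →ₗ[R] P')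
    (h1 : ∀ x : U, f x ∈ V' → (x : P) ∈ U1) (h2 : ∀ x, f x ∈ U' ⊔ V') :
    Le (rk U V) (rk U1 V + rk U' V') := by
  have hW : (U1 ⊔ V).FG := hU1.sup hV
  refine (rk_tri hU hV hW le_sup_right).trans ?_
  rw [add_comm]
  refine Le.add ?_ ?_
  · exact rk_mono hW hU1 hV le_rfl
  · exact rk_cmp hU hW hU' hV' f (fun x hx => (le_sup_left : U1 ≤ _) (h1 x hx)) h2

theorem rk_sup {U U' V : Submodule R P} (hU : U.FG) (hU' : U'.FG) (hV : V.FG) :
    Le (rk (U ⊔ U') V) (rk U V + rk U' V) := by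
  have hW : (U' ⊔ V).FG := hU'.sup hV
  refine (rk_tri (hU.sup hU') hV hW le_sup_right).trans (Le.add ?_ ?_)
  · refine rk_cmp' hU hV (hU.sup hU') hW U.subtype
      (fun x hx => (le_sup_right : V ≤ _) hx) ?_
    intro y hy
    obtain ⟨u, hu, v, hv, rfl⟩ := Submodule.mem_sup.mp hy
    refine ⟨⟨u, hu⟩, ?_⟩
    rw [Submodule.subtype_apply, add_sub_cancel_left]
    exact (le_sup_left : U' ≤ _) hv
  · exact rk_mono hW hU' hV le_rfl

end Rk

end SepGr
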