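import Pool.Agent.Lib.MP_dccecd_al.GrEx
import Pool.Agent.Lib.MP_dccecd_al.NoeOp

/-! The graded condition is invariant under isomorphisms and symmetric; rings of Krull dimension at
most one (for MP_dccecd_al, the graded base theorem). -/

open SepReg SepFin SepNoe

namespace SepGr

universe u v w x

section Art
variable {A : Type u} {B : Type v} [Ring A] [Ring B]

/-- a ring homomorphism as a semilinear map -/
def sl (φ : A →+* B) : A →ₛₗ[φ] B where
  toFun := φ
  map_add' := map_add φ
  map_smul' := map_mul φ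

theorem art_map {φ : A →+* B} {M : Type w} {N : Type x} [AddCommGroup M]
    [AddCommGroup N] [Module A M] [Module B N] (g : M →ₛₗ[φ] N) (hg : Function.Surjective g)
    (h : IsArtinian A M) : IsArtinian B N := by
  have hmono : StrictMono fun K : Submodule B N => Submodule.comap g K := by
    intro K K' hlt
    refine lt_of_le_of_ne (fun m hm => hlt.le hm) fun heq => ?_
    apply hlt.not_ge
    intro q hq
    obtain ⟨m, rfl⟩ := hg q
    have h1 : m ∈ Submodule.comap g K' := hq
    have h2 : m ∈ Submodule.comap g K := by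
      rw [show Submodule.comap g K = Submodule.comap g K' from heq]
      exact h1
    exact h2
  exact hmono.wellFoundedLT

theorem kdL_equiv (φ : A ≃+* B) (h : KdL A) : KdL B := by
  intro s hs
  have h1 := h (φ.symm s) (by
    refine ⟨fun x hx => ?_, fun x hx => ?_⟩
    · apply φ.injective
      rw [map_zero]
      apply hs.1
      have h2 := congrArg φ hx
      rwa [map_mul, RingEquiv.apply_symm_apply, map_zero] at h2
    · apply φ.injective
      rw [map_zero]
      apply hs.2
      have h2 := congrArg φ hx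
      rwa [map_mul, RingEquiv.apply_symm_apply, map_zero] at h2)
  have hle : Ideal.span {φ.symm s} ≤ Submodule.comap (sl φ.toRingHom) (Ideal.span {s}) := by
    rw [Ideal.span_le, Set.singleton_subset_iff]
    change φ (φ.symm s) ∈ Ideal.span {s}
    rw [RingEquiv.apply_symm_apply]
    exact Ideal.mem_span_singleton_self s
  refine art_map (Submodule.mapQ _ _ (sl φ.toRingHom) hle) ?_ h1
  intro q
  obtain ⟨b, rfl⟩ := Submodule.mkQ_surjective _ q
  obtain ⟨a, rfl⟩ := φ.surjective b
  exact ⟨Submodule.Quotient.mk a, rfl⟩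

end Art

section Equiv
variable {S : Type u} [Ring S] {T : Type v} [Ring T]

theorem map_comap' (φ : S ≃+* T) (P : Ideal T) :
    Ideal.map φ.toRingHom (Ideal.comap φ.toRingHom P) = P := by
  apply le_antisymm
  · rw [Ideal.map_le_iff_le_comap]
  · intro q hq
    obtain ⟨t, rfl⟩ := φ.surjective q
    exact Ideal.mem_map_of_mem φ.toRingHom hq

theorem kdAt_equiv (φ : S ≃+* T) (P : Ideal T) [P.IsTwoSided] (P' : Ideal S) [P'.IsTwoSided]
    (hPP : P = Ideal.map φ.toRingHom P') (h : KdAt P') : KdAt P := by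
  have e : S ⧸ P' ≃+* T ⧸ P := Ideal.quotientEquiv P' P φ hPP
  exact ⟨kdL_equiv e h.1, kdL_equiv (RingEquiv.op e) h.2⟩

theorem grAt_equiv (φ : S ≃+* T) (P : Ideal T) (P' : Ideal S)
    (hPP : P' = Ideal.comap φ.toRingHom P) (h : GrAt P') : GrAt P := by
  subst hPP
  intro I hI hIP
  have hs : ∀ q, ∃ t, φ t = q := fun q => φ.surjective q
  obtain ⟨J, hJ, hJI, hJP, F, hF, hPF, hFP, hRN, hLN, hr, hl⟩ := h (Ideal.comap φ.toRingHom I)
    inferInstance (by
      intro hle
      apply hIP
      intro q hq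
      obtain ⟨t, rfl⟩ := hs q
      exact hle hq)
  have hmap : ∀ (K : Ideal S) q, q ∈ Ideal.map φ.toRingHom K ↔ ∃ j ∈ K, φ j = q := fun K q =>
    Ideal.mem_map_iff_of_surjective _ φ.surjective
  have hmem : ∀ (K : Ideal S) t, φ t ∈ Ideal.map φ.toRingHom K ↔ t ∈ K := by
    intro K t
    rw [hmap]
    exact ⟨fun ⟨j, hj, h⟩ => φ.injective h ▸ hj, fun h => ⟨t, h, rfl⟩⟩
  have htwo : ∀ K : Ideal S, K.IsTwoSided → (Ideal.map φ.toRingHom K).IsTwoSided := by
    intro K hK
    constructor
    intro a b ha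
    obtain ⟨j, hj, rfl⟩ := (hmap K a).mp ha
    obtain ⟨t, rfl⟩ := hs b
    exact (hmap K _).mpr ⟨j * t, hK.mul_mem_of_left t hj, map_mul _ _ _⟩
  have hnot : ∀ K : Ideal S, ¬ K ≤ Ideal.comap φ.toRingHom P → ¬ Ideal.map φ.toRingHom K ≤ P := by
    intro K hK hle
    apply hK
    intro j hj
    exact hle ((hmem K j).mpr hj)
  have hmul : ∀ K L : Ideal S, Ideal.map φ.toRingHom (K * L) =
      Ideal.map φ.toRingHom K * Ideal.map φ.toRingHom L := by
    intro K L
    apply le_antisymm
    · rw [Ideal.map_le_iff_le_comap, Ideal.mul_le]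
      intro a ha b hb
      rw [Ideal.mem_comap, map_mul]
      exact Ideal.mul_mem_mul ((hmem K a).mpr ha) ((hmem L b).mpr hb)
    · rw [Ideal.mul_le]
      intro a ha b hb
      obtain ⟨c, hc, rfl⟩ := (hmap K a).mp ha
      obtain ⟨d, hd, rfl⟩ := (hmap L b).mp hb
      rw [← map_mul]
      exact (hmem _ _).mpr (Ideal.mul_mem_mul hc hd)
  have hsup : ∀ K L : Ideal S, K ≤ L ⊔ Ideal.comap φ.toRingHom P →
      Ideal.map φ.toRingHom K ≤ Ideal.map φ.toRingHom L ⊔ P := by
    intro K L h1
    rw [Ideal.map_le_iff_le_comap]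
    intro a ha
    obtain ⟨b, hb, p, hp, rfl⟩ := Submodule.mem_sup.mp (h1 ha)
    rw [Ideal.mem_comap, map_add]
    exact Submodule.add_mem_sup ((hmem L b).mpr hb) hp
  refine ⟨Ideal.map φ.toRingHom J, htwo J hJ, ?_, hnot J hJP,
    fun n => Ideal.map φ.toRingHom (F n), ⟨fun n => htwo _ (hF.two n), ?_, fun n => ?_, ?_⟩,
    ?_, fun n => hnot _ (hFP n), ?_, ?_, fun n => ?_, fun n => ?_⟩
  · rw [Ideal.map_le_iff_le_comap]
    exact hJI
  · rw [hF.top, eq_top_iff]
    intro q _
    obtain ⟨t, rfl⟩ := hs q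
    exact (hmem _ _).mpr Submodule.mem_top
  · exact Ideal.map_mono (hF.anti n)
  · intro m n a ha b hb
    obtain ⟨c, hc, rfl⟩ := (hmap _ a).mp ha
    obtain ⟨d, hd, rfl⟩ := (hmap _ b).mp hb
    rw [← map_mul]
    exact (hmem _ _).mpr (hF.mul' hc hd)
  · intro n q hq
    obtain ⟨t, rfl⟩ := hs q
    exact (hmem _ _).mpr (hPF n hq)
  · intro n a hn ha
    choose b hb hba using fun k => (hmap _ (a k)).mp (ha k)
    obtain ⟨k, c, hc, hk⟩ := hRN n b hn hb
    refine ⟨k, fun j => φ (c j), fun j hj => (hmem _ _).mpr (hc j hj), ?_⟩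
    change _ ∈ Ideal.map φ.toRingHom (F (n k + 1))
    have h1 : a k - ∑ j ∈ Finset.range k, a j * φ (c j) =
        φ (b k - ∑ j ∈ Finset.range k, b j * c j) := by
      rw [map_sub, map_sum, hba]
      congr 1
      refine Finset.sum_congr rfl fun j _ => ?_
      rw [map_mul, hba]
    rw [h1]
    exact (hmem _ _).mpr hk
  · intro n a hn ha
    choose b hb hba using fun k => (hmap _ (a k)).mp (ha k)
    obtain ⟨k, c, hc, hk⟩ := hLN n b hn hb
    refine ⟨k, fun j => φ (c j), fun j hj => (hmem _ _).mpr (hc j hj), ?_⟩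
    change _ ∈ Ideal.map φ.toRingHom (F (n k + 1))
    have h1 : a k - ∑ j ∈ Finset.range k, φ (c j) * a j =
        φ (b k - ∑ j ∈ Finset.range k, c j * b j) := by
      rw [map_sub, map_sum, hba]
      congr 1
      refine Finset.sum_congr rfl fun j _ => ?_
      rw [map_mul, hba]
    rw [h1]
    exact (hmem _ _).mpr hk
  · rw [← hmul, ← hmul, ← hmul]
    exact hsup _ _ (hr n)
  · rw [← hmul, ← hmul, ← hmul]
    exact hsup _ _ (hl n)

theorem grd_equiv (φ : S ≃+* T) (h : Grd S) : Grd T := by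
  intro P hP hp
  have hp' : ∀ a b : S, (∀ t, a * t * b ∈ Ideal.comap φ.toRingHom P) →
      a ∈ Ideal.comap φ.toRingHom P ∨ b ∈ Ideal.comap φ.toRingHom P := by
    intro a b hab
    apply hp
    intro t
    obtain ⟨t, rfl⟩ := φ.surjective t
    have h1 := hab t
    rw [Ideal.mem_comap, map_mul, map_mul] at h1
    exact h1
  rcases h (Ideal.comap φ.toRingHom P) hp' with h1 | h1
  · exact Or.inl (kdAt_equiv φ P _ (map_comap' φ P).symm h1)
  · exact Or.inr (grAt_equiv φ P _ rfl h1)

theorem locGrd_of_grd [IsNoetherianRing T] [IsNoetherianRing Tᵐᵒᵖ] (h : Grd T) : LocGrd T := by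
  intro s
  have φ : T ≃+* (⊤ : Subring T) := Subring.topEquiv.symm
  exact ⟨⊤, fun t _ => Subring.mem_top t, isNoetherianRing_of_ringEquiv T φ,
    isNoetherianRing_of_ringEquiv Tᵐᵒᵖ (RingEquiv.op φ), grd_equiv φ h⟩

end Equiv

section Op
variable {T : Type v} [Ring T]

theorem kdAt_op (P : Ideal Tᵐᵒᵖ) [hP : P.IsTwoSided] [hQ : (unopI P).IsTwoSided]
    (h : KdAt (unopI P)) : KdAt P := by
  -- the factor rings are opposite to each other
  let ψ : T →+* (Tᵐᵒᵖ ⧸ P)ᵐᵒᵖ :=
    { toFun := fun t => MulOpposite.op (Ideal.Quotient.mk P (MulOpposite.op t))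
      map_one' := by
        rw [MulOpposite.op_one, map_one, MulOpposite.op_one]
      map_mul' := fun a b => by
        rw [MulOpposite.op_mul, map_mul, MulOpposite.op_mul]
      map_zero' := by
        rw [MulOpposite.op_zero, map_zero, MulOpposite.op_zero]
      map_add' := fun a b => by
        rw [MulOpposite.op_add, map_add, MulOpposite.op_add] }
  have hψ : ∀ t, ψ t = MulOpposite.op (Ideal.Quotient.mk P (MulOpposite.op t)) := fun t => rfl
  have h0 : ∀ t, ψ t = 0 ↔ t ∈ unopI P := by
    intro t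
    rw [hψ, mem_unopI, MulOpposite.op_eq_zero_iff, Ideal.Quotient.eq_zero_iff_mem]
  have e : T ⧸ unopI P ≃+* (Tᵐᵒᵖ ⧸ P)ᵐᵒᵖ := by
    refine RingEquiv.ofBijective (Ideal.Quotient.lift (unopI P) ψ fun t ht => (h0 t).mpr ht) ?_
    constructor
    · rw [injective_iff_map_eq_zero]
      intro q hq
      obtain ⟨t, rfl⟩ := Ideal.Quotient.mk_surjective q
      rw [Ideal.Quotient.lift_mk] at hq
      exact Ideal.Quotient.eq_zero_iff_mem.mpr ((h0 t).mp hq)
    · intro q
      obtain ⟨t, ht⟩ := Ideal.Quotient.mk_surjective (I := P) q.unop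
      refine ⟨Ideal.Quotient.mk _ t.unop, ?_⟩
      rw [Ideal.Quotient.lift_mk, hψ, MulOpposite.op_unop, ht, MulOpposite.op_unop]
  exact ⟨kdL_equiv ((RingEquiv.op e).trans (RingEquiv.opOp _).symm) h.2, kdL_equiv e h.1⟩

theorem grAt_op (P : Ideal Tᵐᵒᵖ) [hP : P.IsTwoSided] (h : GrAt (unopI P)) : GrAt P := by
  intro I hI hIP
  have hP' := unopI_two P
  have hI' := unopI_two I
  obtain ⟨J, hJ, hJI, hJP, F, hF, hPF, hFP, hRN, hLN, hr, hl⟩ := h (unopI I) hI' (by
      intro hle
      apply hIP
      intro q hq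
      have h2 : q.unop ∈ unopI I := by
        rw [mem_unopI, MulOpposite.op_unop]
        exact hq
      have h3 := hle h2
      rw [mem_unopI, MulOpposite.op_unop] at h3
      exact h3)
  have hFt := hF.two
  have hnot : ∀ (K : Ideal T) [K.IsTwoSided], ¬ K ≤ unopI P → ¬ opI K ≤ P := by
    intro K hK hKP hle
    apply hKP
    intro j hj
    rw [mem_unopI]
    exact hle (mem_opI.mpr hj)
  have key : ∀ n, ∀ x ∈ J * F n * J ⊔ unopI P,
      MulOpposite.op x ∈ opI J * opI (F n) * opI J ⊔ P := by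
    intro n x hx
    set K : Ideal Tᵐᵒᵖ := opI J * opI (F n) * opI J ⊔ P with hK
    have hKt : K.IsTwoSided := by
      constructor
      intro a b ha
      obtain ⟨c, hc, p, hp, rfl⟩ := Submodule.mem_sup.mp ha
      rw [add_mul]
      exact Submodule.add_mem_sup ((mul_two (opI_two J)).mul_mem_of_left b hc)
        (hP.mul_mem_of_left b hp)
    set W : Ideal T :=
      { carrier := {t | MulOpposite.op t ∈ K}
        add_mem' := fun {a b} ha hb => by
          change MulOpposite.op (a + b) ∈ K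
          rw [MulOpposite.op_add]
          exact K.add_mem ha hb
        zero_mem' := by
          change MulOpposite.op 0 ∈ K
          rw [MulOpposite.op_zero]
          exact K.zero_mem
        smul_mem' := fun s t ht => by
          change MulOpposite.op (s * t) ∈ K
          rw [MulOpposite.op_mul]
          exact hKt.mul_mem_of_left _ ht } with hW
    have hle : J * F n * J ⊔ unopI P ≤ W := by
      refine sup_le ?_ fun a ha => ?_
      · rw [Ideal.mul_le]
        intro a ha b hb
        set W2 : Ideal T :=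
          { carrier := {t | MulOpposite.op (t * b) ∈ K}
            add_mem' := fun {a b} ha hb => by
              change MulOpposite.op (_ * _) ∈ K
              rw [add_mul, MulOpposite.op_add]
              exact K.add_mem ha hb
            zero_mem' := by
              change MulOpposite.op (0 * b) ∈ K
              rw [zero_mul, MulOpposite.op_zero]
              exact K.zero_mem
            smul_mem' := fun s t ht => by
              change MulOpposite.op (s * t * b) ∈ K
              rw [mul_assoc, MulOpposite.op_mul]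
              exact hKt.mul_mem_of_left _ ht } with hW2
        have h1 : J * F n ≤ W2 := by
          rw [Ideal.mul_le]
          intro j hj f hf
          change MulOpposite.op (j * f * b) ∈ K
          rw [MulOpposite.op_mul, MulOpposite.op_mul, ← mul_assoc]
          exact (le_sup_left : opI J * opI (F n) * opI J ≤ K)
            (Ideal.mul_mem_mul (Ideal.mul_mem_mul hb hf) hj)
        exact h1 ha
      · exact (le_sup_right : P ≤ K) ha
    exact hle hx
  refine ⟨opI J, opI_two J, ?_, hnot J hJP, fun n => opI (F n), ⟨fun n => opI_two _, ?_, ?_, ?_⟩,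
    ?_, fun n => hnot _ (hFP n), ?_, ?_, ?_, ?_⟩
  · intro q hq
    have h2 := hJI (mem_opI.mp hq)
    rw [mem_unopI, MulOpposite.op_unop] at h2
    exact h2
  · rw [eq_top_iff]
    intro q _
    exact hF.z q.unop
  · intro n q hq
    exact hF.anti n hq
  · intro m n a ha b hb
    rw [add_comm]
    exact hF.mul' hb ha
  · intro n q hq
    apply hPF n
    rw [mem_unopI, MulOpposite.op_unop]
    exact hq
  · intro n a hn ha
    obtain ⟨k, c, hc, hk⟩ := hLN n (fun k => (a k).unop) hn ha
    refine ⟨k, fun j => MulOpposite.op (c j), hc, ?_⟩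
    change (a k - ∑ j ∈ Finset.range k, a j * MulOpposite.op (c j)).unop ∈ F (n k + 1)
    rw [MulOpposite.unop_sub, Finset.unop_sum]
    exact hk
  · intro n a hn ha
    obtain ⟨k, c, hc, hk⟩ := hRN n (fun k => (a k).unop) hn ha
    refine ⟨k, fun j => MulOpposite.op (c j), hc, ?_⟩
    change (a k - ∑ j ∈ Finset.range k, MulOpposite.op (c j) * a j).unop ∈ F (n k + 1)
    rw [MulOpposite.unop_sub, Finset.unop_sum]
    exact hk
  · intro n
    rw [Ideal.mul_le]
    intro a ha b hb
    exact key n (b.unop * a.unop) (hl n (Ideal.mul_mem_mul hb ha))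
  · intro n
    rw [Ideal.mul_le]
    intro a ha b hb
    exact key n (b.unop * a.unop) (hr n (Ideal.mul_mem_mul hb ha))

theorem grd_op (h : Grd T) : Grd Tᵐᵒᵖ := by
  intro P hP hp
  have hP' := unopI_two P
  have hp' : ∀ a b : T, (∀ t, a * t * b ∈ unopI P) → a ∈ unopI P ∨ b ∈ unopI P := by
    intro a b hab
    have h1 := hp (MulOpposite.op b) (MulOpposite.op a) (fun t => by
      have h2 := hab t.unop
      rw [mem_unopI, MulOpposite.op_mul, MulOpposite.op_mul, MulOpposite.op_unop,
        ← mul_assoc] at h2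
      exact h2)
    exact h1.symm
  rcases h (unopI P) hp' with h1 | h1
  · exact Or.inl (kdAt_op P h1)
  · exact Or.inr (grAt_op P h1)

theorem locGrd_op (h : LocGrd T) : LocGrd Tᵐᵒᵖ := by
  classical
  intro s
  obtain ⟨T0, hs, h1, h2, h3⟩ := h (s.image MulOpposite.unop)
  have φ : T0ᵐᵒᵖ ≃+* T0.op := {
    toFun := fun t => ⟨MulOpposite.op t.unop.1, t.unop.2⟩
    invFun := fun t => MulOpposite.op ⟨t.1.unop, t.2⟩
    left_inv := fun t => rfl
    right_inv := fun t => rfl
    map_mul' := fun a b => rfl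
    map_add' := fun a b => rfl }
  refine ⟨T0.op, ?_, ?_, ?_, grd_equiv φ (grd_op h3)⟩
  · intro t ht
    have h4 : t.unop ∈ T0 := hs (by
      rw [Finset.coe_image]
      exact ⟨t, ht, rfl⟩)
    exact h4
  · exact isNoetherianRing_of_ringEquiv T0ᵐᵒᵖ φ
  · exact isNoetherianRing_of_ringEquiv T0 ((RingEquiv.opOp T0).trans (RingEquiv.op φ))

end Op

section Krull
variable {T : Type v} [Ring T]

/-- every descending chain of left ideals has an artinian factor (left Krull dimension at most
one) -/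
def Kr (T : Type v) [Ring T] : Prop :=
  ∀ L : ℕ → Ideal T, Antitone L →
    ∃ n, IsArtinian T (L n ⧸ Submodule.comap (L n).subtype (L (n + 1)))

theorem kdL_of_kr (h : Kr T) (P : Ideal T) [P.IsTwoSided] : KdL (T ⧸ P) := by
  intro s hs
  obtain ⟨s, rfl⟩ := Ideal.Quotient.mk_surjective s
  set m := Ideal.Quotient.mk P with hm
  set L : ℕ → Ideal T := fun n => Ideal.comap m (Ideal.span {m s ^ n}) with hL
  obtain ⟨n, hn⟩ := h L (by
    apply antitone_nat_of_succ_le
    intro n
    apply Ideal.comap_mono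
    rw [Ideal.span_le, Set.singleton_subset_iff, pow_succ']
    exact Ideal.mul_mem_left _ _ (Ideal.mem_span_singleton_self _))
  have hmem : ∀ k t, t ∈ L k ↔ m t ∈ Ideal.span {m s ^ k} := fun k t => Iff.rfl
  -- the map given by multiplication by a power
  let f : T →ₗ[T] L n :=
    { toFun := fun t => ⟨t * s ^ n, by
        rw [hmem, map_mul, map_pow]
        exact Ideal.mul_mem_left _ _ (Ideal.mem_span_singleton_self _)⟩
      map_add' := fun a b => Subtype.ext (add_mul a b (s ^ n))
      map_smul' := fun a b => Subtype.ext (mul_assoc a b (s ^ n)) }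
  have hf : ∀ t, (f t).1 = t * s ^ n := fun t => rfl
  set g : T →ₗ[T] (L n ⧸ Submodule.comap (L n).subtype (L (n + 1))) :=
    (Submodule.mkQ _).comp f with hg
  have hgk : ∀ t, g t = 0 ↔ m t ∈ Ideal.span {m s} := by
    intro t
    rw [hg, LinearMap.comp_apply, Submodule.mkQ_apply, Submodule.Quotient.mk_eq_zero,
      Submodule.mem_comap]
    change (f t).1 ∈ L (n + 1) ↔ _
    rw [hf, hmem, map_mul, map_pow, Ideal.mem_span_singleton', Ideal.mem_span_singleton']
    constructor
    · rintro ⟨a, ha⟩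
      refine ⟨a, ?_⟩
      have h1 : (a * m s - m t) * m s ^ n = 0 := by
        rw [sub_mul, ← ha, mul_assoc, ← pow_succ', sub_self]
      exact sub_eq_zero.mp ((pow_mem hs n).2 _ h1)
    · rintro ⟨a, ha⟩
      refine ⟨a, ?_⟩
      rw [← ha, mul_assoc, ← pow_succ']
  have h1 : IsArtinian T (T ⧸ LinearMap.ker g) := by
    have h2 : Function.Injective (Submodule.liftQ (LinearMap.ker g) g le_rfl) :=
      LinearMap.ker_eq_bot.mp (Submodule.ker_liftQ_eq_bot _ _ _ le_rfl)
    exact isArtinian_of_injective _ h2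
  have hle : LinearMap.ker g ≤ Submodule.comap (sl m) (Ideal.span {m s}) := by
    intro t ht
    exact (hgk t).mp (LinearMap.mem_ker.mp ht)
  refine art_map (Submodule.mapQ _ _ (sl m) hle) ?_ h1
  intro q
  obtain ⟨b, rfl⟩ := Submodule.mkQ_surjective _ q
  obtain ⟨a, rfl⟩ := Ideal.Quotient.mk_surjective b
  exact ⟨Submodule.Quotient.mk a, rfl⟩

theorem grd_of_kr (h : Kr T) (h' : Kr Tᵐᵒᵖ) : Grd T := by
  intro P hP hp
  left
  refine ⟨kdL_of_kr h P, ?_⟩
  have h1 : (opI P).IsTwoSided := opI_two P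
  have h2 := kdL_of_kr h' (opI P)
  let ψ : Tᵐᵒᵖ →+* (T ⧸ P)ᵐᵒᵖ := RingHom.op (Ideal.Quotient.mk P)
  have hψ : ∀ t, ψ t = MulOpposite.op (Ideal.Quotient.mk P t.unop) := fun t => rfl
  have h0 : ∀ t, ψ t = 0 ↔ t ∈ opI P := by
    intro t
    rw [hψ, mem_opI, MulOpposite.op_eq_zero_iff, Ideal.Quotient.eq_zero_iff_mem]
  have e : Tᵐᵒᵖ ⧸ opI P ≃+* (T ⧸ P)ᵐᵒᵖ := by
    refine RingEquiv.ofBijective (Ideal.Quotient.lift (opI P) ψ fun t ht => (h0 t).mpr ht) ?_
    constructor
    · rw [injective_iff_map_eq_zero]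
      intro q hq
      obtain ⟨t, rfl⟩ := Ideal.Quotient.mk_surjective q
      rw [Ideal.Quotient.lift_mk] at hq
      exact Ideal.Quotient.eq_zero_iff_mem.mpr ((h0 t).mp hq)
    · intro q
      obtain ⟨t, ht⟩ := Ideal.Quotient.mk_surjective (I := P) q.unop
      refine ⟨Ideal.Quotient.mk _ (MulOpposite.op t), ?_⟩
      rw [Ideal.Quotient.lift_mk, hψ, MulOpposite.unop_op, ht, MulOpposite.op_unop]
  exact kdL_equiv e h2

end Krull

end SepGr
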