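import Pool.Agent.Lib.MP_dccecd_al.GrKdM

/-! Noetherian induction for rings which are noetherian on both sides and whose prime factor rings
have Krull dimension at most one or enough filtrations with noetherian associated graded rings (for
MP_dccecd_al, the graded base theorem). -/

open SepReg SepFin SepNoe

namespace SepGr

universe u v w

theorem nzd_op {S : Type v} [Ring S] {s : S} (hs : s ∈ nonZeroDivisors S) :
    MulOpposite.op s ∈ nonZeroDivisors Sᵐᵒᵖ := by
  refine ⟨fun x hx => ?_, fun x hx => ?_⟩
  · exact MulOpposite.unop_injective (hs.2 x.unop (congrArg MulOpposite.unop hx))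
  · exact MulOpposite.unop_injective (hs.1 x.unop (congrArg MulOpposite.unop hx))

section Map
variable {T : Type v} [Ring T] {I : Ideal T} [I.IsTwoSided]

theorem mem_map_mk {J : Ideal T} (q : T ⧸ I) : q ∈ Ideal.map (Ideal.Quotient.mk I) J ↔
    ∃ j ∈ J, Ideal.Quotient.mk I j = q :=
  Ideal.mem_map_iff_of_surjective _ Ideal.Quotient.mk_surjective

theorem map_two {J : Ideal T} (hJ : J.IsTwoSided) :
    (Ideal.map (Ideal.Quotient.mk I) J).IsTwoSided := by
  constructor
  intro a b ha
  obtain ⟨j, hj, rfl⟩ := (mem_map_mk a).mp ha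
  obtain ⟨t, rfl⟩ := Ideal.Quotient.mk_surjective b
  exact (mem_map_mk _).mpr ⟨j * t, hJ.mul_mem_of_left t hj, map_mul _ _ _⟩

theorem map_ne_bot {J : Ideal T} (hJ : ¬ J ≤ I) : Ideal.map (Ideal.Quotient.mk I) J ≠ ⊥ := by
  intro h0
  apply hJ
  intro j hj
  have h2 := (mem_map_mk (I := I) _).mpr ⟨j, hj, rfl⟩
  rw [h0, Ideal.mem_bot, Ideal.Quotient.eq_zero_iff_mem] at h2
  exact h2

theorem map_mul' (J K : Ideal T) : Ideal.map (Ideal.Quotient.mk I) (J * K) =
    Ideal.map (Ideal.Quotient.mk I) J * Ideal.map (Ideal.Quotient.mk I) K := by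
  apply le_antisymm
  · rw [Ideal.map_le_iff_le_comap, Ideal.mul_le]
    intro a ha b hb
    rw [Ideal.mem_comap, map_mul]
    exact Ideal.mul_mem_mul ((mem_map_mk _).mpr ⟨a, ha, rfl⟩) ((mem_map_mk _).mpr ⟨b, hb, rfl⟩)
  · rw [Ideal.mul_le]
    intro p hp q hq
    obtain ⟨a, ha, rfl⟩ := (mem_map_mk p).mp hp
    obtain ⟨b, hb, rfl⟩ := (mem_map_mk q).mp hq
    exact (mem_map_mk _).mpr ⟨a * b, Ideal.mul_mem_mul ha hb, map_mul _ _ _⟩

theorem mk_mem_iff {J : Ideal T} {a : T} :
    Ideal.Quotient.mk I a ∈ Ideal.map (Ideal.Quotient.mk I) J ↔ a ∈ J ⊔ I := by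
  rw [mem_map_mk]
  constructor
  · rintro ⟨j, hj, h⟩
    rw [Ideal.Quotient.mk_eq_mk_iff_sub_mem] at h
    rw [show a = j + -(j - a) by abel]
    exact Submodule.add_mem_sup hj (I.neg_mem h)
  · intro h
    obtain ⟨j, hj, i, hi, rfl⟩ := Submodule.mem_sup.mp h
    refine ⟨j, hj, ?_⟩
    rw [map_add, Ideal.Quotient.eq_zero_iff_mem.mpr hi, add_zero]

theorem map_mono_sup {J K : Ideal T} (h : J ≤ K ⊔ I) :
    Ideal.map (Ideal.Quotient.mk I) J ≤ Ideal.map (Ideal.Quotient.mk I) K := by
  rw [Ideal.map_le_iff_le_comap]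
  intro j hj
  rw [Ideal.mem_comap, mk_mem_iff]
  exact h hj

variable {F : ℕ → Ideal T}

theorem map_flt (hF : Flt F) : Flt fun n => Ideal.map (Ideal.Quotient.mk I) (F n) := by
  refine ⟨fun n => map_two (hF.two n), ?_, fun n => Ideal.map_mono (hF.anti n), ?_⟩
  · change Ideal.map (Ideal.Quotient.mk I) (F 0) = ⊤
    rw [hF.top, Ideal.map_top]
  · intro m n a ha b hb
    obtain ⟨a', ha', rfl⟩ := (mem_map_mk a).mp ha
    obtain ⟨b', hb', rfl⟩ := (mem_map_mk b).mp hb
    exact (mem_map_mk _).mpr ⟨a' * b', hF.mul' ha' hb', map_mul _ _ _⟩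

theorem map_RN (hI : ∀ n, I ≤ F n) (h : RN F) :
    RN fun n => Ideal.map (Ideal.Quotient.mk I) (F n) := by
  intro n a hn ha
  choose b hb hba using fun k => (mem_map_mk (a k)).mp (ha k)
  obtain ⟨k, c, hc, hk⟩ := h n b hn hb
  refine ⟨k, fun j => Ideal.Quotient.mk I (c j), fun j hj => ?_, ?_⟩
  · exact (mem_map_mk _).mpr ⟨c j, hc j hj, rfl⟩
  · change _ ∈ Ideal.map (Ideal.Quotient.mk I) (F (n k + 1))
    rw [← hba k]
    have h1 : ∑ j ∈ Finset.range k, a j * Ideal.Quotient.mk I (c j) =
        Ideal.Quotient.mk I (∑ j ∈ Finset.range k, b j * c j) := by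
      rw [map_sum]
      refine Finset.sum_congr rfl fun j _ => ?_
      rw [map_mul, hba]
    rw [h1, ← map_sub, mk_mem_iff, sup_eq_left.mpr (hI _)]
    exact hk

theorem map_LN (hI : ∀ n, I ≤ F n) (h : LN F) :
    LN fun n => Ideal.map (Ideal.Quotient.mk I) (F n) := by
  intro n a hn ha
  choose b hb hba using fun k => (mem_map_mk (a k)).mp (ha k)
  obtain ⟨k, c, hc, hk⟩ := h n b hn hb
  refine ⟨k, fun j => Ideal.Quotient.mk I (c j), fun j hj => ?_, ?_⟩
  · exact (mem_map_mk _).mpr ⟨c j, hc j hj, rfl⟩
  · change _ ∈ Ideal.map (Ideal.Quotient.mk I) (F (n k + 1))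
    rw [← hba k]
    have h1 : ∑ j ∈ Finset.range k, Ideal.Quotient.mk I (c j) * a j =
        Ideal.Quotient.mk I (∑ j ∈ Finset.range k, c j * b j) := by
      rw [map_sum]
      refine Finset.sum_congr rfl fun j _ => ?_
      rw [map_mul, hba]
    rw [h1, ← map_sub, mk_mem_iff, sup_eq_left.mpr (hI _)]
    exact hk

end Map

section Def
variable {T : Type v} [Ring T]

/-- left and right Krull dimension at most one, for the prime factor ring -/
def KdAt (P : Ideal T) [P.IsTwoSided] : Prop := KdL (T ⧸ P) ∧ KdL (T ⧸ P)ᵐᵒᵖ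

/-- every ideal which is not contained in `P` contains an ideal `J` which is not contained in `P`
and satisfies `J F (n + 1) + F (n + 1) J ⊆ J F n J + P` for some filtration `F` by ideals
strictly containing `P` with noetherian associated graded ring -/
def GrAt (P : Ideal T) : Prop :=
  ∀ I : Ideal T, I.IsTwoSided → ¬ I ≤ P → ∃ J : Ideal T, J.IsTwoSided ∧ J ≤ I ∧ ¬ J ≤ P ∧
    ∃ F : ℕ → Ideal T, Flt F ∧ (∀ n, P ≤ F n) ∧ (∀ n, ¬ F n ≤ P) ∧ RN F ∧ LN F ∧
      (∀ n, F (n + 1) * J ≤ J * F n * J ⊔ P) ∧ ∀ n, J * F (n + 1) ≤ J * F n * J ⊔ P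

/-- every prime factor ring has Krull dimension at most one or enough filtrations with noetherian
associated graded rings -/
def Grd (T : Type v) [Ring T] : Prop :=
  ∀ (P : Ideal T) [P.IsTwoSided], (∀ a b : T, (∀ t, a * t * b ∈ P) → a ∈ P ∨ b ∈ P) →
    KdAt P ∨ GrAt P

theorem grAt_quot {I : Ideal T} [hI : I.IsTwoSided] (h : GrAt I) :
    ∀ K : Ideal (T ⧸ I), K.IsTwoSided → K ≠ ⊥ →
      ∃ J : Ideal (T ⧸ I), J.IsTwoSided ∧ J ≤ K ∧ J ≠ ⊥ ∧
        ∃ F : ℕ → Ideal (T ⧸ I), Flt F ∧ (∀ n, F n ≠ ⊥) ∧ RN F ∧ LN F ∧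
          (∀ n, F (n + 1) * J ≤ J * F n * J) ∧ ∀ n, J * F (n + 1) ≤ J * F n * J := by
  intro K hK hK0
  obtain ⟨J, hJ, hJK, hJI, F, hF, hIF, hFI, hRN, hLN, hr, hl⟩ := h
    (Ideal.comap (Ideal.Quotient.mk I) K) inferInstance (by
      intro hle
      apply hK0
      rw [eq_bot_iff]
      intro q hq
      obtain ⟨t, rfl⟩ := Ideal.Quotient.mk_surjective q
      rw [Ideal.mem_bot, Ideal.Quotient.eq_zero_iff_mem]
      exact hle hq)
  refine ⟨Ideal.map (Ideal.Quotient.mk I) J, map_two hJ, ?_, map_ne_bot hJI,
    fun n => Ideal.map (Ideal.Quotient.mk I) (F n), map_flt hF, fun n => map_ne_bot (hFI n),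
    map_RN hIF hRN, map_LN hIF hLN, fun n => ?_, fun n => ?_⟩
  · rw [Ideal.map_le_iff_le_comap]
    exact hJK
  · rw [← map_mul', ← map_mul', ← map_mul']
    exact map_mono_sup (hr n)
  · rw [← map_mul', ← map_mul', ← map_mul']
    exact map_mono_sup (hl n)

end Def

section Noe
variable {T : Type v} [Ring T] {R : Type u} [Ring R] [VNR R] [IsNoetherianRing T]
  [IsNoetherianRing Tᵐᵒᵖ]

theorem grd_main (hC : Grd T) {e f x y : T} (he : e * e = e)
    (hf : f * f = f) (hxy : x * y = 1 - e) (hyx : y * x = 1 - f) (C : Bim T R) :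
    pp e C = pp f C := by
  classical
  have key : ∀ I : Ideal T, ∀ C : Bim T R, (∀ t ∈ I, C.act t = 0) → pp e C = pp f C := by
    intro I
    induction I using IsNoetherian.induction with
    | hgt I ih =>
      intro C hC'
      by_cases hker : ∃ a, a ∉ I ∧ C.act a = 0
      · obtain ⟨a, ha, haC⟩ := hker
        exact ih _ (lt_sup ha) C (kill_sup hC' haC)
      push Not at hker
      have hI2 : Ideal.IsTwoSided I := by
        constructor
        intro a b ha
        by_contra h
        apply hker _ h
        rw [map_mul, hC' a ha, zero_mul]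
      by_cases h1 : (1 : T) ∈ I
      · have h1 : C.act 1 = 0 := hC' 1 h1
        have h2 : Subsingleton C.X := by
          constructor
          intro a b
          have h3 : ∀ c : C.X, c = 0 := by
            intro c
            have h4 := LinearMap.congr_fun h1 c
            rwa [map_one, Module.End.one_apply] at h4
          rw [h3 a, h3 b]
        rw [pp, pp, cls_subsingleton, cls_subsingleton]
      by_cases hp : ∀ a b : T, (∀ t, a * t * b ∈ I) → a ∈ I ∨ b ∈ I
      · -- the prime case
        have hn1 : IsNoetherianRing (T ⧸ I) :=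
          isNoetherianRing_of_surjective T _ (Ideal.Quotient.mk I) Ideal.Quotient.mk_surjective
        have hn2 : IsNoetherianRing (T ⧸ I)ᵐᵒᵖ := by
          refine isNoetherianRing_of_surjective Tᵐᵒᵖ _ (Ideal.Quotient.mk I).op ?_
          intro q
          obtain ⟨t, ht⟩ := Ideal.Quotient.mk_surjective (I := I) q.unop
          exact ⟨MulOpposite.op t, MulOpposite.unop_injective ht⟩
        have hpT : Prm (T ⧸ I) := by
          intro a b hab
          obtain ⟨a, rfl⟩ := Ideal.Quotient.mk_surjective a
          obtain ⟨b, rfl⟩ := Ideal.Quotient.mk_surjective b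
          rcases hp a b (fun t => Ideal.Quotient.eq_zero_iff_mem.mp (by
            rw [map_mul, map_mul]
            exact hab _)) with h | h
          · exact Or.inl (Ideal.Quotient.eq_zero_iff_mem.mpr h)
          · exact Or.inr (Ideal.Quotient.eq_zero_iff_mem.mpr h)
        have hih : ∀ (E : Bim (T ⧸ I) R) (J : Ideal (T ⧸ I)), J.IsTwoSided → J ≠ ⊥ →
            (∀ t ∈ J, E.act t = 0) →
              pp (Ideal.Quotient.mk I e) E = pp (Ideal.Quotient.mk I f) E := by
          intro E J hJ hJ0 hE
          obtain ⟨q, hq, hq0⟩ := Submodule.exists_mem_ne_zero_of_ne_bot hJ0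
          obtain ⟨a, rfl⟩ := Ideal.Quotient.mk_surjective q
          have haI : a ∉ I := fun h => hq0 (Ideal.Quotient.eq_zero_iff_mem.mpr h)
          have h1 := ih (I ⊔ Ideal.span {a}) (lt_sup haI)
            (E.res (Ideal.Quotient.mk I)) (kill_sup (by
              intro t ht
              change E.act (Ideal.Quotient.mk I t) = 0
              rw [Ideal.Quotient.eq_zero_iff_mem.mpr ht, map_zero]) (hE _ hq))
          exact h1
        have hfac : pp (Ideal.Quotient.mk I e) (C.fac I hC') =
            pp (Ideal.Quotient.mk I f) (C.fac I hC') := by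
          rcases hC I hp with hKd | hGr
          · exact prime_kd (T := T ⧸ I) (R := R) hpT (fun s hs => ⟨hKd.1 s hs, hKd.2 _ (nzd_op hs)⟩)
              (e := Ideal.Quotient.mk I e) (f := Ideal.Quotient.mk I f)
              (x := Ideal.Quotient.mk I x) (y := Ideal.Quotient.mk I y)
              (by rw [← map_mul, he]) (by rw [← map_mul, hf])
              (by rw [← map_mul, hxy, map_sub, map_one])
              (by rw [← map_mul, hyx, map_sub, map_one]) hih (C.fac I hC')
          · exact prime_grd (T := T ⧸ I) (R := R) hpT (grAt_quot hGr)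
              (e := Ideal.Quotient.mk I e) (f := Ideal.Quotient.mk I f)
              (x := Ideal.Quotient.mk I x) (y := Ideal.Quotient.mk I y)
              (by rw [← map_mul, he]) (by rw [← map_mul, hf])
              (by rw [← map_mul, hxy, map_sub, map_one])
              (by rw [← map_mul, hyx, map_sub, map_one]) hih (C.fac I hC')
        exact hfac
      · push Not at hp
        obtain ⟨a, b, hab, ha, hb⟩ := hp
        have hab' : ∀ t ∈ tsp b, ∀ s : T, a * s * t ∈ I := by
          intro t ht
          induction ht using Submodule.span_induction with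
          | mem t ht =>
            obtain ⟨v, rfl⟩ := ht
            intro s
            rw [← mul_assoc]
            exact hI2.mul_mem_of_left v (hab s)
          | zero =>
            intro s
            rw [mul_zero]
            exact I.zero_mem
          | add p q _ _ hp hq =>
            intro s
            rw [mul_add]
            exact I.add_mem (hp s) (hq s)
          | smul r p _ hp =>
            intro s
            rw [smul_eq_mul, ← mul_assoc, mul_assoc a]
            exact hp _
        rw [pp_split C (mulC (tsp b : Set T) C) (mulC_stable (tsp b) C) he,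
          pp_split C (mulC (tsp b : Set T) C) (mulC_stable (tsp b) C) hf]
        congr 1
        · refine ih _ (lt_sup ha) _ (kill_sup ?_ ?_)
          · intro t ht
            apply LinearMap.ext
            intro v
            apply Subtype.ext
            change C.act t v.1 = 0
            rw [hC' t ht, LinearMap.zero_apply]
          · apply LinearMap.ext
            intro v
            apply Subtype.ext
            change C.act a v.1 = 0
            have h2 : mulC (tsp b : Set T) C ≤ LinearMap.ker (C.act a) := by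
              apply mulC_le
              intro t ht x
              rw [LinearMap.mem_ker, ← C.act_mul, hC' _ (by
                have h3 := hab' t ht 1
                rwa [mul_one] at h3), LinearMap.zero_apply]
            exact h2 v.2
        · refine ih _ (lt_sup hb) _ (kill_sup ?_ ?_)
          · intro t ht
            apply LinearMap.ext
            intro v
            obtain ⟨w, rfl⟩ := Submodule.mkQ_surjective _ v
            change Submodule.Quotient.mk (C.act t w) = 0
            rw [hC' t ht, LinearMap.zero_apply]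
            rfl
          · exact mulQ_kill (tsp b) C b (mem_tsp b)
  exact key ⊥ C (by
    intro t ht
    rw [Ideal.mem_bot] at ht
    rw [ht, map_zero])

end Noe

end SepGr
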