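import Pool.Agent.Lib.MP_dccecd_al.Main

/-! Two-sided ideals and the main cancellation theorem (for MP_dccecd_al). -/

open Cardinal

set_option linter.unusedSectionVars false

namespace SepReg

universe u

section Ideals
variable {R : Type u} [Ring R]

/-- class of a principal left ideal -/
noncomputable def cyc [VNR R] (r : R) : VR R := cls R (LinearMap.range (rmul r))

theorem cls_of_le [VNR R] {P : Type u} [AddCommGroup P] [Module R P]
    (N N' : Submodule R P) [Module.Finite R N] [Module.Projective R N] [Module.Finite R N']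
    [Module.Projective R N'] (h : N ≤ N') : Le (cls R N) (cls R N') :=
  le_of_inj (Submodule.inclusion h) (Submodule.inclusion_injective h)

theorem cyc_add [VNR R] (r s : R) : Le (cyc (r + s)) (cyc r + cyc s) := by
  unfold cyc
  rw [← cls_prod]
  set f : (LinearMap.range (rmul r) × LinearMap.range (rmul s)) →ₗ[R] R :=
    (LinearMap.range (rmul r)).subtype.coprod (LinearMap.range (rmul s)).subtype with hf
  have h1 : LinearMap.range (rmul (r + s)) ≤ LinearMap.range f := by
    rintro _ ⟨v, rfl⟩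
    exact ⟨(⟨v * r, ⟨v, rfl⟩⟩, ⟨v * s, ⟨v, rfl⟩⟩), (mul_add v r s).symm⟩
  refine (cls_of_le _ _ h1).trans ?_
  exact le_of_surj f.rangeRestrict f.surjective_rangeRestrict

theorem cyc_left [VNR R] (t r : R) : Le (cyc (t * r)) (cyc r) := by
  apply cls_of_le
  rintro _ ⟨v, rfl⟩
  exact ⟨v * t, mul_assoc v t r⟩

theorem cyc_right [VNR R] (r t : R) : Le (cyc (r * t)) (cyc r) := by
  have h : ∀ v : LinearMap.range (rmul r), ((rmul t).comp (LinearMap.range (rmul r)).subtype) v
      ∈ LinearMap.range (rmul (r * t)) := by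
    rintro ⟨_, w, rfl⟩
    exact ⟨w, (mul_assoc w r t).symm⟩
  apply le_of_surj (LinearMap.codRestrict _ _ h)
  rintro ⟨_, w, rfl⟩
  exact ⟨⟨w * r, ⟨w, rfl⟩⟩, Subtype.ext (mul_assoc w r t)⟩

theorem cyc_zero [VNR R] : cyc (0 : R) = 0 := by
  unfold cyc
  rw [← cls_zero]
  have h : ∀ v : LinearMap.range (rmul (0 : R)), v = 0 := by
    rintro ⟨_, w, rfl⟩
    exact Subtype.ext (mul_zero w)
  apply cls_congr
  exact LinearEquiv.ofBijective (0 : LinearMap.range (rmul (0 : R)) →ₗ[R] PUnit.{u + 1})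
    ⟨fun v w _ => by rw [h v, h w], fun _ => ⟨0, Subsingleton.elim _ _⟩⟩

theorem cyc_one [VNR R] : cyc (1 : R) = cls R R := by
  apply cls_congr
  refine LinearEquiv.ofTop _ ?_
  rw [LinearMap.range_eq_top]
  intro v
  exact ⟨v, mul_one v⟩

/-- everything below a cyclic class is cyclic -/
theorem below_cyc [VNR R] {x : VR R} {r : R} (h : Le x (cyc r)) : ∃ t : R, cyc (t * r) = x := by
  obtain ⟨w, hw⟩ := h
  obtain ⟨X, rfl⟩ := exists_rep x
  obtain ⟨W, rfl⟩ := exists_rep w
  unfold cyc at hw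
  rw [← cls_prod] at hw
  obtain ⟨e⟩ := cls_eq.mp hw
  set g : LinearMap.range (rmul r) →ₗ[R] X.carrier := (LinearMap.fst R _ _).comp e.symm.toLinearMap
    with hg
  set i : X.carrier →ₗ[R] R := (LinearMap.range (rmul r)).subtype.comp
    (e.toLinearMap.comp (LinearMap.inl R _ _)) with hi
  have hi_inj : Function.Injective i := by
    intro v w h
    have h1 := Subtype.ext h
    exact congrArg Prod.fst (e.injective h1)
  have hg_surj : Function.Surjective g := by
    intro v
    exact ⟨e (v, 0), by simp [hg]⟩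
  set r' : LinearMap.range (rmul r) := ⟨r, ⟨1, one_mul r⟩⟩ with hr'
  obtain ⟨t, ht⟩ : i (g r') ∈ LinearMap.range (rmul r) := (e (g r', 0)).2
  refine ⟨t, ?_⟩
  unfold cyc
  have hrange : LinearMap.range (rmul (t * r)) = LinearMap.range i := by
    ext y
    constructor
    · rintro ⟨v, rfl⟩
      refine ⟨v • g r', ?_⟩
      rw [map_smul, ← ht]
      rfl
    · rintro ⟨v, rfl⟩
      obtain ⟨⟨_, w, rfl⟩, rfl⟩ := hg_surj v
      refine ⟨w, ?_⟩
      have h1 : (⟨rmul r w, ⟨w, rfl⟩⟩ : LinearMap.range (rmul r)) = w • r' := Subtype.ext rfl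
      rw [h1, map_smul, map_smul, ← ht]
      rfl
  rw [show cls R (LinearMap.range (rmul (t * r))) = cls R (LinearMap.range i) from
    cls_congr (LinearEquiv.ofEq _ _ hrange)]
  exact cls_congr (LinearEquiv.ofInjective i hi_inj).symm

/-- the two-sided ideal attached to an order ideal -/
noncomputable def idl [VNR R] (S : VR R → Prop) (h0 : S 0) (hadd : ∀ x y, S x → S y → S (x + y))
    (hle : ∀ x y, Le x y → S y → S x) : TwoSidedIdeal R :=
  TwoSidedIdeal.mk' {r | S (cyc r)} (by
    change S (cyc 0)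
    rw [cyc_zero]; exact h0) (fun {x y} hx hy => hle _ _ (cyc_add x y) (hadd _ _ hx hy))
    (fun {x} hx => by
      have h1 := cyc_left (-1) x
      rw [neg_one_mul] at h1
      exact hle _ _ h1 hx) (fun {x y} hy => hle _ _ (cyc_left x y) hy)
    (fun {x y} hx => hle _ _ (cyc_right x y) hx)

theorem mem_idl [VNR R] (S : VR R → Prop) (h0 : S 0) (hadd : ∀ x y, S x → S y → S (x + y))
    (hle : ∀ x y, Le x y → S y → S x) (r : R) : r ∈ idl S h0 hadd hle ↔ S (cyc r) :=
  TwoSidedIdeal.mem_mk' _ _ _ _ _ _ _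

theorem cls_fin [VNR R] (n : ℕ) : cls R (Fin n → R) = n • cls R R := by
  induction n with
  | zero =>
    rw [zero_nsmul, ← cls_zero]
    exact cls_congr (LinearEquiv.ofBijective (0 : (Fin 0 → R) →ₗ[R] PUnit.{u + 1})
      ⟨fun v w _ => Subsingleton.elim _ _, fun _ => ⟨0, Subsingleton.elim _ _⟩⟩)
  | succ n ih =>
    rw [succ_nsmul', ← ih, ← cls_prod]
    exact cls_congr (Fin.consLinearEquiv R (fun _ : Fin (n + 1) => R)).symm

theorem le_nsmul_one [VNR R] (x : VR R) : ∃ n : ℕ, Le x (n • cls R R) := by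
  obtain ⟨P, rfl⟩ := exists_rep x
  obtain ⟨n, f, hf⟩ := Module.Finite.exists_fin' R P.carrier
  exact ⟨n, by rw [← cls_fin]; exact le_of_surj f hf⟩

/-- a finitely generated left ideal is principal -/
theorem principal [VNR R] (N : Ideal R) (hN : N.FG) : ∃ w : R, w ∈ N ∧
    LinearMap.range (rmul w) = N := by
  obtain ⟨p, hp1, hp2⟩ := exists_proj_fg (R := R) (P := R) N hN
  have h1 : ∀ v, rmul (p 1) v = p v := by
    intro v
    rw [rmul_apply, ← smul_eq_mul, ← map_smul, smul_eq_mul, mul_one]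
  refine ⟨p 1, ?_, ?_⟩
  · rw [← hp2]
    exact ⟨1, rfl⟩
  · rw [← hp2]
    congr 1
    exact LinearMap.ext h1

theorem separative_of_critical {K : Type u} [Field K] [Algebra K R] [VNR R] (κ : Cardinal.{u})
    (hκ : κ.IsRegular) (hκ0 : ℵ₀ < κ) (hK : κ ≤ #K)
    (hcrit : ∀ I : TwoSidedIdeal R, I ≠ ⊤ → ∃ r : R, r ∉ I ∧ ∀ (ι : Type u) (N : ι → Ideal R),
      κ ≤ #ι → (∀ i, (N i).FG ∧ N i ≤ Ideal.span {r} ∧ ∃ x ∈ N i, x ∉ I) → iSupIndep N →
      (∃ i j, i ≠ j ∧ ∃ f : N i →ₗ[R] N j, ∀ x, f x = 0 → (x : R) ∈ I) ∧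
      ∃ i, r ∈ I ⊔ TwoSidedIdeal.span (N i : Set R)) :
    ∀ x : VR R, S0 x := by
  have hL : κ ≤ #{t : K // t ≠ 0} := by
    by_contra h
    rw [not_le] at h
    have h1 : #K ≤ #{t : K // t = 0} + #{t : K // t ≠ 0} := (mk_sum_compl {t : K | t = 0}).ge
    have h2 : #{t : K // t = 0} < κ := by
      have : #{t : K // t = 0} = 1 := by
        rw [eq_one_iff_unique]
        exact ⟨⟨fun a b => Subtype.ext (a.2.trans b.2.symm)⟩, ⟨⟨0, rfl⟩⟩⟩
      rw [this]
      exact one_lt_aleph0.trans hκ0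
    exact absurd (hK.trans h1) (not_le.mpr (add_lt_of_lt hκ.aleph0_le h2 h))
  set I0 : TwoSidedIdeal R := idl (fun x => S0 x) S0.zero (fun x y hx hy => S0.add riesz_VR hx hy)
    (fun x y h hy => hy.down h.idl) with hI0
  have hmem0 : ∀ r : R, r ∈ I0 ↔ S0 (cyc r) := fun r => mem_idl _ _ _ _ r
  by_cases htop : I0 = ⊤
  · have h1 : (1 : R) ∈ I0 := by rw [htop]; trivial
    rw [hmem0, cyc_one] at h1
    intro x
    obtain ⟨n, hn⟩ := le_nsmul_one x
    exact h1.down ⟨n, hn⟩
  · exfalso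
    obtain ⟨r, hr, hcr⟩ := hcrit I0 htop
    apply hr
    rw [hmem0]
    refine mono_main riesz_VR κ hκ hκ0 hL (cyc r) (fun a b c hc hab =>
      exists_fam (K := K) κ a b c (fun C hC I N hN1 hN2 hI hind hns => ?_) hab)
    rw [← hC] at hc
    obtain ⟨W, hW⟩ := hc
    obtain ⟨W, rfl⟩ := exists_rep W
    unfold cyc at hW
    rw [← cls_prod] at hW
    obtain ⟨e⟩ := cls_eq.mp hW
    set j : C.carrier →ₗ[R] R := (LinearMap.range (rmul r)).subtype.comp
      (e.toLinearMap.comp (LinearMap.inl R _ _)) with hj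
    have hj_inj : Function.Injective j := by
      intro v w h
      exact congrArg Prod.fst (e.injective (Subtype.ext h))
    have hj_mem : ∀ v, j v ∈ Ideal.span {r} := by
      intro v
      obtain ⟨w, hw⟩ : j v ∈ LinearMap.range (rmul r) := (e (v, 0)).2
      rw [← hw]
      exact Ideal.mul_mem_left _ _ (Ideal.subset_span rfl)
    have hmap : ∀ i, Nonempty (N i ≃ₗ[R] (N i).map j) := fun i =>
      ⟨Submodule.equivMapOfInjective j hj_inj (N i)⟩
    have hfg : ∀ i, ((N i).map j).FG := fun i =>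
      Submodule.FG.map j (Module.Finite.iff_fg.mp (hN1 i))
    have hind2 : iSupIndep (fun i => (N i).map j) := j.iSupIndep_map hj_inj hind
    have hfin : ∀ i, Module.Finite R ((N i).map j) := fun i => Module.Finite.iff_fg.mpr (hfg i)
    have hproj : ∀ i, Module.Projective R ((N i).map j) := fun i => by
      obtain ⟨e1⟩ := hmap i
      exact Module.Projective.of_equiv e1
    have hcls : ∀ i, cls R (N i) = cls R ((N i).map j) := fun i => by
      obtain ⟨e1⟩ := hmap i
      exact cls_congr e1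
    have hprin : ∀ i, ∃ w ∈ (N i).map j, LinearMap.range (rmul w) = (N i).map j ∧
        cls R (N i) = cyc w := fun i => by
      obtain ⟨w, hw1, hw2⟩ := principal ((N i).map j) (hfg i)
      refine ⟨w, hw1, hw2, ?_⟩
      rw [hcls i]
      exact cls_congr (LinearEquiv.ofEq _ _ hw2.symm)
    have hnot : ∀ i, ∃ x ∈ (N i).map j, x ∉ I0 := fun i => by
      obtain ⟨w, hw1, -, hw3⟩ := hprin i
      refine ⟨w, hw1, ?_⟩
      rw [hmem0, ← hw3]
      exact hns i
    obtain ⟨⟨i, i', hii, f, hf⟩, i0, hi0⟩ := hcr I (fun i => (N i).map j) hI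
      (fun i => ⟨hfg i, by
        rintro _ ⟨v, -, rfl⟩
        exact hj_mem v, hnot i⟩) hind2
    refine ⟨⟨i, i', hii, ?_⟩, i0, ?_⟩
    · refine ⟨cls R (LinearMap.ker f), ?_, ?_⟩
      · have hkfg : ((LinearMap.ker f).map ((N i).map j).subtype).FG :=
          Submodule.FG.map _ (Module.Finite.iff_fg.mp inferInstance)
        obtain ⟨w, hw1, hw2⟩ := principal _ hkfg
        have h1 : cls R (LinearMap.ker f) = cyc w :=
          cls_congr ((Submodule.equivMapOfInjective _ (Submodule.injective_subtype _) _).trans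
            (LinearEquiv.ofEq _ _ hw2.symm))
        rw [h1, ← hmem0]
        obtain ⟨v, hv, rfl⟩ := hw1
        exact hf v hv
      · rw [hcls i, hcls i', ← cls_source f, add_comm]
        exact (le_of_inj (LinearMap.range f).subtype (Submodule.injective_subtype _)).add Le.rfl'
    · obtain ⟨w, hw1, hw2, hw3⟩ := hprin i0
      rw [hw3]
      set It : TwoSidedIdeal R := idl (fun x => ∃ (n : ℕ) (s : VR R), S0 s ∧ Le x (n • cyc w + s))
        ⟨0, 0, S0.zero, by rw [zero_nsmul, zero_add]; exact Le.rfl'⟩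
        (by
          rintro x y ⟨n, s, hs, h⟩ ⟨m, s', hs', h'⟩
          refine ⟨n + m, s + s', S0.add riesz_VR hs hs', (h.add h').trans ?_⟩
          rw [add_nsmul, add_add_add_comm]
          exact Le.rfl')
        (by
          rintro x y hxy ⟨n, s, hs, h⟩
          exact ⟨n, s, hs, hxy.trans h⟩) with hIt
      have hmemt : ∀ r : R, r ∈ It ↔ ∃ (n : ℕ) (s : VR R), S0 s ∧ Le (cyc r) (n • cyc w + s) :=
        fun r => mem_idl _ _ _ _ r
      have hle : I0 ⊔ TwoSidedIdeal.span ((N i0).map j : Set R) ≤ It := by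
        refine sup_le ?_ ?_
        · intro t ht
          rw [hmemt]
          rw [hmem0] at ht
          exact ⟨0, cyc t, ht, by rw [zero_nsmul, zero_add]; exact Le.rfl'⟩
        · rw [TwoSidedIdeal.span_le]
          intro t ht
          have ht' : t ∈ LinearMap.range (rmul w) := by rw [hw2]; exact ht
          obtain ⟨v, rfl⟩ := ht'
          rw [SetLike.mem_coe, hmemt]
          exact ⟨1, 0, S0.zero, by
            rw [one_nsmul, add_zero]
            exact cyc_left v w⟩
      have hrI := hle hi0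
      rw [hmemt] at hrI
      obtain ⟨n, s, hs, hn⟩ := hrI
      refine ⟨n, s, hs, Le.trans ?_ hn⟩
      rw [← hC]
      exact ⟨cls R W.carrier, by unfold cyc; rw [← cls_prod]; exact hW⟩

end Ideals
end SepReg
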