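import Pool.Agent.Lib.MP_dccecd_al.VRing

/-! Separativity of regular algebras over large fields (for MP_dccecd_al). -/

open Cardinal

set_option linter.unusedSectionVars false

namespace SepReg

universe u

section Scal
variable {K : Type*} [Field K] {R : Type u} [Ring R] [Algebra K R]
variable {C : Type u} [AddCommGroup C] [Module R C]

/-- a central scalar as a module endomorphism -/
def sc (C : Type u) [AddCommGroup C] [Module R C] (t : K) : C →ₗ[R] C where
  toFun v := algebraMap K R t • v
  map_add' := fun v w => smul_add _ v w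
  map_smul' := fun r v => by
    rw [RingHom.id_apply, ← mul_smul, ← mul_smul, Algebra.commutes]

theorem sc_apply (t : K) (v : C) : sc (R := R) C t v = algebraMap K R t • v := rfl

theorem map_sc {D : Type*} [AddCommGroup D] [Module R D] (f : C →ₗ[R] D) (t : K) (v : C) :
    f (sc (R := R) C t v) = algebraMap K R t • f v := by
  rw [sc_apply, map_smul]

theorem smul_zero_of {t : K} (ht : t ≠ 0) {v : C} (h : algebraMap K R t • v = 0) : v = 0 := by
  have h1 : algebraMap K R t⁻¹ • (algebraMap K R t • v) = 0 := by rw [h, smul_zero]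
  rw [← mul_smul, ← map_mul, inv_mul_cancel₀ ht, map_one, one_smul] at h1
  exact h1

/-- eigenspaces for distinct central scalars are independent -/
theorem eigen [VNR R] [Module.Finite R C] [Module.Projective R C] (x : C →ₗ[R] C) (F : Finset K) :
    ∃ T : C →ₗ[R] C, (∀ v, T (x v) = x (T v)) ∧
      (∀ t, t ∉ F → ∀ v, x v = algebraMap K R t • v → T v = 0 → v = 0) ∧
      (∀ t, t ∈ F → ∀ v, x v = algebraMap K R t • v → T v = 0) ∧
      Le (∑ t ∈ F, cls R (LinearMap.ker (x - sc C t))) (cls R (LinearMap.ker T)) := by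
  classical
  induction F using Finset.induction_on with
  | empty =>
    refine ⟨LinearMap.id, fun v => rfl, fun t _ v _ h => h, fun t ht => by simp at ht, ?_⟩
    rw [Finset.sum_empty]
    exact ⟨_, zero_add _⟩
  | insert t F ht ih =>
    obtain ⟨T, hT1, hT2, hT4, hT3⟩ := ih
    refine ⟨T.comp (x - sc C t), ?_, ?_, ?_, ?_⟩
    · intro v
      simp only [LinearMap.comp_apply, LinearMap.sub_apply, map_sub, hT1, sc_apply, map_smul]
    · intro t' ht' v hv h
      rw [Finset.mem_insert, not_or] at ht'
      apply hT2 t' ht'.2 v hv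
      rw [LinearMap.comp_apply, LinearMap.sub_apply, hv, sc_apply, ← sub_smul, ← map_sub, map_smul] at h
      exact smul_zero_of (sub_ne_zero.mpr ht'.1) h
    · intro t' ht' v hv
      rw [LinearMap.comp_apply, LinearMap.sub_apply, hv, sc_apply, ← sub_smul, ← map_sub, map_smul]
      rcases Finset.mem_insert.mp ht' with rfl | ht'
      · rw [sub_self, map_zero, zero_smul]
      · rw [hT4 t' ht' v hv, smul_zero]
    · rw [Finset.sum_insert ht]
      refine (Le.add Le.rfl' hT3).trans ?_
      rw [← cls_prod]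
      have hin : ∀ y : LinearMap.ker (x - sc C t) × LinearMap.ker T,
          ((LinearMap.ker (x - sc C t)).subtype.coprod (LinearMap.ker T).subtype) y
            ∈ LinearMap.ker (T.comp (x - sc C t)) := by
        rintro ⟨⟨v, hv⟩, ⟨w, hw⟩⟩
        rw [LinearMap.mem_ker] at hv hw
        rw [LinearMap.mem_ker, LinearMap.coprod_apply, Submodule.subtype_apply,
          Submodule.subtype_apply, LinearMap.comp_apply, map_add, hv, zero_add,
          LinearMap.sub_apply, map_sub, hT1, hw, map_zero, sc_apply, map_smul, hw, smul_zero,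
          sub_zero]
      apply le_of_inj (LinearMap.codRestrict _ _ hin)
      rw [injective_iff_map_eq_zero]
      rintro ⟨⟨v, hv⟩, ⟨w, hw⟩⟩ h
      have h1 : v + w = 0 := congrArg Subtype.val h
      rw [LinearMap.mem_ker] at hv hw
      have hxv : x v = algebraMap K R t • v := by
        rw [LinearMap.sub_apply, sub_eq_zero] at hv
        exact hv
      have hTv : T v = 0 := by
        have : v = -w := eq_neg_of_add_eq_zero_left h1
        rw [this, map_neg, hw, neg_zero]
      have hv0 := hT2 t ht v hxv hTv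
      subst hv0
      rw [zero_add] at h1
      subst h1
      rfl

theorem eigen_le [VNR R] [Module.Finite R C] [Module.Projective R C] (x : C →ₗ[R] C) {L : Type*}
    (g : L → K) (hg : Function.Injective g) (F : Finset L) :
    Le (∑ i ∈ F, cls R (LinearMap.ker (x - sc C (g i)))) (cls R C) := by
  classical
  obtain ⟨T, -, -, -, h⟩ := eigen x (F.image g)
  rw [Finset.sum_image (fun i _ j _ hij => hg hij)] at h
  exact h.trans (le_of_inj (LinearMap.ker T).subtype (Submodule.injective_subtype _))

theorem eigen_indep [VNR R] [Module.Finite R C] [Module.Projective R C] (x : C →ₗ[R] C) :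
    iSupIndep (fun t : K => LinearMap.ker (x - sc C t)) := by
  rw [iSupIndep_def]
  intro t
  rw [Submodule.disjoint_def]
  intro v hv hv2
  have hker : ∀ t' : K, ∀ w, w ∈ LinearMap.ker (x - sc C t') → x w = algebraMap K R t' • w := by
    intro t' w hw
    rw [LinearMap.mem_ker, LinearMap.sub_apply, sub_eq_zero] at hw
    exact hw
  have h1 : (⨆ j, ⨆ (_ : j ≠ t), LinearMap.ker (x - sc C j))
      = ⨆ j : {j : K // j ≠ t}, LinearMap.ker (x - sc C j.1) := iSup_subtype'
  rw [h1, Submodule.mem_iSup_iff_exists_finset] at hv2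
  obtain ⟨F, hF⟩ := hv2
  classical
  obtain ⟨T, -, hT2, hT4, -⟩ := eigen x (F.image Subtype.val)
  apply hT2 t _ v (hker t v hv)
  · have h2 : (⨆ i ∈ F, LinearMap.ker (x - sc C i.1)) ≤ LinearMap.ker T := by
      refine iSup₂_le fun i hi w hw => ?_
      exact hT4 i.1 (Finset.mem_image_of_mem _ hi) w (hker _ _ hw)
    exact h2 hF
  · intro hmem
    obtain ⟨i, -, hi⟩ := Finset.mem_image.mp hmem
    exact i.2 hi

end Scal

section Main
variable {K : Type u} [Field K] {R : Type u} [Ring R] [Algebra K R]

/-- the family of perturbed embeddings -/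
theorem exists_fam [VNR R] (κ : Cardinal.{u}) (a b c : VR R)
    (hind : ∀ (C : FGP R), cls R C.carrier = c → ∀ (I : Type u) (N : I → Submodule R C.carrier)
      (_ : ∀ i, Module.Finite R (N i)) (_ : ∀ i, Module.Projective R (N i)), κ ≤ #I →
      iSupIndep N → (∀ i, ¬ S0 (cls R (N i))) →
      (∃ i j, i ≠ j ∧ ∃ t : VR R, S0 t ∧ Le (cls R (N i)) (cls R (N j) + t)) ∧
        ∃ i, ∃ (n : ℕ) (t : VR R), S0 t ∧ Le c (n • cls R (N i) + t))
    (hab : a + c = b + c) :
    Nonempty (Fam {t : K // t ≠ 0} κ a b c) := by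
  obtain ⟨A, rfl⟩ := exists_rep a
  obtain ⟨B, rfl⟩ := exists_rep b
  obtain ⟨C, hCc⟩ := exists_rep c
  have hind' := hind C hCc
  subst hCc
  rw [← cls_prod, ← cls_prod] at hab
  obtain ⟨φ⟩ := cls_eq.mp hab
  set p : (A.carrier × C.carrier) →ₗ[R] C.carrier := LinearMap.snd R _ _ with hp
  set q : (A.carrier × C.carrier) →ₗ[R] C.carrier := (LinearMap.snd R B.carrier C.carrier).comp
    φ.toLinearMap with hq
  set s : C.carrier →ₗ[R] (A.carrier × C.carrier) := LinearMap.inr R _ _ with hs
  set s' : C.carrier →ₗ[R] (A.carrier × C.carrier) :=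
    φ.symm.toLinearMap.comp (LinearMap.inr R B.carrier C.carrier) with hs'
  have hps : ∀ v, p (s v) = v := fun v => rfl
  have hqs' : ∀ v, q (s' v) = v := by
    intro v
    simp [hq, hs']
  have hpsurj : Function.Surjective p := fun v => ⟨s v, hps v⟩
  have hqsurj : Function.Surjective q := fun v => ⟨s' v, hqs' v⟩
  have hkp : cls R (LinearMap.ker p) = cls R A.carrier := by
    apply cls_congr
    refine (LinearEquiv.ofBijective ((LinearMap.inl R A.carrier C.carrier).codRestrict
      (LinearMap.ker p) (fun v => rfl)) ⟨?_, ?_⟩).symm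
    · intro v w h
      exact congrArg Prod.fst (congrArg Subtype.val h)
    · rintro ⟨⟨v, w⟩, h⟩
      have h1 : w = 0 := h
      subst h1
      exact ⟨v, rfl⟩
  have hkq : cls R (LinearMap.ker q) = cls R B.carrier := by
    apply cls_congr
    refine (LinearEquiv.ofBijective ((φ.symm.toLinearMap.comp (LinearMap.inl R B.carrier
      C.carrier)).codRestrict (LinearMap.ker q) (fun v => ?_)) ⟨?_, ?_⟩).symm
    · simp [hq]
    · intro v w h
      have h1 : φ.symm (v, 0) = φ.symm (w, 0) := congrArg Subtype.val h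
      exact congrArg Prod.fst (φ.symm.injective h1)
    · rintro ⟨z, h⟩
      have h1 : (φ z).2 = 0 := h
      refine ⟨(φ z).1, Subtype.ext ?_⟩
      change φ.symm ((φ z).1, 0) = z
      rw [← h1]
      exact φ.symm_apply_apply z
  set σ : {t : K // t ≠ 0} → (C.carrier →ₗ[R] (A.carrier × C.carrier)) :=
    fun t => s + s'.comp (sc C.carrier t.1) with hσ
  have e1 : ∀ t, LinearMap.ker (p.comp (σ t)) = LinearMap.ker (p.comp s' - sc C.carrier (-(t.1)⁻¹)) := by
    intro t
    ext v
    have h1 : (p.comp (σ t)) v = v + algebraMap K R t.1 • p (s' v) := by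
      simp only [hσ, LinearMap.comp_apply, LinearMap.add_apply, map_add, hps, sc_apply, map_smul]
    have h2 : (p.comp s' - sc C.carrier (-(t.1)⁻¹) : C.carrier →ₗ[R] C.carrier) v = p (s' v) + algebraMap K R (t.1)⁻¹ • v := by
      rw [LinearMap.sub_apply, sc_apply, map_neg, neg_smul, sub_neg_eq_add]
      rfl
    rw [LinearMap.mem_ker, LinearMap.mem_ker, h1, h2]
    have h3 : v + algebraMap K R t.1 • p (s' v)
        = algebraMap K R t.1 • (p (s' v) + algebraMap K R (t.1)⁻¹ • v) := by
      rw [smul_add, ← mul_smul, ← map_mul, mul_inv_cancel₀ t.2, map_one, one_smul, add_comm]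
    rw [h3]
    constructor
    · intro h
      exact smul_zero_of t.2 h
    · intro h
      rw [h, smul_zero]
  have e2 : ∀ t, LinearMap.ker (q.comp (σ t)) = LinearMap.ker (q.comp s - sc C.carrier (-(t.1))) := by
    intro t
    ext v
    have h1 : (q.comp (σ t)) v = q (s v) + algebraMap K R t.1 • v := by
      simp only [hσ, LinearMap.comp_apply, LinearMap.add_apply, map_add, hqs', sc_apply, map_smul]
    have h2 : (q.comp s - sc C.carrier (-(t.1)) : C.carrier →ₗ[R] C.carrier) v = q (s v) + algebraMap K R t.1 • v := by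
      rw [LinearMap.sub_apply, sc_apply, map_neg, neg_smul, sub_neg_eq_add]
      rfl
    rw [LinearMap.mem_ker, LinearMap.mem_ker, h1, h2]
  have c1 : ∀ t, cls R (LinearMap.ker (p.comp (σ t)))
      = cls R (LinearMap.ker (p.comp s' - sc C.carrier (-(t.1)⁻¹))) := fun t =>
    cls_congr (LinearEquiv.ofEq _ _ (e1 t))
  have c2 : ∀ t, cls R (LinearMap.ker (q.comp (σ t)))
      = cls R (LinearMap.ker (q.comp s - sc C.carrier (-(t.1)))) := fun t =>
    cls_congr (LinearEquiv.ofEq _ _ (e2 t))
  have hcmp : ∀ (x : C.carrier →ₗ[R] C.carrier) (g : {t : K // t ≠ 0} → K),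
      Function.Injective g → ∀ s : Set {t : K // t ≠ 0}, κ ≤ #s →
      (∀ i ∈ s, ¬ S0 (cls R (LinearMap.ker (x - sc C.carrier (g i))))) →
      (∃ i ∈ s, ∃ j ∈ s, i ≠ j ∧ ∃ t : VR R, S0 t ∧
        Le (cls R (LinearMap.ker (x - sc C.carrier (g i))))
          (cls R (LinearMap.ker (x - sc C.carrier (g j))) + t)) ∧
      ∃ i ∈ s, ∃ (n : ℕ) (t : VR R), S0 t ∧
          Le (cls R C.carrier) (n • cls R (LinearMap.ker (x - sc C.carrier (g i))) + t) := by
    intro x g hg S hS hns
    have hinj : Function.Injective (fun i : S => g i.1) := fun i j h => Subtype.ext (hg h)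
    obtain ⟨⟨i, j, hij, t, ht⟩, ⟨l, hl⟩⟩ := hind' S
      (fun i => LinearMap.ker (x - sc C.carrier (g i.1)))
      (fun i => inferInstance) (fun i => inferInstance) hS ((eigen_indep x).comp hinj)
      (fun i => hns i.1 i.2)
    exact ⟨⟨i.1, i.2, j.1, j.2, fun h => hij (Subtype.ext h), t, ht⟩, ⟨l.1, l.2, hl⟩⟩
  have hP := fun t => comp_classes (σ t) p hpsurj
  have hQ := fun t => comp_classes (σ t) q hqsurj
  choose k1 a1 hP1 hP2 hP3 using hP
  choose k2 b1 hQ1 hQ2 hQ3 using hQ
  refine ⟨{
    k0 := fun t => cls R (LinearMap.ker (σ t))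
    k1 := k1
    k2 := k2
    l1 := fun t => cls R (C.carrier ⧸ LinearMap.range (p.comp (σ t)))
    l2 := fun t => cls R (C.carrier ⧸ LinearMap.range (q.comp (σ t)))
    a1 := a1
    b1 := b1
    u1 := fun t => cls R (LinearMap.range (p.comp (σ t)))
    u2 := fun t => cls R (LinearMap.range (q.comp (σ t)))
    ha := fun t => by rw [hP1, hkp]
    hb := fun t => by rw [hQ1, hkq]
    hg := fun t => by rw [hP2, hQ2]
    hc1 := fun t => by rw [hP3, add_comm]; exact cls_source _
    hc1' := fun t => cls_target _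
    hc2 := fun t => by rw [hQ3, add_comm]; exact cls_source _
    hc2' := fun t => cls_target _
    hs1 := fun F => ?_
    hs2 := fun F => ?_
    hd1 := fun S hS hns => ?_
    hd2 := fun S hS hns => ?_ }⟩
  · have h := eigen_le (R := R) (p.comp s') (fun t : {t : K // t ≠ 0} => -(t.1)⁻¹) (by
      intro t t' h
      exact Subtype.ext (inv_injective (neg_injective h))) F
    have h1 : ∑ i ∈ F, (cls R (LinearMap.ker (σ i)) + k1 i)
        = ∑ i ∈ F, cls R (LinearMap.ker (p.comp s' - sc C.carrier (-(i.1)⁻¹))) :=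
      Finset.sum_congr rfl fun i _ => by rw [hP3, c1]
    rw [h1]
    exact h
  · have h := eigen_le (R := R) (q.comp s) (fun t : {t : K // t ≠ 0} => -(t.1)) (by
      intro t t' h
      exact Subtype.ext (neg_injective h)) F
    have h1 : ∑ i ∈ F, (cls R (LinearMap.ker (σ i)) + k2 i)
        = ∑ i ∈ F, cls R (LinearMap.ker (q.comp s - sc C.carrier (-(i.1)))) :=
      Finset.sum_congr rfl fun i _ => by rw [hQ3, c2]
    rw [h1]
    exact h
  · have hfun : ∀ i, cls R (LinearMap.ker (σ i)) + k1 i
        = cls R (LinearMap.ker (p.comp s' - sc C.carrier (-(i.1)⁻¹))) := fun i => by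
      rw [hP3, c1]
    simp only [hfun] at hns ⊢
    exact hcmp (p.comp s') (fun t : {t : K // t ≠ 0} => -(t.1)⁻¹) (by
      intro t t' h
      exact Subtype.ext (inv_injective (neg_injective h))) S hS hns
  · have hfun : ∀ i, cls R (LinearMap.ker (σ i)) + k2 i
        = cls R (LinearMap.ker (q.comp s - sc C.carrier (-(i.1)))) := fun i => by
      rw [hQ3, c2]
    simp only [hfun] at hns ⊢
    exact hcmp (q.comp s) (fun t : {t : K // t ≠ 0} => -(t.1)) (by
      intro t t' h
      exact Subtype.ext (neg_injective h)) S hS hns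

end Main
end SepReg
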