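import Mathlib

/-! Cancellation in commutative monoids with Riesz decomposition (for MP_dccecd_al). -/

open Cardinal

namespace SepReg

universe u v

section Mono
variable {M : Type v} [AddCommMonoid M]

/-- algebraic preorder -/
def Le (x y : M) : Prop := ∃ z, x + z = y

/-- `x` lies in the order ideal generated by `y` -/
def Idl (x y : M) : Prop := ∃ n : ℕ, Le x (n • y)

/-- Riesz decomposition -/
def Riesz (M : Type v) [AddCommMonoid M] : Prop :=
  ∀ x y z : M, Le x (y + z) → ∃ x1 x2, x1 + x2 = x ∧ Le x1 y ∧ Le x2 z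

/-- `c` can be cancelled from all sums whose two terms dominate it -/
def Good (c : M) : Prop := ∀ a b, Idl c a → Idl c b → a + c = b + c → a = b

/-- the largest order ideal consisting of good elements -/
def S0 (c : M) : Prop := ∀ c', Idl c' c → Good c'

theorem Le.rfl' {x : M} : Le x x := ⟨0, add_zero x⟩

theorem Le.trans {x y z : M} (h1 : Le x y) (h2 : Le y z) : Le x z := by
  obtain ⟨u, rfl⟩ := h1
  obtain ⟨w, rfl⟩ := h2
  exact ⟨u + w, by rw [add_assoc]⟩

theorem Le.add {x y z w : M} (h1 : Le x y) (h2 : Le z w) : Le (x + z) (y + w) := by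
  obtain ⟨u, rfl⟩ := h1
  obtain ⟨t, rfl⟩ := h2
  exact ⟨u + t, by abel⟩

theorem Le.nsmul {x y : M} (h : Le x y) (n : ℕ) : Le (n • x) (n • y) := by
  obtain ⟨u, rfl⟩ := h
  exact ⟨n • u, by rw [nsmul_add]⟩

theorem Le.left (x y : M) : Le x (x + y) := ⟨y, rfl⟩

theorem Le.right (x y : M) : Le y (x + y) := ⟨x, add_comm y x⟩

theorem Le.idl {x y : M} (h : Le x y) : Idl x y := ⟨1, by rwa [one_nsmul]⟩

theorem Idl.trans {x y z : M} (h1 : Idl x y) (h2 : Idl y z) : Idl x z := by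
  obtain ⟨n, h1⟩ := h1
  obtain ⟨m, h2⟩ := h2
  exact ⟨n * m, h1.trans (by rw [mul_comm, mul_nsmul]; exact h2.nsmul n)⟩

theorem Idl.add {x y z : M} (h1 : Idl x z) (h2 : Idl y z) : Idl (x + y) z := by
  obtain ⟨n, h1⟩ := h1
  obtain ⟨m, h2⟩ := h2
  exact ⟨n + m, by rw [add_nsmul]; exact h1.add h2⟩

theorem S0.down {x y : M} (h : S0 y) (hxy : Idl x y) : S0 x := fun c hc => h c (hc.trans hxy)

theorem S0.good {x : M} (h : S0 x) : Good x := h x Le.rfl'.idl

theorem riesz_nsmul (hR : Riesz M) (n : ℕ) {x y z : M} (h : Le x (n • (y + z))) :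
    ∃ x1 x2, x1 + x2 = x ∧ Le x1 (n • y) ∧ Le x2 (n • z) := by
  rw [nsmul_add] at h
  exact hR _ _ _ h

theorem S0.add (hR : Riesz M) {x y : M} (hx : S0 x) (hy : S0 y) : S0 (x + y) := by
  intro c hc a b hca hcb hab
  obtain ⟨n, hn⟩ := hc
  obtain ⟨c1, c2, rfl, h1, h2⟩ := riesz_nsmul hR n hn
  have g1 : Good c1 := hx c1 ⟨n, h1⟩
  have g2 : Good c2 := hy c2 ⟨n, h2⟩
  have e1 : a + c1 = b + c1 := by
    apply g2 (a + c1) (b + c1)
    · exact (Le.right c1 c2).idl.trans (hca.trans (Le.left a c1).idl)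
    · exact (Le.right c1 c2).idl.trans (hcb.trans (Le.left b c1).idl)
    · rw [add_assoc, add_assoc]; exact hab
  exact g1 a b ((Le.left c1 c2).idl.trans hca) ((Le.left c1 c2).idl.trans hcb) e1

theorem S0.zero : S0 (0 : M) := by
  intro c hc a b _ _ hab
  obtain ⟨n, z, hz⟩ := hc
  rw [nsmul_zero] at hz
  have h1 : a + c + z = b + c + z := by rw [hab]
  rw [add_assoc, add_assoc, hz, add_zero, add_zero] at h1
  exact h1

theorem S0.nsmul (hR : Riesz M) {x : M} (hx : S0 x) (n : ℕ) : S0 (n • x) := by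
  induction n with
  | zero => rw [zero_nsmul]; exact S0.zero
  | succ n ih => rw [succ_nsmul]; exact S0.add hR ih hx

/-- in a family without large antichains there are long chains above a member -/
theorem chain {L : Type u} (r : L → L → Prop) (κ : Cardinal.{u}) (hκ : κ.IsRegular) (S : Set L)
    (hanti : ∀ s : Set L, s ⊆ S → κ ≤ #s → ∃ i ∈ s, ∃ j ∈ s, i ≠ j ∧ r i j) (N : ℕ) :
    ∀ s : Set L, s ⊆ S → κ ≤ #s →
      ∃ i ∈ s, ∃ F : Finset L, ↑F ⊆ s ∧ F.card = N ∧ ∀ j ∈ F, r i j := by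
  classical
  induction N with
  | zero =>
    intro s hsS hs
    obtain ⟨i, hi, -⟩ := hanti s hsS hs
    exact ⟨i, hi, ∅, by simp, rfl, by simp⟩
  | succ N ih =>
    intro s hsS hs
    obtain ⟨A, hA⟩ := zorn_subset {A : Set L | A ⊆ s ∧ ∀ i ∈ A, ∀ j ∈ A, i ≠ j → ¬ r i j} (by
      intro c hc hchain
      refine ⟨⋃₀ c, ⟨Set.sUnion_subset fun A hA => (hc hA).1, ?_⟩, fun A hA => Set.subset_sUnion_of_mem hA⟩
      intro i hi j hj hij
      obtain ⟨A, hA, hiA⟩ := hi
      obtain ⟨B, hB, hjB⟩ := hj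
      rcases hchain.total hA hB with h | h
      · exact (hc hB).2 i (h hiA) j hjB hij
      · exact (hc hA).2 i hiA j (h hjB) hij)
    have hAs : A ⊆ s := hA.prop.1
    have hAa := hA.prop.2
    have hAk : #A < κ := by
      by_contra h
      rw [not_lt] at h
      obtain ⟨i, hi, j, hj, hij, hle⟩ := hanti A (hAs.trans hsS) h
      exact hAa i hi j hj hij hle
    have hcomp : ∀ l : (s \ A : Set L), ∃ p : A, r p l ∨ r l p := by
      intro l
      by_contra hno
      push Not at hno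
      have hmem : insert (l : L) A ∈ {A : Set L | A ⊆ s ∧ ∀ i ∈ A, ∀ j ∈ A, i ≠ j → ¬ r i j} := by
        refine ⟨Set.insert_subset l.2.1 hAs, ?_⟩
        intro i hi j hj hij
        rcases Set.mem_insert_iff.mp hi with rfl | hi
        · rcases Set.mem_insert_iff.mp hj with rfl | hj
          · exact absurd rfl hij
          · exact (hno ⟨j, hj⟩).2
        · rcases Set.mem_insert_iff.mp hj with rfl | hj
          · exact (hno ⟨i, hi⟩).1
          · exact hAa i hi j hj hij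
      have := hA.le_of_ge hmem (Set.subset_insert _ _)
      exact l.2.2 (this (Set.mem_insert _ _))
    choose g hg using hcomp
    have hsA : κ ≤ #(s \ A : Set L) := by
      by_contra h
      rw [not_le] at h
      have h1 : #s ≤ #A + #(s \ A : Set L) := by
        calc #s ≤ #(A ∪ (s \ A) : Set L) := mk_le_mk_of_subset (by
              intro x hx
              by_cases hxA : x ∈ A
              · exact Or.inl hxA
              · exact Or.inr ⟨hx, hxA⟩)
          _ ≤ _ := mk_union_le _ _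
      exact absurd (hs.trans h1) (not_le.mpr (add_lt_of_lt hκ.aleph0_le hAk h))
    obtain ⟨α, hα⟩ := infinite_pigeonhole_card g κ hsA hκ.aleph0_le (by rwa [hκ.cof_ord])
    set U : Set L := {l | ∃ h : l ∈ s \ A, g ⟨l, h⟩ = α ∧ r α l} with hU
    set D : Set L := {l | ∃ h : l ∈ s \ A, g ⟨l, h⟩ = α ∧ r l α} with hD
    have hUD : κ ≤ #(U ∪ D : Set L) := by
      refine hα.trans ?_
      refine mk_le_of_injective (f := fun x : g ⁻¹' {α} => (⟨(x : (s \ A : Set L)), by
        have h1 : g x = α := x.2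
        rcases hg x with h | h
        · left
          rw [h1] at h
          exact ⟨x.1.2, h1, h⟩
        · right
          rw [h1] at h
          exact ⟨x.1.2, h1, h⟩⟩ : (U ∪ D : Set L))) ?_
      intro x y hxy
      have : ((x : (s \ A : Set L)) : L) = y := Subtype.mk.inj hxy
      exact Subtype.ext (Subtype.ext this)
    have hor : κ ≤ #U ∨ κ ≤ #D := by
      by_contra h
      push Not at h
      exact absurd (hUD.trans (mk_union_le _ _)) (not_le.mpr (add_lt_of_lt hκ.aleph0_le h.1 h.2))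
    rcases hor with h | h
    · have hinf : U.Infinite := by
        rw [← Set.infinite_coe_iff, infinite_iff]
        exact hκ.aleph0_le.trans h
      obtain ⟨F, hFU, hFc⟩ := hinf.exists_subset_card_eq (N + 1)
      refine ⟨α, hAs α.2, F, fun x hx => ?_, hFc, fun j hj => ?_⟩
      · obtain ⟨h1, -⟩ := hFU hx
        exact h1.1
      · obtain ⟨-, -, h2⟩ := hFU hj
        exact h2
    · obtain ⟨i, hi, F, hFD, hFc, hF⟩ := ih D (fun x hx => hsS hx.1.1) h
      have hαF : (α : L) ∉ F := by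
        intro hm
        obtain ⟨h1, -⟩ := hFD hm
        exact h1.2 α.2
      refine ⟨i, hi.1.1, insert (α : L) F, ?_, ?_, ?_⟩
      · intro x hx
        rw [Finset.coe_insert] at hx
        rcases Set.mem_insert_iff.mp hx with rfl | hx
        · exact hAs α.2
        · obtain ⟨h1, -⟩ := hFD hx
          exact h1.1
      · rw [Finset.card_insert_of_notMem hαF, hFc]
      · intro j hj
        rcases Finset.mem_insert.mp hj with rfl | hj
        · exact hi.2.2
        · exact hF j hj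

/-- the data produced by a one parameter family of perturbed embeddings -/
structure Fam (L : Type u) (κ : Cardinal.{u}) (a b c : M) where
  k0 : L → M
  k1 : L → M
  k2 : L → M
  l1 : L → M
  l2 : L → M
  a1 : L → M
  b1 : L → M
  u1 : L → M
  u2 : L → M
  ha : ∀ i, a1 i + k1 i = a
  hb : ∀ i, b1 i + k2 i = b
  hg : ∀ i, a1 i + l1 i = b1 i + l2 i
  hc1 : ∀ i, u1 i + (k0 i + k1 i) = c
  hc1' : ∀ i, u1 i + l1 i = c
  hc2 : ∀ i, u2 i + (k0 i + k2 i) = c
  hc2' : ∀ i, u2 i + l2 i = c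
  hs1 : ∀ F : Finset L, Le (∑ i ∈ F, (k0 i + k1 i)) c
  hs2 : ∀ F : Finset L, Le (∑ i ∈ F, (k0 i + k2 i)) c
  hd1 : ∀ s : Set L, κ ≤ #s → (∀ i ∈ s, ¬ S0 (k0 i + k1 i)) →
    (∃ i ∈ s, ∃ j ∈ s, i ≠ j ∧ ∃ t, S0 t ∧ Le (k0 i + k1 i) (k0 j + k1 j + t)) ∧
    ∃ i ∈ s, ∃ (n : ℕ) (t : M), S0 t ∧ Le c (n • (k0 i + k1 i) + t)
  hd2 : ∀ s : Set L, κ ≤ #s → (∀ i ∈ s, ¬ S0 (k0 i + k2 i)) →
    (∃ i ∈ s, ∃ j ∈ s, i ≠ j ∧ ∃ t, S0 t ∧ Le (k0 i + k2 i) (k0 j + k2 j + t)) ∧
    ∃ i ∈ s, ∃ (n : ℕ) (t : M), S0 t ∧ Le c (n • (k0 i + k2 i) + t)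

/-- from a bound on the sums, `c` is properly infinite modulo good elements -/
theorem pinf (hR : Riesz M) {c k s y : M} (n : ℕ) (hn : Le c (n • k + s)) (hs : S0 s)
    (hk : Le ((2 * n) • k) (c + y)) (hy : S0 y) (hyc : Idl y c) {a b : M} (hca : Le c a)
    (hcb : Le c b) (hab : a + c = b + c) : a = b := by
  obtain ⟨c1, c2, rfl, h1, h2⟩ := hR _ _ _ hn
  have hs2 : S0 c2 := hs.down h2.idl
  have h3 : Le (c1 + c2) (n • k + c2) := h1.add Le.rfl'
  obtain ⟨z, hz⟩ := h3
  obtain ⟨w, hw⟩ := hk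
  obtain ⟨a', ha'⟩ := hca
  obtain ⟨b', hb'⟩ := hcb
  have hcc : Idl (y + (c2 + c2)) (c1 + c2) :=
    hyc.add ((Le.right c1 c2).idl.add (Le.right c1 c2).idl)
  set c := c1 + c2 with hc
  have e1 : c + c + (z + z + w) = c + (y + (c2 + c2)) := by
    have : c + c + (z + z + w) = (c + z) + (c + z) + w := by abel
    rw [this, hz]
    have : n • k + c2 + (n • k + c2) + w = ((2 * n) • k + w) + (c2 + c2) := by
      rw [two_mul, add_nsmul]; abel
    rw [this, hw]
    abel
  have e2 : a + (y + (c2 + c2)) = a + c + (z + z + w) := by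
    rw [← ha']
    have : c + a' + (y + (c2 + c2)) = (c + (y + (c2 + c2))) + a' := by abel
    rw [this, ← e1]
    abel
  have e3 : b + (y + (c2 + c2)) = b + c + (z + z + w) := by
    rw [← hb']
    have : c + b' + (y + (c2 + c2)) = (c + (y + (c2 + c2))) + b' := by abel
    rw [this, ← e1]
    abel
  have e4 : a + (y + (c2 + c2)) = b + (y + (c2 + c2)) := by rw [e2, e3, hab]
  exact (S0.add hR hy (S0.add hR hs2 hs2)).good a b (hcc.trans (Le.idl ⟨a', ha'⟩))
    (hcc.trans (Le.idl ⟨b', hb'⟩)) e4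

/-- reduction of goodness to the case where both terms dominate the element -/
theorem good_of_le (hR : Riesz M) (J : M → Prop) (hJ : ∀ x y, Le x y → J y → J x)
    (h : ∀ a b c, J c → Le c a → Le c b → a + c = b + c → a = b) : ∀ c, J c → Good c := by
  have hA : ∀ n : ℕ, ∀ a b c, J c → Le c (n • a) → Le c b → a + c = b + c → a = b := by
    intro n
    induction n with
    | zero =>
      intro a b c hc hca hcb hab
      rw [zero_nsmul] at hca
      exact h a b c hc (hca.trans ⟨a, zero_add a⟩) hcb hab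
    | succ n ih =>
      intro a b c hc hca hcb hab
      rw [succ_nsmul] at hca
      obtain ⟨c1, c2, rfl, h1, h2⟩ := hR _ _ _ hca
      have e1 : a + c1 = b + c1 := by
        apply h (a + c1) (b + c1) c2 (hJ _ _ (Le.right c1 c2) hc) (h2.trans (Le.left a c1))
          ((Le.right c1 c2).trans (hcb.trans (Le.left b c1)))
        rw [add_assoc, add_assoc]; exact hab
      exact ih a b c1 (hJ _ _ (Le.left c1 c2) hc) h1 ((Le.left c1 c2).trans hcb) e1
  have hB : ∀ m n : ℕ, ∀ a b c, J c → Le c (m • a) → Le c (n • b) → a + c = b + c → a = b := by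
    intro m n
    induction n with
    | zero =>
      intro a b c hc hca hcb hab
      rw [zero_nsmul] at hcb
      exact hA m a b c hc hca (hcb.trans ⟨b, zero_add b⟩) hab
    | succ n ih =>
      intro a b c hc hca hcb hab
      rw [succ_nsmul] at hcb
      obtain ⟨c1, c2, rfl, h1, h2⟩ := hR _ _ _ hcb
      have e1 : a + c1 = b + c1 := by
        apply hA m (a + c1) (b + c1) c2 (hJ _ _ (Le.right c1 c2) hc)
          ((Le.right c1 c2).trans (hca.trans ((Le.left a c1).nsmul m))) (h2.trans (Le.left b c1))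
        rw [add_assoc, add_assoc]; exact hab
      exact ih a b c1 (hJ _ _ (Le.left c1 c2) hc) ((Le.left c1 c2).trans hca) h1 e1
  intro c hc a b hca hcb hab
  obtain ⟨m, hm⟩ := hca
  obtain ⟨n, hn⟩ := hcb
  exact hB m n a b c hc hm hn hab

theorem sum_ge (hR : Riesz M) {L : Type u} {f : L → M} {x : M} (F : Finset L)
    (h : ∀ j ∈ F, ∃ t, S0 t ∧ Le x (f j + t)) :
    ∃ y, S0 y ∧ Idl y x ∧ Le (F.card • x) ((∑ j ∈ F, f j) + y) := by
  classical
  induction F using Finset.induction_on with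
  | empty =>
    refine ⟨0, S0.zero, ⟨0, by rw [zero_nsmul]; exact Le.rfl'⟩, ?_⟩
    simp only [Finset.card_empty, zero_nsmul, Finset.sum_empty, add_zero]
    exact Le.rfl'
  | insert i F hi ih =>
    obtain ⟨y, hy1, hy2, hy3⟩ := ih (fun j hj => h j (Finset.mem_insert_of_mem hj))
    obtain ⟨t, ht1, ht2⟩ := h i (Finset.mem_insert_self _ _)
    obtain ⟨x1, x2, hx, hx1, hx2⟩ := hR _ _ _ ht2
    refine ⟨x2 + y, S0.add hR (ht1.down hx2.idl) hy1,
      (Le.idl ⟨x1, by rw [add_comm]; exact hx⟩ : Idl x2 x).add hy2, ?_⟩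
    rw [Finset.card_insert_of_notMem hi, Finset.sum_insert hi, succ_nsmul, add_comm,
      add_add_add_comm]
    refine Le.add ?_ hy3
    rw [← hx]
    exact hx1.add Le.rfl'

/-- one side of the final argument -/
theorem side (hR : Riesz M) {a c : M} (hca : Le c a) {k0 k1 l1 a1 u1 g : M} (h1 : a1 + k1 = a) (h2 : a1 + l1 = g) (h3 : u1 + (k0 + k1) = c)
    (h4 : u1 + l1 = c) (hS : S0 (k0 + k1)) :
    ∃ s, S0 s ∧ Le s c ∧ a + k0 + s = g + s := by
  have hk1 : S0 k1 := hS.down (Le.right k0 k1).idl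
  have hk1c : Le k1 c := (Le.right k0 k1).trans ⟨u1, by rw [add_comm]; exact h3⟩
  have hcak : Le c (a1 + k1) := by rw [h1]; exact hca
  obtain ⟨c1, c2, hcc, hc1, hc2⟩ := hR _ _ _ hcak
  have hc2S : S0 c2 := hk1.down hc2.idl
  have hc2c : Le c2 c := ⟨c1, by rw [add_comm]; exact hcc⟩
  refine ⟨c2, hc2S, hc2c, ?_⟩
  have hk1g : Idl k1 (g + c2) := by
    refine ⟨1, ?_⟩
    rw [one_nsmul]
    refine hk1c.trans ?_
    rw [← hcc]
    exact (hc1.trans ⟨l1, h2⟩).add Le.rfl'
  have e2 : g + k1 = a + k0 + k1 := by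
    obtain ⟨a', ha'⟩ := hca
    calc g + k1 = a1 + k1 + l1 := by rw [← h2]; abel
      _ = c + a' + l1 := by rw [h1, ha']
      _ = u1 + l1 + a' + (k0 + k1) := by rw [← h3]; abel
      _ = c + a' + (k0 + k1) := by rw [h4]
      _ = a + k0 + k1 := by rw [ha']; abel
  apply hk1.good (a + k0 + c2) (g + c2)
  · exact (hk1c.trans (hca.trans ((Le.left a k0).trans (Le.left _ c2)))).idl
  · exact hk1g
  · calc a + k0 + c2 + k1 = (a + k0 + k1) + c2 := by abel
      _ = g + k1 + c2 := by rw [e2]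
      _ = g + c2 + k1 := by abel

theorem S0_of_le (hR : Riesz M) {c0 : M} (h : ∀ c, Le c c0 → Good c) : S0 c0 := by
  have key : ∀ n : ℕ, ∀ c, Le c (n • c0) → Good c := by
    intro n
    induction n with
    | zero =>
      intro c hc
      apply h
      rw [zero_nsmul] at hc
      exact hc.trans ⟨c0, zero_add c0⟩
    | succ n ih =>
      intro c hc a b hca hcb hab
      rw [succ_nsmul] at hc
      obtain ⟨c1, c2, rfl, h1, h2⟩ := hR _ _ _ hc
      have e1 : a + c1 = b + c1 := by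
        apply h c2 h2 (a + c1) (b + c1)
        · exact (Le.right c1 c2).idl.trans (hca.trans (Le.left a c1).idl)
        · exact (Le.right c1 c2).idl.trans (hcb.trans (Le.left b c1).idl)
        · rw [add_assoc, add_assoc]; exact hab
      exact ih c1 h1 a b ((Le.left c1 c2).idl.trans hca) ((Le.left c1 c2).idl.trans hcb) e1
  rintro c ⟨n, hn⟩
  exact key n c hn

/-- main cancellation theorem -/
theorem mono_main (hR : Riesz M) {L : Type u} (κ : Cardinal.{u}) (hκ : κ.IsRegular)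
    (hκ0 : ℵ₀ < κ) (hL : κ ≤ #L) (c0 : M)
    (hE : ∀ a b c : M, Le c c0 → a + c = b + c → Nonempty (Fam L κ a b c)) : S0 c0 := by
  apply S0_of_le hR
  apply good_of_le hR (fun c => Le c c0) (fun x y h1 h2 => h1.trans h2)
  intro a b c hc hca hcb hab
  by_contra hne
  obtain ⟨E⟩ := hE a b c hc hab
  have small : ∀ k : L → M, (∀ i, Le (k i) c) → (∀ F : Finset L, Le (∑ i ∈ F, k i) c) →
      (∀ s : Set L, κ ≤ #s → (∀ i ∈ s, ¬ S0 (k i)) →
        (∃ i ∈ s, ∃ j ∈ s, i ≠ j ∧ ∃ t, S0 t ∧ Le (k i) (k j + t)) ∧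
        ∃ i ∈ s, ∃ (n : ℕ) (t : M), S0 t ∧ Le c (n • k i + t)) →
      #{i : L | ¬ S0 (k i)} < κ := by
    intro k hkc hF hanti
    by_contra hcon
    rw [not_lt] at hcon
    set P : Set L := {i : L | ¬ S0 (k i) ∧ ∃ (n : ℕ) (t : M), S0 t ∧ Le c (n • k i + t)} with hP
    have hPk : κ ≤ #P := by
      by_contra h
      rw [not_le] at h
      have h1 : κ ≤ #({i : L | ¬ S0 (k i)} \ P : Set L) := by
        by_contra h2
        rw [not_le] at h2
        have h3 : #{i : L | ¬ S0 (k i)} ≤ #P + #({i : L | ¬ S0 (k i)} \ P : Set L) := by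
          calc #{i : L | ¬ S0 (k i)} ≤ #(P ∪ ({i : L | ¬ S0 (k i)} \ P) : Set L) :=
                mk_le_mk_of_subset (by
                  intro x hx
                  by_cases hxP : x ∈ P
                  · exact Or.inl hxP
                  · exact Or.inr ⟨hx, hxP⟩)
            _ ≤ _ := mk_union_le _ _
        exact absurd (hcon.trans h3) (not_le.mpr (add_lt_of_lt hκ.aleph0_le h h2))
      obtain ⟨i, hi, h4⟩ := (hanti _ h1 (fun i hi => hi.1)).2
      exact hi.2 ⟨hi.1, h4⟩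
    have hch : ∀ i : P, ∃ (n : ℕ) (t : M), S0 t ∧ Le c (n • k i + t) := fun i => i.2.2
    choose n s hs using hch
    obtain ⟨N, hN⟩ := infinite_pigeonhole_card (fun i => ULift.up.{u} (n i)) κ hPk hκ0.le (by
      rw [hκ.cof_ord]
      simpa using hκ0)
    set T : Set L := {l | ∃ h : l ∈ P, n ⟨l, h⟩ = N.down} with hT
    have hTk : κ ≤ #T := by
      refine hN.trans ?_
      refine mk_le_of_injective (f := fun x : (fun i => ULift.up.{u} (n i)) ⁻¹' {N} =>
        (⟨(x : P), by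
          have h1 : ULift.up.{u} (n x) = N := x.2
          exact ⟨x.1.2, congrArg ULift.down h1⟩⟩ : T)) ?_
      intro x y hxy
      have : ((x : P) : L) = y := Subtype.mk.inj hxy
      exact Subtype.ext (Subtype.ext this)
    obtain ⟨i, hi, F, hFT, hFc, hle⟩ := chain (fun i j => ∃ t, S0 t ∧ Le (k i) (k j + t)) κ hκ T
      (fun s hsT hsk => (hanti s hsk (fun i hi => (hsT hi).1.1)).1) (2 * N.down) T subset_rfl hTk
    obtain ⟨hi1, hi2⟩ := hi
    obtain ⟨hs1, hs2⟩ := hs ⟨i, hi1⟩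
    rw [hi2] at hs2
    obtain ⟨y, hy1, hy2, hy3⟩ := sum_ge hR F hle
    rw [hFc] at hy3
    exact hne (pinf hR N.down hs2 hs1 (hy3.trans ((hF F).add Le.rfl')) hy1
      (hy2.trans (hkc i).idl) hca hcb hab)
  have hk1 := small (fun i => E.k0 i + E.k1 i) (fun i => ⟨E.u1 i, by rw [add_comm]; exact E.hc1 i⟩)
    E.hs1 E.hd1
  have hk2 := small (fun i => E.k0 i + E.k2 i) (fun i => ⟨E.u2 i, by rw [add_comm]; exact E.hc2 i⟩)
    E.hs2 E.hd2
  obtain ⟨i, hi⟩ : ∃ i : L, i ∉ ({i : L | ¬ S0 (E.k0 i + E.k1 i)} ∪ {i : L | ¬ S0 (E.k0 i + E.k2 i)}) := by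
    by_contra hno
    push Not at hno
    have huniv : ({i : L | ¬ S0 (E.k0 i + E.k1 i)} ∪ {i : L | ¬ S0 (E.k0 i + E.k2 i)}) = Set.univ :=
      Set.eq_univ_of_forall hno
    have h6 : #L ≤ #{i : L | ¬ S0 (E.k0 i + E.k1 i)} + #{i : L | ¬ S0 (E.k0 i + E.k2 i)} := by
      rw [← mk_univ, ← huniv]
      exact mk_union_le _ _
    exact absurd (hL.trans h6) (not_le.mpr (add_lt_of_lt hκ.aleph0_le hk1 hk2))
  rw [Set.mem_union, not_or] at hi
  have hi1 : S0 (E.k0 i + E.k1 i) := by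
    by_contra h
    exact hi.1 h
  have hi2 : S0 (E.k0 i + E.k2 i) := by
    by_contra h
    exact hi.2 h
  obtain ⟨s, hs1, hs2, hs3⟩ := side hR hca (E.ha i) rfl (E.hc1 i) (E.hc1' i) hi1
  obtain ⟨t, ht1, ht2, ht3⟩ := side hR hcb (E.hb i) (E.hg i).symm (E.hc2 i)
    (E.hc2' i) hi2
  have hk0 : S0 (E.k0 i) := hi1.down (Le.left _ _).idl
  have hk0c : Le (E.k0 i) c := (Le.left (E.k0 i) (E.k1 i)).trans ⟨E.u1 i, by rw [add_comm]; exact E.hc1 i⟩
  have hfin : a + (E.k0 i + s + t) = b + (E.k0 i + s + t) := by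
    calc a + (E.k0 i + s + t) = (a + E.k0 i + s) + t := by abel
      _ = (E.a1 i + E.l1 i + s) + t := by rw [hs3]
      _ = (E.a1 i + E.l1 i + t) + s := by abel
      _ = (b + E.k0 i + t) + s := by rw [ht3]
      _ = b + (E.k0 i + s + t) := by abel
  have hid : Idl (E.k0 i + s + t) c := (hk0c.idl.add hs2.idl).add ht2.idl
  exact hne ((S0.add hR (S0.add hR hk0 hs1) ht1).good a b (hid.trans hca.idl) (hid.trans hcb.idl) hfin)

end Mono
end SepReg
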