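import Pool.Agent.Lib.MP_dccecd_al.NoeRel
import Pool.Agent.Lib.MP_dccecd_al.FinDom

/-! Absorption of functions supported on an ideal `J` with `z J ⊆ J ^ 2` for some nonzero central
element `z` (for MP_dccecd_al, the noetherian base theorem). -/

open SepReg SepFin

namespace SepNoe

universe u v w

section Lin
variable {R : Type u} [Ring R] [VNR R]

theorem le_of_ker {P Y W : Type u} [AddCommGroup P] [Module R P] [Module.Finite R P]
    [AddCommGroup Y] [Module R Y] [Module.Finite R Y] [Module.Projective R Y]
    [AddCommGroup W] [Module R W] [Module.Finite R W] [Module.Projective R W]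
    (α : P →ₗ[R] Y) (β : P →ₗ[R] W) (hβ : Function.Surjective β)
    (h : LinearMap.ker α ≤ LinearMap.ker β) : Le (cls R W) (cls R (LinearMap.range α)) := by
  refine le_of_surj (((LinearMap.ker α).liftQ β h).comp α.quotKerEquivRange.symm.toLinearMap) ?_
  intro w
  obtain ⟨p, rfl⟩ := hβ w
  refine ⟨α.quotKerEquivRange (Submodule.Quotient.mk p), ?_⟩
  change (LinearMap.ker α).liftQ β h (α.quotKerEquivRange.symm (α.quotKerEquivRange _)) = β p
  rw [LinearEquiv.symm_apply_apply]
  rfl

theorem cls_le_of_le {P : Type u} [AddCommGroup P] [Module R P] (N N' : Submodule R P)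
    [Module.Finite R N] [Module.Projective R N] [Module.Finite R N'] [Module.Projective R N']
    (h : N ≤ N') : Le (cls R N) (cls R N') :=
  le_of_inj (Submodule.inclusion h) (Submodule.inclusion_injective h)

end Lin

section Bim
variable {T : Type v} [Ring T] {R : Type u} [Ring R]

theorem mulC_stable (J : Ideal T) (C : Bim T R) (t : T) :
    ∀ x ∈ mulC (J : Set T) C, C.act t x ∈ mulC (J : Set T) C := by
  have h : mulC (J : Set T) C ≤ (mulC (J : Set T) C).comap (C.act t) := by
    apply mulC_le
    intro s hs x
    rw [Submodule.mem_comap, ← C.act_mul]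
    exact act_mem_mulC (J.mul_mem_left t hs) x
  exact fun x hx => h hx

theorem annC_stable (J : Ideal T) [hJ : J.IsTwoSided] (C : Bim T R) (t : T) :
    ∀ x ∈ annC (J : Set T) C, C.act t x ∈ annC (J : Set T) C := by
  intro x hx
  rw [mem_annC] at hx ⊢
  intro s hs
  rw [← C.act_mul]
  exact hx _ (hJ.mul_mem_of_left t hs)

variable [VNR R] [IsNoetherianRing T] [IsNoetherianRing Tᵐᵒᵖ]

/-- the product `J C` -/
abbrev mulB (J : Ideal T) (C : Bim T R) : Bim T R :=
  C.sub (mulC (J : Set T) C) (mulC_stable J C)

/-- the annihilator of `J` in `C` -/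
abbrev annB (J : Ideal T) [J.IsTwoSided] (C : Bim T R) : Bim T R :=
  C.sub (annC (J : Set T) C) (annC_stable J C)

/-- the quotient `C / J C` -/
abbrev mulQ (J : Ideal T) (C : Bim T R) : Bim T R :=
  C.quo (mulC (J : Set T) C) (mulC_stable J C)

/-- the quotient of `C` by the annihilator of `J` -/
abbrev annQ (J : Ideal T) [J.IsTwoSided] (C : Bim T R) : Bim T R :=
  C.quo (annC (J : Set T) C) (annC_stable J C)

/-- the subquotient `J C / ann J` -/
abbrev kapB (J : Ideal T) [J.IsTwoSided] (C : Bim T R) : Bim T R := annQ J (mulB J C)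

/-- the class of `S C` -/
def ym (S : Set T) : Bim T R → VR R := fun C => cls R (mulC S C)

/-- the class of the quotient by the annihilator of `S` -/
def yp (S : Set T) : Bim T R → VR R := fun C => cls R (C.X ⧸ annC S C)

omit [IsNoetherianRing T] [IsNoetherianRing Tᵐᵒᵖ] in
theorem pp_split (C : Bim T R) (N : Submodule R C.X) [Module.Finite R N] [Module.Projective R N]
    [Module.Projective R (C.X ⧸ N)] (hN : ∀ t, ∀ x ∈ N, C.act t x ∈ N) {e : T} (he : e * e = e) :
    pp e C = pp e (C.sub N hN) + pp e (C.quo N hN) := by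
  refine pp_exact (K := C.sub N hN) (X := C) (Y := C.quo N hN) N.subtype N.mkQ
    (fun s x => rfl) (fun s x => rfl) (Submodule.injective_subtype _)
    (Submodule.mkQ_surjective _) ?_ he
  intro x
  rw [Submodule.mkQ_apply, Submodule.Quotient.mk_eq_zero]
  constructor
  · intro h
    exact ⟨⟨x, h⟩, rfl⟩
  · rintro ⟨⟨k, hk⟩, rfl⟩
    exact hk

theorem pp_kap (J : Ideal T) [J.IsTwoSided] (C : Bim T R) {e : T} (he : e * e = e) :
    pp e C = pp e (kapB J C) + (pp e (mulQ J C) + pp e (annB J (mulB J C))) := by
  have i1 : Module.Finite R (annC (J : Set T) (mulB J C)) := annC_fin _ _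
  have i2 : Module.Projective R (annC (J : Set T) (mulB J C)) := annC_proj _ _
  have i3 : Module.Projective R ((mulB J C).X ⧸ annC (J : Set T) (mulB J C)) := annC_quo _ _
  have h1 : pp e C = pp e (mulB J C) + pp e (mulQ J C) :=
    pp_split C (mulC (J : Set T) C) (mulC_stable J C) he
  have h2 : pp e (mulB J C) = pp e (annB J (mulB J C)) + pp e (kapB J C) :=
    pp_split (mulB J C) (annC (J : Set T) (mulB J C)) (annC_stable J (mulB J C)) he
  rw [h1, h2]
  abel

omit [IsNoetherianRing T] in
theorem mulQ_kill (J : Ideal T) (C : Bim T R) : ∀ t ∈ J, (mulQ J C).act t = 0 := by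
  intro t ht
  apply LinearMap.ext
  intro x
  obtain ⟨v, rfl⟩ := Submodule.mkQ_surjective _ x
  change Submodule.Quotient.mk (C.act t v) = _
  rw [LinearMap.zero_apply, Submodule.Quotient.mk_eq_zero]
  exact act_mem_mulC ht v

omit [IsNoetherianRing Tᵐᵒᵖ] in
theorem annB_kill (J : Ideal T) [J.IsTwoSided] (C : Bim T R) : ∀ t ∈ J, (annB J C).act t = 0 := by
  intro t ht
  apply LinearMap.ext
  intro x
  apply Subtype.ext
  exact (mem_annC.mp x.2) t ht

/-- the images of the elements of `J` generate at most a multiple of the image of `e` -/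
theorem mulC_bound {J : Ideal T} {e : T} (hJ : J ≤ tsp e) :
    ∃ m : ℕ, ∀ C : Bim T R, Le (ym (J : Set T) C) (m • pp e C) := by
  classical
  obtain ⟨F, hF, h⟩ := mulC_finset (R := R) (J : Set T)
  have key : ∀ G : Finset T, G ⊆ F → ∃ m : ℕ, ∀ C : Bim T R,
      Le (cls R (mulC (G : Set T) C)) (m • pp e C) := by
    intro G
    induction G using Finset.induction_on with
    | empty =>
      intro _
      refine ⟨0, fun C => ?_⟩
      have h1 : mulC ((∅ : Finset T) : Set T) C = ⊥ := by
        rw [eq_bot_iff]
        apply mulC_le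
        intro t ht
        simp at ht
      have h2 : Subsingleton (mulC ((∅ : Finset T) : Set T) C) := by
        rw [h1]
        infer_instance
      rw [cls_subsingleton, zero_nsmul]
      exact Le.rfl'
    | insert a G _ ih =>
      intro hG
      obtain ⟨m, hm⟩ := ih ((Finset.subset_insert a G).trans hG)
      have ha : a ∈ tsp e := hJ (hF (hG (Finset.mem_insert_self a G)))
      obtain ⟨k, hk⟩ := cl_bound (R := R) e ha
      refine ⟨k + m, fun C => ?_⟩
      rw [add_nsmul]
      refine Le.trans ?_ ((hk C).add (hm C))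
      rw [← cls_prod]
      set Ψ : (LinearMap.range (C.act a) × mulC (G : Set T) C) →ₗ[R] C.X :=
        (LinearMap.range (C.act a)).subtype.coprod (mulC (G : Set T) C).subtype with hΨ
      have hle : mulC ((insert a G : Finset T) : Set T) C ≤ LinearMap.range Ψ := by
        rw [hΨ, LinearMap.range_coprod, Submodule.range_subtype, Submodule.range_subtype]
        apply mulC_le
        intro t ht x
        rw [Finset.coe_insert] at ht
        rcases ht with rfl | ht
        · exact (le_sup_left : LinearMap.range (C.act t) ≤ _) ⟨x, rfl⟩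
        · exact (le_sup_right : mulC (G : Set T) C ≤ _) (act_mem_mulC ht x)
      exact (cls_le_of_le _ _ hle).trans (le_of_surj Ψ.rangeRestrict Ψ.surjective_rangeRestrict)
  obtain ⟨m, hm⟩ := key F (Finset.Subset.refl F)
  refine ⟨m, fun C => Le.trans ?_ (hm C)⟩
  apply cls_le_of_le
  rw [h]
  refine iSup₂_le fun t ht => ?_
  rintro _ ⟨x, rfl⟩
  exact act_mem_mulC ht x

/-- the quotient by the annihilator of `J` is at most a multiple of the image of `e` -/
theorem annC_bound {J : Ideal T} {e : T} (hJ : J ≤ tsp e) :
    ∃ m : ℕ, ∀ C : Bim T R, Le (yp (J : Set T) C) (m • pp e C) := by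
  classical
  obtain ⟨F, hF, h⟩ := annC_finset (R := R) (J : Set T)
  have key : ∀ G : Finset T, G ⊆ F → ∃ m : ℕ, ∀ C : Bim T R,
      Le (cls R (C.X ⧸ annC (G : Set T) C)) (m • pp e C) := by
    intro G
    induction G using Finset.induction_on with
    | empty =>
      intro _
      refine ⟨0, fun C => ?_⟩
      have h1 : annC ((∅ : Finset T) : Set T) C = ⊤ := by
        rw [eq_top_iff]
        intro x _
        rw [mem_annC]
        intro t ht
        simp at ht
      have h2 : Subsingleton (C.X ⧸ annC ((∅ : Finset T) : Set T) C) := by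
        rw [Submodule.Quotient.subsingleton_iff]
        exact h1
      rw [cls_subsingleton, zero_nsmul]
      exact Le.rfl'
    | insert a G _ ih =>
      intro hG
      obtain ⟨m, hm⟩ := ih ((Finset.subset_insert a G).trans hG)
      have ha : a ∈ tsp e := hJ (hF (hG (Finset.mem_insert_self a G)))
      obtain ⟨k, hk⟩ := cl_bound (R := R) e ha
      refine ⟨k + m, fun C => ?_⟩
      rw [add_nsmul]
      refine Le.trans ?_ ((hk C).add (hm C))
      rw [← cls_prod]
      have hle : annC ((insert a G : Finset T) : Set T) C ≤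
          LinearMap.ker ((C.act a).rangeRestrict.prod (annC (G : Set T) C).mkQ) := by
        intro x hx
        rw [mem_annC] at hx
        rw [LinearMap.ker_prod]
        refine ⟨?_, ?_⟩
        · rw [SetLike.mem_coe, LinearMap.mem_ker]
          apply Subtype.ext
          exact hx a (by rw [Finset.coe_insert]; exact Set.mem_insert _ _)
        · rw [SetLike.mem_coe, LinearMap.mem_ker, Submodule.mkQ_apply,
            Submodule.Quotient.mk_eq_zero, mem_annC]
          exact fun t ht => hx t (by rw [Finset.coe_insert]; exact Set.mem_insert_of_mem _ ht)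
      refine le_of_inj ((annC ((insert a G : Finset T) : Set T) C).liftQ _ hle) ?_
      rw [injective_iff_map_eq_zero]
      intro q hq
      obtain ⟨x, rfl⟩ := Submodule.mkQ_surjective _ q
      rw [Submodule.mkQ_apply, Submodule.liftQ_apply, LinearMap.prod_apply] at hq
      rw [Submodule.mkQ_apply, Submodule.Quotient.mk_eq_zero, mem_annC]
      have h1 : C.act a x = 0 := congrArg Subtype.val (congrArg Prod.fst hq)
      have h2 : (annC (G : Set T) C).mkQ x = 0 := congrArg Prod.snd hq
      rw [Submodule.mkQ_apply, Submodule.Quotient.mk_eq_zero, mem_annC] at h2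
      intro t ht
      rw [Finset.coe_insert] at ht
      rcases ht with rfl | ht
      · exact h1
      · exact h2 t ht
  obtain ⟨m, hm⟩ := key F (Finset.Subset.refl F)
  refine ⟨m, fun C => Le.trans ?_ (hm C)⟩
  have hle : annC (F : Set T) C ≤ (annC (J : Set T) C).comap LinearMap.id := by
    rw [h]
    exact le_rfl
  refine le_of_surj (Submodule.mapQ _ _ LinearMap.id ?_) ?_
  · exact hle
  · intro x
    obtain ⟨v, rfl⟩ := Submodule.mkQ_surjective _ x
    exact ⟨Submodule.Quotient.mk v, rfl⟩

end Bim

section Good
variable {T : Type v} [Ring T] {R : Type u} [Ring R] [VNR R] {A : Type w} [CommRing A] [Algebra A T]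

/-- modules which `z` maps into `J C`, and in which `z` kills the annihilator of `J` -/
structure Good (J : Ideal T) (z : A) (C : Bim T R) : Prop where
  mul : ∀ v, C.za z v ∈ mulC (J : Set T) C
  ann : ∀ v ∈ annC (J : Set T) C, C.za z v = 0

theorem Good.ran {J : Ideal T} {z : A} {C : Bim T R} (h : Good J z C) (y : A) :
    Good J z (ranB C y) := by
  constructor
  · rintro ⟨_, w, rfl⟩
    have h1 : mulC (J : Set T) C ≤
        (mulC (J : Set T) (ranB C y)).comap (C.za y).rangeRestrict := by
      apply mulC_le
      intro j hj x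
      rw [Submodule.mem_comap]
      have h2 : (C.za y).rangeRestrict (C.act j x) =
          (ranB C y).act j ((C.za y).rangeRestrict x) := by
        apply Subtype.ext
        exact (C.za_comm y j x).symm
      rw [h2]
      exact act_mem_mulC hj _
    have h2 := h1 (h.mul w)
    rw [Submodule.mem_comap] at h2
    have h3 : (ranB C y).za z ⟨C.za y w, w, rfl⟩ = (C.za y).rangeRestrict (C.za z w) := by
      apply Subtype.ext
      exact C.za_comm y (algebraMap A T z) w
    rw [h3]
    exact h2
  · rintro ⟨v, hv⟩ h1
    rw [mem_annC] at h1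
    apply Subtype.ext
    apply h.ann v
    rw [mem_annC]
    exact fun t ht => congrArg Subtype.val (h1 t ht)

variable [IsNoetherianRing T] [IsNoetherianRing Tᵐᵒᵖ]

theorem good_kap {J : Ideal T} [J.IsTwoSided] {z : A}
    (hz : ∀ j ∈ J, algebraMap A T z * j ∈ J * J) (C : Bim T R) : Good J z (kapB J C) := by
  constructor
  · intro v
    obtain ⟨v, rfl⟩ := Submodule.mkQ_surjective _ v
    set N : Submodule R C.X := ((mulC (J : Set T) (kapB J C)).comap
      (annC (J : Set T) (mulB J C)).mkQ).map (mulC (J : Set T) C).subtype with hN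
    have h1 : ∀ p ∈ J * J, ∀ x, C.act p x ∈ N := by
      have h2 : J * J ≤ ({ carrier := {p | ∀ x, C.act p x ∈ N}
                           add_mem' := fun {a b} ha hb x => by
                            rw [C.act_add]
                            exact N.add_mem (ha x) (hb x)
                           zero_mem' := fun x => by
                            rw [C.act_zero]
                            exact N.zero_mem
                           smul_mem' := fun r p hp x => by
                            obtain ⟨u, hu1, hu2⟩ := hp x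
                            rw [smul_eq_mul, C.act_mul, ← hu2]
                            refine ⟨(mulB J C).act r u, ?_, rfl⟩
                            exact mulC_stable J (kapB J C) r _ hu1 } : Ideal T) := by
        rw [Ideal.mul_le]
        intro a ha b hb x
        refine ⟨(mulB J C).act a ⟨C.act b x, act_mem_mulC hb x⟩, ?_, ?_⟩
        · rw [SetLike.mem_coe, Submodule.mem_comap]
          exact act_mem_mulC (C := kapB J C) ha (Submodule.Quotient.mk ⟨C.act b x, act_mem_mulC hb x⟩)
        · exact (C.act_mul a b x).symm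
      exact fun p hp => h2 hp
    have h2 : mulC (J : Set T) C ≤ N.comap (C.za z) := by
      apply mulC_le
      intro j hj x
      rw [Submodule.mem_comap]
      have h3 : C.za z (C.act j x) = C.act (algebraMap A T z * j) x := (C.act_mul _ _ _).symm
      rw [h3]
      exact h1 _ (hz j hj) x
    obtain ⟨u, hu1, hu2⟩ := h2 v.2
    have h3 : u = (mulB J C).za z v := Subtype.ext hu2
    rw [h3] at hu1
    exact hu1
  · intro v hv
    obtain ⟨v, rfl⟩ := Submodule.mkQ_surjective _ v
    rw [mem_annC] at hv
    have h1 : ∀ j ∈ J, ∀ i ∈ J, C.act (i * j) v.1 = 0 := by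
      intro j hj i hi
      have h2 : Submodule.Quotient.mk ((mulB J C).act j v) = (0 : (kapB J C).X) := hv j hj
      rw [Submodule.Quotient.mk_eq_zero, mem_annC] at h2
      rw [C.act_mul]
      exact congrArg Subtype.val (h2 i hi)
    have h2 : ∀ p ∈ J * J, C.act p v.1 = 0 := by
      have h3 : J * J ≤ ({ carrier := {p | C.act p v.1 = 0}
                           add_mem' := fun {a b} ha hb => by
                            change C.act (a + b) v.1 = 0
                            rw [C.act_add, show C.act a v.1 = 0 from ha,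
                              show C.act b v.1 = 0 from hb, add_zero]
                           zero_mem' := C.act_zero _
                           smul_mem' := fun r p hp => by
                            change C.act (r * p) v.1 = 0
                            rw [C.act_mul, show C.act p v.1 = 0 from hp, map_zero] } :
                              Ideal T) := by
        rw [Ideal.mul_le]
        exact fun a ha b hb => h1 b hb a ha
      exact fun p hp => h3 hp
    change Submodule.Quotient.mk ((mulB J C).za z v) = (0 : (kapB J C).X)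
    rw [Submodule.Quotient.mk_eq_zero, mem_annC]
    intro j hj
    apply Subtype.ext
    change C.act j (C.za z v.1) = 0
    rw [C.za_comm]
    have h3 : C.za z (C.act j v.1) = C.act (algebraMap A T z * j) v.1 := (C.act_mul _ _ _).symm
    rw [h3]
    exact h2 _ (hz j hj)

theorem q_bound {J : Ideal T} [J.IsTwoSided] {z : A} {E : Bim T R} (hE : Good J z E)
    (hk : Good J z (kapB J E)) :
    Le (yq (J : Set T) (kapB J E)) (ym (J : Set T) (cokB E (z * z))) := by
  have i1 : Module.Projective R ((kapB J E).X ⧸ mulC (J : Set T) (kapB J E)) := mulC_quo _ _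
  have i2 : Module.Finite R (mulC (J : Set T) (cokB E (z * z))) := mulC_fin _ _
  have i3 : Module.Projective R (mulC (J : Set T) (cokB E (z * z))) := mulC_proj _ _
  set α : mulC (J : Set T) E →ₗ[R] (cokB E (z * z)).X :=
    (LinearMap.range (E.za (z * z))).mkQ.comp (mulC (J : Set T) E).subtype with hα
  set β : mulC (J : Set T) E →ₗ[R] ((kapB J E).X ⧸ mulC (J : Set T) (kapB J E)) :=
    (mulC (J : Set T) (kapB J E)).mkQ.comp (annC (J : Set T) (mulB J E)).mkQ with hβ
  have h1 : Le (yq (J : Set T) (kapB J E)) (cls R (LinearMap.range α)) := by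
    refine le_of_ker α β ((Submodule.mkQ_surjective _).comp (Submodule.mkQ_surjective _)) ?_
    intro v hv
    rw [LinearMap.mem_ker, hα, LinearMap.comp_apply, Submodule.mkQ_apply,
      Submodule.Quotient.mk_eq_zero] at hv
    obtain ⟨w, hw⟩ := hv
    rw [E.za_mul] at hw
    set u : (mulB J E).X := ⟨E.za z w, hE.mul w⟩ with hu
    have h2 : v = (mulB J E).za z u := Subtype.ext hw.symm
    rw [LinearMap.mem_ker, hβ, LinearMap.comp_apply, Submodule.mkQ_apply,
      Submodule.Quotient.mk_eq_zero, h2]
    exact hk.mul (Submodule.Quotient.mk u)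
  refine h1.trans (cls_le_of_le _ _ ?_)
  rw [hα, LinearMap.range_comp, Submodule.range_subtype, Submodule.map_le_iff_le_comap]
  apply mulC_le
  intro j hj x
  exact act_mem_mulC (C := cokB E (z * z)) hj (Submodule.Quotient.mk x)

theorem a_bound {J : Ideal T} [J.IsTwoSided] {z : A} {E : Bim T R} (hE : Good J z E) :
    Le (ya (J : Set T) (kapB J E)) (yp (J : Set T) (kerB E (z * z))) := by
  have i1 : Module.Finite R (annC (J : Set T) (kapB J E)) := annC_fin _ _
  have i2 : Module.Projective R (annC (J : Set T) (kapB J E)) := annC_proj _ _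
  have i3 : Module.Projective R ((kapB J E).X ⧸ annC (J : Set T) (kapB J E)) := annC_quo _ _
  set P := LinearMap.ker ((annC (J : Set T) (kapB J E)).mkQ.comp
    (annC (J : Set T) (mulB J E)).mkQ) with hP
  have hPm : ∀ v : P, (annC (J : Set T) (mulB J E)).mkQ v.1 ∈ annC (J : Set T) (kapB J E) := by
    rintro ⟨v, hv⟩
    rw [hP, LinearMap.mem_ker, LinearMap.comp_apply, Submodule.mkQ_apply,
      Submodule.Quotient.mk_eq_zero] at hv
    exact hv
  have hPz : ∀ v : P, v.1.1 ∈ LinearMap.ker (E.za (z * z)) := by
    intro v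
    have h1 := hPm v
    rw [mem_annC] at h1
    have h2 : ∀ j ∈ J, E.act j v.1.1 ∈ annC (J : Set T) E := by
      intro j hj
      have h3 : Submodule.Quotient.mk ((mulB J E).act j v.1) = (0 : (kapB J E).X) := h1 j hj
      rw [Submodule.Quotient.mk_eq_zero, mem_annC] at h3
      rw [mem_annC]
      exact fun i hi => congrArg Subtype.val (h3 i hi)
    have h3 : E.za z v.1.1 ∈ annC (J : Set T) E := by
      rw [mem_annC]
      intro j hj
      rw [E.za_comm]
      exact hE.ann _ (h2 j hj)
    rw [LinearMap.mem_ker, E.za_mul]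
    exact hE.ann _ h3
  set γ : P →ₗ[R] LinearMap.ker (E.za (z * z)) :=
    ((mulC (J : Set T) E).subtype.comp P.subtype).codRestrict _ hPz with hγ
  set α : P →ₗ[R] ((kerB E (z * z)).X ⧸ annC (J : Set T) (kerB E (z * z))) :=
    (annC (J : Set T) (kerB E (z * z))).mkQ.comp γ with hα
  set β : P →ₗ[R] annC (J : Set T) (kapB J E) :=
    ((annC (J : Set T) (mulB J E)).mkQ.comp P.subtype).codRestrict _ hPm with hβ
  have i4 : Module.Projective R ((kerB E (z * z)).X ⧸ annC (J : Set T) (kerB E (z * z))) :=
    annC_quo _ _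
  have h1 : Le (ya (J : Set T) (kapB J E)) (cls R (LinearMap.range α)) := by
    refine le_of_ker α β ?_ ?_
    · rintro ⟨w, hw⟩
      obtain ⟨v, rfl⟩ := Submodule.mkQ_surjective _ w
      refine ⟨⟨v, ?_⟩, rfl⟩
      rw [hP, LinearMap.mem_ker, LinearMap.comp_apply, Submodule.mkQ_apply,
        Submodule.Quotient.mk_eq_zero]
      exact hw
    · intro v hv
      rw [LinearMap.mem_ker, hα, LinearMap.comp_apply, Submodule.mkQ_apply,
        Submodule.Quotient.mk_eq_zero, mem_annC] at hv
      rw [LinearMap.mem_ker]
      apply Subtype.ext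
      change Submodule.Quotient.mk v.1 = (0 : (kapB J E).X)
      rw [Submodule.Quotient.mk_eq_zero, mem_annC]
      intro j hj
      have h2 : E.act j v.1.1 = 0 := congrArg Subtype.val (hv j hj)
      exact Subtype.ext h2
  exact h1.trans (le_of_inj (LinearMap.range α).subtype (Submodule.injective_subtype _))

omit [IsNoetherianRing T] [IsNoetherianRing Tᵐᵒᵖ] in
/-- the absorption argument, for a class of modules closed under multiples by scalars -/
theorem absorbG {e f : T} (he : e * e = e) (hf : f * f = f) (z : A) (N : ℕ)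
    (G : Bim T R → Prop) (hG : ∀ E (y : A), G E → G (ranB E y))
    (h2 : ∀ E : Bim T R, G E → ∃ d : VR R, pp e E + d = pp f E + d ∧
      Le d (N • (pp e (cokB E z) + pp e (kerB E z))))
    (h3 : ∀ (E : Bim T R) (j : ℕ), E.za (z ^ j) = 0 → pp e E = pp f E) (C : Bim T R) (hC : G C) :
    pp e C = pp f C := by
  set D := ranB C (z ^ N) with hD
  set E := ranB D (z ^ N) with hE
  obtain ⟨d, hd1, hd2⟩ := h2 E (hG _ _ (hG _ _ hC))
  have k1 : pp e (kerB C (z ^ N)) = pp f (kerB C (z ^ N)) := by
    apply h3 _ N
    apply LinearMap.ext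
    intro x
    apply Subtype.ext
    exact x.2
  have k2 : pp e (cokB D (z ^ N)) = pp f (cokB D (z ^ N)) := by
    apply h3 _ N
    apply LinearMap.ext
    intro x
    obtain ⟨v, rfl⟩ := Submodule.mkQ_surjective _ x
    change Submodule.Quotient.mk _ = _
    rw [LinearMap.zero_apply, Submodule.Quotient.mk_eq_zero]
    exact ⟨v, rfl⟩
  have e1 : pp e C = pp e (kerB C (z ^ N)) + (pp e E + pp e (cokB D (z ^ N))) := by
    rw [pp_ker_ran C (z ^ N) he, pp_ran_cok D (z ^ N) he]
  have f1 : pp f C = pp f (kerB C (z ^ N)) + (pp f E + pp f (cokB D (z ^ N))) := by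
    rw [pp_ker_ran C (z ^ N) hf, pp_ran_cok D (z ^ N) hf]
  have l1 : Le (N • pp e (kerB E z)) (pp e (kerB C (z ^ N))) :=
    (fil_ker D z N he N le_rfl).trans (ker_ran_le' C (z ^ N) (z ^ N) e)
  have l2 : Le (N • pp e (cokB E z)) (pp e (cokB D (z ^ N))) := fil_cok D z N he N le_rfl
  have l3 : Le d (pp e (cokB D (z ^ N)) + pp e (kerB C (z ^ N))) := by
    refine hd2.trans ?_
    rw [nsmul_add]
    exact Le.add l2 l1
  obtain ⟨w, hw⟩ := l3
  rw [e1, f1, ← k1, ← k2]
  calc pp e (kerB C (z ^ N)) + (pp e E + pp e (cokB D (z ^ N)))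
      = pp e E + (pp e (cokB D (z ^ N)) + pp e (kerB C (z ^ N))) := by abel
    _ = (pp e E + d) + w := by rw [← hw]; abel
    _ = (pp f E + d) + w := by rw [hd1]
    _ = pp f E + (pp e (cokB D (z ^ N)) + pp e (kerB C (z ^ N))) := by rw [← hw]; abel
    _ = _ := by abel

/-- the case in which a nonzero ideal `J` satisfies `z J ⊆ J ^ 2` -/
theorem abs_main {e f : T} (he : e * e = e) (hf : f * f = f) {J : Ideal T} [J.IsTwoSided] {z : A}
    (hz : ∀ j ∈ J, algebraMap A T z * j ∈ J * J) (hJe : J ≤ tsp e) (b : ℕ)
    (hrel : ∀ E : Bim T R, ∃ d : VR R, pp e E + d = pp f E + d ∧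
      Le d (b • (yq (J : Set T) E + ya (J : Set T) E)))
    (h3 : ∀ E : Bim T R, (∀ t ∈ J, E.act t = 0) → pp e E = pp f E)
    (h4 : ∀ (E : Bim T R) (j : ℕ), E.za (z ^ j) = 0 → pp e E = pp f E) (C : Bim T R) :
    pp e C = pp f C := by
  have hstep : ∀ E : Bim T R, ∀ d : VR R, pp e (kapB J E) + d = pp f (kapB J E) + d →
      pp e E + d = pp f E + d := by
    intro E d hd
    rw [pp_kap J E he, pp_kap J E hf, h3 _ (mulQ_kill J E), h3 _ (annB_kill J (mulB J E)),
      add_right_comm, hd, add_right_comm]
  obtain ⟨m, hm⟩ := mulC_bound (R := R) hJe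
  obtain ⟨m', hm'⟩ := annC_bound (R := R) hJe
  have hgood : ∀ E : Bim T R, Good J z E → pp e E = pp f E := by
    intro E hE
    refine absorbG he hf (z * z) (b * (m + m')) (Good J z) (fun E y hE => hE.ran y) ?_ ?_ E hE
    · intro E hE
      obtain ⟨d, hd1, hd2⟩ := hrel (kapB J E)
      refine ⟨d, hstep E d hd1, hd2.trans ?_⟩
      rw [mul_comm, mul_nsmul]
      apply Le.nsmul
      refine Le.trans (Le.add ((q_bound hE (good_kap hz E)).trans (hm _))
        ((a_bound hE).trans (hm' _))) ?_
      rw [add_nsmul, nsmul_add, nsmul_add]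
      refine ⟨m • pp e (kerB E (z * z)) + m' • pp e (cokB E (z * z)), ?_⟩
      abel
    · intro E j hE
      apply h4 E (2 * j)
      rw [pow_mul, pow_two]
      exact hE
  have h5 := hstep C 0 (by rw [hgood _ (good_kap hz C)])
  rwa [add_zero, add_zero] at h5

end Good

end SepNoe
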