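import Pool.Agent.Lib.MP_dccecd_al.NoeGold

/-! The ring of quotients of a prime ring which is noetherian on both sides (for MP_dccecd_al, the
noetherian base theorem). -/

open SepFin

namespace SepNoe

universe v w

/-- `Q` is the ring of quotients of `T` -/
structure IsOrd {T : Type v} {Q : Type w} [Ring T] [Ring Q] (ι : T →+* Q) : Prop where
  inj : Function.Injective ι
  left : ∀ q : Q, ∃ c t : T, IsUnit (ι c) ∧ ι c * q = ι t
  right : ∀ q : Q, ∃ c t : T, IsUnit (ι c) ∧ q * ι c = ι t

section Ex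
variable {T : Type v} [Ring T]

theorem artin_of_noeth {Q : Type w} [Ring Q] [IsNoetherianRing T] (hp : Prm T) (ι : T →+* Q)
    (hinj : Function.Injective ι) (hu : ∀ c ∈ nonZeroDivisors T, IsUnit (ι c))
    (hl : ∀ q : Q, ∃ c t : T, IsUnit (ι c) ∧ ι c * q = ι t) : IsArtinianRing Q := by
  have hmono : StrictMono fun F : Ideal Q => Ideal.comap ι F := by
    intro F G hFG
    obtain ⟨hle, hnle⟩ := SetLike.lt_iff_le_and_exists.mp hFG
    obtain ⟨g, hg, hgF⟩ := hnle
    refine lt_of_le_of_ne (Ideal.comap_mono hle) ?_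
    intro h
    obtain ⟨c, t, ⟨d, hd⟩, ht⟩ := hl g
    have h1 : t ∈ Ideal.comap ι G := by
      rw [Ideal.mem_comap, ← ht]
      exact G.mul_mem_left _ hg
    rw [← (show Ideal.comap ι F = Ideal.comap ι G from h), Ideal.mem_comap, ← ht] at h1
    apply hgF
    have h2 := F.mul_mem_left (↑d⁻¹ : Q) h1
    rwa [← hd, ← mul_assoc, Units.inv_mul, one_mul] at h2
  have hwf : WellFoundedGT (Ideal Q) := hmono.wellFoundedGT
  have hcompl : ComplementedLattice (Submodule Q Q) := by
    constructor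
    intro F
    obtain ⟨G, hG, hmax⟩ := WellFounded.has_min
      (wellFounded_gt : WellFounded ((· > ·) : Ideal Q → Ideal Q → Prop))
      {G : Ideal Q | F ⊓ G = ⊥} ⟨⊥, inf_bot_eq F⟩
    have hess : ∀ q : Q, q ≠ 0 → ∃ r, r * q ≠ 0 ∧ r * q ∈ F ⊔ G := by
      intro q hq
      by_contra hcon
      push Not at hcon
      have hcon' : ∀ r, r * q ∈ F ⊔ G → r * q = 0 := by
        intro r hr
        by_contra h
        exact hcon r h hr
      have hqG : q ∉ G := by
        intro h
        apply hq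
        have h1 := hcon' 1 (by
          rw [one_mul]
          exact (le_sup_right : G ≤ F ⊔ G) h)
        rwa [one_mul] at h1
      apply hmax (G ⊔ Ideal.span {q})
      · change F ⊓ (G ⊔ Ideal.span {q}) = ⊥
        rw [eq_bot_iff]
        rintro w ⟨hw1, hw2⟩
        obtain ⟨g, hg, β, hβ, hgβ⟩ := Submodule.mem_sup.mp hw2
        obtain ⟨r, rfl⟩ := Ideal.mem_span_singleton'.mp hβ
        have h1 : r * q = w - g := by rw [← hgβ, add_sub_cancel_left]
        have h2 := hcon' r (by
          rw [h1]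
          exact Ideal.sub_mem _ ((le_sup_left : F ≤ F ⊔ G) hw1) ((le_sup_right : G ≤ F ⊔ G) hg))
        have h3 : w = g := by rw [← hgβ, h2, add_zero]
        have h4 : w ∈ F ⊓ G := ⟨hw1, by rw [h3]; exact hg⟩
        rwa [show F ⊓ G = ⊥ from hG] at h4
      · refine lt_of_le_of_ne le_sup_left fun h => hqG ?_
        rw [h]
        exact (le_sup_right : Ideal.span {q} ≤ G ⊔ Ideal.span {q})
          (Ideal.mem_span_singleton_self q)
    have hE : Ess (Ideal.comap ι (F ⊔ G)) := by
      intro x hx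
      have hx' : ι x ≠ 0 := by
        intro h
        apply hx
        apply hinj
        rw [h, map_zero]
      obtain ⟨r, hr1, hr2⟩ := hess _ hx'
      obtain ⟨c, t, ⟨d, hd⟩, ht⟩ := hl r
      have h1 : ι (t * x) = d * (r * ι x) := by rw [map_mul, ← ht, ← hd, mul_assoc]
      refine ⟨t, ?_, ?_⟩
      · intro h
        apply hr1
        rw [h, map_zero] at h1
        calc r * ι x = ↑d⁻¹ * (d * (r * ι x)) := by rw [← mul_assoc, Units.inv_mul, one_mul]
          _ = 0 := by rw [← h1, mul_zero]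
      · rw [Ideal.mem_comap, h1]
        exact Ideal.mul_mem_left _ _ hr2
    obtain ⟨c, hc, hc'⟩ := ess_exists hp hE
    refine ⟨G, ?_⟩
    rw [isCompl_iff, disjoint_iff, codisjoint_iff]
    refine ⟨hG, ?_⟩
    exact Ideal.eq_top_of_isUnit_mem _ hc (hu c hc')
  have hss : IsSemisimpleRing Q := (isSemisimpleModule_iff Q Q).mpr hcompl
  have hn : IsNoetherian Q Q := isNoetherian_iff'.mpr hwf
  exact inferInstance

theorem exists_ord [IsNoetherianRing T] [IsNoetherianRing Tᵐᵒᵖ] (hp : Prm T) :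
    ∃ (Q : Type v) (_ : Ring Q) (ι : T →+* Q), IsOrd ι ∧ IsArtinianRing Q ∧ Prm Q := by
  have hS : Nonempty (OreLocalization.OreSet (nonZeroDivisors T)) := by
    rw [OreLocalization.nonempty_oreSet_iff]
    refine ⟨fun r₁ r₂ s h => ⟨1, ?_⟩, fun r s => ?_⟩
    · have h1 : (r₁ - r₂) * s = 0 := by rw [sub_mul, h, sub_self]
      rw [sub_eq_zero.mp (s.2.2 _ h1)]
    · obtain ⟨c', hc', a', h⟩ := ore hp r s.2
      exact ⟨a', ⟨c', hc'⟩, h⟩
  obtain ⟨hS⟩ := hS
  set Q := OreLocalization (nonZeroDivisors T) T with hQ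
  set ι : T →+* Q := OreLocalization.numeratorRingHom with hι
  have hιv : ∀ t, ι t = OreLocalization.numeratorHom t := fun t => rfl
  have hinj : Function.Injective ι := OreLocalization.numeratorHom_inj inf_le_left
  have hu : ∀ c ∈ nonZeroDivisors T, IsUnit (ι c) := fun c hc =>
    OreLocalization.numerator_isUnit (⟨c, hc⟩ : nonZeroDivisors T)
  have hl : ∀ q : Q, ∃ c t : T, IsUnit (ι c) ∧ ι c * q = ι t := by
    intro q
    induction q using OreLocalization.ind with
    | _ r s =>
      refine ⟨s, r, hu _ s.2, ?_⟩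
      rw [hιv, hιv, OreLocalization.numeratorHom_apply, OreLocalization.numeratorHom_apply,
        OreLocalization.mul_cancel]
  have hr : ∀ q : Q, ∃ c t : T, IsUnit (ι c) ∧ q * ι c = ι t := by
    intro q
    obtain ⟨c, t, ⟨d, hd⟩, ht⟩ := hl q
    have hc : c ∈ nonZeroDivisors T := by
      refine ⟨fun x hx => ?_, fun x hx => ?_⟩
      · apply hinj
        have h1 := congrArg ι hx
        rw [map_mul, map_zero, ← hd] at h1
        rw [map_zero, ← one_mul (ι x), ← Units.inv_mul d, mul_assoc, h1, mul_zero]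
      · apply hinj
        have h1 := congrArg ι hx
        rw [map_mul, map_zero, ← hd] at h1
        rw [map_zero, ← mul_one (ι x), ← Units.mul_inv d, ← mul_assoc, h1, zero_mul]
    obtain ⟨c', hc', a', h⟩ := ore_right hp t hc
    refine ⟨c', a', hu _ hc', ?_⟩
    have h1 : (d : Q) * (q * ι c') = d * ι a' := by
      rw [← mul_assoc, hd, ht, ← map_mul, h, map_mul]
    calc q * ι c' = ↑d⁻¹ * (d * (q * ι c')) := by rw [← mul_assoc, Units.inv_mul, one_mul]
      _ = ι a' := by rw [h1, ← mul_assoc, Units.inv_mul, one_mul]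
  refine ⟨Q, inferInstance, ι, ⟨hinj, hl, hr⟩, artin_of_noeth hp ι hinj hu hl, ?_⟩
  intro a b hab
  obtain ⟨c, s, ⟨d, hd⟩, hs⟩ := hl a
  obtain ⟨c', t, ⟨d', hd'⟩, ht⟩ := hr b
  have h1 : ∀ r, s * r * t = 0 := by
    intro r
    apply hinj
    rw [map_mul, map_mul, ← hs, ← ht, map_zero]
    calc ι c * a * ι r * (b * ι c') = ι c * (a * ι r * b) * ι c' := by simp only [mul_assoc]
      _ = 0 := by rw [hab, mul_zero, zero_mul]
  rcases hp s t h1 with h2 | h2
  · left
    rw [h2, map_zero, ← hd] at hs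
    rw [← one_mul a, ← Units.inv_mul d, mul_assoc, hs, mul_zero]
  · right
    rw [h2, map_zero, ← hd'] at ht
    rw [← mul_one b, ← Units.mul_inv d', ← mul_assoc, ht, zero_mul]

end Ex

end SepNoe
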