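import Pool.Agent.Lib.MP_dccecd_al.FinUnit
import Pool.Agent.Lib.MP_dccecd_al.NoeOrd

/-! Small functions, and the invariant of units of the ring of quotients (for MP_dccecd_al, the
noetherian base theorem). -/

open SepReg SepFin

namespace SepNoe

universe u v w

section Mono
variable {T : Type v} [Ring T] {R : Type u} [Ring R] [VNR R]

theorem gam_mono (c a : T) (C : Bim T R) : Le (gam c C) (gam (c * a) C) := by
  have hle : LinearMap.range (C.act (c * a)) ≤ (LinearMap.range (C.act c)).comap LinearMap.id := by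
    rintro _ ⟨v, rfl⟩
    rw [C.act_mul]
    exact ⟨_, rfl⟩
  refine le_of_surj (Submodule.mapQ _ _ LinearMap.id hle) ?_
  intro x
  obtain ⟨v, rfl⟩ := Submodule.mkQ_surjective _ x
  exact ⟨Submodule.Quotient.mk v, rfl⟩

theorem kap_mono (a c : T) (C : Bim T R) : Le (kap c C) (kap (a * c) C) := by
  have hle : LinearMap.ker (C.act c) ≤ LinearMap.ker (C.act (a * c)) := by
    intro x hx
    rw [LinearMap.mem_ker] at hx ⊢
    rw [C.act_mul, hx, map_zero]
  exact le_of_inj (Submodule.inclusion hle) (Submodule.inclusion_injective hle)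

end Mono

section Com
variable {T : Type v} [Ring T] {Q : Type w} [Ring Q] {ι : T →+* Q}

theorem IsOrd.comR (h : IsOrd ι) {c d : T} (hc : IsUnit (ι c)) (hd : IsUnit (ι d)) :
    ∃ m a b, IsUnit (ι m) ∧ m = c * a ∧ m = d * b := by
  obtain ⟨γ, hγ⟩ := hc
  obtain ⟨n, t, hn, ht⟩ := h.right (↑γ⁻¹ * ι d)
  refine ⟨d * n, t, n, ?_, ?_, rfl⟩
  · rw [map_mul]
    exact hd.mul hn
  · apply h.inj
    rw [map_mul, map_mul, ← ht, ← hγ, ← mul_assoc, ← mul_assoc, Units.mul_inv, one_mul]

theorem IsOrd.comL (h : IsOrd ι) {c d : T} (hc : IsUnit (ι c)) (hd : IsUnit (ι d)) :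
    ∃ m a b, IsUnit (ι m) ∧ m = a * c ∧ m = b * d := by
  obtain ⟨γ, hγ⟩ := hc
  obtain ⟨n, t, hn, ht⟩ := h.left (ι d * ↑γ⁻¹)
  refine ⟨n * d, t, n, ?_, ?_, rfl⟩
  · rw [map_mul]
    exact hn.mul hd
  · apply h.inj
    rw [map_mul, map_mul, ← ht, ← hγ, mul_assoc, mul_assoc, Units.inv_mul, mul_one]

theorem isUnit_left {a b : Q} (hb : IsUnit b) (hab : IsUnit (a * b)) : IsUnit a := by
  obtain ⟨β, rfl⟩ := hb
  obtain ⟨γ, hγ⟩ := hab
  refine ⟨γ * β⁻¹, ?_⟩
  rw [Units.val_mul, hγ, mul_assoc, Units.mul_inv, mul_one]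

theorem isUnit_right {a b : Q} (ha : IsUnit a) (hab : IsUnit (a * b)) : IsUnit b := by
  obtain ⟨β, rfl⟩ := ha
  obtain ⟨γ, hγ⟩ := hab
  refine ⟨β⁻¹ * γ, ?_⟩
  rw [Units.val_mul, hγ, ← mul_assoc, Units.inv_mul, one_mul]

end Com

section Chi
variable {T : Type v} [Ring T] {Q : Type w} [Ring Q] {ι : T →+* Q} (R : Type u) [Ring R] [VNR R]

/-- the functions which are bounded by a multiple of the classes of the kernel and of the cokernel
of some regular element -/
def smallR (h : IsOrd ι) : AddSubmonoid (Bim T R → VR R) where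
  carrier := {s | ∃ c : T, IsUnit (ι c) ∧ ∃ b : ℕ, ∀ C, Le (s C) (b • (gam c C + kap c C))}
  add_mem' := by
    rintro s t ⟨c, hc, b, hs⟩ ⟨d, hd, b', ht⟩
    obtain ⟨m, a1, a2, hm, hm1, hm2⟩ := h.comR hc hd
    obtain ⟨n, b1, b2, hn, hn1, hn2⟩ := h.comL hc hd
    refine ⟨m * n, by rw [map_mul]; exact hm.mul hn, b + b', fun C => ?_⟩
    rw [add_nsmul]
    refine Le.add ((hs C).trans (Le.nsmul ?_ b)) ((ht C).trans (Le.nsmul ?_ b'))
    · refine Le.add ?_ ?_
      · rw [hm1, mul_assoc]
        exact gam_mono _ _ C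
      · rw [hn1, ← mul_assoc]
        exact kap_mono _ _ C
    · refine Le.add ?_ ?_
      · rw [hm2, mul_assoc]
        exact gam_mono _ _ C
      · rw [hn2, ← mul_assoc]
        exact kap_mono _ _ C
  zero_mem' := ⟨1, by rw [map_one]; exact isUnit_one, 0, fun C => ⟨_, zero_add _⟩⟩

variable {R}

theorem kap_memR (h : IsOrd ι) {t : T} (ht : IsUnit (ι t)) : kap t ∈ smallR R h :=
  ⟨t, ht, 1, fun C => by rw [one_nsmul]; exact Le.right _ _⟩

theorem gam_memR (h : IsOrd ι) {t : T} (ht : IsUnit (ι t)) : gam t ∈ smallR R h :=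
  ⟨t, ht, 1, fun C => by rw [one_nsmul]; exact Le.left _ _⟩

variable (R)

open Classical in
/-- the difference of the cokernel and kernel classes -/
noncomputable def chi (h : IsOrd ι) (t : T) : Algebra.GrothendieckAddGroup (smallR R h) :=
  if ht : IsUnit (ι t) then
    Algebra.GrothendieckAddGroup.of (⟨gam t, gam_memR h ht⟩ : smallR R h) -
      Algebra.GrothendieckAddGroup.of (⟨kap t, kap_memR h ht⟩ : smallR R h)
  else 0

variable {R}

theorem isUnit_mul' {s t : T} (hs : IsUnit (ι s)) (ht : IsUnit (ι t)) : IsUnit (ι (s * t)) := by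
  rw [map_mul]
  exact hs.mul ht

theorem chi_mul (h : IsOrd ι) {s t : T} (hs : IsUnit (ι s)) (ht : IsUnit (ι t)) :
    chi R h (s * t) = chi R h s + chi R h t := by
  have hst := isUnit_mul' hs ht
  have h1 : (⟨kap t, kap_memR h ht⟩ + ⟨kap s, kap_memR h hs⟩ + ⟨gam (s * t), gam_memR h hst⟩ :
      smallR R h) =
      ⟨kap (s * t), kap_memR h hst⟩ + ⟨gam t, gam_memR h ht⟩ + ⟨gam s, gam_memR h hs⟩ :=
    Subtype.ext (six_fun s t)
  have h2 := congrArg (Algebra.GrothendieckAddGroup.of (M := smallR R h)) h1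
  rw [map_add, map_add, map_add, map_add] at h2
  rw [chi, chi, chi, dif_pos hst, dif_pos hs, dif_pos ht, sub_add_sub_comm,
    sub_eq_sub_iff_add_eq_add]
  rw [← sub_eq_zero] at h2 ⊢
  rw [← h2]
  abel

theorem chi_unit (h : IsOrd ι) {s t : T} (h1 : s * t = 1) (h2 : t * s = 1) : chi R h s = 0 := by
  have hM : IsUnit (ι s) := ⟨⟨ι s, ι t, by rw [← map_mul, h1, map_one], by
    rw [← map_mul, h2, map_one]⟩, rfl⟩
  rw [chi, dif_pos hM, sub_eq_zero]
  congr 1
  apply Subtype.ext
  change gam s = kap s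
  rw [kap_unit h2, gam_unit h1]

theorem chi_one (h : IsOrd ι) : chi R h (1 : T) = 0 := chi_unit h (one_mul 1) (one_mul 1)

variable (R) in
/-- the invariant of a unit of the ring of quotients -/
noncomputable def rho (h : IsOrd ι) (g : Qˣ) : Algebra.GrothendieckAddGroup (smallR R h) :=
  chi R h (h.left g).choose_spec.choose - chi R h (h.left g).choose

theorem isUnit_num {g : Qˣ} {c t : T} (hc : IsUnit (ι c)) (ht : ι c * g = ι t) :
    IsUnit (ι t) := by
  rw [← ht]
  exact hc.mul g.isUnit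

theorem rho_aux (h : IsOrd ι) {g : Qˣ} {c t c' t' : T} (hc : IsUnit (ι c)) (ht : ι c * g = ι t)
    (hc' : IsUnit (ι c')) (ht' : ι c' * g = ι t') :
    chi R h t' - chi R h c' = chi R h t - chi R h c := by
  obtain ⟨m, a, b, hm, hm1, hm2⟩ := h.comL hc hc'
  have ha : IsUnit (ι a) := isUnit_left hc (by rw [← map_mul, ← hm1]; exact hm)
  have hb : IsUnit (ι b) := isUnit_left hc' (by rw [← map_mul, ← hm2]; exact hm)
  have h1 : a * t = b * t' := by
    apply h.inj
    rw [map_mul, map_mul, ← ht, ← ht', ← mul_assoc, ← mul_assoc, ← map_mul, ← map_mul, ← hm1,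
      ← hm2]
  have h2 := congrArg (chi R h) h1
  rw [chi_mul h ha (isUnit_num hc ht), chi_mul h hb (isUnit_num hc' ht')] at h2
  have h3 := congrArg (chi R h) (hm1.symm.trans hm2)
  rw [chi_mul h ha hc, chi_mul h hb hc'] at h3
  rw [sub_eq_sub_iff_add_eq_add]
  have h4 : chi R h t' = chi R h a + chi R h t - chi R h b := by rw [h2]; abel
  have h5 : chi R h c' = chi R h a + chi R h c - chi R h b := by rw [h3]; abel
  rw [h4, h5]
  abel

theorem rho_spec (h : IsOrd ι) {g : Qˣ} {c t : T} (hc : IsUnit (ι c)) (ht : ι c * g = ι t) :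
    rho R h g = chi R h t - chi R h c :=
  rho_aux h hc ht (h.left g).choose_spec.choose_spec.1 (h.left g).choose_spec.choose_spec.2

theorem rho_of (h : IsOrd ι) {g : Qˣ} {t : T} (ht : (g : Q) = ι t) : rho R h g = chi R h t := by
  rw [rho_spec (R := R) h (c := 1) (t := t) (by rw [map_one]; exact isUnit_one)
    (by rw [map_one, one_mul, ht]), chi_one, sub_zero]

theorem rho_mul (h : IsOrd ι) (g g' : Qˣ) : rho R h (g * g') = rho R h g + rho R h g' := by
  obtain ⟨c, t, hc, ht⟩ := h.left g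
  obtain ⟨d, s, hd, hs⟩ := h.left g'
  have hut := isUnit_num hc ht
  have hus := isUnit_num hd hs
  -- `t * d⁻¹ = d'⁻¹ * t'`
  obtain ⟨m, t', d', hm, hm1, hm2⟩ := h.comL hd hut
  have hd' : IsUnit (ι d') := isUnit_left hut (by rw [← map_mul, ← hm2]; exact hm)
  have ht' : IsUnit (ι t') := isUnit_left hd (by rw [← map_mul, ← hm1]; exact hm)
  have h1 := congrArg (chi R h) (hm1.symm.trans hm2)
  rw [chi_mul h ht' hd, chi_mul h hd' hut] at h1
  rw [rho_spec h hc ht, rho_spec h hd hs, rho_spec h (c := d' * c) (t := t' * s)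
    (isUnit_mul' hd' hc), chi_mul h hd' hc, chi_mul h ht' hus]
  · have h4 : chi R h t = chi R h t' + chi R h d - chi R h d' := by rw [h1]; abel
    rw [h4]
    abel
  · rw [Units.val_mul]
    calc ι (d' * c) * (↑g * ↑g') = ι d' * (ι c * g) * g' := by
          rw [map_mul]
          simp only [mul_assoc]
      _ = ι (d' * t) * g' := by rw [ht, map_mul]
      _ = ι t' * (ι d * g') := by rw [← hm2, hm1, map_mul, mul_assoc]
      _ = ι (t' * s) := by rw [hs, map_mul]

theorem rho_one (h : IsOrd ι) : rho R h 1 = 0 := by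
  have h1 := rho_mul (R := R) h 1 1
  rw [mul_one] at h1
  exact left_eq_add.mp h1

theorem rho_inv (h : IsOrd ι) (g : Qˣ) : rho R h g⁻¹ = - rho R h g := by
  have h1 := rho_mul (R := R) h g g⁻¹
  rw [mul_inv_cancel, rho_one] at h1
  rw [eq_neg_iff_add_eq_zero, add_comm]
  exact h1.symm

end Chi

section Tr
variable {T : Type v} [Ring T] {Q : Type w} [Ring Q] {ι : T →+* Q} {R : Type u} [Ring R] [VNR R]

/-- the unit supported on a minimal idempotent -/
theorem exists_gα {s α : Q} (hs : Mn s) (h1 : s * α = α) (h2 : α * s = α) (h0 : α ≠ 0) :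
    ∃ D : Qˣ, (D : Q) = α + (1 - s) := by
  obtain ⟨β, sβ, βs, hβα, hαβ⟩ := hs.pair hs h1 h2 h0
  have c1 : (1 - s) * β = 0 := by rw [sub_mul, one_mul, sβ, sub_self]
  have c2 : β * (1 - s) = 0 := by rw [mul_sub, mul_one, βs, sub_self]
  have c3 : (1 - s) * α = 0 := by rw [sub_mul, one_mul, h1, sub_self]
  have c4 : α * (1 - s) = 0 := by rw [mul_sub, mul_one, h2, sub_self]
  have c5 : (1 - s) * (1 - s) = 1 - s := by
    rw [mul_sub, mul_one, sub_mul, one_mul, hs.idem, sub_self, sub_zero]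
  exact ⟨{ val := α + (1 - s)
           inv := β + (1 - s)
           val_inv := by
            rw [add_mul, mul_add, mul_add, hαβ, c4, c1, c5, add_zero, zero_add, add_sub_cancel]
           inv_val := by
            rw [add_mul, mul_add, mul_add, hβα, c2, c3, c5, add_zero, zero_add,
              add_sub_cancel] }, rfl⟩

theorem rho_conjL (h : IsOrd ι) {s α N : Q} (hs : Mn s) (h1 : s * α = α) (h2 : α * s = α)
    (h0 : α ≠ 0) (hN1 : s * N = N) (hN2 : N * s = 0) (hN : N * N = 0)
    (hαN : α * N * (α * N) = 0) : rho R h (tr (α * N) hαN) = rho R h (tr N hN) := by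
  obtain ⟨D, hD⟩ := exists_gα hs h1 h2 h0
  have e1 : D * tr N hN = tr (α * N) hαN * D := by
    apply Units.ext
    rw [Units.val_mul, Units.val_mul, tr_val, tr_val, hD]
    have q1 : (1 - s) * N = 0 := by rw [sub_mul, one_mul, hN1, sub_self]
    have q2 : N * α = 0 := by rw [← h1, ← mul_assoc, hN2, zero_mul]
    have q3 : N * (α + (1 - s)) = N := by rw [mul_add, q2, mul_sub, mul_one, hN2, sub_zero, zero_add]
    rw [mul_add, mul_one, add_mul α, q1, add_zero, add_mul, one_mul, mul_assoc, q3]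
  have e2 := congrArg (rho R h) e1
  rw [rho_mul, rho_mul, add_comm] at e2
  exact (add_right_cancel e2).symm

theorem rho_conjR (h : IsOrd ι) {s α N : Q} (hs : Mn s) (h1 : s * α = α) (h2 : α * s = α)
    (h0 : α ≠ 0) (hN1 : N * s = N) (hN2 : s * N = 0) (hN : N * N = 0)
    (hαN : N * α * (N * α) = 0) : rho R h (tr (N * α) hαN) = rho R h (tr N hN) := by
  obtain ⟨D, hD⟩ := exists_gα hs h1 h2 h0
  have e1 : tr N hN * D = D * tr (N * α) hαN := by
    apply Units.ext
    rw [Units.val_mul, Units.val_mul, tr_val, tr_val, hD]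
    have q1 : N * (1 - s) = 0 := by rw [mul_sub, mul_one, hN1, sub_self]
    have q2 : α * N = 0 := by rw [← h2, mul_assoc, hN2, mul_zero]
    have q3 : (α + (1 - s)) * N = N := by rw [add_mul, q2, sub_mul, one_mul, hN2, sub_zero, zero_add]
    rw [add_mul, one_mul, mul_add N, q1, add_zero, mul_add, mul_one, ← mul_assoc, q3]
  have e2 := congrArg (rho R h) e1
  rw [rho_mul, rho_mul, add_comm] at e2
  exact (add_left_cancel e2).symm

/-- over the field with two elements all is finite -/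
theorem fin_of_two [IsArtinianRing Q] (hp : Prm Q) {s : Q} (hs : Mn s)
    (hD : ∀ α, s * α = α → α * s = α → α = 0 ∨ α = s) : Finite Q := by
  have h1 := full hp hs.ne _ (1 : Q) rfl (one_mul 1)
  rw [Ideal.span, Finsupp.mem_span_range_iff_exists_finsupp] at h1
  obtain ⟨c, hc⟩ := h1
  have hc' : (∑ i ∈ c.support, c i * (s * i)) = 1 := hc
  classical
  apply Finite.of_injective (β := (c.support × c.support) → Prop)
    (fun q => fun p => s * (p.1 : Q) * q * c p.2 * s = 0)
  intro q q' hqq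
  have key : ∀ i ∈ c.support, ∀ j ∈ c.support, s * i * q * c j * s = s * i * q' * c j * s := by
    intro i hi j hj
    have h2 : (s * i * q * c j * s = 0) = (s * i * q' * c j * s = 0) :=
      congrFun hqq (⟨i, hi⟩, ⟨j, hj⟩)
    have h3 : ∀ r : Q, s * (s * i * r * c j * s) = s * i * r * c j * s := by
      intro r
      simp only [← mul_assoc]
      rw [hs.idem]
    have h4 : ∀ r : Q, s * i * r * c j * s * s = s * i * r * c j * s := by
      intro r
      rw [mul_assoc, hs.idem]
    by_cases h5 : s * i * q * c j * s = 0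
    · rw [h5]
      rw [h2] at h5
      exact h5.symm
    · have h6 : s * i * q' * c j * s ≠ 0 := by rwa [h2] at h5
      rw [(hD _ (h3 q) (h4 q)).resolve_left h5, (hD _ (h3 q') (h4 q')).resolve_left h6]
  have exp : ∀ r : Q, r = ∑ i ∈ c.support, ∑ j ∈ c.support, c i * (s * i * r * c j * s) * j := by
    intro r
    calc r = (∑ i ∈ c.support, c i * (s * i)) * r * (∑ j ∈ c.support, c j * (s * j)) := by
          rw [hc', one_mul, mul_one]
      _ = ∑ i ∈ c.support, ∑ j ∈ c.support, c i * (s * i) * r * (c j * (s * j)) := by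
          rw [Finset.sum_mul, Finset.sum_mul]
          exact Finset.sum_congr rfl fun i _ => Finset.mul_sum _ _ _
      _ = _ := by
          refine Finset.sum_congr rfl fun i _ => Finset.sum_congr rfl fun j _ => ?_
          simp only [mul_assoc]
  rw [exp q, exp q']
  exact Finset.sum_congr rfl fun i hi => Finset.sum_congr rfl fun j hj => by rw [key i hi j hj]

theorem rho_fin (h : IsOrd ι) [Finite Q] (g : Qˣ) : rho R h g = 0 := by
  have hT : Finite T := Finite.of_injective ι h.inj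
  have h1 : ∀ c : T, IsUnit (ι c) → chi R h c = 0 := by
    rintro c ⟨γ, hγ⟩
    have hinj : Function.Injective fun x : T => c * x := by
      intro x y hxy
      apply h.inj
      have h2 : ι c * ι x = ι c * ι y := by
        rw [← map_mul, ← map_mul]
        exact congrArg ι hxy
      rw [← hγ] at h2
      exact (Units.mul_right_inj γ).mp h2
    obtain ⟨d, hd⟩ := (Finite.injective_iff_surjective.mp hinj) 1
    have hd' : c * d = 1 := hd
    apply chi_unit h hd'
    apply hinj
    change c * (d * c) = c * 1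
    rw [← mul_assoc, hd', one_mul, mul_one]
  obtain ⟨c, t, hc, ht⟩ := h.left g
  rw [rho_spec h hc ht, h1 c hc, h1 t (isUnit_num hc ht), sub_zero]

theorem rho_tr (h : IsOrd ι) [IsArtinianRing Q] (hp : Prm Q) {s N : Q} (hs : Mn s)
    (hN : N * N = 0) (h1 : (s * N = N ∧ N * s = 0) ∨ (N * s = N ∧ s * N = 0)) :
    rho R h (tr N hN) = 0 := by
  by_cases hD : ∀ α, s * α = α → α * s = α → α = 0 ∨ α = s
  · have := fin_of_two hp hs hD
    exact rho_fin h _
  push Not at hD
  obtain ⟨α, a1, a2, a3, a4⟩ := hD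
  have a5 : α - s ≠ 0 := sub_ne_zero.mpr a4
  have a6 : s * (α - s) = α - s := by rw [mul_sub, a1, hs.idem]
  have a7 : (α - s) * s = α - s := by rw [sub_mul, a2, hs.idem]
  rcases h1 with ⟨h1, h2⟩ | ⟨h1, h2⟩
  · have q : ∀ γ : Q, s * γ = γ → γ * N * (γ * N) = 0 := by
      intro γ hγ
      have q2 : N * γ = 0 := by rw [← hγ, ← mul_assoc, h2, zero_mul]
      rw [mul_assoc, ← mul_assoc N, q2, zero_mul, mul_zero]
    have e1 := rho_conjL (R := R) h hs a1 a2 a3 h1 h2 hN (q α a1)
    have e2 := rho_conjL (R := R) h hs a6 a7 a5 h1 h2 hN (q _ a6)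
    have e3 : tr (α * N) (q α a1) = tr ((α - s) * N) (q _ a6) * tr N hN := by
      apply Units.ext
      rw [Units.val_mul, tr_val, tr_val, tr_val]
      have q3 : (α - s) * N * N = 0 := by rw [mul_assoc, hN, mul_zero]
      rw [mul_add, mul_one, add_mul, one_mul, q3, add_zero, sub_mul, h1]
      abel
    have e4 := congrArg (rho R h) e3
    rw [rho_mul, e1, e2] at e4
    exact left_eq_add.mp e4
  · have q : ∀ γ : Q, γ * s = γ → N * γ * (N * γ) = 0 := by
      intro γ hγ
      have q2 : γ * N = 0 := by rw [← hγ, mul_assoc, h2, mul_zero]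
      rw [mul_assoc, ← mul_assoc γ, q2, zero_mul, mul_zero]
    have e1 := rho_conjR (R := R) h hs a1 a2 a3 h1 h2 hN (q α a2)
    have e2 := rho_conjR (R := R) h hs a6 a7 a5 h1 h2 hN (q _ a7)
    have e3 : tr (N * α) (q α a2) = tr N hN * tr (N * (α - s)) (q _ a7) := by
      apply Units.ext
      rw [Units.val_mul, tr_val, tr_val, tr_val]
      have q3 : N * (N * (α - s)) = 0 := by rw [← mul_assoc, hN, zero_mul]
      rw [mul_add, mul_one, add_mul, one_mul, q3, add_zero, mul_sub, h1]
      abel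
    have e4 := congrArg (rho R h) e3
    rw [rho_mul, e1, e2] at e4
    exact left_eq_add.mp e4

end Tr
end SepNoe
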