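import Pool.Agent.Lib.MP_dccecd_al.NoeUF

/-! Sequences of idempotents of a ring which is noetherian on both sides: if the traces of the tails
contain an idempotent `e`, then every multiple of the image of `e` is dominated by finitely many of
the images of the idempotents (for MP_dccecd_al, the noetherian base theorem). -/

open SepReg SepFin

namespace SepNoe

universe u v w

section Noeth
variable {T : Type v} [Ring T]

/-- prime factor rings -/
theorem prm_quot (I : Ideal T) [I.IsTwoSided]
    (hp : ∀ a b : T, (∀ t, a * t * b ∈ I) → a ∈ I ∨ b ∈ I) : Prm (T ⧸ I) := by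
  intro a b hab
  obtain ⟨a, rfl⟩ := Ideal.Quotient.mk_surjective a
  obtain ⟨b, rfl⟩ := Ideal.Quotient.mk_surjective b
  rcases hp a b (fun t => Ideal.Quotient.eq_zero_iff_mem.mp (by
    rw [map_mul, map_mul]
    exact hab _)) with h | h
  · exact Or.inl (Ideal.Quotient.eq_zero_iff_mem.mpr h)
  · exact Or.inr (Ideal.Quotient.eq_zero_iff_mem.mpr h)

theorem noe_quot (I : Ideal T) [I.IsTwoSided] [IsNoetherianRing T] : IsNoetherianRing (T ⧸ I) :=
  isNoetherianRing_of_surjective T _ (Ideal.Quotient.mk I) Ideal.Quotient.mk_surjective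

theorem noe_quot_op (I : Ideal T) [I.IsTwoSided] [IsNoetherianRing Tᵐᵒᵖ] :
    IsNoetherianRing (T ⧸ I)ᵐᵒᵖ := by
  refine isNoetherianRing_of_surjective Tᵐᵒᵖ _ (Ideal.Quotient.mk I).op ?_
  intro q
  obtain ⟨t, ht⟩ := Ideal.Quotient.mk_surjective (I := I) q.unop
  exact ⟨MulOpposite.op t, MulOpposite.unop_injective ht⟩

variable {R : Type u} [Ring R] [VNR R] [IsNoetherianRing T] [IsNoetherianRing Tᵐᵒᵖ]

theorem dom_all {e : T} (he : e * e = e) {es : ℕ → T} (hes : ∀ k, es k * es k = es k)
    (hsup : ∀ P : Ideal T, P.IsTwoSided → ∀ m, (∀ k, m ≤ k → es k ∈ P) → e ∈ P) (b m : ℕ) :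
    ∃ N, m ≤ N ∧ ∀ L : Bim T R, Le (b • pp e L) (∑ k ∈ Finset.Ico m N, pp (es k) L) := by
  have key : ∀ I : Ideal T, ∀ b m : ℕ, ∃ N, m ≤ N ∧ ∀ L : Bim T R, (∀ t ∈ I, L.act t = 0) →
      Le (b • pp e L) (∑ k ∈ Finset.Ico m N, pp (es k) L) := by
    intro I
    induction I using IsNoetherian.induction with
    | hgt I ih =>
      intro b m
      by_cases hI2 : Ideal.IsTwoSided I
      swap
      · -- an ideal which is not two-sided
        obtain ⟨a, t, ha, hat⟩ : ∃ a t, a ∈ I ∧ a * t ∉ I := by
          by_contra h
          push Not at h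
          exact hI2 ⟨fun {a} t ha => h a t ha⟩
        obtain ⟨N, hN, hL⟩ := ih _ (lt_sup hat) b m
        refine ⟨N, hN, fun L hk => hL L (kill_sup hk ?_)⟩
        rw [map_mul, hk a ha, zero_mul]
      by_cases hp : ∀ a b : T, (∀ t, a * t * b ∈ I) → a ∈ I ∨ b ∈ I
      · -- the prime case
        by_cases heI : e ∈ I
        · refine ⟨m, le_rfl, fun L hL => ?_⟩
          rw [pp_kill L (hL e heI), nsmul_zero]
          exact ⟨_, zero_add _⟩
        have hn1 : IsNoetherianRing (T ⧸ I) := noe_quot I
        have hn2 : IsNoetherianRing (T ⧸ I)ᵐᵒᵖ := noe_quot_op I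
        obtain ⟨N1, hmN, J, hJ, hJ0, c, hc⟩ := prime_dom (R := R) (prm_quot I hp)
          (e := Ideal.Quotient.mk I e) (by rw [← map_mul, he])
          (fun h => heI (Ideal.Quotient.eq_zero_iff_mem.mp h))
          (es := fun k => Ideal.Quotient.mk I (es k)) (by
            intro m'
            by_contra hcon
            push Not at hcon
            exact heI (hsup I hI2 m' fun k hk => Ideal.Quotient.eq_zero_iff_mem.mp (hcon k hk)))
          b m
        obtain ⟨q, hq, hq0⟩ := Submodule.exists_mem_ne_zero_of_ne_bot hJ0
        obtain ⟨a, rfl⟩ := Ideal.Quotient.mk_surjective q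
        have haI : a ∉ I := fun h => hq0 (Ideal.Quotient.eq_zero_iff_mem.mpr h)
        obtain ⟨N2, hN2, h2⟩ := ih _ (lt_sup haI) c N1
        obtain ⟨N3, hN3, h3⟩ := ih _ (lt_sup haI) c N2
        refine ⟨N3, hmN.trans (hN2.trans hN3), fun L hL => ?_⟩
        have hkill : ∀ E : Bim (T ⧸ I) R, (∀ t ∈ J, E.act t = 0) →
            ∀ t ∈ I ⊔ Ideal.span {a}, (E.res (Ideal.Quotient.mk I)).act t = 0 := by
          intro E hE
          apply kill_sup
          · intro t ht
            change E.act (Ideal.Quotient.mk I t) = 0
            rw [Ideal.Quotient.eq_zero_iff_mem.mpr ht, map_zero]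
          · exact hE _ hq
        have e1 : Le (b • pp e L) ((∑ k ∈ Finset.Ico m N1, pp (es k) L) +
            c • (pp (Ideal.Quotient.mk I e) (mulQ J (L.fac I hL)) +
              pp (Ideal.Quotient.mk I e) (annB J (L.fac I hL)))) := hc (L.fac I hL)
        have e2 : Le (c • pp (Ideal.Quotient.mk I e) (mulQ J (L.fac I hL)))
            (∑ k ∈ Finset.Ico N1 N2, pp (es k) L) := by
          have e3 := h2 ((mulQ J (L.fac I hL)).res (Ideal.Quotient.mk I))
            (hkill _ (mulQ_kill J _))
          refine Le.trans e3 (Le.sum _ fun k _ => ?_)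
          exact pp_quo_le (L.fac I hL) (mulC (J : Set (T ⧸ I)) (L.fac I hL))
            (mulC_stable J (L.fac I hL)) (Ideal.Quotient.mk I (es k))
        have e4 : Le (c • pp (Ideal.Quotient.mk I e) (annB J (L.fac I hL)))
            (∑ k ∈ Finset.Ico N2 N3, pp (es k) L) := by
          have e3 := h3 ((annB J (L.fac I hL)).res (Ideal.Quotient.mk I))
            (hkill _ (annB_kill J _))
          refine Le.trans e3 (Le.sum _ fun k _ => ?_)
          exact pp_sub_le (L.fac I hL) (annC (J : Set (T ⧸ I)) (L.fac I hL))
            (annC_stable J (L.fac I hL)) (Ideal.Quotient.mk I (es k))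
        refine e1.trans ?_
        rw [← Finset.sum_Ico_consecutive (fun k => pp (es k) L) (hmN.trans hN2) hN3,
          ← Finset.sum_Ico_consecutive (fun k => pp (es k) L) hmN hN2, nsmul_add, ← add_assoc]
        exact (Le.rfl'.add e2).add e4
      · push Not at hp
        obtain ⟨a, a', hab, ha, ha'⟩ := hp
        have hab' : ∀ t ∈ tsp a', ∀ s : T, a * s * t ∈ I := by
          intro t ht
          induction ht using Submodule.span_induction with
          | mem t ht =>
            obtain ⟨v, rfl⟩ := ht
            intro s
            rw [← mul_assoc]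
            exact hI2.mul_mem_of_left v (hab s)
          | zero =>
            intro s
            rw [mul_zero]
            exact I.zero_mem
          | add p q _ _ hp hq =>
            intro s
            rw [mul_add]
            exact I.add_mem (hp s) (hq s)
          | smul r p _ hp =>
            intro s
            rw [smul_eq_mul, ← mul_assoc, mul_assoc a]
            exact hp _
        obtain ⟨N1, hN1, h1⟩ := ih _ (lt_sup ha) b m
        obtain ⟨N2, hN2, h2⟩ := ih _ (lt_sup ha') b m
        refine ⟨max N1 N2, hN1.trans (le_max_left _ _), fun L hL => ?_⟩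
        have sp : ∀ {e : T}, e * e = e → pp e L = pp e (mulB (tsp a') L) + pp e (mulQ (tsp a') L) :=
          fun he => pp_split L (mulC (tsp a' : Set T) L) (mulC_stable (tsp a') L) he
        have k1 := h1 (mulB (tsp a') L) (kill_sup (by
            intro t ht
            apply LinearMap.ext
            intro v
            apply Subtype.ext
            change L.act t v.1 = 0
            rw [hL t ht, LinearMap.zero_apply]) (by
            apply LinearMap.ext
            intro v
            apply Subtype.ext
            change L.act a v.1 = 0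
            have h2 : mulC (tsp a' : Set T) L ≤ LinearMap.ker (L.act a) := by
              apply mulC_le
              intro t ht x
              rw [LinearMap.mem_ker, ← L.act_mul, hL _ (by
                have h3 := hab' t ht 1
                rwa [mul_one] at h3), LinearMap.zero_apply]
            exact h2 v.2))
        have k2 := h2 (mulQ (tsp a') L) (kill_sup (by
            intro t ht
            apply LinearMap.ext
            intro v
            obtain ⟨w, rfl⟩ := Submodule.mkQ_surjective _ v
            change Submodule.Quotient.mk (L.act t w) = 0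
            rw [hL t ht, LinearMap.zero_apply]
            rfl) (mulQ_kill (tsp a') L a' (mem_tsp a')))
        have k3 : ∑ k ∈ Finset.Ico m (max N1 N2), pp (es k) L =
            ∑ k ∈ Finset.Ico m (max N1 N2), pp (es k) (mulB (tsp a') L) +
              ∑ k ∈ Finset.Ico m (max N1 N2), pp (es k) (mulQ (tsp a') L) := by
          rw [← Finset.sum_add_distrib]
          exact Finset.sum_congr rfl fun k _ => sp (hes k)
        rw [k3, sp he, nsmul_add]
        exact (k1.trans (Le.sum_sub (Finset.Ico_subset_Ico_right (le_max_left _ _)) _)).add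
          (k2.trans (Le.sum_sub (Finset.Ico_subset_Ico_right (le_max_right _ _)) _))
  obtain ⟨N, hN, h⟩ := key ⊥ b m
  exact ⟨N, hN, fun L => h L (by
    intro t ht
    rw [Ideal.mem_bot] at ht
    rw [ht, map_zero])⟩

end Noeth

end SepNoe
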