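import Pool.Agent.Lib.MP_dccecd_al.NoeAbs
import Pool.Agent.Lib.MP_dccecd_al.FinMain

/-! Noetherian induction for rings which are noetherian on both sides and whose prime factor rings
have enough central elements (for MP_dccecd_al, the noetherian base theorem). -/

open SepReg SepFin

namespace SepNoe

universe u v w

/-- for every prime ideal `P`, every ideal which is not contained in `P` contains an ideal `J` which
is not contained in `P` and satisfies `z J ⊆ J ^ 2 + P` for some `z ∉ P` which is central
modulo `P` -/
def Cen (T : Type v) [Ring T] : Prop :=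
  ∀ P : Ideal T, P.IsTwoSided → (∀ a b : T, (∀ t, a * t * b ∈ P) → a ∈ P ∨ b ∈ P) →
    ∀ I : Ideal T, I.IsTwoSided → ¬ I ≤ P → ∃ J : Ideal T, J.IsTwoSided ∧ J ≤ I ∧ ¬ J ≤ P ∧
      ∃ z : T, z ∉ P ∧ (∀ t, z * t - t * z ∈ P) ∧ ∀ j ∈ J, z * j ∈ J * J ⊔ P

section Prime
variable {T : Type v} [Ring T] {R : Type u} [Ring R] [VNR R] [IsNoetherianRing T]
  [IsNoetherianRing Tᵐᵒᵖ]

theorem prime_noe (hpT : Prm T)
    (hH : ∀ I : Ideal T, I.IsTwoSided → I ≠ ⊥ → ∃ J : Ideal T, J.IsTwoSided ∧ J ≤ I ∧ J ≠ ⊥ ∧
      ∃ z : T, z ≠ 0 ∧ (∀ t, z * t = t * z) ∧ ∀ j ∈ J, z * j ∈ J * J)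
    {e f x y : T} (he : e * e = e) (hf : f * f = f) (hxy : x * y = 1 - e) (hyx : y * x = 1 - f)
    (h3 : ∀ (E : Bim T R) (J : Ideal T), J.IsTwoSided → J ≠ ⊥ → (∀ t ∈ J, E.act t = 0) →
      pp e E = pp f E) (C : Bim T R) : pp e C = pp f C := by
  obtain ⟨Q, hQ, ι, h, hart, hp⟩ := exists_ord hpT
  by_cases he0 : e = 0
  · have hf0 : f = 0 := by
      rw [he0, sub_zero] at hxy
      have h1 : ι x * ι y = 1 := by rw [← map_mul, hxy, map_one]
      have h2 := mul_eq_one_symm h1
      rw [← map_mul, hyx, map_sub, map_one, sub_eq_self] at h2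
      apply h.inj
      rw [h2, map_zero]
    rw [he0, hf0]
  have hnt : Nontrivial T := ⟨e, 0, he0⟩
  obtain ⟨Z, ⟨J0, hJ0, hJ00, b, hb⟩, hZ⟩ := rel (R := R) hp hpT h he hf hxy hyx he0
  obtain ⟨a, ha, ha0⟩ := Submodule.exists_mem_ne_zero_of_ne_bot hJ00
  obtain ⟨t, ht⟩ : ∃ t, a * t * e ≠ 0 := by
    by_contra h
    push Not at h
    rcases hpT a e h with h1 | h1
    · exact ha0 h1
    · exact he0 h1
  obtain ⟨J, hJ, hJI, hJ1, z, hz0, hzc, hz⟩ := hH (J0 ⊓ tsp e)
    ⟨fun b ha => ⟨hJ0.mul_mem_of_left b ha.1, (tsp_two e).mul_mem_of_left b ha.2⟩⟩ (by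
      intro h
      apply ht
      rw [← Ideal.mem_bot, ← h]
      exact ⟨hJ0.mul_mem_of_left _ (hJ0.mul_mem_of_left _ ha),
        (tsp e).mul_mem_left _ (mem_tsp e)⟩)
  set ζ : Subring.center T := ⟨z, Subring.mem_center_iff.mpr fun t => (hzc t).symm⟩ with hζ
  have hζv : ∀ k : ℕ, algebraMap (Subring.center T) T (ζ ^ k) = z ^ k := fun k => rfl
  have hpow : ∀ k : ℕ, z ^ k ≠ 0 := by
    intro k
    induction k with
    | zero =>
      rw [pow_zero]
      exact one_ne_zero
    | succ k ih =>
      intro h1
      rw [pow_succ'] at h1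
      rcases hpT z (z ^ k) (fun t => by rw [hzc, mul_assoc, h1, mul_zero]) with h2 | h2
      · exact hz0 h2
      · exact ih h2
  refine abs_main (A := Subring.center T) he hf (J := J) (z := ζ) hz (hJI.trans inf_le_right) b
    ?_ (fun E hE => h3 E J hJ hJ1 hE) ?_ C
  · intro E
    refine ⟨Z E, hZ E, (hb E).trans (Le.nsmul ?_ b)⟩
    exact Le.add (yq_anti E (mulC_mono (fun x hx => (hJI hx).1) E))
      (ya_anti (fun x hx => (hJI hx).1) E)
  · intro E k hE
    refine h3 E (tsp (z ^ k)) (tsp_two _) ?_ ?_
    · intro h1
      have h2 := mem_tsp (z ^ k)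
      rw [h1, Ideal.mem_bot] at h2
      exact hpow k h2
    · intro t ht
      have h1 : tsp (z ^ k) ≤ RingHom.ker E.act := by
        rw [tsp, Ideal.span_le]
        rintro _ ⟨v, rfl⟩
        rw [SetLike.mem_coe, RingHom.mem_ker, map_mul]
        have h2 : E.act (z ^ k) = 0 := hE
        rw [h2, zero_mul]
      exact h1 ht

end Prime

section Noe
variable {T : Type v} [Ring T] {R : Type u} [Ring R] [VNR R] [IsNoetherianRing T]
  [IsNoetherianRing Tᵐᵒᵖ]

theorem noe_main (hC : Cen T) {e f x y : T} (he : e * e = e)
    (hf : f * f = f) (hxy : x * y = 1 - e) (hyx : y * x = 1 - f) (C : Bim T R) :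
    pp e C = pp f C := by
  classical
  have key : ∀ I : Ideal T, ∀ C : Bim T R, (∀ t ∈ I, C.act t = 0) → pp e C = pp f C := by
    intro I
    induction I using IsNoetherian.induction with
    | hgt I ih =>
      intro C hC'
      by_cases hker : ∃ a, a ∉ I ∧ C.act a = 0
      · obtain ⟨a, ha, haC⟩ := hker
        exact ih _ (lt_sup ha) C (kill_sup hC' haC)
      push Not at hker
      have hI2 : Ideal.IsTwoSided I := by
        constructor
        intro a b ha
        by_contra h
        apply hker _ h
        rw [map_mul, hC' a ha, zero_mul]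
      by_cases h1 : (1 : T) ∈ I
      · have h1 : C.act 1 = 0 := hC' 1 h1
        have h2 : Subsingleton C.X := by
          constructor
          intro a b
          have h3 : ∀ c : C.X, c = 0 := by
            intro c
            have h4 := LinearMap.congr_fun h1 c
            rwa [map_one, Module.End.one_apply] at h4
          rw [h3 a, h3 b]
        rw [pp, pp, cls_subsingleton, cls_subsingleton]
      by_cases hp : ∀ a b : T, (∀ t, a * t * b ∈ I) → a ∈ I ∨ b ∈ I
      · -- the prime case
        have hn1 : IsNoetherianRing (T ⧸ I) :=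
          isNoetherianRing_of_surjective T _ (Ideal.Quotient.mk I) Ideal.Quotient.mk_surjective
        have hn2 : IsNoetherianRing (T ⧸ I)ᵐᵒᵖ := by
          refine isNoetherianRing_of_surjective Tᵐᵒᵖ _ (Ideal.Quotient.mk I).op ?_
          intro q
          obtain ⟨t, ht⟩ := Ideal.Quotient.mk_surjective (I := I) q.unop
          exact ⟨MulOpposite.op t, MulOpposite.unop_injective ht⟩
        have hpT : Prm (T ⧸ I) := by
          intro a b hab
          obtain ⟨a, rfl⟩ := Ideal.Quotient.mk_surjective a
          obtain ⟨b, rfl⟩ := Ideal.Quotient.mk_surjective b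
          rcases hp a b (fun t => Ideal.Quotient.eq_zero_iff_mem.mp (by
            rw [map_mul, map_mul]
            exact hab _)) with h | h
          · exact Or.inl (Ideal.Quotient.eq_zero_iff_mem.mpr h)
          · exact Or.inr (Ideal.Quotient.eq_zero_iff_mem.mpr h)
        have hH : ∀ K : Ideal (T ⧸ I), K.IsTwoSided → K ≠ ⊥ →
            ∃ J : Ideal (T ⧸ I), J.IsTwoSided ∧ J ≤ K ∧ J ≠ ⊥ ∧
              ∃ z : T ⧸ I, z ≠ 0 ∧ (∀ t, z * t = t * z) ∧ ∀ j ∈ J, z * j ∈ J * J := by
          intro K hK hK0
          obtain ⟨J, hJ, hJK, hJI, z, hz, hzc, hzJ⟩ := hC I hI2 hp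
            (Ideal.comap (Ideal.Quotient.mk I) K) inferInstance (by
              intro hle
              apply hK0
              rw [eq_bot_iff]
              intro q hq
              obtain ⟨t, rfl⟩ := Ideal.Quotient.mk_surjective q
              rw [Ideal.mem_bot, Ideal.Quotient.eq_zero_iff_mem]
              exact hle hq)
          have hmap : ∀ q, q ∈ Ideal.map (Ideal.Quotient.mk I) J ↔
              ∃ j ∈ J, Ideal.Quotient.mk I j = q := fun q =>
            Ideal.mem_map_iff_of_surjective _ Ideal.Quotient.mk_surjective
          refine ⟨Ideal.map (Ideal.Quotient.mk I) J, ?_, ?_, ?_, Ideal.Quotient.mk I z, ?_, ?_, ?_⟩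
          · constructor
            intro a b ha
            obtain ⟨j, hj, rfl⟩ := (hmap a).mp ha
            obtain ⟨t, rfl⟩ := Ideal.Quotient.mk_surjective b
            exact (hmap _).mpr ⟨j * t, hJ.mul_mem_of_left t hj, map_mul _ _ _⟩
          · rw [Ideal.map_le_iff_le_comap]
            exact hJK
          · intro h0
            apply hJI
            intro j hj
            have h2 := (hmap _).mpr ⟨j, hj, rfl⟩
            rw [h0, Ideal.mem_bot, Ideal.Quotient.eq_zero_iff_mem] at h2
            exact h2
          · intro h0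
            exact hz (Ideal.Quotient.eq_zero_iff_mem.mp h0)
          · intro t
            obtain ⟨t, rfl⟩ := Ideal.Quotient.mk_surjective t
            rw [← map_mul, ← map_mul, Ideal.Quotient.mk_eq_mk_iff_sub_mem]
            exact hzc t
          · intro q hq
            obtain ⟨j, hj, rfl⟩ := (hmap q).mp hq
            rw [← map_mul]
            have h2 : J * J ⊔ I ≤ Ideal.comap (Ideal.Quotient.mk I)
                (Ideal.map (Ideal.Quotient.mk I) J * Ideal.map (Ideal.Quotient.mk I) J) := by
              refine sup_le ?_ ?_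
              · rw [Ideal.mul_le]
                intro a ha b hb
                rw [Ideal.mem_comap, map_mul]
                exact Ideal.mul_mem_mul ((hmap _).mpr ⟨a, ha, rfl⟩) ((hmap _).mpr ⟨b, hb, rfl⟩)
              · intro a ha
                rw [Ideal.mem_comap, Ideal.Quotient.eq_zero_iff_mem.mpr ha]
                exact zero_mem _
            exact h2 (hzJ j hj)
        have hfac := prime_noe (T := T ⧸ I) (R := R) hpT hH
          (e := Ideal.Quotient.mk I e) (f := Ideal.Quotient.mk I f)
          (x := Ideal.Quotient.mk I x) (y := Ideal.Quotient.mk I y)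
          (by rw [← map_mul, he]) (by rw [← map_mul, hf])
          (by rw [← map_mul, hxy, map_sub, map_one]) (by rw [← map_mul, hyx, map_sub, map_one])
          (by
            intro E J hJ hJ0 hE
            obtain ⟨q, hq, hq0⟩ := Submodule.exists_mem_ne_zero_of_ne_bot hJ0
            obtain ⟨a, rfl⟩ := Ideal.Quotient.mk_surjective q
            have haI : a ∉ I := fun h => hq0 (Ideal.Quotient.eq_zero_iff_mem.mpr h)
            have h1 := ih (I ⊔ Ideal.span {a}) (lt_sup haI)
              (E.res (Ideal.Quotient.mk I)) (kill_sup (by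
                intro t ht
                change E.act (Ideal.Quotient.mk I t) = 0
                rw [Ideal.Quotient.eq_zero_iff_mem.mpr ht, map_zero]) (hE _ hq))
            exact h1)
          (C.fac I hC')
        exact hfac
      · push Not at hp
        obtain ⟨a, b, hab, ha, hb⟩ := hp
        have hab' : ∀ t ∈ tsp b, ∀ s : T, a * s * t ∈ I := by
          intro t ht
          induction ht using Submodule.span_induction with
          | mem t ht =>
            obtain ⟨v, rfl⟩ := ht
            intro s
            rw [← mul_assoc]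
            exact hI2.mul_mem_of_left v (hab s)
          | zero =>
            intro s
            rw [mul_zero]
            exact I.zero_mem
          | add p q _ _ hp hq =>
            intro s
            rw [mul_add]
            exact I.add_mem (hp s) (hq s)
          | smul r p _ hp =>
            intro s
            rw [smul_eq_mul, ← mul_assoc, mul_assoc a]
            exact hp _
        rw [pp_split C (mulC (tsp b : Set T) C) (mulC_stable (tsp b) C) he,
          pp_split C (mulC (tsp b : Set T) C) (mulC_stable (tsp b) C) hf]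
        congr 1
        · refine ih _ (lt_sup ha) _ (kill_sup ?_ ?_)
          · intro t ht
            apply LinearMap.ext
            intro v
            apply Subtype.ext
            change C.act t v.1 = 0
            rw [hC' t ht, LinearMap.zero_apply]
          · apply LinearMap.ext
            intro v
            apply Subtype.ext
            change C.act a v.1 = 0
            have h2 : mulC (tsp b : Set T) C ≤ LinearMap.ker (C.act a) := by
              apply mulC_le
              intro t ht x
              rw [LinearMap.mem_ker, ← C.act_mul, hC' _ (by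
                have h3 := hab' t ht 1
                rwa [mul_one] at h3), LinearMap.zero_apply]
            exact h2 v.2
        · refine ih _ (lt_sup hb) _ (kill_sup ?_ ?_)
          · intro t ht
            apply LinearMap.ext
            intro v
            obtain ⟨w, rfl⟩ := Submodule.mkQ_surjective _ v
            change Submodule.Quotient.mk (C.act t w) = 0
            rw [hC' t ht, LinearMap.zero_apply]
            rfl
          · exact mulQ_kill (tsp b) C b (mem_tsp b)
  exact key ⊥ C (by
    intro t ht
    rw [Ideal.mem_bot] at ht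
    rw [ht, map_zero])

end Noe

end SepNoe
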