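import Pool.Agent.Lib.MP_dccecd_al.NoeNor
import Pool.Agent.Lib.MP_dccecd_al.NoeMain

/-! Noetherian induction for rings which are noetherian on both sides and whose prime factor rings
have enough normal elements (for MP_dccecd_al, the noetherian base theorem). -/

open SepReg SepFin

namespace SepNoe

universe u v w

section Good
variable {T : Type v} [Ring T] {R : Type u} [Ring R] [VNR R]

/-- the quotient map between two quotients -/
theorem quo_le (C : Bim T R) (N N' : Submodule R C.X) [Module.Projective R (C.X ⧸ N)]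
    [Module.Projective R (C.X ⧸ N')] (hN : ∀ t, ∀ x ∈ N, C.act t x ∈ N)
    (hN' : ∀ t, ∀ x ∈ N', C.act t x ∈ N') (h : N ≤ N') (e : T) :
    Le (pp e (C.quo N' hN')) (pp e (C.quo N hN)) := by
  have hle : N ≤ N'.comap LinearMap.id := h
  refine pp_surj (C := C.quo N hN) (D := C.quo N' hN') (Submodule.mapQ N N' LinearMap.id hle) ?_ e ?_
  · intro s x
    obtain ⟨v, rfl⟩ := Submodule.mkQ_surjective _ x
    rfl
  · intro x
    obtain ⟨v, rfl⟩ := Submodule.mkQ_surjective _ x
    exact ⟨Submodule.Quotient.mk v, rfl⟩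

/-- the inclusion map between two submodules -/
theorem sub_le (C : Bim T R) (N N' : Submodule R C.X) [Module.Finite R N] [Module.Projective R N]
    [Module.Finite R N'] [Module.Projective R N'] (hN : ∀ t, ∀ x ∈ N, C.act t x ∈ N)
    (hN' : ∀ t, ∀ x ∈ N', C.act t x ∈ N') (h : N ≤ N') (e : T) :
    Le (pp e (C.sub N hN)) (pp e (C.sub N' hN')) :=
  pp_inj (C := C.sub N hN) (D := C.sub N' hN') (Submodule.inclusion h) (fun s x => rfl) e
    (Submodule.inclusion_injective h)

/-- modules which `z` maps into `J C`, and in which `z` kills the annihilator of `J` -/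
structure GoodN (J : Ideal T) (z : T) (C : Bim T R) : Prop where
  mul : ∀ v, C.act z v ∈ mulC (J : Set T) C
  ann : ∀ v ∈ annC (J : Set T) C, C.act z v = 0

/-- the normalizing conditions for `z` and `J` -/
structure NrmJ (J : Ideal T) (z : T) : Prop where
  nrm : Nrm z
  l : ∀ j ∈ J, ∃ j' ∈ J, z * j = j' * z
  r : ∀ j ∈ J, ∃ j' ∈ J, j * z = z * j'

theorem NrmJ.pow {J : Ideal T} {z : T} (h : NrmJ J z) (k : ℕ) : NrmJ J (z ^ k) := by
  refine ⟨h.nrm.pow k, ?_, ?_⟩
  · induction k with
    | zero =>
      intro j hj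
      exact ⟨j, hj, by rw [pow_zero, one_mul, mul_one]⟩
    | succ k ih =>
      intro j hj
      obtain ⟨i, hi, hi'⟩ := h.l j hj
      obtain ⟨i', hi2, hi3⟩ := ih i hi
      exact ⟨i', hi2, by rw [pow_succ, mul_assoc, hi', ← mul_assoc, hi3, mul_assoc]⟩
  · induction k with
    | zero =>
      intro j hj
      exact ⟨j, hj, by rw [pow_zero, one_mul, mul_one]⟩
    | succ k ih =>
      intro j hj
      obtain ⟨i, hi, hi'⟩ := ih j hj
      obtain ⟨i', hi2, hi3⟩ := h.r i hi
      exact ⟨i', hi2, by rw [pow_succ, ← mul_assoc, hi', mul_assoc, hi3, mul_assoc]⟩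

theorem GoodN.ran {J : Ideal T} {z : T} (hn : NrmJ J z) {C : Bim T R} (h : GoodN J z C) (k : ℕ) :
    GoodN J z (ranN C (hn.nrm.pow k)) := by
  have hc : ∀ x, C.act z (C.act (z ^ k) x) = C.act (z ^ k) (C.act z x) := by
    intro x
    rw [← C.act_mul, ← C.act_mul, ← pow_succ, ← pow_succ']
  constructor
  · rintro ⟨_, w, rfl⟩
    have h1 : mulC (J : Set T) C ≤
        (mulC (J : Set T) (ranN C (hn.nrm.pow k))).comap (C.act (z ^ k)).rangeRestrict := by
      apply mulC_le
      intro j hj x
      rw [Submodule.mem_comap]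
      obtain ⟨j', hj', hjj⟩ := (hn.pow k).l j hj
      have h2 : (C.act (z ^ k)).rangeRestrict (C.act j x) =
          (ranN C (hn.nrm.pow k)).act j' ((C.act (z ^ k)).rangeRestrict x) := by
        apply Subtype.ext
        change C.act (z ^ k) (C.act j x) = C.act j' (C.act (z ^ k) x)
        rw [← C.act_mul, ← C.act_mul, hjj]
      rw [h2]
      exact act_mem_mulC hj' _
    have h2 := h1 (h.mul w)
    rw [Submodule.mem_comap] at h2
    have h3 : (ranN C (hn.nrm.pow k)).act z ⟨C.act (z ^ k) w, w, rfl⟩ =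
        (C.act (z ^ k)).rangeRestrict (C.act z w) := Subtype.ext (hc w)
    rw [h3]
    exact h2
  · rintro ⟨v, hv⟩ h1
    rw [mem_annC] at h1
    apply Subtype.ext
    apply h.ann v
    rw [mem_annC]
    exact fun t ht => congrArg Subtype.val (h1 t ht)

theorem GoodN.coim {J : Ideal T} {z : T} (hn : NrmJ J z) {C : Bim T R} (h : GoodN J z C) (k : ℕ) :
    GoodN J z (coimN C (hn.nrm.pow k)) := by
  have hc : ∀ x, C.act z (C.act (z ^ k) x) = C.act (z ^ k) (C.act z x) := by
    intro x
    rw [← C.act_mul, ← C.act_mul, ← pow_succ, ← pow_succ']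
  constructor
  · intro q
    obtain ⟨v, rfl⟩ := Submodule.mkQ_surjective _ q
    have h1 : mulC (J : Set T) C ≤
        (mulC (J : Set T) (coimN C (hn.nrm.pow k))).comap (LinearMap.ker (C.act (z ^ k))).mkQ := by
      apply mulC_le
      intro j hj x
      rw [Submodule.mem_comap]
      exact act_mem_mulC (C := coimN C (hn.nrm.pow k)) hj (Submodule.Quotient.mk x)
    exact h1 (h.mul v)
  · intro q hq
    obtain ⟨v, rfl⟩ := Submodule.mkQ_surjective _ q
    rw [mem_annC] at hq
    have h1 : ∀ j ∈ J, C.act (z ^ k) (C.act j v) = 0 := by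
      intro j hj
      have h2 : (Submodule.Quotient.mk (C.act j v) : (coimN C (hn.nrm.pow k)).X) = 0 := hq j hj
      rw [Submodule.Quotient.mk_eq_zero, LinearMap.mem_ker] at h2
      exact h2
    have h2 : C.act z (C.act (z ^ k) v) = 0 := by
      apply h.ann
      rw [mem_annC]
      intro j hj
      obtain ⟨j', hj', hjj⟩ := (hn.pow k).r j hj
      rw [← C.act_mul, hjj, C.act_mul]
      exact h1 j' hj'
    change (Submodule.Quotient.mk (C.act z v) : (coimN C (hn.nrm.pow k)).X) = 0
    rw [Submodule.Quotient.mk_eq_zero, LinearMap.mem_ker, ← hc]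
    exact h2

variable [IsNoetherianRing T] [IsNoetherianRing Tᵐᵒᵖ]

theorem goodN_kap {J : Ideal T} [J.IsTwoSided] {z : T} (hn : NrmJ J z)
    (hz : ∀ j ∈ J, z * j ∈ J * J) (C : Bim T R) : GoodN J z (kapB J C) := by
  constructor
  · intro v
    obtain ⟨v, rfl⟩ := Submodule.mkQ_surjective _ v
    set N : Submodule R C.X := ((mulC (J : Set T) (kapB J C)).comap
      (annC (J : Set T) (mulB J C)).mkQ).map (mulC (J : Set T) C).subtype with hN
    have h1 : ∀ p ∈ J * J, ∀ x, C.act p x ∈ N := by
      have h2 : J * J ≤ ({ carrier := {p | ∀ x, C.act p x ∈ N}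
                           add_mem' := fun {a b} ha hb x => by
                            rw [C.act_add]
                            exact N.add_mem (ha x) (hb x)
                           zero_mem' := fun x => by
                            rw [C.act_zero]
                            exact N.zero_mem
                           smul_mem' := fun r p hp x => by
                            obtain ⟨u, hu1, hu2⟩ := hp x
                            rw [smul_eq_mul, C.act_mul, ← hu2]
                            refine ⟨(mulB J C).act r u, ?_, rfl⟩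
                            exact mulC_stable J (kapB J C) r _ hu1 } : Ideal T) := by
        rw [Ideal.mul_le]
        intro a ha b hb x
        refine ⟨(mulB J C).act a ⟨C.act b x, act_mem_mulC hb x⟩, ?_, ?_⟩
        · rw [SetLike.mem_coe, Submodule.mem_comap]
          exact act_mem_mulC (C := kapB J C) ha (Submodule.Quotient.mk ⟨C.act b x, act_mem_mulC hb x⟩)
        · exact (C.act_mul a b x).symm
      exact fun p hp => h2 hp
    have h2 : mulC (J : Set T) C ≤ N.comap (C.act z) := by
      apply mulC_le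
      intro j hj x
      rw [Submodule.mem_comap]
      have h3 : C.act z (C.act j x) = C.act (z * j) x := (C.act_mul _ _ _).symm
      rw [h3]
      exact h1 _ (hz j hj) x
    obtain ⟨u, hu1, hu2⟩ := h2 v.2
    have h3 : u = (mulB J C).act z v := Subtype.ext hu2
    rw [h3] at hu1
    exact hu1
  · intro v hv
    obtain ⟨v, rfl⟩ := Submodule.mkQ_surjective _ v
    rw [mem_annC] at hv
    have h1 : ∀ j ∈ J, ∀ i ∈ J, C.act (i * j) v.1 = 0 := by
      intro j hj i hi
      have h2 : Submodule.Quotient.mk ((mulB J C).act j v) = (0 : (kapB J C).X) := hv j hj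
      rw [Submodule.Quotient.mk_eq_zero, mem_annC] at h2
      rw [C.act_mul]
      exact congrArg Subtype.val (h2 i hi)
    have h2 : ∀ p ∈ J * J, C.act p v.1 = 0 := by
      have h3 : J * J ≤ ({ carrier := {p | C.act p v.1 = 0}
                           add_mem' := fun {a b} ha hb => by
                            change C.act (a + b) v.1 = 0
                            rw [C.act_add, show C.act a v.1 = 0 from ha,
                              show C.act b v.1 = 0 from hb, add_zero]
                           zero_mem' := C.act_zero _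
                           smul_mem' := fun r p hp => by
                            change C.act (r * p) v.1 = 0
                            rw [C.act_mul, show C.act p v.1 = 0 from hp, map_zero] } :
                              Ideal T) := by
        rw [Ideal.mul_le]
        exact fun a ha b hb => h1 b hb a ha
      exact fun p hp => h3 hp
    change Submodule.Quotient.mk ((mulB J C).act z v) = (0 : (kapB J C).X)
    rw [Submodule.Quotient.mk_eq_zero, mem_annC]
    intro j hj
    apply Subtype.ext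
    change C.act j (C.act z v.1) = 0
    obtain ⟨j', hj', hjj⟩ := hn.r j hj
    rw [← C.act_mul, hjj]
    exact h2 _ (hz j' hj')

theorem GoodN.q_le {J : Ideal T} {z : T} (hz : Nrm z) {E : Bim T R} (h : GoodN J z E) (e : T) :
    Le (pp e (mulQ J E)) (pp e (cokN E hz)) :=
  quo_le E (LinearMap.range (E.act z)) (mulC (J : Set T) E) (ranN_stable E hz) (mulC_stable J E)
    (by
      rintro _ ⟨x, rfl⟩
      exact h.mul x) e

theorem GoodN.a_le {J : Ideal T} [J.IsTwoSided] {z : T} (hz : Nrm z) {E : Bim T R}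
    (h : GoodN J z E) (e : T) : Le (pp e (annB J E)) (pp e (kerN E hz)) :=
  sub_le E (annC (J : Set T) E) (LinearMap.ker (E.act z)) (annC_stable J E) (kerN_stable E hz)
    (fun x hx => h.ann x hx) e

theorem mulQ_anti {J J' : Ideal T} (h : J ≤ J') (E : Bim T R) (e : T) :
    Le (pp e (mulQ J' E)) (pp e (mulQ J E)) :=
  quo_le E (mulC (J : Set T) E) (mulC (J' : Set T) E) (mulC_stable J E) (mulC_stable J' E)
    (mulC_mono (fun x hx => h hx) E) e

theorem annB_anti {J J' : Ideal T} [J.IsTwoSided] [J'.IsTwoSided] (h : J ≤ J') (E : Bim T R)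
    (e : T) : Le (pp e (annB J' E)) (pp e (annB J E)) :=
  sub_le E (annC (J' : Set T) E) (annC (J : Set T) E) (annC_stable J' E) (annC_stable J E)
    (annC_anti (fun x hx => h hx) E) e

end Good

section Prime
variable {T : Type v} [Ring T] {R : Type u} [Ring R] [VNR R] [IsNoetherianRing T]
  [IsNoetherianRing Tᵐᵒᵖ]

/-- the relation between the images of `e` and `f`, with an error dominated by the images of `e` -/
theorem rel_e (hpT : Prm T) {e f x y : T} (he : e * e = e) (hf : f * f = f) (hxy : x * y = 1 - e)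
    (hyx : y * x = 1 - f) (he0 : e ≠ 0)
    (h3 : ∀ (E : Bim T R) (J : Ideal T), J.IsTwoSided → J ≠ ⊥ → (∀ t ∈ J, E.act t = 0) →
      pp e E = pp f E) :
    ∃ J : Ideal T, ∃ _ : J.IsTwoSided, J ≠ ⊥ ∧ ∃ c : ℕ, ∀ E : Bim T R, ∃ d : VR R,
      pp e E + d = pp f E + d ∧ Le d (c • (pp e (mulQ J E) + pp e (annB J E))) := by
  obtain ⟨Q, hQ, ι, h, hart, hp⟩ := exists_ord hpT
  have hnt : Nontrivial T := ⟨e, 0, he0⟩
  obtain ⟨Z, hZs, hZ⟩ := rel (R := R) hp hpT h he hf hxy hyx he0
  obtain ⟨J, hJ, hJ0, c, hc⟩ := ebound (R := R) hpT he0 hZs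
  refine ⟨J, hJ, hJ0, c, fun E => ⟨Z (kapB (tsp e) E), ?_, hc E⟩⟩
  have ht0 : tsp e ≠ ⊥ := by
    intro h1
    apply he0
    have h2 := mem_tsp e
    rwa [h1, Ideal.mem_bot] at h2
  have k1 : pp f (mulQ (tsp e) E) = 0 := by
    rw [← h3 _ (tsp e) inferInstance ht0 (mulQ_kill (tsp e) E)]
    exact pp_kill _ (mulQ_kill _ _ e (mem_tsp e))
  have k2 : pp f (annB (tsp e) (mulB (tsp e) E)) = 0 := by
    rw [← h3 _ (tsp e) inferInstance ht0 (annB_kill (tsp e) (mulB (tsp e) E))]
    exact pp_kill _ (annB_kill _ _ e (mem_tsp e))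
  rw [pp_kap_self he E, pp_kap (tsp e) E hf, k1, k2, add_zero, add_zero]
  exact hZ _

theorem prime_nor (hpT : Prm T)
    (hH : ∀ I : Ideal T, I.IsTwoSided → I ≠ ⊥ → ∃ J : Ideal T, J.IsTwoSided ∧ J ≤ I ∧ J ≠ ⊥ ∧
      ∃ z : T, z ≠ 0 ∧ NrmJ J z ∧ ∀ j ∈ J, z * j ∈ J * J)
    {e f x y : T} (he : e * e = e) (hf : f * f = f) (hxy : x * y = 1 - e) (hyx : y * x = 1 - f)
    (h3 : ∀ (E : Bim T R) (J : Ideal T), J.IsTwoSided → J ≠ ⊥ → (∀ t ∈ J, E.act t = 0) →
      pp e E = pp f E) (C : Bim T R) : pp e C = pp f C := by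
  by_cases he0 : e = 0
  · obtain ⟨Q, hQ, ι, h, hart, hp⟩ := exists_ord hpT
    have hf0 : f = 0 := by
      rw [he0, sub_zero] at hxy
      have h1 : ι x * ι y = 1 := by rw [← map_mul, hxy, map_one]
      have h2 := mul_eq_one_symm h1
      rw [← map_mul, hyx, map_sub, map_one, sub_eq_self] at h2
      apply h.inj
      rw [h2, map_zero]
    rw [he0, hf0]
  obtain ⟨J1, hJ1, hJ10, c, hrel⟩ := rel_e (R := R) hpT he hf hxy hyx he0 h3
  obtain ⟨J, hJ, hJJ, hJ0, z, hz0, hn, hzJ⟩ := hH J1 hJ1 hJ10
  obtain ⟨σ, hσ⟩ := hn.nrm.exists_aut hpT hz0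
  have hpw : ∀ k : ℕ, z ^ k ≠ 0 := by
    intro k
    induction k with
    | zero =>
      rw [pow_zero]
      exact fun h1 => he0 (by rw [← one_mul e, h1, zero_mul])
    | succ k ih =>
      intro h1
      rw [pow_succ] at h1
      exact ih (hn.nrm.reg_r hpT hz0 h1)
  have hzk : ∀ (E : Bim T R) (k : ℕ), E.act (z ^ k) = 0 → pp e E = pp f E := by
    intro E k hE
    refine h3 E (tsp (z ^ k)) (tsp_two _) ?_ ?_
    · intro h1
      have h2 := mem_tsp (z ^ k)
      rw [h1, Ideal.mem_bot] at h2
      exact hpw k h2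
    · intro t ht
      have h1 : tsp (z ^ k) ≤ RingHom.ker E.act := by
        rw [tsp, Ideal.span_le]
        rintro _ ⟨v, rfl⟩
        rw [SetLike.mem_coe, RingHom.mem_ker, map_mul, hE, zero_mul]
      exact h1 ht
  have hidem : ∀ τ : RingAut T, τ e * τ e = τ e := fun τ => by rw [← map_mul, he]
  obtain ⟨N1, -, hN1⟩ := dom_all (R := R) he (es := fun k => (σ ^ (k + 1)) e)
    (fun k => hidem _) (fun P hP m h => aut_sup σ e P m h) c 0
  obtain ⟨N2, -, hN2⟩ := dom_all (R := R) he (es := fun k => (σ⁻¹ ^ (k + 1)) e)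
    (fun k => hidem _) (fun P hP m h => aut_sup σ⁻¹ e P m h) c 0
  rw [Nat.Ico_zero_eq_range] at hN1 hN2
  set N := max N1 N2 with hN
  have hgood : ∀ E : Bim T R, GoodN J z E → pp e E = pp f E := by
    intro B hB
    set D := ranN B (hn.nrm.pow N) with hD
    set E := coimN D (hn.nrm.pow N) with hE
    have gD : GoodN J z D := hB.ran hn N
    have gE : GoodN J z E := gD.coim hn N
    obtain ⟨d, hd1, hd2⟩ := hrel E
    have s1 : ∀ {e : T}, e * e = e → pp e B =
        pp e (cokN B (hn.nrm.pow N)) + (pp e (kerN D (hn.nrm.pow N)) + pp e E) := by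
      intro e he
      rw [pp_ranN B (hn.nrm.pow N) he, pp_kerN D (hn.nrm.pow N) he]
      abel
    have k1 : pp e (cokN B (hn.nrm.pow N)) = pp f (cokN B (hn.nrm.pow N)) := by
      apply hzk _ N
      apply LinearMap.ext
      intro x
      obtain ⟨v, rfl⟩ := Submodule.mkQ_surjective _ x
      change Submodule.Quotient.mk _ = _
      rw [LinearMap.zero_apply, Submodule.Quotient.mk_eq_zero]
      exact ⟨v, rfl⟩
    have k2 : pp e (kerN D (hn.nrm.pow N)) = pp f (kerN D (hn.nrm.pow N)) := by
      apply hzk _ N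
      apply LinearMap.ext
      intro x
      apply Subtype.ext
      exact x.2
    have l1 : Le (c • pp e (mulQ J1 E)) (pp e (cokN B (hn.nrm.pow N))) := by
      have q1 : Le (pp e (mulQ J1 E)) (pp e (layR hn.nrm B N)) := by
        refine (mulQ_anti hJJ E e).trans ((gE.q_le hn.nrm e).trans ?_)
        have hle : LinearMap.range (D.act z) ≤
            (LinearMap.range (E.act z)).comap (LinearMap.ker (D.act (z ^ N))).mkQ := by
          rintro _ ⟨x, rfl⟩
          exact ⟨Submodule.Quotient.mk x, rfl⟩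
        refine pp_surj (C := cokN D hn.nrm) (D := cokN E hn.nrm)
          (Submodule.mapQ _ _ (LinearMap.ker (D.act (z ^ N))).mkQ hle) ?_ e ?_
        · intro s x
          obtain ⟨v, rfl⟩ := Submodule.mkQ_surjective _ x
          rfl
        · intro x
          obtain ⟨v, rfl⟩ := Submodule.mkQ_surjective _ x
          obtain ⟨w, rfl⟩ := Submodule.mkQ_surjective _ v
          exact ⟨Submodule.Quotient.mk w, rfl⟩
      refine (Le.nsmul q1 c).trans ((hN1 _).trans ?_)
      refine (Le.sum_sub (Finset.range_mono (le_max_left N1 N2)) _).trans ?_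
      exact layR_sum hn.nrm B N he (p := fun j => (σ ^ j) e) fun j => aut_pow hσ j e
    have l2 : Le (c • pp e (annB J1 E)) (pp e (kerN D (hn.nrm.pow N))) := by
      have q1 : Le (pp e (annB J1 E)) (pp e (layK hn.nrm D N)) :=
        (annB_anti hJJ E e).trans (gE.a_le hn.nrm e)
      refine (Le.nsmul q1 c).trans ((hN2 _).trans ?_)
      refine (Le.sum_sub (Finset.range_mono (le_max_right N1 N2)) _).trans ?_
      refine layK_sum hn.nrm D N he (p := fun j => (σ⁻¹ ^ j) e) fun j => ?_
      rw [aut_pow hσ j, ← RingAut.mul_apply, inv_pow, mul_inv_cancel, RingAut.one_apply]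
    have l3 : Le d (pp e (cokN B (hn.nrm.pow N)) + pp e (kerN D (hn.nrm.pow N))) := by
      refine hd2.trans ?_
      rw [nsmul_add]
      exact Le.add l1 l2
    obtain ⟨w, hw⟩ := l3
    rw [s1 he, s1 hf, ← k1, ← k2]
    calc pp e (cokN B (hn.nrm.pow N)) + (pp e (kerN D (hn.nrm.pow N)) + pp e E)
        = pp e E + (pp e (cokN B (hn.nrm.pow N)) + pp e (kerN D (hn.nrm.pow N))) := by abel
      _ = (pp e E + d) + w := by rw [← hw]; abel
      _ = (pp f E + d) + w := by rw [hd1]
      _ = pp f E + (pp e (cokN B (hn.nrm.pow N)) + pp e (kerN D (hn.nrm.pow N))) := by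
        rw [← hw]; abel
      _ = _ := by abel
  rw [pp_kap J C he, pp_kap J C hf, h3 _ J hJ hJ0 (mulQ_kill J C),
    h3 _ J hJ hJ0 (annB_kill J (mulB J C)), hgood _ (goodN_kap hn hzJ C)]

end Prime

end SepNoe
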