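import Pool.Agent.Lib.MP_dccecd_al.FinLam

/-! Regular elements of prime rings which are noetherian on both sides: Goldie's theorem (for
MP_dccecd_al, the noetherian base theorem). -/

open SepFin

namespace SepNoe

section Left
variable {T : Type*} [Ring T]

/-- the left annihilator of an element -/
def lann (a : T) : Ideal T := LinearMap.ker (LinearMap.toSpanSingleton T T a)

theorem mem_lann {a x : T} : x ∈ lann a ↔ x * a = 0 := by
  rw [lann, LinearMap.mem_ker, LinearMap.toSpanSingleton_apply, smul_eq_mul]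

theorem exists_pow [IsNoetherianRing T] (a : T) :
    ∃ n : ℕ, 0 < n ∧ ∀ x, x * (a ^ n * a ^ n) = 0 → x * a ^ n = 0 := by
  obtain ⟨n, hn⟩ := monotone_stabilizes_iff_noetherian.mpr (inferInstance : IsNoetherian T T)
    { toFun := fun n => lann (a ^ n)
      monotone' := monotone_nat_of_le_succ fun n x hx => by
        rw [mem_lann] at hx ⊢
        rw [pow_succ, ← mul_assoc, hx, zero_mul] }
  refine ⟨n + 1, Nat.succ_pos n, fun x hx => ?_⟩
  have h1 := hn (n + 1) (Nat.le_succ n)
  have h2 := hn (n + 1 + (n + 1)) (by omega)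
  have h3 : lann (a ^ (n + 1)) = lann (a ^ (n + 1 + (n + 1))) := h1.symm.trans h2
  rw [← mem_lann, h3, mem_lann, pow_add]
  exact hx

theorem exists_not_nil [IsNoetherianRing T] (hp : Prm T) {a : T} (ha : a ≠ 0) :
    ∃ x, ∀ n : ℕ, (x * a) ^ n ≠ 0 := by
  by_contra hcon
  push Not at hcon
  set S : Set (Ideal T) := {I | ∃ t, a * t ≠ 0 ∧ I = lann (a * t)} with hS
  have hne : S.Nonempty := ⟨lann (a * 1), 1, by rwa [mul_one], rfl⟩
  obtain ⟨I, ⟨t, ht, hI⟩, hmax⟩ := WellFounded.has_min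
    (wellFounded_gt : WellFounded ((· > ·) : Ideal T → Ideal T → Prop)) S hne
  set b := a * t with hb
  have key : ∀ r, b * r * b = 0 := by
    intro r
    have h1 : ∃ k : ℕ, (b * r) ^ k = 0 := by
      obtain ⟨n, hn⟩ := hcon (t * r)
      refine ⟨n + 1, ?_⟩
      have h2 : ∀ m : ℕ, (b * r) ^ (m + 1) = a * (t * r * a) ^ m * (t * r) := by
        intro m
        induction m with
        | zero => rw [pow_zero, zero_add, pow_one, mul_one, hb, mul_assoc]
        | succ m ih =>
          rw [pow_succ, ih, pow_succ (t * r * a), hb]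
          noncomm_ring
      rw [h2, hn, mul_zero, zero_mul]
    classical
    have hk := Nat.find_spec h1
    have hk' := fun m => Nat.find_min h1 (m := m)
    set k := Nat.find h1 with hkd
    rcases Nat.eq_zero_or_pos k with h0 | hpos
    · rw [h0, pow_zero] at hk
      rw [← one_mul b, hk, zero_mul, zero_mul, zero_mul]
    obtain ⟨j, hj⟩ := Nat.exists_eq_add_of_le' hpos
    have hj1 := hk' j (by omega)
    rcases Nat.eq_zero_or_pos j with h0 | hpos
    · rw [h0, zero_add] at hj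
      rw [hj, pow_one] at hk
      rw [hk, zero_mul]
    obtain ⟨i, hi⟩ := Nat.exists_eq_add_of_le' hpos
    have h2 : (b * r) ^ j = a * (t * (r * (b * r) ^ i)) := by
      rw [hi, pow_succ', hb]
      noncomm_ring
    have h3 : lann b ≤ lann ((b * r) ^ j) := by
      intro x hx
      rw [mem_lann] at hx ⊢
      rw [hi, pow_succ', ← mul_assoc, ← mul_assoc, hx, zero_mul, zero_mul]
    have h4 : lann b = lann ((b * r) ^ j) := by
      by_contra h
      apply hmax (lann ((b * r) ^ j)) ⟨t * (r * (b * r) ^ i), by rw [← h2]; exact hj1, by rw [h2]⟩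
      rw [hI]
      exact lt_of_le_of_ne h3 h
    rw [← mem_lann, h4, mem_lann, ← pow_succ', ← hj]
    exact hk
  rcases hp b b key with h | h <;> exact ht h

theorem exists_sq [IsNoetherianRing T] (hp : Prm T) {E : Ideal T} {a : T} (haE : a ∈ E)
    (ha : a ≠ 0) : ∃ c ∈ E, c ≠ 0 ∧ ∀ x, x * (c * c) = 0 → x * c = 0 := by
  obtain ⟨x, hx⟩ := exists_not_nil hp ha
  obtain ⟨n, hn, h⟩ := exists_pow (x * a)
  obtain ⟨m, hm⟩ := Nat.exists_eq_add_of_le' hn
  refine ⟨(x * a) ^ n, ?_, hx n, h⟩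
  rw [hm, pow_succ]
  exact E.mul_mem_left _ (E.mul_mem_left _ haE)

theorem exists_lreg [IsNoetherianRing T] (hp : Prm T) :
    ∀ A E : Ideal T, A ⊓ E = ⊥ → ∃ c ∈ E, ∀ w ∈ E, w * c = 0 → w = 0 := by
  intro A
  induction A using IsNoetherian.induction with
  | hgt A ih =>
    intro E hAE
    by_cases h0 : ∀ a ∈ E, a = 0
    · exact ⟨0, E.zero_mem, fun w hw _ => h0 w hw⟩
    push Not at h0
    obtain ⟨a0, ha0, hne⟩ := h0
    obtain ⟨a, haE, ha, hsq⟩ := exists_sq hp ha0 hne
    have haA : a ∉ A := by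
      intro h
      apply ha
      have h1 : a ∈ A ⊓ E := ⟨h, haE⟩
      rwa [hAE, Ideal.mem_bot] at h1
    have hlt : A < A ⊔ Ideal.span {a} := by
      refine lt_of_le_of_ne le_sup_left fun h => haA ?_
      rw [h]
      exact (le_sup_right : Ideal.span {a} ≤ A ⊔ Ideal.span {a}) (Ideal.mem_span_singleton_self a)
    obtain ⟨c, hc, hcw⟩ := ih _ hlt (E ⊓ lann a) (by
      rw [eq_bot_iff]
      rintro w ⟨hw1, hw2, hw3⟩
      rw [SetLike.mem_coe, mem_lann] at hw3
      obtain ⟨α, hα, β, hβ, hαβ⟩ := Submodule.mem_sup.mp hw1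
      obtain ⟨y, rfl⟩ := Ideal.mem_span_singleton'.mp hβ
      have h1 : α ∈ A ⊓ E := by
        refine ⟨hα, ?_⟩
        have h2 : α = w - y * a := by rw [← hαβ, add_sub_cancel_right]
        rw [h2]
        exact E.sub_mem hw2 (E.mul_mem_left y haE)
      rw [hAE, Ideal.mem_bot] at h1
      rw [h1, zero_add] at hαβ
      rw [← hαβ, mul_assoc] at hw3
      rw [Ideal.mem_bot, ← hαβ]
      exact hsq y hw3)
    have hca : c * a = 0 := mem_lann.mp hc.2
    refine ⟨a + c, E.add_mem haE hc.1, fun w hw hwc => ?_⟩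
    rw [mul_add] at hwc
    have h1 : w * a * a = 0 := by
      have h2 : w * a = - (w * c) := eq_neg_of_add_eq_zero_left hwc
      rw [h2, neg_mul, mul_assoc, hca, mul_zero, neg_zero]
    have h2 : w * a = 0 := hsq w (by rw [← mul_assoc]; exact h1)
    apply hcw w ⟨hw, mem_lann.mpr h2⟩
    rwa [h2, zero_add] at hwc

theorem ess_of_lreg [IsNoetherianRing T] {c : T} (hc : ∀ w, w * c = 0 → w = 0) {x : T}
    (hx : x ≠ 0) : ∃ t, t * x ≠ 0 ∧ ∃ y, t * x = y * c := by
  by_contra hcon
  push Not at hcon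
  have hcon' : ∀ t y, t * x = y * c → t * x = 0 := by
    intro t y h
    by_contra h1
    exact hcon t h1 y h
  set A : ℕ → Ideal T := fun n => Nat.rec ⊥
    (fun _ I => Ideal.span {x} ⊔ Submodule.map (LinearMap.toSpanSingleton T T c) I) n with hA
  have hA0 : A 0 = ⊥ := rfl
  have hA1 : ∀ n, A (n + 1) = Ideal.span {x} ⊔ Submodule.map (LinearMap.toSpanSingleton T T c) (A n) :=
    fun n => rfl
  have hmono : ∀ n, A n ≤ A (n + 1) := by
    intro n
    induction n with
    | zero =>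
      rw [hA0]
      exact bot_le
    | succ n ih =>
      rw [hA1, hA1 (n + 1)]
      exact sup_le_sup_left (Submodule.map_mono ih) _
  have hdown : ∀ n, A (n + 2) ≤ A (n + 1) → A (n + 1) ≤ A n := by
    intro n h v hv
    have h1 : v * c ∈ A (n + 2) := by
      rw [hA1 (n + 1)]
      exact (le_sup_right : _ ≤ Ideal.span {x} ⊔ _) ⟨v, hv, rfl⟩
    have h2 := h h1
    rw [hA1] at h2
    obtain ⟨α, hα, β, ⟨w, hw, rfl⟩, hαβ⟩ := Submodule.mem_sup.mp h2
    obtain ⟨y, rfl⟩ := Ideal.mem_span_singleton'.mp hα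
    rw [LinearMap.toSpanSingleton_apply, smul_eq_mul] at hαβ
    have h3 : y * x = (v - w) * c := by rw [sub_mul, ← hαβ, add_sub_cancel_right]
    have h4 := hcon' y _ h3
    rw [h4] at h3
    have h5 := hc _ h3.symm
    rw [sub_eq_zero] at h5
    rw [h5]
    exact hw
  obtain ⟨n, hn⟩ := monotone_stabilizes_iff_noetherian.mpr (inferInstance : IsNoetherian T T)
    ⟨A, monotone_nat_of_le_succ hmono⟩
  have h1 : A (n + 1) ≤ A n := (hn (n + 1) (Nat.le_succ n)).symm.le
  have h2 : ∀ m, A (m + 1) ≤ A m → A 1 ≤ A 0 := by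
    intro m
    induction m with
    | zero => exact fun h => h
    | succ m ih => exact fun h => ih (hdown m h)
  have h3 := h2 n h1
  apply hx
  have h4 : x ∈ A 0 := h3 (by
    change x ∈ A (0 + 1)
    rw [hA1]
    exact (le_sup_left : Ideal.span {x} ≤ _) (Ideal.mem_span_singleton_self x))
  rwa [hA0, Ideal.mem_bot] at h4

/-- essential left ideals -/
def Ess (L : Ideal T) : Prop := ∀ x, x ≠ 0 → ∃ t, t * x ≠ 0 ∧ t * x ∈ L

theorem ns [IsNoetherianRing T] (hp : Prm T) {y : T} (h : Ess (lann y)) : y = 0 := by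
  by_contra hy
  obtain ⟨x, hx⟩ := exists_not_nil hp hy
  obtain ⟨n, hn, hsq⟩ := exists_pow (x * y)
  obtain ⟨m, hm⟩ := Nat.exists_eq_add_of_le' hn
  have h1 : ∀ w, w ≠ 0 → ∃ t, t * w ≠ 0 ∧ t * w * (x * y) = 0 := by
    intro w hw
    by_cases h2 : w * x = 0
    · refine ⟨1, by rwa [one_mul], ?_⟩
      rw [one_mul, ← mul_assoc, h2, zero_mul]
    · obtain ⟨t, ht1, ht2⟩ := h _ h2
      rw [mem_lann] at ht2
      refine ⟨t, ?_, ?_⟩
      · intro h3
        apply ht1
        rw [← mul_assoc, h3, zero_mul]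
      · rw [← mul_assoc, mul_assoc t]
        exact ht2
  obtain ⟨t, ht1, ht2⟩ := h1 _ (hx n)
  apply ht1
  apply hsq
  rw [← mul_assoc]
  have h3 : (x * y) ^ n = (x * y) * (x * y) ^ m := by rw [hm, pow_succ']
  nth_rewrite 2 [h3]
  rw [← mul_assoc, ht2, zero_mul]

theorem rreg [IsNoetherianRing T] (hp : Prm T) {c : T} (hc : ∀ w, w * c = 0 → w = 0) :
    ∀ y, c * y = 0 → y = 0 := by
  intro y hy
  apply ns hp
  intro x hx
  obtain ⟨t, ht, y', hy'⟩ := ess_of_lreg hc hx
  refine ⟨t, ht, ?_⟩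
  rw [mem_lann, hy', mul_assoc, hy, mul_zero]

theorem ess_exists [IsNoetherianRing T] (hp : Prm T) {L : Ideal T} (hL : Ess L) :
    ∃ c ∈ L, c ∈ nonZeroDivisors T := by
  obtain ⟨c, hc, hcw⟩ := exists_lreg hp ⊥ L (bot_inf_eq L)
  have h1 : ∀ w, w * c = 0 → w = 0 := by
    intro w hw
    by_contra h
    obtain ⟨t, ht1, ht2⟩ := hL w h
    apply ht1
    apply hcw _ ht2
    rw [mul_assoc, hw, mul_zero]
  exact ⟨c, hc, rreg hp h1, h1⟩

theorem ore [IsNoetherianRing T] (hp : Prm T) (a : T) {c : T} (hc : c ∈ nonZeroDivisors T) :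
    ∃ c' ∈ nonZeroDivisors T, ∃ a', c' * a = a' * c := by
  obtain ⟨c', hc', h⟩ := ess_exists hp (L := Submodule.comap (LinearMap.toSpanSingleton T T a)
    (Ideal.span {c})) (by
      intro w hw
      by_cases h1 : w * a = 0
      · refine ⟨1, by rwa [one_mul], ?_⟩
        rw [one_mul, Submodule.mem_comap, LinearMap.toSpanSingleton_apply, smul_eq_mul, h1]
        exact zero_mem _
      · obtain ⟨t, ht, y, hy⟩ := ess_of_lreg hc.2 h1
        refine ⟨t, ?_, ?_⟩
        · intro h2
          apply ht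
          rw [← mul_assoc, h2, zero_mul]
        · rw [Submodule.mem_comap, LinearMap.toSpanSingleton_apply, smul_eq_mul, mul_assoc, hy]
          exact Ideal.mem_span_singleton'.mpr ⟨y, rfl⟩)
  rw [Submodule.mem_comap, LinearMap.toSpanSingleton_apply, smul_eq_mul] at hc'
  obtain ⟨a', ha'⟩ := Ideal.mem_span_singleton'.mp hc'
  exact ⟨c', h, a', ha'.symm⟩

end Left

section Right
variable {T : Type*} [Ring T]

theorem prm_op (hp : Prm T) : Prm Tᵐᵒᵖ := by
  intro a b h
  have h1 := hp b.unop a.unop (fun t => by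
    have h2 := congrArg MulOpposite.unop (h (MulOpposite.op t))
    rw [MulOpposite.unop_mul, MulOpposite.unop_mul, MulOpposite.unop_op] at h2
    rw [mul_assoc]
    exact h2)
  rcases h1 with h1 | h1
  · exact Or.inr (MulOpposite.unop_injective h1)
  · exact Or.inl (MulOpposite.unop_injective h1)

theorem ore_right [IsNoetherianRing Tᵐᵒᵖ] (hp : Prm T) (a : T) {c : T}
    (hc : c ∈ nonZeroDivisors T) : ∃ c' ∈ nonZeroDivisors T, ∃ a', a * c' = c * a' := by
  have hc' : MulOpposite.op c ∈ nonZeroDivisors Tᵐᵒᵖ := by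
    refine ⟨fun x hx => ?_, fun x hx => ?_⟩
    · exact MulOpposite.unop_injective (hc.2 x.unop (congrArg MulOpposite.unop hx))
    · exact MulOpposite.unop_injective (hc.1 x.unop (congrArg MulOpposite.unop hx))
  obtain ⟨d, hd, b, hb⟩ := ore (prm_op hp) (MulOpposite.op a) hc'
  refine ⟨d.unop, ⟨fun x hx => ?_, fun x hx => ?_⟩, b.unop, congrArg MulOpposite.unop hb⟩
  · exact MulOpposite.op_injective (hd.2 (MulOpposite.op x) (congrArg MulOpposite.op hx))
  · exact MulOpposite.op_injective (hd.1 (MulOpposite.op x) (congrArg MulOpposite.op hx))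

end Right

end SepNoe
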