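import Pool.Agent.Lib.MP_dccecd_al.NoeUnit

/-! Products of ideals with modules and annihilators of ideals in modules (for MP_dccecd_al, the
noetherian base theorem). -/

open SepReg SepFin

namespace SepNoe

universe u v w

section Mul
variable {T : Type v} [Ring T] {R : Type u} [Ring R]

/-- the submodule generated by the images of the elements of `S` -/
def mulC (S : Set T) (C : Bim T R) : Submodule R C.X := ⨆ t ∈ S, LinearMap.range (C.act t)

/-- the elements annihilated by `S` -/
def annC (S : Set T) (C : Bim T R) : Submodule R C.X := ⨅ t ∈ S, LinearMap.ker (C.act t)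

theorem mem_annC {S : Set T} {C : Bim T R} {x : C.X} : x ∈ annC S C ↔ ∀ t ∈ S, C.act t x = 0 := by
  simp only [annC, Submodule.mem_iInf, LinearMap.mem_ker]

theorem act_mem_mulC {S : Set T} {C : Bim T R} {t : T} (ht : t ∈ S) (x : C.X) :
    C.act t x ∈ mulC S C :=
  (le_iSup₂ (f := fun t (_ : t ∈ S) => LinearMap.range (C.act t)) t ht) ⟨x, rfl⟩

theorem mulC_le {S : Set T} {C : Bim T R} {N : Submodule R C.X}
    (h : ∀ t ∈ S, ∀ x, C.act t x ∈ N) : mulC S C ≤ N := by
  refine iSup₂_le fun t ht => ?_
  rintro _ ⟨x, rfl⟩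
  exact h t ht x

theorem mulC_mono {S S' : Set T} (h : S ⊆ S') (C : Bim T R) : mulC S C ≤ mulC S' C :=
  mulC_le fun t ht x => act_mem_mulC (h ht) x

theorem annC_anti {S S' : Set T} (h : S ⊆ S') (C : Bim T R) : annC S' C ≤ annC S C := by
  intro x hx
  rw [mem_annC] at hx ⊢
  exact fun t ht => hx t (h ht)

theorem mulC_finset [IsNoetherianRing Tᵐᵒᵖ] (S : Set T) :
    ∃ F : Finset T, (F : Set T) ⊆ S ∧ ∀ C : Bim T R, mulC S C = ⨆ t ∈ F, LinearMap.range (C.act t) := by
  classical
  obtain ⟨F, hF, hspan⟩ := (Submodule.fg_span_iff_fg_span_finset_subset (R := Tᵐᵒᵖ)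
    (MulOpposite.op '' S)).mp (IsNoetherian.noetherian _)
  have hF' : ∀ t ∈ F, t.unop ∈ S := by
    intro t ht
    obtain ⟨s, hs, rfl⟩ := hF ht
    exact hs
  refine ⟨F.image MulOpposite.unop, ?_, fun C => ?_⟩
  · intro t ht
    rw [Finset.coe_image] at ht
    obtain ⟨s, hs, rfl⟩ := ht
    exact hF' s hs
  set N : Submodule R C.X := ⨆ t ∈ F.image MulOpposite.unop, LinearMap.range (C.act t) with hN
  have hmem : ∀ t ∈ F, ∀ x, C.act t.unop x ∈ N := by
    intro t ht x
    exact (le_iSup₂ (f := fun t (_ : t ∈ F.image MulOpposite.unop) => LinearMap.range (C.act t))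
      t.unop (Finset.mem_image_of_mem _ ht)) ⟨x, rfl⟩
  apply le_antisymm
  · apply mulC_le
    intro t ht x
    have h1 : ∀ y ∈ Submodule.span Tᵐᵒᵖ (F : Set Tᵐᵒᵖ), ∀ x, C.act y.unop x ∈ N := by
      intro y hy
      induction hy using Submodule.span_induction with
      | mem y hy => exact hmem y hy
      | zero =>
        intro x
        rw [MulOpposite.unop_zero, C.act_zero]
        exact N.zero_mem
      | add y z _ _ hy hz =>
        intro x
        rw [MulOpposite.unop_add, C.act_add]
        exact N.add_mem (hy x) (hz x)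
      | smul a y _ hy =>
        intro x
        rw [smul_eq_mul, MulOpposite.unop_mul, C.act_mul]
        exact hy _
    have h2 : MulOpposite.op t ∈ Submodule.span Tᵐᵒᵖ (F : Set Tᵐᵒᵖ) := by
      rw [← hspan]
      exact Submodule.subset_span ⟨t, ht, rfl⟩
    exact h1 _ h2 x
  · refine iSup₂_le fun t ht => ?_
    obtain ⟨s, hs, rfl⟩ := Finset.mem_image.mp ht
    rintro _ ⟨x, rfl⟩
    exact act_mem_mulC (hF' s hs) x

theorem annC_finset [IsNoetherianRing T] (S : Set T) :
    ∃ F : Finset T, (F : Set T) ⊆ S ∧ ∀ C : Bim T R, annC S C = annC (F : Set T) C := by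
  obtain ⟨F, hF, hspan⟩ := (Submodule.fg_span_iff_fg_span_finset_subset (R := T) S).mp
    (IsNoetherian.noetherian _)
  refine ⟨F, hF, fun C => le_antisymm (annC_anti hF C) ?_⟩
  intro x hx
  rw [mem_annC] at hx ⊢
  intro t ht
  have h1 : ∀ y ∈ Submodule.span T (F : Set T), C.act y x = 0 := by
    intro y hy
    induction hy using Submodule.span_induction with
    | mem y hy => exact hx y hy
    | zero => rw [C.act_zero]
    | add y z _ _ hy hz => rw [C.act_add, hy, hz, add_zero]
    | smul a y _ hy => rw [smul_eq_mul, C.act_mul, hy, map_zero]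
  apply h1
  rw [← hspan]
  exact Submodule.subset_span ht

/-- a finite set of elements acts by one map into a power -/
theorem annC_eq_ker (F : Finset T) (C : Bim T R) :
    annC (F : Set T) C =
      LinearMap.ker (LinearMap.pi fun i : Fin F.card => C.act (F.equivFin.symm i).1) := by
  ext x
  rw [mem_annC, LinearMap.mem_ker]
  constructor
  · intro h
    funext i
    exact h _ (F.equivFin.symm i).2
  · intro h t ht
    have h1 := congrFun h (F.equivFin ⟨t, ht⟩)
    rw [LinearMap.pi_apply, Equiv.symm_apply_apply] at h1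
    exact h1

variable [VNR R]

theorem quo_proj' {P : Type u} [AddCommGroup P] [Module R P] [Module.Finite R P]
    [Module.Projective R P] (N : Submodule R P) [Module.Finite R N] [Module.Projective R N] :
    Module.Projective R (P ⧸ N) := by
  have h := inst_coker_proj N.subtype
  rw [Submodule.range_subtype] at h
  exact h

instance mulC_fin [IsNoetherianRing Tᵐᵒᵖ] (S : Set T) (C : Bim T R) :
    Module.Finite R (mulC S C) := by
  obtain ⟨F, -, h⟩ := mulC_finset (R := R) S
  rw [Module.Finite.iff_fg, h]
  exact Submodule.fg_biSup _ _ fun i _ => range_fg _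

instance mulC_proj [IsNoetherianRing Tᵐᵒᵖ] (S : Set T) (C : Bim T R) :
    Module.Projective R (mulC S C) := proj_of_fg _ (Module.Finite.iff_fg.mp inferInstance)

instance mulC_quo [IsNoetherianRing Tᵐᵒᵖ] (S : Set T) (C : Bim T R) :
    Module.Projective R (C.X ⧸ mulC S C) := quo_proj' _

instance annC_fin [IsNoetherianRing T] (S : Set T) (C : Bim T R) :
    Module.Finite R (annC S C) := by
  obtain ⟨F, -, h⟩ := annC_finset (R := R) S
  rw [h, annC_eq_ker]
  infer_instance

instance annC_proj [IsNoetherianRing T] (S : Set T) (C : Bim T R) :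
    Module.Projective R (annC S C) := proj_of_fg _ (Module.Finite.iff_fg.mp inferInstance)

instance annC_quo [IsNoetherianRing T] (S : Set T) (C : Bim T R) :
    Module.Projective R (C.X ⧸ annC S C) := quo_proj' _

/-- the class of the quotient by `S C` -/
def yq [IsNoetherianRing Tᵐᵒᵖ] (S : Set T) : Bim T R → VR R := fun C => cls R (C.X ⧸ mulC S C)

/-- the class of the annihilator of `S` -/
def ya [IsNoetherianRing T] (S : Set T) : Bim T R → VR R := fun C => cls R (annC S C)

theorem yq_anti [IsNoetherianRing Tᵐᵒᵖ] {S S' : Set T} (C : Bim T R)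
    (h : mulC S C ≤ mulC S' C) : Le (yq S' C) (yq S C) := by
  refine le_of_surj (Submodule.mapQ _ _ LinearMap.id h) ?_
  intro x
  obtain ⟨v, rfl⟩ := Submodule.mkQ_surjective _ x
  exact ⟨Submodule.Quotient.mk v, rfl⟩

theorem ya_anti [IsNoetherianRing T] {S S' : Set T} (h : S ⊆ S') (C : Bim T R) :
    Le (ya S' C) (ya S C) :=
  le_of_inj (Submodule.inclusion (annC_anti h C)) (Submodule.inclusion_injective _)

/-- the two-sided ideal generated by an element -/
def tsp (c : T) : Ideal T := Ideal.span (Set.range fun v : T => c * v)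

omit [VNR R] in
theorem mem_tsp (c : T) : c ∈ tsp c := Ideal.subset_span ⟨1, mul_one c⟩

instance tsp_two (c : T) : (tsp c).IsTwoSided := by
  constructor
  intro a b ha
  induction ha using Submodule.span_induction with
  | mem x hx =>
    obtain ⟨v, rfl⟩ := hx
    exact Ideal.subset_span ⟨v * b, (mul_assoc _ _ _).symm⟩
  | zero =>
    rw [zero_mul]
    exact zero_mem _
  | add x y _ _ hx hy =>
    rw [add_mul]
    exact add_mem hx hy
  | smul r x _ hx =>
    rw [smul_eq_mul, mul_assoc]
    exact Ideal.mul_mem_left _ _ hx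

end Mul

end SepNoe
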