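import Pool.Agent.Lib.MP_dccecd_al.NoeDom

/-! Normal elements: filtrations of modules by the powers of a normal element (for MP_dccecd_al, the
noetherian base theorem). -/

open SepReg SepFin

namespace SepNoe

universe u v w

section Nrm
variable {T : Type v} [Ring T]

/-- normal elements -/
structure Nrm (z : T) : Prop where
  l : ∀ t, ∃ t', z * t = t' * z
  r : ∀ t, ∃ t', t * z = z * t'

theorem Nrm.one : Nrm (1 : T) :=
  ⟨fun t => ⟨t, by rw [one_mul, mul_one]⟩, fun t => ⟨t, by rw [one_mul, mul_one]⟩⟩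

theorem Nrm.mul {y z : T} (hy : Nrm y) (hz : Nrm z) : Nrm (y * z) := by
  constructor
  · intro t
    obtain ⟨s, hs⟩ := hz.l t
    obtain ⟨r, hr⟩ := hy.l s
    exact ⟨r, by rw [mul_assoc, hs, ← mul_assoc, hr, mul_assoc]⟩
  · intro t
    obtain ⟨s, hs⟩ := hy.r t
    obtain ⟨r, hr⟩ := hz.r s
    exact ⟨r, by rw [← mul_assoc, hs, mul_assoc, hr, mul_assoc]⟩

theorem Nrm.pow {z : T} (hz : Nrm z) (k : ℕ) : Nrm (z ^ k) := by
  induction k with
  | zero =>
    rw [pow_zero]
    exact Nrm.one
  | succ k ih =>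
    rw [pow_succ]
    exact ih.mul hz

theorem Nrm.reg_r (hp : Prm T) {z : T} (hz : Nrm z) (hz0 : z ≠ 0) {a : T} (h : a * z = 0) :
    a = 0 := by
  rcases hp a z (fun t => by
    obtain ⟨t', ht'⟩ := hz.r t
    rw [mul_assoc, ht', ← mul_assoc, h, zero_mul]) with h1 | h1
  · exact h1
  · exact absurd h1 hz0

theorem Nrm.reg_l (hp : Prm T) {z : T} (hz : Nrm z) (hz0 : z ≠ 0) {a : T} (h : z * a = 0) :
    a = 0 := by
  rcases hp z a (fun t => by
    obtain ⟨t', ht'⟩ := hz.l t
    rw [ht', mul_assoc, h, mul_zero]) with h1 | h1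
  · exact absurd h1 hz0
  · exact h1

/-- the automorphism given by a nonzero normal element of a prime ring -/
theorem Nrm.exists_aut (hp : Prm T) {z : T} (hz : Nrm z) (hz0 : z ≠ 0) :
    ∃ σ : RingAut T, ∀ t, z * t = σ t * z := by
  choose s hs using hz.l
  choose r hr using hz.r
  have hcr : ∀ {a b : T}, a * z = b * z → a = b := by
    intro a b h
    rw [← sub_eq_zero]
    apply hz.reg_r hp hz0
    rw [sub_mul, h, sub_self]
  have hcl : ∀ {a b : T}, z * a = z * b → a = b := by
    intro a b h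
    rw [← sub_eq_zero]
    apply hz.reg_l hp hz0
    rw [mul_sub, h, sub_self]
  have h1 : Function.LeftInverse r s := fun t => hcl (by rw [← hr, ← hs])
  have h2 : Function.RightInverse r s := fun t => hcr (by rw [← hs, ← hr])
  have h3 : ∀ a b, s (a * b) = s a * s b := by
    intro a b
    apply hcr
    rw [← hs, ← mul_assoc, hs, mul_assoc, hs, mul_assoc]
  have h4 : ∀ a b, s (a + b) = s a + s b := by
    intro a b
    apply hcr
    rw [← hs, mul_add, add_mul, hs, hs]
  exact ⟨{ toFun := s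
           invFun := r
           left_inv := h1
           right_inv := h2
           map_mul' := h3
           map_add' := h4 }, hs⟩

theorem aut_pow {z : T} {σ : RingAut T} (h : ∀ t, z * t = σ t * z) (k : ℕ) (t : T) :
    z ^ k * t = (σ ^ k) t * z ^ k := by
  induction k generalizing t with
  | zero => rw [pow_zero, pow_zero, one_mul, mul_one, RingAut.one_apply]
  | succ k ih =>
    rw [pow_succ, mul_assoc, h, ← mul_assoc, ih, mul_assoc, pow_succ σ, RingAut.mul_apply]

/-- the traces of the images of `e` under the powers of an automorphism -/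
theorem aut_sup [IsNoetherianRing T] (σ : RingAut T) (e : T) (P : Ideal T) [hP : P.IsTwoSided]
    (m : ℕ) (h : ∀ k : ℕ, m ≤ k → (σ ^ (k + 1)) e ∈ P) : e ∈ P := by
  -- an ascending chain
  set A : ℕ →o Ideal T :=
    { toFun := fun n => ⨆ k ∈ Finset.range n, tsp ((σ ^ (-(k : ℤ))) e)
      monotone' := by
        intro i j hij
        refine iSup₂_le fun k hk => ?_
        refine le_iSup₂ (f := fun k (_ : k ∈ Finset.range j) => tsp ((σ ^ (-(k : ℤ))) e)) k ?_
        rw [Finset.mem_range] at hk ⊢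
        omega } with hA
  obtain ⟨n, hn⟩ := monotone_stabilizes_iff_noetherian.mpr (inferInstance : IsNoetherian T T) A
  have h1 : (σ ^ (-(n : ℤ))) e ∈ A n := by
    rw [hn (n + 1) (Nat.le_succ n)]
    have h2 : tsp ((σ ^ (-(n : ℤ))) e) ≤ A (n + 1) :=
      le_iSup₂ (f := fun k (_ : k ∈ Finset.range (n + 1)) => tsp ((σ ^ (-(k : ℤ))) e)) n
        (Finset.mem_range.mpr (Nat.lt_succ_self n))
    exact h2 (mem_tsp _)
  -- one step
  have step : ∀ j : ℕ, (∀ i : ℕ, j < i → (σ ^ (i : ℤ)) e ∈ P) → (σ ^ (j : ℤ)) e ∈ P := by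
    intro j hj
    have h2 : A n ≤ Ideal.comap (σ ^ ((n : ℤ) + j) : RingAut T).toRingHom P := by
      refine iSup₂_le fun k hk => ?_
      rw [Finset.mem_range] at hk
      rw [tsp, Ideal.span_le]
      rintro _ ⟨v, rfl⟩
      rw [SetLike.mem_coe, Ideal.mem_comap, map_mul]
      apply hP.mul_mem_of_left
      have h3 : (σ ^ ((n : ℤ) + j) : RingAut T).toRingHom ((σ ^ (-(k : ℤ))) e) =
          (σ ^ (((n + j - k : ℕ)) : ℤ)) e := by
        change (σ ^ ((n : ℤ) + j) : RingAut T) ((σ ^ (-(k : ℤ))) e) = _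
        rw [← RingAut.mul_apply, ← zpow_add]
        congr 2
        omega
      rw [h3]
      apply hj
      omega
    have h3 := h2 h1
    rw [Ideal.mem_comap] at h3
    have h4 : (σ ^ ((n : ℤ) + j) : RingAut T).toRingHom ((σ ^ (-(n : ℤ))) e) =
        (σ ^ (j : ℤ)) e := by
      change (σ ^ ((n : ℤ) + j) : RingAut T) ((σ ^ (-(n : ℤ))) e) = _
      rw [← RingAut.mul_apply, ← zpow_add]
      congr 2
      omega
    rwa [h4] at h3
  have all : ∀ q : ℕ, ∀ i : ℕ, m ≤ i + q → (σ ^ (i : ℤ)) e ∈ P := by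
    intro q
    induction q with
    | zero =>
      intro i hi
      rcases Nat.eq_or_lt_of_le hi with h2 | h2
      · -- `i = m`
        apply step
        intro i' hi'
        have h3 := h (i' - 1) (by omega)
        rw [show i' - 1 + 1 = i' by omega] at h3
        rwa [zpow_natCast]
      · have h3 := h (i - 1) (by omega)
        rw [show i - 1 + 1 = i by omega] at h3
        rwa [zpow_natCast]
    | succ q ih =>
      intro i hi
      by_cases h2 : m ≤ i + q
      · exact ih i h2
      · apply step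
        intro i' hi'
        exact ih i' (by omega)
  have h5 := all m 0 (by omega)
  rwa [Nat.cast_zero, zpow_zero, RingAut.one_apply] at h5

end Nrm

section Bim
variable {T : Type v} [Ring T] {R : Type u} [Ring R] [VNR R]

theorem pp_semi_surj {C D : Bim T R} (f : C.X →ₗ[R] D.X) {e e' : T}
    (h : ∀ x, f (C.act e x) = D.act e' (f x)) (hf : Function.Surjective f) :
    Le (pp e' D) (pp e C) := by
  refine le_of_surj (f.restrict (p := LinearMap.range (C.act e)) (q := LinearMap.range (D.act e'))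
    (by
      rintro _ ⟨x, rfl⟩
      rw [h]
      exact ⟨_, rfl⟩)) ?_
  rintro ⟨_, y, rfl⟩
  obtain ⟨x, rfl⟩ := hf y
  exact ⟨⟨_, x, rfl⟩, Subtype.ext (h x)⟩

theorem pp_semi_inj {C D : Bim T R} (f : C.X →ₗ[R] D.X) {e e' : T}
    (h : ∀ x, f (C.act e x) = D.act e' (f x)) (hf : Function.Injective f) :
    Le (pp e C) (pp e' D) := by
  refine le_of_inj (f.restrict (p := LinearMap.range (C.act e)) (q := LinearMap.range (D.act e'))
    (by
      rintro _ ⟨x, rfl⟩
      rw [h]
      exact ⟨_, rfl⟩)) ?_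
  intro x y hxy
  apply Subtype.ext
  apply hf
  exact congrArg Subtype.val hxy

omit [VNR R] in
theorem ranN_stable (C : Bim T R) {y : T} (hy : Nrm y) (s : T) :
    ∀ x ∈ LinearMap.range (C.act y), C.act s x ∈ LinearMap.range (C.act y) := by
  rintro _ ⟨v, rfl⟩
  obtain ⟨s', hs'⟩ := hy.r s
  rw [← C.act_mul, hs', C.act_mul]
  exact ⟨_, rfl⟩

omit [VNR R] in
theorem kerN_stable (C : Bim T R) {y : T} (hy : Nrm y) (s : T) :
    ∀ x ∈ LinearMap.ker (C.act y), C.act s x ∈ LinearMap.ker (C.act y) := by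
  intro x hx
  obtain ⟨s', hs'⟩ := hy.l s
  rw [LinearMap.mem_ker] at hx ⊢
  rw [← C.act_mul, hs', C.act_mul, hx, map_zero]

/-- the image of a normal element -/
abbrev ranN (C : Bim T R) {y : T} (hy : Nrm y) : Bim T R :=
  C.sub (LinearMap.range (C.act y)) (ranN_stable C hy)

/-- the kernel of a normal element -/
abbrev kerN (C : Bim T R) {y : T} (hy : Nrm y) : Bim T R :=
  C.sub (LinearMap.ker (C.act y)) (kerN_stable C hy)

/-- the cokernel of a normal element -/
abbrev cokN (C : Bim T R) {y : T} (hy : Nrm y) : Bim T R :=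
  C.quo (LinearMap.range (C.act y)) (ranN_stable C hy)

instance ker_quo_proj (C : Bim T R) (y : T) :
    Module.Projective R (C.X ⧸ LinearMap.ker (C.act y)) := quo_proj' _

/-- the quotient by the kernel of a normal element -/
abbrev coimN (C : Bim T R) {y : T} (hy : Nrm y) : Bim T R :=
  C.quo (LinearMap.ker (C.act y)) (kerN_stable C hy)

theorem pp_ranN (C : Bim T R) {y : T} (hy : Nrm y) {e : T} (he : e * e = e) :
    pp e C = pp e (ranN C hy) + pp e (cokN C hy) := pp_split C _ (ranN_stable C hy) he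

theorem pp_kerN (C : Bim T R) {y : T} (hy : Nrm y) {e : T} (he : e * e = e) :
    pp e C = pp e (kerN C hy) + pp e (coimN C hy) := pp_split C _ (kerN_stable C hy) he

variable {z : T} (hz : Nrm z)

/-- the layers of the filtration by the images of the powers of a normal element -/
abbrev layR (C : Bim T R) (n : ℕ) : Bim T R := cokN (ranN C (hz.pow n)) hz

/-- the layers of the filtration by the kernels of the powers of a normal element -/
abbrev layK (C : Bim T R) (n : ℕ) : Bim T R := kerN (coimN C (hz.pow n)) hz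

theorem layR_step (C : Bim T R) (n : ℕ) {e : T} (he : e * e = e) :
    pp e (cokN C (hz.pow (n + 1))) = pp e (layR hz C n) + pp e (cokN C (hz.pow n)) := by
  have h1 : ∀ c : C.X, C.act (z ^ (n + 1)) c = C.act z (C.act (z ^ n) c) := by
    intro c
    rw [pow_succ', C.act_mul]
  have h2 : LinearMap.range (C.act (z ^ (n + 1))) ≤ LinearMap.range (C.act (z ^ n)) := by
    rintro _ ⟨c, rfl⟩
    rw [pow_succ, C.act_mul]
    exact ⟨_, rfl⟩
  set i : (layR hz C n).X →ₗ[R] (cokN C (hz.pow (n + 1))).X :=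
    Submodule.mapQ _ _ (LinearMap.range (C.act (z ^ n))).subtype (by
      rintro _ ⟨⟨_, c, rfl⟩, rfl⟩
      rw [Submodule.mem_comap]
      exact ⟨c, h1 c⟩) with hi
  set q : (cokN C (hz.pow (n + 1))).X →ₗ[R] (cokN C (hz.pow n)).X :=
    Submodule.mapQ _ _ LinearMap.id h2 with hq
  refine pp_exact (K := layR hz C n) (X := cokN C (hz.pow (n + 1))) (Y := cokN C (hz.pow n)) i q
    ?_ ?_ ?_ ?_ ?_ he
  · intro s x
    obtain ⟨v, rfl⟩ := Submodule.mkQ_surjective _ x
    rfl
  · intro s x
    obtain ⟨v, rfl⟩ := Submodule.mkQ_surjective _ x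
    rfl
  · rw [injective_iff_map_eq_zero]
    intro x hx
    obtain ⟨⟨v, hv⟩, rfl⟩ := Submodule.mkQ_surjective _ x
    have h3 : (Submodule.Quotient.mk v : (cokN C (hz.pow (n + 1))).X) = 0 := hx
    rw [Submodule.Quotient.mk_eq_zero] at h3
    obtain ⟨c, hc⟩ := h3
    rw [Submodule.mkQ_apply, Submodule.Quotient.mk_eq_zero]
    exact ⟨⟨C.act (z ^ n) c, c, rfl⟩, Subtype.ext ((h1 c).symm.trans hc)⟩
  · intro x
    obtain ⟨v, rfl⟩ := Submodule.mkQ_surjective _ x
    exact ⟨Submodule.Quotient.mk v, rfl⟩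
  · intro x
    obtain ⟨v, rfl⟩ := Submodule.mkQ_surjective _ x
    constructor
    · intro hx
      have h3 : (Submodule.Quotient.mk v : (cokN C (hz.pow n)).X) = 0 := hx
      rw [Submodule.Quotient.mk_eq_zero] at h3
      exact ⟨Submodule.Quotient.mk ⟨v, h3⟩, rfl⟩
    · rintro ⟨k, hk⟩
      obtain ⟨⟨w, hw⟩, rfl⟩ := Submodule.mkQ_surjective _ k
      rw [← hk]
      change (Submodule.Quotient.mk w : (cokN C (hz.pow n)).X) = 0
      rw [Submodule.Quotient.mk_eq_zero]
      exact hw

theorem layR_semi (C : Bim T R) (n j : ℕ) {e e' : T} (h : z ^ j * e = e' * z ^ j) :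
    Le (pp e' (layR hz C (n + j))) (pp e (layR hz C n)) := by
  have h1 : ∀ x ∈ LinearMap.range (C.act (z ^ n)),
      C.act (z ^ j) x ∈ LinearMap.range (C.act (z ^ (n + j))) := by
    rintro _ ⟨c, rfl⟩
    refine ⟨c, ?_⟩
    rw [add_comm, pow_add, C.act_mul]
  set g : (ranN C (hz.pow n)).X →ₗ[R] (ranN C (hz.pow (n + j))).X :=
    (C.act (z ^ j)).restrict h1 with hg
  have hgs : ∀ x, g ((ranN C (hz.pow n)).act z x) = (ranN C (hz.pow (n + j))).act z (g x) := by
    intro x
    apply Subtype.ext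
    change C.act (z ^ j) (C.act z x.1) = C.act z (C.act (z ^ j) x.1)
    rw [← C.act_mul, ← C.act_mul, ← pow_succ, ← pow_succ']
  set f : (layR hz C n).X →ₗ[R] (layR hz C (n + j)).X :=
    Submodule.mapQ _ _ g (by
      rintro _ ⟨x, rfl⟩
      rw [Submodule.mem_comap, hgs]
      exact ⟨_, rfl⟩) with hf
  refine pp_semi_surj f ?_ ?_
  · intro x
    obtain ⟨v, rfl⟩ := Submodule.mkQ_surjective _ x
    have h2 : g ((ranN C (hz.pow n)).act e v) = (ranN C (hz.pow (n + j))).act e' (g v) := by
      apply Subtype.ext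
      change C.act (z ^ j) (C.act e v.1) = C.act e' (C.act (z ^ j) v.1)
      rw [← C.act_mul, ← C.act_mul, h]
    exact congrArg Submodule.Quotient.mk h2
  · intro y
    obtain ⟨⟨_, c, rfl⟩, rfl⟩ := Submodule.mkQ_surjective _ y
    refine ⟨Submodule.Quotient.mk ⟨C.act (z ^ n) c, c, rfl⟩, ?_⟩
    have h2 : g ⟨C.act (z ^ n) c, c, rfl⟩ = ⟨C.act (z ^ (n + j)) c, c, rfl⟩ := by
      apply Subtype.ext
      change C.act (z ^ j) (C.act (z ^ n) c) = C.act (z ^ (n + j)) c
      rw [← C.act_mul, ← pow_add, add_comm]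
    exact congrArg Submodule.Quotient.mk h2

/-- the cokernel of a power dominates the images on the last layer -/
theorem layR_sum (C : Bim T R) (N : ℕ) {e : T} (he : e * e = e) {p : ℕ → T}
    (hp : ∀ j, z ^ j * e = p j * z ^ j) :
    Le (∑ k ∈ Finset.range N, pp (p (k + 1)) (layR hz C N)) (pp e (cokN C (hz.pow N))) := by
  have key : ∀ n, n ≤ N → Le (∑ i ∈ Finset.range n, pp (p (N - i)) (layR hz C N))
      (pp e (cokN C (hz.pow n))) := by
    intro n
    induction n with
    | zero =>
      intro _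
      rw [Finset.sum_range_zero]
      exact ⟨_, zero_add _⟩
    | succ n ih =>
      intro hn
      rw [Finset.sum_range_succ, layR_step hz C n he, add_comm]
      refine Le.add ?_ (ih (Nat.le_of_succ_le hn))
      have h1 := layR_semi hz C n (N - n) (e := e) (e' := p (N - n)) (hp _)
      rwa [show n + (N - n) = N by omega] at h1
  have h1 := key N le_rfl
  rw [← Finset.sum_range_reflect]
  refine Le.trans (Le.sum _ fun i hi => ?_) h1
  rw [Finset.mem_range] at hi
  rw [show N - 1 - i + 1 = N - i by omega]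
  exact Le.rfl'

theorem layK_step (C : Bim T R) (n : ℕ) {e : T} (he : e * e = e) :
    pp e (kerN C (hz.pow (n + 1))) = pp e (kerN C (hz.pow n)) + pp e (layK hz C n) := by
  have h1 : ∀ c : C.X, C.act (z ^ (n + 1)) c = C.act (z ^ n) (C.act z c) := by
    intro c
    rw [pow_succ, C.act_mul]
  have h2 : LinearMap.ker (C.act (z ^ n)) ≤ LinearMap.ker (C.act (z ^ (n + 1))) := by
    intro c hc
    rw [LinearMap.mem_ker] at hc ⊢
    rw [pow_succ', C.act_mul, hc, map_zero]
  set i : (kerN C (hz.pow n)).X →ₗ[R] (kerN C (hz.pow (n + 1))).X :=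
    Submodule.inclusion h2 with hi
  have h3 : ∀ c : LinearMap.ker (C.act (z ^ (n + 1))),
      (LinearMap.ker (C.act (z ^ n))).mkQ c.1 ∈ LinearMap.ker ((coimN C (hz.pow n)).act z) := by
    intro c
    rw [LinearMap.mem_ker]
    change (Submodule.Quotient.mk (C.act z c.1) : (coimN C (hz.pow n)).X) = 0
    rw [Submodule.Quotient.mk_eq_zero, LinearMap.mem_ker, ← h1]
    exact c.2
  set q : (kerN C (hz.pow (n + 1))).X →ₗ[R] (layK hz C n).X :=
    ((LinearMap.ker (C.act (z ^ n))).mkQ.comp
      (LinearMap.ker (C.act (z ^ (n + 1)))).subtype).codRestrict _ h3 with hq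
  refine pp_exact (K := kerN C (hz.pow n)) (X := kerN C (hz.pow (n + 1))) (Y := layK hz C n) i q
    ?_ ?_ ?_ ?_ ?_ he
  · intro s x
    rfl
  · intro s x
    rfl
  · exact Submodule.inclusion_injective h2
  · rintro ⟨x, hx⟩
    obtain ⟨v, rfl⟩ := Submodule.mkQ_surjective _ x
    rw [LinearMap.mem_ker] at hx
    have h4 : (Submodule.Quotient.mk (C.act z v) : (coimN C (hz.pow n)).X) = 0 := hx
    rw [Submodule.Quotient.mk_eq_zero, LinearMap.mem_ker, ← h1] at h4
    exact ⟨⟨v, h4⟩, rfl⟩
  · intro x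
    constructor
    · intro hx
      have h4 : (Submodule.Quotient.mk x.1 : (coimN C (hz.pow n)).X) = 0 :=
        congrArg Subtype.val hx
      rw [Submodule.Quotient.mk_eq_zero] at h4
      exact ⟨⟨x.1, h4⟩, rfl⟩
    · rintro ⟨k, rfl⟩
      apply Subtype.ext
      change (Submodule.Quotient.mk k.1 : (coimN C (hz.pow n)).X) = 0
      rw [Submodule.Quotient.mk_eq_zero]
      exact k.2

theorem layK_semi (C : Bim T R) (n j : ℕ) {e e' : T} (h : z ^ j * e' = e * z ^ j) :
    Le (pp e' (layK hz C (n + j))) (pp e (layK hz C n)) := by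
  have h1 : ∀ c : C.X, C.act (z ^ (n + j)) c = C.act (z ^ n) (C.act (z ^ j) c) := by
    intro c
    rw [pow_add, C.act_mul]
  set g : (coimN C (hz.pow (n + j))).X →ₗ[R] (coimN C (hz.pow n)).X :=
    Submodule.mapQ _ _ (C.act (z ^ j)) (by
      intro c hc
      rw [LinearMap.mem_ker] at hc
      rw [Submodule.mem_comap, LinearMap.mem_ker, ← h1, hc]) with hg
  have hgs : ∀ x, g ((coimN C (hz.pow (n + j))).act z x) = (coimN C (hz.pow n)).act z (g x) := by
    intro x
    obtain ⟨v, rfl⟩ := Submodule.mkQ_surjective _ x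
    have h2 : C.act (z ^ j) (C.act z v) = C.act z (C.act (z ^ j) v) := by
      rw [← C.act_mul, ← C.act_mul, ← pow_succ, ← pow_succ']
    exact congrArg Submodule.Quotient.mk h2
  have hgi : Function.Injective g := by
    rw [injective_iff_map_eq_zero]
    intro x hx
    obtain ⟨v, rfl⟩ := Submodule.mkQ_surjective _ x
    have h3 : (Submodule.Quotient.mk (C.act (z ^ j) v) : (coimN C (hz.pow n)).X) = 0 := hx
    rw [Submodule.Quotient.mk_eq_zero, LinearMap.mem_ker, ← h1] at h3
    rw [Submodule.mkQ_apply, Submodule.Quotient.mk_eq_zero]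
    exact h3
  set f : (layK hz C (n + j)).X →ₗ[R] (layK hz C n).X :=
    g.restrict (p := LinearMap.ker ((coimN C (hz.pow (n + j))).act z))
      (q := LinearMap.ker ((coimN C (hz.pow n)).act z)) (by
      intro x hx
      rw [LinearMap.mem_ker] at hx ⊢
      rw [← hgs, hx, map_zero]) with hf
  refine pp_semi_inj f ?_ ?_
  · rintro ⟨x, hx⟩
    apply Subtype.ext
    obtain ⟨v, rfl⟩ := Submodule.mkQ_surjective _ x
    have h2 : C.act (z ^ j) (C.act e' v) = C.act e (C.act (z ^ j) v) := by
      rw [← C.act_mul, ← C.act_mul, h]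
    exact congrArg Submodule.Quotient.mk h2
  · intro x y hxy
    apply Subtype.ext
    apply hgi
    exact congrArg Subtype.val hxy

/-- the kernel of a power dominates the images on the last layer -/
theorem layK_sum (C : Bim T R) (N : ℕ) {e : T} (he : e * e = e) {p : ℕ → T}
    (hp : ∀ j, z ^ j * p j = e * z ^ j) :
    Le (∑ k ∈ Finset.range N, pp (p (k + 1)) (layK hz C N)) (pp e (kerN C (hz.pow N))) := by
  have key : ∀ n, n ≤ N → Le (∑ i ∈ Finset.range n, pp (p (N - i)) (layK hz C N))
      (pp e (kerN C (hz.pow n))) := by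
    intro n
    induction n with
    | zero =>
      intro _
      rw [Finset.sum_range_zero]
      exact ⟨_, zero_add _⟩
    | succ n ih =>
      intro hn
      rw [Finset.sum_range_succ, layK_step hz C n he]
      refine Le.add (ih (Nat.le_of_succ_le hn)) ?_
      have h1 := layK_semi hz C n (N - n) (e := e) (e' := p (N - n)) (hp _)
      rwa [show n + (N - n) = N by omega] at h1
  have h1 := key N le_rfl
  rw [← Finset.sum_range_reflect]
  refine Le.trans (Le.sum _ fun i hi => ?_) h1
  rw [Finset.mem_range] at hi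
  rw [show N - 1 - i + 1 = N - i by omega]
  exact Le.rfl'

end Bim

end SepNoe
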