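import Pool.Agent.Lib.MP_dccecd_al.NoeRem

/-! The classes of stably equivalent idempotents of a prime noetherian ring agree up to a function
supported on a nonzero ideal (for MP_dccecd_al, the noetherian base theorem). -/

open SepReg SepFin

namespace SepNoe

universe u v w

section Den
variable {T : Type v} [Ring T] {Q : Type w} [Ring Q] {ι : T →+* Q}

/-- denominators in corners -/
theorem exists_den (h : IsOrd ι) [IsArtinianRing Q] (hp : Prm Q) (hpT : Prm T) (q : Q) :
    ∀ (I : Ideal Q) (ε : Q), I = Ideal.span {ε} → ε * ε = ε →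
      ∃ x : T, ε * ι x = ι x ∧ ι x * ε = ι x ∧
        (∃ y : Q, ε * y = y ∧ y * ε = y ∧ y * ι x = ε ∧ ι x * y = ε) ∧ ∃ t : T, q * ι x = ι t := by
  intro I
  induction I using WellFoundedLT.induction with
  | ind I ih =>
    intro ε hI hε
    by_cases h0 : ε = 0
    · subst h0
      refine ⟨0, ?_, ?_, ⟨0, ?_, ?_, ?_, ?_⟩, 0, ?_⟩
      all_goals simp
    obtain ⟨s, hs, hgs, hsg⟩ := exists_min hp hε h0
    have m5 : (ε - s) * s = 0 := by rw [sub_mul, hgs, hs.idem, sub_self]
    have m6 : s * (ε - s) = 0 := by rw [mul_sub, hsg, hs.idem, sub_self]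
    have l1 : (ε - s) * (ε - s) = ε - s := by
      rw [mul_sub, sub_mul, sub_mul, hε, hsg, hgs, hs.idem]
      abel
    obtain ⟨x, hx1, hx2, ⟨y, hy1, hy2, hyx, hxy⟩, t, ht⟩ := ih (Ideal.span {ε - s}) (by
      rw [hI]
      refine lt_of_le_of_ne ?_ ?_
      · rw [Ideal.span_le]
        rintro _ rfl
        rw [SetLike.mem_coe, Ideal.mem_span_singleton']
        exact ⟨ε - s, by rw [sub_mul, hε, hsg]⟩
      · intro h
        have h7 : s ∈ (Ideal.span {ε - s} : Ideal Q) := by
          rw [h, Ideal.mem_span_singleton']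
          exact ⟨s, hsg⟩
        obtain ⟨t, ht⟩ := Ideal.mem_span_singleton'.mp h7
        apply hs.ne
        rw [← hs.idem]
        nth_rewrite 1 [← ht]
        rw [mul_assoc, m5, mul_zero]) (ε - s) rfl l1
    -- the part in the corner of `s`
    obtain ⟨c1, t1, hc1, ht1⟩ := h.left s
    obtain ⟨c, t2, hc, ht2⟩ := h.right s
    obtain ⟨c', t3, hc', ht3⟩ := h.right (q * ι t2)
    have n1 : t1 ≠ 0 := by
      rintro rfl
      rw [map_zero] at ht1
      exact hs.ne ((hc1.mul_right_eq_zero).mp ht1)
    have n2 : t2 * c' ≠ 0 := by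
      intro h1
      have h2 := congrArg ι h1
      rw [map_mul, map_zero] at h2
      have h3 := (hc'.mul_left_eq_zero).mp h2
      rw [← ht2] at h3
      exact hs.ne ((hc.mul_left_eq_zero).mp h3)
    obtain ⟨r, hr⟩ : ∃ r, t2 * c' * r * t1 ≠ 0 := by
      by_contra h1
      push Not at h1
      rcases hpT _ _ h1 with h2 | h2
      · exact n2 h2
      · exact n1 h2
    set z := t2 * c' * r * t1 with hz
    have hzv : ι z = s * (ι c * ι c' * ι r * ι c1) * s := by
      rw [hz, map_mul, map_mul, map_mul, ← ht1, ← ht2]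
      simp only [mul_assoc]
    have hz1 : s * ι z = ι z := by
      rw [hzv]
      simp only [← mul_assoc]
      rw [hs.idem]
    have hz2 : ι z * s = ι z := by rw [hzv, mul_assoc, hs.idem]
    have hz0 : ι z ≠ 0 := by
      intro h1
      apply hr
      apply h.inj
      rw [h1, map_zero]
    obtain ⟨β, β1, β2, β3, β4⟩ := hs.pair hs hz1 hz2 hz0
    have hqz : q * ι z = ι (t3 * r * t1) := by
      rw [hz, map_mul, map_mul, map_mul, map_mul, map_mul, ← ht3]
      simp only [mul_assoc]
    have e1 : s * ι x = 0 := by rw [← hx1, ← mul_assoc, m6, zero_mul]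
    have e2 : ι x * s = 0 := by rw [← hx2, mul_assoc, m5, mul_zero]
    have e3 : (ε - s) * ι z = 0 := by rw [← hz1, ← mul_assoc, m5, zero_mul]
    have e4 : ι z * (ε - s) = 0 := by rw [← hz2, mul_assoc, m6, mul_zero]
    have e5 : s * y = 0 := by rw [← hy1, ← mul_assoc, m6, zero_mul]
    have e6 : y * s = 0 := by rw [← hy2, mul_assoc, m5, mul_zero]
    have e7 : (ε - s) * β = 0 := by rw [← β1, ← mul_assoc, m5, zero_mul]
    have e8 : β * (ε - s) = 0 := by rw [← β2, mul_assoc, m6, mul_zero]
    have hε2 : ε = (ε - s) + s := by abel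
    refine ⟨x + z, ?_, ?_, ⟨y + β, ?_, ?_, ?_, ?_⟩, t + t3 * r * t1, ?_⟩
    · rw [map_add, hε2, add_mul, mul_add, mul_add, hx1, e3, e1, hz1, add_zero, zero_add]
    · rw [map_add, hε2, mul_add, add_mul, add_mul, hx2, e4, e2, hz2, add_zero, zero_add]
    · rw [hε2, add_mul, mul_add, mul_add, hy1, e7, e5, β1, add_zero, zero_add]
    · rw [hε2, mul_add, add_mul, add_mul, hy2, e8, e6, β2, add_zero, zero_add]
    · have q1 : y * ι z = 0 := by rw [← hz1, ← mul_assoc, e6, zero_mul]
      have q2 : β * ι x = 0 := by rw [← hx1, ← mul_assoc, e8, zero_mul]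
      rw [map_add, add_mul, mul_add, mul_add, hyx, q1, q2, β3, add_zero, zero_add, sub_add_cancel]
    · have q1 : ι z * y = 0 := by rw [← hz2, mul_assoc, e5, mul_zero]
      have q2 : ι x * β = 0 := by rw [← hx2, mul_assoc, e7, mul_zero]
      rw [map_add, add_mul, mul_add, mul_add, hxy, q1, q2, β4, add_zero, zero_add, sub_add_cancel]
    · rw [map_add, map_add, mul_add, ht, hqz]

end Den

section Lin
variable {R : Type u} [Ring R] [VNR R]
variable {E F G : Type u} [AddCommGroup E] [Module R E] [Module.Finite R E]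
    [Module.Projective R E] [AddCommGroup F] [Module R F] [Module.Finite R F]
    [Module.Projective R F] [AddCommGroup G] [Module R G] [Module.Finite R G]
    [Module.Projective R G]

/-- two maps with the same source -/
theorem two (s : E →ₗ[R] F) (u : E →ₗ[R] G) :
    ∃ k : VR R, cls R (LinearMap.range s) = cls R (E ⧸ LinearMap.range
        ((LinearMap.ker s).subtype.coprod (LinearMap.ker u).subtype)) + k ∧
      cls R (LinearMap.ker u) = cls R (LinearMap.ker (s.prod u)) + k := by
  set Φ : LinearMap.ker u →ₗ[R] LinearMap.range s :=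
    s.rangeRestrict.comp (LinearMap.ker u).subtype with hΦ
  refine ⟨cls R (LinearMap.range Φ), ?_, ?_⟩
  · rw [← cls_target Φ, add_comm]
    congr 1
    set ψ : E →ₗ[R] (LinearMap.range s ⧸ LinearMap.range Φ) :=
      (LinearMap.range Φ).mkQ.comp s.rangeRestrict with hψ
    have hsurj : Function.Surjective ψ :=
      (Submodule.mkQ_surjective _).comp s.surjective_rangeRestrict
    have hker : LinearMap.ker ψ = LinearMap.range
        ((LinearMap.ker s).subtype.coprod (LinearMap.ker u).subtype) := by
      rw [LinearMap.range_coprod, Submodule.range_subtype, Submodule.range_subtype]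
      apply le_antisymm
      · intro v hv
        rw [LinearMap.mem_ker, hψ, LinearMap.comp_apply, Submodule.mkQ_apply,
          Submodule.Quotient.mk_eq_zero] at hv
        obtain ⟨w, hw⟩ := hv
        have h1 : s w.1 = s v := congrArg Subtype.val hw
        refine Submodule.mem_sup.mpr ⟨v - w.1, ?_, w.1, w.2, sub_add_cancel _ _⟩
        rw [LinearMap.mem_ker, map_sub, h1, sub_self]
      · refine sup_le ?_ ?_
        · intro v hv
          rw [LinearMap.mem_ker] at hv
          have h1 : s.rangeRestrict v = 0 := Subtype.ext hv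
          rw [LinearMap.mem_ker, hψ, LinearMap.comp_apply, h1, map_zero]
        · intro v hv
          rw [LinearMap.mem_ker, hψ, LinearMap.comp_apply, Submodule.mkQ_apply,
            Submodule.Quotient.mk_eq_zero]
          exact ⟨⟨v, hv⟩, rfl⟩
    exact cls_congr ((Submodule.quotEquivOfEq _ _ hker).symm.trans
      (ψ.quotKerEquivOfSurjective hsurj)).symm
  · rw [← cls_source Φ]
    congr 1
    have heq : (LinearMap.ker Φ).map (LinearMap.ker u).subtype = LinearMap.ker (s.prod u) := by
      rw [LinearMap.ker_prod]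
      apply le_antisymm
      · rintro _ ⟨x, hx, rfl⟩
        refine ⟨?_, x.2⟩
        exact congrArg Subtype.val (LinearMap.mem_ker.mp hx)
      · rintro x ⟨hx1, hx2⟩
        refine ⟨⟨x, hx2⟩, ?_, rfl⟩
        rw [SetLike.mem_coe, LinearMap.mem_ker]
        exact Subtype.ext hx1
    exact cls_congr ((Submodule.equivSubtypeMap _ (LinearMap.ker Φ)).trans
      (LinearEquiv.ofEq _ _ heq))

/-- the same with the roles of the two maps exchanged -/
theorem two' (s : E →ₗ[R] F) (u : E →ₗ[R] G) :
    ∃ k : VR R, cls R (LinearMap.range u) = cls R (E ⧸ LinearMap.range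
        ((LinearMap.ker s).subtype.coprod (LinearMap.ker u).subtype)) + k ∧
      cls R (LinearMap.ker s) = cls R (LinearMap.ker (s.prod u)) + k := by
  obtain ⟨k, h1, h2⟩ := two u s
  refine ⟨k, ?_, ?_⟩
  · rw [h1]
    congr 1
    refine cls_congr (Submodule.quotEquivOfEq _ _ ?_)
    rw [LinearMap.range_coprod, LinearMap.range_coprod, sup_comm]
  · rw [h2]
    congr 1
    refine cls_congr (LinearEquiv.ofEq _ _ ?_)
    rw [LinearMap.ker_prod, LinearMap.ker_prod, inf_comm]

end Lin

section Rel
variable {T : Type v} [Ring T] {R : Type u} [Ring R] [VNR R]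

/-- the map between the images of idempotents given by an element -/
def um {e f u : T} (hu : f * u = u) (C : Bim T R) :
    LinearMap.range (C.act e) →ₗ[R] LinearMap.range (C.act f) :=
  (C.act u).restrict (fun v _ => by
    rw [← hu, C.act_mul]
    exact ⟨_, rfl⟩)

omit [VNR R] in
theorem um_coe {e f u : T} (hu : f * u = u) (C : Bim T R) (v : LinearMap.range (C.act e)) :
    (um hu C v : C.X) = C.act u v.1 := rfl

theorem lemK {e f u x y : T} (he : e * e = e) (hf : f * f = f)
    (hu1 : f * u = u) (hu2 : u * e = u) (hy1 : f * y = 0) (hy2 : y * e = 0) (hx : e * x = 0)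
    (hxy : x * y = 1 - e) (hyx : y * x = 1 - f) (C : Bim T R) :
    cls R (LinearMap.ker (um (e := e) hu1 C)) = kap (u + y) C ∧
      cls R (LinearMap.range (C.act f) ⧸ LinearMap.range (um (e := e) hu1 C)) =
        gam (u + y) C := by
  have hux : u * x = 0 := by rw [← hu2, mul_assoc, hx, mul_zero]
  set r := um (e := e) hu1 C with hr
  constructor
  · have heq : (LinearMap.ker r).map (LinearMap.range (C.act e)).subtype =
        LinearMap.ker (C.act (u + y)) := by
      apply le_antisymm
      · rintro _ ⟨⟨w, hw⟩, h, rfl⟩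
        have h2 : C.act u w = 0 := congrArg Subtype.val (LinearMap.mem_ker.mp h)
        rw [mem_range_act he] at hw
        rw [LinearMap.mem_ker]
        change C.act (u + y) w = 0
        rw [C.act_add, h2, zero_add, ← hw, ← C.act_mul, hy2, C.act_zero]
      · intro w hw
        rw [LinearMap.mem_ker] at hw
        have h2 : C.act u w + C.act y w = 0 := by rw [← C.act_add, hw]
        have h3 : C.act u w = 0 := by
          have h4 := congrArg (C.act f) h2
          rw [map_add (C.act f), ← C.act_mul, ← C.act_mul, hu1, hy1, C.act_zero, add_zero,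
            map_zero (C.act f)] at h4
          exact h4
        rw [h3, zero_add] at h2
        have h5 : C.act e w = w := by
          have h4 := congrArg (C.act x) h2
          rw [← C.act_mul, hxy, C.act_sub, C.act_one, map_zero (C.act x), sub_eq_zero] at h4
          exact h4.symm
        refine ⟨⟨w, ⟨w, h5⟩⟩, ?_, rfl⟩
        rw [SetLike.mem_coe, LinearMap.mem_ker]
        exact Subtype.ext h3
    exact cls_congr ((Submodule.equivSubtypeMap _ (LinearMap.ker r)).trans
      (LinearEquiv.ofEq _ _ heq))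
  · have hle : LinearMap.range r ≤
        (LinearMap.range (C.act (u + y))).comap (LinearMap.range (C.act f)).subtype := by
      rintro _ ⟨⟨w, hw⟩, rfl⟩
      rw [mem_range_act he] at hw
      refine ⟨w, ?_⟩
      change C.act (u + y) w = C.act u w
      rw [C.act_add]
      have h2 : C.act y w = 0 := by rw [← hw, ← C.act_mul, hy2, C.act_zero]
      rw [h2, add_zero]
    refine cls_congr (LinearEquiv.ofBijective (Submodule.mapQ _ _ _ hle) ⟨?_, ?_⟩)
    · rw [injective_iff_map_eq_zero]
      intro q h
      obtain ⟨⟨w, hw⟩, rfl⟩ := Submodule.mkQ_surjective _ q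
      rw [Submodule.mkQ_apply, Submodule.mapQ_apply, Submodule.Quotient.mk_eq_zero] at h
      rw [Submodule.mkQ_apply, Submodule.Quotient.mk_eq_zero]
      obtain ⟨t, ht⟩ := h
      change C.act (u + y) t = w at ht
      rw [mem_range_act hf] at hw
      refine ⟨⟨C.act e t, ⟨t, rfl⟩⟩, ?_⟩
      apply Subtype.ext
      change C.act u (C.act e t) = w
      rw [← C.act_mul, hu2]
      have h4 := congrArg (C.act f) ht
      rw [C.act_add, map_add (C.act f), ← C.act_mul, ← C.act_mul, hu1, hy1, C.act_zero,
        add_zero, hw] at h4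
      exact h4
    · intro q
      obtain ⟨w, rfl⟩ := Submodule.mkQ_surjective _ q
      refine ⟨Submodule.Quotient.mk ⟨C.act f w, ⟨w, rfl⟩⟩, ?_⟩
      rw [Submodule.mapQ_apply, Submodule.mkQ_apply, Submodule.Quotient.eq]
      refine ⟨- C.act x w, ?_⟩
      change C.act (u + y) (- C.act x w) = C.act f w - w
      rw [map_neg (C.act (u + y)), ← C.act_mul, add_mul, hux, zero_add, hyx, C.act_sub, C.act_one]
      abel

variable {Q : Type w} [Ring Q] {ι : T →+* Q} [IsNoetherianRing T] [IsNoetherianRing Tᵐᵒᵖ]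

/-- the classes of the images agree up to a function supported on a nonzero ideal -/
theorem rel [IsArtinianRing Q] (hp : Prm Q) (hpT : Prm T) (h : IsOrd ι) {e f x y : T}
    (he : e * e = e) (hf : f * f = f) (hxy : x * y = 1 - e) (hyx : y * x = 1 - f) (he0 : e ≠ 0) :
    ∃ Z : Bim T R → VR R, SmallI Z ∧ ∀ C, pp e C + Z C = pp f C + Z C := by
  have hnt : Nontrivial T := ⟨e, 0, he0⟩
  -- normalized maps
  set x' := (1 - e) * x * (1 - f) with hx'
  set y' := (1 - f) * y * (1 - e) with hy'
  have e1 : e * (1 - e) = 0 := by rw [mul_sub, mul_one, he, sub_self]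
  have e2 : (1 - e) * e = 0 := by rw [sub_mul, one_mul, he, sub_self]
  have f1 : f * (1 - f) = 0 := by rw [mul_sub, mul_one, hf, sub_self]
  have f2 : (1 - f) * f = 0 := by rw [sub_mul, one_mul, hf, sub_self]
  have e3 : (1 - e) * (1 - e) = 1 - e := by rw [mul_sub, mul_one, e2, sub_zero]
  have f3 : (1 - f) * (1 - f) = 1 - f := by rw [mul_sub, mul_one, f2, sub_zero]
  have hex : e * x' = 0 := by rw [hx', ← mul_assoc, ← mul_assoc, e1, zero_mul, zero_mul]
  have hxf : x' * f = 0 := by rw [hx', mul_assoc, f2, mul_zero]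
  have hfy : f * y' = 0 := by rw [hy', ← mul_assoc, ← mul_assoc, f1, zero_mul, zero_mul]
  have hye : y' * e = 0 := by rw [hy', mul_assoc, e2, mul_zero]
  have hxy' : x' * y' = 1 - e := by
    calc x' * y' = (1 - e) * x * ((1 - f) * (1 - f)) * y * (1 - e) := by
          rw [hx', hy']
          noncomm_ring
      _ = (1 - e) * (x * y) * (x * y) * (1 - e) := by
          rw [f3, ← hyx]
          noncomm_ring
      _ = _ := by rw [hxy, e3, e3, e3]
  have hyx' : y' * x' = 1 - f := by
    calc y' * x' = (1 - f) * y * ((1 - e) * (1 - e)) * x * (1 - f) := by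
          rw [hx', hy']
          noncomm_ring
      _ = (1 - f) * (y * x) * (y * x) * (1 - f) := by
          rw [e3, ← hxy]
          noncomm_ring
      _ = _ := by rw [hyx, f3, f3, f3]
  -- the ring of quotients
  have hιe : ι e * ι e = ι e := by rw [← map_mul, he]
  have hιf : ι f * ι f = ι f := by rw [← map_mul, hf]
  have hιe0 : ι e ≠ 0 := by
    intro h1
    apply he0
    apply h.inj
    rw [h1, map_zero]
  have h1 : Iso (ι e) (ι f) := by
    apply cancel_one hp hιe hιf
    refine ⟨ι y', ι x', ?_, ?_, ?_, ?_, ?_, ?_⟩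
    · rw [← map_one ι, ← map_sub, ← map_mul, sub_mul, one_mul, hfy, sub_zero]
    · rw [← map_one ι, ← map_sub, ← map_mul, mul_sub, mul_one, hye, sub_zero]
    · rw [← map_one ι, ← map_sub, ← map_mul, sub_mul, one_mul, hex, sub_zero]
    · rw [← map_one ι, ← map_sub, ← map_mul, mul_sub, mul_one, hxf, sub_zero]
    · rw [← map_mul, hyx', map_sub, map_one]
    · rw [← map_mul, hxy', map_sub, map_one]
  obtain ⟨a, b, a1, a2, b1, b2, hab, hba⟩ := h1
  have k1 : a * ι x' = 0 := by rw [← a2, mul_assoc, ← map_mul, hex, map_zero, mul_zero]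
  have k2 : ι y' * b = 0 := by rw [← b1, ← mul_assoc, ← map_mul, hye, map_zero, zero_mul]
  have k3 : b * ι y' = 0 := by rw [← b2, mul_assoc, ← map_mul, hfy, map_zero, mul_zero]
  have k4 : ι x' * a = 0 := by rw [← a1, ← mul_assoc, ← map_mul, hxf, map_zero, zero_mul]
  set M0 : Qˣ :=
    { val := a + ι y'
      inv := b + ι x'
      val_inv := by
        rw [add_mul, mul_add, mul_add, hab, k1, k2, ← map_mul, hyx', add_zero, zero_add, map_sub,
          map_one, add_sub_cancel]
      inv_val := by
        rw [add_mul, mul_add, mul_add, hba, k3, k4, ← map_mul, hxy', add_zero, zero_add, map_sub,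
          map_one, add_sub_cancel] } with hM0
  have hM0v : (M0 : Q) = a + ι y' := rfl
  obtain ⟨s0, hs0, es0, s0e⟩ := exists_min hp hιe hιe0
  obtain ⟨w, w1, w2, w3⟩ := lamgenM hp (rho R h) (rho_mul h)
    (fun s N q1 q2 q3 => rho_tr h hp q1 q2 q3) hs0 _ (1 : Q) rfl (one_mul 1) M0⁻¹
    (by rw [sub_self, mul_zero]) (by rw [sub_self, zero_mul])
  have hse : (1 - s0) * (1 - ι e) = 1 - ι e := by
    rw [sub_mul, one_mul, mul_sub, mul_one, s0e, sub_self, sub_zero]
  have hes : (1 - ι e) * (1 - s0) = 1 - ι e := by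
    rw [mul_sub, mul_one, sub_mul (1 : Q), one_mul, es0, sub_self, sub_zero]
  have we : (w : Q) * (1 - ι e) = 1 - ι e := by rw [← hse, ← mul_assoc, w1]
  have ew : (1 - ι e) * (w : Q) = 1 - ι e := by rw [← hes, mul_assoc, w2]
  have hwe : (w : Q) * ι e = ι e * w := by
    have q1 : (w : Q) * ι e = w - w * (1 - ι e) := by rw [mul_sub, mul_one, sub_sub_cancel]
    have q2 : ι e * (w : Q) = w - (1 - ι e) * w := by rw [sub_mul, one_mul, sub_sub_cancel]
    rw [q1, q2, we, ew]
  set a' := a * (w : Q) with ha'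
  have a1' : ι f * a' = a' := by rw [ha', ← mul_assoc, a1]
  have a2' : a' * ι e = a' := by rw [ha', mul_assoc, hwe, ← mul_assoc, a2]
  have hyw : ι y' * (w : Q) = ι y' := by
    have q1 : ι y' = ι y' * (1 - ι e) := by
      rw [mul_sub, mul_one, ← map_mul, hye, map_zero, sub_zero]
    rw [q1, mul_assoc, ew]
  set g : Qˣ := M0 * w with hg
  have hgv : (g : Q) = a' + ι y' := by rw [hg, Units.val_mul, hM0v, add_mul, hyw]
  have hρ : rho R h g = 0 := by rw [hg, rho_mul, w3, rho_inv, add_neg_cancel]
  -- a denominator in the corner of `e`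
  obtain ⟨s, es, se, ⟨σ, eσ, σe, σs, sσ⟩, u, hu⟩ := exists_den h hp hpT a' _ (ι e) rfl hιe
  have es' : e * s = s := h.inj (by rw [map_mul, es])
  have se' : s * e = s := h.inj (by rw [map_mul, se])
  have hu1 : f * u = u := by
    apply h.inj
    rw [map_mul, ← hu, ← mul_assoc, a1']
  have hu2 : u * e = u := by
    apply h.inj
    rw [map_mul, ← hu, mul_assoc, se]
  have ye0 : ι y' * ι e = 0 := by rw [← map_mul, hye, map_zero]
  have ys0 : ι y' * ι s = 0 := by rw [← es, ← mul_assoc, ye0, zero_mul]
  have ae0 : a' * (1 - ι e) = 0 := by rw [mul_sub, mul_one, a2', sub_self]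
  have ye1 : ι y' * (1 - ι e) = ι y' := by rw [mul_sub, mul_one, ye0, sub_zero]
  set S := s + (1 - e) with hS
  set M2 := u + y' with hM2
  have hιS : ι S = ι s + (1 - ι e) := by rw [hS, map_add, map_sub, map_one]
  have i1 : ι e * (1 - ι e) = 0 := by rw [mul_sub, mul_one, hιe, sub_self]
  have i2 : (1 - ι e) * ι e = 0 := by rw [sub_mul, one_mul, hιe, sub_self]
  have i3 : (1 - ι e) * (1 - ι e) = 1 - ι e := by rw [mul_sub, mul_one, i2, sub_zero]
  have j1 : ι s * (1 - ι e) = 0 := by rw [← se, mul_assoc, i1, mul_zero]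
  have j2 : (1 - ι e) * ι s = 0 := by rw [← es, ← mul_assoc, i2, zero_mul]
  have j3 : σ * (1 - ι e) = 0 := by rw [← σe, mul_assoc, i1, mul_zero]
  have j4 : (1 - ι e) * σ = 0 := by rw [← eσ, ← mul_assoc, i2, zero_mul]
  set γ : Qˣ :=
    { val := ι s + (1 - ι e)
      inv := σ + (1 - ι e)
      val_inv := by
        rw [add_mul, mul_add, mul_add, sσ, j1, j4, i3, add_zero, zero_add, add_sub_cancel]
      inv_val := by
        rw [add_mul, mul_add, mul_add, σs, j3, j2, i3, add_zero, zero_add, add_sub_cancel] } with hγ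
  have hγv : (γ : Q) = ι S := by rw [hιS]
  have uS : IsUnit (ι S) := ⟨γ, hγv⟩
  have hgγ : ((g * γ : Qˣ) : Q) = ι M2 := by
    rw [Units.val_mul, hγv, hιS, hgv, hM2, map_add, ← hu, add_mul, mul_add, mul_add, ae0, ys0,
      ye1, add_zero, zero_add]
  have uM2 : IsUnit (ι M2) := ⟨g * γ, hgγ⟩
  have c1 : chi R h M2 = chi R h S := by
    rw [← rho_of h hgγ, rho_mul, hρ, zero_add, rho_of h hγv]
  rw [chi, chi, dif_pos uM2, dif_pos uS, sub_eq_sub_iff_add_eq_add, ← map_add, ← map_add,
    of_eq_iff] at c1
  obtain ⟨⟨D0, hD0⟩, hc⟩ := c1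
  have hc' : ∀ C, D0 C + (gam M2 C + kap S C) = D0 C + (gam S C + kap M2 C) := by
    intro C
    exact congrFun (congrArg Subtype.val hc) C
  -- the classes
  have kM := fun C : Bim T R => lemK he hf hu1 hu2 hfy hye hex hxy' hyx' C
  have kS := fun C : Bim T R => lemK (u := s) he he es' se' e1 e2 e1 e3 e3 C
  -- the common part
  set V : Bim T R → VR R := fun C => cls R (LinearMap.range (C.act e) ⧸ LinearMap.range
    ((LinearMap.ker (um (e := e) es' C)).subtype.coprod
      (LinearMap.ker (um (e := e) hu1 C)).subtype)) with hV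
  set I : Bim T R → VR R := fun C => cls R (LinearMap.ker
    ((um (e := e) es' C).prod (um (e := e) hu1 C))) with hI
  have t1 := fun C : Bim T R => two (um (e := e) es' C) (um (e := e) hu1 C)
  have t2 := fun C : Bim T R => two' (um (e := e) es' C) (um (e := e) hu1 C)
  choose p1 p11 p12 using t1
  choose p2 p21 p22 using t2
  have hbig : Big V := by
    obtain ⟨d, n, hd, hn⟩ := h.left (↑g⁻¹ : Q)
    have hgu : (↑g⁻¹ : Q) * ι u = ι s := by
      have h1 : (g : Q) * ι s = ι u := by rw [hgv, add_mul, hu, ys0, add_zero]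
      rw [← h1, ← mul_assoc, Units.inv_mul, one_mul]
    have hl : d * s = n * u := by
      apply h.inj
      rw [map_mul, map_mul, ← hn, mul_assoc, hgu]
    refine ⟨d * s, ?_, fun C => ?_⟩
    · intro h1
      have h2 := congrArg ι h1
      rw [map_mul, map_zero] at h2
      have h3 := (hd.mul_right_eq_zero).mp h2
      rw [h3, mul_zero] at σs
      exact hιe0 σs.symm
    · have h0 : ∀ v : LinearMap.range (C.act e), C.act (d * s) v.1 ∈
          LinearMap.range (C.act (d * s)) := fun v => ⟨_, rfl⟩
      set ψ : LinearMap.range (C.act e) →ₗ[R] LinearMap.range (C.act (d * s)) :=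
        ((C.act (d * s)).comp (LinearMap.range (C.act e)).subtype).codRestrict _ h0 with hψ
      have hk : LinearMap.range ((LinearMap.ker (um (e := e) es' C)).subtype.coprod
          (LinearMap.ker (um (e := e) hu1 C)).subtype) ≤ LinearMap.ker ψ := by
        rw [LinearMap.range_coprod, Submodule.range_subtype, Submodule.range_subtype]
        refine sup_le ?_ ?_
        · intro v hv
          have h1 : C.act s v.1 = 0 := congrArg Subtype.val (LinearMap.mem_ker.mp hv)
          rw [LinearMap.mem_ker]
          apply Subtype.ext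
          change C.act (d * s) v.1 = 0
          rw [C.act_mul, h1, map_zero]
        · intro v hv
          have h1 : C.act u v.1 = 0 := congrArg Subtype.val (LinearMap.mem_ker.mp hv)
          rw [LinearMap.mem_ker]
          apply Subtype.ext
          change C.act (d * s) v.1 = 0
          rw [hl, C.act_mul, h1, map_zero]
      refine le_of_surj (Submodule.liftQ _ ψ hk) ?_
      rintro ⟨_, v, rfl⟩
      refine ⟨Submodule.Quotient.mk ⟨C.act e v, v, rfl⟩, ?_⟩
      apply Subtype.ext
      change C.act (d * s) (C.act e v) = C.act (d * s) v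
      rw [← C.act_mul, mul_assoc, se']
  have hrem : Rem (fun C => D0 C + I C) := by
    refine (rem_small hpT h (add_mem hD0 (kap_memR h uS))).le fun C => ?_
    refine Le.rfl'.add ?_
    rw [← (kS C).1]
    have hle : LinearMap.ker ((um (e := e) es' C).prod (um (e := e) hu1 C)) ≤
        LinearMap.ker (um (e := e) es' C) := by
      rw [LinearMap.ker_prod]
      exact inf_le_left
    exact le_of_inj (Submodule.inclusion hle) (Submodule.inclusion_injective hle)
  obtain ⟨Y, V', Z, v1, -, v3, v4⟩ := hrem V hbig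
  refine ⟨Z, v3, fun C => ?_⟩
  have q1 : pp e C = gam S C + p1 C + V C := by
    rw [← (kS C).2, pp, ← cls_target (um (e := e) es' C), p11 C]
    abel
  have q2 : pp f C = gam M2 C + p2 C + V C := by
    rw [← (kM C).2, pp, ← cls_target (um (e := e) hu1 C), p21 C]
    abel
  have q3 : kap M2 C = I C + p1 C := by rw [← (kM C).1, p12 C]
  have q4 : kap S C = I C + p2 C := by rw [← (kS C).1, p22 C]
  have q5 : gam S C + p1 C + (D0 C + I C) = gam M2 C + p2 C + (D0 C + I C) := by
    have h1 := hc' C
    rw [q3, q4] at h1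
    calc gam S C + p1 C + (D0 C + I C) = D0 C + (gam S C + (I C + p1 C)) := by abel
      _ = D0 C + (gam M2 C + (I C + p2 C)) := h1.symm
      _ = _ := by abel
  obtain ⟨r, hr⟩ := v4 C
  have hr' : D0 C + I C + r = Y C + Z C := hr
  calc pp e C + Z C = gam S C + p1 C + (Y C + Z C) + V' C := by
        rw [q1, v1]
        abel
    _ = (gam S C + p1 C + (D0 C + I C)) + r + V' C := by rw [← hr']; abel
    _ = (gam M2 C + p2 C + (D0 C + I C)) + r + V' C := by rw [q5]
    _ = gam M2 C + p2 C + (Y C + Z C) + V' C := by rw [← hr']; abel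
    _ = pp f C + Z C := by
        rw [q2, v1]
        abel

end Rel

end SepNoe
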