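import Pool.Agent.Lib.MP_dccecd_al.NoeMul

/-! The removal lemma: small functions can be absorbed by functions which dominate the image of a
nonzero element, up to functions supported on a nonzero ideal (for MP_dccecd_al, the noetherian base
theorem). -/

open SepReg SepFin

namespace SepNoe

universe u v w

section Rem
variable {T : Type v} [Ring T] {Q : Type w} [Ring Q] {ι : T →+* Q} {R : Type u} [Ring R] [VNR R]

/-- functions which dominate the class of the image of a nonzero element -/
def Big (V : Bim T R → VR R) : Prop :=
  ∃ c : T, c ≠ 0 ∧ ∀ C, Le (cls R (LinearMap.range (C.act c))) (V C)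

/-- functions supported on a nonzero two-sided ideal -/
def SmallI [IsNoetherianRing T] [IsNoetherianRing Tᵐᵒᵖ] (Z : Bim T R → VR R) : Prop :=
  ∃ J : Ideal T, J.IsTwoSided ∧ J ≠ ⊥ ∧ ∃ b : ℕ, ∀ C,
    Le (Z C) (b • (yq (J : Set T) C + ya (J : Set T) C))

/-- functions which can be removed from functions dominating the image of a nonzero element -/
def Rem [IsNoetherianRing T] [IsNoetherianRing Tᵐᵒᵖ] (D : Bim T R → VR R) : Prop :=
  ∀ V : Bim T R → VR R, Big V → ∃ Y V' Z : Bim T R → VR R, (∀ C, V C = Y C + V' C) ∧ Big V' ∧
    SmallI Z ∧ ∀ C, Le (D C) (Y C + Z C)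

variable [IsNoetherianRing T] [IsNoetherianRing Tᵐᵒᵖ]

theorem SmallI.add (hp : Prm T) {Z Z' : Bim T R → VR R} (h : SmallI Z) (h' : SmallI Z') :
    SmallI (fun C => Z C + Z' C) := by
  obtain ⟨J, hJ, hJ0, b, hb⟩ := h
  obtain ⟨J', hJ', hJ0', b', hb'⟩ := h'
  obtain ⟨x, hx, hx0⟩ := Submodule.exists_mem_ne_zero_of_ne_bot hJ0
  obtain ⟨y, hy, hy0⟩ := Submodule.exists_mem_ne_zero_of_ne_bot hJ0'
  obtain ⟨t, ht⟩ : ∃ t, x * t * y ≠ 0 := by
    by_contra h
    push Not at h
    rcases hp x y h with h1 | h1
    · exact hx0 h1
    · exact hy0 h1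
  refine ⟨J ⊓ J', ⟨fun b ha => ⟨hJ.mul_mem_of_left b ha.1, hJ'.mul_mem_of_left b ha.2⟩⟩, ?_, b + b',
    fun C => ?_⟩
  · intro h
    apply ht
    rw [← Ideal.mem_bot, ← h]
    refine ⟨?_, J'.mul_mem_left _ hy⟩
    exact hJ.mul_mem_of_left _ (hJ.mul_mem_of_left _ hx)
  · rw [add_nsmul]
    refine Le.add ((hb C).trans (Le.nsmul ?_ b)) ((hb' C).trans (Le.nsmul ?_ b'))
    · exact Le.add (yq_anti C (mulC_mono (fun x hx => hx.1) C)) (ya_anti (fun x hx => hx.1) C)
    · exact Le.add (yq_anti C (mulC_mono (fun x hx => hx.2) C)) (ya_anti (fun x hx => hx.2) C)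

theorem SmallI.zero [Nontrivial T] : SmallI (fun _ => 0 : Bim T R → VR R) :=
  ⟨⊤, inferInstance, top_ne_bot, 0, fun C => ⟨_, zero_add _⟩⟩

theorem Rem.add (hp : Prm T) {D D' : Bim T R → VR R} (h : Rem D) (h' : Rem D') :
    Rem (fun C => D C + D' C) := by
  intro V hV
  obtain ⟨Y, V', Z, h1, h2, h3, h4⟩ := h V hV
  obtain ⟨Y', V'', Z', h1', h2', h3', h4'⟩ := h' V' h2
  refine ⟨fun C => Y C + Y' C, V'', fun C => Z C + Z' C, fun C => ?_, h2', h3.add hp h3',
    fun C => ?_⟩
  · change V C = Y C + Y' C + V'' C
    rw [h1, h1', add_assoc]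
  · refine ((h4 C).add (h4' C)).trans ?_
    change Le _ (Y C + Y' C + (Z C + Z' C))
    rw [add_add_add_comm]
    exact Le.rfl'

theorem Rem.le {D D' : Bim T R → VR R} (h : Rem D) (hD : ∀ C, Le (D' C) (D C)) : Rem D' := by
  intro V hV
  obtain ⟨Y, V', Z, h1, h2, h3, h4⟩ := h V hV
  exact ⟨Y, V', Z, h1, h2, h3, fun C => (hD C).trans (h4 C)⟩

theorem Rem.zero [Nontrivial T] : Rem (fun _ => 0 : Bim T R → VR R) := by
  intro V hV
  exact ⟨fun _ => 0, V, fun _ => 0, fun C => (zero_add _).symm, hV, SmallI.zero,
    fun C => ⟨_, zero_add _⟩⟩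

theorem Rem.nsmul [Nontrivial T] (hp : Prm T) {D : Bim T R → VR R} (h : Rem D) (n : ℕ) :
    Rem (fun C => n • D C) := by
  induction n with
  | zero =>
    simp only [zero_nsmul]
    exact Rem.zero
  | succ n ih =>
    simp only [succ_nsmul]
    exact ih.add hp h

/-- quotients by right ideals which contain a regular element -/
theorem rem_q (h : IsOrd ι) : ∀ J : Ideal Tᵐᵒᵖ,
    (∃ j, MulOpposite.op j ∈ J ∧ IsUnit (ι j)) →
      Rem (yq {t : T | MulOpposite.op t ∈ J} : Bim T R → VR R) := by
  intro J
  induction J using IsNoetherian.induction with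
  | hgt J ih =>
    rintro ⟨j, hj, hju⟩ V ⟨c, hc, hV⟩
    by_cases hA : ∀ x ∈ tsp c, MulOpposite.op x ∈ J
    · have h0 : tsp c ≠ ⊥ := by
        intro h0
        apply hc
        have h1 := mem_tsp c
        rwa [h0, Ideal.mem_bot] at h1
      refine ⟨fun _ => 0, V, yq {t : T | MulOpposite.op t ∈ J}, fun C => (zero_add _).symm,
        ⟨c, hc, hV⟩, ⟨tsp c, inferInstance, h0, 1, fun C => ?_⟩, fun C => ?_⟩
      · rw [one_nsmul]
        exact (yq_anti C (mulC_mono (fun x hx => hA x hx) C)).trans (Le.left _ _)
      · rw [zero_add]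
        exact Le.rfl'
    · obtain ⟨t, v, htv⟩ : ∃ t v, MulOpposite.op (t * (c * v)) ∉ J := by
        by_contra hcon
        push Not at hcon
        apply hA
        have h1 : ∀ x ∈ tsp c, ∀ t : T, MulOpposite.op (t * x) ∈ J := by
          intro x hx
          induction hx using Submodule.span_induction with
          | mem x hx =>
            obtain ⟨v, rfl⟩ := hx
            exact fun t => hcon t v
          | zero =>
            intro t
            rw [mul_zero]
            exact J.zero_mem
          | add x y _ _ hx hy =>
            intro t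
            rw [mul_add, MulOpposite.op_add]
            exact J.add_mem (hx t) (hy t)
          | smul r x _ hx =>
            intro t
            rw [smul_eq_mul, ← mul_assoc]
            exact hx _
        intro x hx
        have h2 := h1 x hx 1
        rwa [one_mul] at h2
      set p := t * c with hp'
      set J' : Ideal Tᵐᵒᵖ := J ⊔ Ideal.span {MulOpposite.op p} with hJ'
      have hpJ' : MulOpposite.op p ∈ J' :=
        (le_sup_right : Ideal.span {MulOpposite.op p} ≤ J') (Ideal.mem_span_singleton_self _)
      have hlt : J < J' := by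
        refine lt_of_le_of_ne le_sup_left fun h1 => htv ?_
        rw [h1]
        have h2 : MulOpposite.op (t * (c * v)) = MulOpposite.op v * MulOpposite.op p := by
          rw [← MulOpposite.op_mul, hp', mul_assoc]
        rw [h2]
        exact J'.mul_mem_left _ hpJ'
      have hsub : {t : T | MulOpposite.op t ∈ J} ⊆ {t : T | MulOpposite.op t ∈ J'} :=
        fun x hx => hlt.le hx
      have hJle : ∀ C : Bim T R, mulC {t : T | MulOpposite.op t ∈ J} C ≤
          mulC {t : T | MulOpposite.op t ∈ J'} C :=
        fun C => mulC_mono hsub C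
      -- the map `φ`
      set φ : ∀ C : Bim T R, LinearMap.range (C.act c) →ₗ[R]
          (C.X ⧸ mulC {t : T | MulOpposite.op t ∈ J} C) := fun C =>
        (Submodule.mkQ _).comp ((C.act t).comp (LinearMap.range (C.act c)).subtype) with hφ
      have hq : ∀ C : Bim T R, yq {t : T | MulOpposite.op t ∈ J} C =
          cls R (LinearMap.range (φ C)) + yq {t : T | MulOpposite.op t ∈ J'} C := by
        intro C
        set π : (C.X ⧸ mulC {t : T | MulOpposite.op t ∈ J} C) →ₗ[R]
          (C.X ⧸ mulC {t : T | MulOpposite.op t ∈ J'} C) :=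
          Submodule.mapQ _ _ LinearMap.id (hJle C) with hπ
        refine cls_exact (LinearMap.range (φ C)).subtype π (Submodule.injective_subtype _) ?_ ?_
        · intro x
          obtain ⟨w, rfl⟩ := Submodule.mkQ_surjective _ x
          exact ⟨Submodule.Quotient.mk w, rfl⟩
        · rw [Submodule.range_subtype]
          apply le_antisymm
          · rintro _ ⟨⟨_, w, rfl⟩, rfl⟩
            rw [LinearMap.mem_ker]
            change Submodule.Quotient.mk (C.act t (C.act c w)) = 0
            rw [Submodule.Quotient.mk_eq_zero, ← C.act_mul]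
            exact act_mem_mulC (S := {t : T | MulOpposite.op t ∈ J'}) (t := t * c) hpJ' w
          · intro x hx
            obtain ⟨w, rfl⟩ := Submodule.mkQ_surjective _ x
            rw [LinearMap.mem_ker] at hx
            have h1 : (Submodule.Quotient.mk w :
              C.X ⧸ mulC {t : T | MulOpposite.op t ∈ J'} C) = 0 := hx
            rw [Submodule.Quotient.mk_eq_zero] at h1
            have h2 : mulC {t : T | MulOpposite.op t ∈ J'} C ≤
                (LinearMap.range (φ C)).comap (Submodule.mkQ _) := by
              apply mulC_le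
              intro s hs z
              obtain ⟨α, hα, β, hβ, hαβ⟩ := Submodule.mem_sup.mp hs
              obtain ⟨r, rfl⟩ := Ideal.mem_span_singleton'.mp hβ
              have h3 : s = α.unop + p * r.unop := by
                have h4 := congrArg MulOpposite.unop hαβ
                rw [MulOpposite.unop_add, MulOpposite.unop_mul, MulOpposite.unop_op,
                  MulOpposite.unop_op] at h4
                exact h4.symm
              refine ⟨⟨C.act c (C.act r.unop z), ⟨_, rfl⟩⟩, ?_⟩
              change Submodule.Quotient.mk (C.act t (C.act c (C.act r.unop z))) =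
                Submodule.Quotient.mk (C.act s z)
              rw [eq_comm, Submodule.Quotient.eq, h3, C.act_add, C.act_mul, hp', C.act_mul,
                add_sub_cancel_right]
              exact act_mem_mulC (t := α.unop) hα z
            exact h2 h1
      choose r hr using hV
      have hV1 : Big (fun C => cls R (LinearMap.ker (φ C)) + r C) := by
        obtain ⟨γ, hγ⟩ := hju
        obtain ⟨d, s, hd, hs⟩ := h.right (↑γ⁻¹ * ι p)
        have hds : p * d = j * s := by
          apply h.inj
          rw [map_mul ι p d, map_mul ι j s, ← hs, ← hγ, ← mul_assoc, ← mul_assoc, Units.mul_inv,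
            one_mul]
        refine ⟨c * d, ?_, fun C => Le.trans ?_ (Le.left _ _)⟩
        · intro h0
          apply hc
          apply h.inj
          have h1 := congrArg ι h0
          rw [map_mul, map_zero] at h1
          rw [map_zero]
          exact (hd.mul_left_eq_zero).mp h1
        · have h0 : LinearMap.range (C.act (c * d)) ≤ LinearMap.range (C.act c) := by
            rintro _ ⟨w, rfl⟩
            rw [C.act_mul]
            exact ⟨_, rfl⟩
          refine le_of_inj ((Submodule.inclusion h0).codRestrict (LinearMap.ker (φ C)) ?_) ?_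
          · rintro ⟨_, w, rfl⟩
            rw [LinearMap.mem_ker]
            change Submodule.Quotient.mk (C.act t (C.act (c * d) w)) = 0
            rw [Submodule.Quotient.mk_eq_zero, ← C.act_mul, ← mul_assoc, ← hp', hds]
            refine act_mem_mulC (S := {t : T | MulOpposite.op t ∈ J}) (t := j * s) ?_ w
            change MulOpposite.op (j * s) ∈ J
            rw [MulOpposite.op_mul]
            exact Ideal.mul_mem_left J _ hj
          · intro x y hxy
            have h1 := congrArg Subtype.val (congrArg Subtype.val hxy)
            exact Subtype.ext h1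
      obtain ⟨Y, V', Z, h1, h2, h3, h4⟩ := ih J' hlt ⟨j, hlt.le hj, hju⟩ _ hV1
      refine ⟨fun C => cls R (LinearMap.range (φ C)) + Y C, V', Z, fun C => ?_, h2, h3,
        fun C => ?_⟩
      · have e1 : cls R (LinearMap.ker (φ C)) + r C = Y C + V' C := h1 C
        change V C = cls R (LinearMap.range (φ C)) + Y C + V' C
        rw [add_assoc, ← e1, ← hr C, ← cls_source (φ C)]
        abel
      · change Le _ (cls R (LinearMap.range (φ C)) + Y C + Z C)
        rw [hq, add_assoc]
        exact Le.rfl'.add (h4 C)

/-- annihilators of left ideals which contain a regular element -/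
theorem rem_a (h : IsOrd ι) : ∀ J : Ideal T, (∃ j ∈ J, IsUnit (ι j)) →
    Rem (ya (J : Set T) : Bim T R → VR R) := by
  intro J
  induction J using IsNoetherian.induction with
  | hgt J ih =>
    rintro ⟨j, hj, hju⟩ V ⟨c, hc, hV⟩
    by_cases hA : ∀ x ∈ tsp c, x ∈ J
    · have h0 : tsp c ≠ ⊥ := by
        intro h0
        apply hc
        have h1 := mem_tsp c
        rwa [h0, Ideal.mem_bot] at h1
      refine ⟨fun _ => 0, V, ya (J : Set T), fun C => (zero_add _).symm,
        ⟨c, hc, hV⟩, ⟨tsp c, inferInstance, h0, 1, fun C => ?_⟩, fun C => ?_⟩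
      · rw [one_nsmul]
        exact (ya_anti (fun x hx => hA x hx) C).trans (Le.right _ _)
      · rw [zero_add]
        exact Le.rfl'
    · obtain ⟨t, htv⟩ : ∃ t, c * t ∉ J := by
        by_contra hcon
        push Not at hcon
        apply hA
        have h1 : tsp c ≤ J := by
          rw [tsp, Ideal.span_le]
          rintro _ ⟨v, rfl⟩
          exact hcon v
        exact fun x hx => h1 hx
      set p := c * t with hp'
      set J' : Ideal T := J ⊔ Ideal.span {p} with hJ'
      have hpJ' : p ∈ J' :=
        (le_sup_right : Ideal.span {p} ≤ J') (Ideal.mem_span_singleton_self _)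
      have hlt : J < J' := by
        refine lt_of_le_of_ne le_sup_left fun h1 => htv ?_
        rw [h1]
        exact hpJ'
      -- the map `φ`
      set φ : ∀ C : Bim T R, annC (J : Set T) C →ₗ[R] LinearMap.range (C.act c) := fun C =>
        (C.act c).rangeRestrict.comp ((C.act t).comp (annC (J : Set T) C).subtype) with hφ
      have hφv : ∀ (C : Bim T R) (x : annC (J : Set T) C), ((φ C x : LinearMap.range (C.act c)) : C.X) =
          C.act p x.1 := by
        intro C x
        rw [hp', C.act_mul]
        rfl
      have hq : ∀ C : Bim T R, ya (J : Set T) C =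
          cls R (LinearMap.range (φ C)) + ya (J' : Set T) C := by
        intro C
        have h1 : cls R (LinearMap.ker (φ C)) = ya (J' : Set T) C := by
          have heq : (LinearMap.ker (φ C)).map (annC (J : Set T) C).subtype =
              annC (J' : Set T) C := by
            apply le_antisymm
            · rintro _ ⟨x, hx, rfl⟩
              rw [mem_annC]
              intro s hs
              obtain ⟨α, hα, β, hβ, hαβ⟩ := Submodule.mem_sup.mp hs
              obtain ⟨r, rfl⟩ := Ideal.mem_span_singleton'.mp hβ
              have h2 : C.act p x.1 = 0 := by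
                rw [← hφv, LinearMap.mem_ker.mp hx, ZeroMemClass.coe_zero]
              have h3 : C.act α x.1 = 0 := (mem_annC.mp x.2) α hα
              rw [← hαβ, C.act_add, C.act_mul, Submodule.subtype_apply, h2, h3, map_zero, add_zero]
            · intro x hx
              refine ⟨⟨x, annC_anti (fun s hs => hlt.le hs) C hx⟩, ?_, rfl⟩
              rw [SetLike.mem_coe, LinearMap.mem_ker]
              apply Subtype.ext
              rw [hφv, ZeroMemClass.coe_zero]
              exact (mem_annC.mp hx) p hpJ'
          exact cls_congr ((Submodule.equivSubtypeMap (annC (J : Set T) C)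
            (LinearMap.ker (φ C))).trans (LinearEquiv.ofEq _ _ heq))
        rw [← h1, add_comm]
        exact (cls_source (φ C)).symm
      choose r hr using hV
      have hV1 : Big (fun C => cls R (LinearMap.range (C.act c) ⧸ LinearMap.range (φ C)) + r C) := by
        obtain ⟨γ, hγ⟩ := hju
        obtain ⟨d, s, hd, hs⟩ := h.left (ι p * ↑γ⁻¹)
        have hds : d * p = s * j := by
          apply h.inj
          rw [map_mul ι d p, map_mul ι s j, ← hs, ← hγ, mul_assoc, mul_assoc, Units.inv_mul,
            mul_one]
        refine ⟨d * c, ?_, fun C => Le.trans ?_ (Le.left _ _)⟩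
        · intro h0
          apply hc
          apply h.inj
          have h1 := congrArg ι h0
          rw [map_mul, map_zero] at h1
          rw [map_zero]
          exact (hd.mul_right_eq_zero).mp h1
        · have h0 : ∀ w : LinearMap.range (C.act c), C.act d w.1 ∈ LinearMap.range (C.act (d * c)) := by
            rintro ⟨_, w, rfl⟩
            exact ⟨w, C.act_mul _ _ _⟩
          set ψ : LinearMap.range (C.act c) →ₗ[R] LinearMap.range (C.act (d * c)) :=
            ((C.act d).comp (LinearMap.range (C.act c)).subtype).codRestrict _ h0 with hψ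
          have hk : LinearMap.range (φ C) ≤ LinearMap.ker ψ := by
            rintro _ ⟨x, rfl⟩
            rw [LinearMap.mem_ker]
            apply Subtype.ext
            change C.act d (φ C x).1 = 0
            rw [hφv, ← C.act_mul, hds, C.act_mul, (mem_annC.mp x.2) j hj, map_zero]
          refine le_of_surj ((LinearMap.range (φ C)).liftQ ψ hk) ?_
          rintro ⟨_, w, rfl⟩
          refine ⟨Submodule.Quotient.mk ⟨C.act c w, w, rfl⟩, ?_⟩
          apply Subtype.ext
          exact (C.act_mul _ _ _).symm
      obtain ⟨Y, V', Z, h1, h2, h3, h4⟩ := ih J' hlt ⟨j, hlt.le hj, hju⟩ _ hV1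
      refine ⟨fun C => cls R (LinearMap.range (φ C)) + Y C, V', Z, fun C => ?_, h2, h3,
        fun C => ?_⟩
      · have e1 : cls R (LinearMap.range (C.act c) ⧸ LinearMap.range (φ C)) + r C =
            Y C + V' C := h1 C
        change V C = cls R (LinearMap.range (φ C)) + Y C + V' C
        rw [add_assoc, ← e1, ← hr C, ← cls_target (φ C)]
        abel
      · change Le _ (cls R (LinearMap.range (φ C)) + Y C + Z C)
        rw [hq, add_assoc]
        exact Le.rfl'.add (h4 C)

/-- small functions can be removed -/
theorem rem_small [Nontrivial T] (hp : Prm T) (h : IsOrd ι) {s : Bim T R → VR R}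
    (hs : s ∈ smallR R h) : Rem s := by
  obtain ⟨c, hc, b, hb⟩ := hs
  have h1 : Rem (gam c : Bim T R → VR R) := by
    refine (rem_q h (Ideal.span {MulOpposite.op c}) ⟨c, Ideal.mem_span_singleton_self _, hc⟩).le
      fun C => ?_
    have hle : mulC {t : T | MulOpposite.op t ∈ Ideal.span {MulOpposite.op c}} C ≤
        (LinearMap.range (C.act c)).comap LinearMap.id := by
      apply mulC_le
      intro t ht x
      obtain ⟨r, hr⟩ := Ideal.mem_span_singleton'.mp ht
      have h2 : t = c * r.unop := by
        have h3 := congrArg MulOpposite.unop hr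
        rw [MulOpposite.unop_mul, MulOpposite.unop_op, MulOpposite.unop_op] at h3
        exact h3.symm
      rw [h2, C.act_mul]
      exact ⟨_, rfl⟩
    refine le_of_surj (Submodule.mapQ _ _ LinearMap.id hle) ?_
    intro x
    obtain ⟨v, rfl⟩ := Submodule.mkQ_surjective _ x
    exact ⟨Submodule.Quotient.mk v, rfl⟩
  have h2 : Rem (kap c : Bim T R → VR R) := by
    refine (rem_a h (Ideal.span {c}) ⟨c, Ideal.mem_span_singleton_self _, hc⟩).le fun C => ?_
    have hle : LinearMap.ker (C.act c) ≤ annC ((Ideal.span {c} : Ideal T) : Set T) C := by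
      intro x hx
      rw [mem_annC]
      intro t ht
      obtain ⟨r, rfl⟩ := Ideal.mem_span_singleton'.mp ht
      rw [C.act_mul, LinearMap.mem_ker.mp hx, map_zero]
    exact le_of_inj (Submodule.inclusion hle) (Submodule.inclusion_injective hle)
  exact ((h1.add hp h2).nsmul hp b).le hb

end Rem

end SepNoe
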