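import Pool.Agent.Lib.MP_dccecd_al.NoeAbs
import Pool.Agent.Lib.MP_dccecd_al.FinMain

/-! Sequences of idempotents of a ring which is noetherian on both sides: if the traces of the tails
contain an idempotent `e`, then every multiple of the image of `e` is dominated by finitely many of
the images of the idempotents (for MP_dccecd_al, the noetherian base theorem). -/

open SepReg SepFin

namespace SepNoe

universe u v w

section Pre
variable {T : Type v} [Ring T] {R : Type u} [Ring R] [VNR R]

theorem Le.sum {ι : Type*} (s : Finset ι) {x y : ι → VR R} (h : ∀ i ∈ s, Le (x i) (y i)) :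
    Le (∑ i ∈ s, x i) (∑ i ∈ s, y i) := by
  classical
  induction s using Finset.induction_on with
  | empty =>
    rw [Finset.sum_empty, Finset.sum_empty]
    exact Le.rfl'
  | insert a s ha ih =>
    rw [Finset.sum_insert ha, Finset.sum_insert ha]
    exact (h a (Finset.mem_insert_self a s)).add
      (ih fun i hi => h i (Finset.mem_insert_of_mem hi))

theorem Le.sum_sub {ι : Type*} {s t : Finset ι} (h : s ⊆ t) (x : ι → VR R) :
    Le (∑ i ∈ s, x i) (∑ i ∈ t, x i) := by
  classical
  rw [← Finset.sum_sdiff h, add_comm]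
  exact Le.left _ _

theorem pp_sub_le (C : Bim T R) (N : Submodule R C.X) [Module.Finite R N] [Module.Projective R N]
    (hN : ∀ t, ∀ x ∈ N, C.act t x ∈ N) (e : T) : Le (pp e (C.sub N hN)) (pp e C) :=
  pp_inj (C := C.sub N hN) (D := C) N.subtype (fun s x => rfl) e (Submodule.injective_subtype _)

theorem pp_quo_le (C : Bim T R) (N : Submodule R C.X) [Module.Projective R (C.X ⧸ N)]
    (hN : ∀ t, ∀ x ∈ N, C.act t x ∈ N) (e : T) : Le (pp e (C.quo N hN)) (pp e C) :=
  pp_surj (C := C) (D := C.quo N hN) N.mkQ (fun s x => rfl) e (Submodule.mkQ_surjective _)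

/-- the sum of finitely many elements acts through the sum of the images -/
theorem cls_sum_le (C : Bim T R) (n : ℕ) (b : ℕ → T) :
    Le (cls R (LinearMap.range (C.act (∑ i ∈ Finset.range n, b i))))
      (∑ i ∈ Finset.range n, cls R (LinearMap.range (C.act (b i)))) := by
  induction n with
  | zero =>
    have h2 : Subsingleton (LinearMap.range (C.act (∑ i ∈ Finset.range 0, b i))) := by
      have h0 : ∀ x, C.act (∑ i ∈ Finset.range 0, b i) x = 0 := by
        intro x
        rw [Finset.sum_range_zero, C.act_zero]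
      constructor
      rintro ⟨_, x, rfl⟩ ⟨_, y, rfl⟩
      exact Subtype.ext ((h0 x).trans (h0 y).symm)
    rw [cls_subsingleton, Finset.sum_range_zero]
    exact Le.rfl'
  | succ n ih =>
    rw [Finset.sum_range_succ (fun i => cls R (LinearMap.range (C.act (b i))))]
    refine Le.trans ?_ (ih.add (Le.rfl' : Le (cls R (LinearMap.range (C.act (b n)))) _))
    rw [← cls_prod]
    set Ψ : (LinearMap.range (C.act (∑ i ∈ Finset.range n, b i)) ×
        LinearMap.range (C.act (b n))) →ₗ[R] C.X :=
      (LinearMap.range (C.act (∑ i ∈ Finset.range n, b i))).subtype.coprod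
        (LinearMap.range (C.act (b n))).subtype with hΨ
    have hle : LinearMap.range (C.act (∑ i ∈ Finset.range (n + 1), b i)) ≤
        LinearMap.range Ψ := by
      rw [hΨ, LinearMap.range_coprod, Submodule.range_subtype, Submodule.range_subtype]
      rintro _ ⟨x, rfl⟩
      rw [Finset.sum_range_succ, C.act_add]
      exact Submodule.add_mem_sup ⟨x, rfl⟩ ⟨x, rfl⟩
    exact (cls_le_of_le _ _ hle).trans (le_of_surj Ψ.rangeRestrict Ψ.surjective_rangeRestrict)

theorem cls_mul_le (C : Bim T R) (a b : T) {e : T} :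
    Le (cls R (LinearMap.range (C.act (b * e * a)))) (pp e C) := by
  have h1 : LinearMap.range (C.act (b * e * a)) ≤
      LinearMap.range ((C.act b).comp (LinearMap.range (C.act e)).subtype) := by
    rintro _ ⟨x, rfl⟩
    rw [C.act_mul, C.act_mul]
    exact ⟨⟨_, _, rfl⟩, rfl⟩
  refine (le_of_inj (Submodule.inclusion h1) (Submodule.inclusion_injective h1)).trans ?_
  exact le_of_surj _ (LinearMap.surjective_rangeRestrict _)

end Pre

section Gen
variable {T : Type v} [Ring T] {Q : Type w} [Ring Q] {ι : T →+* Q}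

/-- common right denominators -/
theorem IsOrd.comDenR (h : IsOrd ι) (n : ℕ) (q : ℕ → Q) :
    ∃ c : T, IsUnit (ι c) ∧ ∀ i < n, ∃ t, q i * ι c = ι t := by
  induction n with
  | zero => exact ⟨1, by rw [map_one]; exact isUnit_one, fun i hi => absurd hi (Nat.not_lt_zero i)⟩
  | succ n ih =>
    obtain ⟨c, hc, hcq⟩ := ih
    obtain ⟨d, t, hd, ht⟩ := h.right (q n * ι c)
    refine ⟨c * d, isUnit_mul' hc hd, fun i hi => ?_⟩
    rcases Nat.lt_succ_iff_lt_or_eq.mp hi with hi | rfl
    · obtain ⟨s, hs⟩ := hcq i hi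
      exact ⟨s * d, by rw [map_mul, map_mul, ← mul_assoc, hs]⟩
    · exact ⟨t, by rw [map_mul, ← mul_assoc, ht]⟩

/-- common left denominators -/
theorem IsOrd.comDenL (h : IsOrd ι) (n : ℕ) (q : ℕ → Q) :
    ∃ c : T, IsUnit (ι c) ∧ ∀ i < n, ∃ t, ι c * q i = ι t := by
  induction n with
  | zero => exact ⟨1, by rw [map_one]; exact isUnit_one, fun i hi => absurd hi (Nat.not_lt_zero i)⟩
  | succ n ih =>
    obtain ⟨c, hc, hcq⟩ := ih
    obtain ⟨d, t, hd, ht⟩ := h.left (ι c * q n)
    refine ⟨d * c, isUnit_mul' hd hc, fun i hi => ?_⟩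
    rcases Nat.lt_succ_iff_lt_or_eq.mp hi with hi | rfl
    · obtain ⟨s, hs⟩ := hcq i hi
      exact ⟨d * s, by rw [map_mul, map_mul, mul_assoc, hs]⟩
    · exact ⟨t, by rw [map_mul, mul_assoc, ht]⟩

/-- finitely many nonzero elements generate a regular element, one term for each -/
theorem exists_reg [IsArtinianRing Q] (hp : Prm Q) (h : IsOrd ι) {e : ℕ → T}
    (he : ∀ k, e k ≠ 0) :
    ∃ (n : ℕ) (a b : ℕ → T), IsUnit (ι (∑ i ∈ Finset.range n, b i * e i * a i)) := by
  have h1 : ∀ K : Ideal Q, ∀ m : ℕ, ∃ (n : ℕ) (c α : ℕ → Q), ∃ k ∈ K,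
      1 = k + ∑ i ∈ Finset.range n, c i * ι (e (m + i)) * α i := by
    intro K
    induction K using IsNoetherian.induction with
    | hgt K ih =>
      intro m
      by_cases hT : (1 : Q) ∈ K
      · exact ⟨0, 0, 0, 1, hT, by rw [Finset.sum_range_zero, add_zero]⟩
      obtain ⟨β, hβ⟩ : ∃ β, ι (e m) * β ∉ K := by
        by_contra hcon
        push Not at hcon
        apply hT
        have hne : ι (e m) ≠ 0 := by
          intro h1
          apply he m
          apply h.inj
          rw [h1, map_zero]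
        have h2 := full hp hne _ (1 : Q) rfl (one_mul 1)
        have h3 : Ideal.span (Set.range fun v : Q => ι (e m) * v) ≤ K := by
          rw [Ideal.span_le]
          rintro _ ⟨v, rfl⟩
          exact hcon v
        exact h3 h2
      obtain ⟨n, c, α, k, hk, h4⟩ := ih _ (lt_sup hβ) (m + 1)
      obtain ⟨k', hk', k'', hk'', rfl⟩ := Submodule.mem_sup.mp hk
      obtain ⟨r, rfl⟩ := Ideal.mem_span_singleton'.mp hk''
      refine ⟨n + 1, fun i => Nat.casesOn i r c, fun i => Nat.casesOn i β α, k', hk', ?_⟩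
      rw [Finset.sum_range_succ', h4]
      change k' + r * (ι (e m) * β) + _ = k' + (_ + r * ι (e m) * β)
      rw [mul_assoc, add_assoc, add_comm (r * (ι (e m) * β))]
      congr 2
      apply Finset.sum_congr rfl
      intro i _
      rw [show m + 1 + i = m + (i + 1) by omega]
  obtain ⟨n, c, α, k, hk, h2⟩ := h1 ⊥ 0
  rw [Ideal.mem_bot] at hk
  obtain ⟨t, ht, hα⟩ := h.comDenR n α
  obtain ⟨s, hs, hc⟩ := h.comDenL n c
  have ha : ∀ i, ∃ a, i < n → α i * ι t = ι a := by
    intro i
    by_cases hi : i < n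
    · obtain ⟨a, ha⟩ := hα i hi
      exact ⟨a, fun _ => ha⟩
    · exact ⟨0, fun h => absurd h hi⟩
  have hb : ∀ i, ∃ b, i < n → ι s * c i = ι b := by
    intro i
    by_cases hi : i < n
    · obtain ⟨b, hb⟩ := hc i hi
      exact ⟨b, fun _ => hb⟩
    · exact ⟨0, fun h => absurd h hi⟩
  choose a ha using ha
  choose b hb using hb
  refine ⟨n, a, b, ?_⟩
  have h3 : ι (∑ i ∈ Finset.range n, b i * e i * a i) = ι s * ι t := by
    have h4 : ι s * 1 * ι t = ι s * ι t := by rw [mul_one]
    rw [← h4, h2, hk, zero_add, Finset.mul_sum, Finset.sum_mul, map_sum]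
    apply Finset.sum_congr rfl
    intro i hi
    rw [Finset.mem_range] at hi
    rw [map_mul, map_mul, ← ha i hi, ← hb i hi, zero_add]
    simp only [mul_assoc]
  rw [h3]
  exact hs.mul ht

end Gen

section Base
variable {T : Type v} [Ring T] {Q : Type w} [Ring Q] {ι : T →+* Q} {R : Type u} [Ring R] [VNR R]
  [IsNoetherianRing T] [IsNoetherianRing Tᵐᵒᵖ]

/-- a module is dominated by finitely many images, up to a function supported on an ideal -/
theorem dom_one [Nontrivial T] [IsArtinianRing Q] (hp : Prm Q) (hpT : Prm T) (h : IsOrd ι)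
    {es : ℕ → T} (hinf : ∀ m, ∃ k, m ≤ k ∧ es k ≠ 0) (m : ℕ) :
    ∃ N, m ≤ N ∧ ∃ Z : Bim T R → VR R, SmallI Z ∧
      ∀ L : Bim T R, Le (cls R L.X) ((∑ k ∈ Finset.Ico m N, pp (es k) L) + Z L) := by
  -- a subsequence of nonzero elements
  obtain ⟨κ, hκm, hκ, hκ0⟩ : ∃ κ : ℕ → ℕ, StrictMono κ ∧ (∀ i, m ≤ κ i) ∧ ∀ i, es (κ i) ≠ 0 := by
    choose nx hnx hnx0 using hinf
    refine ⟨fun i => Nat.rec (nx m) (fun _ p => nx (p + 1)) i, ?_, ?_, ?_⟩
    · apply strictMono_nat_of_lt_succ
      intro i
      exact hnx _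
    · intro i
      induction i with
      | zero => exact hnx m
      | succ i ih => exact ih.trans ((Nat.le_succ _).trans (hnx _))
    · intro i
      cases i with
      | zero => exact hnx0 m
      | succ i => exact hnx0 _
  obtain ⟨n, a, b, hu⟩ := exists_reg hp h (e := fun i => es (κ i)) hκ0
  set c := ∑ i ∈ Finset.range n, b i * es (κ i) * a i with hc
  have hrem : Rem (gam c : Bim T R → VR R) := rem_small hpT h (gam_memR h hu)
  have hbig : Big (fun L : Bim T R => pp (es (κ n)) L) := ⟨es (κ n), hκ0 n, fun L => Le.rfl'⟩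
  obtain ⟨Y, V', Z, h1, -, h2, h3⟩ := hrem _ hbig
  refine ⟨κ n + 1, (hκ n).trans (Nat.le_succ _), Z, h2, fun L => ?_⟩
  have e1 : cls R L.X = cls R (LinearMap.range (L.act c)) + gam c L :=
    (cls_target (L.act c)).symm
  have e2 : Le (gam c L) (pp (es (κ n)) L + Z L) := by
    refine (h3 L).trans (Le.add ?_ Le.rfl')
    have h4 : pp (es (κ n)) L = Y L + V' L := h1 L
    rw [h4]
    exact Le.left _ _
  have e3 : Le (cls R (LinearMap.range (L.act c)))
      (∑ i ∈ Finset.range n, pp (es (κ i)) L) := by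
    refine (cls_sum_le L n _).trans (Le.sum _ fun i _ => cls_mul_le L (a i) (b i))
  rw [e1]
  refine (e3.add e2).trans ?_
  rw [← add_assoc, ← Finset.sum_range_succ (fun i => pp (es (κ i)) L)]
  refine Le.add ?_ Le.rfl'
  rw [← Finset.sum_image (f := fun k => pp (es k) L) (g := κ)
    (fun i _ j _ hij => hκm.injective hij)]
  apply Le.sum_sub
  intro k hk
  obtain ⟨i, hi, rfl⟩ := Finset.mem_image.mp hk
  rw [Finset.mem_range] at hi
  rw [Finset.mem_Ico]
  exact ⟨hκ i, Nat.lt_succ_of_le (hκm.monotone (Nat.lt_succ_iff.mp hi))⟩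

theorem dom_mul [Nontrivial T] [IsArtinianRing Q] (hp : Prm Q) (hpT : Prm T) (h : IsOrd ι)
    {es : ℕ → T} (hinf : ∀ m, ∃ k, m ≤ k ∧ es k ≠ 0) (b m : ℕ) :
    ∃ N, m ≤ N ∧ ∃ Z : Bim T R → VR R, SmallI Z ∧
      ∀ L : Bim T R, Le (b • cls R L.X) ((∑ k ∈ Finset.Ico m N, pp (es k) L) + Z L) := by
  induction b with
  | zero =>
    refine ⟨m, le_rfl, fun _ => 0, SmallI.zero, fun L => ?_⟩
    rw [zero_nsmul]
    exact ⟨_, zero_add _⟩
  | succ b ih =>
    obtain ⟨N, hmN, Z, hZ, hL⟩ := ih
    obtain ⟨N', hNN', Z', hZ', hL'⟩ := dom_one (R := R) hp hpT h hinf N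
    refine ⟨N', hmN.trans hNN', fun L => Z L + Z' L, hZ.add hpT hZ', fun L => ?_⟩
    rw [succ_nsmul, ← Finset.sum_Ico_consecutive (fun k => pp (es k) L) hmN hNN',
      add_add_add_comm]
    exact (hL L).add (hL' L)

end Base

section Close
variable {T : Type v} [Ring T] {R : Type u} [Ring R] [VNR R]
  [IsNoetherianRing T] [IsNoetherianRing Tᵐᵒᵖ]

/-- functions supported on an ideal are dominated by images of `e` after passing to the part of the
module on which `e` is faithful -/
theorem ebound (hpT : Prm T) {e : T} (he0 : e ≠ 0) {Z : Bim T R → VR R} (hZ : SmallI Z) :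
    ∃ J : Ideal T, ∃ _ : J.IsTwoSided, J ≠ ⊥ ∧ ∃ c : ℕ, ∀ E : Bim T R,
      Le (Z (kapB (tsp e) E)) (c • (pp e (mulQ J E) + pp e (annB J E))) := by
  obtain ⟨J0, hJ0, hJ00, b, hb⟩ := hZ
  obtain ⟨a, ha, ha0⟩ := Submodule.exists_mem_ne_zero_of_ne_bot hJ00
  obtain ⟨t, ht⟩ : ∃ t, a * t * e ≠ 0 := by
    by_contra h
    push Not at h
    rcases hpT a e h with h1 | h1
    · exact ha0 h1
    · exact he0 h1
  obtain ⟨s, hs⟩ : ∃ s, e * s * (a * t * e) ≠ 0 := by
    by_contra h
    push Not at h
    rcases hpT e _ h with h1 | h1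
    · exact he0 h1
    · exact ht h1
  set d := e * s * (a * t * e) with hd
  obtain ⟨m, hm⟩ := mulC_bound (R := R) (le_refl (tsp e))
  obtain ⟨m', hm'⟩ := annC_bound (R := R) (le_refl (tsp e))
  refine ⟨tsp d, inferInstance, ?_, b * (m + m'), fun E => ?_⟩
  · intro h1
    apply hs
    have h2 := mem_tsp d
    rwa [h1, Ideal.mem_bot] at h2
  -- the elements of the ideal
  have hd1 : ∀ N : Submodule R E.X, (∀ r, ∀ v, ∀ x, E.act (r * (e * s * a) * (t * e * v)) x ∈ N) →
      ∀ j ∈ tsp d, ∀ x, E.act j x ∈ N := by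
    intro N hN j hj
    have h1 : ∀ j ∈ tsp d, ∀ r x, E.act (r * j) x ∈ N := by
      intro j hj
      induction hj using Submodule.span_induction with
      | mem j hj =>
        obtain ⟨v, rfl⟩ := hj
        intro r x
        have h2 : r * (d * v) = r * (e * s * a) * (t * e * v) := by
          rw [hd]
          noncomm_ring
        change E.act (r * (d * v)) x ∈ N
        rw [h2]
        exact hN r v x
      | zero =>
        intro r x
        rw [mul_zero, E.act_zero]
        exact N.zero_mem
      | add i j _ _ hi hj =>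
        intro r x
        rw [mul_add, E.act_add]
        exact N.add_mem (hi r x) (hj r x)
      | smul q j _ hj =>
        intro r x
        rw [smul_eq_mul, ← mul_assoc]
        exact hj _ x
    intro x
    have h2 := h1 j hj 1 x
    rwa [one_mul] at h2
  have i1 : Module.Projective R ((kapB (tsp e) E).X ⧸ mulC (J0 : Set T) (kapB (tsp e) E)) :=
    mulC_quo _ _
  have i2 : Module.Finite R (annC (J0 : Set T) (kapB (tsp e) E)) := annC_fin _ _
  have i3 : Module.Projective R (annC (J0 : Set T) (kapB (tsp e) E)) := annC_proj _ _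
  have q1 : Le (yq (J0 : Set T) (kapB (tsp e) E)) (ym (tsp e : Set T) (mulQ (tsp d) E)) := by
    have i4 : Module.Finite R (mulC (tsp e : Set T) (mulQ (tsp d) E)) := mulC_fin _ _
    have i5 : Module.Projective R (mulC (tsp e : Set T) (mulQ (tsp d) E)) := mulC_proj _ _
    set α : mulC (tsp e : Set T) E →ₗ[R] (mulQ (tsp d) E).X :=
      (mulC (tsp d : Set T) E).mkQ.comp (mulC (tsp e : Set T) E).subtype with hα
    set β : mulC (tsp e : Set T) E →ₗ[R]
        ((kapB (tsp e) E).X ⧸ mulC (J0 : Set T) (kapB (tsp e) E)) :=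
      (mulC (J0 : Set T) (kapB (tsp e) E)).mkQ.comp
        (annC (tsp e : Set T) (mulB (tsp e) E)).mkQ with hβ
    have h1 : Le (yq (J0 : Set T) (kapB (tsp e) E)) (cls R (LinearMap.range α)) := by
      refine le_of_ker α β ((Submodule.mkQ_surjective _).comp (Submodule.mkQ_surjective _)) ?_
      rintro ⟨v, hv0⟩ hv
      rw [LinearMap.mem_ker, hα, LinearMap.comp_apply, Submodule.mkQ_apply,
        Submodule.Quotient.mk_eq_zero] at hv
      -- `v` is in `tsp d · E`
      set N : Submodule R E.X := ((mulC (J0 : Set T) (kapB (tsp e) E)).comap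
        (annC (tsp e : Set T) (mulB (tsp e) E)).mkQ).map (mulC (tsp e : Set T) E).subtype with hN
      have h2 : mulC (tsp d : Set T) E ≤ N := by
        apply mulC_le
        intro j hj x
        apply hd1 N _ j hj
        intro r v x
        have h3 : E.act (t * e * v) x ∈ mulC (tsp e : Set T) E := by
          rw [mul_assoc]
          exact act_mem_mulC ((tsp e).mul_mem_left _ ((tsp_two e).mul_mem_of_left v (mem_tsp e))) x
        refine ⟨(mulB (tsp e) E).act (r * (e * s * a)) ⟨_, h3⟩, ?_, (E.act_mul _ _ _).symm⟩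
        rw [SetLike.mem_coe, Submodule.mem_comap]
        exact act_mem_mulC (C := kapB (tsp e) E)
          (J0.mul_mem_left r (J0.mul_mem_left (e * s) ha)) (Submodule.Quotient.mk ⟨_, h3⟩)
      obtain ⟨u, hu1, hu2⟩ := h2 hv
      have h3 : u = ⟨v, hv0⟩ := Subtype.ext hu2
      rw [h3] at hu1
      rw [LinearMap.mem_ker, hβ, LinearMap.comp_apply, Submodule.mkQ_apply,
        Submodule.Quotient.mk_eq_zero]
      exact hu1
    refine h1.trans (cls_le_of_le _ _ ?_)
    rw [hα, LinearMap.range_comp, Submodule.range_subtype, Submodule.map_le_iff_le_comap]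
    apply mulC_le
    intro j hj x
    exact act_mem_mulC (C := mulQ (tsp d) E) hj (Submodule.Quotient.mk x)
  have q2 : Le (ya (J0 : Set T) (kapB (tsp e) E)) (yp (tsp e : Set T) (annB (tsp d) E)) := by
    have i4 : Module.Projective R ((annB (tsp d) E).X ⧸ annC (tsp e : Set T) (annB (tsp d) E)) :=
      annC_quo _ _
    set P := LinearMap.ker ((annC (J0 : Set T) (kapB (tsp e) E)).mkQ.comp
      (annC (tsp e : Set T) (mulB (tsp e) E)).mkQ) with hP
    have i6 : Module.Projective R ((kapB (tsp e) E).X ⧸ annC (J0 : Set T) (kapB (tsp e) E)) :=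
      annC_quo _ _
    have hPm : ∀ v : P, (annC (tsp e : Set T) (mulB (tsp e) E)).mkQ v.1 ∈
        annC (J0 : Set T) (kapB (tsp e) E) := by
      rintro ⟨v, hv⟩
      rw [hP, LinearMap.mem_ker, LinearMap.comp_apply, Submodule.mkQ_apply,
        Submodule.Quotient.mk_eq_zero] at hv
      exact hv
    have hPz : ∀ v : P, v.1.1 ∈ annC (tsp d : Set T) E := by
      intro v
      have h1 := hPm v
      rw [mem_annC] at h1
      have h2 : ∀ j ∈ J0, ∀ i ∈ tsp e, E.act i (E.act j v.1.1) = 0 := by
        intro j hj i hi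
        have h3 : Submodule.Quotient.mk ((mulB (tsp e) E).act j v.1) =
          (0 : (kapB (tsp e) E).X) := h1 j hj
        rw [Submodule.Quotient.mk_eq_zero, mem_annC] at h3
        exact congrArg Subtype.val (h3 i hi)
      rw [mem_annC]
      intro j hj
      have h3 : tsp d ≤ ({ carrier := {p | E.act p v.1.1 = 0}
                           add_mem' := fun {a b} ha hb => by
                            change E.act (a + b) v.1.1 = 0
                            rw [E.act_add, show E.act a v.1.1 = 0 from ha,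
                              show E.act b v.1.1 = 0 from hb, add_zero]
                           zero_mem' := E.act_zero _
                           smul_mem' := fun r p hp => by
                            change E.act (r * p) v.1.1 = 0
                            rw [E.act_mul, show E.act p v.1.1 = 0 from hp, map_zero] } :
                              Ideal T) := by
        rw [tsp, Ideal.span_le]
        rintro _ ⟨w, rfl⟩
        change E.act (d * w) v.1.1 = 0
        have h4 : d * w = (e * s) * (a * (t * e * w)) := by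
          rw [hd]
          noncomm_ring
        rw [h4, E.act_mul]
        exact h2 _ (hJ0.mul_mem_of_left _ ha) _ ((tsp_two e).mul_mem_of_left s (mem_tsp e))
      exact h3 hj
    set γ : P →ₗ[R] annC (tsp d : Set T) E :=
      ((mulC (tsp e : Set T) E).subtype.comp P.subtype).codRestrict _ hPz with hγ
    set α : P →ₗ[R] ((annB (tsp d) E).X ⧸ annC (tsp e : Set T) (annB (tsp d) E)) :=
      (annC (tsp e : Set T) (annB (tsp d) E)).mkQ.comp γ with hα
    set β : P →ₗ[R] annC (J0 : Set T) (kapB (tsp e) E) :=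
      ((annC (tsp e : Set T) (mulB (tsp e) E)).mkQ.comp P.subtype).codRestrict _ hPm with hβ
    have h1 : Le (ya (J0 : Set T) (kapB (tsp e) E)) (cls R (LinearMap.range α)) := by
      refine le_of_ker α β ?_ ?_
      · rintro ⟨w, hw⟩
        obtain ⟨v, rfl⟩ := Submodule.mkQ_surjective _ w
        refine ⟨⟨v, ?_⟩, rfl⟩
        rw [hP, LinearMap.mem_ker, LinearMap.comp_apply, Submodule.mkQ_apply,
          Submodule.Quotient.mk_eq_zero]
        exact hw
      · intro v hv
        rw [LinearMap.mem_ker, hα, LinearMap.comp_apply, Submodule.mkQ_apply,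
          Submodule.Quotient.mk_eq_zero, mem_annC] at hv
        rw [LinearMap.mem_ker]
        apply Subtype.ext
        change Submodule.Quotient.mk v.1 = (0 : (kapB (tsp e) E).X)
        rw [Submodule.Quotient.mk_eq_zero, mem_annC]
        intro j hj
        have h2 : E.act j v.1.1 = 0 := congrArg Subtype.val (hv j hj)
        exact Subtype.ext h2
    exact h1.trans (le_of_inj (LinearMap.range α).subtype (Submodule.injective_subtype _))
  refine (hb _).trans ?_
  rw [mul_comm, mul_nsmul]
  apply Le.nsmul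
  refine Le.trans (Le.add (q1.trans (hm _)) (q2.trans (hm' _))) ?_
  rw [add_nsmul, nsmul_add, nsmul_add]
  refine ⟨m • pp e (annB (tsp d) E) + m' • pp e (mulQ (tsp d) E), ?_⟩
  abel

omit [IsNoetherianRing T] [IsNoetherianRing Tᵐᵒᵖ] in
theorem pp_kill {e : T} (C : Bim T R) (h : C.act e = 0) : pp e C = 0 := by
  have h2 : Subsingleton (LinearMap.range (C.act e)) := by
    have h0 : ∀ x, C.act e x = 0 := fun x => by rw [h, LinearMap.zero_apply]
    constructor
    rintro ⟨_, x, rfl⟩ ⟨_, y, rfl⟩
    exact Subtype.ext ((h0 x).trans (h0 y).symm)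
  rw [pp, cls_subsingleton]

/-- the part of a module on which `e` is faithful has the same image of `e` -/
theorem pp_kap_self {e : T} (he : e * e = e) (L : Bim T R) : pp e L = pp e (kapB (tsp e) L) := by
  rw [pp_kap (tsp e) L he, pp_kill (mulQ (tsp e) L) (mulQ_kill _ _ e (mem_tsp e)),
    pp_kill (annB (tsp e) (mulB (tsp e) L)) (annB_kill _ _ e (mem_tsp e)), add_zero, add_zero]

/-- the inequality for prime rings -/
theorem prime_dom (hpT : Prm T) {e : T} (he : e * e = e) (he0 : e ≠ 0) {es : ℕ → T}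
    (hinf : ∀ m, ∃ k, m ≤ k ∧ es k ≠ 0) (b m : ℕ) :
    ∃ N, m ≤ N ∧ ∃ J : Ideal T, ∃ _ : J.IsTwoSided, J ≠ ⊥ ∧ ∃ c : ℕ, ∀ L : Bim T R,
      Le (b • pp e L) ((∑ k ∈ Finset.Ico m N, pp (es k) L) +
        c • (pp e (mulQ J L) + pp e (annB J L))) := by
  obtain ⟨Q, hQ, ι, h, hart, hp⟩ := exists_ord hpT
  have hnt : Nontrivial T := ⟨e, 0, he0⟩
  obtain ⟨N, hmN, Z, hZ, hL⟩ := dom_mul (R := R) hp hpT h hinf b m
  obtain ⟨J, hJ, hJ0, c, hc⟩ := ebound (R := R) hpT he0 hZ
  refine ⟨N, hmN, J, hJ, hJ0, c, fun L => ?_⟩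
  have i1 : Module.Finite R (annC (tsp e : Set T) (mulB (tsp e) L)) := annC_fin _ _
  have i2 : Module.Projective R (annC (tsp e : Set T) (mulB (tsp e) L)) := annC_proj _ _
  have i3 : Module.Projective R ((mulB (tsp e) L).X ⧸ annC (tsp e : Set T) (mulB (tsp e) L)) :=
    annC_quo _ _
  rw [pp_kap_self he L]
  refine (Le.nsmul ?_ b).trans ((hL (kapB (tsp e) L)).trans (Le.add (Le.sum _ fun k _ => ?_) (hc L)))
  · exact le_of_inj (LinearMap.range ((kapB (tsp e) L).act e)).subtype
      (Submodule.injective_subtype _)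
  · exact (pp_quo_le _ _ _ _).trans (pp_sub_le _ _ _ _)

end Close

end SepNoe
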