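import Pool.Agent.Lib.MP_dccecd_al.NoeChi

/-! Units of prime left Artinian rings modulo transvections at minimal idempotents (for
MP_dccecd_al, the noetherian base theorem). -/

open SepReg SepFin

namespace SepNoe

universe u v w

section Unit
variable {L : Type*} [Ring L]

/-- every unit agrees, modulo transvections, with a unit supported on a minimal idempotent -/
theorem lamgenM [IsArtinianRing L] (hp : Prm L) {K : Type*} [AddCommGroup K] (ρ : Lˣ → K)
    (hmul : ∀ g h, ρ (g * h) = ρ g + ρ h)
    (htr : ∀ (s N : L) (_ : Mn s) (hN : N * N = 0)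
      (_ : (s * N = N ∧ N * s = 0) ∨ (N * s = N ∧ s * N = 0)), ρ (tr N hN) = 0) {s0 : L} (hs0 : Mn s0) :
    ∀ (I : Ideal L) (ε : L), I = Ideal.span {ε} → ε * ε = ε → ∀ g : Lˣ,
      (g : L) * (1 - ε) = 1 - ε → (1 - ε) * (g : L) = 1 - ε →
      ∃ w : Lˣ, (w : L) * (1 - s0) = 1 - s0 ∧ (1 - s0) * (w : L) = 1 - s0 ∧ ρ w = ρ g := by
  have hone : ρ 1 = 0 := by
    have h1 := hmul 1 1
    rw [mul_one] at h1
    exact left_eq_add.mp h1
  have hinv : ∀ g, ρ g⁻¹ = - ρ g := by
    intro g
    have h1 := hmul g g⁻¹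
    rw [mul_inv_cancel, hone] at h1
    rw [eq_neg_iff_add_eq_zero, add_comm]
    exact h1.symm
  intro I
  induction I using WellFoundedLT.induction with
  | ind I ih =>
    intro ε hI hε g hg1 hg2
    by_cases h0 : ε = 0
    · subst h0
      rw [sub_zero, mul_one] at hg1
      have h1 : g = 1 := Units.ext hg1
      refine ⟨1, ?_, ?_, ?_⟩
      · rw [Units.val_one, one_mul]
      · rw [Units.val_one, mul_one]
      · rw [h1]
    obtain ⟨s, hs, hgs, hsg⟩ := exists_min hp hε h0
    set ε2 := ε - s with hε2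
    have m5 : ε2 * s = 0 := by rw [hε2, sub_mul, hgs, hs.idem, sub_self]
    have m6 : s * ε2 = 0 := by rw [hε2, mul_sub, hsg, hs.idem, sub_self]
    have l1 : ε2 * ε2 = ε2 := by
      rw [hε2, mul_sub, sub_mul, sub_mul, hε, hsg, hgs, hs.idem]
      abel
    have hes : (1 - ε) * s = 0 := by rw [sub_mul, one_mul, hgs, sub_self]
    have hse : s * (1 - ε) = 0 := by rw [mul_sub, mul_one, hsg, sub_self]
    have he2 : (1 - ε) * ε2 = 0 := by
      rw [hε2, mul_sub, hes, sub_mul, one_mul, hε, sub_self, sub_zero]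
    have he2' : ε2 * (1 - ε) = 0 := by
      rw [hε2, sub_mul, hse, mul_sub, mul_one, hε, sub_self, sub_zero]
    have hlt : Ideal.span {ε2} < I := by
      rw [hI]
      refine lt_of_le_of_ne ?_ ?_
      · rw [Ideal.span_le]
        rintro _ rfl
        rw [SetLike.mem_coe, Ideal.mem_span_singleton']
        exact ⟨ε - s, by rw [sub_mul, hε, hsg]⟩
      · intro h
        have h7 : s ∈ (Ideal.span {ε2} : Ideal L) := by
          rw [h, Ideal.mem_span_singleton']
          exact ⟨s, hsg⟩
        obtain ⟨t, ht⟩ := Ideal.mem_span_singleton'.mp h7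
        apply hs.ne
        rw [← hs.idem]
        nth_rewrite 1 [← ht]
        rw [mul_assoc, m5, mul_zero]
    -- the main step
    have key : ∀ g : Lˣ, (g : L) * (1 - ε) = 1 - ε → (1 - ε) * (g : L) = 1 - ε →
        s * (g : L) * s ≠ 0 →
        ∃ w : Lˣ, (w : L) * (1 - s0) = 1 - s0 ∧ (1 - s0) * (w : L) = 1 - s0 ∧ ρ w = ρ g := by
      intro g hg1 hg2 hsgs
      set α := s * (g : L) * s with hα
      have sα : s * α = α := by rw [hα, ← mul_assoc, ← mul_assoc, hs.idem]
      have αs : α * s = α := by rw [hα, mul_assoc, hs.idem]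
      obtain ⟨β, sβ, βs, hβα, hαβ⟩ := hs.pair hs sα αs hsgs
      have b1 : β * ε2 = 0 := by rw [← βs, mul_assoc, m6, mul_zero]
      have b2 : ε2 * β = 0 := by rw [← sβ, ← mul_assoc, m5, zero_mul]
      have b3 : β * (1 - ε) = 0 := by rw [← βs, mul_assoc, hse, mul_zero]
      have b4 : (1 - ε) * β = 0 := by rw [← sβ, ← mul_assoc, hes, zero_mul]
      have gs : (g : L) * s = α + ε2 * g * s := by
        have h1 : (1 - ε) * (g : L) * s = 0 := by rw [hg2, hes]
        calc (g : L) * s = (1 - ε) * g * s + (s * g * s + ε2 * g * s) := by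
              rw [hε2]
              noncomm_ring
          _ = _ := by rw [h1, zero_add]
      have sg' : s * (g : L) = α + s * g * ε2 := by
        have h1 : s * ((g : L) * (1 - ε)) = 0 := by rw [hg1, hse]
        calc s * (g : L) = s * (g * (1 - ε)) + (s * g * s + s * g * ε2) := by
              rw [hε2]
              noncomm_ring
          _ = _ := by rw [h1, zero_add]
      set N1 := ε2 * (g : L) * β with hN1
      set N2 := β * (g : L) * ε2 with hN2
      have n1 : ε2 * (-N1) = -N1 := by
        rw [mul_neg, hN1, ← mul_assoc, ← mul_assoc, l1]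
      have n2 : (-N1) * ε2 = 0 := by
        rw [neg_mul, hN1, mul_assoc, b1, mul_zero, neg_zero]
      have n3 : (-N1) * (-N1) = 0 := by
        nth_rewrite 2 [← n1]
        rw [← mul_assoc, n2, zero_mul]
      have n4 : s * (-N2) = -N2 := by
        rw [mul_neg, hN2, ← mul_assoc, ← mul_assoc, sβ]
      have n5 : (-N2) * s = 0 := by
        rw [neg_mul, hN2, mul_assoc, m5, mul_zero, neg_zero]
      have n6 : (-N2) * (-N2) = 0 := by
        nth_rewrite 2 [← n4]
        rw [← mul_assoc, n5, zero_mul]
      set g3 : Lˣ := tr (-N1) n3 * g * tr (-N2) n6 with hg3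
      have hg3v : (g3 : L) = (1 - N1) * g * (1 - N2) := by
        rw [hg3, Units.val_mul, Units.val_mul, tr_val, tr_val, ← sub_eq_add_neg, ← sub_eq_add_neg]
      have c1 : (1 - s) * β = 0 := by rw [sub_mul, one_mul, sβ, sub_self]
      have c2 : β * (1 - s) = 0 := by rw [mul_sub, mul_one, βs, sub_self]
      have c3 : (1 - s) * α = 0 := by rw [sub_mul, one_mul, sα, sub_self]
      have c4 : α * (1 - s) = 0 := by rw [mul_sub, mul_one, αs, sub_self]
      have c5 : (1 - s) * (1 - s) = 1 - s := by
        rw [mul_sub, mul_one, sub_mul, one_mul, hs.idem, sub_self, sub_zero]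
      set gα : Lˣ :=
        { val := α + (1 - s)
          inv := β + (1 - s)
          val_inv := by
            rw [add_mul, mul_add, mul_add, hαβ, c4, c1, c5, add_zero, zero_add, add_sub_cancel]
          inv_val := by
            rw [add_mul, mul_add, mul_add, hβα, c2, c3, c5, add_zero, zero_add,
              add_sub_cancel] } with hgα
      have hgαv : (gα : L) = α + (1 - s) := rfl
      have hgαi : (↑gα⁻¹ : L) = β + (1 - s) := rfl
      have e3 : (1 - ε2 : L) = (1 - ε) + s := by rw [hε2]; abel
      have q1 : (g3 : L) * (1 - ε2) = gα * (1 - ε2) := by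
        have r1 : (1 - N2) * (1 - ε2) = 1 - ε2 := by
          rw [sub_mul, one_mul, mul_sub N2, mul_one, hN2, mul_assoc (β * (g : L)), l1, sub_self,
            sub_zero]
        have r2 : N1 * (1 - ε) = 0 := by rw [hN1, mul_assoc, b3, mul_zero]
        have r3 : N1 * ((g : L) * s) = ε2 * g * s := by
          calc N1 * ((g : L) * s) = ε2 * g * (β * s * g * s) := by rw [hN1, βs]; noncomm_ring
            _ = ε2 * g * (β * α) := by rw [hα]; noncomm_ring
            _ = ε2 * g * s := by rw [hβα]
        calc (g3 : L) * (1 - ε2) = (1 - N1) * g * ((1 - N2) * (1 - ε2)) := by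
              rw [hg3v, mul_assoc]
          _ = (1 - N1) * (g * (1 - ε) + g * s) := by rw [r1, e3]; noncomm_ring
          _ = (1 - ε) + g * s - N1 * (1 - ε) - N1 * (g * s) := by rw [hg1]; noncomm_ring
          _ = (1 - ε) + α := by rw [r2, r3, gs]; abel
          _ = α + (1 - s) - α * ε2 - (ε2 - s * ε2) := by
            have r4 : α * ε2 = 0 := by rw [← αs, mul_assoc, m6, mul_zero]
            rw [r4, m6, hε2]
            abel
          _ = gα * (1 - ε2) := by rw [hgαv]; noncomm_ring
      have q2 : (1 - ε2) * (g3 : L) = (1 - ε2) * gα := by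
        have r1 : (1 - ε2) * (1 - N1) = 1 - ε2 := by
          rw [mul_sub, mul_one, sub_mul, one_mul, hN1, ← mul_assoc ε2, ← mul_assoc ε2, l1, sub_self,
            sub_zero]
        have r2 : (1 - ε) * N2 = 0 := by rw [hN2, ← mul_assoc, ← mul_assoc, b4, zero_mul, zero_mul]
        have r3 : s * (g : L) * N2 = s * g * ε2 := by
          calc s * (g : L) * N2 = s * g * (s * β) * g * ε2 := by rw [hN2, sβ]; noncomm_ring
            _ = (α * β) * g * ε2 := by rw [hα]; noncomm_ring
            _ = s * g * ε2 := by rw [hαβ]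
        calc (1 - ε2) * (g3 : L) = ((1 - ε2) * (1 - N1)) * g * (1 - N2) := by
              rw [hg3v]
              noncomm_ring
          _ = ((1 - ε) * g + s * g) * (1 - N2) := by rw [r1, e3]; noncomm_ring
          _ = (1 - ε) + s * g - (1 - ε) * N2 - s * g * N2 := by rw [hg2]; noncomm_ring
          _ = (1 - ε) + α := by
            rw [r2, r3]
            nth_rewrite 1 [sg']
            abel
          _ = α + (1 - s) - ε2 * α - (ε2 - ε2 * s) := by
            have r4 : ε2 * α = 0 := by rw [← sα, ← mul_assoc, m5, zero_mul]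
            rw [r4, m5, hε2]
            abel
          _ = (1 - ε2) * gα := by rw [hgαv]; noncomm_ring
      set g2 : Lˣ := gα⁻¹ * g3 with hg2'
      have p1 : (g2 : L) * (1 - ε2) = 1 - ε2 := by
        rw [hg2', Units.val_mul, mul_assoc, q1, ← mul_assoc, Units.inv_mul, one_mul]
      have p2 : (1 - ε2) * (g2 : L) = 1 - ε2 := by
        have r1 : (1 - ε2) * (↑gα⁻¹ : L) = ↑gα⁻¹ * (1 - ε2) := by
          rw [hgαi, sub_mul, one_mul, mul_add, b2, mul_sub, mul_one, m5, mul_sub, mul_one, add_mul,
            b1, sub_mul, one_mul, m6]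
        have r2 : (1 - ε2) * (gα : L) = gα * (1 - ε2) := by
          have r3 : α * ε2 = 0 := by rw [← αs, mul_assoc, m6, mul_zero]
          have r4 : ε2 * α = 0 := by rw [← sα, ← mul_assoc, m5, zero_mul]
          rw [hgαv, sub_mul, one_mul, mul_add, r4, mul_sub, mul_one, m5, mul_sub, mul_one, add_mul,
            r3, sub_mul, one_mul, m6]
        rw [hg2', Units.val_mul, ← mul_assoc, r1, mul_assoc, q2, r2, ← mul_assoc, Units.inv_mul,
          one_mul]
      obtain ⟨w2, w21, w22, w23⟩ := ih (Ideal.span {ε2}) hlt ε2 rfl l1 g2 p1 p2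
      obtain ⟨c, hc⟩ := hs.conjugate hp hs0
      have hc' : (c : L) * (1 - s) = (1 - s0) * c := by
        rw [mul_sub, mul_one, sub_mul, one_mul, hc]
      have hci : (↑c⁻¹ : L) * (1 - s0) = (1 - s) * ↑c⁻¹ := by
        calc (↑c⁻¹ : L) * (1 - s0) = ↑c⁻¹ * ((1 - s0) * c) * ↑c⁻¹ := by
              rw [mul_assoc, mul_assoc, Units.mul_inv, mul_one]
          _ = (1 - s) * ↑c⁻¹ := by rw [← hc', ← mul_assoc, Units.inv_mul, one_mul]
      have g5 : (gα : L) * (1 - s) = 1 - s := by rw [hgαv, add_mul, c4, c5, zero_add]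
      have g6 : (1 - s) * (gα : L) = 1 - s := by rw [hgαv, mul_add, c3, c5, zero_add]
      refine ⟨c * gα * c⁻¹ * w2, ?_, ?_, ?_⟩
      · rw [Units.val_mul, mul_assoc, w21, Units.val_mul, Units.val_mul, mul_assoc, hci,
          ← mul_assoc, mul_assoc (c : L), g5, hc', mul_assoc, Units.mul_inv, mul_one]
      · rw [Units.val_mul, Units.val_mul, Units.val_mul, ← mul_assoc, ← mul_assoc, ← mul_assoc,
          ← hc', mul_assoc (c : L), g6, hc', mul_assoc (1 - s0 : L), Units.mul_inv, mul_one, w22]
      · have n7 : (-N1) * s = -N1 := by rw [neg_mul, hN1, mul_assoc, βs]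
        have n8 : s * (-N1) = 0 := by
          rw [mul_neg, hN1, ← mul_assoc, ← mul_assoc, m6, zero_mul, zero_mul, neg_zero]
        have t1 : ρ g3 = ρ g := by
          rw [hg3, hmul, hmul, htr s (-N1) hs n3 (Or.inr ⟨n7, n8⟩),
            htr s (-N2) hs n6 (Or.inl ⟨n4, n5⟩), zero_add, add_zero]
        have t2 : ρ g2 = - ρ gα + ρ g3 := by rw [hg2', hmul, hinv]
        rw [hmul, hmul, hmul, hinv, w23, t2, t1]
        abel
    by_cases hsgs : s * (g : L) * s = 0
    · have h1 : ε2 * (g : L) * s ≠ 0 := by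
        intro h1
        have h2 : (g : L) * s = 0 := by
          have h3 : (1 - ε) * (g : L) * s = 0 := by rw [hg2, hes]
          calc (g : L) * s = (1 - ε) * g * s + (s * g * s + ε2 * g * s) := by
                rw [hε2]
                noncomm_ring
            _ = 0 := by rw [h3, hsgs, h1, add_zero, add_zero]
        apply hs.ne
        calc s = ↑g⁻¹ * ((g : L) * s) := by rw [← mul_assoc, Units.inv_mul, one_mul]
          _ = 0 := by rw [h2, mul_zero]
      obtain ⟨t, ht⟩ := hs.min (ε2 * (g : L) * s) (by rw [mul_assoc, hs.idem]) h1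
      set X := s * t * ε2 with hX
      have x1 : s * X = X := by rw [hX, ← mul_assoc, ← mul_assoc, hs.idem]
      have x2 : X * s = 0 := by rw [hX, mul_assoc, m5, mul_zero]
      have x3 : X * X = 0 := by
        nth_rewrite 2 [← x1]
        rw [← mul_assoc, x2, zero_mul]
      have x4 : X * (1 - ε) = 0 := by rw [hX, mul_assoc, he2', mul_zero]
      have x5 : (1 - ε) * X = 0 := by rw [← x1, ← mul_assoc, hes, zero_mul]
      have x6 : X * (g : L) * s = s := by
        calc X * (g : L) * s = s * (t * (ε2 * g * s)) := by rw [hX]; noncomm_ring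
          _ = s := by rw [ht, hs.idem]
      obtain ⟨w, w1, w2, w3⟩ := key (tr X x3 * g)
        (by rw [Units.val_mul, mul_assoc, hg1, tr_val, add_mul, one_mul, x4, add_zero])
        (by rw [Units.val_mul, ← mul_assoc, tr_val, mul_add, mul_one, x5, add_zero, hg2])
        (by
          rw [Units.val_mul, tr_val]
          have : s * ((1 + X) * (g : L)) * s = s * g * s + s * X * g * s := by noncomm_ring
          rw [this, hsgs, x1, x6, zero_add]
          exact hs.ne)
      refine ⟨w, w1, w2, ?_⟩
      rw [w3, hmul, htr s X hs x3 (Or.inl ⟨x1, x2⟩), zero_add]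
    · exact key g hg1 hg2 hsgs

end Unit
end SepNoe
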