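import Pool.Agent.Lib.MP_dccecd_al.Mono

/-! Finitely generated projective modules over von Neumann regular rings (for MP_dccecd_al). -/

open Cardinal

namespace SepReg

universe u

/-- von Neumann regular rings -/
class VNR (R : Type u) [Ring R] : Prop where
  reg : ∀ a : R, ∃ x : R, a * x * a = a

section Reg
variable {R : Type u} [Ring R]

/-- every element of the module is regular -/
def ZReg (R : Type u) [Ring R] (P : Type*) [AddCommGroup P] [Module R P] : Prop :=
  ∀ m : P, ∃ f : P →ₗ[R] R, f m • m = m

/-- right multiplication as a linear map -/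
def rmul (e : R) : R →ₗ[R] R where
  toFun v := v * e
  map_add' := fun v w => add_mul v w e
  map_smul' := fun r v => by simp [mul_assoc]

theorem rmul_apply (e v : R) : rmul e v = v * e := rfl

theorem zreg_self [VNR R] : ZReg R R := by
  intro m
  obtain ⟨x, hx⟩ := VNR.reg m
  exact ⟨rmul x, by rw [rmul_apply, smul_eq_mul, hx]⟩

theorem zreg_prod {P Q : Type*} [AddCommGroup P] [Module R P] [AddCommGroup Q] [Module R Q]
    (hP : ZReg R P) (hQ : ZReg R Q) : ZReg R (P × Q) := by
  rintro ⟨m1, m2⟩
  obtain ⟨f1, h1⟩ := hP m1
  set e := f1 m1 with he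
  obtain ⟨f2, h2⟩ := hQ (m2 - e • m2)
  set g : (P × Q) →ₗ[R] Q := LinearMap.snd R P Q - (LinearMap.toSpanSingleton R Q m2).comp
    (f1.comp (LinearMap.fst R P Q)) with hg
  have hg1 : g (m1, m2) = m2 - e • m2 := by
    simp [hg, he]
  refine ⟨f1.comp (LinearMap.fst R P Q) + (rmul (1 - e)).comp (f2.comp g), ?_⟩
  have h3 : (f1.comp (LinearMap.fst R P Q) + (rmul (1 - e)).comp (f2.comp g)) (m1, m2)
      = e + f2 (m2 - e • m2) * (1 - e) := by
    simp only [LinearMap.add_apply, LinearMap.comp_apply, LinearMap.fst_apply, hg1, rmul_apply, he]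
  rw [h3]
  ext
  · simp only [Prod.smul_mk]
    rw [add_smul, mul_smul, sub_smul, one_smul, h1, sub_self, smul_zero, add_zero]
  · simp only [Prod.smul_mk]
    rw [add_smul, mul_smul, sub_smul, one_smul, h2]
    abel

theorem zreg_of_injective {P Q : Type*} [AddCommGroup P] [Module R P] [AddCommGroup Q] [Module R Q]
    (i : P →ₗ[R] Q) (hi : Function.Injective i) (hQ : ZReg R Q) : ZReg R P := by
  intro m
  obtain ⟨f, hf⟩ := hQ (i m)
  refine ⟨f.comp i, hi ?_⟩
  rw [map_smul, LinearMap.comp_apply, hf]

theorem zreg_fin [VNR R] (n : ℕ) : ZReg R (Fin n → R) := by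
  induction n with
  | zero =>
    intro m
    exact ⟨0, Subsingleton.elim _ _⟩
  | succ n ih =>
    have h := zreg_prod (zreg_self (R := R)) ih
    exact zreg_of_injective (Fin.consLinearEquiv R (fun _ : Fin (n + 1) => R)).symm.toLinearMap
      (LinearEquiv.injective _) h

theorem zreg_proj [VNR R] (P : Type*) [AddCommGroup P] [Module R P] [Module.Finite R P]
    [Module.Projective R P] : ZReg R P := by
  obtain ⟨n, f, hf⟩ := Module.Finite.exists_fin' R P
  obtain ⟨g, hg⟩ := Module.projective_lifting_property f LinearMap.id hf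
  refine zreg_of_injective g ?_ (zreg_fin n)
  intro x y hxy
  have h1 := LinearMap.congr_fun hg x
  have h2 := LinearMap.congr_fun hg y
  simp only [LinearMap.comp_apply, LinearMap.id_apply] at h1 h2
  rw [← h1, ← h2, hxy]

/-- projection onto the span of a list -/
theorem exists_proj {P : Type*} [AddCommGroup P] [Module R P] (hP : ZReg R P) (l : List P) :
    ∃ r : P →ₗ[R] P, (∀ v, r (r v) = r v) ∧ LinearMap.range r = Submodule.span R {x | x ∈ l} := by
  induction hn : l.length generalizing l with
  | zero =>
    have hl : l = [] := List.length_eq_zero_iff.mp hn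
    subst hl
    exact ⟨0, by simp, by simp⟩
  | succ n ih =>
    obtain ⟨a, l, rfl⟩ : ∃ a l', l = a :: l' := List.exists_cons_of_length_eq_add_one hn
    obtain ⟨f, hf⟩ := hP a
    set p : P →ₗ[R] P := (LinearMap.toSpanSingleton R P a).comp f with hp
    have hpa : ∀ v, p v = f v • a := fun v => rfl
    have hpp : ∀ v, p (p v) = p v := by
      intro v
      rw [hpa (p v), hpa v, map_smul, smul_eq_mul, mul_smul, hf]
    have hlen : (l.map fun x => x - p x).length = n := by
      simpa using hn
    obtain ⟨q, hq, hqr⟩ := ih _ hlen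
    have hpq : ∀ v, p (q v) = 0 := by
      intro v
      have h1 : q v ∈ LinearMap.range q := ⟨v, rfl⟩
      rw [hqr] at h1
      have h2 : Submodule.span R {x | x ∈ l.map fun x => x - p x} ≤ LinearMap.ker p := by
        rw [Submodule.span_le]
        intro x hx
        obtain ⟨y, -, rfl⟩ := List.mem_map.mp hx
        rw [SetLike.mem_coe, LinearMap.mem_ker, map_sub, hpp, sub_self]
      exact h2 h1
    refine ⟨p + q.comp (LinearMap.id - p), ?_, ?_⟩
    · intro v
      simp only [LinearMap.add_apply, LinearMap.comp_apply, LinearMap.sub_apply, LinearMap.id_apply,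
        map_add, map_sub, hpp, hpq, hq]
      abel
    · apply le_antisymm
      · rintro _ ⟨v, rfl⟩
        simp only [LinearMap.add_apply, LinearMap.comp_apply, LinearMap.sub_apply,
          LinearMap.id_apply]
        apply Submodule.add_mem
        · rw [hpa]
          exact Submodule.smul_mem _ _ (Submodule.subset_span (by simp))
        · have h1 : q (v - p v) ∈ LinearMap.range q := ⟨_, rfl⟩
          rw [hqr] at h1
          refine (Submodule.span_le.mpr ?_) h1
          intro x hx
          obtain ⟨y, hy, rfl⟩ := List.mem_map.mp hx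
          rw [SetLike.mem_coe]
          apply Submodule.sub_mem
          · exact Submodule.subset_span (by simp [hy])
          · rw [hpa]
            exact Submodule.smul_mem _ _ (Submodule.subset_span (by simp))
      · rw [Submodule.span_le]
        have hmem_a : a ∈ LinearMap.range (p + q.comp (LinearMap.id - p)) := by
          refine ⟨a, ?_⟩
          have : p a = a := by rw [hpa, hf]
          simp [this]
        intro x hx
        rcases List.mem_cons.mp hx with rfl | hx
        · exact hmem_a
        · have h1 : x - p x ∈ LinearMap.range q := by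
            rw [hqr]
            exact Submodule.subset_span (List.mem_map.mpr ⟨x, hx, rfl⟩)
          obtain ⟨w, hw⟩ := h1
          have h2 : x - p x ∈ LinearMap.range (p + q.comp (LinearMap.id - p)) := by
            refine ⟨x - p x, ?_⟩
            have hz : p (x - p x) = 0 := by rw [map_sub, hpp, sub_self]
            have hqx : q (x - p x) = x - p x := by rw [← hw, hq]
            simp only [LinearMap.add_apply, LinearMap.comp_apply, LinearMap.sub_apply,
              LinearMap.id_apply, hz, sub_zero, zero_add]
            exact hqx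
          have h3 : p x ∈ LinearMap.range (p + q.comp (LinearMap.id - p)) := by
            rw [hpa]
            exact Submodule.smul_mem _ _ hmem_a
          have := Submodule.add_mem _ h2 h3
          simpa using this

variable {P Q : Type*} [AddCommGroup P] [Module R P] [AddCommGroup Q] [Module R Q]

theorem exists_proj_fg [VNR R] [Module.Finite R P] [Module.Projective R P] (N : Submodule R P)
    (hN : N.FG) : ∃ r : P →ₗ[R] P, (∀ v, r (r v) = r v) ∧ LinearMap.range r = N := by
  obtain ⟨s, hs⟩ := hN
  obtain ⟨r, h1, h2⟩ := exists_proj (zreg_proj (R := R) P) s.toList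
  refine ⟨r, h1, ?_⟩
  rw [h2, ← hs]
  congr 1
  ext x
  simp

theorem range_fg [Module.Finite R P] (f : P →ₗ[R] Q) : (LinearMap.range f).FG := by
  rw [LinearMap.range_eq_map]
  exact Submodule.FG.map f Module.Finite.fg_top

instance inst_range_fin [Module.Finite R P] (f : P →ₗ[R] Q) : Module.Finite R (LinearMap.range f) :=
  inferInstance

theorem proj_of_fg [VNR R] [Module.Finite R P] [Module.Projective R P] (N : Submodule R P)
    (hN : N.FG) : Module.Projective R N := by
  obtain ⟨r, h1, h2⟩ := exists_proj_fg N hN
  refine Module.Projective.of_split N.subtype (r.codRestrict N (fun v => h2 ▸ ⟨v, rfl⟩)) ?_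
  ext v
  obtain ⟨w, hw⟩ : (v : P) ∈ LinearMap.range r := by rw [h2]; exact v.2
  simp only [LinearMap.comp_apply, Submodule.subtype_apply, LinearMap.codRestrict_apply,
    LinearMap.id_apply]
  rw [← hw, h1]

instance inst_range_proj [VNR R] [Module.Finite R P] [Module.Finite R Q] [Module.Projective R Q]
    (f : P →ₗ[R] Q) : Module.Projective R (LinearMap.range f) :=
  proj_of_fg _ (range_fg f)

/-- splitting of a map onto a projective range -/
theorem ker_proj [VNR R] [Module.Finite R P] [Module.Finite R Q] [Module.Projective R Q]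
    (f : P →ₗ[R] Q) : ∃ r : P →ₗ[R] P, (∀ v, r (r v) = r v) ∧ LinearMap.range r = LinearMap.ker f := by
  obtain ⟨g, hg⟩ := Module.projective_lifting_property f.rangeRestrict LinearMap.id
    f.surjective_rangeRestrict
  have h1 : ∀ v, f (g (f.rangeRestrict v)) = f v := by
    intro v
    have := LinearMap.congr_fun hg (f.rangeRestrict v)
    exact congrArg Subtype.val this
  refine ⟨LinearMap.id - g.comp f.rangeRestrict, ?_, ?_⟩
  · intro v
    have h2 : f.rangeRestrict (v - g (f.rangeRestrict v)) = 0 := by
      apply Subtype.ext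
      change f (v - g (f.rangeRestrict v)) = 0
      rw [map_sub, h1, sub_self]
    simp only [LinearMap.sub_apply, LinearMap.id_apply, LinearMap.comp_apply, h2, map_zero, sub_zero]
  · ext v
    constructor
    · rintro ⟨w, rfl⟩
      rw [LinearMap.mem_ker, LinearMap.sub_apply, LinearMap.id_apply, LinearMap.comp_apply, map_sub,
        h1, sub_self]
    · intro hv
      refine ⟨v, ?_⟩
      have h2 : f.rangeRestrict v = 0 := Subtype.ext hv
      simp [h2]

instance inst_ker_fin [VNR R] [Module.Finite R P] [Module.Finite R Q] [Module.Projective R Q]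
    (f : P →ₗ[R] Q) : Module.Finite R (LinearMap.ker f) := by
  obtain ⟨r, -, h⟩ := ker_proj f
  rw [← h]
  infer_instance

instance inst_ker_proj [VNR R] [Module.Finite R P] [Module.Projective R P] [Module.Finite R Q]
    [Module.Projective R Q] (f : P →ₗ[R] Q) : Module.Projective R (LinearMap.ker f) := by
  apply proj_of_fg
  exact Module.Finite.iff_fg.mp inferInstance

instance inst_coker_proj [VNR R] [Module.Finite R P] [Module.Finite R Q] [Module.Projective R Q]
    (f : P →ₗ[R] Q) : Module.Projective R (Q ⧸ LinearMap.range f) := by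
  obtain ⟨r, h1, h2⟩ := exists_proj_fg (LinearMap.range f) (range_fg f)
  have h3 : LinearMap.range f ≤ LinearMap.ker (LinearMap.id - r) := by
    rw [← h2]
    rintro _ ⟨v, rfl⟩
    simp [h1]
  refine Module.Projective.of_split ((LinearMap.range f).liftQ (LinearMap.id - r) h3)
    (LinearMap.range f).mkQ ?_
  apply LinearMap.ext
  intro x
  obtain ⟨v, rfl⟩ := Submodule.mkQ_surjective _ x
  simp only [LinearMap.comp_apply, Submodule.mkQ_apply, Submodule.liftQ_apply, LinearMap.sub_apply,
    LinearMap.id_apply]
  rw [Submodule.Quotient.mk_sub, sub_eq_self, Submodule.Quotient.mk_eq_zero, ← h2]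
  exact ⟨v, rfl⟩

/-- kernel and range decompose the source -/
theorem source_equiv [VNR R] [Module.Finite R P] [Module.Finite R Q] [Module.Projective R Q]
    (f : P →ₗ[R] Q) : Nonempty ((LinearMap.ker f × LinearMap.range f) ≃ₗ[R] P) := by
  obtain ⟨g, hg⟩ := Module.projective_lifting_property f.rangeRestrict LinearMap.id
    f.surjective_rangeRestrict
  have h1 : ∀ w : LinearMap.range f, f (g w) = w := by
    intro w
    have := LinearMap.congr_fun hg w
    exact congrArg Subtype.val this
  refine ⟨LinearEquiv.ofBijective ((LinearMap.ker f).subtype.coprod g) ⟨?_, ?_⟩⟩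
  · rw [injective_iff_map_eq_zero]
    rintro ⟨v, w⟩ h
    rw [LinearMap.coprod_apply] at h
    have h2 : f ((LinearMap.ker f).subtype v + g w) = 0 := by rw [h, map_zero]
    have h3 : f v = 0 := v.2
    rw [map_add, Submodule.subtype_apply, h3, zero_add, h1] at h2
    have h4 : w = 0 := Subtype.ext h2
    rw [h4, map_zero, add_zero] at h
    have h5 : v = 0 := Subtype.ext h
    rw [h4, h5]
    rfl
  · intro x
    refine ⟨(⟨x - g (f.rangeRestrict x), ?_⟩, f.rangeRestrict x), ?_⟩
    · rw [LinearMap.mem_ker, map_sub, h1]
      exact sub_self _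
    · rw [LinearMap.coprod_apply]
      simp

/-- range and cokernel decompose the target -/
theorem target_equiv [VNR R] [Module.Finite R P] [Module.Finite R Q] [Module.Projective R Q]
    (f : P →ₗ[R] Q) : Nonempty ((LinearMap.range f × (Q ⧸ LinearMap.range f)) ≃ₗ[R] Q) := by
  obtain ⟨e⟩ := source_equiv (LinearMap.range f).mkQ
  have h1 : LinearMap.ker (LinearMap.range f).mkQ = LinearMap.range f := Submodule.ker_mkQ _
  have h2 : LinearMap.range (LinearMap.range f).mkQ = ⊤ := Submodule.range_mkQ _
  exact ⟨((LinearEquiv.ofEq _ _ h1).symm.prodCongr (LinearEquiv.ofTop _ h2).symm).trans e⟩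

end Reg
end SepReg
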