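import Pool.Agent.Lib.MP_dccecd_al.Reg

/-! The monoid of isomorphism classes of finitely generated projective modules (for MP_dccecd_al). -/

open Cardinal

set_option linter.unusedSectionVars false

namespace SepReg

universe u

/-- finitely generated projective modules -/
structure FGP (R : Type u) [Ring R] : Type (u + 1) where
  carrier : Type u
  [grp : AddCommGroup carrier]
  [mod : Module R carrier]
  [fin : Module.Finite R carrier]
  [proj : Module.Projective R carrier]

attribute [instance] FGP.grp FGP.mod FGP.fin FGP.proj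

section VRing
variable {R : Type u} [Ring R]

instance fgpSetoid (R : Type u) [Ring R] : Setoid (FGP R) where
  r P Q := Nonempty (P.carrier ≃ₗ[R] Q.carrier)
  iseqv := ⟨fun P => ⟨LinearEquiv.refl R P.carrier⟩, fun ⟨e⟩ => ⟨e.symm⟩, fun ⟨e⟩ ⟨f⟩ => ⟨e.trans f⟩⟩

/-- isomorphism classes of finitely generated projective modules -/
def VR (R : Type u) [Ring R] : Type (u + 1) := Quotient (fgpSetoid R)

/-- the class of a module -/
def cls (R : Type u) [Ring R] (P : Type u) [AddCommGroup P] [Module R P] [Module.Finite R P]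
    [Module.Projective R P] : VR R := Quotient.mk (fgpSetoid R) ⟨P⟩

theorem cls_eq {P Q : Type u} [AddCommGroup P] [Module R P] [Module.Finite R P]
    [Module.Projective R P] [AddCommGroup Q] [Module R Q] [Module.Finite R Q]
    [Module.Projective R Q] : cls R P = cls R Q ↔ Nonempty (P ≃ₗ[R] Q) :=
  ⟨fun h => Quotient.exact (s := fgpSetoid R) h, fun h => Quotient.sound (s := fgpSetoid R) h⟩

theorem cls_congr {P Q : Type u} [AddCommGroup P] [Module R P] [Module.Finite R P]
    [Module.Projective R P] [AddCommGroup Q] [Module R Q] [Module.Finite R Q]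
    [Module.Projective R Q] (e : P ≃ₗ[R] Q) : cls R P = cls R Q := cls_eq.mpr ⟨e⟩

theorem exists_rep (x : VR R) : ∃ P : FGP R, cls R P.carrier = x := by
  obtain ⟨P, rfl⟩ := Quotient.exists_rep x
  exact ⟨P, rfl⟩

instance : Add (VR R) where
  add := Quotient.map₂ (fun P Q => ⟨P.carrier × Q.carrier⟩) (by
    rintro P P' ⟨e⟩ Q Q' ⟨f⟩
    exact ⟨e.prodCongr f⟩)

instance : Zero (VR R) where
  zero := cls R PUnit.{u + 1}

theorem cls_prod {P Q : Type u} [AddCommGroup P] [Module R P] [Module.Finite R P]
    [Module.Projective R P] [AddCommGroup Q] [Module R Q] [Module.Finite R Q]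
    [Module.Projective R Q] : cls R (P × Q) = cls R P + cls R Q := rfl

theorem cls_zero : cls R PUnit.{u + 1} = 0 := rfl

instance : AddCommMonoid (VR R) where
  add_assoc x y z := by
    obtain ⟨P, rfl⟩ := exists_rep x
    obtain ⟨Q, rfl⟩ := exists_rep y
    obtain ⟨S, rfl⟩ := exists_rep z
    rw [← cls_prod, ← cls_prod, ← cls_prod, ← cls_prod]
    exact cls_congr (LinearEquiv.prodAssoc R P.carrier Q.carrier S.carrier)
  zero_add x := by
    obtain ⟨P, rfl⟩ := exists_rep x
    rw [← cls_zero, ← cls_prod]
    exact cls_congr (LinearEquiv.uniqueProd)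
  add_zero x := by
    obtain ⟨P, rfl⟩ := exists_rep x
    rw [← cls_zero, ← cls_prod]
    exact cls_congr (LinearEquiv.prodUnique)
  add_comm x y := by
    obtain ⟨P, rfl⟩ := exists_rep x
    obtain ⟨Q, rfl⟩ := exists_rep y
    rw [← cls_prod, ← cls_prod]
    exact cls_congr (LinearEquiv.prodComm R P.carrier Q.carrier)
  nsmul := nsmulRec

variable {P Q : Type u} [AddCommGroup P] [Module R P] [Module.Finite R P]
    [Module.Projective R P] [AddCommGroup Q] [Module R Q] [Module.Finite R Q]
    [Module.Projective R Q]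

theorem cls_source [VNR R] (f : P →ₗ[R] Q) :
    cls R (LinearMap.ker f) + cls R (LinearMap.range f) = cls R P := by
  rw [← cls_prod]
  exact cls_eq.mpr (source_equiv f)

theorem cls_target [VNR R] (f : P →ₗ[R] Q) :
    cls R (LinearMap.range f) + cls R (Q ⧸ LinearMap.range f) = cls R Q := by
  rw [← cls_prod]
  exact cls_eq.mpr (target_equiv f)

theorem le_of_inj [VNR R] (f : P →ₗ[R] Q) (hf : Function.Injective f) : Le (cls R P) (cls R Q) := by
  have h1 : cls R P = cls R (LinearMap.range f) := cls_congr (LinearEquiv.ofInjective f hf)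
  exact ⟨_, by rw [h1]; exact cls_target f⟩

theorem le_of_surj [VNR R] (f : P →ₗ[R] Q) (hf : Function.Surjective f) : Le (cls R Q) (cls R P) := by
  have h1 : cls R (LinearMap.range f) = cls R Q :=
    cls_congr (LinearEquiv.ofTop _ (LinearMap.range_eq_top.mpr hf))
  exact ⟨cls R (LinearMap.ker f), by rw [← h1, add_comm]; exact cls_source f⟩

theorem riesz_VR [VNR R] : Riesz (VR R) := by
  rintro x y z ⟨w, hw⟩
  obtain ⟨X, rfl⟩ := exists_rep x
  obtain ⟨Y, rfl⟩ := exists_rep y
  obtain ⟨Z, rfl⟩ := exists_rep z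
  obtain ⟨W, rfl⟩ := exists_rep w
  rw [← cls_prod, ← cls_prod] at hw
  obtain ⟨e⟩ := cls_eq.mp hw
  set f : X.carrier →ₗ[R] Z.carrier := (LinearMap.snd R _ _).comp
    (e.toLinearMap.comp (LinearMap.inl R X.carrier W.carrier)) with hf
  set g : X.carrier →ₗ[R] Y.carrier := (LinearMap.fst R _ _).comp
    (e.toLinearMap.comp (LinearMap.inl R X.carrier W.carrier)) with hg
  refine ⟨cls R (LinearMap.ker f), cls R (LinearMap.range f), cls_source f, ?_, ?_⟩
  · apply le_of_inj (g.comp (LinearMap.ker f).subtype)
    rw [injective_iff_map_eq_zero]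
    rintro ⟨v, hv⟩ h
    have h1 : g v = 0 := h
    have h2 : f v = 0 := hv
    have h3 : e (LinearMap.inl R X.carrier W.carrier v) = 0 := Prod.ext h1 h2
    have h4 := (LinearEquiv.map_eq_zero_iff e).mp h3
    have h5 : v = 0 := congrArg Prod.fst h4
    exact Subtype.ext h5
  · exact le_of_inj (LinearMap.range f).subtype (Submodule.injective_subtype _)

/-- kernel and cokernel classes of a composite with a surjection -/
theorem comp_classes [VNR R] {C : Type u} [AddCommGroup C] [Module R C] [Module.Finite R C]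
    [Module.Projective R C] (s : C →ₗ[R] P) (p : P →ₗ[R] Q) (hp : Function.Surjective p) :
    ∃ k1 a1 : VR R, a1 + k1 = cls R (LinearMap.ker p) ∧
      a1 + cls R (Q ⧸ LinearMap.range (p.comp s)) = cls R (P ⧸ LinearMap.range s) ∧
      cls R (LinearMap.ker s) + k1 = cls R (LinearMap.ker (p.comp s)) := by
  set τ : LinearMap.ker p →ₗ[R] (P ⧸ LinearMap.range s) :=
    (LinearMap.range s).mkQ.comp (LinearMap.ker p).subtype with hτ
  refine ⟨cls R (LinearMap.ker τ), cls R (LinearMap.range τ), ?_, ?_, ?_⟩
  · rw [add_comm]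
    exact cls_source τ
  · have hle : LinearMap.range s ≤ (LinearMap.range (p.comp s)).comap p := by
      rintro _ ⟨v, rfl⟩
      exact ⟨v, rfl⟩
    set pb : (P ⧸ LinearMap.range s) →ₗ[R] (Q ⧸ LinearMap.range (p.comp s)) :=
      (LinearMap.range s).mapQ (LinearMap.range (p.comp s)) p hle with hpb
    have hpb_surj : Function.Surjective pb := by
      intro y
      obtain ⟨w, rfl⟩ := Submodule.mkQ_surjective _ y
      obtain ⟨v, rfl⟩ := hp w
      exact ⟨(LinearMap.range s).mkQ v, rfl⟩
    have hker : LinearMap.ker pb = LinearMap.range τ := by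
      ext y
      obtain ⟨v, rfl⟩ := Submodule.mkQ_surjective _ y
      constructor
      · intro h
        have h1 : (Submodule.Quotient.mk (p v) : Q ⧸ LinearMap.range (p.comp s)) = 0 := h
        rw [Submodule.Quotient.mk_eq_zero] at h1
        obtain ⟨c, hc⟩ := h1
        rw [LinearMap.comp_apply] at hc
        refine ⟨⟨v - s c, ?_⟩, ?_⟩
        · rw [LinearMap.mem_ker, map_sub, hc, sub_self]
        · have h2 : (LinearMap.range s).mkQ (s c) = 0 := by
            rw [Submodule.mkQ_apply, Submodule.Quotient.mk_eq_zero]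
            exact ⟨c, rfl⟩
          change (LinearMap.range s).mkQ (v - s c) = (LinearMap.range s).mkQ v
          rw [map_sub, h2, sub_zero]
      · rintro ⟨⟨w, hw⟩, h⟩
        rw [← h]
        change (Submodule.Quotient.mk (p w) : Q ⧸ LinearMap.range (p.comp s)) = 0
        rw [LinearMap.mem_ker.mp hw]
        rfl
    have h1 := cls_source pb
    have h2 : cls R (LinearMap.range pb) = cls R (Q ⧸ LinearMap.range (p.comp s)) :=
      cls_congr (LinearEquiv.ofTop _ (LinearMap.range_eq_top.mpr hpb_surj))
    have h3 : cls R (LinearMap.ker pb) = cls R (LinearMap.range τ) :=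
      cls_congr (LinearEquiv.ofEq _ _ hker)
    rw [← h1, h2, h3]
  · have hmem : ∀ c : LinearMap.ker (p.comp s), s c ∈ LinearMap.ker p := fun c => c.2
    set ρ : LinearMap.ker (p.comp s) →ₗ[R] LinearMap.ker p :=
      (s.comp (LinearMap.ker (p.comp s)).subtype).codRestrict (LinearMap.ker p) hmem with hρ
    have h1 := cls_source ρ
    have h2 : LinearMap.range ρ = LinearMap.ker τ := by
      ext ⟨v, hv⟩
      constructor
      · rintro ⟨c, hc⟩
        have h3 : s c = v := congrArg Subtype.val hc
        change (LinearMap.range s).mkQ v = 0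
        rw [← h3, Submodule.mkQ_apply, Submodule.Quotient.mk_eq_zero]
        exact ⟨c, rfl⟩
      · intro h
        have h3 : (LinearMap.range s).mkQ v = 0 := h
        rw [Submodule.mkQ_apply, Submodule.Quotient.mk_eq_zero] at h3
        obtain ⟨c, hc⟩ := h3
        refine ⟨⟨c, ?_⟩, ?_⟩
        · rw [LinearMap.mem_ker, LinearMap.comp_apply, hc]
          exact hv
        · exact Subtype.ext hc
    have h3 : cls R (LinearMap.range ρ) = cls R (LinearMap.ker τ) :=
      cls_congr (LinearEquiv.ofEq _ _ h2)
    have hle : LinearMap.ker s ≤ LinearMap.ker (p.comp s) := LinearMap.ker_le_ker_comp s p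
    have h4 : cls R (LinearMap.ker s) = cls R (LinearMap.ker ρ) := by
      apply cls_congr
      refine LinearEquiv.ofBijective ((Submodule.inclusion hle).codRestrict (LinearMap.ker ρ) ?_) ⟨?_, ?_⟩
      · rintro ⟨v, hv⟩
        apply Subtype.ext
        exact hv
      · intro v w h
        have h5 := congrArg Subtype.val h
        exact Submodule.inclusion_injective hle h5
      · rintro ⟨⟨v, hv⟩, h⟩
        have h5 : s v = 0 := congrArg Subtype.val h
        exact ⟨⟨v, h5⟩, rfl⟩
    rw [← h3, h4, h1]

end VRing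
end SepReg
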